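import Mathlib

/-!
# MP_bcc40c_pr: sharp lower bounds for distances and diameter (helper39, directory H39/HG)

Common definitions.  `D` is a finite set of darts, `f` is a permutation of `D` all of whose
cycles have length three (the triangles), `α` is an involution (the edges; a fixed point of `α`
is called a leg, it is an unglued side of a triangle).  The vertices of the map are the cycles of
`σ = f * α`; the dart `d` starts at the vertex of `d` and ends at the vertex of `f d`, which is
also the vertex of `α d`.  `α * f⁻¹` is the rotation around the starting vertex (the inverse of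
`σ` when `α` is an involution).
-/

set_option autoImplicit false

namespace HG39

open Equiv

/-- plane binary trees whose leaves are up steps `u` and down steps `d` -/
inductive Tr : Type
  | u : Tr
  | d : Tr
  | nd : Tr → Tr → Tr
  deriving DecidableEq

namespace Tr

/-- total height change of the contour -/
def wt : Tr → ℤ
  | u => 1
  | d => -1
  | nd a b => a.wt + b.wt

/-- number of inner nodes -/
def sz : Tr → ℕ
  | u => 0
  | d => 0
  | nd a b => a.sz + b.sz + 1

/-- depth of the contour below its starting level -/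
def ht : Tr → ℤ
  | u => 0
  | d => 1
  | nd a b => max a.ht (b.ht - a.wt)

/-- every inner node has weight `0` or `-1` -/
def ok : Tr → Prop
  | u => True
  | d => True
  | nd a b => a.ok ∧ b.ok ∧ (a.wt + b.wt = 0 ∨ a.wt + b.wt = -1)

end Tr

variable {D : Type} [Fintype D] [DecidableEq D]

/-- all cycles of `f` have length three -/
structure TF (f : Perm D) : Prop where
  three : ∀ d, f (f (f d)) = d
  nf : ∀ d, f d ≠ d

/-- number of cycles of a permutation, fixed points included -/
noncomputable def cyc (π : Perm D) : ℕ :=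
  Nat.card (Quotient (Equiv.Perm.SameCycle.setoid π))

/-- multiplication on the right by transpositions, one after the other -/
def glue (π : Perm D) (l : List (D × D)) : Perm D :=
  l.foldl (fun π p => π * swap p.1 p.2) π

/-- all entries of a list of pairs -/
def ent (l : List (D × D)) : List D := l.flatMap (fun p => [p.1, p.2])

/-- the darts of the triangles with the given roots -/
def tri (f : Perm D) (bs : List D) : List D := bs.flatMap (fun b => [b, f b, f (f b)])

/-- a partial triangulation: the legs are exactly the darts of the free triangles `bs`, the rest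
is connected -/
structure PT (f α : Perm D) (bs : List D) : Prop where
  inv : ∀ d, α (α d) = d
  leg : ∀ d, α d = d ↔ d ∈ tri f bs
  ndp : (tri f bs).Nodup
  con : ∀ P : D → Prop, (∃ d, α d ≠ d ∧ P d) → (∀ d, P d → P (f d)) → (∀ d, P d → P (α d)) →
    ∀ d, α d ≠ d → P d

/-- leaf triangles: `w` is the base, the two other sides are glued together -/
def Leaf (f α : Perm D) (w : D) : Prop := α (f w) = f (f w)

/-- number of leaf triangles (= number of vertices of degree one) -/
noncomputable def lfc (f α : Perm D) : ℕ := Nat.card {w : D // Leaf f α w}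

/-- descending darts -/
def Desc (f : Perm D) (ℓ : D → ℤ) (d : D) : Prop := ℓ (f d) = ℓ d - 1

/-- distance labels from a vertex, described locally (on the non-legs) -/
structure Lab (f α : Perm D) (ℓ : D → ℤ) : Prop where
  nn : ∀ d, α d ≠ d → 0 ≤ ℓ d
  ver : ∀ d, α d ≠ d → ℓ (f d) = ℓ (α d)
  lip : ∀ d, α d ≠ d → ℓ (f d) ≤ ℓ d + 1
  dsc : ∀ d, α d ≠ d → 0 < ℓ d → ∃ d', (f * α).SameCycle d d' ∧ α d' ≠ d' ∧ Desc f ℓ d'
  zro : ∀ d d', α d ≠ d → α d' ≠ d' → ℓ d = 0 → ℓ d' = 0 → (f * α).SameCycle d d'
  ex0 : ∃ d, α d ≠ d ∧ ℓ d = 0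

/-- a `ρ`-path from `a` to `b`; all its darts but the last one satisfy `S` -/
def Pth (ρ : Perm D) (S : D → Prop) (a b : D) : Prop :=
  ∃ k : ℕ, (ρ ^ k) a = b ∧ ∀ j < k, S ((ρ ^ j) a)

/-- `δ` is the first descending dart in the rotation starting at `y` -/
def Fst (f α : Perm D) (ℓ : D → ℤ) (y δ : D) : Prop :=
  Desc f ℓ δ ∧ Pth (α * f⁻¹) (fun z => ¬ Desc f ℓ z) y δ

/-- leftmost geodesics (lists of descending darts) down to level `0` -/
structure Geo (f α : Perm D) (ℓ : D → ℤ) (δs : List D) : Prop where
  desc : ∀ δ ∈ δs, Desc f ℓ δ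
  next : ∀ (p q : List D) (a b : D), δs = p ++ a :: b :: q → Fst f α ℓ (α a) b
  last : ∀ (p : List D) (a : D), δs = p ++ [a] → ℓ (f a) = 0

/-- a tree `τ` of triangles of the map, hanging on the dart `y`, with roots `rs` (in preorder)
and leaves `lv` (in contour order, with the sign of the step) -/
inductive Emb (f α : Perm D) (ℓ : D → ℤ) : Tr → D → List D → List (D × Bool) → Prop
  | u (y : D) (h : ℓ (f y) = ℓ y + 1) : Emb f α ℓ .u y [] [(y, true)]
  | d (y : D) (h : ℓ (f y) = ℓ y - 1) : Emb f α ℓ .d y [] [(y, false)]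
  | nd (a b : Tr) (y b0 : D) (ra rb : List D) (la lb : List (D × Bool))
      (h1 : α y = b0) (h2 : α b0 = y) (h3 : ℓ b0 = ℓ (f y)) (h4 : ℓ (f b0) = ℓ y)
      (hw : a.wt + b.wt = 0 ∨ a.wt + b.wt = -1)
      (ha : Emb f α ℓ a (f b0) ra la) (hb : Emb f α ℓ b (f (f b0)) rb lb) :
      Emb f α ℓ (.nd a b) y (b0 :: (ra ++ rb)) (la ++ lb)

/-- growing a tree of triangles at the dart `y`, the roots are taken from the list; result:
glued pairs, leaves, unused roots -/
def grow (f : Perm D) : Tr → D → List D → (List (D × D)) × (List (D × Bool)) × (List D)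
  | .u, y, bs => ([], [(y, true)], bs)
  | .d, y, bs => ([], [(y, false)], bs)
  | .nd _ _, _, [] => ([], [], [])
  | .nd a b, y, b0 :: bs =>
    let ra := grow f a (f b0) bs
    let rb := grow f b (f (f b0)) ra.2.2
    ((y, b0) :: (ra.1 ++ rb.1), ra.2.1 ++ rb.2.1, rb.2.2)

/-- parentheses: `scan lv st` reads the leaves `lv` with the stack `st` of open up steps (top
first); result: matched pairs (up, down), unmatched down steps, final stack -/
def scan : List (D × Bool) → List D → (List (D × D)) × (List D) × (List D)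
  | [], st => ([], [], st)
  | (y, true) :: l, st => scan l (y :: st)
  | (y, false) :: l, [] => let r := scan l []; (r.1, y :: r.2.1, r.2.2)
  | (y, false) :: l, x :: st => let r := scan l st; ((x, y) :: r.1, r.2.1, r.2.2)

/-- the list `c` is a cycle of `π` -/
structure CL (π : Perm D) (c : List D) : Prop where
  ne : c ≠ []
  ndp : c.Nodup
  rot : c.map π = c.rotate 1

/-- the word `l` is read on a cycle of `π` -/
def Bw (π : Perm D) (l : List D) : Prop := ∃ c, CL π c ∧ l.Sublist c

/-- slices: the triangle of `e`, the tree `nd d T` on `f e`, the up step `f (f e)`; matched pairs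
`pr`, left boundary `As`, right boundary `Bs` (both starting at the base) -/
structure Slc (f α : Perm D) (ℓ : D → ℤ) (r : ℕ) (e : D) (T : Tr) (bs : List D)
    (lv : List (D × Bool)) (pr : List (D × D)) (As Bs : List D) : Prop where
  rp : 1 ≤ r
  okT : T.ok
  wtT : T.wt = 0
  htT : T.ht = (r : ℤ) - 1
  emb : Emb f α ℓ (.nd .d T) (f e) bs lv
  ndp : (tri f (e :: bs)).Nodup
  sc : scan (lv ++ [(f (f e), true)]) [] = (pr, As, Bs)
  mt : ∀ p ∈ pr, α p.1 = p.2 ∧ α p.2 = p.1
  le : ℓ e = r
  lfe : ℓ (f e) = r

/-- the graph of the map -/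
def gr (σ α : Perm D) : SimpleGraph (Quotient (Equiv.Perm.SameCycle.setoid σ)) where
  Adj a b := a ≠ b ∧ ∃ x : D,
    ((Quotient.mk (Equiv.Perm.SameCycle.setoid σ) x = a ∧
      Quotient.mk (Equiv.Perm.SameCycle.setoid σ) (α x) = b) ∨
     (Quotient.mk (Equiv.Perm.SameCycle.setoid σ) x = b ∧
      Quotient.mk (Equiv.Perm.SameCycle.setoid σ) (α x) = a))
  symm := ⟨fun _ _ h => ⟨h.1.symm, h.2.imp fun _ hx => hx.symm⟩⟩
  loopless := ⟨fun _ h => h.1 rfl⟩

/-- distance between the starting vertices of two darts -/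
noncomputable def dst (f α : Perm D) (a b : D) : ℕ :=
  (gr (f * α) α).dist (Quotient.mk (Equiv.Perm.SameCycle.setoid (f * α)) a)
    (Quotient.mk (Equiv.Perm.SameCycle.setoid (f * α)) b)

/-- the representative dart of the starting vertex of `a` -/
noncomputable def rep (f α : Perm D) (a : D) : D :=
  Quotient.out (Quotient.mk (Equiv.Perm.SameCycle.setoid (f * α)) a)

/-- removal of the unit (leaf triangle and its collar) with base `w` -/
def rmv (f α : Perm D) (w : D) : Perm D :=
  glue α [(w, α w), (f w, f (f w)), (f (α w), α (f (α w))), (f (f (α w)), α (f (f (α w)))),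
    (α (f (α w)), α (f (f (α w))))]

/-- insertion of a unit (leaf triangle `w`, collar `z`) into the edge `x, α x` -/
def ins (f α : Perm D) (w z x : D) : Perm D :=
  glue α [(x, α x), (w, z), (f w, f (f w)), (f z, x), (f (f z), α x)]

/-- the cuts along the list `δs` (the last edge first) -/
def cuts (α : Perm D) (δs : List D) : List (D × D) := (δs.map fun δ => (δ, α δ)).reverse

/-- the leaves `lv` are read from level `s` to level `s'` -/
def Lvs (f : Perm D) (ℓ : D → ℤ) : ℤ → List (D × Bool) → ℤ → Prop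
  | s, [], s' => s = s'
  | s, p :: l, s' => ℓ p.1 = s ∧ ℓ (f p.1) = s + (if p.2 then 1 else -1) ∧
      Lvs f ℓ (s + (if p.2 then 1 else -1)) l s'

/-- lowest level of the walk `lv` started at `s` -/
def low : ℤ → List (D × Bool) → ℤ
  | s, [] => s
  | s, p :: l => min s (low (s + (if p.2 then 1 else -1)) l)

/-- a stack of up steps, the top one ends at level `s` -/
def StOK (f : Perm D) (ℓ : D → ℤ) : ℤ → List D → Prop
  | _, [] => True
  | s, x :: st => ℓ (f x) = s ∧ ℓ x = s - 1 ∧ StOK f ℓ (s - 1) st

/-- consecutive down steps, the first one starts at level `s` -/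
def DnOK (f : Perm D) (ℓ : D → ℤ) : ℤ → List D → Prop
  | _, [] => True
  | s, a :: As => ℓ a = s ∧ ℓ (f a) = s - 1 ∧ DnOK f ℓ (s - 1) As

/-- balanced words, all pairs glued by `α` -/
inductive Bal (α : Perm D) : List (D × Bool) → Prop
  | nil : Bal α []
  | cat (l1 l2 : List (D × Bool)) (x y : D) (h : α y = x) (h1 : Bal α l1) (h2 : Bal α l2) :
      Bal α (l1 ++ (x, true) :: (l2 ++ [(y, false)]))

/-- words with unmatched down steps `As` (in order) and then unmatched up steps `Bs` (last
first) -/
inductive Dec (α : Perm D) : List (D × Bool) → List D → List D → Prop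
  | nil (X : List (D × Bool)) (hX : Bal α X) : Dec α X [] []
  | dn (l X : List (D × Bool)) (As : List D) (A : D) (h : Dec α l As []) (hX : Bal α X) :
      Dec α (l ++ (A, false) :: X) (As ++ [A]) []
  | up (l X : List (D × Bool)) (As Bs : List D) (B : D) (h : Dec α l As Bs) (hX : Bal α X) :
      Dec α (l ++ (B, true) :: X) As (B :: Bs)

/-- triangulations with `v` vertices on the given set of triangles -/
def TS (f : Perm D) (v : ℕ) : Set (Perm D) := {α | PT f α [] ∧ cyc (f * α) = v}

/-- admissible trees for the height `r` and the size `K` -/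
def Adm (r K : ℕ) (T : Tr) : Prop := T.ok ∧ T.wt = 0 ∧ T.ht = (r : ℤ) - 1 ∧ T.sz + 3 = 2 * K

/-- configurations: a partial triangulation with `2 j` free triangles and a pair of (representatives
of) vertices at distance `r` -/
def Xc (f : Perm D) (v r j M : ℕ) : Set (Perm D × List D × D × D) :=
  {c | PT f c.1 c.2.1 ∧ c.2.1.length = 2 * j ∧ cyc (f * c.1) = v + j ∧ M ≤ lfc f c.1 ∧
    rep f c.1 c.2.2.1 = c.2.2.1 ∧ rep f c.1 c.2.2.2 = c.2.2.2 ∧
    ∃ ℓ : D → ℤ, Lab f c.1 ℓ ∧ c.1 c.2.2.1 ≠ c.2.2.1 ∧ ℓ c.2.2.1 = 0 ∧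
      c.1 c.2.2.2 ≠ c.2.2.2 ∧ ℓ c.2.2.2 = r}

/-- pairs of (representatives of) vertices at distance `r` in triangulations with at least `M`
leaf triangles -/
def Pr (f : Perm D) (v r M : ℕ) : Set (Perm D × D × D) :=
  {c | c.1 ∈ TS f v ∧ M ≤ lfc f c.1 ∧ rep f c.1 c.2.1 = c.2.1 ∧ rep f c.1 c.2.2 = c.2.2 ∧
    dst f c.1 c.2.1 c.2.2 = r}

/-- the pairs glued when a slice is inserted along the geodesic `δ1 :: δs` -/
def newPairs (f α : Perm D) (e c : D) (bs : List D) (T : Tr) (δ1 : D) (δs : List D) :
    List (D × D) :=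
  let g := grow f (.nd .d T) (f e) bs
  let s := scan g.2.1 []
  (δ1, f (f e)) :: (e, c) :: (f c, f (f c)) ::
    (g.1 ++ s.1 ++ s.2.2.zip δs ++ s.2.1.reverse.zip ((δ1 :: δs).map α).reverse)

/-- insertion of a slice along the geodesic `δ1 :: δs` -/
def insS (f α : Perm D) (e c : D) (bs : List D) (T : Tr) (δ1 : D) (δs : List D) : Perm D :=
  glue α (cuts α (δ1 :: δs) ++ newPairs f α e c bs T δ1 δs)

/-- an inserted slice: the slice itself, its cap `c`, its boundary darts are glued to the outside,
the right boundary to descending darts, the left boundary is a leftmost geodesic -/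
structure Item (f α : Perm D) (ℓ : D → ℤ) (r : ℕ) (e c : D) (T : Tr) (bs : List D)
    (lv : List (D × Bool)) (pr : List (D × D)) (As Bs : List D) : Prop where
  lab : Lab f α ℓ
  slc : Slc f α ℓ r e T bs lv pr As Bs
  cap : α e = c ∧ α c = e ∧ α (f c) = f (f c) ∧ α (f (f c)) = f c
  ndc : (tri f (e :: c :: bs)).Nodup
  outA : ∀ A ∈ As, α A ∉ tri f (e :: c :: bs)
  outB : ∀ B ∈ Bs, α B ∉ tri f (e :: c :: bs)
  dB : ∀ B ∈ Bs, Desc f ℓ (α B)
  geoA : Geo f α ℓ As

/-- tentacles: closed slices with base `w` -/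
structure Ten (f α : Perm D) (ℓ : D → ℤ) (r : ℕ) (w : D) (T : Tr) (bs : List D)
    (lv : List (D × Bool)) (pr : List (D × D)) (As Bs : List D) : Prop where
  slc : Slc f α ℓ r w T bs lv pr As Bs
  cl : ∀ p ∈ As.zip Bs, α p.1 = p.2 ∧ α p.2 = p.1
  out : α w ∉ tri f (w :: bs)

/-- `w` is the base of a tentacle of type `T` -/
def TenW (f α : Perm D) (r : ℕ) (w : D) (T : Tr) : Prop :=
  ∃ (ℓ : D → ℤ) (bs : List D) (lv : List (D × Bool)) (pr : List (D × D)) (As Bs : List D),
    Ten f α ℓ r w T bs lv pr As Bs

/-- bases of tentacles with type in `F` -/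
def TB (f α : Perm D) (r : ℕ) (F : Finset Tr) : Set D := {w | ∃ T ∈ F, TenW f α r w T}

/-- pieces: closed under `f`, closed under `α` except for the base -/
structure Pc (f α : Perm D) (P : Set D) (a : D) : Prop where
  base : a ∈ P
  cf : ∀ d ∈ P, f d ∈ P
  ca : ∀ d ∈ P, d ≠ a → α d ∈ P
  out : α a ∉ P

/-- exchange of the pieces with bases `a` and `b` -/
def xch (α : Perm D) (a b : D) : Perm D := swap a b * α * swap a b

end HG39
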