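import Pool.Agent.H39.HG.Defs

/-!
[H39 HG ZSWAP]  (MP_bcc40c_pr)  Number of cycles and one transposition.  Mathlib only.

PROOF.  Let `π' = π * swap a b`; `π' a = π b`, `π' b = π a`, `π' x = π x` for the other `x`.
(1) diff: assume `¬ π.SameCycle a b`.  Claim: `π'.SameCycle x y` iff (`π.SameCycle x y`) or (both
`x` and `y` are in the `π`-cycle of `a` or of `b`).  Indeed the relation R(x,y) on the right is an
equivalence relation and `R x (π' x)` always holds, so SameCycle π' implies R.  Conversely the
`π'`-orbit of `a` runs `a, π b, π^2 b, ..., b` (as long as the orbit of `π b` under `π` does not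
meet `a` or `b` the two permutations agree; it meets `b` first, because `a` is not in the cycle
of `b`), and then `π' b = π a, ..., a`; so the cycle of `a` under `π'` contains both old cycles;
for an `x` outside of these two cycles all powers agree.  Hence the quotient of `π'` is the
quotient of `π` with two different classes identified: the map Quotient π -> Quotient π' is
well defined, surjective, and two different classes have the same image iff they are the
classes of `a` and `b`.  Cardinality: `cyc π' + 1 = cyc π`.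
(2) same: assume `a ≠ b` and `π.SameCycle a b`.  Then `¬ π'.SameCycle a b`: let `k ≥ 1` be minimal
with `π^k a = b`; then `π' b = π a` and `π'^j b = π^j a` for `1 ≤ j ≤ k` (the points `π^j a`, `0 < j < k`
are different from `b` by minimality and from `a`, since `π^j a = a` would give `π^(k-j) a = b`),
so `π'^k b = b` and the `π'`-orbit of `b` is `{π^j a, 1 ≤ j ≤ k}`, which does not contain `a`.
Now apply (1) to `π'`: `π' * swap a b = π`, hence `cyc π + 1 = cyc π'`.
-/

set_option autoImplicit false

namespace HG39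

open Equiv

variable {D : Type} [Fintype D] [DecidableEq D]

theorem zs_ind (π : Perm D) (R : D → D → Prop) (hrefl : ∀ x, R x x)
    (htrans : ∀ x y z, R x y → R y z → R x z) (hstep : ∀ x, R x (π x)) {x y : D}
    (h : π.SameCycle x y) : R x y := by
  obtain ⟨n, hn0, hn⟩ := h.exists_pow_eq'
  rw [← hn]
  clear hn hn0
  induction n with
  | zero => exact hrefl x
  | succ n ih =>
    rw [pow_succ', Perm.mul_apply]
    exact htrans _ _ _ ih (hstep _)

theorem zs_ab (π : Perm D) (a b : D) (h : ¬ π.SameCycle a b) :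
    (π * swap a b).SameCycle a b := by
  classical
  have hex : ∃ k, 1 ≤ k ∧ (π ^ k) b = b :=
    ⟨orderOf π, orderOf_pos π, by rw [pow_orderOf_eq_one]; rfl⟩
  obtain ⟨k, ⟨hk1, hk2⟩, hmin⟩ : ∃ k, (1 ≤ k ∧ (π ^ k) b = b) ∧
      ∀ m < k, ¬ (1 ≤ m ∧ (π ^ m) b = b) :=
    ⟨Nat.find hex, Nat.find_spec hex, fun m hm => Nat.find_min hex hm⟩
  have hclaim : ∀ j, 1 ≤ j → j ≤ k → ((π * swap a b) ^ j) a = (π ^ j) b := by
    intro j
    induction j with
    | zero => intro h1; omega
    | succ j ih =>
      intro _ h2
      rcases Nat.eq_zero_or_pos j with hj | hj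
      · subst hj
        rw [zero_add, pow_one, pow_one, Perm.mul_apply, swap_apply_left]
      · rw [pow_succ', Perm.mul_apply, ih hj (by omega), Perm.mul_apply, swap_apply_of_ne_of_ne,
          pow_succ', Perm.mul_apply]
        · intro h3
          apply h
          refine Perm.SameCycle.symm ⟨(j : ℤ), ?_⟩
          rw [zpow_natCast]
          exact h3
        · intro h3
          exact hmin j (by omega) ⟨hj, h3⟩
  refine ⟨(k : ℤ), ?_⟩
  rw [zpow_natCast, hclaim k hk1 le_rfl, hk2]

theorem zs_iff (π : Perm D) (a b : D) (h : ¬ π.SameCycle a b) (x y : D) :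
    (π * swap a b).SameCycle x y ↔ π.SameCycle x y ∨
      ((π.SameCycle x a ∨ π.SameCycle x b) ∧ (π.SameCycle y a ∨ π.SameCycle y b)) := by
  have hC : ∀ x y : D, π.SameCycle x y → (π.SameCycle y a ∨ π.SameCycle y b) →
      (π.SameCycle x a ∨ π.SameCycle x b) := by
    intro x y hxy hy
    rcases hy with hy | hy
    · exact Or.inl (hxy.trans hy)
    · exact Or.inr (hxy.trans hy)
  have hπ : ∀ x : D, π.SameCycle x (π x) := fun x => ⟨1, by rw [zpow_one]⟩
  have hab' := zs_ab π a b h
  have hstep : ∀ x : D, (π * swap a b).SameCycle x (π x) := by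
    intro x
    have h1 : ∀ z, (π * swap a b).SameCycle z ((π * swap a b) z) := fun z => ⟨1, by rw [zpow_one]⟩
    by_cases hxa : x = a
    · have h2 := h1 b
      rw [Perm.mul_apply, swap_apply_right] at h2
      rw [hxa]
      exact hab'.trans h2
    · by_cases hxb : x = b
      · have h2 := h1 a
        rw [Perm.mul_apply, swap_apply_left] at h2
        rw [hxb]
        exact hab'.symm.trans h2
      · have h2 := h1 x
        rwa [Perm.mul_apply, swap_apply_of_ne_of_ne hxa hxb] at h2
  constructor
  · intro hxy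
    refine zs_ind (π * swap a b) (fun x y => π.SameCycle x y ∨
      ((π.SameCycle x a ∨ π.SameCycle x b) ∧ (π.SameCycle y a ∨ π.SameCycle y b)))
      (fun x => Or.inl (Perm.SameCycle.refl π x)) ?_ ?_ hxy
    · rintro x y z (h1 | ⟨h1, h2⟩) (h3 | ⟨h3, h4⟩)
      · exact Or.inl (h1.trans h3)
      · exact Or.inr ⟨hC x y h1 h3, h4⟩
      · exact Or.inr ⟨h1, hC z y h3.symm h2⟩
      · exact Or.inr ⟨h1, h4⟩
    · intro x
      by_cases hxa : x = a
      · right
        rw [hxa, Perm.mul_apply, swap_apply_left]
        exact ⟨Or.inl (Perm.SameCycle.refl π a), Or.inr (hπ b).symm⟩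
      · by_cases hxb : x = b
        · right
          rw [hxb, Perm.mul_apply, swap_apply_right]
          exact ⟨Or.inr (Perm.SameCycle.refl π b), Or.inl (hπ a).symm⟩
        · left
          rw [Perm.mul_apply, swap_apply_of_ne_of_ne hxa hxb]
          exact hπ x
  · have h1 : ∀ x y : D, π.SameCycle x y → (π * swap a b).SameCycle x y := fun x y hxy =>
      zs_ind π (fun x y => (π * swap a b).SameCycle x y) (fun x => Perm.SameCycle.refl _ x)
        (fun x y z h1 h2 => h1.trans h2) hstep hxy
    have h2 : ∀ x : D, (π.SameCycle x a ∨ π.SameCycle x b) → (π * swap a b).SameCycle x a := by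
      rintro x (hx | hx)
      · exact h1 x a hx
      · exact (h1 x b hx).trans hab'.symm
    rintro (hxy | ⟨hx, hy⟩)
    · exact h1 x y hxy
    · exact (h2 x hx).trans (h2 y hy).symm

theorem cyc_swap_diff (π : Perm D) (a b : D) (h : ¬ π.SameCycle a b) :
    cyc (π * swap a b) + 1 = cyc π := by
  classical
  have hiff := zs_iff π a b h
  let Q := Quotient (Perm.SameCycle.setoid π)
  let Q' := Quotient (Perm.SameCycle.setoid (π * swap a b))
  let mk : D → Q := fun x => Quotient.mk (Perm.SameCycle.setoid π) x
  let mk' : D → Q' := fun x => Quotient.mk (Perm.SameCycle.setoid (π * swap a b)) x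
  have hmk : ∀ x y, mk x = mk y ↔ π.SameCycle x y := fun x y =>
    ⟨fun h => Quotient.exact h, fun h => Quotient.sound h⟩
  have hmk' : ∀ x y, mk' x = mk' y ↔ (π * swap a b).SameCycle x y := fun x y =>
    ⟨fun h => Quotient.exact h, fun h => Quotient.sound h⟩
  have hfin : Finite Q := inferInstance
  let f : {c : Q // c ≠ mk b} → Q' := fun c => Quotient.lift (s := Perm.SameCycle.setoid π) mk'
    (fun x y hxy => (hmk' x y).2 ((hiff x y).2 (Or.inl hxy))) c.1
  have hf : ∀ (x : D) (hx : mk x ≠ mk b), f ⟨mk x, hx⟩ = mk' x := fun x hx => rfl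
  have hbij : Function.Bijective f := by
    constructor
    · rintro ⟨c, hc⟩ ⟨c', hc'⟩ hcc
      obtain ⟨x, rfl⟩ := Quotient.exists_rep c
      obtain ⟨y, rfl⟩ := Quotient.exists_rep c'
      apply Subtype.ext
      have h1 : mk' x = mk' y := hcc
      have hx : ¬ π.SameCycle x b := fun h2 => hc ((hmk x b).2 h2)
      have hy : ¬ π.SameCycle y b := fun h2 => hc' ((hmk y b).2 h2)
      rw [hmk', hiff] at h1
      apply (hmk x y).2
      rcases h1 with h1 | ⟨h1, h2⟩
      · exact h1
      · exact (h1.resolve_right hx).trans (h2.resolve_right hy).symm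
    · intro q
      obtain ⟨x, rfl⟩ := Quotient.exists_rep q
      by_cases hx : π.SameCycle x b
      · have hab : mk a ≠ mk b := fun h2 => h ((hmk a b).1 h2)
        refine ⟨⟨mk a, hab⟩, ?_⟩
        rw [hf]
        exact (hmk' a x).2 ((hiff a x).2 (Or.inr ⟨Or.inl (Perm.SameCycle.refl π a), Or.inr hx⟩))
      · exact ⟨⟨mk x, fun h2 => hx ((hmk x b).1 h2)⟩, rfl⟩
  have e1 : Nat.card {c : Q // c ≠ mk b} = Nat.card Q' := Nat.card_eq_of_bijective f hbij
  have e2 : Nat.card (Option {c : Q // c ≠ mk b}) = Nat.card Q :=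
    Nat.card_congr (Equiv.optionSubtypeNe (mk b))
  rw [Finite.card_option, e1] at e2
  exact e2

theorem cyc_swap_same (π : Perm D) (a b : D) (hab : a ≠ b) (h : π.SameCycle a b) :
    cyc (π * swap a b) = cyc π + 1 := by
  classical
  have hne : ¬ (π * swap a b).SameCycle a b := by
    intro hs
    have hex : ∃ k, (π ^ k) a = b := by
      obtain ⟨n, _, hn⟩ := h.exists_pow_eq'
      exact ⟨n, hn⟩
    obtain ⟨k, hk, hmin⟩ : ∃ k, (π ^ k) a = b ∧ ∀ m < k, (π ^ m) a ≠ b :=
      ⟨Nat.find hex, Nat.find_spec hex, fun m hm => Nat.find_min hex hm⟩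
    have hk0 : k ≠ 0 := by
      rintro rfl
      exact hab hk
    have hnea : ∀ j, 1 ≤ j → j ≤ k → (π ^ j) a ≠ a := by
      intro j h1 h2 h3
      rcases Nat.lt_or_ge j k with h4 | h4
      · apply hmin (k - j) (by omega)
        have h5 : (π ^ k) a = (π ^ (k - j)) ((π ^ j) a) := by
          rw [← Perm.mul_apply, ← pow_add]
          congr 2
          omega
        rw [h3, hk] at h5
        exact h5.symm
      · have h5 : j = k := by omega
        rw [h5, hk] at h3
        exact hab h3.symm
    have hS : ∀ n : ℕ, ∃ j, 1 ≤ j ∧ j ≤ k ∧ ((π * swap a b) ^ n) b = (π ^ j) a := by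
      intro n
      induction n with
      | zero => exact ⟨k, by omega, le_rfl, hk.symm⟩
      | succ n ih =>
        obtain ⟨j, h1, h2, h3⟩ := ih
        rw [pow_succ', Perm.mul_apply, h3]
        rcases Nat.lt_or_ge j k with h4 | h4
        · refine ⟨j + 1, by omega, by omega, ?_⟩
          rw [Perm.mul_apply, swap_apply_of_ne_of_ne (hnea j h1 h2) (hmin j h4), pow_succ',
            Perm.mul_apply]
        · have h5 : j = k := by omega
          refine ⟨1, le_rfl, by omega, ?_⟩
          rw [h5, hk, Perm.mul_apply, swap_apply_right, pow_one]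
    obtain ⟨n, _, hn⟩ := hs.symm.exists_pow_eq'
    obtain ⟨j, h1, h2, h3⟩ := hS n
    rw [hn] at h3
    exact hnea j h1 h2 h3.symm
  have h1 := cyc_swap_diff (π * swap a b) a b hne
  rw [mul_assoc, swap_mul_self, mul_one] at h1
  exact h1.symm

end HG39
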