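import Pool.Agent.H39.HG.Defs

/-!
[H39 HG GRPERM]  (MP_bcc40c_pr)  Bookkeeping for `grow` and `scan`.  Mathlib only.

PROOFS.  Induction on the tree (generalizing `y` and `bs`), respectively on the list of leaves
(generalizing the stack).  For a node, `bs = b0 :: bs'`, `tri f bs = b0 :: f b0 :: f (f b0) ::
tri f bs'`, the roots of the left subtree are `bs'.take a.sz` and those of the right subtree are
`(bs'.drop a.sz).take b.sz`; `List.take_add`, `List.drop_drop`; `tri f (l ++ l') = tri f l ++ tri f l'`
(flatMap_append).  In grow_perm the entries of the new pair are `y` and `b0`, and the two subtrees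
contribute `f b0 :: tri ..` and `f (f b0) :: tri ..`.
scan_perm: case `(y, true)`: the stack becomes `y :: st`; case `(y, false)`, stack `x :: st`: the
pair `(x, y)` is emitted; case `(y, false)`, empty stack: `y` is emitted in the second component.
scan_snoc: append one up step at the end: it is pushed.
scan_len: count of the up/down steps: 2 * #pairs + #As + #Bs = #st + #lv is in scan_perm.
tri_closed: `tri f bs` is closed under `f` (TF).
-/

set_option autoImplicit false

namespace HG39

open Equiv

variable {D : Type} [Fintype D] [DecidableEq D]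

theorem tri_append (f : Perm D) (l l' : List D) : tri f (l ++ l') = tri f l ++ tri f l' := by
  unfold tri
  rw [List.flatMap_append]

private theorem gp_tri_cons (f : Perm D) (b : D) (l : List D) :
    tri f (b :: l) = b :: f b :: f (f b) :: tri f l := rfl

private theorem gp_ent_cons (p : D × D) (l : List (D × D)) :
    ent (p :: l) = p.1 :: p.2 :: ent l := rfl

private theorem gp_ent_append (l l' : List (D × D)) : ent (l ++ l') = ent l ++ ent l' := by
  unfold ent
  rw [List.flatMap_append]

private theorem gp_count (x : D) :
    ∃ c : D → ℕ, ∀ z l, List.count x (z :: l) = c z + List.count x l :=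
  ⟨fun z => if z == x then 1 else 0, fun z l => by rw [List.count_cons, add_comm]⟩

theorem mem_tri (f : Perm D) (bs : List D) (d : D) :
    d ∈ tri f bs ↔ ∃ b ∈ bs, d = b ∨ d = f b ∨ d = f (f b) := by
  unfold tri
  rw [List.mem_flatMap]
  simp only [List.mem_cons, List.not_mem_nil, or_false]

theorem tri_closed {f : Perm D} (hf : TF f) (bs : List D) (d : D) :
    f d ∈ tri f bs ↔ d ∈ tri f bs := by
  rw [mem_tri, mem_tri]
  constructor
  · rintro ⟨b, hb, h | h | h⟩
    · refine ⟨b, hb, Or.inr (Or.inr ?_)⟩
      rw [← h, hf.three]
    · exact ⟨b, hb, Or.inl (f.injective h)⟩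
    · exact ⟨b, hb, Or.inr (Or.inl (f.injective h))⟩
  · rintro ⟨b, hb, h | h | h⟩
    · exact ⟨b, hb, Or.inr (Or.inl (by rw [h]))⟩
    · exact ⟨b, hb, Or.inr (Or.inr (by rw [h]))⟩
    · exact ⟨b, hb, Or.inl (by rw [h, hf.three])⟩

theorem tri_len (f : Perm D) (bs : List D) : (tri f bs).length = 3 * bs.length := by
  induction bs with
  | nil => rfl
  | cons b l ih =>
    rw [gp_tri_cons]
    simp only [List.length_cons, ih]
    ring

theorem grow_rest (f : Perm D) (τ : Tr) (y : D) (bs : List D) (h : τ.sz ≤ bs.length) :
    (grow f τ y bs).2.2 = bs.drop τ.sz := by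
  induction τ generalizing y bs with
  | u => rfl
  | d => rfl
  | nd a b iha ihb =>
    cases bs with
    | nil => exact absurd h (by simp [Tr.sz])
    | cons b0 l =>
      have hl : a.sz + b.sz ≤ l.length := by
        simp only [Tr.sz, List.length_cons] at h
        omega
      have h1 := iha (f b0) l (by omega)
      show (grow f b (f (f b0)) (grow f a (f b0) l).2.2).2.2 = (b0 :: l).drop (a.sz + b.sz + 1)
      rw [h1, ihb _ _ (by rw [List.length_drop]; omega), List.drop_drop, List.drop_succ_cons]

theorem grow_perm (f : Perm D) (τ : Tr) (y : D) (bs : List D) (h : τ.sz ≤ bs.length) :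
    (ent (grow f τ y bs).1 ++ ((grow f τ y bs).2.1).map Prod.fst).Perm
      (y :: tri f (bs.take τ.sz)) := by
  induction τ generalizing y bs with
  | u => exact List.Perm.refl _
  | d => exact List.Perm.refl _
  | nd a b iha ihb =>
    cases bs with
    | nil => exact absurd h (by simp [Tr.sz])
    | cons b0 l =>
      have hl : a.sz + b.sz ≤ l.length := by
        simp only [Tr.sz, List.length_cons] at h
        omega
      have h1 := grow_rest f a (f b0) l (by omega)
      have h2 := iha (f b0) l (by omega)
      have h3 := ihb (f (f b0)) (l.drop a.sz) (by rw [List.length_drop]; omega)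
      show (ent ((y, b0) :: ((grow f a (f b0) l).1 ++
        (grow f b (f (f b0)) (grow f a (f b0) l).2.2).1)) ++
        ((grow f a (f b0) l).2.1 ++
          (grow f b (f (f b0)) (grow f a (f b0) l).2.2).2.1).map Prod.fst).Perm
        (y :: tri f ((b0 :: l).take (a.sz + b.sz + 1)))
      rw [h1, List.take_succ_cons, gp_tri_cons, List.take_add, tri_append, gp_ent_cons,
        gp_ent_append, List.map_append]
      rw [List.perm_iff_count] at h2 h3 ⊢
      intro x
      have h2' := h2 x
      have h3' := h3 x
      obtain ⟨c, hc⟩ := gp_count x
      simp only [List.count_append, hc, List.cons_append] at h2' h3' ⊢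
      omega

theorem grow_len (f : Perm D) (τ : Tr) (y : D) (bs : List D) (h : τ.sz ≤ bs.length) :
    (grow f τ y bs).1.length = τ.sz ∧ (grow f τ y bs).2.1.length = τ.sz + 1 := by
  induction τ generalizing y bs with
  | u => exact ⟨rfl, rfl⟩
  | d => exact ⟨rfl, rfl⟩
  | nd a b iha ihb =>
    cases bs with
    | nil => exact absurd h (by simp [Tr.sz])
    | cons b0 l =>
      have hl : a.sz + b.sz ≤ l.length := by
        simp only [Tr.sz, List.length_cons] at h
        omega
      have h1 := grow_rest f a (f b0) l (by omega)
      have h2 := iha (f b0) l (by omega)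
      have h3 := ihb (f (f b0)) (l.drop a.sz) (by rw [List.length_drop]; omega)
      show ((y, b0) :: ((grow f a (f b0) l).1 ++
        (grow f b (f (f b0)) (grow f a (f b0) l).2.2).1)).length = a.sz + b.sz + 1 ∧
        ((grow f a (f b0) l).2.1 ++
          (grow f b (f (f b0)) (grow f a (f b0) l).2.2).2.1).length = a.sz + b.sz + 1 + 1
      rw [h1, List.length_cons, List.length_append, List.length_append, h2.1, h2.2, h3.1, h3.2]
      constructor <;> omega

theorem scan_perm (lv : List (D × Bool)) (st : List D) :
    (ent (scan lv st).1 ++ (scan lv st).2.1 ++ (scan lv st).2.2).Perm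
      (st ++ lv.map Prod.fst) := by
  induction lv generalizing st with
  | nil =>
    show st.Perm (st ++ [])
    rw [List.append_nil]
  | cons p l ih =>
    obtain ⟨y, b⟩ := p
    cases b with
    | true =>
      have h1 := ih (y :: st)
      show (ent (scan l (y :: st)).1 ++ (scan l (y :: st)).2.1 ++ (scan l (y :: st)).2.2).Perm
        (st ++ (y :: l.map Prod.fst))
      rw [List.perm_iff_count] at h1 ⊢
      intro x
      have h1' := h1 x
      obtain ⟨c, hc⟩ := gp_count x
      simp only [List.count_append, hc, List.cons_append] at h1' ⊢
      omega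
    | false =>
      cases st with
      | nil =>
        have h1 := ih []
        show (ent (scan l []).1 ++ (y :: (scan l []).2.1) ++ (scan l []).2.2).Perm
          ([] ++ (y :: l.map Prod.fst))
        rw [List.perm_iff_count] at h1 ⊢
        intro x
        have h1' := h1 x
        obtain ⟨c, hc⟩ := gp_count x
        simp only [List.count_append, hc, List.cons_append] at h1' ⊢
        omega
      | cons z st =>
        have h1 := ih st
        show (ent ((z, y) :: (scan l st).1) ++ (scan l st).2.1 ++ (scan l st).2.2).Perm
          ((z :: st) ++ (y :: l.map Prod.fst))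
        rw [gp_ent_cons]
        rw [List.perm_iff_count] at h1 ⊢
        intro x
        have h1' := h1 x
        obtain ⟨c, hc⟩ := gp_count x
        simp only [List.count_append, hc, List.cons_append] at h1' ⊢
        omega

theorem scan_snoc (lv : List (D × Bool)) (st : List D) (y : D) :
    scan (lv ++ [(y, true)]) st =
      ((scan lv st).1, (scan lv st).2.1, y :: (scan lv st).2.2) := by
  induction lv generalizing st with
  | nil => rfl
  | cons p l ih =>
    obtain ⟨z, b⟩ := p
    cases b with
    | true => exact ih (z :: st)
    | false =>
      cases st with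
      | nil =>
        show ((scan (l ++ [(y, true)]) []).1, z :: (scan (l ++ [(y, true)]) []).2.1,
          (scan (l ++ [(y, true)]) []).2.2) = ((scan l []).1, z :: (scan l []).2.1,
            y :: (scan l []).2.2)
        rw [ih]
      | cons w st =>
        show ((w, z) :: (scan (l ++ [(y, true)]) st).1, (scan (l ++ [(y, true)]) st).2.1,
          (scan (l ++ [(y, true)]) st).2.2) = ((w, z) :: (scan l st).1, (scan l st).2.1,
            y :: (scan l st).2.2)
        rw [ih]

end HG39
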