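import Pool.Agent.H39.HG.Defs
import Pool.Agent.H39.HG.GrPerm

/-!
[H39 HG LABA]  (MP_bcc40c_pr)  Labels are constant on vertices.

PROOFS.  nl_f: by `leg` and tri_closed (the set of legs is closed under `f`).
lab_step: for a non-leg `d`, `(f * α) d = f (α d)`; `α d` is a non-leg, `ver` at `α d`: `ℓ (f (α d)) =
ℓ (α (α d)) = ℓ d`.  lab_same: powers (also negative ones: `SameCycle` on a finite type can be realised
by natural powers, `Equiv.Perm.SameCycle.exists_pow_eq'`).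
rho_inv: `α * f⁻¹` is the inverse of `f * α`, so SameCycle is the same for both.
pth_trans: concatenate the paths.
-/

set_option autoImplicit false

namespace HG39

open Equiv

variable {D : Type} [Fintype D] [DecidableEq D]

theorem nl_f {f α : Perm D} {bs : List D} (hf : TF f) (h : PT f α bs) (d : D) :
    α (f d) = f d ↔ α d = d := by
  rw [h.leg, h.leg, tri_closed hf]

theorem nl_a {f α : Perm D} {bs : List D} (h : PT f α bs) (d : D) :
    α (α d) = α d ↔ α d = d := by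
  rw [h.inv]
  exact eq_comm

theorem lab_same {f α : Perm D} {bs : List D} {ℓ : D → ℤ} (hf : TF f) (h : PT f α bs)
    (hl : Lab f α ℓ) (a b : D) (ha : α a ≠ a) (hs : (f * α).SameCycle a b) :
    ℓ a = ℓ b ∧ α b ≠ b := by
  have hstep : ∀ d, α d ≠ d → ℓ ((f * α) d) = ℓ d ∧ α ((f * α) d) ≠ (f * α) d := by
    intro d hd
    rw [Perm.mul_apply]
    have h1 : α (α d) ≠ α d := fun h2 => hd ((nl_a h d).1 h2)
    refine ⟨?_, fun h2 => h1 ((nl_f hf h (α d)).1 h2)⟩
    rw [hl.ver _ h1, h.inv]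
  have hpow : ∀ n : ℕ, ℓ (((f * α) ^ n) a) = ℓ a ∧ α (((f * α) ^ n) a) ≠ ((f * α) ^ n) a := by
    intro n
    induction n with
    | zero => exact ⟨rfl, ha⟩
    | succ n ih =>
      rw [pow_succ', Perm.mul_apply]
      obtain ⟨h1, h2⟩ := hstep _ ih.2
      exact ⟨h1.trans ih.1, h2⟩
  obtain ⟨n, -, hn⟩ := hs.exists_pow_eq'
  have h1 := hpow n
  rw [hn] at h1
  exact ⟨h1.1.symm, h1.2⟩

theorem rho_inv {f α : Perm D} (h : ∀ d, α (α d) = d) : α * f⁻¹ = (f * α)⁻¹ := by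
  have h1 : α⁻¹ = α := by
    rw [inv_eq_iff_mul_eq_one]
    ext d
    exact h d
  rw [mul_inv_rev, h1]

theorem rho_same {f α : Perm D} (h : ∀ d, α (α d) = d) (a b : D) :
    (α * f⁻¹).SameCycle a b ↔ (f * α).SameCycle a b := by
  rw [rho_inv h]
  exact Perm.sameCycle_inv

theorem pth_same {f α : Perm D} (h : ∀ d, α (α d) = d) {S : D → Prop} {a b : D}
    (hp : Pth (α * f⁻¹) S a b) : (f * α).SameCycle a b := by
  obtain ⟨k, hk, -⟩ := hp
  exact (rho_same h a b).1 ⟨(k : ℤ), by rw [zpow_natCast]; exact hk⟩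

theorem pth_trans {ρ : Perm D} {S : D → Prop} {a b c : D} (h1 : Pth ρ S a b)
    (h2 : Pth ρ S b c) : Pth ρ S a c := by
  obtain ⟨k, hk, hkS⟩ := h1
  obtain ⟨m, hm, hmS⟩ := h2
  have key : ∀ i, (ρ ^ (i + k)) a = (ρ ^ i) b := by
    intro i
    rw [pow_add, Perm.mul_apply, hk]
  refine ⟨m + k, by rw [key, hm], fun j hj => ?_⟩
  rcases lt_or_ge j k with h | h
  · exact hkS j h
  · obtain ⟨i, rfl⟩ : ∃ i, j = i + k := ⟨j - k, by omega⟩
    rw [key]
    exact hmS i (by omega)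

theorem pth_mono {ρ : Perm D} {S S' : D → Prop} {a b : D} (h : Pth ρ S a b)
    (hS : ∀ z, S z → S' z) : Pth ρ S' a b := by
  obtain ⟨k, hk, hkS⟩ := h
  exact ⟨k, hk, fun j hj => hS _ (hkS j hj)⟩

end HG39
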