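import Pool.Agent.H39.HG.Defs
import Pool.Agent.H39.HG.GrPerm
import Pool.Agent.H39.HG.LabA

/-!
[H39 HG GRAPHA]  (MP_bcc40c_pr)  Graph distance and labels (full triangulations).  `dst f α a b` is
the distance of the starting vertices in the graph `gr (f * α) α` on the cycles of `f * α`.

PROOFS.  gr_conn: the graph is connected: the set `P d := Reachable [a] [d]` is closed under `α` (the edge
`d, α d`: `[d]` and `[α d]` are equal or adjacent) and under `f`: `f d = (f * α) (α d)` so `[f d] = [α d]`;
`PT.con`.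
dst_lip: for a function `φ` constant on vertices (`φ (f (α d)) = φ d`) with `φ (f d) ≤ φ d + 1` for all `d`:
`φ b ≤ φ a + dst a b`: induction along a shortest walk (`SimpleGraph.Walk`; every edge is of the form
`[x], [α x]` or reversed; `φ` is a function on the quotient; `φ (α x) = φ (f x)`: apply the first hypothesis
to `α x`; the reversed inequality: apply the hypothesis to `α x`: `φ (f (α x)) ≤ φ (α x) + 1`, i.e.
`φ x ≤ φ (α x) + 1`).
-/

set_option autoImplicit false

namespace HG39

open Equiv

variable {D : Type} [Fintype D] [DecidableEq D]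

omit [Fintype D] [DecidableEq D] in
private theorem ga_leg {f α : Perm D} (h : PT f α []) (d : D) : α d ≠ d := by
  intro h1
  have h2 := (h.leg d).1 h1
  simp [tri] at h2

omit [Fintype D] [DecidableEq D] in
private theorem ga_f {f α : Perm D} (h : PT f α []) (d : D) :
    Quotient.mk (Equiv.Perm.SameCycle.setoid (f * α)) (f d) =
      Quotient.mk (Equiv.Perm.SameCycle.setoid (f * α)) (α d) := by
  apply Quotient.sound
  change (f * α).SameCycle (f d) (α d)
  have h1 : f d = (f * α) (α d) := by
    rw [Equiv.Perm.mul_apply, h.inv]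
  rw [h1]
  exact (Equiv.Perm.sameCycle_apply_left).2 (Equiv.Perm.SameCycle.refl _ _)

omit [Fintype D] [DecidableEq D] in
private theorem ga_adj (f α : Perm D) (d : D) :
    Quotient.mk (Equiv.Perm.SameCycle.setoid (f * α)) d =
      Quotient.mk (Equiv.Perm.SameCycle.setoid (f * α)) (α d) ∨
    (gr (f * α) α).Adj (Quotient.mk (Equiv.Perm.SameCycle.setoid (f * α)) d)
      (Quotient.mk (Equiv.Perm.SameCycle.setoid (f * α)) (α d)) := by
  by_cases h : Quotient.mk (Equiv.Perm.SameCycle.setoid (f * α)) d =
      Quotient.mk (Equiv.Perm.SameCycle.setoid (f * α)) (α d)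
  · exact Or.inl h
  · exact Or.inr ⟨h, d, Or.inl ⟨rfl, rfl⟩⟩

theorem gr_conn {f α : Perm D} (hf : TF f) (h : PT f α []) [Nonempty D] :
    (gr (f * α) α).Connected := by
  have d0 : D := Classical.arbitrary D
  have hreach : ∀ d, (gr (f * α) α).Reachable
      (Quotient.mk (Equiv.Perm.SameCycle.setoid (f * α)) d0)
      (Quotient.mk (Equiv.Perm.SameCycle.setoid (f * α)) d) := by
    have ha : ∀ d, (gr (f * α) α).Reachable
        (Quotient.mk (Equiv.Perm.SameCycle.setoid (f * α)) d0)
        (Quotient.mk (Equiv.Perm.SameCycle.setoid (f * α)) d) → (gr (f * α) α).Reachable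
        (Quotient.mk (Equiv.Perm.SameCycle.setoid (f * α)) d0)
        (Quotient.mk (Equiv.Perm.SameCycle.setoid (f * α)) (α d)) := by
      intro d hd
      rcases ga_adj f α d with h1 | h1
      · rw [← h1]
        exact hd
      · exact hd.trans h1.reachable
    intro d
    refine h.con (fun d => (gr (f * α) α).Reachable
      (Quotient.mk (Equiv.Perm.SameCycle.setoid (f * α)) d0)
      (Quotient.mk (Equiv.Perm.SameCycle.setoid (f * α)) d)) ?_ ?_ ?_ d (ga_leg h d)
    · exact ⟨d0, ga_leg h d0, SimpleGraph.Reachable.refl _⟩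
    · intro d hd
      rw [ga_f h d]
      exact ha d hd
    · exact ha
  haveI : Nonempty (Quotient (Equiv.Perm.SameCycle.setoid (f * α))) := ⟨Quotient.mk _ d0⟩
  refine SimpleGraph.Connected.mk fun u v => ?_
  induction u using Quotient.inductionOn with
  | _ u =>
    induction v using Quotient.inductionOn with
    | _ v => exact (hreach u).symm.trans (hreach v)

theorem dst_self (f α : Perm D) (a b : D) (h : (f * α).SameCycle a b) : dst f α a b = 0 := by
  have h1 : Quotient.mk (Equiv.Perm.SameCycle.setoid (f * α)) a =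
      Quotient.mk (Equiv.Perm.SameCycle.setoid (f * α)) b := Quotient.sound h
  rw [dst, h1, SimpleGraph.dist_self]

theorem dst_comm (f α : Perm D) (a b : D) : dst f α a b = dst f α b a := by
  rw [dst, dst, SimpleGraph.dist_comm]

theorem dst_congr (f α : Perm D) (a b b' : D) (h : (f * α).SameCycle b b') :
    dst f α a b = dst f α a b' := by
  have h1 : Quotient.mk (Equiv.Perm.SameCycle.setoid (f * α)) b =
      Quotient.mk (Equiv.Perm.SameCycle.setoid (f * α)) b' := Quotient.sound h
  rw [dst, dst, h1]

theorem dst_tri {f α : Perm D} (hf : TF f) (h : PT f α []) (a b c : D) :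
    dst f α a c ≤ dst f α a b + dst f α b c := by
  haveI : Nonempty D := ⟨a⟩
  exact (gr_conn hf h).dist_triangle

theorem dst_f {f α : Perm D} (hf : TF f) (h : PT f α []) (a b : D) :
    dst f α a (f b) ≤ dst f α a b + 1 := by
  refine (dst_tri hf h a b (f b)).trans ?_
  apply Nat.add_le_add_left
  rw [dst, ga_f h b]
  rcases ga_adj f α b with h1 | h1
  · rw [← h1, SimpleGraph.dist_self]
    exact Nat.zero_le _
  · rw [SimpleGraph.dist_eq_one_iff_adj.2 h1]

theorem dst_lip {f α : Perm D} (hf : TF f) (h : PT f α []) (φ : D → ℤ)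
    (h1 : ∀ d, φ (f (α d)) = φ d) (h2 : ∀ d, φ (f d) ≤ φ d + 1) (a b : D) :
    φ b ≤ φ a + dst f α a b := by
  haveI : Nonempty D := ⟨a⟩
  have hz : ∀ (i : ℤ) (x : D), φ (((f * α) ^ i) x) = φ x := by
    intro i
    induction i using Int.induction_on with
    | zero => intro x; rfl
    | succ i ih =>
      intro x
      rw [add_comm, zpow_add, zpow_one, Equiv.Perm.mul_apply, Equiv.Perm.mul_apply, h1, ih]
    | pred i ih =>
      intro x
      rw [sub_eq_add_neg, zpow_add, Equiv.Perm.mul_apply, ih]
      have h3 := h1 (((f * α) ^ (-1 : ℤ)) x)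
      rw [← Equiv.Perm.mul_apply f α, ← Equiv.Perm.mul_apply, ← zpow_one_add] at h3
      simpa using h3.symm
  let ψ : Quotient (Equiv.Perm.SameCycle.setoid (f * α)) → ℤ := Quotient.lift φ (by
    rintro x y ⟨i, hi⟩
    rw [← hi, hz])
  have hψ : ∀ u v, (gr (f * α) α).Adj u v → ψ v ≤ ψ u + 1 := by
    rintro u v ⟨_, x, ⟨rfl, rfl⟩ | ⟨rfl, rfl⟩⟩
    · change φ (α x) ≤ φ x + 1
      have h3 := h1 (α x)
      rw [h.inv] at h3
      rw [← h3]
      exact h2 x
    · change φ x ≤ φ (α x) + 1
      have h3 := h2 (α x)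
      rwa [h1] at h3
  have hw : ∀ (u v : Quotient (Equiv.Perm.SameCycle.setoid (f * α)))
      (p : (gr (f * α) α).Walk u v), ψ v ≤ ψ u + p.length := by
    intro u v p
    induction p with
    | nil => simp
    | cons hadj p ih =>
      have h3 := hψ _ _ hadj
      rw [SimpleGraph.Walk.length_cons]
      push_cast
      linarith
  obtain ⟨p, hp⟩ := (gr_conn hf h).exists_walk_length_eq_dist
    (Quotient.mk (Equiv.Perm.SameCycle.setoid (f * α)) a)
    (Quotient.mk (Equiv.Perm.SameCycle.setoid (f * α)) b)
  have h4 := hw _ _ p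
  rw [hp] at h4
  exact h4

end HG39
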