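import Pool.Agent.H39.HG.Defs
import Pool.Agent.H39.HG.GrPerm
import Pool.Agent.H39.HG.LabA
import Pool.Agent.H39.HG.GraphA

/-!
[H39 HG GRAPHLAB]  (MP_bcc40c_pr)  Distances are labels and labels are distances (full triangulations).

PROOFS.
dst_lab: `ℓ d = dst a d` satisfies Lab: nn, ver (`[f d] = [α d]`), lip (adjacent or equal), zro (distance 0
means equal classes in a connected graph), ex0; dsc: if `dst a d = k + 1` there is a neighbour of `[d]` at
distance `k` (last edge of a shortest walk): the edge is `[x] = [d]`, `[α x]` at distance `k` (or the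
reversed form, replace `x` by `α x`); `x` is in the cycle of `d` and `ℓ (f x) = ℓ (α x) = k`.
lab_dst: `≥` by dst_lip for `φ = ℓ`; `≤`: induction on `ℓ d`: level 0: same cycle as `a`; positive level:
dsc gives `d'` in the cycle of `d` with `ℓ (f d') = ℓ d - 1`, `dst a d = dst a d' ≤ dst a (f d') + 1`.
-/

set_option autoImplicit false

namespace HG39

open Equiv

variable {D : Type} [Fintype D] [DecidableEq D]

omit [Fintype D] [DecidableEq D] in
private theorem gl_leg {f α : Perm D} (h : PT f α []) (d : D) : α d ≠ d := by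
  intro h1
  have h2 := (h.leg d).1 h1
  simp [tri] at h2

omit [Fintype D] [DecidableEq D] in
private theorem gl_f {f α : Perm D} (h : PT f α []) (d : D) :
    (f * α).SameCycle (f d) (α d) := by
  have h1 : f d = (f * α) (α d) := by
    rw [Equiv.Perm.mul_apply, h.inv]
  rw [h1]
  exact (Equiv.Perm.sameCycle_apply_left).2 (Equiv.Perm.SameCycle.refl _ _)

private theorem gl_ver {f α : Perm D} (h : PT f α []) (a d : D) :
    dst f α a (f d) = dst f α a (α d) := dst_congr f α a _ _ (gl_f h d)

private theorem gl_step {f α : Perm D} (hf : TF f) (h : PT f α []) (a d : D) :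
    dst f α a d ≤ dst f α a (f d) + 1 := by
  have h1 := dst_f hf h a (α d)
  rw [gl_ver h a (α d), h.inv, ← gl_ver h a d] at h1
  exact h1

omit [Fintype D] [DecidableEq D] in
private theorem gl_walk {V : Type} {G : SimpleGraph V} {u v : V} (p : G.Walk u v)
    (hp : 0 < p.length) : ∃ w, G.Adj u w ∧ G.dist w v + 1 ≤ p.length := by
  cases p with
  | nil =>
    rw [SimpleGraph.Walk.length_nil] at hp
    omega
  | cons hadj p' =>
    refine ⟨_, hadj, ?_⟩
    rw [SimpleGraph.Walk.length_cons]
    have h2 := SimpleGraph.dist_le p'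
    omega

theorem dst_lab {f α : Perm D} (hf : TF f) (h : PT f α []) (a : D) :
    Lab f α (fun d => (dst f α a d : ℤ)) := by
  have : Nonempty D := ⟨a⟩
  have hconn := gr_conn hf h
  refine ⟨fun d _ => Int.natCast_nonneg _, fun d _ => ?_, fun d _ => ?_, fun d _ hd => ?_,
    fun d d' _ _ hd hd' => ?_, ⟨a, gl_leg h a, ?_⟩⟩
  · exact congrArg Nat.cast (gl_ver h a d)
  · have := dst_f hf h a d
    exact_mod_cast this
  · have hd1 : 0 < dst f α a d := by exact_mod_cast hd
    obtain ⟨p, hp⟩ := hconn.exists_walk_length_eq_dist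
      (Quotient.mk (Equiv.Perm.SameCycle.setoid (f * α)) d)
      (Quotient.mk (Equiv.Perm.SameCycle.setoid (f * α)) a)
    rw [SimpleGraph.dist_comm] at hp
    change p.length = dst f α a d at hp
    obtain ⟨v, hadj, h2⟩ := gl_walk p (by omega)
    obtain ⟨_, x, ⟨hx1, hx2⟩ | ⟨hx1, hx2⟩⟩ := hadj
    · have h3 : (f * α).SameCycle x d := Quotient.exact hx1
      have h4 : dst f α a (f x) + 1 ≤ p.length := by
        rw [gl_ver h a x, dst_comm, dst, hx2]
        exact h2
      have h5 := gl_step hf h a x
      have h6 := dst_congr f α a x d h3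
      refine ⟨x, h3.symm, gl_leg h x, ?_⟩
      change ((dst f α a (f x) : ℕ) : ℤ) = (dst f α a x : ℕ) - 1
      omega
    · have h3 : (f * α).SameCycle (α x) d := Quotient.exact hx2
      have h4 : dst f α a (f (α x)) + 1 ≤ p.length := by
        rw [gl_ver h a (α x), h.inv, dst_comm, dst, hx1]
        exact h2
      have h5 := gl_step hf h a (α x)
      have h6 := dst_congr f α a (α x) d h3
      refine ⟨α x, h3.symm, gl_leg h (α x), ?_⟩
      change ((dst f α a (f (α x)) : ℕ) : ℤ) = (dst f α a (α x) : ℕ) - 1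
      omega
  · have e1 : dst f α a d = 0 := by exact_mod_cast hd
    have e2 : dst f α a d' = 0 := by exact_mod_cast hd'
    have e3 := hconn.dist_eq_zero_iff.1 e1
    have e4 := hconn.dist_eq_zero_iff.1 e2
    exact Quotient.exact (e3.symm.trans e4)
  · change ((dst f α a a : ℕ) : ℤ) = 0
    rw [dst_self f α a a (Equiv.Perm.SameCycle.refl _ _)]
    rfl

theorem lab_dst {f α : Perm D} {ℓ : D → ℤ} (hf : TF f) (h : PT f α []) (hl : Lab f α ℓ) (a : D)
    (ha : ℓ a = 0) (d : D) : ℓ d = dst f α a d := by
  have hv : ∀ d, ℓ (f (α d)) = ℓ d := by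
    intro d
    rw [hl.ver (α d) (gl_leg h (α d)), h.inv]
  have h1 := dst_lip hf h ℓ hv (fun d => hl.lip d (gl_leg h d)) a d
  rw [ha, zero_add] at h1
  have key : ∀ (n : ℕ) (d : D), ℓ d ≤ n → (dst f α a d : ℤ) ≤ ℓ d := by
    intro n
    induction n with
    | zero =>
      intro d hd
      have h2 := hl.nn d (gl_leg h d)
      have h3 : ℓ d = 0 := by push_cast at hd; omega
      rw [h3, dst_self f α a d (hl.zro a d (gl_leg h a) (gl_leg h d) ha h3)]
      rfl
    | succ n ih =>
      intro d hd
      rcases lt_or_ge 0 (ℓ d) with h0 | h0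
      · obtain ⟨d', hs, hn, hD⟩ := hl.dsc d (gl_leg h d) h0
        have h2 := dst_congr f α a d d' hs
        have h3 := gl_step hf h a d'
        have h4 : ℓ d' = ℓ d := by
          have h5 := dst_lip hf h ℓ hv (fun d => hl.lip d (gl_leg h d)) d d'
          have h6 := dst_lip hf h ℓ hv (fun d => hl.lip d (gl_leg h d)) d' d
          rw [dst_self f α _ _ hs] at h5
          rw [dst_self f α _ _ hs.symm] at h6
          push_cast at h5 h6
          omega
        have h5 : ℓ (f d') = ℓ d' - 1 := hD
        have h6 := ih (f d') (by push_cast at hd; omega)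
        omega
      · exact ih d (by omega)
  have h2 := key (ℓ d).toNat d (by
    have := hl.nn d (gl_leg h d)
    omega)
  omega

end HG39
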