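import Pool.Agent.H39.HG.Defs

/-!
[H39 HG GLUEVAL]  (MP_bcc40c_pr)  Values of `glue`.  Mathlib only.  `glue π l = l.foldl (fun π p =>
π * swap p.1 p.2) π`, so `glue π (p :: l) = glue (π * swap p.1 p.2) l`; `ent l` is the list of all
entries.

PROOFS: all by induction on `l` generalizing the permutation.
glue_append: foldl_append.  glue_mul: `f * (α * s) = (f * α) * s`.
glue_notMem: every swap fixes `x`.
glue_mem: induction; for the head `p = (a,b)`: `glue (α * swap a b) l a = (α * swap a b) a = α b` by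
glue_notMem (`a ∉ ent l` by Nodup).  For `p` in the tail: `(α * swap a' b') p.2 = α p.2` because `p.2`
is different from the head entries.
glue_pair, glue_inv: special case in which the entries are fixed points of `α`: then `glue α l` is an
involution if `α` is one.  (`glue_inv`: for `d ∉ ent l`: `glue α l d = α d`, and `α d ∉ ent l`,
because an entry `x = α d` is fixed, `α x = x`, hence `d = α (α d) = x`.)
glue_perm: a permutation of the list (as a list of pairs) with distinct entries gives the same
permutation: swaps of disjoint pairs commute (`Equiv.Perm.Disjoint.commute`, or compare the values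
with glue_mem and glue_notMem).
glue_cut: `α` an involution, the pairs are edges `(x, α x)`: after gluing, the entries are fixed.
-/

set_option autoImplicit false

namespace HG39

open Equiv

variable {D : Type} [Fintype D] [DecidableEq D]

theorem glue_cons (π : Perm D) (p : D × D) (l : List (D × D)) :
    glue π (p :: l) = glue (π * swap p.1 p.2) l := rfl

theorem glue_append (π : Perm D) (l l' : List (D × D)) :
    glue π (l ++ l') = glue (glue π l) l' := by
  unfold glue
  rw [List.foldl_append]

theorem glue_mul (f α : Perm D) (l : List (D × D)) : glue (f * α) l = f * glue α l := by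
  induction l generalizing α with
  | nil => rfl
  | cons p l ih => rw [glue_cons, glue_cons, mul_assoc, ih]

theorem ent_append (l l' : List (D × D)) : ent (l ++ l') = ent l ++ ent l' := by
  unfold ent
  rw [List.flatMap_append]

private theorem gv_cons (p : D × D) (l : List (D × D)) : ent (p :: l) = p.1 :: p.2 :: ent l := rfl

private theorem gv_mem (l : List (D × D)) (x : D) :
    x ∈ ent l ↔ ∃ p ∈ l, x = p.1 ∨ x = p.2 := by
  unfold ent
  rw [List.mem_flatMap]
  constructor
  · rintro ⟨p, hp, hx⟩
    refine ⟨p, hp, ?_⟩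
    rcases List.mem_cons.1 hx with h | h
    · exact Or.inl h
    · exact Or.inr (List.mem_singleton.1 h)
  · rintro ⟨p, hp, hx⟩
    refine ⟨p, hp, ?_⟩
    rcases hx with h | h
    · exact List.mem_cons.2 (Or.inl h)
    · exact List.mem_cons.2 (Or.inr (List.mem_singleton.2 h))

theorem glue_notMem (π : Perm D) (l : List (D × D)) (x : D) (hx : x ∉ ent l) :
    glue π l x = π x := by
  induction l generalizing π with
  | nil => rfl
  | cons p l ih =>
    rw [gv_cons, List.mem_cons, List.mem_cons, not_or, not_or] at hx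
    rw [glue_cons, ih _ hx.2.2, Perm.mul_apply, swap_apply_of_ne_of_ne hx.1 hx.2.1]

theorem glue_mem (α : Perm D) (l : List (D × D)) (hn : (ent l).Nodup) (p : D × D) (hp : p ∈ l) :
    glue α l p.1 = α p.2 ∧ glue α l p.2 = α p.1 := by
  induction l generalizing α with
  | nil => exact absurd hp (List.not_mem_nil)
  | cons q l ih =>
    rw [gv_cons, List.nodup_cons, List.mem_cons, not_or, List.nodup_cons] at hn
    obtain ⟨⟨h1, h2⟩, h3, h4⟩ := hn
    rw [glue_cons]
    rcases List.mem_cons.1 hp with h | h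
    · subst h
      rw [glue_notMem _ _ _ h2, glue_notMem _ _ _ h3, Perm.mul_apply, Perm.mul_apply,
        swap_apply_left, swap_apply_right]
      exact ⟨rfl, rfl⟩
    · have m1 : p.1 ∈ ent l := (gv_mem l _).2 ⟨p, h, Or.inl rfl⟩
      have m2 : p.2 ∈ ent l := (gv_mem l _).2 ⟨p, h, Or.inr rfl⟩
      obtain ⟨i1, i2⟩ := ih (α * swap q.1 q.2) h4 h
      have n1 : p.2 ≠ q.1 := fun e => h2 (by rw [← e]; exact m2)
      have n2 : p.2 ≠ q.2 := fun e => h3 (by rw [← e]; exact m2)
      have n3 : p.1 ≠ q.1 := fun e => h2 (by rw [← e]; exact m1)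
      have n4 : p.1 ≠ q.2 := fun e => h3 (by rw [← e]; exact m1)
      rw [i1, i2, Perm.mul_apply, Perm.mul_apply, swap_apply_of_ne_of_ne n1 n2,
        swap_apply_of_ne_of_ne n3 n4]
      exact ⟨rfl, rfl⟩

theorem glue_pair (α : Perm D) (l : List (D × D)) (hn : (ent l).Nodup)
    (hf : ∀ x ∈ ent l, α x = x) (p : D × D) (hp : p ∈ l) :
    glue α l p.1 = p.2 ∧ glue α l p.2 = p.1 := by
  obtain ⟨h1, h2⟩ := glue_mem α l hn p hp
  rw [h1, h2]
  exact ⟨hf _ ((gv_mem l _).2 ⟨p, hp, Or.inr rfl⟩), hf _ ((gv_mem l _).2 ⟨p, hp, Or.inl rfl⟩)⟩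

theorem glue_inv (α : Perm D) (hα : ∀ d, α (α d) = d) (l : List (D × D)) (hn : (ent l).Nodup)
    (hf : ∀ x ∈ ent l, α x = x) (d : D) : glue α l (glue α l d) = d := by
  by_cases hd : d ∈ ent l
  · obtain ⟨p, hp, h | h⟩ := (gv_mem l d).1 hd
    · obtain ⟨h1, h2⟩ := glue_pair α l hn hf p hp
      rw [h, h1, h2]
    · obtain ⟨h1, h2⟩ := glue_pair α l hn hf p hp
      rw [h, h2, h1]
  · have h1 : α d ∉ ent l := by
      intro h
      have h2 := hf _ h
      rw [hα] at h2
      rw [← h2] at h
      exact hd h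
    rw [glue_notMem _ _ _ hd, glue_notMem _ _ _ h1, hα]

theorem glue_perm (α : Perm D) (l l' : List (D × D)) (hn : (ent l).Nodup) (h : l.Perm l') :
    glue α l = glue α l' := by
  have hp : (ent l).Perm (ent l') := by
    unfold ent
    exact h.flatMap_right _
  have hn' : (ent l').Nodup := hp.nodup_iff.1 hn
  ext x
  by_cases hx : x ∈ ent l
  · obtain ⟨p, hpl, h1 | h1⟩ := (gv_mem l x).1 hx
    · rw [h1, (glue_mem α l hn p hpl).1, (glue_mem α l' hn' p (h.mem_iff.1 hpl)).1]
    · rw [h1, (glue_mem α l hn p hpl).2, (glue_mem α l' hn' p (h.mem_iff.1 hpl)).2]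
  · have hx' : x ∉ ent l' := fun h1 => hx (hp.mem_iff.2 h1)
    rw [glue_notMem _ _ _ hx, glue_notMem _ _ _ hx']

theorem glue_cut (α : Perm D) (hα : ∀ d, α (α d) = d) (l : List (D × D)) (hn : (ent l).Nodup)
    (he : ∀ p ∈ l, α p.1 = p.2) (x : D) (hx : x ∈ ent l) : glue α l x = x := by
  obtain ⟨p, hpl, h1 | h1⟩ := (gv_mem l x).1 hx
  · rw [h1, (glue_mem α l hn p hpl).1, ← he p hpl, hα]
  · rw [h1, (glue_mem α l hn p hpl).2, he p hpl]

end HG39
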