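import Pool.Agent.H39.HG.Defs
import Pool.Agent.H39.HG.GrPerm
import Pool.Agent.H39.HG.LabA

/-!
[H39 HG LABBASIC]  (MP_bcc40c_pr)  Existence of leftmost geodesics.

PROOFS.
fst_exists: from `dsc` a descending dart is in the `f * α`-cycle of `y`, so it is `(α * f⁻¹)^k y` for
some `k`; take the minimal `k` (Nat.find) with `Desc`.
fst_unique: two minimal exponents are equal.  fst_lev: SameCycle.
geo_exists: strong induction on the level of `δ`: if `ℓ (f δ) = 0` take `[δ]`; otherwise let `δ'` be the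
first descending dart of `α δ` (level `ℓ (α δ) = ℓ (f δ) = ℓ δ - 1 > 0`, fst_exists), `δ :: (geodesic
of δ')`.
geo_lev: levels along a geodesic: `ℓ (ds[i]) = ℓ δ - i`; so the length is `ℓ δ`; DnOK.
-/

set_option autoImplicit false

namespace HG39

open Equiv

variable {D : Type} [Fintype D] [DecidableEq D]

theorem fst_exists {f α : Perm D} {bs : List D} {ℓ : D → ℤ} (hf : TF f) (h : PT f α bs)
    (hl : Lab f α ℓ) (y : D) (hy : α y ≠ y) (hp : 0 < ℓ y) : ∃ δ, Fst f α ℓ y δ := by
  classical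
  have _ := hf
  obtain ⟨d', hs, _, hd⟩ := hl.dsc y hy hp
  obtain ⟨n, _, hn⟩ := ((rho_same h.inv y d').2 hs).exists_pow_eq'
  have hex : ∃ k, Desc f ℓ (((α * f⁻¹) ^ k) y) := ⟨n, by rw [hn]; exact hd⟩
  exact ⟨((α * f⁻¹) ^ (Nat.find hex)) y, Nat.find_spec hex, Nat.find hex, rfl,
    fun j hj => Nat.find_min hex hj⟩

theorem fst_unique {f α : Perm D} {ℓ : D → ℤ} {y δ δ' : D} (h1 : Fst f α ℓ y δ)
    (h2 : Fst f α ℓ y δ') : δ = δ' := by
  obtain ⟨d1, k1, e1, m1⟩ := h1
  obtain ⟨d2, k2, e2, m2⟩ := h2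
  rcases lt_trichotomy k1 k2 with hk | hk | hk
  · exact absurd (by rw [e1]; exact d1) (m2 k1 hk)
  · rw [← e1, ← e2, hk]
  · exact absurd (by rw [e2]; exact d2) (m1 k2 hk)

theorem fst_lev_LB {f α : Perm D} {bs : List D} {ℓ : D → ℤ} (hf : TF f) (h : PT f α bs)
    (hl : Lab f α ℓ) {δ δ' : D} (hy : α δ ≠ δ) (hF : Fst f α ℓ (α δ) δ') :
    ℓ (f δ) = ℓ δ' ∧ α δ' ≠ δ' := by
  have hn : α (α δ) ≠ α δ := fun h1 => hy ((nl_a h δ).1 h1)
  obtain ⟨h1, h2⟩ := lab_same hf h hl (α δ) δ' hn (pth_same h.inv hF.2)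
  exact ⟨(hl.ver δ hy).trans h1, h2⟩

theorem geo_cons_LB {f α : Perm D} {ℓ : D → ℤ} {δ δ' : D} {t : List D} (hd : Desc f ℓ δ)
    (hF : Fst f α ℓ (α δ) δ') (hg : Geo f α ℓ (δ' :: t)) : Geo f α ℓ (δ :: δ' :: t) := by
  refine ⟨?_, ?_, ?_⟩
  · intro z hz
    rcases List.mem_cons.1 hz with rfl | hz
    · exact hd
    · exact hg.desc z hz
  · intro p q a b he
    cases p with
    | nil =>
      rw [List.nil_append] at he
      injection he with h1 h2
      injection h2 with h3 h4
      rw [← h1, ← h3]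
      exact hF
    | cons c p' =>
      rw [List.cons_append] at he
      injection he with h1 h2
      exact hg.next p' q a b h2
  · intro p a he
    cases p with
    | nil =>
      rw [List.nil_append] at he
      injection he with h1 h2
      exact absurd h2 (List.cons_ne_nil _ _)
    | cons c p' =>
      rw [List.cons_append] at he
      injection he with h1 h2
      exact hg.last p' a h2

theorem geo_tail_LB {f α : Perm D} {ℓ : D → ℤ} {δ δ' : D} {t : List D}
    (hg : Geo f α ℓ (δ :: δ' :: t)) : Fst f α ℓ (α δ) δ' ∧ Geo f α ℓ (δ' :: t) := by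
  refine ⟨hg.next [] t δ δ' rfl, ?_, ?_, ?_⟩
  · intro z hz
    exact hg.desc z (List.mem_cons_of_mem _ hz)
  · intro p q a b he
    exact hg.next (δ :: p) q a b (by rw [he]; rfl)
  · intro p a he
    exact hg.last (δ :: p) a (by rw [he]; rfl)

theorem geo_exists {f α : Perm D} {bs : List D} {ℓ : D → ℤ} (hf : TF f) (h : PT f α bs)
    (hl : Lab f α ℓ) (δ : D) (hy : α δ ≠ δ) (hd : Desc f ℓ δ) :
    ∃ δs, Geo f α ℓ (δ :: δs) ∧ (∀ d ∈ δ :: δs, α d ≠ d) := by
  have key : ∀ (n : ℕ) (δ : D), ℓ δ ≤ n → α δ ≠ δ → Desc f ℓ δ →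
      ∃ δs, Geo f α ℓ (δ :: δs) ∧ (∀ d ∈ δ :: δs, α d ≠ d) := by
    intro n
    induction n with
    | zero =>
      intro δ hn hy hd
      exfalso
      have h1 : ℓ (f δ) = ℓ δ - 1 := hd
      have h2 := hl.ver δ hy
      have h3 := hl.nn (α δ) (fun h1 => hy ((nl_a h δ).1 h1))
      push_cast at hn
      omega
    | succ n ih =>
      intro δ hn hy hd
      have h1 : ℓ (f δ) = ℓ δ - 1 := hd
      have h2 := hl.ver δ hy
      have hn' : α (α δ) ≠ α δ := fun h1 => hy ((nl_a h δ).1 h1)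
      have h3 := hl.nn (α δ) hn'
      by_cases h0 : ℓ (f δ) = 0
      · refine ⟨[], ⟨?_, ?_, ?_⟩, ?_⟩
        · intro z hz
          rw [List.mem_singleton.1 hz]
          exact hd
        · intro p q a b he
          have h4 := congrArg List.length he
          simp at h4
          omega
        · intro p a he
          cases p with
          | nil =>
            rw [List.nil_append] at he
            injection he with h1 h2
            rw [← h1]
            exact h0
          | cons c p' =>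
            have h4 := congrArg List.length he
            simp at h4
        · intro z hz
          rw [List.mem_singleton.1 hz]
          exact hy
      · obtain ⟨δ', hF⟩ := fst_exists hf h hl (α δ) hn' (by omega)
        obtain ⟨h4, h5⟩ := fst_lev_LB hf h hl hy hF
        obtain ⟨t, ht1, ht2⟩ := ih δ' (by push_cast at hn; omega) h5 hF.1
        refine ⟨δ' :: t, geo_cons_LB hd hF ht1, ?_⟩
        intro z hz
        rcases List.mem_cons.1 hz with rfl | hz
        · exact hy
        · exact ht2 z hz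
  exact key (ℓ δ).toNat δ (Int.self_le_toNat _) hy hd

theorem geo_lev {f α : Perm D} {bs : List D} {ℓ : D → ℤ} (hf : TF f) (h : PT f α bs)
    (hl : Lab f α ℓ) (δ : D) (δs : List D) (hg : Geo f α ℓ (δ :: δs))
    (hn : ∀ d ∈ δ :: δs, α d ≠ d) :
    DnOK f ℓ (ℓ δ) (δ :: δs) ∧ (((δ :: δs).length : ℤ) = ℓ δ) := by
  induction δs generalizing δ with
  | nil =>
    have h1 : ℓ (f δ) = ℓ δ - 1 := hg.desc δ (List.mem_singleton.2 rfl)
    have h2 := hg.last [] δ rfl
    refine ⟨⟨rfl, h1, trivial⟩, ?_⟩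
    rw [List.length_singleton]
    push_cast
    omega
  | cons δ' t ih =>
    have h1 : ℓ (f δ) = ℓ δ - 1 := hg.desc δ List.mem_cons_self
    obtain ⟨hF, hg'⟩ := geo_tail_LB hg
    obtain ⟨h4, _⟩ := fst_lev_LB hf h hl (hn δ List.mem_cons_self) hF
    obtain ⟨h5, h6⟩ := ih δ' hg' (fun z hz => hn z (List.mem_cons_of_mem _ hz))
    have e : ℓ δ' = ℓ δ - 1 := by omega
    rw [e] at h5 h6
    refine ⟨⟨rfl, h1, h5⟩, ?_⟩
    rw [List.length_cons]
    push_cast
    push_cast at h6
    omega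

theorem geo_unique {f α : Perm D} {ℓ : D → ℤ} (δ : D) (δs δs' : List D)
    (h1 : Geo f α ℓ (δ :: δs)) (h2 : Geo f α ℓ (δ :: δs'))
    (hl : (δ :: δs).length = (δ :: δs').length) : δs = δs' := by
  induction δs generalizing δ δs' with
  | nil =>
    cases δs' with
    | nil => rfl
    | cons a t => simp at hl
  | cons a t ih =>
    cases δs' with
    | nil => simp at hl
    | cons b t' =>
      obtain ⟨hF1, hg1⟩ := geo_tail_LB h1
      obtain ⟨hF2, hg2⟩ := geo_tail_LB h2
      have hab : a = b := fst_unique hF1 hF2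
      subst hab
      rw [ih a t' hg1 hg2 (by simpa using hl)]

end HG39
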