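import Pool.Agent.H39.HG.Defs
import Pool.Agent.H39.HG.GrPerm

/-!
[H39 HG EMBBASIC]  (MP_bcc40c_pr)  First facts on embedded trees (`Emb`, Defs.lean).

PROOFS, all by induction on the derivation `h : Emb f α ℓ τ y rs lv` (`induction h with`).
Notation in the node case: root `b0 = α y`, left subtree on `f b0`, right subtree on `f (f b0)`,
`f (f (f b0)) = b0` (TF.three), `ℓ b0 = ℓ (f y)`, `ℓ (f b0) = ℓ y`.
emb_wt: `ℓ (f (f b0)) = ℓ (f b0) + wt a`, `ℓ b0 = ℓ (f (f (f b0))) = ℓ (f (f b0)) + wt b`; so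
`ℓ (f y) = ℓ b0 = ℓ y + wt a + wt b`.
emb_ok: clear.  emb_len: lengths.
emb_perm: node: `tri f (b0 :: (ra ++ rb)) = b0 :: f b0 :: f (f b0) :: (tri f ra ++ tri f rb)`,
`(b0 :: (ra ++ rb)).map α = y :: (ra.map α ++ rb.map α)`, combine the two induction hypotheses (a
permutation of lists; `List.perm_iff_count` and `simp`/`omega` works well).
emb_lvs: the leaves are read from `ℓ y` to `ℓ (f y)`; lvs_append for the node.
emb_low: `low (ℓ y) lv = ℓ y - ht τ`; node: low of `la ++ lb` is the minimum of `low (ℓ y) la` and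
`low (ℓ y + wt a) lb` (low_append; the end level of `la` is `ℓ y + wt a`).
-/

set_option autoImplicit false

namespace HG39

open Equiv

variable {D : Type} [Fintype D] [DecidableEq D]

theorem lvs_append (f : Perm D) (ℓ : D → ℤ) (l l' : List (D × Bool)) (s t u : ℤ)
    (h1 : Lvs f ℓ s l t) (h2 : Lvs f ℓ t l' u) : Lvs f ℓ s (l ++ l') u := by
  induction l generalizing s with
  | nil =>
    simp only [Lvs] at h1
    subst h1
    simpa using h2
  | cons p l ih =>
    simp only [Lvs, List.cons_append] at h1 ⊢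
    exact ⟨h1.1, h1.2.1, ih _ h1.2.2⟩

theorem lvs_split (f : Perm D) (ℓ : D → ℤ) (l l' : List (D × Bool)) (s u : ℤ)
    (h : Lvs f ℓ s (l ++ l') u) : ∃ t, Lvs f ℓ s l t ∧ Lvs f ℓ t l' u := by
  induction l generalizing s with
  | nil => exact ⟨s, by simp [Lvs], by simpa using h⟩
  | cons p l ih =>
    simp only [Lvs, List.cons_append] at h ⊢
    obtain ⟨t, h1, h2⟩ := ih _ h.2.2
    exact ⟨t, ⟨h.1, h.2.1, h1⟩, h2⟩

theorem low_append (f : Perm D) (ℓ : D → ℤ) (l l' : List (D × Bool)) (s t : ℤ)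
    (h1 : Lvs f ℓ s l t) : low s (l ++ l') = min (low s l) (low t l') := by
  induction l generalizing s with
  | nil =>
    simp only [Lvs] at h1
    subst h1
    cases l' with
    | nil => simp [low]
    | cons q l'' => simp [low]
  | cons p l ih =>
    simp only [Lvs, List.cons_append] at h1 ⊢
    simp only [low]
    rw [ih _ h1.2.2, min_assoc]

theorem low_le (l : List (D × Bool)) (s : ℤ) : low s l ≤ s := by
  cases l with
  | nil => simp [low]
  | cons p l => simp [low]

theorem low_mem (f : Perm D) (ℓ : D → ℤ) (l : List (D × Bool)) (s t : ℤ)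
    (h1 : Lvs f ℓ s l t) : ∀ p ∈ l, low s l ≤ ℓ p.1 ∧ low s l ≤ ℓ (f p.1) := by
  induction l generalizing s with
  | nil => simp
  | cons q l ih =>
    simp only [Lvs] at h1
    intro p hp
    rw [List.mem_cons] at hp
    simp only [low]
    rcases hp with rfl | hp
    · constructor
      · rw [h1.1]; exact min_le_left _ _
      · rw [h1.2.1]
        exact le_trans (min_le_right _ _) (low_le _ _)
    · obtain ⟨h3, h4⟩ := ih _ h1.2.2 p hp
      exact ⟨le_trans (min_le_right _ _) h3, le_trans (min_le_right _ _) h4⟩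

theorem emb_wt {f α : Perm D} {ℓ : D → ℤ} (hf : TF f) {τ : Tr} {y : D} {rs : List D}
    {lv : List (D × Bool)} (h : Emb f α ℓ τ y rs lv) : ℓ (f y) = ℓ y + τ.wt := by
  induction h with
  | u y h => simpa [Tr.wt] using h
  | d y h => simp only [Tr.wt]; omega
  | nd a b y b0 ra rb la lb h1 h2 h3 h4 hw ha hb iha ihb =>
    have h5 := hf.three b0
    rw [h5] at ihb
    simp only [Tr.wt]
    omega

theorem emb_ok {f α : Perm D} {ℓ : D → ℤ} {τ : Tr} {y : D} {rs : List D}
    {lv : List (D × Bool)} (h : Emb f α ℓ τ y rs lv) :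
    τ.ok ∧ (τ.wt = -1 ∨ τ.wt = 0 ∨ τ.wt = 1) := by
  induction h with
  | u y h => simp [Tr.ok, Tr.wt]
  | d y h => simp [Tr.ok, Tr.wt]
  | nd a b y b0 ra rb la lb h1 h2 h3 h4 hw ha hb iha ihb =>
    refine ⟨⟨iha.1, ihb.1, hw⟩, ?_⟩
    simp only [Tr.wt]
    omega

theorem emb_len {f α : Perm D} {ℓ : D → ℤ} {τ : Tr} {y : D} {rs : List D}
    {lv : List (D × Bool)} (h : Emb f α ℓ τ y rs lv) :
    rs.length = τ.sz ∧ lv.length = τ.sz + 1 := by
  induction h with
  | u y h => simp [Tr.sz]
  | d y h => simp [Tr.sz]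
  | nd a b y b0 ra rb la lb h1 h2 h3 h4 hw ha hb iha ihb =>
    simp only [Tr.sz, List.length_cons, List.length_append]
    omega

theorem emb_perm {f α : Perm D} {ℓ : D → ℤ} {τ : Tr} {y : D} {rs : List D}
    {lv : List (D × Bool)} (h : Emb f α ℓ τ y rs lv) :
    (lv.map Prod.fst ++ rs ++ rs.map α).Perm (y :: tri f rs) := by
  induction h with
  | u y h => simp [tri]
  | d y h => simp [tri]
  | nd a b y b0 ra rb la lb h1 h2 h3 h4 hw ha hb iha ihb =>
    rw [List.perm_iff_count] at iha ihb ⊢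
    intro z
    have e1 := iha z
    have e2 := ihb z
    simp only [tri, List.flatMap_cons, List.flatMap_append, List.map_append, List.map_cons,
      List.count_append, List.count_cons, h2, List.count_nil] at e1 e2 ⊢
    omega

theorem emb_lvs {f α : Perm D} {ℓ : D → ℤ} (hf : TF f) {τ : Tr} {y : D} {rs : List D}
    {lv : List (D × Bool)} (h : Emb f α ℓ τ y rs lv) : Lvs f ℓ (ℓ y) lv (ℓ (f y)) := by
  induction h with
  | u y h => simp [Lvs, h]
  | d y h => simp [Lvs, h]; omega
  | nd a b y b0 ra rb la lb h1 h2 h3 h4 hw ha hb iha ihb =>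
    have h5 := hf.three b0
    rw [h5, h3] at ihb
    rw [h4] at iha
    exact lvs_append f ℓ la lb _ _ _ iha ihb

theorem emb_low {f α : Perm D} {ℓ : D → ℤ} (hf : TF f) {τ : Tr} {y : D} {rs : List D}
    {lv : List (D × Bool)} (h : Emb f α ℓ τ y rs lv) : low (ℓ y) lv = ℓ y - τ.ht := by
  induction h with
  | u y h => simp [low, Tr.ht]
  | d y h => simp [low, Tr.ht]; omega
  | nd a b y b0 ra rb la lb h1 h2 h3 h4 hw ha hb iha ihb =>
    have e1 := emb_lvs hf ha
    have e2 := emb_wt hf ha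
    rw [h4] at e1 iha e2
    rw [low_append f ℓ la lb _ _ e1, iha, ihb]
    simp only [Tr.ht]
    omega

end HG39
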