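import Pool.Agent.H39.HG.Defs
import Pool.Agent.H39.HG.GrPerm
import Pool.Agent.H39.HG.EmbBasic

/-!
[H39 HG ROT]  (MP_bcc40c_pr)  Rotation `ρ = α * f⁻¹` around the corners of an embedded tree.

Values: for a root `b0 = α y` of a node: `ρ (f b0) = α b0 = y`; `ρ (f (f b0)) = α (f b0)`;
`ρ b0 = α (f (f b0))` (`f⁻¹ b0 = f (f b0)` by TF.three).  Induction on the derivation of `Emb`.
rot_start (first leaf `p` of the list): path from `p.1` to `y`; a leaf: 0 steps.  Node: by induction
(left subtree on `f b0`) a path from `p.1` to `f b0`, then one step `f b0 → y`.  The darts passed: those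
of the left subtree, and `f b0`.  Property of `z`: `z ∈ tri f rs`, `ℓ z = ℓ y`, and if `z` is descending
then some leaf ends at level `ℓ z - 1`: for `z = f b0`: the last leaf of `a` ends at
`ℓ (f (f b0))` (emb_lvs), which is `ℓ (f z)`.
rot_end (nonempty tree, last leaf `p`): path from `α y = b0` to `α p.1`: one step `b0 → α (f (f b0))`; if `b`
is a leaf, this is `α p.1` with `p.1 = f (f b0)`; otherwise `α (f (f b0))` is the root of `b`, use
induction.  Darts passed: roots; a root `b0` is not descending since `ℓ (f b0) - ℓ b0 = ℓ y - ℓ (f y) =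
-(wt a + wt b) ∈ {0, 1}`; and `ℓ b0 = ℓ (f y)`.
rot_next (consecutive leaves `p, q` with `lv = l1 ++ p :: q :: l2`): path from `q.1` to `α p.1`.  In a
node: if both are in `la` (or both in `lb`) use induction; otherwise `p` is the last leaf of `a` and
`q` the first leaf of `b`: rot_start for `b` gives a path `q.1 → f (f b0)`, one step `f (f b0) → α (f b0)`,
then if `a` is a leaf this is `α p.1`, otherwise rot_end for `a` (path from `α (f b0)` to `α p.1`).
Property of the darts `z` passed: `z ∈ tri f rs`, `ℓ z = ℓ q.1`, and if `z` is descending then there is a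
leaf `p' ∈ q :: l2` with `ℓ (f p'.1) = ℓ z - 1`: for `z = f (f b0)`: the last leaf of `b` ends at level
`ℓ (f (f (f b0))) = ℓ (f z)`.
-/

set_option autoImplicit false

namespace HG39

open Equiv

variable {D : Type} [Fintype D] [DecidableEq D]

omit [Fintype D] [DecidableEq D] in
private theorem pthR {ρ : Perm D} {S : D → Prop} (a : D) : Pth ρ S a a :=
  ⟨0, rfl, by intro j hj; omega⟩

omit [Fintype D] [DecidableEq D] in
private theorem pthT {ρ : Perm D} {S : D → Prop} {a b c : D} (h1 : Pth ρ S a b)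
    (h2 : Pth ρ S b c) : Pth ρ S a c := by
  obtain ⟨k, hk, hk'⟩ := h1
  obtain ⟨m, hm, hm'⟩ := h2
  refine ⟨m + k, ?_, ?_⟩
  · rw [pow_add, Perm.mul_apply, hk, hm]
  · intro j hj
    by_cases hjk : j < k
    · exact hk' j hjk
    · obtain ⟨i, rfl⟩ : ∃ i, j = i + k := ⟨j - k, by omega⟩
      rw [pow_add, Perm.mul_apply, hk]
      exact hm' i (by omega)

omit [Fintype D] [DecidableEq D] in
private theorem pthS {ρ : Perm D} {S : D → Prop} {a b : D} (h1 : S a) (h2 : ρ a = b) :
    Pth ρ S a b :=
  ⟨1, by simpa using h2, by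
    intro j hj
    have : j = 0 := by omega
    subst this
    simpa using h1⟩

omit [Fintype D] [DecidableEq D] in
private theorem pthM {ρ : Perm D} {S S' : D → Prop} {a b : D} (h : Pth ρ S a b)
    (hS : ∀ z, S z → S' z) : Pth ρ S' a b := by
  obtain ⟨k, hk, hk'⟩ := h
  exact ⟨k, hk, fun j hj => hS _ (hk' j hj)⟩

omit [Fintype D] [DecidableEq D] in
private theorem rhoF (f α : Perm D) (x : D) : (α * f⁻¹) (f x) = α x := by
  simp

omit [Fintype D] [DecidableEq D] in
private theorem lvsLast (f : Perm D) (ℓ : D → ℤ) (l : List (D × Bool)) (s t : ℤ)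
    (h : Lvs f ℓ s l t) (hl : l ≠ []) : ∃ p ∈ l, ℓ (f p.1) = t := by
  induction l generalizing s with
  | nil => exact absurd rfl hl
  | cons p l ih =>
    simp only [Lvs] at h
    cases l with
    | nil =>
      simp only [Lvs] at h
      exact ⟨p, by simp, by rw [h.2.1, h.2.2]⟩
    | cons q l =>
      obtain ⟨p', hp', hp''⟩ := ih _ h.2.2 (by simp)
      exact ⟨p', List.mem_cons_of_mem _ hp', hp''⟩

omit [Fintype D] [DecidableEq D] in
private theorem triL {f : Perm D} {b0 : D} {ra rb : List D} {z : D} (h : z ∈ tri f ra) :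
    z ∈ tri f (b0 :: (ra ++ rb)) := by
  simp only [tri, List.flatMap_cons, List.flatMap_append, List.mem_append] at h ⊢
  exact Or.inr (Or.inl h)

omit [Fintype D] [DecidableEq D] in
private theorem triR {f : Perm D} {b0 : D} {ra rb : List D} {z : D} (h : z ∈ tri f rb) :
    z ∈ tri f (b0 :: (ra ++ rb)) := by
  simp only [tri, List.flatMap_cons, List.flatMap_append, List.mem_append] at h ⊢
  exact Or.inr (Or.inr h)

omit [Fintype D] [DecidableEq D] in
private theorem tri0 {f : Perm D} {b0 : D} {r : List D} : b0 ∈ tri f (b0 :: r) := by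
  simp [tri]

omit [Fintype D] [DecidableEq D] in
private theorem tri1 {f : Perm D} {b0 : D} {r : List D} : f b0 ∈ tri f (b0 :: r) := by
  simp [tri]

omit [Fintype D] [DecidableEq D] in
private theorem tri2 {f : Perm D} {b0 : D} {r : List D} : f (f b0) ∈ tri f (b0 :: r) := by
  simp [tri]

private theorem lvNe {f α : Perm D} {ℓ : D → ℤ} {τ : Tr} {y : D} {rs : List D}
    {lv : List (D × Bool)} (h : Emb f α ℓ τ y rs lv) : lv ≠ [] := by
  have := (emb_len h).2
  intro h0
  rw [h0] at this
  simp at this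

omit [Fintype D] [DecidableEq D] in
private theorem embLeaf {f α : Perm D} {ℓ : D → ℤ} {τ : Tr} {y : D} {rs : List D}
    {lv : List (D × Bool)} (h : Emb f α ℓ τ y rs lv) :
    (∃ b : Bool, rs = [] ∧ lv = [(y, b)]) ∨ (rs ≠ [] ∧ α y ∈ tri f rs) := by
  cases h with
  | u h => exact Or.inl ⟨true, rfl, rfl⟩
  | d h => exact Or.inl ⟨false, rfl, rfl⟩
  | nd a b _ b0 ra rb la lb h1 h2 h3 h4 hw ha hb =>
    refine Or.inr ⟨by simp, ?_⟩
    rw [h1]
    exact tri0

theorem rot_start {f α : Perm D} {ℓ : D → ℤ} (hf : TF f) {τ : Tr} {y : D} {rs : List D}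
    {lv : List (D × Bool)} (h : Emb f α ℓ τ y rs lv) (p : D × Bool) (l : List (D × Bool))
    (hl : lv = p :: l) :
    Pth (α * f⁻¹) (fun z => z ∈ tri f rs ∧ ℓ z = ℓ y ∧
      (Desc f ℓ z → ∃ p' ∈ lv, ℓ (f p'.1) = ℓ z - 1)) p.1 y := by
  induction h generalizing l with
  | u y h =>
    rw [List.cons.injEq] at hl
    rw [← hl.1]
    exact pthR _
  | d y h =>
    rw [List.cons.injEq] at hl
    rw [← hl.1]
    exact pthR _
  | nd a b y b0 ra rb la lb h1 h2 h3 h4 hw ha hb iha ihb =>
    have hla := lvNe ha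
    obtain ⟨q, la', rfl⟩ := List.exists_cons_of_ne_nil hla
    rw [List.cons_append, List.cons.injEq] at hl
    obtain ⟨rfl, hl⟩ := hl
    refine pthT (pthM (iha la' rfl) ?_) (pthS ?_ ?_)
    · rintro z ⟨z1, z2, z3⟩
      refine ⟨triL z1, by rw [z2, h4], ?_⟩
      intro hz
      obtain ⟨p', hp', hp''⟩ := z3 hz
      exact ⟨p', List.mem_append_left _ hp', hp''⟩
    · refine ⟨tri1, h4, ?_⟩
      intro hz
      obtain ⟨p', hp', hp''⟩ := lvsLast f ℓ _ _ _ (emb_lvs hf ha) hla
      refine ⟨p', List.mem_append_left _ hp', ?_⟩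
      rw [hp'']
      exact hz
    · rw [rhoF, h2]

theorem rot_end {f α : Perm D} {ℓ : D → ℤ} (hf : TF f) {τ : Tr} {y : D} {rs : List D}
    {lv : List (D × Bool)} (h : Emb f α ℓ τ y rs lv) (hne : rs ≠ []) (p : D × Bool)
    (l : List (D × Bool)) (hl : lv = l ++ [p]) :
    Pth (α * f⁻¹) (fun z => z ∈ tri f rs ∧ ℓ z = ℓ (f y) ∧ ¬ Desc f ℓ z) (α y) (α p.1) := by
  induction h generalizing l with
  | u y h => exact absurd rfl hne
  | d y h => exact absurd rfl hne
  | nd a b y b0 ra rb la lb h1 h2 h3 h4 hw ha hb iha ihb =>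
    have hlb := lvNe hb
    have h5 := hf.three b0
    obtain ⟨lb', hlb'⟩ : ∃ lb', lb = lb' ++ [p] := by
      rcases List.eq_nil_or_concat lb with h0 | ⟨L, q, h0⟩
      · exact absurd h0 hlb
      · refine ⟨L, ?_⟩
        rw [List.concat_eq_append] at h0
        rw [h0, ← List.append_assoc] at hl
        have := List.append_inj_right' hl rfl
        rw [h0, this]
    have hwt := emb_wt hf (Emb.nd (f := f) (α := α) (ℓ := ℓ) a b y b0 ra rb la lb h1 h2 h3 h4
      hw ha hb)
    rw [h1]
    have hS : Pth (α * f⁻¹) (fun z => z ∈ tri f (b0 :: (ra ++ rb)) ∧ ℓ z = ℓ (f y) ∧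
        ¬ Desc f ℓ z) b0 (α (f (f b0))) := by
      refine pthS ⟨tri0, h3, ?_⟩ ?_
      · intro hz
        simp only [Desc, Tr.wt] at hz hwt
        omega
      · have := rhoF f α (f (f b0))
        rw [h5] at this
        exact this
    refine pthT hS ?_
    rcases embLeaf hb with ⟨c, hc1, hc2⟩ | ⟨hc1, -⟩
    · rw [hlb'] at hc2
      have hlen : lb' = [] := by
        have := congrArg List.length hc2
        simp at this
        exact this
      rw [hlen] at hc2
      simp only [List.nil_append, List.cons.injEq, and_true] at hc2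
      rw [hc2]
      exact pthR _
    · refine pthM (ihb hc1 lb' hlb') ?_
      rintro z ⟨z1, z2, z3⟩
      exact ⟨triR z1, by rw [z2, h5, h3], z3⟩

theorem rot_next {f α : Perm D} {ℓ : D → ℤ} (hf : TF f) {τ : Tr} {y : D} {rs : List D}
    {lv : List (D × Bool)} (h : Emb f α ℓ τ y rs lv) (p q : D × Bool)
    (l1 l2 : List (D × Bool)) (hl : lv = l1 ++ p :: q :: l2) :
    Pth (α * f⁻¹) (fun z => z ∈ tri f rs ∧ ℓ z = ℓ q.1 ∧
      (Desc f ℓ z → ∃ p' ∈ q :: l2, ℓ (f p'.1) = ℓ z - 1)) q.1 (α p.1) := by
  induction h generalizing l1 l2 with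
  | u y h =>
    have := congrArg List.length hl
    simp at this
    omega
  | d y h =>
    have := congrArg List.length hl
    simp at this
    omega
  | nd a b y b0 ra rb la lb h1 h2 h3 h4 hw ha hb iha ihb =>
    have h5 := hf.three b0
    rw [List.append_eq_append_iff] at hl
    rcases hl with ⟨m, hm1, hm2⟩ | ⟨m, hm1, hm2⟩
    · -- l1 = la ++ m, lb = m ++ p :: q :: l2
      refine pthM (ihb m l2 hm2) ?_
      rintro z ⟨z1, z2, z3⟩
      exact ⟨triR z1, z2, z3⟩
    · -- la = l1 ++ m, p :: q :: l2 = m ++ lb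
      cases m with
      | nil =>
        simp only [List.nil_append, List.append_nil] at hm1 hm2
        refine pthM (ihb [] l2 (by rw [List.nil_append, hm2])) ?_
        rintro z ⟨z1, z2, z3⟩
        exact ⟨triR z1, z2, z3⟩
      | cons p0 m =>
        rw [List.cons_append, List.cons.injEq] at hm2
        obtain ⟨rfl, hm2⟩ := hm2
        cases m with
        | nil =>
          rw [List.nil_append] at hm2
          -- la = l1 ++ [p], lb = q :: l2
          have hq : ℓ q.1 = ℓ (f (f b0)) := by
            have := emb_lvs hf hb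
            rw [← hm2] at this
            simp only [Lvs] at this
            exact this.1
          have P1 := rot_start hf hb q l2 hm2.symm
          have P2 : Pth (α * f⁻¹) (fun z => z ∈ tri f (b0 :: (ra ++ rb)) ∧ ℓ z = ℓ q.1 ∧
              (Desc f ℓ z → ∃ p' ∈ q :: l2, ℓ (f p'.1) = ℓ z - 1)) q.1 (f (f b0)) := by
            refine pthM P1 ?_
            rintro z ⟨z1, z2, z3⟩
            refine ⟨triR z1, by rw [z2, hq], ?_⟩
            rw [hm2]
            exact z3
          have P3 : Pth (α * f⁻¹) (fun z => z ∈ tri f (b0 :: (ra ++ rb)) ∧ ℓ z = ℓ q.1 ∧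
              (Desc f ℓ z → ∃ p' ∈ q :: l2, ℓ (f p'.1) = ℓ z - 1)) (f (f b0)) (α (f b0)) := by
            refine pthS ⟨tri2, hq.symm, ?_⟩ (rhoF f α (f b0))
            intro hz
            obtain ⟨p', hp', hp''⟩ := lvsLast f ℓ _ _ _ (emb_lvs hf hb) (lvNe hb)
            refine ⟨p', by rw [hm2]; exact hp', ?_⟩
            rw [hp'']
            exact hz
          refine pthT P2 (pthT P3 ?_)
          rcases embLeaf ha with ⟨c, hc1, hc2⟩ | ⟨hc1, -⟩
          · rw [hm1] at hc2
            have hlen : l1 = [] := by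
              have := congrArg List.length hc2
              simp at this
              exact this
            rw [hlen] at hc2
            simp only [List.nil_append, List.cons.injEq, and_true] at hc2
            rw [hc2]
            exact pthR _
          · refine pthM (rot_end hf ha hc1 p l1 hm1) ?_
            rintro z ⟨z1, z2, z3⟩
            exact ⟨triL z1, by rw [z2, hq], fun hz => absurd hz z3⟩
        | cons q0 m =>
          rw [List.cons_append, List.cons.injEq] at hm2
          obtain ⟨rfl, hm2⟩ := hm2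
          refine pthM (iha l1 m hm1) ?_
          rintro z ⟨z1, z2, z3⟩
          refine ⟨triL z1, z2, ?_⟩
          intro hz
          obtain ⟨p', hp', hp''⟩ := z3 hz
          refine ⟨p', ?_, hp''⟩
          rw [hm2]
          rw [List.mem_cons] at hp' ⊢
          rcases hp' with h | h
          · exact Or.inl h
          · exact Or.inr (List.mem_append_left _ h)

/-- every dart of the triangles is in the same `ρ`-cycle as `α` of a leaf, or as `y` -/
theorem rot_all {f α : Perm D} {ℓ : D → ℤ} (hf : TF f) {τ : Tr} {y : D} {rs : List D}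
    {lv : List (D × Bool)} (h : Emb f α ℓ τ y rs lv) :
    ∀ z ∈ tri f rs, (∃ p ∈ lv, (α * f⁻¹).SameCycle z (α p.1)) ∨ (α * f⁻¹).SameCycle z y := by
  induction h with
  | u y h =>
    intro z hz
    simp [tri] at hz
  | d y h =>
    intro z hz
    simp [tri] at hz
  | nd a b y b0 ra rb la lb h1 h2 h3 h4 hw ha hb iha ihb =>
    have h5 := hf.three b0
    have A : (α * f⁻¹).SameCycle (f b0) y := by
      have := rhoF f α b0
      rw [h2] at this
      rw [← this]
      exact Perm.sameCycle_apply_right.2 (Perm.SameCycle.refl _ _)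
    have C : ∀ z ∈ tri f ra, (∃ p ∈ la ++ lb, (α * f⁻¹).SameCycle z (α p.1)) ∨
        (α * f⁻¹).SameCycle z y := by
      intro z hz
      rcases iha z hz with ⟨p, hp, hp'⟩ | hp
      · exact Or.inl ⟨p, List.mem_append_left _ hp, hp'⟩
      · exact Or.inr (hp.trans A)
    have B : (∃ p ∈ la ++ lb, (α * f⁻¹).SameCycle (f (f b0)) (α p.1)) ∨
        (α * f⁻¹).SameCycle (f (f b0)) y := by
      have e : (α * f⁻¹).SameCycle (f (f b0)) (α (f b0)) := by
        have := rhoF f α (f b0)
        rw [← this]
        exact Perm.sameCycle_apply_right.2 (Perm.SameCycle.refl _ _)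
      rcases embLeaf ha with ⟨c, hc1, hc2⟩ | ⟨hc1, hc2⟩
      · refine Or.inl ⟨(f b0, c), List.mem_append_left _ ?_, e⟩
        rw [hc2]
        simp
      · rcases C _ hc2 with ⟨p, hp, hp'⟩ | hp
        · exact Or.inl ⟨p, hp, e.trans hp'⟩
        · exact Or.inr (e.trans hp)
    have Dd : ∀ z ∈ tri f rb, (∃ p ∈ la ++ lb, (α * f⁻¹).SameCycle z (α p.1)) ∨
        (α * f⁻¹).SameCycle z y := by
      intro z hz
      rcases ihb z hz with ⟨p, hp, hp'⟩ | hp
      · exact Or.inl ⟨p, List.mem_append_right _ hp, hp'⟩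
      · rcases B with ⟨q, hq, hq'⟩ | hq
        · exact Or.inl ⟨q, hq, hp.trans hq'⟩
        · exact Or.inr (hp.trans hq)
    have E : (∃ p ∈ la ++ lb, (α * f⁻¹).SameCycle b0 (α p.1)) ∨ (α * f⁻¹).SameCycle b0 y := by
      have e : (α * f⁻¹).SameCycle b0 (α (f (f b0))) := by
        have := rhoF f α (f (f b0))
        rw [h5] at this
        rw [← this]
        exact Perm.sameCycle_apply_right.2 (Perm.SameCycle.refl _ _)
      rcases embLeaf hb with ⟨c, hc1, hc2⟩ | ⟨hc1, hc2⟩
      · refine Or.inl ⟨(f (f b0), c), List.mem_append_right _ ?_, e⟩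
        rw [hc2]
        simp
      · rcases Dd _ hc2 with ⟨p, hp, hp'⟩ | hp
        · exact Or.inl ⟨p, hp, e.trans hp'⟩
        · exact Or.inr (e.trans hp)
    intro z hz
    simp only [tri, List.flatMap_cons, List.flatMap_append, List.mem_append, List.mem_cons,
      List.not_mem_nil, or_false] at hz
    rcases hz with (rfl | rfl | rfl) | hz | hz
    · exact E
    · exact Or.inr A
    · exact B
    · exact C z hz
    · exact Dd z hz

end HG39
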