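import Pool.Agent.H39.HG.Defs
import Pool.Agent.H39.HG.EmbBasic

/-!
[H39 HG SCANBAL]  (MP_bcc40c_pr)  Decomposition of the contour into balanced blocks (`Bal`, `Dec` in
Defs.lean).

PROOFS.  bal_append: induction on the second word (constructor `cat`, associativity of `++`).
dec_append: if `Dec α l As Bs` and `Bal α Z` then `Dec α (l ++ Z) As Bs`: cases on `Dec`, the last
block `X` becomes `X ++ Z`.
scan_dec_aux: for a word `l` already read with `Dec α l As0 st`, and the rest `lv`: if `st ≠ []` or not,
`Dec α (l ++ lv) (As0 ++ (scan lv st).2.1) (scan lv st).2.2`.  Induction on `lv` generalizing `l As0 st`.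
Up step: `Dec.up` with empty block.  Down step `y` with stack `x :: st'`: `Dec α l As0 (x :: st')` can
only come from `Dec.up`: `l = l' ++ (x, true) :: X` with `Dec α l' As0 st'`, `Bal α X`; the new word is
`l' ++ ((x,true) :: (X ++ [(y,false)]))`, and `(x,true) :: (X ++ [(y,false)])` is balanced (`Bal.cat` with
`l1 = []`, needs `α y = x`: hypothesis on the pairs of `scan`), dec_append.  Down step with empty
stack: `Dec.dn` with empty block.
dec_bb: if `Dec α lv As (p ++ B :: B' :: q)` then `lv = pre ++ (B', true) :: (Y ++ (B, true) :: post)` with `Y`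
balanced: induction on `Dec` (the list `p` shortens from the left: `Bs = B1 :: Bs'`; if `p = []` then
`B = B1`, `lv = l ++ (B,true) :: X` with `Dec α l As (B' :: q)`, so `l = l' ++ (B', true) :: X'`;
if `p ≠ []` use the induction hypothesis for `l` and put the rest into `post`).
dec_ab: the last elements: `As = p ++ [A]`, `Bs = q ++ [B]`: then `lv = pre ++ (A,false) :: (Y ++ (B,true)
:: post)`.
-/

set_option autoImplicit false

namespace HG39

open Equiv

variable {D : Type} [Fintype D] [DecidableEq D]

theorem bal_append {α : Perm D} {l l' : List (D × Bool)} (h : Bal α l) (h' : Bal α l') :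
    Bal α (l ++ l') := by
  induction h' with
  | nil => rwa [List.append_nil]
  | cat l1 l2 x y hxy h1 h2 ih1 ih2 =>
    rw [← List.append_assoc]
    exact Bal.cat _ _ _ _ hxy ih1 h2

theorem dec_append {α : Perm D} {l Z : List (D × Bool)} {As Bs : List D} (h : Dec α l As Bs)
    (h' : Bal α Z) : Dec α (l ++ Z) As Bs := by
  cases h with
  | nil X hX => exact Dec.nil _ (bal_append hX h')
  | dn l X As A h hX =>
    rw [List.append_assoc, List.cons_append]
    exact Dec.dn _ _ _ _ h (bal_append hX h')
  | up l X As Bs B h hX =>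
    rw [List.append_assoc, List.cons_append]
    exact Dec.up _ _ _ _ _ h (bal_append hX h')

theorem dec_up_inv {α : Perm D} {l : List (D × Bool)} {As st : List D} {x : D}
    (h : Dec α l As (x :: st)) : ∃ l' X, l = l' ++ (x, true) :: X ∧ Dec α l' As st ∧ Bal α X := by
  cases h with
  | up l' X _ _ _ h hX => exact ⟨l', X, rfl, h, hX⟩

theorem dec_dn_inv {α : Perm D} {l : List (D × Bool)} {p : List D} {A : D}
    (h : Dec α l (p ++ [A]) []) : ∃ l' X, l = l' ++ (A, false) :: X ∧ Bal α X := by
  generalize hA : p ++ [A] = As at h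
  generalize hB : ([] : List D) = Bs at h
  cases h with
  | nil X hX => simp at hA
  | dn l' X As' A' h hX =>
    have h1 := List.append_inj' hA rfl
    have h2 : A = A' := by simpa using h1.2
    subst h2
    exact ⟨l', X, rfl, hX⟩
  | up l' X As' Bs' B h hX => simp at hB

theorem scan_dec_aux {α : Perm D} (lv : List (D × Bool)) : ∀ (l : List (D × Bool))
    (As0 st : List D), Dec α l As0 st → (∀ p ∈ (scan lv st).1, α p.2 = p.1) →
    Dec α (l ++ lv) (As0 ++ (scan lv st).2.1) (scan lv st).2.2 := by
  induction lv with
  | nil =>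
    intro l As0 st h _
    simpa [scan] using h
  | cons a lv ih =>
    intro l As0 st h hp
    obtain ⟨y, b⟩ := a
    cases b with
    | true =>
      have h1 := ih (l ++ [(y, true)]) As0 (y :: st) (Dec.up l [] As0 st y h Bal.nil) hp
      have e : l ++ (y, true) :: lv = l ++ [(y, true)] ++ lv := by simp
      rw [e]
      exact h1
    | false =>
      cases st with
      | nil =>
        have h1 := ih (l ++ [(y, false)]) (As0 ++ [y]) [] (Dec.dn l [] As0 y h Bal.nil) hp
        have e : l ++ (y, false) :: lv = l ++ [(y, false)] ++ lv := by simp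
        rw [e]
        have e2 : As0 ++ (scan ((y, false) :: lv) []).2.1 = As0 ++ [y] ++ (scan lv []).2.1 := by
          simp [scan]
        rw [e2]
        exact h1
      | cons x st =>
        obtain ⟨l', X, hl, h', hX⟩ := dec_up_inv h
        have hxy : α y = x := hp (x, y) (by simp [scan])
        have hb : Bal α ([] ++ (x, true) :: (X ++ [(y, false)])) :=
          Bal.cat [] X x y hxy Bal.nil hX
        have h2 := dec_append h' hb
        have h1 := ih _ As0 st h2 (fun p hpp => hp p (by simp [scan]; right; exact hpp))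
        have e : l ++ (y, false) :: lv = l' ++ ([] ++ (x, true) :: (X ++ [(y, false)])) ++ lv := by
          rw [hl]; simp
        rw [e]
        exact h1

theorem scan_dec {α : Perm D} (lv : List (D × Bool)) (h : ∀ p ∈ (scan lv []).1, α p.2 = p.1) :
    Dec α lv (scan lv []).2.1 (scan lv []).2.2 := by
  have h1 := scan_dec_aux lv [] [] [] (Dec.nil [] Bal.nil) h
  simpa using h1

theorem dec_bb_aux {α : Perm D} {lv : List (D × Bool)} {As Bs : List D} {B B' : D}
    {q : List D} (h : Dec α lv As Bs) : ∀ p : List D, Bs = p ++ B :: B' :: q →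
    ∃ pre Y post, lv = pre ++ (B', true) :: (Y ++ (B, true) :: post) ∧ Bal α Y := by
  induction h with
  | nil X hX => intro p hp; simp at hp
  | dn l X As A h hX ih => intro p hp; simp at hp
  | up l X As Bs B1 h hX ih =>
    intro p hp
    cases p with
    | nil =>
      simp only [List.nil_append, List.cons.injEq] at hp
      obtain ⟨h1, h2⟩ := hp
      subst h1 h2
      obtain ⟨l', X', hl, _, hX'⟩ := dec_up_inv h
      refine ⟨l', X', X, ?_, hX'⟩
      rw [hl]; simp
    | cons b p =>
      simp only [List.cons_append, List.cons.injEq] at hp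
      obtain ⟨h1, h2⟩ := hp
      obtain ⟨pre, Y, post, hl, hY⟩ := ih p h2
      refine ⟨pre, Y, post ++ (B1, true) :: X, ?_, hY⟩
      rw [hl]; simp

theorem dec_bb {α : Perm D} {lv : List (D × Bool)} {As p q : List D} {B B' : D}
    (h : Dec α lv As (p ++ B :: B' :: q)) :
    ∃ pre Y post, lv = pre ++ (B', true) :: (Y ++ (B, true) :: post) ∧ Bal α Y :=
  dec_bb_aux h p rfl

theorem dec_ab_aux {α : Perm D} {lv : List (D × Bool)} {As Bs p : List D} {A B : D}
    (h : Dec α lv As Bs) : As = p ++ [A] → ∀ q : List D, Bs = q ++ [B] →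
    ∃ pre Y post, lv = pre ++ (A, false) :: (Y ++ (B, true) :: post) ∧ Bal α Y := by
  induction h with
  | nil X hX => intro _ q hq; simp at hq
  | dn l X As A h hX ih => intro _ q hq; simp at hq
  | up l X As Bs B1 h hX ih =>
    intro hA q hq
    cases q with
    | nil =>
      simp only [List.nil_append, List.cons.injEq] at hq
      obtain ⟨h1, h2⟩ := hq
      subst h1 h2 hA
      obtain ⟨l', X', hl, hX'⟩ := dec_dn_inv h
      refine ⟨l', X', X, ?_, hX'⟩
      rw [hl]; simp
    | cons b q =>
      simp only [List.cons_append, List.cons.injEq] at hq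
      obtain ⟨h1, h2⟩ := hq
      obtain ⟨pre, Y, post, hl, hY⟩ := ih hA q h2
      refine ⟨pre, Y, post ++ (B1, true) :: X, ?_, hY⟩
      rw [hl]; simp

theorem dec_ab {α : Perm D} {lv : List (D × Bool)} {p q : List D} {A B : D}
    (h : Dec α lv (p ++ [A]) (q ++ [B])) :
    ∃ pre Y post, lv = pre ++ (A, false) :: (Y ++ (B, true) :: post) ∧ Bal α Y :=
  dec_ab_aux h rfl q rfl

end HG39
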