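import Pool.Agent.H39.HG.Defs
import Pool.Agent.H39.HG.EmbBasic

/-!
[H39 HG SCANLEV]  (MP_bcc40c_pr)  Levels in the parenthesis matching.

PROOF.  Induction on `lv` generalizing `s` and `st`.
`[]`: `s' = s`, no pairs, no downs, stack `st`; `low s [] = s`, `max 0 (s - |st| - s) = 0`.
`(y, true) :: lv`: `ℓ y = s`, `ℓ (f y) = s + 1`; the stack `y :: st` is OK at level `s + 1` and
`(s + 1) - (|st| + 1) = s - |st|`; `low s (p :: l) = min s (low (s+1) l)`; the number of downs from the
induction is `max 0 (s - |st| - low (s+1) l)`, and `s - |st| - s ≤ 0`, so the minimum with `s` does not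
matter.
`(y, false) :: lv`, stack `x :: st`: `ℓ y = s`, `ℓ (f y) = s - 1`, `ℓ (f x) = s`, `ℓ x = s - 1`: the pair
`(x, y)` satisfies `ℓ y = ℓ (f x)`, `ℓ (f y) = ℓ x`; the stack `st` is OK at level `s - 1`, and
`(s-1) - |st| = s - |x :: st|`.
`(y, false) :: lv`, empty stack: `y` is the next down from level `s` to `s - 1`; `low (s-1) l ≤ s - 1`
(low_le), `max 0 (s - low s (..)) = s - min s (low (s-1) l) = 1 + (s - 1 - low (s-1) l)`.
-/

set_option autoImplicit false

namespace HG39

open Equiv

variable {D : Type} [Fintype D] [DecidableEq D]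

theorem scan_lev (f : Perm D) (ℓ : D → ℤ) (lv : List (D × Bool)) : ∀ (st : List D) (s s' : ℤ),
    Lvs f ℓ s lv s' → StOK f ℓ s st →
    (∀ p ∈ (scan lv st).1, ℓ p.2 = ℓ (f p.1) ∧ ℓ (f p.2) = ℓ p.1) ∧
    DnOK f ℓ (s - st.length) (scan lv st).2.1 ∧ StOK f ℓ s' (scan lv st).2.2 ∧
    s' = s - st.length - (scan lv st).2.1.length + (scan lv st).2.2.length ∧
    ((scan lv st).2.1.length : ℤ) = max 0 (s - st.length - low s lv) := by
  induction lv with
  | nil =>
    intro st s s' h hs
    simp only [Lvs] at h
    subst h
    refine ⟨by simp [scan], by simp [scan, DnOK], by simpa [scan] using hs, by simp [scan], ?_⟩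
    simp only [scan, low, List.length_nil]
    omega
  | cons p lv ih =>
    intro st s s' h hs
    obtain ⟨y, b⟩ := p
    cases b with
    | true =>
      simp only [Lvs, if_true] at h
      obtain ⟨h1, h2, h3⟩ := h
      have hst : StOK f ℓ (s + 1) (y :: st) := by
        simp only [StOK]
        refine ⟨h2, by omega, ?_⟩
        have e : s + 1 - 1 = s := by omega
        rw [e]
        exact hs
      obtain ⟨i1, i2, i3, i4, i5⟩ := ih (y :: st) (s + 1) s' h3 hst
      simp only [scan, low, if_true]
      refine ⟨i1, ?_, i3, ?_, ?_⟩
      · have e : s + 1 - ((y :: st).length : ℤ) = s - (st.length : ℤ) := by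
          simp only [List.length_cons]
          push_cast
          omega
        rw [e] at i2
        exact i2
      · simp only [List.length_cons] at i4
        push_cast at i4
        omega
      · rw [i5]
        simp only [List.length_cons]
        push_cast
        omega
    | false =>
      simp only [Lvs] at h
      obtain ⟨h1, h2, h3⟩ := h
      have hm : s + (if (false = true) then (1 : ℤ) else -1) = s - 1 := by simp; omega
      rw [hm] at h2 h3
      cases st with
      | nil =>
        obtain ⟨i1, i2, i3, i4, i5⟩ := ih [] (s - 1) s' h3 (by simp [StOK])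
        have hl := low_le lv (s - 1)
        simp only [scan, low, List.length_nil, List.length_cons] at i2 i4 i5 ⊢
        rw [hm]
        push_cast at i2 i4 i5 ⊢
        refine ⟨i1, ?_, i3, by omega, by omega⟩
        simp only [DnOK]
        refine ⟨by omega, by omega, ?_⟩
        have e : s - 0 - 1 = s - 1 - 0 := by omega
        rw [e]
        exact i2
      | cons x st =>
        simp only [StOK] at hs
        obtain ⟨i1, i2, i3, i4, i5⟩ := ih st (s - 1) s' h3 hs.2.2
        simp only [scan, low, List.length_cons] at i2 i4 i5 ⊢
        rw [hm]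
        push_cast at i2 i4 i5 ⊢
        have e : s - ((st.length : ℤ) + 1) = s - 1 - (st.length : ℤ) := by omega
        refine ⟨?_, ?_, i3, by omega, by omega⟩
        · intro p hp
          rw [List.mem_cons] at hp
          rcases hp with rfl | hp
          · simp only
            omega
          · exact i1 p hp
        · rw [e]
          exact i2

end HG39
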