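import Pool.Agent.H39.HG.Defs
import Pool.Agent.H39.HG.GrPerm
import Pool.Agent.H39.HG.EmbBasic

/-!
[H39 HG EMBCONN]  (MP_bcc40c_pr)  More facts on embedded trees (`Emb`): labels in the triangles,
consistency, congruence, connectedness.

PROOFS, by induction on the derivation `h : Emb f α ℓ τ y rs lv`.
Notation in the node case: root `b0 = α y`, left subtree on `f b0`, right subtree on `f (f b0)`,
`f (f (f b0)) = b0` (TF.three), `ℓ b0 = ℓ (f y)`, `ℓ (f b0) = ℓ y`.
emb_tri: every label of a dart of the triangles is the start or the end level of some leaf (`ℓ b0` is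
the end level of the last leaf of `b`, `ℓ (f b0)` the start level of the first leaf of `a`,
`ℓ (f (f b0))` the start level of the first leaf of `b`).
emb_lip: in each triangle the labels of consecutive darts differ by at most one (differences `wt a`,
`wt b`, `-(wt a + wt b)`; a tree with `ok` has weight -1, 0 or 1).
emb_congr: `Emb` only depends on the labels of the darts of `y, f y` and of the triangles and on `α`
at the roots and at the attaching darts.
emb_conn: a set `Q` which contains a dart of the triangles, is closed under `f` on the triangles and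
closed under `α` as long as `α d` is a dart of the triangles, contains all darts of the triangles; the
root triangle of a nonempty tree is connected with the others through `f b0 <-> root of a`, etc.
(state: if `Q` contains one dart of `tri f rs` then it contains the head of `rs`, and if it contains the
head of `rs` it contains all of `tri f rs`).
-/

set_option autoImplicit false

namespace HG39

open Equiv

variable {D : Type} [Fintype D] [DecidableEq D]

private theorem ec_tri (f : Perm D) (b0 : D) (ra rb : List D) (d : D) :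
    d ∈ tri f (b0 :: (ra ++ rb)) ↔
      d = b0 ∨ d = f b0 ∨ d = f (f b0) ∨ d ∈ tri f ra ∨ d ∈ tri f rb := by
  have h1 : tri f (b0 :: (ra ++ rb)) = b0 :: f b0 :: f (f b0) :: tri f (ra ++ rb) := rfl
  rw [h1, tri_append, List.mem_cons, List.mem_cons, List.mem_cons, List.mem_append]

private theorem ec_start {f α : Perm D} {ℓ : D → ℤ} {τ : Tr} {y : D} {rs : List D}
    {lv : List (D × Bool)} (h : Emb f α ℓ τ y rs lv) : ∃ p ∈ lv, ℓ y = ℓ p.1 := by
  induction h with
  | u y h => exact ⟨(y, true), List.mem_singleton.2 rfl, rfl⟩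
  | d y h => exact ⟨(y, false), List.mem_singleton.2 rfl, rfl⟩
  | nd a b y b0 ra rb la lb h1 h2 h3 h4 hw ha hb iha ihb =>
    obtain ⟨p, hp, hp'⟩ := iha
    exact ⟨p, List.mem_append_left _ hp, by rw [← hp', h4]⟩

private theorem ec_end {f α : Perm D} {ℓ : D → ℤ} (hf : TF f) {τ : Tr} {y : D} {rs : List D}
    {lv : List (D × Bool)} (h : Emb f α ℓ τ y rs lv) : ∃ p ∈ lv, ℓ (f y) = ℓ (f p.1) := by
  induction h with
  | u y h => exact ⟨(y, true), List.mem_singleton.2 rfl, rfl⟩
  | d y h => exact ⟨(y, false), List.mem_singleton.2 rfl, rfl⟩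
  | nd a b y b0 ra rb la lb h1 h2 h3 h4 hw ha hb iha ihb =>
    obtain ⟨p, hp, hp'⟩ := ihb
    rw [hf.three] at hp'
    exact ⟨p, List.mem_append_right _ hp, by rw [← hp', h3]⟩

private theorem ec_root {f α : Perm D} {ℓ : D → ℤ} {τ : Tr} {y : D} {rs : List D}
    {lv : List (D × Bool)} (h : Emb f α ℓ τ y rs lv) (hne : rs ≠ []) :
    α y ∈ tri f rs ∧ α (α y) = y := by
  cases h with
  | u y h => exact absurd rfl hne
  | d y h => exact absurd rfl hne
  | nd a b y b0 ra rb la lb h1 h2 h3 h4 hw ha hb =>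
    rw [h1, h2]
    exact ⟨(ec_tri f b0 ra rb b0).2 (Or.inl rfl), rfl⟩

theorem emb_tri {f α : Perm D} {ℓ : D → ℤ} (hf : TF f) {τ : Tr} {y : D} {rs : List D}
    {lv : List (D × Bool)} (h : Emb f α ℓ τ y rs lv) :
    ∀ d ∈ tri f rs, ∃ p ∈ lv, ℓ d = ℓ p.1 ∨ ℓ d = ℓ (f p.1) := by
  induction h with
  | u y h => exact fun d hd => absurd hd List.not_mem_nil
  | d y h => exact fun d hd => absurd hd List.not_mem_nil
  | nd a b y b0 ra rb la lb h1 h2 h3 h4 hw ha hb iha ihb =>
    intro d hd
    rw [ec_tri] at hd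
    rcases hd with hd | hd | hd | hd | hd
    · obtain ⟨p, hp, hp'⟩ := ec_end hf hb
      rw [hf.three] at hp'
      exact ⟨p, List.mem_append_right _ hp, Or.inr (by rw [hd, hp'])⟩
    · obtain ⟨p, hp, hp'⟩ := ec_start ha
      exact ⟨p, List.mem_append_left _ hp, Or.inl (by rw [hd, hp'])⟩
    · obtain ⟨p, hp, hp'⟩ := ec_start hb
      exact ⟨p, List.mem_append_right _ hp, Or.inl (by rw [hd, hp'])⟩
    · obtain ⟨p, hp, hp'⟩ := iha d hd
      exact ⟨p, List.mem_append_left _ hp, hp'⟩
    · obtain ⟨p, hp, hp'⟩ := ihb d hd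
      exact ⟨p, List.mem_append_right _ hp, hp'⟩

theorem emb_lip {f α : Perm D} {ℓ : D → ℤ} (hf : TF f) {τ : Tr} {y : D} {rs : List D}
    {lv : List (D × Bool)} (h : Emb f α ℓ τ y rs lv) :
    ∀ d ∈ tri f rs, ℓ (f d) ≤ ℓ d + 1 ∧ ℓ d ≤ ℓ (f d) + 1 := by
  induction h with
  | u y h => exact fun d hd => absurd hd List.not_mem_nil
  | d y h => exact fun d hd => absurd hd List.not_mem_nil
  | nd a b y b0 ra rb la lb h1 h2 h3 h4 hw ha hb iha ihb =>
    intro d hd
    rw [ec_tri] at hd
    have w1 := emb_wt hf ha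
    have w2 := emb_wt hf hb
    have o1 := (emb_ok ha).2
    have o2 := (emb_ok hb).2
    rw [hf.three] at w2
    rcases hd with hd | hd | hd | hd | hd
    · subst hd
      constructor <;> omega
    · subst hd
      constructor <;> omega
    · subst hd
      rw [hf.three]
      constructor <;> omega
    · exact iha d hd
    · exact ihb d hd

/-- the attaching darts and the roots: consistency of the labels -/
theorem emb_ver {f α : Perm D} {ℓ : D → ℤ} {τ : Tr} {y : D} {rs : List D}
    {lv : List (D × Bool)} (h : Emb f α ℓ τ y rs lv) :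
    ∀ b ∈ rs, α (α b) = b ∧ ℓ (f (α b)) = ℓ b ∧ ℓ (f b) = ℓ (α b) := by
  induction h with
  | u y h => exact fun d hd => absurd hd List.not_mem_nil
  | d y h => exact fun d hd => absurd hd List.not_mem_nil
  | nd a b y b0 ra rb la lb h1 h2 h3 h4 hw ha hb iha ihb =>
    intro d hd
    rw [List.mem_cons, List.mem_append] at hd
    rcases hd with hd | hd | hd
    · subst hd
      rw [h2, h1]
      exact ⟨rfl, h3.symm, h4⟩
    · exact iha d hd
    · exact ihb d hd

theorem emb_congr {f α α' : Perm D} {ℓ ℓ' : D → ℤ} (hf : TF f) {τ : Tr} {y : D} {rs : List D}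
    {lv : List (D × Bool)} (h : Emb f α ℓ τ y rs lv)
    (h1 : ∀ d ∈ y :: tri f rs, ℓ' d = ℓ d) (h2 : ℓ' (f y) = ℓ (f y))
    (h3 : ∀ b ∈ rs, α' b = α b ∧ α' (α b) = b) : Emb f α' ℓ' τ y rs lv := by
  induction h with
  | u y h =>
    refine Emb.u y ?_
    rw [h2, h1 y List.mem_cons_self, h]
  | d y h =>
    refine Emb.d y ?_
    rw [h2, h1 y List.mem_cons_self, h]
  | nd a b y b0 ra rb la lb e1 e2 e3 e4 hw ha hb iha ihb =>
    have hb0 := h3 b0 List.mem_cons_self
    have hm : ∀ d, d = b0 ∨ d = f b0 ∨ d = f (f b0) ∨ d ∈ tri f ra ∨ d ∈ tri f rb →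
        ℓ' d = ℓ d := fun d hd => h1 d (List.mem_cons_of_mem _ ((ec_tri f b0 ra rb d).2 hd))
    refine Emb.nd a b y b0 ra rb la lb ?_ ?_ ?_ ?_ hw (iha ?_ ?_ ?_) (ihb ?_ ?_ ?_)
    · rw [← e2, hb0.2]
    · rw [hb0.1, e2]
    · rw [hm b0 (Or.inl rfl), h2, e3]
    · rw [hm (f b0) (Or.inr (Or.inl rfl)), h1 y List.mem_cons_self, e4]
    · intro d hd
      rcases List.mem_cons.1 hd with hd | hd
      · exact hm d (Or.inr (Or.inl hd))
      · exact hm d (Or.inr (Or.inr (Or.inr (Or.inl hd))))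
    · exact hm _ (Or.inr (Or.inr (Or.inl rfl)))
    · intro c hc
      exact h3 c (List.mem_cons_of_mem _ (List.mem_append_left _ hc))
    · intro d hd
      rcases List.mem_cons.1 hd with hd | hd
      · exact hm d (Or.inr (Or.inr (Or.inl hd)))
      · exact hm d (Or.inr (Or.inr (Or.inr (Or.inr hd))))
    · rw [hf.three]
      exact hm _ (Or.inl rfl)
    · intro c hc
      exact h3 c (List.mem_cons_of_mem _ (List.mem_append_right _ hc))

theorem emb_conn {f α : Perm D} {ℓ : D → ℤ} (hf : TF f) {τ : Tr} {y : D} {rs : List D}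
    {lv : List (D × Bool)} (h : Emb f α ℓ τ y rs lv) (Q : D → Prop)
    (h1 : ∀ d ∈ tri f rs, Q d → Q (f d))
    (h2 : ∀ d ∈ tri f rs, Q d → α d ∈ tri f rs → Q (α d)) (h3 : ∃ d ∈ tri f rs, Q d) :
    ∀ d ∈ tri f rs, Q d := by
  induction h with
  | u y h => exact fun d hd => absurd hd List.not_mem_nil
  | d y h => exact fun d hd => absurd hd List.not_mem_nil
  | nd a b y b0 ra rb la lb e1 e2 e3 e4 hw ha hb iha ihb =>
    have hm : ∀ d, d = b0 ∨ d = f b0 ∨ d = f (f b0) ∨ d ∈ tri f ra ∨ d ∈ tri f rb →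
        d ∈ tri f (b0 :: (ra ++ rb)) := fun d hd => (ec_tri f b0 ra rb d).2 hd
    have m0 := hm b0 (Or.inl rfl)
    have m1 := hm (f b0) (Or.inr (Or.inl rfl))
    have m2 := hm (f (f b0)) (Or.inr (Or.inr (Or.inl rfl)))
    have mra : ∀ d ∈ tri f ra, d ∈ tri f (b0 :: (ra ++ rb)) := fun d hd =>
      hm d (Or.inr (Or.inr (Or.inr (Or.inl hd))))
    have mrb : ∀ d ∈ tri f rb, d ∈ tri f (b0 :: (ra ++ rb)) := fun d hd =>
      hm d (Or.inr (Or.inr (Or.inr (Or.inr hd))))
    have iha' : (∃ d ∈ tri f ra, Q d) → ∀ d ∈ tri f ra, Q d := fun hex =>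
      iha (fun d hd => h1 d (mra d hd)) (fun d hd hQ hα => h2 d (mra d hd) hQ (mra _ hα)) hex
    have ihb' : (∃ d ∈ tri f rb, Q d) → ∀ d ∈ tri f rb, Q d := fun hex =>
      ihb (fun d hd => h1 d (mrb d hd)) (fun d hd hQ hα => h2 d (mrb d hd) hQ (mrb _ hα)) hex
    have hne : ∀ (l : List D) (d : D), d ∈ tri f l → l ≠ [] := by
      rintro l d hd rfl
      exact absurd hd List.not_mem_nil
    have c0 : Q b0 → Q (f b0) := h1 _ m0
    have c1 : Q (f b0) → Q (f (f b0)) := h1 _ m1
    have c2 : Q (f (f b0)) → Q b0 := fun h => by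
      have h5 := h1 _ m2 h
      rwa [hf.three] at h5
    have hQ0 : Q b0 := by
      obtain ⟨d, hd, hQd⟩ := h3
      rw [ec_tri] at hd
      rcases hd with hd | hd | hd | hd | hd
      · rwa [hd] at hQd
      · rw [hd] at hQd
        exact c2 (c1 hQd)
      · rw [hd] at hQd
        exact c2 hQd
      · obtain ⟨r1, r2⟩ := ec_root ha (hne _ _ hd)
        have h5 := iha' ⟨d, hd, hQd⟩ _ r1
        have h6 := h2 _ (mra _ r1) h5 (by rw [r2]; exact m1)
        rw [r2] at h6
        exact c2 (c1 h6)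
      · obtain ⟨r1, r2⟩ := ec_root hb (hne _ _ hd)
        have h5 := ihb' ⟨d, hd, hQd⟩ _ r1
        have h6 := h2 _ (mrb _ r1) h5 (by rw [r2]; exact m2)
        rw [r2] at h6
        exact c2 h6
    have hQ1 := c0 hQ0
    have hQ2 := c1 hQ1
    intro d hd
    rw [ec_tri] at hd
    rcases hd with hd | hd | hd | hd | hd
    · rwa [hd]
    · rwa [hd]
    · rwa [hd]
    · obtain ⟨r1, r2⟩ := ec_root ha (hne _ _ hd)
      exact iha' ⟨_, r1, h2 _ m1 hQ1 (mra _ r1)⟩ d hd
    · obtain ⟨r1, r2⟩ := ec_root hb (hne _ _ hd)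
      exact ihb' ⟨_, r1, h2 _ m2 hQ2 (mrb _ r1)⟩ d hd

end HG39
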