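import Pool.Agent.H39.HG.Defs
import Pool.Agent.H39.HG.GrPerm
import Pool.Agent.H39.HG.EmbBasic
import Pool.Agent.H39.HG.EmbConn
import Pool.Agent.H39.HG.ScanLev

/-!
[H39 HG SLCBASIC]  (MP_bcc40c_pr)  First facts on slices (`Slc`, Defs.lean).

Notation: `P = tri f (e :: bs)`, `LV = lv ++ [(f (f e), true)]`.  `emb` hangs the tree `nd d T` (weight -1)
on `f e`: emb_wt gives `ℓ (f (f e)) = ℓ (f e) - 1 = r - 1`, so with `ℓ e = r`: LV is read from level
`ℓ (f e) = r` to `ℓ (f (f (f e))) = ℓ e = r` (lvs_append, emb_lvs).  `nd d T`: its height is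
`max 1 (T.ht + 1) = r`, so `low r lv = 0` (emb_low) and `low r LV = 0`.
slc_len: `bs.length = T.sz + 1` (emb_len).  From scan_lev with empty stack, `s = s' = r`:
`As.length = r - 0 = r`, `Bs.length = r`, DnOK, StOK.
slc_heads: the first leaf of `nd d T` is the down step `f b1`, `b1 = α (f e)` (root of the node, its left
subtree is the leaf `d` on `f b1`), read with empty stack: it is the head of `As`.  scan_snoc: the last
leaf `f (f e)` is the head of `Bs`.
slc_perm: `(LV.map fst) ++ (roots bs) ++ (bs.map α)` is a permutation of `f e :: (tri f bs)` plus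
`f (f e)` (emb_perm); with scan_perm (`ent pr ++ As ++ Bs ~ LV.map fst`) this gives:
`(e :: (ent pr ++ As ++ Bs ++ bs ++ bs.map α))` is a permutation of `tri f (e :: bs)`.
slc_closed: so for `d ∈ P`: `d = e`, or `d ∈ As`, or `d ∈ Bs`, or `d` is an entry of a pair of `pr` (then
`α d` is the other entry), or `d ∈ bs` (`α d ∈ bs.map α ⊆ P`), or `d = α b`, `b ∈ bs` (`α d = b`, emb_ver).
slc_ver: in the last three cases `ℓ (f d) = ℓ (α d)`: scan_lev for the pairs, emb_ver for the others.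
slc_lip: triangle of `e`: labels of `e, f e, f (f e)`: `r, r, r - 1`; the others: emb_lip.
slc_nn: labels are `≥ 0` on `P`: emb_tri and low_mem with `low r lv = 0`.
slc_conn: emb_conn for `f e`, and the triangle of `e` is connected to the tree through `f e <-> head of bs`.
-/

set_option autoImplicit false

namespace HG39

open Equiv

variable {D : Type} [Fintype D] [DecidableEq D]

omit [Fintype D] [DecidableEq D] in
theorem slcb_inv {f α : Perm D} {ℓ : D → ℤ} {T : Tr} {y : D} {rs : List D}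
    {lv : List (D × Bool)} (h : Emb f α ℓ (.nd .d T) y rs lv) :
    ∃ b0 rs' lv', rs = b0 :: rs' ∧ lv = (f b0, false) :: lv' ∧ α y = b0 ∧ α b0 = y := by
  cases h with
  | nd a b y b0 ra rb la lb h1 h2 h3 h4 hw ha hb =>
    cases ha with
    | d y h => exact ⟨b0, _, _, rfl, rfl, h1, h2⟩

theorem slcb_fff {f α : Perm D} {ℓ : D → ℤ} (hf : TF f) {r : ℕ} {e : D} {T : Tr} {bs : List D}
    {lv : List (D × Bool)} {pr : List (D × D)} {As Bs : List D}
    (h : Slc f α ℓ r e T bs lv pr As Bs) : ℓ (f (f e)) = r - 1 := by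
  have h1 := emb_wt hf h.emb
  rw [h1, h.lfe]
  show (r : ℤ) + (Tr.d.wt + T.wt) = r - 1
  rw [h.wtT]
  show (r : ℤ) + (-1 + 0) = r - 1
  ring

theorem slcb_low {f α : Perm D} {ℓ : D → ℤ} (hf : TF f) {r : ℕ} {e : D} {T : Tr} {bs : List D}
    {lv : List (D × Bool)} {pr : List (D × D)} {As Bs : List D}
    (h : Slc f α ℓ r e T bs lv pr As Bs) :
    Lvs f ℓ r lv (r - 1) ∧ Lvs f ℓ r (lv ++ [(f (f e), true)]) r ∧ low r lv = 0 ∧
      low r (lv ++ [(f (f e), true)]) = 0 := by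
  have hr := h.rp
  have h1 := emb_lvs hf h.emb
  rw [h.lfe, slcb_fff hf h] at h1
  have h2 : Lvs f ℓ ((r : ℤ) - 1) [(f (f e), true)] r := by
    refine ⟨slcb_fff hf h, ?_, ?_⟩
    · show ℓ (f (f (f e))) = _
      rw [hf.three, h.le]
      simp
    · show (r : ℤ) - 1 + _ = r
      simp
  have h3 := emb_low hf h.emb
  rw [h.lfe] at h3
  have h4 : (Tr.nd .d T).ht = r := by
    show max (1 : ℤ) (T.ht - (-1)) = r
    rw [h.htT]
    rw [max_eq_right (by omega)]
    ring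
  rw [h4, sub_self] at h3
  refine ⟨h1, lvs_append f ℓ _ _ _ _ _ h1 h2, h3, ?_⟩
  rw [low_append f ℓ _ _ _ _ h1, h3]
  apply min_eq_left
  show (0 : ℤ) ≤ min ((r : ℤ) - 1) ((r : ℤ) - 1 + (if true = true then 1 else -1))
  rw [if_pos rfl]
  apply le_min <;> omega

theorem slcb_scan {f α : Perm D} {ℓ : D → ℤ} (hf : TF f) {r : ℕ} {e : D} {T : Tr} {bs : List D}
    {lv : List (D × Bool)} {pr : List (D × D)} {As Bs : List D}
    (h : Slc f α ℓ r e T bs lv pr As Bs) :
    (∀ p ∈ pr, ℓ p.2 = ℓ (f p.1) ∧ ℓ (f p.2) = ℓ p.1) ∧ DnOK f ℓ r As ∧ StOK f ℓ r Bs ∧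
      As.length = r ∧ Bs.length = r := by
  obtain ⟨-, h2, -, h4⟩ := slcb_low hf h
  obtain ⟨a1, a2, a3, a4, a5⟩ := scan_lev f ℓ _ [] _ _ h2 trivial
  rw [h.sc] at a1 a2 a3 a4 a5
  rw [h4] at a5
  simp only [List.length_nil, Nat.cast_zero, sub_zero] at a2 a4 a5
  have hr := h.rp
  have a6 : (As.length : ℤ) = r := by
    rw [a5]
    exact max_eq_right (by omega)
  refine ⟨a1, a2, a3, by exact_mod_cast a6, ?_⟩
  have a7 : (Bs.length : ℤ) = r := by omega
  exact_mod_cast a7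

theorem slc_len {f α : Perm D} {ℓ : D → ℤ} (hf : TF f) {r : ℕ} {e : D} {T : Tr} {bs : List D}
    {lv : List (D × Bool)} {pr : List (D × D)} {As Bs : List D}
    (h : Slc f α ℓ r e T bs lv pr As Bs) :
    bs.length = T.sz + 1 ∧ As.length = r ∧ Bs.length = r := by
  obtain ⟨-, -, -, h1, h2⟩ := slcb_scan hf h
  refine ⟨?_, h1, h2⟩
  rw [(emb_len h.emb).1]
  show 0 + T.sz + 1 = T.sz + 1
  rw [zero_add]

theorem slc_lev {f α : Perm D} {ℓ : D → ℤ} (hf : TF f) {r : ℕ} {e : D} {T : Tr} {bs : List D}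
    {lv : List (D × Bool)} {pr : List (D × D)} {As Bs : List D}
    (h : Slc f α ℓ r e T bs lv pr As Bs) :
    DnOK f ℓ r As ∧ StOK f ℓ r Bs ∧ Lvs f ℓ r (lv ++ [(f (f e), true)]) r ∧
    (∀ p ∈ pr, ℓ p.2 = ℓ (f p.1) ∧ ℓ (f p.2) = ℓ p.1) ∧ ℓ (f (f e)) = r - 1 := by
  obtain ⟨h1, h2, h3, -, -⟩ := slcb_scan hf h
  exact ⟨h2, h3, (slcb_low hf h).2.1, h1, slcb_fff hf h⟩

theorem slc_heads {f α : Perm D} {ℓ : D → ℤ} (hf : TF f) {r : ℕ} {e : D} {T : Tr} {bs : List D}
    {lv : List (D × Bool)} {pr : List (D × D)} {As Bs : List D}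
    (h : Slc f α ℓ r e T bs lv pr As Bs) :
    (∃ As', As = f (α (f e)) :: As') ∧ (∃ Bs', Bs = f (f e) :: Bs') := by
  obtain ⟨b0, rs', lv', h1, h2, h3, h4⟩ := slcb_inv h.emb
  have hsc := h.sc
  constructor
  · rw [h2, List.cons_append] at hsc
    have h5 : scan ((f b0, false) :: (lv' ++ [(f (f e), true)])) [] =
        ((scan (lv' ++ [(f (f e), true)]) []).1, f b0 :: (scan (lv' ++ [(f (f e), true)]) []).2.1,
          (scan (lv' ++ [(f (f e), true)]) []).2.2) := rfl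
    rw [h5] at hsc
    rw [Prod.mk.injEq, Prod.mk.injEq] at hsc
    rw [h3]
    exact ⟨_, hsc.2.1.symm⟩
  · rw [scan_snoc, Prod.mk.injEq, Prod.mk.injEq] at hsc
    exact ⟨_, hsc.2.2.symm⟩

omit [Fintype D] [DecidableEq D] in
theorem slcb_tri (f : Perm D) (e : D) (bs : List D) :
    tri f (e :: bs) = e :: f e :: f (f e) :: tri f bs := rfl

theorem slc_perm {f α : Perm D} {ℓ : D → ℤ} (hf : TF f) {r : ℕ} {e : D} {T : Tr} {bs : List D}
    {lv : List (D × Bool)} {pr : List (D × D)} {As Bs : List D}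
    (h : Slc f α ℓ r e T bs lv pr As Bs) :
    (e :: (ent pr ++ As ++ Bs ++ bs ++ bs.map α)).Perm (tri f (e :: bs)) := by
  have h1 := scan_perm (lv ++ [(f (f e), true)]) []
  rw [h.sc] at h1
  have h2 := emb_perm h.emb
  rw [List.perm_iff_count] at h1 h2 ⊢
  intro x
  have h3 := h1 x
  have h4 := h2 x
  rw [slcb_tri]
  simp only [List.count_append, List.count_cons, List.count_nil, List.map_append, List.map_cons,
    List.map_nil, List.nil_append] at h3 h4 ⊢
  omega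

theorem slc_closed {f α : Perm D} {ℓ : D → ℤ} (hf : TF f) {r : ℕ} {e : D} {T : Tr}
    {bs : List D} {lv : List (D × Bool)} {pr : List (D × D)} {As Bs : List D}
    (h : Slc f α ℓ r e T bs lv pr As Bs) (d : D) (hd : d ∈ tri f (e :: bs)) :
    d = e ∨ d ∈ As ∨ d ∈ Bs ∨ (α d ∈ tri f (e :: bs) ∧ α (α d) = d ∧ ℓ (f d) = ℓ (α d)) := by
  have hp := slc_perm hf h
  have hmem : ∀ x, x ∈ tri f (e :: bs) ↔ x ∈ e :: (ent pr ++ As ++ Bs ++ bs ++ bs.map α) :=
    fun x => hp.mem_iff.symm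
  have hlev := (slcb_scan hf h).1
  rw [hmem] at hd
  simp only [List.mem_cons, List.mem_append] at hd
  rcases hd with hd | ((((hd | hd) | hd) | hd) | hd)
  · exact Or.inl hd
  · right; right; right
    have hd' := hd
    unfold ent at hd
    rw [List.mem_flatMap] at hd
    obtain ⟨p, hp1, hp2⟩ := hd
    have he1 : p.1 ∈ ent pr := by
      unfold ent
      rw [List.mem_flatMap]
      exact ⟨p, hp1, by simp⟩
    have he2 : p.2 ∈ ent pr := by
      unfold ent
      rw [List.mem_flatMap]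
      exact ⟨p, hp1, by simp⟩
    obtain ⟨m1, m2⟩ := h.mt p hp1
    obtain ⟨l1, l2⟩ := hlev p hp1
    simp only [List.mem_cons, List.not_mem_nil, or_false] at hp2
    rcases hp2 with rfl | rfl
    · refine ⟨?_, ?_, ?_⟩
      · rw [m1, hmem]
        simp only [List.mem_cons, List.mem_append]
        exact Or.inr (Or.inl (Or.inl (Or.inl (Or.inl he2))))
      · rw [m1, m2]
      · rw [m1, l1]
    · refine ⟨?_, ?_, ?_⟩
      · rw [m2, hmem]
        simp only [List.mem_cons, List.mem_append]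
        exact Or.inr (Or.inl (Or.inl (Or.inl (Or.inl he1))))
      · rw [m2, m1]
      · rw [m2, l2]
  · exact Or.inr (Or.inl hd)
  · exact Or.inr (Or.inr (Or.inl hd))
  · right; right; right
    obtain ⟨v1, v2, v3⟩ := emb_ver h.emb d hd
    refine ⟨?_, v1, v3⟩
    rw [hmem]
    simp only [List.mem_cons, List.mem_append]
    exact Or.inr (Or.inr (List.mem_map_of_mem hd))
  · right; right; right
    rw [List.mem_map] at hd
    obtain ⟨b, hb, rfl⟩ := hd
    obtain ⟨v1, v2, v3⟩ := emb_ver h.emb b hb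
    refine ⟨?_, ?_, ?_⟩
    · rw [v1, hmem]
      simp only [List.mem_cons, List.mem_append]
      exact Or.inr (Or.inl (Or.inr hb))
    · rw [v1]
    · rw [v1, v2]

theorem slc_lip {f α : Perm D} {ℓ : D → ℤ} (hf : TF f) {r : ℕ} {e : D} {T : Tr} {bs : List D}
    {lv : List (D × Bool)} {pr : List (D × D)} {As Bs : List D}
    (h : Slc f α ℓ r e T bs lv pr As Bs) (d : D) (hd : d ∈ tri f (e :: bs)) :
    ℓ (f d) ≤ ℓ d + 1 ∧ ℓ d ≤ ℓ (f d) + 1 ∧ 0 ≤ ℓ d := by
  have hr := h.rp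
  have h1 := h.le
  have h2 := h.lfe
  have h3 := slcb_fff hf h
  rw [slcb_tri] at hd
  simp only [List.mem_cons] at hd
  rcases hd with rfl | rfl | rfl | hd
  · omega
  · omega
  · rw [hf.three]
    omega
  · obtain ⟨a1, a2⟩ := emb_lip hf h.emb d hd
    refine ⟨a1, a2, ?_⟩
    obtain ⟨b1, -, b3, -⟩ := slcb_low hf h
    obtain ⟨p, hp, hp2⟩ := emb_tri hf h.emb d hd
    obtain ⟨c1, c2⟩ := low_mem f ℓ lv _ _ b1 p hp
    rw [b3] at c1 c2
    rcases hp2 with hp2 | hp2
    · rw [hp2]; exact c1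
    · rw [hp2]; exact c2

theorem slc_conn {f α : Perm D} {ℓ : D → ℤ} (hf : TF f) {r : ℕ} {e : D} {T : Tr} {bs : List D}
    {lv : List (D × Bool)} {pr : List (D × D)} {As Bs : List D}
    (h : Slc f α ℓ r e T bs lv pr As Bs) (Q : D → Prop)
    (h1 : ∀ d ∈ tri f (e :: bs), Q d → Q (f d))
    (h2 : ∀ d ∈ tri f (e :: bs), Q d → α d ∈ tri f (e :: bs) → Q (α d))
    (h3 : ∃ d ∈ tri f (e :: bs), Q d) : ∀ d ∈ tri f (e :: bs), Q d := by
  obtain ⟨b0, rs', lv', e1, e2, e3, e4⟩ := slcb_inv h.emb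
  have hsub : ∀ d ∈ tri f bs, d ∈ tri f (e :: bs) := by
    intro d hd
    rw [slcb_tri]
    simp only [List.mem_cons]
    exact Or.inr (Or.inr (Or.inr hd))
  have hm0 : e ∈ tri f (e :: bs) := by rw [slcb_tri]; simp
  have hm1 : f e ∈ tri f (e :: bs) := by rw [slcb_tri]; simp
  have hm2 : f (f e) ∈ tri f (e :: bs) := by rw [slcb_tri]; simp
  have hb0 : b0 ∈ tri f bs := by rw [e1, slcb_tri]; simp
  have hE := emb_conn hf h.emb Q (fun d hd => h1 d (hsub d hd))
    (fun d hd hq ha => h2 d (hsub d hd) hq (hsub _ ha))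
  have key1 : Q (f e) → Q e ∧ Q (f e) ∧ Q (f (f e)) := by
    intro hq
    have q2 := h1 _ hm1 hq
    have q3 := h1 _ hm2 q2
    rw [hf.three] at q3
    exact ⟨q3, hq, q2⟩
  have key2 : Q (f e) → ∀ d ∈ tri f bs, Q d := by
    intro hq
    have q1 := h2 _ hm1 hq (by rw [e3]; exact hsub _ hb0)
    rw [e3] at q1
    exact hE ⟨b0, hb0, q1⟩
  have key3 : Q (f e) → ∀ d ∈ tri f (e :: bs), Q d := by
    intro hq d hd
    obtain ⟨q1, q2, q3⟩ := key1 hq
    rw [slcb_tri] at hd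
    simp only [List.mem_cons] at hd
    rcases hd with rfl | rfl | rfl | hd
    · exact q1
    · exact q2
    · exact q3
    · exact key2 hq d hd
  apply key3
  obtain ⟨d, hd, hq⟩ := h3
  rw [slcb_tri] at hd
  simp only [List.mem_cons] at hd
  rcases hd with rfl | rfl | rfl | hd
  · exact h1 _ hm0 hq
  · exact hq
  · have q1 := h1 _ hm2 hq
    rw [hf.three] at q1
    exact h1 _ hm0 q1
  · have q1 := hE ⟨d, hd, hq⟩ b0 hb0
    have q2 := h2 _ (hsub _ hb0) q1 (by rw [e4]; exact hm1)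
    rw [e4] at q2
    exact q2

end HG39
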