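import Pool.Agent.H39.HG.Defs
import Pool.Agent.H39.HG.GrPerm
import Pool.Agent.H39.HG.EmbBasic
import Pool.Agent.H39.HG.ScanLev
import Pool.Agent.H39.HG.ScanBal
import Pool.Agent.H39.HG.Rot
import Pool.Agent.H39.HG.SlcBasic
import Pool.Agent.H39.HG.LabBasic

/-!
[H39 HG ROTSLC]  (MP_bcc40c_pr)  Rotation in a slice (`P = tri f (e :: bs)`, `LV = lv ++ [(f (f e), true)]`,
`ρ = α * f⁻¹`).

slc_next: consecutive leaves `p, q` of LV: path from `q.1` to `α p.1` through `P`.  If both are in `lv`: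
rot_next.  Otherwise `q = (f (f e), true)`, `p` the last leaf of `lv`: `ρ (f (f e)) = α (f e)` (one step;
`z = f (f e)` is not descending: `ℓ e = r = ℓ (f (f e)) + 1`), and then rot_end for the tree on `f e`
(`bs ≠ []`): path from `α (f e)` to `α p.1`; levels: `ℓ (f (f e))`.
slc_bal: if `LV = pre ++ p :: (Y ++ q :: post)` with `Y` balanced: path from `q.1` to `α p.1` through `P`, with
the darts `z` passed satisfying `ℓ z = ℓ q.1` and: `z` descending → some leaf in `Y ++ q :: post` ends at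
level `ℓ z - 1`.  Induction on `Bal α Y` (generalizing `q post`): `Y = []`: slc_next.
`Y = l1 ++ (x, true) :: (l2 ++ [(y, false)])` with `α y = x`: slc_next for the consecutive leaves
`(y, false), q`: path `q.1 → α y = x`; then the induction hypothesis for `l1` (`q := (x, true)`,
`post := l2 ++ (y, false) :: q :: post`): path `x → α p.1`.  Levels: `ℓ x = ℓ q.1`, because the label is
constant along the path (the last point `α y`: `ℓ (α y) = ℓ x`; `Lvs`: `ℓ q.1 = ℓ (f y)`, and the pair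
`(x, y)` has `ℓ (f y) = ℓ x`: balanced words begin and end at the same level and the levels of `x`
and `y`... use the induction `Bal` on levels: for `Lvs` read from `s` to `t` a balanced word has `s = t`).
slc_right: consecutive right boundary darts `B, B'` (`Bs = p ++ B :: B' :: q`): path from `B` to `α B'`, all
darts passed are in `P` and not descending.  ScanBal (scan_dec with `mt`, dec_bb): LV = pre ++
(B', true) :: (Y ++ (B, true) :: post), slc_bal.  The darts passed have level `ℓ B = ℓ (f B')`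
(levels: StOK), and all leaves in `Y ++ (B,true) :: post` end at a level `≥ ℓ (f B')` (dec_low below), so
none of the darts is descending.
slc_apex: last elements `As = p ++ [A]`, `Bs = q ++ [B]`: path from `B` to `α A` through `P`.
dec_low: if `Dec α lv As (p ++ B :: B' :: q)`, `Lvs f ℓ s lv t`: all leaves after `B'` end at a level
`≥ ℓ (f B')`.  (After `B'` come balanced words and up steps only: induction on `Dec`.)
-/

set_option autoImplicit false

namespace HG39

open Equiv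

variable {D : Type} [Fintype D] [DecidableEq D]

theorem rs_mono {ρ : Perm D} {S S' : D → Prop} {a b : D} (h : Pth ρ S a b)
    (hS : ∀ z, S z → S' z) : Pth ρ S' a b := by
  obtain ⟨k, hk, h1⟩ := h
  exact ⟨k, hk, fun j hj => hS _ (h1 j hj)⟩

theorem rs_trans {ρ : Perm D} {S : D → Prop} {a b c : D} (h : Pth ρ S a b) (h' : Pth ρ S b c) :
    Pth ρ S a c := by
  obtain ⟨k, hk, h1⟩ := h
  obtain ⟨m, hm, h2⟩ := h'
  refine ⟨m + k, ?_, fun j hj => ?_⟩
  · rw [pow_add, Perm.mul_apply, hk, hm]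
  · rcases lt_or_ge j k with h3 | h3
    · exact h1 j h3
    · have h4 := h2 (j - k) (by omega)
      rw [← hk, ← Perm.mul_apply, ← pow_add, Nat.sub_add_cancel h3] at h4
      exact h4

theorem rs_step {ρ : Perm D} {S : D → Prop} {a c : D} (h : S a) (h' : Pth ρ S (ρ a) c) :
    Pth ρ S a c := by
  refine rs_trans ⟨1, by rw [pow_one], fun j hj => ?_⟩ h'
  have : j = 0 := by omega
  subst this
  exact h

theorem bal_lev {f α : Perm D} {ℓ : D → ℤ} {Y : List (D × Bool)} (h : Bal α Y) (s t : ℤ)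
    (hl : Lvs f ℓ s Y t) : s = t ∧ ∀ p ∈ Y, s ≤ ℓ (f p.1) := by
  induction h generalizing s t with
  | nil =>
    refine ⟨hl, fun p hp => ?_⟩
    simp at hp
  | cat l1 l2 x y hxy h1 h2 ih1 ih2 =>
    obtain ⟨u, hu1, hu2⟩ := lvs_split f ℓ _ _ _ _ hl
    obtain ⟨hx, hfx, hu3⟩ := hu2
    obtain ⟨v, hv1, hv2⟩ := lvs_split f ℓ _ _ _ _ hu3
    obtain ⟨hy, hfy, hv3⟩ := hv2
    simp only [if_true] at hfx hv1
    simp only [Lvs, Bool.false_eq_true, if_false] at hfy hv3
    obtain ⟨e1, a1⟩ := ih1 _ _ hu1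
    obtain ⟨e2, a2⟩ := ih2 _ _ hv1
    refine ⟨by omega, fun p hp => ?_⟩
    rw [List.mem_append, List.mem_cons, List.mem_append, List.mem_singleton] at hp
    rcases hp with hp | rfl | hp | rfl
    · exact a1 p hp
    · simp only
      omega
    · have := a2 p hp
      omega
    · simp only
      omega

theorem rs_snoc {l1 l2 : List (D × Bool)} {a b : D × Bool} (h : l1 ++ [a] = l2 ++ [b]) :
    l1 = l2 ∧ a = b := by
  have h1 := List.append_inj' h rfl
  exact ⟨h1.1, by simpa using h1.2⟩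

theorem rs_mem {f : Perm D} {e z : D} {bs : List D} (h : z ∈ tri f bs) : z ∈ tri f (e :: bs) := by
  rw [mem_tri] at h ⊢
  obtain ⟨b, hb, h⟩ := h
  exact ⟨b, List.mem_cons_of_mem _ hb, h⟩

theorem slc_next {f α : Perm D} {ℓ : D → ℤ} (hf : TF f) {r : ℕ} {e : D} {T : Tr} {bs : List D}
    {lv : List (D × Bool)} {pr : List (D × D)} {As Bs : List D}
    (h : Slc f α ℓ r e T bs lv pr As Bs) (p q : D × Bool) (l1 l2 : List (D × Bool))
    (hl : lv ++ [(f (f e), true)] = l1 ++ p :: q :: l2) :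
    Pth (α * f⁻¹) (fun z => z ∈ tri f (e :: bs) ∧ ℓ z = ℓ q.1 ∧
      (Desc f ℓ z → ∃ p' ∈ q :: l2, ℓ (f p'.1) = ℓ z - 1)) q.1 (α p.1) := by
  rcases List.eq_nil_or_concat' l2 with rfl | ⟨l2', x, rfl⟩
  · have hl' : lv ++ [(f (f e), true)] = (l1 ++ [p]) ++ [q] := by rw [hl]; simp
    obtain ⟨h1, h2⟩ := rs_snoc hl'
    subst h2
    have hlev := (slc_lev hf h).2.2.2.2
    have hne : bs ≠ [] := by
      intro h3
      have h4 := (emb_len h.emb).1
      rw [h3] at h4
      simp [Tr.sz] at h4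
    refine rs_step ⟨?_, rfl, ?_⟩ ?_
    · rw [mem_tri]
      exact ⟨e, List.mem_cons_self, Or.inr (Or.inr rfl)⟩
    · intro hd
      unfold Desc at hd
      simp only at hd
      rw [hf.three, h.le] at hd
      omega
    · have h3 : (α * f⁻¹) (f (f e)) = α (f e) := by
        rw [Perm.mul_apply, Perm.inv_def, Equiv.symm_apply_apply]
      simp only
      rw [h3]
      refine rs_mono (rot_end hf h.emb hne p l1 h1) fun z hz => ?_
      exact ⟨rs_mem hz.1, hz.2.1, fun hd => absurd hd hz.2.2⟩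
  · have hl' : lv ++ [(f (f e), true)] = (l1 ++ p :: q :: l2') ++ [x] := by rw [hl]; simp
    obtain ⟨h1, h2⟩ := rs_snoc hl'
    refine rs_mono (rot_next hf h.emb p q l1 l2' h1) fun z hz => ?_
    refine ⟨rs_mem hz.1, hz.2.1, fun hd => ?_⟩
    obtain ⟨p', hp', h3⟩ := hz.2.2 hd
    refine ⟨p', ?_, h3⟩
    rw [← List.cons_append]
    exact List.mem_append_left _ hp'

theorem slc_bal {f α : Perm D} {ℓ : D → ℤ} (hf : TF f) {r : ℕ} {e : D} {T : Tr} {bs : List D}
    {lv : List (D × Bool)} {pr : List (D × D)} {As Bs : List D}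
    (h : Slc f α ℓ r e T bs lv pr As Bs) (p q : D × Bool) (l1 Y l2 : List (D × Bool))
    (hY : Bal α Y) (hl : lv ++ [(f (f e), true)] = l1 ++ p :: (Y ++ q :: l2)) :
    Pth (α * f⁻¹) (fun z => z ∈ tri f (e :: bs) ∧ ℓ z = ℓ q.1 ∧
      (Desc f ℓ z → ∃ p' ∈ Y ++ q :: l2, ℓ (f p'.1) = ℓ z - 1)) q.1 (α p.1) := by
  induction hY generalizing q l2 with
  | nil => exact slc_next hf h p q l1 l2 hl
  | cat m1 m2 x y hxy h1 h2 ih1 ih2 =>
    have hlvs := (slc_lev hf h).2.2.1
    rw [hl] at hlvs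
    obtain ⟨u, _, hu⟩ := lvs_split f ℓ _ _ _ _ hlvs
    obtain ⟨_, _, hu2⟩ := hu
    have hbY : Bal α (m1 ++ (x, true) :: (m2 ++ [(y, false)])) := Bal.cat m1 m2 x y hxy h1 h2
    obtain ⟨v, hv1, hv2⟩ := lvs_split f ℓ _ _ _ _ hu2
    have hq : ℓ q.1 = v := hv2.1
    have e1 := (bal_lev hbY _ _ hv1).1
    obtain ⟨w, hw1, hw2⟩ := lvs_split f ℓ _ _ _ _ hv1
    have hx : ℓ x = w := hw2.1
    have e2 := (bal_lev h1 _ _ hw1).1
    have hxq : ℓ x = ℓ q.1 := by omega
    have p1 := slc_next hf h (y, false) q (l1 ++ p :: (m1 ++ (x, true) :: m2)) l2 (by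
      rw [hl]; simp)
    have p2 := ih1 (x, true) (m2 ++ (y, false) :: q :: l2) (by rw [hl]; simp)
    simp only at p1 p2
    rw [hxy] at p1
    refine rs_trans (rs_mono p1 fun z hz => ?_) (rs_mono p2 fun z hz => ?_)
    · refine ⟨hz.1, hz.2.1, fun hd => ?_⟩
      obtain ⟨p', hp', h3⟩ := hz.2.2 hd
      exact ⟨p', List.mem_append_right _ hp', h3⟩
    · refine ⟨hz.1, hz.2.1.trans hxq, fun hd => ?_⟩
      obtain ⟨p', hp', h3⟩ := hz.2.2 hd
      refine ⟨p', ?_, h3⟩
      have e3 : m1 ++ (x, true) :: (m2 ++ [(y, false)]) ++ q :: l2 =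
          m1 ++ (x, true) :: (m2 ++ (y, false) :: q :: l2) := by simp
      rw [e3]
      exact hp'

theorem slc_dec {f α : Perm D} {ℓ : D → ℤ} {r : ℕ} {e : D} {T : Tr} {bs : List D}
    {lv : List (D × Bool)} {pr : List (D × D)} {As Bs : List D}
    (h : Slc f α ℓ r e T bs lv pr As Bs) : Dec α (lv ++ [(f (f e), true)]) As Bs := by
  have h1 := scan_dec (α := α) (lv ++ [(f (f e), true)]) (fun p hp => by
    rw [h.sc] at hp
    exact (h.mt p hp).2)
  rw [h.sc] at h1
  exact h1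

theorem dec_tail {α : Perm D} {As q : List D} {B' : D} (p : List D) :
    ∀ {l : List (D × Bool)}, Dec α l As (p ++ B' :: q) →
    ∃ pre post, l = pre ++ (B', true) :: post ∧ Dec α post [] p := by
  induction p with
  | nil =>
    intro l h
    obtain ⟨l', X, hl, _, hX⟩ := dec_up_inv h
    exact ⟨l', X, hl, Dec.nil X hX⟩
  | cons B1 p ih =>
    intro l h
    obtain ⟨l', X, hl, h', hX⟩ := dec_up_inv h
    obtain ⟨pre, post, h1, h2⟩ := ih h'
    refine ⟨pre, post ++ (B1, true) :: X, ?_, Dec.up post X [] p B1 h2 hX⟩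
    rw [hl, h1]; simp

theorem dec_nil_inv {α : Perm D} {l : List (D × Bool)} {As Bs : List D} (h : Dec α l As Bs)
    (hA : As = []) (hB : Bs = []) : Bal α l := by
  cases h with
  | nil X hX => exact hX
  | dn l' X As' A' h hX => simp at hA
  | up l' X As' Bs' B h hX => simp at hB

theorem dec_head {α : Perm D} {B : D} (p : List D) : ∀ {l : List (D × Bool)},
    Dec α l [] (p ++ [B]) → ∃ Y post, l = Y ++ (B, true) :: post ∧ Bal α Y := by
  induction p with
  | nil =>
    intro l h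
    obtain ⟨l', X, hl, h', hX⟩ := dec_up_inv h
    exact ⟨l', X, hl, dec_nil_inv h' rfl rfl⟩
  | cons B1 p ih =>
    intro l h
    obtain ⟨l', X, hl, h', hX⟩ := dec_up_inv h
    obtain ⟨Y, post, h1, h2⟩ := ih h'
    refine ⟨Y, post ++ (B1, true) :: X, ?_, h2⟩
    rw [hl, h1]; simp

theorem dec_low {f α : Perm D} {ℓ : D → ℤ} {l : List (D × Bool)} {As p : List D}
    (h : Dec α l As p) : As = [] → ∀ s t : ℤ, Lvs f ℓ s l t → s ≤ t ∧ ∀ x ∈ l, s ≤ ℓ (f x.1) := by
  induction h with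
  | nil X hX =>
    intro _ s t hl
    obtain ⟨h1, h2⟩ := bal_lev hX s t hl
    exact ⟨h1.le, h2⟩
  | dn l X As A h hX ih => intro hA; simp at hA
  | up l X As Bs B h hX ih =>
    intro hA s t hl
    obtain ⟨u, hu1, hu2⟩ := lvs_split f ℓ _ _ _ _ hl
    obtain ⟨hB, hfB, hu3⟩ := hu2
    simp only [if_true] at hfB hu3
    obtain ⟨e1, a1⟩ := ih hA _ _ hu1
    obtain ⟨e2, a2⟩ := bal_lev hX _ _ hu3
    refine ⟨by omega, fun x hx => ?_⟩
    rw [List.mem_append, List.mem_cons] at hx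
    rcases hx with hx | rfl | hx
    · exact a1 x hx
    · simp only
      omega
    · have := a2 x hx
      omega

theorem slc_right {f α : Perm D} {ℓ : D → ℤ} (hf : TF f) {r : ℕ} {e : D} {T : Tr}
    {bs : List D} {lv : List (D × Bool)} {pr : List (D × D)} {As Bs : List D}
    (h : Slc f α ℓ r e T bs lv pr As Bs) (p q : List D) (B B' : D)
    (hB : Bs = p ++ B :: B' :: q) :
    Pth (α * f⁻¹) (fun z => z ∈ tri f (e :: bs) ∧ ¬ Desc f ℓ z) B (α B') := by
  have h1 := slc_dec h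
  have hB' : Bs = (p ++ [B]) ++ B' :: q := by rw [hB]; simp
  rw [hB'] at h1
  obtain ⟨pre, post, hl, h2⟩ := dec_tail (p ++ [B]) h1
  obtain ⟨Y, post', hp, hY⟩ := dec_head p h2
  have hl2 : lv ++ [(f (f e), true)] = pre ++ (B', true) :: (Y ++ (B, true) :: post') := by
    rw [hl, hp]
  have hlvs := (slc_lev hf h).2.2.1
  rw [hl] at hlvs
  obtain ⟨u, _, hu⟩ := lvs_split f ℓ _ _ _ _ hlvs
  obtain ⟨_, _, hu2⟩ := hu
  have a1 := (dec_low (f := f) (ℓ := ℓ) h2 rfl _ _ hu2).2
  have hu3 := hu2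
  rw [hp] at hu3
  obtain ⟨v, hv1, hv2⟩ := lvs_split f ℓ _ _ _ _ hu3
  have e1 := (bal_lev hY _ _ hv1).1
  have e2 : ℓ B = v := hv2.1
  refine rs_mono (slc_bal hf h (B', true) (B, true) pre Y post' hY hl2) fun z hz => ⟨hz.1, ?_⟩
  intro hd
  obtain ⟨p', hp', h3⟩ := hz.2.2 hd
  rw [← hp] at hp'
  have h4 := a1 p' hp'
  have h5 : ℓ z = ℓ B := hz.2.1
  omega

theorem slc_apex {f α : Perm D} {ℓ : D → ℤ} (hf : TF f) {r : ℕ} {e : D} {T : Tr} {bs : List D}
    {lv : List (D × Bool)} {pr : List (D × D)} {As Bs : List D}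
    (h : Slc f α ℓ r e T bs lv pr As Bs) (p q : List D) (A B : D)
    (hA : As = p ++ [A]) (hB : Bs = q ++ [B]) :
    Pth (α * f⁻¹) (fun z => z ∈ tri f (e :: bs)) B (α A) := by
  have h1 := slc_dec h
  rw [hA, hB] at h1
  obtain ⟨pre, Y, post, hl, hY⟩ := dec_ab h1
  exact rs_mono (slc_bal hf h (A, false) (B, true) pre Y post hY hl) fun z hz => hz.1

end HG39
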