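import Pool.Agent.H39.HG.Defs
import Pool.Agent.H39.HG.GrPerm
import Pool.Agent.H39.HG.EmbBasic
import Pool.Agent.H39.HG.ScanLev
import Pool.Agent.H39.HG.ScanBal
import Pool.Agent.H39.HG.Rot
import Pool.Agent.H39.HG.SlcBasic
import Pool.Agent.H39.HG.RotSlc
import Pool.Agent.H39.HG.LabBasic

/-!
[H39 HG ROTALL]  (MP_bcc40c_pr)  Every dart of a slice is in the same `ρ`-cycle (`ρ = α * f⁻¹`) as
 (i) a descending dart `z'` with ... in the slice or across the right boundary: precisely `z' = α p` for an up
     leaf `p`, or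
 (ii) `α A` for some `A ∈ As`, or
 (iii) `α e`, or `e`.

PROOF.  `P = tri f (e :: bs)`, `LV = lv ++ [(f (f e), true)]`.  First the darts of the tree (rot_all for
the tree on `f e`): `z` is equivalent to `α p.1` for a leaf `p ∈ lv` or to `f e`; and `ρ (f e) = α e`
(iii).  The darts of the triangle of `e`: `e` (iii), `f e` (iii), `f (f e)`: equivalent to `α p.1`
for the last leaf `p` of `lv` (slc_next).
Claim: for every leaf `p ∈ LV`, `α p.1` satisfies (i), (ii) or (iii).  Strong induction on the position of
`p` in LV.  If `p = (y, true)`: (i) [`z' = α y`].  If `p = (y, false)`: either `y ∈ As`: (ii); or `y` is the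
second entry of a pair `(x, y) ∈ pr` (scan_perm: leaves are the entries of `pr`, `As`, `Bs`; up leaves
are first entries or in `Bs`, down leaves are second entries or in `As` — scan_sign below), then
`α y = x`, an up leaf which stands before `y` in LV (scan_before below).  If `x` is the first leaf of LV
then rot_start: `x → f e → α e`, (iii).  Otherwise let `p'` be the leaf before `x`: slc_next: `x` is
equivalent to `α p'.1`, and `p'` stands before `y`: induction.
The label of a dart of case (i): `α y` with `y` an up leaf.  For the applications: if `α` has labels with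
`ℓ (f d) = ℓ (α d)` at `d = y` and at `d = α y`, then `ℓ (α y) = ℓ (f y) = ℓ y + 1` and `ℓ (f (α y)) = ℓ y`, so
`α y` is descending.
scan_sign, scan_before: induction on `lv` generalizing the stack, for `scan lv st`: a pair `(x,y)` has
`(y,false) ∈ lv` and `x ∈ st` or `(x,true)` stands before `(y,false)` in `lv`.
-/

set_option autoImplicit false

namespace HG39

open Equiv

variable {D : Type} [Fintype D] [DecidableEq D]

theorem scan_sign (lv : List (D × Bool)) (st : List D) :
    (∀ p ∈ (scan lv st).1, (p.2, false) ∈ lv ∧ (p.1 ∈ st ∨ (p.1, true) ∈ lv)) ∧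
    (∀ a ∈ (scan lv st).2.1, (a, false) ∈ lv) ∧
    (∀ b ∈ (scan lv st).2.2, b ∈ st ∨ (b, true) ∈ lv) := by
  induction lv generalizing st with
  | nil => simp [scan]
  | cons a lv ih =>
    obtain ⟨y, b⟩ := a
    cases b with
    | true =>
      obtain ⟨h1, h2, h3⟩ := ih (y :: st)
      refine ⟨fun p hp => ?_, fun p hp => ?_, fun p hp => ?_⟩
      · obtain ⟨h4, h5⟩ := h1 p hp
        refine ⟨List.mem_cons_of_mem _ h4, ?_⟩
        rcases h5 with h5 | h5
        · rcases List.mem_cons.1 h5 with h6 | h6
          · right; rw [h6]; exact List.mem_cons_self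
          · left; exact h6
        · right; exact List.mem_cons_of_mem _ h5
      · exact List.mem_cons_of_mem _ (h2 p hp)
      · rcases h3 p hp with h5 | h5
        · rcases List.mem_cons.1 h5 with h6 | h6
          · right; rw [h6]; exact List.mem_cons_self
          · left; exact h6
        · right; exact List.mem_cons_of_mem _ h5
    | false =>
      cases st with
      | nil =>
        obtain ⟨h1, h2, h3⟩ := ih []
        refine ⟨fun p hp => ?_, fun p hp => ?_, fun p hp => ?_⟩
        · obtain ⟨h4, h5⟩ := h1 p hp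
          exact ⟨List.mem_cons_of_mem _ h4, h5.imp id (List.mem_cons_of_mem _)⟩
        · have hp' : p ∈ y :: (scan lv []).2.1 := hp
          rcases List.mem_cons.1 hp' with h6 | h6
          · rw [h6]; exact List.mem_cons_self
          · exact List.mem_cons_of_mem _ (h2 p h6)
        · exact (h3 p hp).imp id (List.mem_cons_of_mem _)
      | cons x st =>
        obtain ⟨h1, h2, h3⟩ := ih st
        refine ⟨fun p hp => ?_, fun p hp => ?_, fun p hp => ?_⟩
        · have hp' : p ∈ (x, y) :: (scan lv st).1 := hp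
          rcases List.mem_cons.1 hp' with h6 | h6
          · rw [h6]
            exact ⟨List.mem_cons_self, Or.inl List.mem_cons_self⟩
          · obtain ⟨h4, h5⟩ := h1 p h6
            exact ⟨List.mem_cons_of_mem _ h4,
              h5.imp (List.mem_cons_of_mem _) (List.mem_cons_of_mem _)⟩
        · exact List.mem_cons_of_mem _ (h2 p hp)
        · exact (h3 p hp).imp (List.mem_cons_of_mem _) (List.mem_cons_of_mem _)

theorem scan_before_aux (l1 l2 : List (D × Bool)) (y : D) (st : List D) :
    y ∈ (scan (l1 ++ (y, false) :: l2) st).2.1 ∨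
      ∃ x, (x, y) ∈ (scan (l1 ++ (y, false) :: l2) st).1 ∧ (x ∈ st ∨ (x, true) ∈ l1) := by
  induction l1 generalizing st with
  | nil =>
    cases st with
    | nil =>
      left
      change y ∈ y :: _
      exact List.mem_cons_self
    | cons x st =>
      right
      refine ⟨x, ?_, Or.inl List.mem_cons_self⟩
      change (x, y) ∈ (x, y) :: _
      exact List.mem_cons_self
  | cons a l1 ih =>
    obtain ⟨z, b⟩ := a
    cases b with
    | true =>
      rcases ih (z :: st) with h | ⟨x, h1, h2⟩
      · left; exact h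
      · right
        refine ⟨x, h1, ?_⟩
        rcases h2 with h2 | h2
        · rcases List.mem_cons.1 h2 with h3 | h3
          · right; rw [h3]; exact List.mem_cons_self
          · left; exact h3
        · right; exact List.mem_cons_of_mem _ h2
    | false =>
      cases st with
      | nil =>
        rcases ih [] with h | ⟨x, h1, h2⟩
        · left
          change y ∈ z :: (scan (l1 ++ (y, false) :: l2) []).2.1
          exact List.mem_cons_of_mem _ h
        · right
          exact ⟨x, h1, h2.imp id (List.mem_cons_of_mem _)⟩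
      | cons w st =>
        rcases ih st with h | ⟨x, h1, h2⟩
        · left; exact h
        · right
          refine ⟨x, ?_, h2.imp (List.mem_cons_of_mem _) (List.mem_cons_of_mem _)⟩
          change (x, y) ∈ (w, z) :: (scan (l1 ++ (y, false) :: l2) st).1
          exact List.mem_cons_of_mem _ h1

theorem scan_before (lv l1 l2 : List (D × Bool)) (y : D)
    (hl : lv = l1 ++ (y, false) :: l2) (hn : (lv.map Prod.fst).Nodup) :
    y ∈ (scan lv []).2.1 ∨ ∃ x, (x, y) ∈ (scan lv []).1 ∧ (x, true) ∈ l1 := by
  subst hl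
  rcases scan_before_aux l1 l2 y [] with h | ⟨x, h1, h2⟩
  · left; exact h
  · right
    refine ⟨x, h1, ?_⟩
    rcases h2 with h2 | h2
    · simp at h2
    · exact h2

theorem ra_sc {ρ : Perm D} {S : D → Prop} {a b : D} (h : Pth ρ S a b) : ρ.SameCycle a b := by
  obtain ⟨k, hk, _⟩ := h
  exact ⟨k, by rw [zpow_natCast]; exact hk⟩

theorem ra_base {f α : Perm D} (e : D) : (α * f⁻¹) (f e) = α e := by
  rw [Perm.mul_apply, Perm.inv_def, Equiv.symm_apply_apply]

theorem ra_nodup {f α : Perm D} {ℓ : D → ℤ} (hf : TF f) {r : ℕ} {e : D} {T : Tr} {bs : List D}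
    {lv : List (D × Bool)} {pr : List (D × D)} {As Bs : List D}
    (h : Slc f α ℓ r e T bs lv pr As Bs) :
    ((lv ++ [(f (f e), true)]).map Prod.fst).Nodup := by
  have h1 := (slc_perm hf h).nodup_iff.2 h.ndp
  have h2 := scan_perm (lv ++ [(f (f e), true)]) []
  rw [h.sc, List.nil_append] at h2
  refine h2.nodup_iff.1 ?_
  have h3 := (List.nodup_cons.1 h1).2
  exact (List.nodup_append.1 (List.nodup_append.1 h3).1).1

theorem ra_last {f α : Perm D} {ℓ : D → ℤ} {r : ℕ} {e : D} {T : Tr} {bs : List D}
    {lv : List (D × Bool)} {pr : List (D × D)} {As Bs : List D}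
    (h : Slc f α ℓ r e T bs lv pr As Bs) : ∃ l p, lv = l ++ [p] := by
  have h1 := (emb_len h.emb).2
  rcases List.eq_nil_or_concat' lv with h2 | ⟨l, p, h2⟩
  · rw [h2] at h1
    simp at h1
  · exact ⟨l, p, h2⟩

theorem ra_leaf {f α : Perm D} {ℓ : D → ℤ} (hf : TF f) {r : ℕ} {e : D} {T : Tr} {bs : List D}
    {lv : List (D × Bool)} {pr : List (D × D)} {As Bs : List D}
    (h : Slc f α ℓ r e T bs lv pr As Bs) (n : ℕ) : ∀ (l1 l2 : List (D × Bool)) (p : D × Bool),
    l1.length = n → lv ++ [(f (f e), true)] = l1 ++ p :: l2 →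
    (∃ q, (q, true) ∈ lv ++ [(f (f e), true)] ∧ (α * f⁻¹).SameCycle (α p.1) (α q)) ∨
    (∃ A ∈ As, (α * f⁻¹).SameCycle (α p.1) (α A)) ∨ (α * f⁻¹).SameCycle (α p.1) (α e) ∨
    (α * f⁻¹).SameCycle (α p.1) e := by
  induction n using Nat.strong_induction_on with
  | _ n ih =>
    intro l1 l2 p hn hl
    obtain ⟨y, b⟩ := p
    cases b with
    | true =>
      left
      refine ⟨y, ?_, Perm.SameCycle.refl _ _⟩
      rw [hl]
      simp
    | false =>
      rcases scan_before _ l1 l2 y hl (ra_nodup hf h) with h1 | ⟨x, h1, h2⟩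
      · rw [h.sc] at h1
        right; left
        exact ⟨y, h1, Perm.SameCycle.refl _ _⟩
      · rw [h.sc] at h1
        have h3 : α y = x := (h.mt _ h1).2
        obtain ⟨m1, m2, hm⟩ := List.append_of_mem h2
        rcases List.eq_nil_or_concat' m1 with h4 | ⟨m1', p', h4⟩
        · -- `x` is the first leaf
          subst h4
          right; right; left
          obtain ⟨l, q, hq⟩ := ra_last h
          have h5 : ∃ l', lv = (x, true) :: l' := by
            rw [hm] at hl
            cases lv with
            | nil => simp at hq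
            | cons c lv' =>
              simp only [List.nil_append, List.cons_append, List.cons.injEq] at hl
              exact ⟨lv', by rw [hl.1]⟩
          obtain ⟨l', hl'⟩ := h5
          have h6 := ra_sc (rot_start hf h.emb (x, true) l' hl')
          simp only [h3]
          refine h6.trans ⟨1, ?_⟩
          rw [zpow_one, ra_base]
        · have h5 : lv ++ [(f (f e), true)] =
              m1' ++ p' :: (x, true) :: (m2 ++ (y, false) :: l2) := by
            rw [hl, hm, h4]; simp
          have h6 := ra_sc (slc_next hf h p' (x, true) m1' _ h5)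
          have h7 := ih m1'.length (by rw [← hn, hm, h4]; simp) m1' _ p' rfl h5
          simp only [h3]
          simp only at h6
          rcases h7 with ⟨q, h8, h9⟩ | ⟨A, h8, h9⟩ | h9 | h9
          · exact Or.inl ⟨q, h8, h6.trans h9⟩
          · exact Or.inr (Or.inl ⟨A, h8, h6.trans h9⟩)
          · exact Or.inr (Or.inr (Or.inl (h6.trans h9)))
          · exact Or.inr (Or.inr (Or.inr (h6.trans h9)))

theorem slc_all {f α : Perm D} {ℓ : D → ℤ} (hf : TF f) {r : ℕ} {e : D} {T : Tr} {bs : List D}
    {lv : List (D × Bool)} {pr : List (D × D)} {As Bs : List D}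
    (h : Slc f α ℓ r e T bs lv pr As Bs) (z : D) (hz : z ∈ tri f (e :: bs)) :
    (∃ p, (p, true) ∈ lv ++ [(f (f e), true)] ∧ (α * f⁻¹).SameCycle z (α p)) ∨
    (∃ A ∈ As, (α * f⁻¹).SameCycle z (α A)) ∨ (α * f⁻¹).SameCycle z (α e) ∨
    (α * f⁻¹).SameCycle z e := by
  have key : ∀ p ∈ lv ++ [(f (f e), true)], (α * f⁻¹).SameCycle z (α p.1) →
      (∃ p, (p, true) ∈ lv ++ [(f (f e), true)] ∧ (α * f⁻¹).SameCycle z (α p)) ∨
      (∃ A ∈ As, (α * f⁻¹).SameCycle z (α A)) ∨ (α * f⁻¹).SameCycle z (α e) ∨
      (α * f⁻¹).SameCycle z e := by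
    intro p hp h6
    obtain ⟨l1, l2, hl⟩ := List.append_of_mem hp
    rcases ra_leaf hf h _ l1 l2 p rfl hl with ⟨q, h8, h9⟩ | ⟨A, h8, h9⟩ | h9 | h9
    · exact Or.inl ⟨q, h8, h6.trans h9⟩
    · exact Or.inr (Or.inl ⟨A, h8, h6.trans h9⟩)
    · exact Or.inr (Or.inr (Or.inl (h6.trans h9)))
    · exact Or.inr (Or.inr (Or.inr (h6.trans h9)))
  have hfe : (α * f⁻¹).SameCycle (f e) (α e) := ⟨1, by rw [zpow_one, ra_base]⟩
  have h1 := (mem_tri f _ _).1 hz
  obtain ⟨b, hb, h2⟩ := h1
  rcases List.mem_cons.1 hb with h3 | h3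
  · subst h3
    rcases h2 with h2 | h2 | h2
    · subst h2
      exact Or.inr (Or.inr (Or.inr (Perm.SameCycle.refl _ _)))
    · subst h2
      exact Or.inr (Or.inr (Or.inl hfe))
    · obtain ⟨l, p, hl⟩ := ra_last h
      refine key p ?_ ?_
      · rw [hl]; simp
      · rw [h2]
        exact ra_sc (slc_next hf h p (f (f b), true) l [] (by rw [hl]; simp))
  · have h4 : z ∈ tri f bs := (mem_tri f _ _).2 ⟨b, h3, h2⟩
    rcases rot_all hf h.emb z h4 with ⟨p, hp, h5⟩ | h5
    · exact key p (List.mem_append_left _ hp) h5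
    · exact Or.inr (Or.inr (Or.inl (h5.trans hfe)))

/-- up leaves are matched or right boundary darts -/
theorem slc_up {f α : Perm D} {ℓ : D → ℤ} (hf : TF f) {r : ℕ} {e : D} {T : Tr} {bs : List D}
    {lv : List (D × Bool)} {pr : List (D × D)} {As Bs : List D}
    (h : Slc f α ℓ r e T bs lv pr As Bs) (p : D)
    (hp : (p, true) ∈ lv ++ [(f (f e), true)]) : p ∈ Bs ∨ (∃ y, (p, y) ∈ pr) := by
  have hn := ra_nodup hf h
  have hno : (p, false) ∉ lv ++ [(f (f e), true)] := by
    intro h1
    have h2 := List.inj_on_of_nodup_map hn hp h1 rfl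
    simp at h2
  have h2 := scan_perm (lv ++ [(f (f e), true)]) []
  obtain ⟨s1, s2, _⟩ := scan_sign (lv ++ [(f (f e), true)]) []
  rw [h.sc] at h2 s1 s2
  have h3 : p ∈ ent pr ++ As ++ Bs := by
    rw [h2.mem_iff, List.nil_append]
    exact List.mem_map_of_mem hp
  rw [List.mem_append, List.mem_append] at h3
  rcases h3 with (h3 | h3) | h3
  · unfold ent at h3
    rw [List.mem_flatMap] at h3
    obtain ⟨q, hq, h4⟩ := h3
    simp only [List.mem_cons, List.not_mem_nil, or_false] at h4
    rcases h4 with h4 | h4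
    · right
      exact ⟨q.2, by rw [h4]; exact hq⟩
    · exfalso
      refine hno ?_
      rw [h4]
      exact (s1 q hq).1
  · exact absurd (s2 p h3) hno
  · exact Or.inl h3

end HG39
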