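import Pool.Agent.H39.HG.Defs
import Pool.Agent.H39.HG.GrPerm
import Pool.Agent.H39.HG.EmbBasic
import Pool.Agent.H39.HG.ScanLev
import Pool.Agent.H39.HG.ScanBal
import Pool.Agent.H39.HG.Rot
import Pool.Agent.H39.HG.LabBasic
import Pool.Agent.H39.HG.SlcBasic
import Pool.Agent.H39.HG.RotSlc

/-!
[H39 HG TENLOOP]  (MP_bcc40c_pr)  Tentacles: the base is a loop, the darts are closed under `α` except for the
base.

`Ten f α ℓ r w T bs lv pr As Bs` in a full triangulation `α`; `P = tri f (w :: bs)`, `ρ = α * f⁻¹`; by rho_same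
the `ρ`-cycles are the vertices.
ten_loop: `ρ w = α (f (f w)) = α B_1 = A_1` (slc_heads, `cl`), `A_1 = f (α (f w))` is the first leaf of the
tree `nd d T` on `f w`, rot_start: path `A_1 → f w`, and `ρ (f w) = α w`.
ten_closed: for `d ∈ P`, `d ≠ w`: slc_closed; for `d = A_j`: `α A_j = B_j ∈ P`, `ℓ (f A_j) = r - j = ℓ B_j`; for
`d = B_j`: `ℓ (f B_j) = r - j + 1 = ℓ A_j` (slc_lev).
ten_size: `P` has `3 (1 + (T.sz + 1)) = 6 K - 3` darts.
-/

set_option autoImplicit false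

namespace HG39

open Equiv

variable {D : Type} [Fintype D] [DecidableEq D]

theorem tl_zip_left {l1 l2 : List D} (h : l1.length = l2.length) {a : D} (ha : a ∈ l1) :
    ∃ b, (a, b) ∈ l1.zip l2 := by
  induction l1 generalizing l2 with
  | nil => simp at ha
  | cons c l1 ih =>
    cases l2 with
    | nil => simp at h
    | cons d l2 =>
      rcases List.mem_cons.1 ha with h1 | h1
      · subst h1
        exact ⟨d, by simp⟩
      · obtain ⟨b, hb⟩ := ih (by simpa using h) h1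
        exact ⟨b, by simp [hb]⟩

theorem tl_zip_right {l1 l2 : List D} (h : l1.length = l2.length) {b : D} (hb : b ∈ l2) :
    ∃ a, (a, b) ∈ l1.zip l2 := by
  induction l1 generalizing l2 with
  | nil =>
    cases l2 with
    | nil => simp at hb
    | cons d l2 => simp at h
  | cons c l1 ih =>
    cases l2 with
    | nil => simp at h
    | cons d l2 =>
      rcases List.mem_cons.1 hb with h1 | h1
      · subst h1
        exact ⟨c, by simp⟩
      · obtain ⟨a, ha⟩ := ih (by simpa using h) h1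
        exact ⟨a, by simp [ha]⟩

theorem tl_lev {f : Perm D} {ℓ : D → ℤ} (l1 : List D) : ∀ (l2 : List D) (s : ℤ), DnOK f ℓ s l1 →
    StOK f ℓ s l2 → ∀ p ∈ l1.zip l2, ℓ (f p.1) = ℓ p.2 ∧ ℓ (f p.2) = ℓ p.1 := by
  induction l1 with
  | nil => intro l2 s _ _ p hp; simp at hp
  | cons c l1 ih =>
    intro l2 s h1 h2 p hp
    cases l2 with
    | nil => simp at hp
    | cons d l2 =>
      obtain ⟨a1, a2, a3⟩ := h1
      obtain ⟨b1, b2, b3⟩ := h2
      rw [List.zip_cons_cons, List.mem_cons] at hp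
      rcases hp with rfl | hp
      · exact ⟨by rw [a2, b2], by rw [b1, a1]⟩
      · exact ih l2 (s - 1) a3 b3 p hp

theorem tl_fst {f α : Perm D} {ℓ : D → ℤ} {T : Tr} {y : D} {rs : List D} {lv : List (D × Bool)}
    (h : Emb f α ℓ (.nd .d T) y rs lv) : ∃ l, lv = (f (α y), false) :: l := by
  cases h with
  | nd a b _ b0 ra rb la lb h1 h2 h3 h4 hw ha hb =>
    cases ha with
    | d _ h5 => exact ⟨lb, by rw [h1]; rfl⟩

theorem ten_loop {f α : Perm D} {ℓ : D → ℤ} (hf : TF f) (hα : PT f α []) {r : ℕ} {w : D}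
    {T : Tr} {bs : List D} {lv : List (D × Bool)} {pr : List (D × D)} {As Bs : List D}
    (h : Ten f α ℓ r w T bs lv pr As Bs) : (f * α).SameCycle w (α w) := by
  rw [← rho_same hα.inv]
  obtain ⟨⟨As', hA⟩, ⟨Bs', hB⟩⟩ := slc_heads hf h.slc
  have h1 : α (f (f w)) = f (α (f w)) := by
    refine (h.cl (f (α (f w)), f (f w)) ?_).2
    rw [hA, hB]
    simp
  have h2 : (α * f⁻¹) w = f (α (f w)) := by
    rw [Perm.mul_apply, Perm.inv_def]
    have h3 : f.symm w = f (f w) := by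
      rw [Equiv.symm_apply_eq, hf.three]
    rw [h3, h1]
  obtain ⟨l, hl⟩ := tl_fst h.slc.emb
  obtain ⟨k, hk, _⟩ := rot_start hf h.slc.emb (f (α (f w)), false) l hl
  have h4 : (α * f⁻¹) (f w) = α w := by
    rw [Perm.mul_apply, Perm.inv_def, Equiv.symm_apply_apply]
  have s1 : (α * f⁻¹).SameCycle w (f (α (f w))) := ⟨1, by rw [zpow_one, h2]⟩
  have s2 : (α * f⁻¹).SameCycle (f (α (f w))) (f w) := ⟨k, by rw [zpow_natCast]; exact hk⟩
  have s3 : (α * f⁻¹).SameCycle (f w) (α w) := ⟨1, by rw [zpow_one, h4]⟩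
  exact s1.trans (s2.trans s3)

theorem ten_closed {f α : Perm D} {ℓ : D → ℤ} (hf : TF f) (hα : PT f α []) {r : ℕ} {w : D}
    {T : Tr} {bs : List D} {lv : List (D × Bool)} {pr : List (D × D)} {As Bs : List D}
    (h : Ten f α ℓ r w T bs lv pr As Bs) (d : D) (hd : d ∈ tri f (w :: bs)) (hdw : d ≠ w) :
    α d ∈ tri f (w :: bs) ∧ ℓ (f d) = ℓ (α d) := by
  obtain ⟨_, lA, lB⟩ := slc_len hf h.slc
  obtain ⟨dA, dB, _⟩ := slc_lev hf h.slc
  have hz := tl_lev As Bs r dA dB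
  have hp := slc_perm hf h.slc
  have mA : ∀ a ∈ As, a ∈ tri f (w :: bs) := fun a ha => by
    rw [← hp.mem_iff]
    simp [ha]
  have mB : ∀ a ∈ Bs, a ∈ tri f (w :: bs) := fun a ha => by
    rw [← hp.mem_iff]
    simp [ha]
  rcases slc_closed hf h.slc d hd with h1 | h1 | h1 | h1
  · exact absurd h1 hdw
  · obtain ⟨b, hb⟩ := tl_zip_left (lA.trans lB.symm) h1
    have h2 : α d = b := (h.cl _ hb).1
    rw [h2]
    exact ⟨mB b (List.of_mem_zip hb).2, (hz _ hb).1⟩
  · obtain ⟨b, hb⟩ := tl_zip_right (lA.trans lB.symm) h1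
    have h2 : α d = b := (h.cl _ hb).2
    rw [h2]
    exact ⟨mA b (List.of_mem_zip hb).1, (hz _ hb).2⟩
  · exact ⟨h1.1, h1.2.2⟩

theorem ten_size {f α : Perm D} {ℓ : D → ℤ} (hf : TF f) {r K : ℕ} {w : D} {T : Tr}
    {bs : List D} {lv : List (D × Bool)} {pr : List (D × D)} {As Bs : List D}
    (hT : Adm r K T) (h : Ten f α ℓ r w T bs lv pr As Bs) :
    (tri f (w :: bs)).length + 3 = 6 * K ∧ (tri f (w :: bs)).Nodup ∧ 2 ≤ K := by
  obtain ⟨l1, _, _⟩ := slc_len hf h.slc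
  have h1 := hT.2.2.2
  refine ⟨?_, h.slc.ndp, by omega⟩
  rw [tri_len, List.length_cons]
  omega

end HG39
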