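import Pool.Agent.H39.HG.Defs
import Pool.Agent.H39.HG.GrPerm
import Pool.Agent.H39.HG.EmbBasic
import Pool.Agent.H39.HG.ScanLev
import Pool.Agent.H39.HG.ScanBal
import Pool.Agent.H39.HG.LabBasic
import Pool.Agent.H39.HG.SlcBasic
import Pool.Agent.H39.HG.RotSlc
import Pool.Agent.H39.HG.RotAll
import Pool.Agent.H39.HG.GraphA
import Pool.Agent.H39.HG.GraphLab
import Pool.Agent.H39.HG.TenLoop

/-!
[H39 HG TENLAB]  (MP_bcc40c_pr)  Distances from the apex of a tentacle.

`Ten f α ℓ r w T bs lv pr As Bs` in a full triangulation `α`; `P = tri f (w :: bs)`; `As = As' ++ [A]`, apex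
`a = f A` (level 0).  `ρ = α * f⁻¹`; by rho_same the `ρ`-cycles are the vertices.
(1) lower bound: `φ d = ℓ d` on `P`, `φ = r` outside satisfies the hypotheses of dst_lip: `φ (f (α d)) = φ d`:
if `α d ∈ P`, `α d ≠ w`: ten_closed applied to `α d` (`α (α d) = d ∈ P`); for `d = α w`: `φ (f w) = r =
φ (α w)`; for `d = w`: `f (α w) ∉ P` (tri_closed), `φ = r = ℓ w`; if `d, α d ∉ P`: `r = r` (`f (α d) ∉ P`).
Lipschitz: slc_lip.  So `dst a d ≥ φ d - φ a = φ d`.
(2) descending neighbours: every `z ∈ P` with `ℓ z > 0` is in the `ρ`-cycle of some descending `z' ∈ P`: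
slc_all: `z ~ α p` for an up leaf `p` (slc_up: `p ∈ Bs`: `α p = A_j` descending; `(p, y) ∈ pr`: `α p = y`
descending; both in `P`); `z ~ α A_j = B_j` (level `r - j > 0`, so `j < r`): slc_right: `B_j → α B_{j+1} =
A_{j+1}`, descending; `z ~ α w` or `z ~ w`: `ρ w = α (f (f w)) = α B_1 = A_1` descending, ten_loop.
(3) upper bound: `dst a d ≤ ℓ d` for `d ∈ P` by induction on the level.  Level 0: by slc_all `z ~ α p`
(then its level is positive), `z ~ w` or `α w` (level `r ≥ 1`), or `z ~ α A_j`, level `r - j = 0`: `z ~ α A`;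
the same for `a = f A ∈ P`, so `z ~ a`, `dst = 0` (dst_self; `φ` is constant on vertices).  Level > 0: (2)
and dst_f, dst_congr.
(4) geodesic: with the labels `ℓ' d = dst a d` (= ℓ on P), `As` is a leftmost geodesic: `α A_j = B_j`,
slc_right gives a path `B_j → α B_{j+1} = A_{j+1}` of non-descending darts of `P`; `ℓ' (f A_r) = 0`.
-/

set_option autoImplicit false

namespace HG39

open Equiv

variable {D : Type} [Fintype D] [DecidableEq D]

omit [Fintype D] [DecidableEq D] in
private theorem tl_zipR {As Bs : List D} (h : As.length = Bs.length) {b : D} (hb : b ∈ Bs) :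
    ∃ a, (a, b) ∈ As.zip Bs := by
  induction As generalizing Bs with
  | nil =>
    cases Bs with
    | nil => simp at hb
    | cons c t => simp at h
  | cons a As ih =>
    cases Bs with
    | nil => simp at hb
    | cons c t =>
      rw [List.mem_cons] at hb
      rw [List.zip_cons_cons]
      rcases hb with rfl | hb
      · exact ⟨a, List.mem_cons_self⟩
      · obtain ⟨a', ha'⟩ := ih (by simpa using h) hb
        exact ⟨a', List.mem_cons_of_mem _ ha'⟩

omit [Fintype D] [DecidableEq D] in
private theorem tl_split {As Bs : List D} (h : As.length = Bs.length) (p q : List D) (a b : D)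
    (hA : As = p ++ a :: b :: q) : ∃ p' a' b' q', Bs = p' ++ a' :: b' :: q' ∧
      (a, a') ∈ As.zip Bs ∧ (b, b') ∈ As.zip Bs := by
  induction p generalizing As Bs with
  | nil =>
    subst hA
    match Bs, h with
    | [], h => simp at h
    | [_], h => simp at h
    | a' :: b' :: q', _ =>
      refine ⟨[], a', b', q', rfl, ?_, ?_⟩
      · simp
      · simp
  | cons c p ih =>
    subst hA
    cases Bs with
    | nil => simp at h
    | cons c' t =>
      obtain ⟨p', a', b', q', h1, h2, h3⟩ := ih (Bs := t) (by simpa using h) rfl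
      refine ⟨c' :: p', a', b', q', by rw [h1]; rfl, ?_, ?_⟩
      · rw [List.cons_append, List.zip_cons_cons]
        exact List.mem_cons_of_mem _ h2
      · rw [List.cons_append, List.zip_cons_cons]
        exact List.mem_cons_of_mem _ h3

omit [Fintype D] [DecidableEq D] in
private theorem tl_zipL {As Bs : List D} (h : As.length = Bs.length) {a : D} (ha : a ∈ As) :
    ∃ b, (a, b) ∈ As.zip Bs := by
  obtain ⟨b, hb⟩ := tl_zipR h.symm ha
  refine ⟨b, ?_⟩
  rw [← List.zip_swap, List.mem_map] at hb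
  obtain ⟨q, hq, hq'⟩ := hb
  cases q
  injection hq' with h1 h2
  subst h1 h2
  exact hq

omit [Fintype D] [DecidableEq D] in
private theorem tl_dn {f : Perm D} {ℓ : D → ℤ} {As : List D} : ∀ {s : ℤ}, DnOK f ℓ s As →
    ∀ a ∈ As, ℓ (f a) = ℓ a - 1 := by
  induction As with
  | nil => intro s _ a ha; simp at ha
  | cons c t ih =>
    intro s h a ha
    obtain ⟨h1, h2, h3⟩ := h
    rcases List.mem_cons.1 ha with rfl | ha
    · omega
    · exact ih h3 a ha

omit [Fintype D] [DecidableEq D] in
private theorem tl_last {f : Perm D} {ℓ : D → ℤ} {A : D} {As' : List D} : ∀ {s : ℤ},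
    DnOK f ℓ s (As' ++ [A]) → ℓ (f A) = s - (As'.length + 1) := by
  induction As' with
  | nil =>
    intro s h
    obtain ⟨h1, h2, h3⟩ := h
    simp
    omega
  | cons c t ih =>
    intro s h
    obtain ⟨h1, h2, h3⟩ := h
    have := ih h3
    rw [List.length_cons]
    push_cast
    omega

omit [Fintype D] [DecidableEq D] in
private theorem tl_lvs {f : Perm D} {ℓ : D → ℤ} {l : List (D × Bool)} : ∀ {s t : ℤ},
    Lvs f ℓ s l t → ∀ p ∈ l, ℓ (f p.1) = ℓ p.1 + (if p.2 then 1 else -1) := by
  induction l with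
  | nil => intro s t _ p hp; simp at hp
  | cons q l ih =>
    intro s t h p hp
    obtain ⟨h1, h2, h3⟩ := h
    rcases List.mem_cons.1 hp with rfl | hp
    · rw [h2, h1]
    · exact ih h3 p hp

private theorem tl_mem {f α : Perm D} {ℓ : D → ℤ} (hf : TF f) {r : ℕ} {e : D} {T : Tr}
    {bs : List D} {lv : List (D × Bool)} {pr : List (D × D)} {As Bs : List D}
    (h : Slc f α ℓ r e T bs lv pr As Bs) :
    (∀ a ∈ As, a ∈ tri f (e :: bs)) ∧ (∀ a ∈ Bs, a ∈ tri f (e :: bs)) ∧
      (∀ p ∈ pr, p.2 ∈ tri f (e :: bs)) := by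
  have hp := slc_perm hf h
  refine ⟨fun a ha => hp.mem_iff.1 ?_, fun a ha => hp.mem_iff.1 ?_, fun p hp' => hp.mem_iff.1 ?_⟩
  · simp [ha]
  · simp [ha]
  · have : p.2 ∈ ent pr := by
      unfold ent
      rw [List.mem_flatMap]
      exact ⟨p, hp', by simp⟩
    simp [this]

theorem ten_lab {f α : Perm D} {ℓ : D → ℤ} (hf : TF f) (hα : PT f α []) {r : ℕ} {w : D}
    {T : Tr} {bs : List D} {lv : List (D × Bool)} {pr : List (D × D)} {As Bs As' : List D}
    {A : D} (h : Ten f α ℓ r w T bs lv pr As Bs) (hA : As = As' ++ [A]) :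
    f A ∈ tri f (w :: bs) ∧
    (∀ d ∈ tri f (w :: bs), (dst f α (f A) d : ℤ) = ℓ d) ∧
    (∀ d, d ∉ tri f (w :: bs) → r ≤ dst f α (f A) d) ∧
    Geo f α (fun d => (dst f α (f A) d : ℤ)) As := by
  have hS := h.slc
  have hr := hS.rp
  obtain ⟨hlb, hlA, hlB⟩ := slc_len hf hS
  obtain ⟨hdn, hst, hlvs, hprl, hffw⟩ := slc_lev hf hS
  obtain ⟨mA, mB, mP⟩ := tl_mem hf hS
  have hlen : As.length = Bs.length := by rw [hlA, hlB]
  have triC : ∀ d, f d ∈ tri f (w :: bs) ↔ d ∈ tri f (w :: bs) := fun d => tri_closed hf _ d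
  have hwP : w ∈ tri f (w :: bs) := by
    rw [mem_tri]
    exact ⟨w, List.mem_cons_self, Or.inl rfl⟩
  have hAA : A ∈ As := by rw [hA]; simp
  have hfA : f A ∈ tri f (w :: bs) := (triC A).2 (mA A hAA)
  have hfA0 : ℓ (f A) = 0 := by
    have h1 := hdn
    rw [hA] at h1
    rw [tl_last h1]
    have h2 : As'.length + 1 = r := by
      rw [← hlA, hA, List.length_append, List.length_singleton]
    omega
  have hdesc : ∀ a ∈ As, ℓ (f a) = ℓ a - 1 := tl_dn hdn
  have hAw : A ≠ w := by
    intro h1
    have h2 := hdesc A hAA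
    rw [h1, hS.le, hS.lfe] at h2
    omega
  obtain ⟨hαA, hαA0⟩ := ten_closed hf hα h A (mA A hAA) hAw
  rw [hfA0] at hαA0
  -- the function constant outside
  set φ : D → ℤ := fun d => if d ∈ tri f (w :: bs) then ℓ d else r with hφ
  have φin : ∀ d ∈ tri f (w :: bs), φ d = ℓ d := fun d hd => by simp only [hφ, if_pos hd]
  have φout : ∀ d, d ∉ tri f (w :: bs) → φ d = r := fun d hd => by simp only [hφ, if_neg hd]
  have hφ1 : ∀ d, φ (f (α d)) = φ d := by
    intro d
    by_cases h1 : α d ∈ tri f (w :: bs)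
    · by_cases h2 : α d = w
      · have h3 : d = α w := by rw [← h2, hα.inv]
        rw [h2, φin _ ((triC w).2 hwP), hS.lfe, h3, φout _ h.out]
      · obtain ⟨h3, h4⟩ := ten_closed hf hα h (α d) h1 h2
        rw [hα.inv] at h3 h4
        rw [φin _ ((triC _).2 h1), φin _ h3, h4]
    · rw [φout _ fun h2 => h1 ((triC _).1 h2)]
      by_cases h2 : d ∈ tri f (w :: bs)
      · by_cases h3 : d = w
        · rw [h3, φin _ hwP, hS.le]
        · exact absurd (ten_closed hf hα h d h2 h3).1 h1
      · rw [φout _ h2]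
  have hφ2 : ∀ d, φ (f d) ≤ φ d + 1 := by
    intro d
    by_cases h1 : d ∈ tri f (w :: bs)
    · rw [φin _ ((triC _).2 h1), φin _ h1]
      exact (slc_lip hf hS d h1).1
    · rw [φout _ fun h2 => h1 ((triC _).1 h2), φout _ h1]
      omega
  have hlip := dst_lip hf hα φ hφ1 hφ2
  have hφc : ∀ a b, (f * α).SameCycle a b → φ a = φ b := by
    intro a b hab
    have h1 := hlip a b
    have h2 := hlip b a
    rw [dst_self f α _ _ hab] at h1
    rw [dst_self f α _ _ hab.symm] at h2
    push_cast at h1 h2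
    omega
  have hrho : ∀ a b, (α * f⁻¹).SameCycle a b → (f * α).SameCycle a b := fun a b hab =>
    (rho_same hα.inv a b).1 hab
  -- descending neighbours
  have hnb : ∀ z ∈ tri f (w :: bs), (∃ z' ∈ tri f (w :: bs), (f * α).SameCycle z z' ∧
      ℓ (f z') = ℓ z' - 1) ∨ (f * α).SameCycle z (α A) := by
    intro z hz
    have hwA : ∃ z' ∈ tri f (w :: bs), (f * α).SameCycle w z' ∧ ℓ (f z') = ℓ z' - 1 := by
      obtain ⟨_, Bs1, hB1⟩ := slc_heads hf hS
      obtain ⟨a, ha⟩ := tl_zipR (b := f (f w)) hlen (by rw [hB1]; exact List.mem_cons_self)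
      have h1 := (h.cl _ ha).2
      have h2 : a ∈ As := (List.of_mem_zip ha).1
      refine ⟨a, mA a h2, ?_, hdesc a h2⟩
      apply hrho
      have h3 : (α * f⁻¹) w = a := by
        rw [Perm.mul_apply]
        have h4 : f⁻¹ w = f (f w) := by
          rw [Perm.inv_eq_iff_eq]
          exact (hf.three w).symm
        rw [h4]
        exact h1
      rw [← h3]
      exact (Equiv.Perm.sameCycle_apply_right).2 (Equiv.Perm.SameCycle.refl _ _)
    rcases slc_all hf hS z hz with ⟨p, hp, hs⟩ | ⟨a, ha, hs⟩ | hs | hs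
    · left
      rcases slc_up hf hS p hp with hp' | ⟨y, hy⟩
      · obtain ⟨a, ha⟩ := tl_zipR hlen hp'
        have h1 := (h.cl _ ha).2
        have h2 : a ∈ As := (List.of_mem_zip ha).1
        refine ⟨a, mA a h2, ?_, hdesc a h2⟩
        have h3 := hrho _ _ hs
        rwa [show α p = a from h1] at h3
      · have h1 := (hS.mt _ hy).1
        have h3 := hrho _ _ hs
        rw [show α p = y from h1] at h3
        refine ⟨y, mP _ hy, h3, ?_⟩
        have h4 := hprl _ hy
        have h5 := tl_lvs hlvs _ hp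
        simp only [if_true] at h4 h5
        omega
    · obtain ⟨u, v, huv⟩ := List.append_of_mem ha
      cases v with
      | nil =>
        right
        have h1 : a = A := by
          rw [hA] at huv
          have := (List.append_inj' huv rfl).2
          simpa using this.symm
        rw [← h1]
        exact hrho _ _ hs
      | cons b v =>
        left
        obtain ⟨p', a', b', q', h1, h2, h3⟩ := tl_split hlen u v a b huv
        have h4 := slc_right hf hS p' q' a' b' h1
        have h5 := (h.cl _ h2).1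
        have h6 := (h.cl _ h3).2
        have hb : b ∈ As := by rw [huv]; simp
        refine ⟨b, mA b hb, ?_, hdesc b hb⟩
        have h7 := hrho _ _ hs
        rw [show α a = a' from h5] at h7
        have h8 := pth_same hα.inv h4
        rw [show α b' = b from h6] at h8
        exact h7.trans h8
    · left
      obtain ⟨z', h1, h2, h3⟩ := hwA
      exact ⟨z', h1, ((hrho _ _ hs).trans (ten_loop hf hα h).symm).trans h2, h3⟩
    · left
      obtain ⟨z', h1, h2, h3⟩ := hwA
      exact ⟨z', h1, (hrho _ _ hs).trans h2, h3⟩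
  have hz0 : ∀ z ∈ tri f (w :: bs), ℓ z = 0 → (f * α).SameCycle z (α A) := by
    intro z hz h0
    rcases hnb z hz with ⟨z', h1, h2, h3⟩ | h1
    · exfalso
      have h4 := hφc _ _ h2
      rw [φin _ hz, φin _ h1] at h4
      have h5 := (slc_lip hf hS (f z') ((triC _).2 h1)).2.2
      omega
    · exact h1
  have hzp : ∀ z ∈ tri f (w :: bs), 0 < ℓ z → ∃ z' ∈ tri f (w :: bs),
      (f * α).SameCycle z z' ∧ ℓ (f z') = ℓ z' - 1 := by
    intro z hz h0
    rcases hnb z hz with h1 | h1
    · exact h1
    · exfalso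
      have h4 := hφc _ _ h1
      rw [φin _ hz, φin _ hαA] at h4
      omega
  have hstep : ∀ d, dst f α (f A) d ≤ dst f α (f A) (f d) + 1 := by
    intro d
    have hcyc : ∀ x, (f * α).SameCycle (f (α x)) x := by
      intro x
      have : f (α x) = (f * α) x := rfl
      rw [this]
      exact (Equiv.Perm.sameCycle_apply_left).2 (Equiv.Perm.SameCycle.refl _ _)
    have h1 := dst_f hf hα (f A) (α d)
    rw [dst_congr f α (f A) _ _ (hcyc d)] at h1
    have h2 := hcyc (α d)
    rw [hα.inv] at h2
    rw [dst_congr f α (f A) _ _ h2]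
    exact h1
  have hup : ∀ (n : ℕ) (d : D), d ∈ tri f (w :: bs) → ℓ d ≤ n →
      (dst f α (f A) d : ℤ) ≤ ℓ d := by
    intro n
    induction n with
    | zero =>
      intro d hd hn
      have h1 := (slc_lip hf hS d hd).2.2
      have h2 : ℓ d = 0 := by push_cast at hn; omega
      have h3 := (hz0 (f A) hfA hfA0).trans (hz0 d hd h2).symm
      rw [dst_self f α _ _ h3, h2]
      rfl
    | succ n ih =>
      intro d hd hn
      rcases lt_or_ge 0 (ℓ d) with h0 | h0
      · obtain ⟨z', h1, h2, h3⟩ := hzp d hd h0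
        have h4 := hφc _ _ h2
        rw [φin _ hd, φin _ h1] at h4
        have h5 := ih (f z') ((triC _).2 h1) (by push_cast at hn; omega)
        have h6 := hstep z'
        rw [dst_congr f α (f A) _ _ h2]
        omega
      · exact ih d hd (by omega)
  have hin : ∀ d ∈ tri f (w :: bs), (dst f α (f A) d : ℤ) = ℓ d := by
    intro d hd
    have h1 := (slc_lip hf hS d hd).2.2
    have h2 := hup (ℓ d).toNat d hd (by omega)
    have h3 := hlip (f A) d
    rw [φin _ hd, φin _ hfA, hfA0] at h3
    omega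
  have hD : ∀ z ∈ tri f (w :: bs), Desc f (fun d => (dst f α (f A) d : ℤ)) z ↔ Desc f ℓ z := by
    intro z hz
    unfold Desc
    simp only [hin z hz, hin (f z) ((triC z).2 hz)]
  refine ⟨hfA, hin, ?_, ?_, ?_, ?_⟩
  · intro d hd
    have h3 := hlip (f A) d
    rw [φout _ hd, φin _ hfA, hfA0] at h3
    omega
  · intro a ha
    exact (hD a (mA a ha)).2 (hdesc a ha)
  · intro p q a b hab
    have ha : a ∈ As := by rw [hab]; simp
    have hb : b ∈ As := by rw [hab]; simp
    obtain ⟨p', a', b', q', h1, h2, h3⟩ := tl_split hlen p q a b hab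
    have h4 := slc_right hf hS p' q' a' b' h1
    have h5 := (h.cl _ h2).1
    have h6 := (h.cl _ h3).2
    rw [← show α a = a' from h5, show α b' = b from h6] at h4
    refine ⟨(hD b (mA b hb)).2 (hdesc b hb), pth_mono h4 fun z hz => ?_⟩
    intro hz2
    exact hz.2 ((hD z hz.1).1 hz2)
  · intro p a hpa
    have h1 : a = A := by
      rw [hA] at hpa
      have := (List.append_inj' hpa rfl).2
      simpa using this.symm
    rw [h1]
    change ((dst f α (f A) (f A) : ℕ) : ℤ) = 0
    rw [dst_self f α _ _ (Equiv.Perm.SameCycle.refl _ _)]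
    rfl

end HG39
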