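import Pool.Agent.H39.HG.Defs
import Pool.Agent.H39.HG.GlueVal
import Pool.Agent.H39.HG.GrPerm

/-!
[H39 HG UVAL]  (MP_bcc40c_pr)  Removal of a unit: the eight darts and the values.

Setting: `PT f α bs` (partial triangulation, the legs are the darts of the free triangles `bs`), `w` a
leaf triangle: `α (f w) = f (f w)`.  Put `z = α w`, `x = α (f z)`, `y = α (f (f z))` (so the collar is the
triangle `z, f z, f (f z)`).  The hypothesis `3 * bs.length + 6 < card D` says that there are more than
six non-legs.

PROOF of unit_nodup.  `f` has only 3-cycles, so `w, f w, f (f w)` are distinct, and they are non-legs: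
`α (f w) = f (f w) ≠ f w`; by `leg` and tri_closed all three are non-legs (a dart is a leg iff its
`f`-image is).  `z = α w` is a non-leg (`α z = w ≠ z`).  `z ≠ w` (non-leg), `z ≠ f w` because
`α (f w) = f (f w) ≠ w = α z`, `z ≠ f (f w)` because `α (f (f w)) = f w ≠ w`.  So the triangle of `z` is
different from the triangle of `w` (if `f^i z = f^j w` then `z` would be in the triangle of `w`), six
distinct darts, all non-legs.  Suppose `α (f z) = f (f z)`: then the set of these six darts is closed
under `f` and `α` (`w <-> z`, `f w <-> f (f w)`, `f z <-> f (f z)`), by `con` every non-leg is among the six,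
but the number of non-legs is `card D - 3 * bs.length > 6` (the legs are the `3 * bs.length` distinct
entries of `tri f bs`).  Contradiction; so `x ≠ f (f z)`, `y ≠ f z`.  `x, y` are not among the six: the
partners of `w, z, f w, f (f w)` are among these four, and `x = α (f z)` equals none of them (apply `α`),
`x ≠ f z` (non-leg), `x ≠ f (f z)`; the same for `y`; `x ≠ y` by injectivity.
Values of `rmv`: the list of swaps is (w,z), (fw,ffw), (fz,x), (ffz,y), (x,y); apply them one after
the other (`glue` unfolds to a product); e.g. `rmv x = α (swap(fz,x) (swap (x,y) ..))`: the rightmost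
factor acts first: x -> y (swap x y), y -> ffz (swap (ffz,y)), ffz stays, then `α (ffz) = y`.
`ins_rmv`: the product of the same swaps in another order; compare values on the eight darts and
outside (or: all swaps cancel; `(x,y)` has to be moved past the disjoint ones).
-/

set_option autoImplicit false

namespace HG39

open Equiv

variable {D : Type} [Fintype D] [DecidableEq D]

/-- the six darts of the unit -/
def six (f α : Perm D) (w : D) : List D :=
  [w, f w, f (f w), α w, f (α w), f (f (α w))]

/-- all distinctness facts of the unit -/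
theorem uv_facts {f α : Perm D} {bs : List D} (hf : TF f) (h : PT f α bs) {w : D}
    (hw : Leaf f α w) (hN : 3 * bs.length + 6 < Fintype.card D) :
    (six f α w ++ [α (f (α w)), α (f (f (α w)))]).Nodup ∧
    ∀ d ∈ six f α w ++ [α (f (α w)), α (f (f (α w)))], α d ≠ d := by
  have hi := h.inv
  have f3 := hf.three
  have f1 := hf.nf
  have finj : ∀ {a b : D}, f a = f b → a = b := fun {a b} hab => f.injective hab
  have ainj : ∀ {a b : D}, α a = α b → a = b := fun {a b} hab => α.injective hab
  have f2 : ∀ d, f (f d) ≠ d := by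
    intro d hd
    apply f1 d
    have h1 := congrArg f hd
    rw [f3] at h1
    exact h1.symm
  have nlf : ∀ d, α (f d) ≠ f d ↔ α d ≠ d := by
    intro d
    rw [Ne, Ne, h.leg, h.leg, tri_closed hf]
  have hw1 : α (f w) = f (f w) := hw
  have hw2 : α (f (f w)) = f w := by rw [← hw1, hi]
  have n1 : α (f w) ≠ f w := by
    rw [hw1]
    exact f1 (f w)
  have n0 : α w ≠ w := (nlf w).1 n1
  have n2 : α (f (f w)) ≠ f (f w) := (nlf (f w)).2 n1
  have n3 : α (α w) ≠ α w := by
    rw [hi]
    exact n0.symm
  have n4 : α (f (α w)) ≠ f (α w) := (nlf _).2 n3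
  have n5 : α (f (f (α w))) ≠ f (f (α w)) := (nlf _).2 n4
  have n6 : α (α (f (α w))) ≠ α (f (α w)) := by
    rw [hi]
    exact n4.symm
  have n7 : α (α (f (f (α w)))) ≠ α (f (f (α w))) := by
    rw [hi]
    exact n5.symm
  -- triangle of w
  have a1 : w ≠ f w := (f1 w).symm
  have a2 : w ≠ f (f w) := (f2 w).symm
  have a3 : f w ≠ f (f w) := (f1 (f w)).symm
  -- z
  have b1 : w ≠ α w := n0.symm
  have b2 : f w ≠ α w := by
    intro hc
    have h1 := congrArg α hc
    rw [hi, hw1] at h1
    exact a2 h1.symm
  have b3 : f (f w) ≠ α w := by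
    intro hc
    have h1 := congrArg α hc
    rw [hi, hw2] at h1
    exact a1 h1.symm
  -- f z
  have c1 : w ≠ f (α w) := by
    intro hc
    have h1 := congrArg (fun t => f (f t)) hc
    simp only [f3] at h1
    exact b3 h1
  have c2 : f w ≠ f (α w) := fun hc => b1 (finj hc)
  have c3 : f (f w) ≠ f (α w) := fun hc => b2 (finj hc)
  -- f f z
  have d1 : w ≠ f (f (α w)) := by
    intro hc
    have h1 := congrArg f hc
    rw [f3] at h1
    exact b2 h1
  have d2 : f w ≠ f (f (α w)) := fun hc => c1 (finj hc)
  have d3 : f (f w) ≠ f (f (α w)) := fun hc => c2 (finj hc)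
  have e1 : α w ≠ f (α w) := (f1 _).symm
  have e2 : α w ≠ f (f (α w)) := (f2 _).symm
  have e3 : f (α w) ≠ f (f (α w)) := (f1 _).symm
  -- connectivity
  have hS : α (f (α w)) ≠ f (f (α w)) := by
    intro hS
    have hS' : α (f (f (α w))) = f (α w) := by rw [← hS, hi]
    have hall := h.con (fun d => d ∈ six f α w) ⟨w, n0, by simp [six]⟩
      (by
        intro d hd
        simp only [six, List.mem_cons, List.not_mem_nil, or_false] at hd ⊢
        rcases hd with hd | hd | hd | hd | hd | hd <;> rw [hd]
        · exact Or.inr (Or.inl rfl)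
        · exact Or.inr (Or.inr (Or.inl rfl))
        · rw [f3]
          exact Or.inl rfl
        · exact Or.inr (Or.inr (Or.inr (Or.inr (Or.inl rfl))))
        · exact Or.inr (Or.inr (Or.inr (Or.inr (Or.inr rfl))))
        · rw [f3]
          exact Or.inr (Or.inr (Or.inr (Or.inl rfl))))
      (by
        intro d hd
        simp only [six, List.mem_cons, List.not_mem_nil, or_false] at hd ⊢
        rcases hd with hd | hd | hd | hd | hd | hd <;> rw [hd]
        · exact Or.inr (Or.inr (Or.inr (Or.inl rfl)))
        · rw [hw1]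
          exact Or.inr (Or.inr (Or.inl rfl))
        · rw [hw2]
          exact Or.inr (Or.inl rfl)
        · rw [hi]
          exact Or.inl rfl
        · rw [hS]
          exact Or.inr (Or.inr (Or.inr (Or.inr (Or.inr rfl))))
        · rw [hS']
          exact Or.inr (Or.inr (Or.inr (Or.inr (Or.inl rfl)))))
    have hsub : (Finset.univ : Finset D) ⊆ (tri f bs ++ six f α w).toFinset := by
      intro d _
      rw [List.mem_toFinset, List.mem_append]
      by_cases hd : α d = d
      · exact Or.inl ((h.leg d).1 hd)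
      · exact Or.inr (hall d hd)
    have hc := (Finset.card_le_card hsub).trans (List.toFinset_card_le _)
    rw [Finset.card_univ, List.length_append, tri_len] at hc
    have h6 : (six f α w).length = 6 := rfl
    omega
  -- x
  have x1 : w ≠ α (f (α w)) := by
    intro hc
    have h1 := congrArg α hc
    rw [hi] at h1
    exact e1 h1
  have x2 : f w ≠ α (f (α w)) := by
    intro hc
    have h1 := congrArg α hc
    rw [hi, hw1] at h1
    exact c3 h1
  have x3 : f (f w) ≠ α (f (α w)) := by
    intro hc
    have h1 := congrArg α hc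
    rw [hi, hw2] at h1
    exact c2 h1
  have x4 : α w ≠ α (f (α w)) := fun hc => c1 (ainj hc)
  have x5 : f (α w) ≠ α (f (α w)) := n4.symm
  have x6 : f (f (α w)) ≠ α (f (α w)) := hS.symm
  -- y
  have y1 : w ≠ α (f (f (α w))) := by
    intro hc
    have h1 := congrArg α hc
    rw [hi] at h1
    exact e2 h1
  have y2 : f w ≠ α (f (f (α w))) := by
    intro hc
    have h1 := congrArg α hc
    rw [hi, hw1] at h1
    exact d3 h1
  have y3 : f (f w) ≠ α (f (f (α w))) := by
    intro hc
    have h1 := congrArg α hc
    rw [hi, hw2] at h1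
    exact d2 h1
  have y4 : α w ≠ α (f (f (α w))) := fun hc => d1 (ainj hc)
  have y5 : f (α w) ≠ α (f (f (α w))) := by
    intro hc
    have h1 := congrArg α hc
    rw [hi] at h1
    exact hS h1
  have y6 : f (f (α w)) ≠ α (f (f (α w))) := n5.symm
  have y7 : α (f (α w)) ≠ α (f (f (α w))) := fun hc => e3 (ainj hc)
  constructor
  · simp only [six, List.cons_append, List.nil_append, List.nodup_cons, List.mem_cons,
      List.not_mem_nil, or_false, not_or, not_false_iff, List.nodup_nil, and_true]
    exact ⟨⟨a1, a2, b1, c1, d1, x1, y1⟩, ⟨a3, b2, c2, d2, x2, y2⟩, ⟨b3, c3, d3, x3, y3⟩,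
      ⟨e1, e2, x4, y4⟩, ⟨e3, x5, y5⟩, ⟨x6, y6⟩, y7⟩
  · intro d hd
    simp only [six, List.cons_append, List.nil_append, List.mem_cons, List.not_mem_nil,
      or_false] at hd
    rcases hd with hd | hd | hd | hd | hd | hd | hd | hd <;> rw [hd]
    · exact n0
    · exact n1
    · exact n2
    · exact n3
    · exact n4
    · exact n5
    · exact n6
    · exact n7

theorem unit_nodup {f α : Perm D} {bs : List D} (hf : TF f) (h : PT f α bs) {w : D}
    (hw : Leaf f α w) (hN : 3 * bs.length + 6 < Fintype.card D) :
    (six f α w ++ [α (f (α w)), α (f (f (α w)))]).Nodup := (uv_facts hf h hw hN).1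

theorem unit_nonleg {f α : Perm D} {bs : List D} (hf : TF f) (h : PT f α bs) {w : D}
    (hw : Leaf f α w) (hN : 3 * bs.length + 6 < Fintype.card D) :
    ∀ d ∈ six f α w ++ [α (f (α w)), α (f (f (α w)))], α d ≠ d := (uv_facts hf h hw hN).2

/-- the disjoint pairs -/
def uvl (f α : Perm D) (w : D) : List (D × D) :=
  [(w, α w), (f w, f (f w)), (f (α w), α (f (α w))), (f (f (α w)), α (f (f (α w))))]

theorem uv_rmv (f α : Perm D) (w : D) :
    rmv f α w = glue α (uvl f α w) * swap (α (f (α w))) (α (f (f (α w)))) := rfl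

theorem uv_perm {f α : Perm D} {w : D} :
    (six f α w ++ [α (f (α w)), α (f (f (α w)))]).Perm (ent (uvl f α w)) := by
  have hp : ([0, 1, 2, 3, 4, 5, 6, 7] : List (Fin 8)).Perm [0, 3, 1, 2, 4, 6, 5, 7] := by decide
  exact hp.map ![w, f w, f (f w), α w, f (α w), f (f (α w)), α (f (α w)), α (f (f (α w)))]

theorem uv_six {f α : Perm D} {bs : List D} (hf : TF f) (h : PT f α bs) {w : D}
    (hw : Leaf f α w) (hN : 3 * bs.length + 6 < Fintype.card D) (d : D) (hd : d ∈ six f α w) :
    d ≠ α (f (α w)) ∧ d ≠ α (f (f (α w))) := by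
  have hn := List.nodup_append.1 (unit_nodup hf h hw hN)
  exact ⟨hn.2.2 d hd _ (by simp), hn.2.2 d hd _ (by simp)⟩

theorem rmv_six {f α : Perm D} {bs : List D} (hf : TF f) (h : PT f α bs) {w : D}
    (hw : Leaf f α w) (hN : 3 * bs.length + 6 < Fintype.card D) :
    ∀ d ∈ six f α w, rmv f α w d = d := by
  intro d hd
  obtain ⟨h1, h2⟩ := uv_six hf h hw hN d hd
  have hnd : (ent (uvl f α w)).Nodup := uv_perm.nodup_iff.1 (unit_nodup hf h hw hN)
  rw [uv_rmv, Perm.mul_apply, swap_apply_of_ne_of_ne h1 h2]
  have g1 := glue_mem α (uvl f α w) hnd (w, α w) (by simp [uvl])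
  have g2 := glue_mem α (uvl f α w) hnd (f w, f (f w)) (by simp [uvl])
  have g3 := glue_mem α (uvl f α w) hnd (f (α w), α (f (α w))) (by simp [uvl])
  have g4 := glue_mem α (uvl f α w) hnd (f (f (α w)), α (f (f (α w)))) (by simp [uvl])
  have hi := h.inv
  have hw1 : α (f w) = f (f w) := hw
  have hw2 : α (f (f w)) = f w := by rw [← hw1, hi]
  simp only [six, List.mem_cons, List.not_mem_nil, or_false] at hd
  rcases hd with hd | hd | hd | hd | hd | hd <;> rw [hd]
  · exact g1.1.trans (hi w)
  · exact g2.1.trans hw2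
  · exact g2.2.trans hw1
  · exact g1.2
  · exact g3.1.trans (hi _)
  · exact g4.1.trans (hi _)

theorem rmv_xy {f α : Perm D} {bs : List D} (hf : TF f) (h : PT f α bs) {w : D}
    (hw : Leaf f α w) (hN : 3 * bs.length + 6 < Fintype.card D) :
    rmv f α w (α (f (α w))) = α (f (f (α w))) ∧
    rmv f α w (α (f (f (α w)))) = α (f (α w)) := by
  have hnd : (ent (uvl f α w)).Nodup := uv_perm.nodup_iff.1 (unit_nodup hf h hw hN)
  have g3 := glue_mem α (uvl f α w) hnd (f (α w), α (f (α w))) (by simp [uvl])
  have g4 := glue_mem α (uvl f α w) hnd (f (f (α w)), α (f (f (α w)))) (by simp [uvl])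
  rw [uv_rmv, Perm.mul_apply, Perm.mul_apply, swap_apply_left, swap_apply_right]
  exact ⟨g4.2, g3.2⟩

theorem rmv_other {f α : Perm D} {bs : List D} (hf : TF f) (h : PT f α bs) {w : D}
    (hw : Leaf f α w) (hN : 3 * bs.length + 6 < Fintype.card D) (d : D)
    (hd : d ∉ six f α w ++ [α (f (α w)), α (f (f (α w)))]) : rmv f α w d = α d := by
  have h1 : d ≠ α (f (α w)) := by
    rintro rfl
    exact hd (List.mem_append_right _ (by simp))
  have h2 : d ≠ α (f (f (α w))) := by
    rintro rfl
    exact hd (List.mem_append_right _ (by simp))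
  rw [uv_rmv, Perm.mul_apply, swap_apply_of_ne_of_ne h1 h2]
  apply glue_notMem
  intro h3
  exact hd (uv_perm.mem_iff.2 h3)

theorem uv_glue2 (α : Perm D) (l : List (D × D)) (hn : (ent l).Nodup) : glue (glue α l) l = α := by
  ext d
  by_cases hd : d ∈ ent l
  · rw [ent, List.mem_flatMap] at hd
    obtain ⟨p, hp, hdp⟩ := hd
    have g1 := glue_mem (glue α l) l hn p hp
    have g2 := glue_mem α l hn p hp
    simp only [List.mem_cons, List.not_mem_nil, or_false] at hdp
    rcases hdp with rfl | rfl
    · rw [g1.1, g2.2]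
    · rw [g1.2, g2.1]
  · rw [glue_notMem _ l d hd, glue_notMem α l d hd]

theorem ins_rmv {f α : Perm D} {bs : List D} (hf : TF f) (h : PT f α bs) {w : D}
    (hw : Leaf f α w) (hN : 3 * bs.length + 6 < Fintype.card D) :
    ins f (rmv f α w) w (α w) (α (f (α w))) = α := by
  have hnd : (ent (uvl f α w)).Nodup := uv_perm.nodup_iff.1 (unit_nodup hf h hw hN)
  have h1 : ins f (rmv f α w) w (α w) (α (f (α w))) =
      glue (rmv f α w * swap (α (f (α w))) (rmv f α w (α (f (α w)))))
        [(w, α w), (f w, f (f w)), (f (α w), α (f (α w))),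
          (f (f (α w)), rmv f α w (α (f (α w))))] := rfl
  rw [h1, (rmv_xy hf h hw hN).1, uv_rmv, mul_assoc, swap_mul_self, mul_one]
  exact uv_glue2 α (uvl f α w) hnd

end HG39
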