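import Pool.Agent.H39.HG.Defs

/-!
[H39 HG ZCL]  (MP_bcc40c_pr)  Cyclic lists of a permutation.  `CL π c`: `c` is nonempty, without
repetition and `c.map π = c.rotate 1`, that is `π` maps every entry to the next one and the last
one to the first one.

PROOFS.  For `c = a :: p` the condition reads `π a :: p.map π = p ++ [a]`.
CL_exists: take the list `a, π a, ..., π^(k-1) a` with `k` the order of the orbit (for instance
`List.map (fun i => (π ^ i) a) (List.range k)` with `k` minimal positive such that `π^k a = a`,
or `Equiv.Perm.toList` and a separate case for fixed points).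
CL_iff_same: entries of a cyclic list are in one orbit (`c[i] = π^i c[0]`), and the list is closed
under `π` (and, being finite and `π` injective, under `π⁻¹`).
CL_rotate: `(c.rotate k).map π = (c.map π).rotate k = (c.rotate 1).rotate k = (c.rotate k).rotate 1`.
CL_cut: in `c = a :: (p ++ b :: q)` the swap exchanges the successors of `a` and `b`: the successor
of `a` becomes the head of `q ++ [a]`, the successor of `b` becomes the head of `p ++ [b]`; all
other entries are different from `a`, `b`.  Check `map` entry by entry (lists: write `π` on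
`a :: (p ++ b :: q)` as `π a :: (p.map π ++ π b :: q.map π) = p ++ b :: (q ++ [a])`, compare).
A convenient form: for every list `l` without `a` and `b`, `l.map (π * swap a b) = l.map π`;
and from the equation above (by cases on `p`, `q` or by splitting at the lengths) one gets
`π a :: p.map π = p ++ [b]` and `π b :: q.map π = q ++ [a]`.
CL_join: the converse computation; `b` is not in the list `a :: p`, so the two cycles are disjoint
(both are closed under `π`), `Nodup` follows from CL_iff_same.
CL_frame: nothing changes on `c`.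
CL_three: direct.
-/

set_option autoImplicit false

namespace HG39

open Equiv

variable {D : Type} [Fintype D] [DecidableEq D]

omit [Fintype D] [DecidableEq D] in
theorem CL_cons_iff {π : Perm D} {a : D} {p : List D} :
    CL π (a :: p) ↔ (a :: p).Nodup ∧ π a :: p.map π = p ++ [a] := by
  constructor
  · intro h
    refine ⟨h.ndp, ?_⟩
    have h1 := h.rot
    rw [List.map_cons, List.rotate_cons_succ, List.rotate_zero] at h1
    exact h1
  · rintro ⟨h1, h2⟩
    refine ⟨List.cons_ne_nil _ _, h1, ?_⟩
    rw [List.map_cons, List.rotate_cons_succ, List.rotate_zero]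
    exact h2

omit [Fintype D] in
theorem CL_map_frame {π : Perm D} {l : List D} {a b : D} (ha : a ∉ l) (hb : b ∉ l) :
    l.map (π * swap a b) = l.map π := by
  apply List.map_congr_left
  intro x hx
  have h1 : x ≠ a := fun h => ha (h ▸ hx)
  have h2 : x ≠ b := fun h => hb (h ▸ hx)
  rw [Perm.mul_apply, swap_apply_of_ne_of_ne h1 h2]

theorem CL_exists (π : Perm D) (a : D) : ∃ p, CL π (a :: p) := by
  classical
  have hex : ∃ k, 0 < k ∧ (π ^ k) a = a :=
    ⟨orderOf π, orderOf_pos π, by rw [pow_orderOf_eq_one, Perm.one_apply]⟩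
  obtain ⟨k', hk'⟩ : ∃ k', Nat.find hex = k' + 1 :=
    ⟨Nat.find hex - 1, (Nat.sub_add_cancel (Nat.find_spec hex).1).symm⟩
  have hk2 : (π ^ (k' + 1)) a = a := by rw [← hk']; exact (Nat.find_spec hex).2
  have hmin : ∀ m, 0 < m → m < k' + 1 → (π ^ m) a ≠ a := by
    intro m h1 h2 h3
    rw [← hk'] at h2
    exact Nat.find_min hex h2 ⟨h1, h3⟩
  refine ⟨(List.range k').map (fun i => (π ^ (i + 1)) a), ?_⟩
  have hl : a :: (List.range k').map (fun i => (π ^ (i + 1)) a) =
      (List.range (k' + 1)).map (fun i => (π ^ i) a) := by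
    rw [List.range_succ_eq_map, List.map_cons, List.map_map]
    simp only [pow_zero, Perm.one_apply]
    rfl
  rw [CL_cons_iff]
  refine ⟨?_, ?_⟩
  · rw [hl]
    refine List.Nodup.map_on ?_ List.nodup_range
    intro i hi j hj hij
    rw [List.mem_range] at hi hj
    have key : ∀ i j : ℕ, i < j → j < k' + 1 → (π ^ i) a = (π ^ j) a → False := by
      intro i j h1 h2 h3
      refine hmin (j - i) (by omega) (by omega) ?_
      have h4 : π ^ j = π ^ i * π ^ (j - i) := by rw [← pow_add]; congr 1; omega
      rw [h4, Perm.mul_apply] at h3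
      exact ((π ^ i).injective h3).symm
    rcases lt_trichotomy i j with h | h | h
    · exact (key i j h hj hij).elim
    · exact h
    · exact (key j i h hi hij.symm).elim
  · have h1 : ∀ i, π ((π ^ i) a) = (π ^ (i + 1)) a := by
      intro i
      rw [pow_succ', Perm.mul_apply]
    calc π a :: ((List.range k').map (fun i => (π ^ (i + 1)) a)).map π
        = (a :: (List.range k').map (fun i => (π ^ (i + 1)) a)).map π := by rw [List.map_cons]
      _ = (List.range (k' + 1)).map (fun i => (π ^ (i + 1)) a) := by
          rw [hl, List.map_map]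
          exact List.map_congr_left fun i _ => h1 i
      _ = _ := by
          rw [List.range_succ, List.map_append, List.map_cons, List.map_nil, hk2]

omit [Fintype D] [DecidableEq D] in
theorem CL_closed {π : Perm D} {c : List D} (h : CL π c) (x : D) : π x ∈ c ↔ x ∈ c := by
  constructor
  · intro h1
    have h2 : π x ∈ c.map π := by rw [h.rot, List.mem_rotate]; exact h1
    rw [List.mem_map] at h2
    obtain ⟨y, hy, hxy⟩ := h2
    rw [← π.injective hxy]
    exact hy
  · intro h1
    have h2 : π x ∈ c.map π := List.mem_map_of_mem h1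
    rw [h.rot, List.mem_rotate] at h2
    exact h2

omit [Fintype D] [DecidableEq D] in
theorem CL_get {π : Perm D} {w : List D} (h : CL π w) (h0 : 0 < w.length) :
    ∀ (i : ℕ) (hi : i < w.length), w[i] = (π ^ i) w[0] := by
  intro i
  induction i with
  | zero => intro hi; rw [pow_zero, Perm.one_apply]
  | succ i ih =>
    intro hi
    have hi' : i < w.length := by omega
    have h1 : (w.map π)[i]'(by rw [List.length_map]; exact hi') = π w[i] := List.getElem_map _
    have h2 : (w.rotate 1)[i]'(by rw [List.length_rotate]; exact hi') = w[i + 1] := by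
      rw [List.getElem_rotate]
      congr 1
      exact Nat.mod_eq_of_lt hi
    have h3 : (w.map π)[i]'(by rw [List.length_map]; exact hi') =
        (w.rotate 1)[i]'(by rw [List.length_rotate]; exact hi') := by
      have := h.rot
      simp only [this]
    rw [← h2, ← h3, h1, ih hi', pow_succ', Perm.mul_apply]

omit [Fintype D] [DecidableEq D] in
theorem CL_same0 {π : Perm D} {w : List D} (h : CL π w) {x y : D} (hx : x ∈ w) (hy : y ∈ w) :
    π.SameCycle x y := by
  have h0 : 0 < w.length := List.length_pos_of_mem hx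
  have hs : ∀ x ∈ w, π.SameCycle w[0] x := by
    intro x hx
    obtain ⟨i, hi, rfl⟩ := List.getElem_of_mem hx
    exact ⟨i, by rw [zpow_natCast]; exact (CL_get h h0 i hi).symm⟩
  exact (hs x hx).symm.trans (hs y hy)

theorem CL_iff_same {π : Perm D} {c : List D} (h : CL π c) {a : D} (ha : a ∈ c) (b : D) :
    b ∈ c ↔ π.SameCycle a b := by
  constructor
  · intro hb
    exact CL_same0 h ha hb
  · rintro ⟨n, rfl⟩
    have hn : ∀ (n : ℕ) (x : D), (π ^ n) x ∈ c ↔ x ∈ c := by
      intro n
      induction n with
      | zero => intro x; rw [pow_zero, Perm.one_apply]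
      | succ n ih => intro x; rw [pow_succ', Perm.mul_apply, CL_closed h, ih]
    cases n with
    | ofNat n =>
      rw [Int.ofNat_eq_natCast, zpow_natCast, hn]
      exact ha
    | negSucc n =>
      rw [zpow_negSucc, ← hn (n + 1), ← Perm.mul_apply, mul_inv_cancel, Perm.one_apply]
      exact ha

theorem CL_rotate {π : Perm D} {c : List D} (h : CL π c) (k : ℕ) : CL π (c.rotate k) := by
  refine ⟨?_, ?_, ?_⟩
  · rw [Ne, List.rotate_eq_nil_iff]
    exact h.ne
  · rw [List.nodup_rotate]
    exact h.ndp
  · rw [List.map_rotate, h.rot, List.rotate_rotate, List.rotate_rotate, add_comm]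

theorem CL_cut {π : Perm D} {a b : D} {p q : List D} (h : CL π (a :: (p ++ b :: q))) :
    CL (π * swap a b) (a :: q) ∧ CL (π * swap a b) (b :: p) := by
  rw [CL_cons_iff] at h
  obtain ⟨h1, h2⟩ := h
  have h3 : (π a :: p.map π) ++ (π b :: q.map π) = (p ++ [b]) ++ (q ++ [a]) := by
    have : π a :: (p ++ b :: q).map π = (π a :: p.map π) ++ (π b :: q.map π) := by
      simp
    rw [← this, h2]
    simp
  obtain ⟨h4, h5⟩ := List.append_inj h3 (by simp)
  have hnd : a ∉ p ∧ a ≠ b ∧ a ∉ q ∧ b ∉ p ∧ b ∉ q ∧ p.Nodup ∧ q.Nodup := by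
    rw [List.nodup_cons, List.nodup_append, List.nodup_cons] at h1
    obtain ⟨h6, h7, ⟨h8, h9⟩, h10⟩ := h1
    simp only [List.mem_append, List.mem_cons, not_or] at h6
    refine ⟨h6.1, h6.2.1, h6.2.2, ?_, h8, h7, h9⟩
    intro hb
    exact h10 b hb b (List.mem_cons_self) rfl
  obtain ⟨n1, n2, n3, n4, n5, n6, n7⟩ := hnd
  constructor
  · rw [CL_cons_iff]
    refine ⟨List.nodup_cons.2 ⟨n3, n7⟩, ?_⟩
    rw [CL_map_frame n3 n5, Perm.mul_apply, swap_apply_left]
    exact h5
  · rw [CL_cons_iff]
    refine ⟨List.nodup_cons.2 ⟨n4, n6⟩, ?_⟩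
    rw [CL_map_frame n1 n4, Perm.mul_apply, swap_apply_right]
    exact h4

theorem CL_join {π : Perm D} {a b : D} {p q : List D} (h1 : CL π (a :: p)) (h2 : CL π (b :: q))
    (hd : b ∉ a :: p) : CL (π * swap a b) (a :: (q ++ b :: p)) := by
  have hdis : ∀ x, x ∈ a :: p → x ∉ b :: q := by
    intro x hx hx'
    apply hd
    rw [CL_iff_same h1 hx]
    exact (CL_iff_same h2 hx' b).1 List.mem_cons_self
  have haq := hdis a List.mem_cons_self
  rw [List.mem_cons, not_or] at haq hd
  have e1 := (CL_cons_iff.1 h1).2
  have e2 := (CL_cons_iff.1 h2).2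
  have d1 := List.nodup_cons.1 h1.ndp
  have d2 := List.nodup_cons.1 h2.ndp
  rw [CL_cons_iff]
  refine ⟨?_, ?_⟩
  · rw [List.nodup_cons, List.nodup_append, List.nodup_cons]
    refine ⟨?_, d2.2, ⟨hd.2, d1.2⟩, ?_⟩
    · simp only [List.mem_append, List.mem_cons, not_or]
      exact ⟨haq.2, haq.1, d1.1⟩
    · intro x hx y hy hxy
      subst hxy
      rw [List.mem_cons] at hy
      rcases hy with hy | hy
      · rw [hy] at hx
        exact d2.1 hx
      · exact hdis x (List.mem_cons_of_mem _ hy) (List.mem_cons_of_mem _ hx)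
  · rw [List.map_append, List.map_cons, CL_map_frame haq.2 d2.1, CL_map_frame d1.1 hd.2,
      Perm.mul_apply, Perm.mul_apply, swap_apply_left, swap_apply_right, ← List.cons_append, e2, e1]
    simp

theorem CL_frame {π : Perm D} {c : List D} {a b : D} (h : CL π c) (ha : a ∉ c) (hb : b ∉ c) :
    CL (π * swap a b) c := by
  refine ⟨h.ne, h.ndp, ?_⟩
  rw [CL_map_frame ha hb]
  exact h.rot

theorem CL_three {π : Perm D} {b b1 b2 : D} (h1 : π b = b1) (h2 : π b1 = b2) (h3 : π b2 = b)
    (hn : [b, b1, b2].Nodup) : CL π [b, b1, b2] := by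
  rw [CL_cons_iff]
  refine ⟨hn, ?_⟩
  simp [h1, h2, h3]

end HG39
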