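import Pool.Agent.H39.HG.Defs
import Pool.Agent.H39.HG.GlueVal
import Pool.Agent.H39.HG.GrPerm
import Pool.Agent.H39.HG.UVal
import Pool.Agent.H39.HG.ZSwap
import Pool.Agent.H39.HG.ZCL

/-!
[H39 HG UCYC]  (MP_bcc40c_pr)  Removing a unit: the number of cycles of `f * α` increases by one (the
vertex of degree one disappears, the two free triangles are two new cycles), and the relation
(same vertex) does not change on the other darts.

Setting: `PT f α bs` (partial triangulation, the legs are the darts of the free triangles `bs`), `w` a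
leaf triangle: `α (f w) = f (f w)`.  Put `z = α w`, `x = α (f z)`, `y = α (f (f z))` (so the collar is the
triangle `z, f z, f (f z)`).  The hypothesis `3 * bs.length + 6 < card D` says that there are more than
six non-legs.

Let `σ = f * α`, `σ' = f * rmv f α w`.  Values: `σ w = f z`, `σ (f z) = f x`, `σ z = f w`,
`σ (f w) = w`, `σ (f (f w)) = f (f w)` (fixed point), `σ (f (f z)) = f y`, `σ x = f (f z)`, `σ y = z`.
So in the cycles of `σ` the six darts appear as follows:  `x → f (f z) → f y`,
`y → z → f w → w → f z → f x`, and `f (f w)` alone.  `σ'` : `x → f y`, `y → f x`, on the six darts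
`σ' = f` (two 3-cycles), elsewhere `σ' = σ`.  So off the six darts `σ'` is the first return map of `σ`.
PROOF of unit_cyc.  One possibility: write `σ = σ' * s1 * ... * s5` and apply ZSwap five times:
start with `σ'`; cycles `(w, f w, f (f w))` and `(z, f z, f (f z))`;
 1. `* swap (f w) (f (f w))`: `f w → w`, `f (f w)` fixed: same cycle, +1;
 2. `* swap w z`: `w → f z`, `z → f w`: different cycles, -1: cycle `z → f w → w → f z → f (f z) → z`;
 3. `* swap (f z) (f (f z))`: `f z → z`, `f (f z)` fixed: +1;
 4. `* swap x (f (f z))`: `f (f z)` is a fixed point, inserted after `x`: -1;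
 5. `* swap y (f z)`: `f z` is in the cycle `z → f w → w → f z → z`, not containing `y`: -1;
total `cyc σ = cyc σ' - 1`.  (Check that the product of the swaps is right by evaluating both sides
at the eight darts; cyclic lists and CL_cut/CL_join/CL_frame of ZCL may be convenient for (same
cycle): e.g. after step 3 `[z, f w, w, f z]` is a cyclic list.)  Another possibility: the map
{cycles of σ} minus the fixed point `f (f w)` → {cycles of σ'} minus the two triangles.
PROOF of unit_same.  For `d ∉ six`: `σ' d = σ^k d` for some `k ≥ 1` (k = 1, 2 or 5), so SameCycle σ'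
implies SameCycle σ.  Conversely by induction on the exponent: if `d, σ^n d ∉ six` then
`SameCycle σ' d (σ^n d)`: strong induction on `n`: the next element of the `σ`-orbit of `d` outside
of `six` is `σ' d`, reached after `k` steps.
PROOF of unit_surv.  If `d ∈ six`, `d ≠ f (f w)`: `d = f (f z)`: `σ d = f y`, and `f y ∉ six`
(`y ∉ six`, six is closed under `f` and `f⁻¹`); the other four run into `f x ∉ six`.
-/

set_option autoImplicit false

namespace HG39

open Equiv

variable {D : Type} [Fintype D] [DecidableEq D]

private theorem same_of_step {π : Perm D} {R : D → D → Prop} (hR : Equivalence R)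
    (h : ∀ d, R d (π d)) {d d' : D} (hs : π.SameCycle d d') : R d d' := by
  obtain ⟨i, rfl⟩ := hs
  induction i using Int.induction_on with
  | zero => exact hR.refl _
  | succ i ih =>
    have e : (π ^ ((i : ℤ) + 1)) d = π ((π ^ (i : ℤ)) d) := by
      rw [add_comm, zpow_one_add, Perm.mul_apply]
    rw [e]
    exact hR.trans ih (h _)
  | pred i ih =>
    have e : π ((π ^ (-(i : ℤ) - 1)) d) = (π ^ (-(i : ℤ))) d := by
      rw [← Perm.mul_apply, ← zpow_one_add]
      congr 2
      ring
    have h1 := h ((π ^ (-(i : ℤ) - 1)) d)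
    rw [e] at h1
    exact hR.trans ih (hR.symm h1)

private theorem cyc_five (π : Perm D) (e : Fin 8 → D) (he : Function.Injective e)
    (h0 : π (e 0) = e 1) (h1 : π (e 1) = e 2) (h2 : π (e 2) = e 0)
    (h3 : π (e 3) = e 4) (h4 : π (e 4) = e 5) (h5 : π (e 5) = e 3) :
    cyc (π * swap (e 1) (e 2) * swap (e 0) (e 3) * swap (e 4) (e 5) * swap (e 6) (e 5) *
      swap (e 7) (e 4)) + 1 = cyc π := by
  have A : CL π [e 1, e 2, e 0] := CL_three h1 h2 h0 (by simp [he.eq_iff])
  have B : CL π [e 3, e 4, e 5] := CL_three h3 h4 h5 (by simp [he.eq_iff])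
  have s1 : π.SameCycle (e 1) (e 2) := (CL_iff_same A (by simp) _).1 (by simp)
  have c1 := cyc_swap_same π (e 1) (e 2) (by simp [he.eq_iff]) s1
  have A1 : CL (π * swap (e 1) (e 2)) [e 1, e 0] := (CL_cut (p := []) (q := [e 0]) A).1
  have B1 : CL (π * swap (e 1) (e 2)) [e 3, e 4, e 5] :=
    CL_frame B (by simp [he.eq_iff]) (by simp [he.eq_iff])
  generalize π * swap (e 1) (e 2) = π1 at *
  have A2 : CL π1 [e 0, e 1] := by simpa using CL_rotate A1 1
  have s2 : ¬ π1.SameCycle (e 0) (e 3) := fun h => by
    have := (CL_iff_same A2 (by simp) (e 3)).2 h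
    simp [he.eq_iff] at this
  have c2 := cyc_swap_diff π1 (e 0) (e 3) s2
  have J : CL (π1 * swap (e 0) (e 3)) (e 0 :: ([e 4, e 5] ++ e 3 :: [e 1])) :=
    CL_join A2 B1 (by simp [he.eq_iff])
  generalize π1 * swap (e 0) (e 3) = π2 at *
  have J' : CL π2 [e 4, e 5, e 3, e 1, e 0] := by simpa using CL_rotate J 1
  have s3 : π2.SameCycle (e 4) (e 5) := (CL_iff_same J' (by simp) _).1 (by simp)
  have c3 := cyc_swap_same π2 (e 4) (e 5) (by simp [he.eq_iff]) s3
  obtain ⟨K, L⟩ := CL_cut (a := e 4) (b := e 5) (p := []) (q := [e 3, e 1, e 0]) J'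
  generalize π2 * swap (e 4) (e 5) = π3 at *
  have s4 : ¬ π3.SameCycle (e 6) (e 5) := fun h => by
    have := (CL_iff_same L (by simp) (e 6)).2 h.symm
    simp [he.eq_iff] at this
  have c4 := cyc_swap_diff π3 (e 6) (e 5) s4
  have K4 : CL (π3 * swap (e 6) (e 5)) [e 4, e 3, e 1, e 0] :=
    CL_frame K (by simp [he.eq_iff]) (by simp [he.eq_iff])
  generalize π3 * swap (e 6) (e 5) = π4 at *
  have s5 : ¬ π4.SameCycle (e 7) (e 4) := fun h => by
    have := (CL_iff_same K4 (by simp) (e 7)).2 h.symm
    simp [he.eq_iff] at this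
  have c5 := cyc_swap_diff π4 (e 7) (e 4) s5
  omega

/-- the eight darts -/
private structure Dat (f α : Perm D) (w : D) (e : Fin 8 → D) : Prop where
  inj : Function.Injective e
  a0 : α (e 0) = e 3
  a1 : α (e 1) = e 2
  a2 : α (e 2) = e 1
  a3 : α (e 3) = e 0
  a4 : α (e 4) = e 6
  a5 : α (e 5) = e 7
  a6 : α (e 6) = e 4
  a7 : α (e 7) = e 5
  f0 : f (e 0) = e 1
  f1 : f (e 1) = e 2
  f2 : f (e 2) = e 0
  f3 : f (e 3) = e 4
  f4 : f (e 4) = e 5
  f5 : f (e 5) = e 3
  r0 : rmv f α w (e 0) = e 0
  r1 : rmv f α w (e 1) = e 1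
  r2 : rmv f α w (e 2) = e 2
  r3 : rmv f α w (e 3) = e 3
  r4 : rmv f α w (e 4) = e 4
  r5 : rmv f α w (e 5) = e 5
  r6 : rmv f α w (e 6) = e 7
  r7 : rmv f α w (e 7) = e 6
  oth : ∀ d, (∀ i, e i ≠ d) → rmv f α w d = α d
  six : ∀ d, d ∈ six f α w ↔ d = e 0 ∨ d = e 1 ∨ d = e 2 ∨ d = e 3 ∨ d = e 4 ∨ d = e 5
  last : e 2 = f (f w)
  clo : ∀ d, f d ∈ HG39.six f α w ↔ d ∈ HG39.six f α w

private theorem dat {f α : Perm D} {bs : List D} (hf : TF f) (h : PT f α bs) {w : D}
    (hw : Leaf f α w) (hN : 3 * bs.length + 6 < Fintype.card D) :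
    ∃ e : Fin 8 → D, Dat f α w e := by
  have hnd := unit_nodup hf h hw hN
  have hsix := rmv_six hf h hw hN
  have hxy := rmv_xy hf h hw hN
  have hoth := rmv_other hf h hw hN
  have hw' : α (f w) = f (f w) := hw
  refine ⟨![w, f w, f (f w), α w, f (α w), f (f (α w)), α (f (α w)), α (f (f (α w)))], ?_⟩
  constructor
  · rw [← List.nodup_ofFn]
    exact hnd
  · rfl
  · exact hw'
  · show α (f (f w)) = f w
    rw [← hw', h.inv]
  · exact h.inv w
  · rfl
  · rfl
  · exact h.inv _
  · exact h.inv _
  · rfl
  · rfl
  · exact hf.three w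
  · rfl
  · rfl
  · exact hf.three (α w)
  · exact hsix w (by simp [six])
  · exact hsix (f w) (by simp [six])
  · exact hsix (f (f w)) (by simp [six])
  · exact hsix (α w) (by simp [six])
  · exact hsix (f (α w)) (by simp [six])
  · exact hsix (f (f (α w))) (by simp [six])
  · exact hxy.1
  · exact hxy.2
  · intro d hd
    refine hoth d fun hm => ?_
    simp only [six, List.cons_append, List.nil_append, List.mem_cons, List.not_mem_nil,
      or_false] at hm
    rcases hm with hm | hm | hm | hm | hm | hm | hm | hm
    · exact hd 0 hm.symm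
    · exact hd 1 hm.symm
    · exact hd 2 hm.symm
    · exact hd 3 hm.symm
    · exact hd 4 hm.symm
    · exact hd 5 hm.symm
    · exact hd 6 hm.symm
    · exact hd 7 hm.symm
  · intro d
    simp only [six, List.mem_cons, List.not_mem_nil, or_false]
    rfl
  · rfl
  · intro d
    have h6 : six f α w = tri f [w, α w] := rfl
    rw [h6]
    exact tri_closed hf _ d

theorem unit_cyc {f α : Perm D} {bs : List D} (hf : TF f) (h : PT f α bs) {w : D}
    (hw : Leaf f α w) (hN : 3 * bs.length + 6 < Fintype.card D) :
    cyc (f * rmv f α w) = cyc (f * α) + 1 := by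
  obtain ⟨e, E⟩ := dat hf h hw hN
  have he := E.inj
  have key : f * α = f * rmv f α w * swap (e 1) (e 2) * swap (e 0) (e 3) * swap (e 4) (e 5) *
      swap (e 6) (e 5) * swap (e 7) (e 4) := by
    refine Equiv.ext fun d => ?_
    by_cases hd : ∃ i, e i = d
    · obtain ⟨i, rfl⟩ := hd
      fin_cases i
      · simp [swap_apply_def, he.eq_iff, E.a0, E.r3]
      · simp [swap_apply_def, he.eq_iff, E.a1, E.r2]
      · simp [swap_apply_def, he.eq_iff, E.a2, E.r1]
      · simp [swap_apply_def, he.eq_iff, E.a3, E.r0]
      · simp [swap_apply_def, he.eq_iff, E.a4, E.r7]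
      · simp [swap_apply_def, he.eq_iff, E.a5, E.r6]
      · simp [swap_apply_def, he.eq_iff, E.a6, E.r4]
      · simp [swap_apply_def, he.eq_iff, E.a7, E.r5]
    · have hd' : ∀ i, d ≠ e i := fun i hi => hd ⟨i, hi.symm⟩
      simp only [Perm.mul_apply]
      rw [swap_apply_of_ne_of_ne (hd' 7) (hd' 4), swap_apply_of_ne_of_ne (hd' 6) (hd' 5),
        swap_apply_of_ne_of_ne (hd' 4) (hd' 5), swap_apply_of_ne_of_ne (hd' 0) (hd' 3),
        swap_apply_of_ne_of_ne (hd' 1) (hd' 2), E.oth d fun i hi => hd ⟨i, hi⟩]
  rw [key]
  refine (cyc_five (f * rmv f α w) e he ?_ ?_ ?_ ?_ ?_ ?_).symm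
  · rw [Perm.mul_apply, E.r0, E.f0]
  · rw [Perm.mul_apply, E.r1, E.f1]
  · rw [Perm.mul_apply, E.r2, E.f2]
  · rw [Perm.mul_apply, E.r3, E.f3]
  · rw [Perm.mul_apply, E.r4, E.f4]
  · rw [Perm.mul_apply, E.r5, E.f5]

/-- the representative outside of the six darts -/
private def rho (f : Perm D) (e : Fin 8 → D) (d : D) : D :=
  if d = e 5 then f (e 7) else
    if d = e 0 ∨ d = e 1 ∨ d = e 3 ∨ d = e 4 then f (e 6) else d

private theorem rho_out {f α : Perm D} {w : D} {e : Fin 8 → D} (E : Dat f α w e) {d : D}
    (hd : d ∉ six f α w) : rho f e d = d := by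
  rw [E.six] at hd
  unfold rho
  rw [if_neg (by tauto), if_neg (by tauto)]

private theorem x_out {f α : Perm D} {w : D} {e : Fin 8 → D} (E : Dat f α w e) :
    f (e 6) ∉ six f α w ∧ f (e 7) ∉ six f α w := by
  rw [E.clo, E.clo, E.six, E.six]
  simp [E.inj.eq_iff]

private theorem rho_same {f α : Perm D} {w : D} {e : Fin 8 → D} (E : Dat f α w e) (d : D) :
    (f * α).SameCycle d (rho f e d) := by
  have st : ∀ d, (f * α).SameCycle d (f (α d)) := fun d => ⟨1, by rw [zpow_one]; rfl⟩
  have s4 : (f * α).SameCycle (e 4) (f (e 6)) := by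
    have := st (e 4)
    rwa [E.a4] at this
  have s0 : (f * α).SameCycle (e 0) (f (e 6)) := by
    have := st (e 0)
    rw [E.a0, E.f3] at this
    exact this.trans s4
  have s1 : (f * α).SameCycle (e 1) (f (e 6)) := by
    have := st (e 1)
    rw [E.a1, E.f2] at this
    exact this.trans s0
  have s3 : (f * α).SameCycle (e 3) (f (e 6)) := by
    have := st (e 3)
    rw [E.a3, E.f0] at this
    exact this.trans s1
  have s5 : (f * α).SameCycle (e 5) (f (e 7)) := by
    have := st (e 5)
    rwa [E.a5] at this
  unfold rho
  split_ifs with h1 h2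
  · rw [h1]
    exact s5
  · rcases h2 with h2 | h2 | h2 | h2
    · rw [h2]
      exact s0
    · rw [h2]
      exact s1
    · rw [h2]
      exact s3
    · rw [h2]
      exact s4
  · exact Perm.SameCycle.refl _ _

theorem unit_same {f α : Perm D} {bs : List D} (hf : TF f) (h : PT f α bs) {w : D}
    (hw : Leaf f α w) (hN : 3 * bs.length + 6 < Fintype.card D) (d d' : D)
    (hd : d ∉ six f α w) (hd' : d' ∉ six f α w) :
    (f * rmv f α w).SameCycle d d' ↔ (f * α).SameCycle d d' := by
  obtain ⟨e, E⟩ := dat hf h hw hN
  have he := E.inj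
  obtain ⟨hx, hy⟩ := x_out E
  have st : ∀ d, (f * α).SameCycle d (f (α d)) := fun d => ⟨1, by rw [zpow_one]; rfl⟩
  have st' : ∀ d, (f * rmv f α w).SameCycle d (f (rmv f α w d)) :=
    fun d => ⟨1, by rw [zpow_one]; rfl⟩
  have e6 : e 6 ∉ six f α w := fun h => hx ((E.clo _).2 h)
  have e7 : e 7 ∉ six f α w := fun h => hy ((E.clo _).2 h)
  constructor
  · intro hs
    have hR : Equivalence (fun d d' : D => (d ∉ six f α w ∧ d' ∉ six f α w ∧
        (f * α).SameCycle d d') ∨ (d ∈ six f α w ∧ d' ∈ six f α w)) := by
      refine ⟨fun d => ?_, fun {a b} h => ?_, fun {a b c} h1 h2 => ?_⟩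
      · by_cases h : d ∈ six f α w
        · exact Or.inr ⟨h, h⟩
        · exact Or.inl ⟨h, h, Perm.SameCycle.refl _ _⟩
      · rcases h with ⟨h1, h2, h3⟩ | ⟨h1, h2⟩
        · exact Or.inl ⟨h2, h1, h3.symm⟩
        · exact Or.inr ⟨h2, h1⟩
      · rcases h1 with ⟨h1, h3, h4⟩ | ⟨h1, h3⟩
        · rcases h2 with ⟨h5, h6, h7⟩ | ⟨h5, h6⟩
          · exact Or.inl ⟨h1, h6, h4.trans h7⟩
          · exact absurd h5 h3
        · rcases h2 with ⟨h5, h6, h7⟩ | ⟨h5, h6⟩
          · exact absurd h3 h5
          · exact Or.inr ⟨h1, h6⟩
    have hstep : ∀ d : D, (d ∉ six f α w ∧ (f * rmv f α w) d ∉ six f α w ∧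
        (f * α).SameCycle d ((f * rmv f α w) d)) ∨
          (d ∈ six f α w ∧ (f * rmv f α w) d ∈ six f α w) := by
      intro d
      show (d ∉ six f α w ∧ f (rmv f α w d) ∉ six f α w ∧
        (f * α).SameCycle d (f (rmv f α w d))) ∨
          (d ∈ six f α w ∧ f (rmv f α w d) ∈ six f α w)
      rw [E.clo]
      by_cases h1 : d ∈ six f α w
      · right
        refine ⟨h1, ?_⟩
        have h2 := rmv_six hf h hw hN d h1
        rw [h2]
        exact h1
      · left
        refine ⟨h1, ?_⟩
        by_cases h6 : d = e 6
        · rw [h6, E.r6]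
          refine ⟨e7, ?_⟩
          have s1 := st (e 6)
          rw [E.a6, E.f4] at s1
          have s2 := st (e 5)
          rw [E.a5] at s2
          exact s1.trans s2
        · by_cases h7 : d = e 7
          · rw [h7, E.r7]
            refine ⟨e6, ?_⟩
            have s1 := st (e 7)
            rw [E.a7, E.f5] at s1
            have s2 := rho_same E (e 3)
            have s3 : rho f e (e 3) = f (e 6) := by
              unfold rho
              rw [if_neg (by simp [he.eq_iff]), if_pos (by simp)]
            rw [s3] at s2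
            exact s1.trans s2
          · have h8 : ∀ i, e i ≠ d := by
              intro i hi
              rw [E.six] at h1
              fin_cases i
              · exact h1 (by left; exact hi.symm)
              · exact h1 (by right; left; exact hi.symm)
              · exact h1 (by right; right; left; exact hi.symm)
              · exact h1 (by right; right; right; left; exact hi.symm)
              · exact h1 (by right; right; right; right; left; exact hi.symm)
              · exact h1 (by right; right; right; right; right; exact hi.symm)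
              · exact h6 hi.symm
              · exact h7 hi.symm
            rw [E.oth d h8]
            refine ⟨fun h9 => ?_, st d⟩
            rw [E.six] at h9
            rcases h9 with h9 | h9 | h9 | h9 | h9 | h9
            · have := congrArg α h9
              rw [h.inv, E.a0] at this
              exact h8 3 this.symm
            · have := congrArg α h9
              rw [h.inv, E.a1] at this
              exact h8 2 this.symm
            · have := congrArg α h9
              rw [h.inv, E.a2] at this
              exact h8 1 this.symm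
            · have := congrArg α h9
              rw [h.inv, E.a3] at this
              exact h8 0 this.symm
            · have := congrArg α h9
              rw [h.inv, E.a4] at this
              exact h8 6 this.symm
            · have := congrArg α h9
              rw [h.inv, E.a5] at this
              exact h8 7 this.symm
    rcases same_of_step hR hstep hs with h1 | h1
    · exact h1.2.2
    · exact absurd h1.1 hd
  · intro hs
    have hR : Equivalence (fun d d' : D =>
        (f * rmv f α w).SameCycle (rho f e d) (rho f e d')) :=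
      ⟨fun d => Perm.SameCycle.refl _ _, fun h => h.symm, fun h1 h2 => h1.trans h2⟩
    have hstep : ∀ d : D, (f * rmv f α w).SameCycle (rho f e d) (rho f e ((f * α) d)) := by
      intro d
      show (f * rmv f α w).SameCycle (rho f e d) (rho f e (f (α d)))
      have q0 : rho f e (e 0) = f (e 6) := by
        unfold rho
        rw [if_neg (by simp [he.eq_iff]), if_pos (by simp)]
      have q1 : rho f e (e 1) = f (e 6) := by
        unfold rho
        rw [if_neg (by simp [he.eq_iff]), if_pos (by simp)]
      have q3 : rho f e (e 3) = f (e 6) := by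
        unfold rho
        rw [if_neg (by simp [he.eq_iff]), if_pos (by simp)]
      have q4 : rho f e (e 4) = f (e 6) := by
        unfold rho
        rw [if_neg (by simp [he.eq_iff]), if_pos (by simp)]
      have q5 : rho f e (e 5) = f (e 7) := by
        unfold rho
        rw [if_pos rfl]
      by_cases hd : ∃ i, e i = d
      · obtain ⟨i, rfl⟩ := hd
        fin_cases i
        · show (f * rmv f α w).SameCycle (rho f e (e 0)) (rho f e (f (α (e 0))))
          rw [E.a0, E.f3, q0, q4]
        · show (f * rmv f α w).SameCycle (rho f e (e 1)) (rho f e (f (α (e 1))))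
          rw [E.a1, E.f2, q1, q0]
        · show (f * rmv f α w).SameCycle (rho f e (e 2)) (rho f e (f (α (e 2))))
          rw [E.a2, E.f1]
        · show (f * rmv f α w).SameCycle (rho f e (e 3)) (rho f e (f (α (e 3))))
          rw [E.a3, E.f0, q3, q1]
        · show (f * rmv f α w).SameCycle (rho f e (e 4)) (rho f e (f (α (e 4))))
          rw [E.a4, q4, rho_out E hx]
        · show (f * rmv f α w).SameCycle (rho f e (e 5)) (rho f e (f (α (e 5))))
          rw [E.a5, q5, rho_out E hy]
        · show (f * rmv f α w).SameCycle (rho f e (e 6)) (rho f e (f (α (e 6))))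
          rw [E.a6, E.f4, q5, rho_out E e6, ← E.r6]
          exact st' (e 6)
        · show (f * rmv f α w).SameCycle (rho f e (e 7)) (rho f e (f (α (e 7))))
          rw [E.a7, E.f5, q3, rho_out E e7, ← E.r7]
          exact st' (e 7)
      · have hd6 : d ∉ six f α w := by
          intro h1
          rw [E.six] at h1
          rcases h1 with h1 | h1 | h1 | h1 | h1 | h1
          all_goals exact hd ⟨_, h1.symm⟩
        have h8 : ∀ i, e i ≠ d := fun i hi => hd ⟨i, hi⟩
        have hfd : f (α d) ∉ six f α w := by
          rw [E.clo]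
          intro h9
          rw [E.six] at h9
          rcases h9 with h9 | h9 | h9 | h9 | h9 | h9
          · have := congrArg α h9
            rw [h.inv, E.a0] at this
            exact h8 3 this.symm
          · have := congrArg α h9
            rw [h.inv, E.a1] at this
            exact h8 2 this.symm
          · have := congrArg α h9
            rw [h.inv, E.a2] at this
            exact h8 1 this.symm
          · have := congrArg α h9
            rw [h.inv, E.a3] at this
            exact h8 0 this.symm
          · have := congrArg α h9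
            rw [h.inv, E.a4] at this
            exact h8 6 this.symm
          · have := congrArg α h9
            rw [h.inv, E.a5] at this
            exact h8 7 this.symm
        rw [rho_out E hd6, rho_out E hfd, ← E.oth d h8]
        exact st' d
    have := same_of_step hR hstep hs
    rwa [rho_out E hd, rho_out E hd'] at this

theorem unit_surv {f α : Perm D} {bs : List D} (hf : TF f) (h : PT f α bs) {w : D}
    (hw : Leaf f α w) (hN : 3 * bs.length + 6 < Fintype.card D) (d : D)
    (hd : d ≠ f (f w)) : ∃ d', d' ∉ six f α w ∧ (f * α).SameCycle d d' := by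
  obtain ⟨e, E⟩ := dat hf h hw hN
  obtain ⟨hx, hy⟩ := x_out E
  refine ⟨rho f e d, ?_, rho_same E d⟩
  by_cases h1 : d ∈ six f α w
  · rw [← E.last] at hd
    rw [E.six] at h1
    unfold rho
    split_ifs with h2 h3
    · exact hy
    · exact hx
    · tauto
  · rw [rho_out E h1]
    exact h1

end HG39
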