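import Pool.Agent.H39.HG.Defs
import Pool.Agent.H39.HG.GrPerm
import Pool.Agent.H39.HG.UVal
import Pool.Agent.H39.HG.UCyc
import Pool.Agent.H39.HG.LabBasic

/-!
[H39 HG ULAB]  (MP_bcc40c_pr)  Labels survive the removal of a unit (if the source is not the vertex
of degree one of the unit).

Setting: `PT f α bs` (partial triangulation, the legs are the darts of the free triangles `bs`), `w` a
leaf triangle: `α (f w) = f (f w)`.  Put `z = α w`, `x = α (f z)`, `y = α (f (f z))` (so the collar is the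
triangle `z, f z, f (f z)`).  The hypothesis `3 * bs.length + 6 < card D` says that there are more than
six non-legs.

PROOF.  Write `α' = rmv f α w`; the non-legs of `α'` are the non-legs of `α` outside of `six`
(rmv_six, unit_nonleg; `α' d = d` for another `d` iff `α d = d`, and `α' x = y ≠ x`).
nn: clear.  lip: `ℓ (f d) ≤ ℓ d + 1` is the same statement.
ver: for `d ∉ six`, `d ≠ x, y`: `α' d = α d`.  For `d = x`: `ℓ (f x) = ℓ (α x) = ℓ (f z)`, and
`α' x = y` with `ℓ y = ℓ (α (f (f z))) = ℓ (f (f (f z))) = ℓ z`; and `ℓ z = ℓ (α w) = ℓ (f w)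
= ℓ (α (f (f w))) = ℓ (f (f (f w))) = ℓ w = ℓ (α z) = ℓ (f z)`.  So `ℓ (f x) = ℓ (f z) = ℓ z = ℓ y`.
For `d = y`: `ℓ (f y) = ℓ (α y) = ℓ (f (f z))` and `ℓ (α' y) = ℓ x = ℓ (α (f z)) = ℓ (f (f z))`.
dsc: let `d` be a non-leg of `α'` with `0 < ℓ d`; `h.dsc` gives `d1` in the `f*α`-cycle of `d`, non-leg,
descending.  If `d1 ∉ six` use unit_same.  `d1 = w`: `ℓ (f w) = ℓ w`, not descending; same for `z`
(`ℓ (f z) = ℓ z`).  `d1 = f w`: `ℓ (f (f w)) = ℓ (f w) - 1`; then `ℓ (f (f (f w))) = ℓ w = ℓ (f w)`, so the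
vertex `f (f w)` (a fixed point of `f*α`) has level `ℓ w - 1`; if it is positive, `dsc` for `f (f w)` gives a
descending dart in its cycle, which is `f (f w)` itself: `ℓ w = ℓ (f (f w)) - 1`, contradiction; so
`ℓ (f (f w)) = 0` (nn), excluded by the hypothesis.  `d1 = f (f w)`: its cycle is a single dart, so
`d = f (f w) ∈ six`, contradiction.  `d1 = f z`: descending: `ℓ (f (f z)) = ℓ (f z) - 1`.  Then `y` is
descending: `ℓ (f y) = ℓ (α y) = ℓ (f (f z))` and `ℓ y = ℓ z = ℓ (f z)`; `y ∉ six`, and `y` is in the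
cycle of `f z` (UCyc: `y → z → f w → w → f z` under `f * α`).  Use unit_same for `d` and `y`.
`d1 = f (f z)`: descending: `ℓ z = ℓ (f (f z)) - 1`.  Then `x` is descending: `ℓ (f x) = ℓ (f z) = ℓ z`, `ℓ x =
ℓ (f (f z))` and `x → f (f z)` under `f * α`, so `x` is in the cycle.
zro: two non-legs of `α'` at level 0 are in the same `f*α`-cycle, use unit_same.
ex0: a non-leg `d0` of `α` with `ℓ d0 = 0`, `d0 ≠ f (f w)`; unit_surv gives `d' ∉ six` in its cycle, lab_same
gives `ℓ d' = 0`.
-/

set_option autoImplicit false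

namespace HG39

open Equiv

variable {D : Type} [Fintype D] [DecidableEq D]

theorem unit_Lab {f α : Perm D} {bs : List D} {ℓ : D → ℤ} (hf : TF f) (h : PT f α bs) {w : D}
    (hw : Leaf f α w) (hN : 3 * bs.length + 6 < Fintype.card D) (hl : Lab f α ℓ)
    (h0 : ℓ (f (f w)) ≠ 0) : Lab f (rmv f α w) ℓ := by
  have hnd := unit_nodup hf h hw hN
  have hnl := unit_nonleg hf h hw hN
  have hr6 := rmv_six hf h hw hN
  have hro := rmv_other hf h hw hN
  have hsame := unit_same hf h hw hN
  have hsurv := unit_surv hf h hw hN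
  obtain ⟨hrx, hry⟩ := rmv_xy hf h hw hN
  have inv := h.inv
  have three := hf.three
  have hw' : α (f w) = f (f w) := hw
  have hw2 : α (f (f w)) = f w := by rw [← hw', inv]
  obtain ⟨z, hz⟩ : ∃ z, z = α w := ⟨_, rfl⟩
  have hz' : α z = w := by rw [hz, inv]
  have hsix : ∀ d, d ∈ six f α w ↔ d = w ∨ d = f w ∨ d = f (f w) ∨ d = z ∨ d = f z ∨
      d = f (f z) := by
    intro d
    unfold six
    rw [← hz]
    simp only [List.mem_cons, List.not_mem_nil, or_false]
  rw [← hz] at hnd hnl hro hrx hry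
  obtain ⟨x, hx⟩ : ∃ x, x = α (f z) := ⟨_, rfl⟩
  obtain ⟨y, hy⟩ : ∃ y, y = α (f (f z)) := ⟨_, rfl⟩
  rw [← hx, ← hy] at hnd hnl hro hrx hry
  have hx' : α x = f z := by rw [hx, inv]
  have hy' : α y = f (f z) := by rw [hy, inv]
  have hxy : x ≠ y := by
    intro hxy
    rw [List.nodup_append] at hnd
    have h1 := hnd.2.1
    rw [List.nodup_cons, List.mem_singleton] at h1
    exact h1.1 hxy
  have hx6 : x ∉ six f α w := by
    intro h1
    rw [List.nodup_append] at hnd
    exact hnd.2.2 x h1 x (by simp) rfl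
  have hy6 : y ∉ six f α w := by
    intro h1
    rw [List.nodup_append] at hnd
    exact hnd.2.2 y h1 y (by simp) rfl
  have nw : α w ≠ w := hnl w (List.mem_append_left _ ((hsix w).2 (by simp)))
  have nfw : α (f w) ≠ f w := hnl _ (List.mem_append_left _ ((hsix _).2 (by simp)))
  have nffw : α (f (f w)) ≠ f (f w) := hnl _ (List.mem_append_left _ ((hsix _).2 (by simp)))
  have nz : α z ≠ z := hnl _ (List.mem_append_left _ ((hsix _).2 (by simp)))
  have nfz : α (f z) ≠ f z := hnl _ (List.mem_append_left _ ((hsix _).2 (by simp)))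
  have nffz : α (f (f z)) ≠ f (f z) := hnl _ (List.mem_append_left _ ((hsix _).2 (by simp)))
  have nx : α x ≠ x := hnl _ (List.mem_append_right _ (by simp))
  have ny : α y ≠ y := hnl _ (List.mem_append_right _ (by simp))
  have l1 : ℓ (f w) = ℓ z := by rw [hl.ver w nw, hz]
  have l2 : ℓ w = ℓ (f w) := by
    have h1 := hl.ver _ nffw
    rw [three, hw2] at h1
    exact h1
  have l3 : ℓ (f z) = ℓ w := by rw [hl.ver z nz, hz']
  have l4 : ℓ (f (f z)) = ℓ x := by rw [hl.ver _ nfz, hx]
  have l5 : ℓ z = ℓ y := by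
    have h1 := hl.ver _ nffz
    rw [three, ← hy] at h1
    exact h1
  have l6 : ℓ (f x) = ℓ (f z) := by rw [hl.ver x nx, hx']
  have l7 : ℓ (f y) = ℓ (f (f z)) := by rw [hl.ver y ny, hy']
  have A1 : ∀ d, rmv f α w d ≠ d → d ∉ six f α w ∧ α d ≠ d := by
    intro d hd
    have h6 : d ∉ six f α w := fun h1 => hd (hr6 d h1)
    refine ⟨h6, ?_⟩
    by_cases hdx : d = x
    · rw [hdx]
      exact nx
    · by_cases hdy : d = y
      · rw [hdy]
        exact ny
      · rw [hro d (by
          rw [List.mem_append]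
          rintro (h1 | h1)
          · exact h6 h1
          · simp only [List.mem_cons, List.not_mem_nil, or_false] at h1
            exact h1.elim hdx hdy)] at hd
        exact hd
  have A2 : ∀ d, d ∉ six f α w → α d ≠ d → rmv f α w d ≠ d := by
    intro d h6 hd
    by_cases hdx : d = x
    · rw [hdx, hrx]
      exact hxy.symm
    · by_cases hdy : d = y
      · rw [hdy, hry]
        exact hxy
      · rw [hro d (by
          rw [List.mem_append]
          rintro (h1 | h1)
          · exact h6 h1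
          · simp only [List.mem_cons, List.not_mem_nil, or_false] at h1
            exact h1.elim hdx hdy)]
        exact hd
  have step : ∀ d, (f * α).SameCycle d (f (α d)) := fun d => ⟨1, by simp⟩
  have fixw : Function.IsFixedPt (f * α) (f (f w)) := by
    show f (α (f (f w))) = f (f w)
    rw [hw2]
  refine ⟨?_, ?_, ?_, ?_, ?_, ?_⟩
  · intro d hd
    exact hl.nn d (A1 d hd).2
  · intro d hd
    obtain ⟨h6, hn⟩ := A1 d hd
    by_cases hdx : d = x
    · rw [hdx, hrx, l6, l3, l2, l1, l5]
    · by_cases hdy : d = y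
      · rw [hdy, hry, l7, l4]
      · rw [hro d (by
          rw [List.mem_append]
          rintro (h1 | h1)
          · exact h6 h1
          · simp only [List.mem_cons, List.not_mem_nil, or_false] at h1
            exact h1.elim hdx hdy)]
        exact hl.ver d hn
  · intro d hd
    exact hl.lip d (A1 d hd).2
  · intro d hd hpos
    obtain ⟨h6, hn⟩ := A1 d hd
    have fin : ∀ e, e ∉ six f α w → α e ≠ e → Desc f ℓ e → (f * α).SameCycle d e →
        ∃ d', (f * rmv f α w).SameCycle d d' ∧ rmv f α w d' ≠ d' ∧ Desc f ℓ d' :=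
      fun e he hne hde hse => ⟨e, (hsame d e h6 he).2 hse, A2 e he hne, hde⟩
    obtain ⟨d1, hs1, hn1, hd1⟩ := hl.dsc d hn hpos
    by_cases h16 : d1 ∈ six f α w
    · have hd1' : ℓ (f d1) = ℓ d1 - 1 := hd1
      rcases (hsix d1).1 h16 with h1 | h1 | h1 | h1 | h1 | h1
      · rw [h1] at hd1'
        omega
      · rw [h1] at hd1'
        have h2 := hl.nn _ nffw
        obtain ⟨d2, hs2, hn2, hd2⟩ := hl.dsc _ nffw (lt_of_le_of_ne h2 h0.symm)
        have h3 := hs2.eq_of_left fixw
        have hd2' : ℓ (f d2) = ℓ d2 - 1 := hd2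
        rw [← h3, three] at hd2'
        omega
      · rw [h1] at hs1
        have h3 := hs1.symm.eq_of_left fixw
        exact absurd ((hsix d).2 (by simp [← h3])) h6
      · rw [h1] at hd1'
        omega
      · rw [h1] at hd1' hs1
        have s1 := step y
        rw [hy', three] at s1
        have s2 := step z
        rw [hz'] at s2
        have s3 := step (f w)
        rw [hw', three] at s3
        have s4 := step w
        rw [← hz] at s4
        have s5 : (f * α).SameCycle y (f z) := ((s1.trans s2).trans s3).trans s4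
        refine fin y hy6 ny ?_ (hs1.trans s5.symm)
        show ℓ (f y) = ℓ y - 1
        omega
      · rw [h1] at hd1' hs1
        rw [three] at hd1'
        have s1 := step x
        rw [hx'] at s1
        refine fin x hx6 nx ?_ (hs1.trans s1.symm)
        show ℓ (f x) = ℓ x - 1
        omega
    · exact fin d1 h16 hn1 hd1 hs1
  · intro d d' hd hd' hld hld'
    obtain ⟨h6, hn⟩ := A1 d hd
    obtain ⟨h6', hn'⟩ := A1 d' hd'
    exact (hsame d d' h6 h6').2 (hl.zro d d' hn hn' hld hld')
  · obtain ⟨d0, hn0, hl0⟩ := hl.ex0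
    have hne : d0 ≠ f (f w) := by
      intro h1
      rw [h1] at hl0
      exact h0 hl0
    obtain ⟨d', h6', hs'⟩ := hsurv d0 hne
    obtain ⟨hl', hn'⟩ := lab_same hf h hl d0 d' hn0 hs'
    exact ⟨d', A2 d' h6' hn', by rw [← hl', hl0]⟩

end HG39
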