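import Pool.Agent.H39.HG.Defs
import Pool.Agent.H39.HG.GrPerm
import Pool.Agent.H39.HG.EmbBasic
import Pool.Agent.H39.HG.ScanLev
import Pool.Agent.H39.HG.SlcBasic
import Pool.Agent.H39.HG.LabBasic
import Pool.Agent.H39.HG.RotAll

/-!
[H39 HG UNIQ]  (MP_bcc40c_pr)  A slice is determined by the labels, its base and its left boundary.

Let `S1 = Slc f α ℓ r e T1 bs1 lv1 pr1 As Bs1`, `S2 = Slc f α ℓ r e T2 bs2 lv2 pr2 As Bs2` (same `f α ℓ r
e As`).  Then `T1 = T2`, `bs1 = bs2`, `lv1 = lv2`.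

Define the exploration (contour order, `V` = up leaves met so far):
  def Ex (f α) (A : D → Prop) : Tr → D → List D → List D → Prop
    | u, y, V, V' => V' = y :: V
    | d, y, V, V' => (A y ∨ α y ∈ V) ∧ V' = V
    | nd a b, y, V, V' => ¬ A y ∧ α y ∉ V ∧ ∃ V1, Ex a (f (α y)) V V1 ∧ Ex b (f (f (α y))) V1 V'
STEP 1 (ex_of_emb).  For an embedded tree `τ` on `y` which is a part of the contour of a slice, `Ex` holds
with `A = (· ∈ As)`.  Induction on `Emb`, keeping the scan state: Let `W = LV.map fst` be the whole list of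
leaves of the slice, no repetition, and no leaf is a root (emb_perm and ndp: leaves, roots and `α roots`
are distinct darts of `P` minus `e`).  State: a prefix of LV has been read, `st` is the stack and `V`
contains all elements of `st`, and `V` consists of leaves.  Leaf `u`: push.  Leaf `d` at `y`: if the stack is
`x :: st'` then `(x, y) ∈ pr`, so `α y = x ∈ V` (`mt`); if the stack is empty then `y ∈ As`.  Node at `y`:
`y = α b0` is in `bs.map α`, not a leaf, so `y ∉ As`; `α y = b0 ∈ bs` is a root, so it is not in `V`.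
(The root node `nd d T` on `f e`: `f e = α b1`.)
STEP 2 (ex_unique).  If `Emb f α ℓ τ1 y rs1 l1`, `Emb f α ℓ τ2 y rs2 l2`, `Ex τ1 y V V1`, `Ex τ2 y V V2` then
`τ1 = τ2`, `V1 = V2`, `rs1 = rs2`, `l1 = l2`.  Induction on `τ1`: the weights agree (emb_wt: both are
`ℓ (f y) - ℓ y`).  weight 1: both are `u` (a node has weight 0 or -1).  weight -1: leaf `d` or node: decided
by `A y ∨ α y ∈ V`; weight 0: both nodes.  Two nodes: same root `α y`; induction for the left subtrees on
`f (α y)` with `V`, then for the right ones.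
-/

set_option autoImplicit false

namespace HG39

open Equiv

variable {D : Type} [Fintype D] [DecidableEq D]

/-- exploration -/
def Ex (f α : Perm D) (A : D → Prop) : Tr → D → List D → List D → Prop
  | .u, y, V, V' => V' = y :: V
  | .d, y, V, V' => (A y ∨ α y ∈ V) ∧ V' = V
  | .nd a b, y, V, V' => ¬ A y ∧ α y ∉ V ∧ ∃ V1, Ex f α A a (f (α y)) V V1 ∧
      Ex f α A b (f (f (α y))) V1 V'

theorem ex_of_emb {f α : Perm D} {ℓ : D → ℤ} (A W : D → Prop) {τ : Tr} {y : D} {rs : List D}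
    {l : List (D × Bool)} (h : Emb f α ℓ τ y rs l) : ∀ (post : List (D × Bool)) (st V : List D),
    (∀ b ∈ rs, ¬ A (α b)) → (∀ b ∈ rs, ¬ W b) → (∀ p ∈ l, W p.1) →
    (∀ p ∈ (scan (l ++ post) st).1, α p.2 = p.1) → (∀ a ∈ (scan (l ++ post) st).2.1, A a) →
    (∀ x ∈ st, x ∈ V) → (∀ v ∈ V, W v) →
    ∃ V' st', Ex f α A τ y V V' ∧ (∀ v ∈ V', W v) ∧ (∀ x ∈ st', x ∈ V') ∧
      (∀ p ∈ (scan post st').1, α p.2 = p.1) ∧ (∀ a ∈ (scan post st').2.1, A a) := by
  induction h with
  | u y h =>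
    intro post st V _ _ hW hp ha hst hV
    refine ⟨y :: V, y :: st, rfl, ?_, ?_, ?_, ?_⟩
    · intro v hv
      rcases List.mem_cons.1 hv with rfl | hv
      · exact hW (v, true) (by simp)
      · exact hV v hv
    · intro x hx
      rcases List.mem_cons.1 hx with rfl | hx
      · exact List.mem_cons_self
      · exact List.mem_cons_of_mem _ (hst x hx)
    · intro p h1
      exact hp p (by simpa [scan] using h1)
    · intro a h1
      exact ha a (by simpa [scan] using h1)
  | d y h =>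
    intro post st V _ _ hW hp ha hst hV
    cases st with
    | nil =>
      refine ⟨V, [], ⟨Or.inl ?_, rfl⟩, hV, by simp, ?_, ?_⟩
      · exact ha y (by simp [scan])
      · intro p h1
        exact hp p (by simpa [scan] using h1)
      · intro a h1
        exact ha a (by simp [scan, h1])
    | cons x st =>
      refine ⟨V, st, ⟨Or.inr ?_, rfl⟩, hV, fun z hz => hst z (List.mem_cons_of_mem _ hz), ?_, ?_⟩
      · have := hp (x, y) (by simp [scan])
        simp only at this
        rw [this]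
        exact hst x List.mem_cons_self
      · intro p h1
        exact hp p (by simp [scan, h1])
      · intro a h1
        exact ha a (by simpa [scan] using h1)
  | nd a b y b0 ra rb la lb h1 h2 h3 h4 hw ha hb iha ihb =>
    intro post st V hA hR hW hp hau hst hV
    have e1 : la ++ lb ++ post = la ++ (lb ++ post) := by simp
    rw [e1] at hp hau
    obtain ⟨V1, st1, k1, k2, k3, k4, k5⟩ := iha (lb ++ post) st V
      (fun b hb' => hA b (by simp [hb'])) (fun b hb' => hR b (by simp [hb']))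
      (fun p hp' => hW p (by simp [hp'])) hp hau hst hV
    obtain ⟨V2, st2, l1, l2, l3, l4, l5⟩ := ihb post st1 V1
      (fun b hb' => hA b (by simp [hb'])) (fun b hb' => hR b (by simp [hb']))
      (fun p hp' => hW p (by simp [hp'])) k4 k5 k3 k2
    refine ⟨V2, st2, ⟨?_, ?_, V1, ?_, ?_⟩, l2, l3, l4, l5⟩
    · have := hA b0 (by simp)
      rwa [h2] at this
    · intro hb0
      rw [h1] at hb0
      exact hR b0 (by simp) (hV _ hb0)
    · rw [h1]; exact k1
    · rw [h1]; exact l1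

theorem ex_unique {f α : Perm D} {ℓ : D → ℤ} (hf : TF f) (A : D → Prop) {τ1 : Tr} {y : D}
    {rs1 : List D} {l1 : List (D × Bool)} (h : Emb f α ℓ τ1 y rs1 l1) :
    ∀ (τ2 : Tr) (rs2 : List D) (l2 : List (D × Bool)) (V V1 V2 : List D),
    Emb f α ℓ τ2 y rs2 l2 → Ex f α A τ1 y V V1 → Ex f α A τ2 y V V2 →
    τ1 = τ2 ∧ V1 = V2 ∧ rs1 = rs2 ∧ l1 = l2 := by
  induction h with
  | u y h =>
    intro τ2 rs2 l2 V V1 V2 h2 x1 x2
    cases h2 with
    | u _ h' =>
      simp only [Ex] at x1 x2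
      rw [x1, x2]
      exact ⟨rfl, rfl, rfl, rfl⟩
    | d _ h' => omega
    | nd a b _ b0 ra rb la lb h1 h2 h3 h4 hw ha hb =>
      exfalso
      have := emb_wt hf (Emb.nd a b y b0 ra rb la lb h1 h2 h3 h4 hw ha hb)
      simp only [Tr.wt] at this
      omega
  | d y h =>
    intro τ2 rs2 l2 V V1 V2 h2 x1 x2
    cases h2 with
    | u _ h' => omega
    | d _ h' =>
      simp only [Ex] at x1 x2
      rw [x1.2, x2.2]
      exact ⟨rfl, rfl, rfl, rfl⟩
    | nd a b _ b0 ra rb la lb h1 h2 h3 h4 hw ha hb =>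
      exfalso
      simp only [Ex] at x1 x2
      rcases x1.1 with h5 | h5
      · exact x2.1 h5
      · exact x2.2.1 h5
  | nd a b y b0 ra rb la lb h1 h2 h3 h4 hw ha hb iha ihb =>
    intro τ2 rs2 l2 V V1 V2 k2 x1 x2
    cases k2 with
    | u _ h' =>
      exfalso
      have := emb_wt hf (Emb.nd a b y b0 ra rb la lb h1 h2 h3 h4 hw ha hb)
      simp only [Tr.wt] at this
      omega
    | d _ h' =>
      exfalso
      simp only [Ex] at x1 x2
      rcases x2.1 with h5 | h5
      · exact x1.1 h5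
      · exact x1.2.1 h5
    | nd a' b' _ b0' ra' rb' la' lb' h1' h2' h3' h4' hw' ha' hb' =>
      simp only [Ex] at x1 x2
      obtain ⟨_, _, U1, u1, u2⟩ := x1
      obtain ⟨_, _, U2, w1, w2⟩ := x2
      have hb0 : b0' = b0 := by rw [← h1', ← h1]
      subst hb0
      rw [h1] at u1 u2 w1 w2
      obtain ⟨r1, r2, r3, r4⟩ := iha _ _ _ _ _ _ ha' u1 w1
      subst r1 r2 r3 r4
      obtain ⟨r1, r2, r3, r4⟩ := ihb _ _ _ _ _ _ hb' u2 w2
      subst r1 r2 r3 r4
      exact ⟨rfl, rfl, rfl, rfl⟩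

theorem slc_ex {f α : Perm D} {ℓ : D → ℤ} (hf : TF f) {r : ℕ} {e : D} {T : Tr} {bs : List D}
    {lv : List (D × Bool)} {pr : List (D × D)} {As Bs : List D}
    (h : Slc f α ℓ r e T bs lv pr As Bs) :
    ∃ V, Ex f α (fun a => a ∈ As) (.nd .d T) (f e) [] V := by
  have hp := (slc_perm hf h).nodup_iff.2 h.ndp
  have hq := (emb_perm h.emb).nodup_iff.2 (by
    have := h.ndp
    simp only [tri, List.flatMap_cons, List.cons_append, List.nil_append] at this
    rw [List.nodup_cons, List.nodup_cons, List.nodup_cons] at this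
    rw [List.nodup_cons]
    refine ⟨?_, this.2.2.2⟩
    intro hh
    exact this.2.1 (List.mem_cons_of_mem _ hh))
  have c1 : ∀ b ∈ bs, ¬ (α b ∈ As) := by
    intro b hb hA
    rw [List.nodup_cons] at hp
    have h1 := hp.2
    rw [List.nodup_append] at h1
    refine h1.2.2 (α b) ?_ (α b) (List.mem_map_of_mem hb) rfl
    simp only [List.mem_append]
    tauto
  have c2 : ∀ b ∈ bs, ¬ (b ∈ lv.map Prod.fst) := by
    intro b hb hW
    rw [List.nodup_append, List.nodup_append] at hq
    exact hq.1.2.2 b hW b hb rfl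
  have c3 : ∀ p ∈ lv, p.1 ∈ lv.map Prod.fst := by
    intro p hp'
    exact List.mem_map_of_mem hp'
  have c4 : ∀ p ∈ (scan (lv ++ [(f (f e), true)]) []).1, α p.2 = p.1 := by
    rw [h.sc]
    intro p hp'
    exact (h.mt p hp').2
  have c5 : ∀ a ∈ (scan (lv ++ [(f (f e), true)]) []).2.1, a ∈ As := by
    rw [h.sc]
    intro a ha
    exact ha
  obtain ⟨V, _, hV, _⟩ := ex_of_emb (fun a => a ∈ As) (fun v => v ∈ lv.map Prod.fst) h.emb
    [(f (f e), true)] [] [] c1 c2 c3 c4 c5 (by simp) (by simp)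
  exact ⟨V, hV⟩

theorem slc_unique {f α : Perm D} {ℓ : D → ℤ} (hf : TF f) {r : ℕ} {e : D} {T1 T2 : Tr}
    {bs1 bs2 : List D} {lv1 lv2 : List (D × Bool)} {pr1 pr2 : List (D × D)}
    {As Bs1 Bs2 : List D} (h1 : Slc f α ℓ r e T1 bs1 lv1 pr1 As Bs1)
    (h2 : Slc f α ℓ r e T2 bs2 lv2 pr2 As Bs2) : T1 = T2 ∧ bs1 = bs2 ∧ lv1 = lv2 := by
  obtain ⟨V1, x1⟩ := slc_ex hf h1
  obtain ⟨V2, x2⟩ := slc_ex hf h2
  obtain ⟨r1, r2, r3, r4⟩ := ex_unique hf _ h1.emb _ _ _ _ _ _ h2.emb x1 x2
  refine ⟨?_, r3, r4⟩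
  injection r1

end HG39
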