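import Pool.Agent.H39.HG.Defs
import Pool.Agent.H39.HG.GrPerm
import Pool.Agent.H39.HG.EmbBasic
import Pool.Agent.H39.HG.EmbConn
import Pool.Agent.H39.HG.ScanLev
import Pool.Agent.H39.HG.LabBasic
import Pool.Agent.H39.HG.SlcBasic
import Pool.Agent.H39.HG.Uniq
import Pool.Agent.H39.HG.GraphA
import Pool.Agent.H39.HG.GraphLab
import Pool.Agent.H39.HG.TenLoop
import Pool.Agent.H39.HG.TenLab

/-!
[H39 HG TENMULT]  (MP_bcc40c_pr)  For a given base there are at most `6 K` types of tentacles.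

slc_alpha: `Slc` for `α` implies `Slc` for `α'` if `α' = α` on `tri f (e :: bs)` except at `e` (emb_congr: the
roots and the attaching darts are in `tri f (e :: bs)` and different from `e`; `mt`).
ten_alpha: the same for `Ten` if moreover `α' w ∉ tri f (w :: bs)`.
slc_lab: `Slc` for the labels `ℓ` implies `Slc` for labels `ℓ'` which agree with `ℓ` on `tri f (e :: bs)`
(emb_congr; only labels of darts of the slice are used).
ten_set: two tentacles with the same base `w` have the same set of darts: let `P1 = tri f (w :: bs1)`,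
`P2`; slc_conn for the first one with `Q d := d ∈ P2`: closed under `f`; if `d ∈ P1 ∩ P2`, `α d ∈ P1` then
`d ≠ w` (`out`), so `α d ∈ P2` (ten_closed for the second); `w ∈ P1 ∩ P2`.  So `P1 ⊆ P2`, symmetric.
ten_mult: to a type `T` assign the apex `a = f A ∈ P` (`A` the last element of `As`).  If `T1`, `T2` have the
same apex `a`, then `T1 = T2`: with `ℓ' d = dst a d` both slices are slices for `ℓ'` (`ℓ1`, `ℓ2` are equal to
`ℓ'` on `P`, ten_lab, slc_lab), `As1 = As2`: same head `f (α (f w))` (slc_heads), both leftmost geodesics of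
length `r` for `ℓ'` (ten_lab, geo_unique); slc_unique.  So the number of types is at most `#P = 6 K - 3`
(`P` is the same for all types by ten_set; ten_size).
-/

set_option autoImplicit false

namespace HG39

open Equiv

variable {D : Type} [Fintype D] [DecidableEq D]

/-- the entries of a slice are in its triangles and different from the base -/
theorem tm_mem {f α : Perm D} {ℓ : D → ℤ} (hf : TF f) {r : ℕ} {e : D} {T : Tr}
    {bs : List D} {lv : List (D × Bool)} {pr : List (D × D)} {As Bs : List D}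
    (h : Slc f α ℓ r e T bs lv pr As Bs) (d : D)
    (hd : d ∈ ent pr ∨ d ∈ As ∨ d ∈ Bs ∨ d ∈ bs ∨ d ∈ bs.map α) :
    d ∈ tri f (e :: bs) ∧ d ≠ e := by
  have hp := slc_perm hf h
  have hn := hp.nodup_iff.2 h.ndp
  have hd' : d ∈ ent pr ++ As ++ Bs ++ bs ++ bs.map α := by
    simp only [List.mem_append]
    tauto
  refine ⟨?_, ?_⟩
  · rw [← hp.mem_iff]
    exact List.mem_cons_of_mem _ hd'
  · rintro rfl
    exact (List.nodup_cons.1 hn).1 hd'

theorem tm_ent {pr : List (D × D)} {p : D × D} (hp : p ∈ pr) : p.1 ∈ ent pr ∧ p.2 ∈ ent pr := by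
  unfold ent
  simp only [List.mem_flatMap]
  exact ⟨⟨p, hp, by simp⟩, ⟨p, hp, by simp⟩⟩

theorem slc_alpha {f α α' : Perm D} {ℓ : D → ℤ} (hf : TF f) {r : ℕ} {e : D} {T : Tr}
    {bs : List D} {lv : List (D × Bool)} {pr : List (D × D)} {As Bs : List D}
    (h : Slc f α ℓ r e T bs lv pr As Bs)
    (h' : ∀ d ∈ tri f (e :: bs), d ≠ e → α' d = α d) : Slc f α' ℓ r e T bs lv pr As Bs := by
  refine ⟨h.rp, h.okT, h.wtT, h.htT, ?_, h.ndp, h.sc, ?_, h.le, h.lfe⟩
  · refine emb_congr hf h.emb (fun _ _ => rfl) rfl fun b hb => ?_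
    obtain ⟨h1, h2⟩ := tm_mem hf h b (by tauto)
    obtain ⟨h3, h4⟩ := tm_mem hf h (α b) (by
      right; right; right; right
      exact List.mem_map_of_mem hb)
    exact ⟨h' b h1 h2, by rw [h' _ h3 h4]; exact (emb_ver h.emb b hb).1⟩
  · intro p hp
    obtain ⟨h5, h6⟩ := tm_ent hp
    obtain ⟨h1, h2⟩ := tm_mem hf h p.1 (Or.inl h5)
    obtain ⟨h3, h4⟩ := tm_mem hf h p.2 (Or.inl h6)
    rw [h' _ h1 h2, h' _ h3 h4]
    exact h.mt p hp

theorem slc_lab {f α : Perm D} {ℓ ℓ' : D → ℤ} (hf : TF f) {r : ℕ} {e : D} {T : Tr}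
    {bs : List D} {lv : List (D × Bool)} {pr : List (D × D)} {As Bs : List D}
    (h : Slc f α ℓ r e T bs lv pr As Bs)
    (h' : ∀ d ∈ tri f (e :: bs), ℓ' d = ℓ d) : Slc f α ℓ' r e T bs lv pr As Bs := by
  have m0 : e ∈ tri f (e :: bs) := (mem_tri f _ _).2 ⟨e, List.mem_cons_self, Or.inl rfl⟩
  have m1 : f e ∈ tri f (e :: bs) := (tri_closed hf _ _).2 m0
  have m2 : f (f e) ∈ tri f (e :: bs) := (tri_closed hf _ _).2 m1
  refine ⟨h.rp, h.okT, h.wtT, h.htT, ?_, h.ndp, h.sc, h.mt, ?_, ?_⟩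
  · refine emb_congr hf h.emb (fun d hd => ?_) (h' _ m2) fun b hb =>
      ⟨rfl, (emb_ver h.emb b hb).1⟩
    rcases List.mem_cons.1 hd with h1 | h1
    · rw [h1]
      exact h' _ m1
    · refine h' d ?_
      rw [mem_tri] at h1 ⊢
      obtain ⟨b, hb, h1⟩ := h1
      exact ⟨b, List.mem_cons_of_mem _ hb, h1⟩
  · rw [h' _ m0]
    exact h.le
  · rw [h' _ m1]
    exact h.lfe

theorem ten_alpha {f α α' : Perm D} {ℓ : D → ℤ} (hf : TF f) {r : ℕ} {w : D} {T : Tr}
    {bs : List D} {lv : List (D × Bool)} {pr : List (D × D)} {As Bs : List D}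
    (h : Ten f α ℓ r w T bs lv pr As Bs)
    (h' : ∀ d ∈ tri f (w :: bs), d ≠ w → α' d = α d) (hw : α' w ∉ tri f (w :: bs)) :
    Ten f α' ℓ r w T bs lv pr As Bs := by
  refine ⟨slc_alpha hf h.slc h', fun p hp => ?_, hw⟩
  have h0 := List.of_mem_zip (show (p.1, p.2) ∈ As.zip Bs from hp)
  obtain ⟨h1, h2⟩ := tm_mem hf h.slc p.1 (Or.inr (Or.inl h0.1))
  obtain ⟨h3, h4⟩ := tm_mem hf h.slc p.2 (Or.inr (Or.inr (Or.inl h0.2)))
  rw [h' _ h1 h2, h' _ h3 h4]
  exact h.cl p hp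

theorem ten_sub {f α : Perm D} {ℓ ℓ' : D → ℤ} (hf : TF f) (hα : PT f α []) {r : ℕ} {w : D}
    {T T' : Tr} {bs bs' : List D} {lv lv' : List (D × Bool)} {pr pr' : List (D × D)}
    {As Bs As' Bs' : List D} (h : Ten f α ℓ r w T bs lv pr As Bs)
    (h' : Ten f α ℓ' r w T' bs' lv' pr' As' Bs') :
    ∀ d ∈ tri f (w :: bs), d ∈ tri f (w :: bs') := by
  refine slc_conn hf h.slc (fun d => d ∈ tri f (w :: bs')) ?_ ?_ ?_
  · intro d _ hd
    exact (tri_closed hf _ _).2 hd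
  · intro d hd1 hd2 hd3
    have hdw : d ≠ w := by
      rintro rfl
      exact h.out hd3
    exact (ten_closed hf hα h' d hd2 hdw).1
  · exact ⟨w, (mem_tri f _ _).2 ⟨w, List.mem_cons_self, Or.inl rfl⟩,
      (mem_tri f _ _).2 ⟨w, List.mem_cons_self, Or.inl rfl⟩⟩

theorem ten_set {f α : Perm D} {ℓ ℓ' : D → ℤ} (hf : TF f) (hα : PT f α []) {r : ℕ} {w : D}
    {T T' : Tr} {bs bs' : List D} {lv lv' : List (D × Bool)} {pr pr' : List (D × D)}
    {As Bs As' Bs' : List D} (h : Ten f α ℓ r w T bs lv pr As Bs)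
    (h' : Ten f α ℓ' r w T' bs' lv' pr' As' Bs') (d : D) :
    d ∈ tri f (w :: bs) ↔ d ∈ tri f (w :: bs') :=
  ⟨ten_sub hf hα h h' d, ten_sub hf hα h' h d⟩

theorem ten_mult_inj {f α : Perm D} {ℓ ℓ' : D → ℤ} (hf : TF f) (hα : PT f α []) {r : ℕ} {w : D}
    {T T' : Tr} {bs bs' : List D} {lv lv' : List (D × Bool)} {pr pr' : List (D × D)}
    {As Bs As' Bs' Cs Cs' : List D} {A A' : D} (h : Ten f α ℓ r w T bs lv pr As Bs)
    (h' : Ten f α ℓ' r w T' bs' lv' pr' As' Bs') (hA : As = Cs ++ [A]) (hA' : As' = Cs' ++ [A'])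
    (he : f A = f A') : T = T' := by
  obtain ⟨_, a2, _, a4⟩ := ten_lab hf hα h hA
  obtain ⟨_, b2, _, b4⟩ := ten_lab hf hα h' hA'
  rw [← he] at b2 b4
  have s1 := slc_lab hf h.slc (ℓ' := fun d => (dst f α (f A) d : ℤ)) a2
  have s2 := slc_lab hf h'.slc (ℓ' := fun d => (dst f α (f A) d : ℤ)) b2
  obtain ⟨⟨Ds, hD⟩, _⟩ := slc_heads hf h.slc
  obtain ⟨⟨Ds', hD'⟩, _⟩ := slc_heads hf h'.slc
  obtain ⟨_, l1, _⟩ := slc_len hf h.slc
  obtain ⟨_, l2, _⟩ := slc_len hf h'.slc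
  have hDs : Ds = Ds' := by
    refine geo_unique (f (α (f w))) Ds Ds' (by rw [← hD]; exact a4) (by rw [← hD']; exact b4) ?_
    rw [← hD, ← hD', l1, l2]
  have hAs : As = As' := by rw [hD, hD', hDs]
  subst hAs
  exact (slc_unique hf s1 s2).1

theorem ten_mult {f α : Perm D} (hf : TF f) (hα : PT f α []) (r K : ℕ) (w : D) :
    {T | Adm r K T ∧ TenW f α r w T}.Finite ∧
    {T | Adm r K T ∧ TenW f α r w T}.ncard ≤ 6 * K := by
  set S := {T | Adm r K T ∧ TenW f α r w T} with hS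
  rcases S.eq_empty_or_nonempty with h0 | ⟨T0, hT0⟩
  · rw [h0]
    simp
  obtain ⟨ℓ0, bs0, lv0, pr0, As0, Bs0, h0⟩ := hT0.2
  have key : ∀ T ∈ S, ∃ a ∈ tri f (w :: bs0), ∃ (ℓ : D → ℤ) (bs : List D)
      (lv : List (D × Bool)) (pr : List (D × D)) (As Bs Cs : List D) (A : D),
      Ten f α ℓ r w T bs lv pr As Bs ∧ As = Cs ++ [A] ∧ a = f A := by
    intro T hT
    obtain ⟨ℓ, bs, lv, pr, As, Bs, h⟩ := hT.2
    have h1 := (slc_len hf h.slc).2.1
    have h2 := h.slc.rp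
    rcases List.eq_nil_or_concat' As with h3 | ⟨Cs, A, h3⟩
    · rw [h3] at h1
      simp only [List.length_nil] at h1
      omega
    · refine ⟨f A, ?_, ℓ, bs, lv, pr, As, Bs, Cs, A, h, h3, rfl⟩
      rw [← ten_set hf hα h h0]
      exact (ten_lab hf hα h h3).1
  have hne : Nonempty D := ⟨w⟩
  choose! ap hap ht using key
  have hinj : Set.InjOn ap S := by
    intro T hT T' hT' he
    obtain ⟨ℓ, bs, lv, pr, As, Bs, Cs, A, h, h1, h2⟩ := ht T hT
    obtain ⟨ℓ', bs', lv', pr', As', Bs', Cs', A', h', h1', h2'⟩ := ht T' hT'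
    exact ten_mult_inj hf hα h h' h1 h1' (by rw [← h2, ← h2', he])
  refine ⟨Set.Finite.of_finite_image (Set.toFinite _) hinj, ?_⟩
  have h1 : S.ncard ≤ ((tri f (w :: bs0)).toFinset : Set D).ncard := by
    refine Set.ncard_le_ncard_of_injOn ap (fun T hT => ?_) hinj (Set.toFinite _)
    rw [Finset.mem_coe, List.mem_toFinset]
    exact hap T hT
  rw [Set.ncard_coe_finset] at h1
  have h2 := List.toFinset_card_le (tri f (w :: bs0))
  have h3 := (ten_size hf hT0.1 h0).1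
  omega

end HG39
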