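import Pool.Agent.H39.HG.Defs

/-!
[H39 HG TSETS]  (MP_bcc40c_pr)  Trees of bounded depth and their generating functions.

`(LD k).1`: trees of weight 0, `(LD k).2`: trees of weight -1, of depth at most `k`:
 L_0 = D_0 = ∅,  L_{k+1} = {nd a b | a, b ∈ L_k} ∪ {nd u b | b ∈ D_k} ∪ {nd a u | a ∈ D_k},
 D_{k+1} = {d} ∪ {nd a b | a ∈ L_k, b ∈ D_k} ∪ {nd b a | b ∈ D_k, a ∈ L_k}.
PROOFS.  LD_prop: induction; heights: `ht (nd a b) = max (ht a) (ht b - wt a)`: `a, b ∈ L_k`: `≤ k`;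
`nd u b`: `max 0 (ht b - 1) ≤ k`; `nd a u`, `a ∈ D_k`: `max (ht a) (0 + 1) ≤ k + 1`; `nd a b`,
`a ∈ L_k, b ∈ D_k`: `≤ k`; `nd b a`: `max (ht b) (ht a + 1) ≤ k + 1`.
LD_sum: the unions are disjoint (the weight of the left child is 0, 1, -1, respectively 0, -1; the
leaf `d` is not a node), `nd` is injective, `sz (nd a b) = sz a + sz b + 1`, sums over products factor.
par: parity: for `ok` trees: `wt = 0` iff `sz` odd (weights -1, 1: `sz` even); simultaneous induction.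
Ft: for every `j` a tree of weight 0 and height exactly `j`: `Ft 0 = nd u d`, `Ft (j+1) = nd (nd d (Ft j)) u`
(`ht (nd d (Ft j)) = max 1 (j + 1) = j + 1`, weight -1; `ht (nd .. u) = max (j+1) (0 + 1) = j + 1`).
-/

set_option autoImplicit false

namespace HG39

open Equiv

variable {D : Type} [Fintype D] [DecidableEq D]

/-- trees of weight 0 and of weight -1 of depth at most `k` -/
noncomputable def LD : ℕ → Finset Tr × Finset Tr
  | 0 => (∅, ∅)
  | k + 1 =>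
    (((LD k).1 ×ˢ (LD k).1).image (fun p => Tr.nd p.1 p.2) ∪
      (LD k).2.image (fun b => Tr.nd .u b) ∪ (LD k).2.image (fun a => Tr.nd a .u),
     {Tr.d} ∪ ((LD k).1 ×ˢ (LD k).2).image (fun p => Tr.nd p.1 p.2) ∪
      ((LD k).2 ×ˢ (LD k).1).image (fun p => Tr.nd p.1 p.2))

/-- generating function of a finite set of trees -/
noncomputable def GF (g : ℝ) (X : Finset Tr) : ℝ := ∑ τ ∈ X, g ^ τ.sz

private theorem ld_mem1 (k : ℕ) (τ : Tr) : τ ∈ (LD (k + 1)).1 ↔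
    (∃ a ∈ (LD k).1, ∃ b ∈ (LD k).1, τ = .nd a b) ∨ (∃ b ∈ (LD k).2, τ = .nd .u b) ∨
      (∃ a ∈ (LD k).2, τ = .nd a .u) := by
  simp only [LD, Finset.mem_union, Finset.mem_image, Finset.mem_product, Prod.exists]
  constructor
  · rintro ((⟨a, b, ⟨ha, hb⟩, rfl⟩ | ⟨b, hb, rfl⟩) | ⟨a, ha, rfl⟩)
    · exact Or.inl ⟨a, ha, b, hb, rfl⟩
    · exact Or.inr (Or.inl ⟨b, hb, rfl⟩)
    · exact Or.inr (Or.inr ⟨a, ha, rfl⟩)
  · rintro (⟨a, ha, b, hb, rfl⟩ | ⟨b, hb, rfl⟩ | ⟨a, ha, rfl⟩)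
    · exact Or.inl (Or.inl ⟨a, b, ⟨ha, hb⟩, rfl⟩)
    · exact Or.inl (Or.inr ⟨b, hb, rfl⟩)
    · exact Or.inr ⟨a, ha, rfl⟩

private theorem ld_mem2 (k : ℕ) (τ : Tr) : τ ∈ (LD (k + 1)).2 ↔
    τ = .d ∨ (∃ a ∈ (LD k).1, ∃ b ∈ (LD k).2, τ = .nd a b) ∨
      (∃ a ∈ (LD k).2, ∃ b ∈ (LD k).1, τ = .nd a b) := by
  simp only [LD, Finset.mem_union, Finset.mem_image, Finset.mem_product, Prod.exists,
    Finset.mem_singleton]
  constructor
  · rintro ((rfl | ⟨a, b, ⟨ha, hb⟩, rfl⟩) | ⟨a, b, ⟨ha, hb⟩, rfl⟩)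
    · exact Or.inl rfl
    · exact Or.inr (Or.inl ⟨a, ha, b, hb, rfl⟩)
    · exact Or.inr (Or.inr ⟨a, ha, b, hb, rfl⟩)
  · rintro (rfl | ⟨a, ha, b, hb, rfl⟩ | ⟨a, ha, b, hb, rfl⟩)
    · exact Or.inl (Or.inl rfl)
    · exact Or.inl (Or.inr ⟨a, b, ⟨ha, hb⟩, rfl⟩)
    · exact Or.inr ⟨a, b, ⟨ha, hb⟩, rfl⟩

theorem LD_prop (k : ℕ) : (∀ τ ∈ (LD k).1, τ.ok ∧ τ.wt = 0 ∧ τ.ht ≤ k ∧ 0 ≤ τ.ht) ∧
    (∀ τ ∈ (LD k).2, τ.ok ∧ τ.wt = -1 ∧ τ.ht ≤ k ∧ 0 ≤ τ.ht) := by
  induction k with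
  | zero =>
    constructor
    · intro τ hτ
      simp [LD] at hτ
    · intro τ hτ
      simp [LD] at hτ
  | succ k ih =>
    obtain ⟨ih1, ih2⟩ := ih
    constructor
    · intro τ hτ
      rw [ld_mem1] at hτ
      rcases hτ with ⟨a, ha, b, hb, rfl⟩ | ⟨b, hb, rfl⟩ | ⟨a, ha, rfl⟩
      · obtain ⟨a1, a2, a3, a4⟩ := ih1 a ha
        obtain ⟨b1, b2, b3, b4⟩ := ih1 b hb
        refine ⟨⟨a1, b1, Or.inl (by omega)⟩, ?_, ?_, ?_⟩ <;> simp only [Tr.wt, Tr.ht] <;>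
          push_cast <;> omega
      · obtain ⟨b1, b2, b3, b4⟩ := ih2 b hb
        refine ⟨⟨trivial, b1, Or.inl (by simp only [Tr.wt]; omega)⟩, ?_, ?_, ?_⟩ <;>
          simp only [Tr.wt, Tr.ht] <;> push_cast <;> omega
      · obtain ⟨a1, a2, a3, a4⟩ := ih2 a ha
        refine ⟨⟨a1, trivial, Or.inl (by simp only [Tr.wt]; omega)⟩, ?_, ?_, ?_⟩ <;>
          simp only [Tr.wt, Tr.ht] <;> push_cast <;> omega
    · intro τ hτ
      rw [ld_mem2] at hτ
      rcases hτ with rfl | ⟨a, ha, b, hb, rfl⟩ | ⟨a, ha, b, hb, rfl⟩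
      · refine ⟨trivial, rfl, ?_, ?_⟩ <;> simp only [Tr.ht] <;> push_cast <;> omega
      · obtain ⟨a1, a2, a3, a4⟩ := ih1 a ha
        obtain ⟨b1, b2, b3, b4⟩ := ih2 b hb
        refine ⟨⟨a1, b1, Or.inr (by omega)⟩, ?_, ?_, ?_⟩ <;> simp only [Tr.wt, Tr.ht] <;>
          push_cast <;> omega
      · obtain ⟨a1, a2, a3, a4⟩ := ih2 a ha
        obtain ⟨b1, b2, b3, b4⟩ := ih1 b hb
        refine ⟨⟨a1, b1, Or.inr (by omega)⟩, ?_, ?_, ?_⟩ <;> simp only [Tr.wt, Tr.ht] <;>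
          push_cast <;> omega

theorem LD_sum (g : ℝ) (k : ℕ) :
    GF g (LD (k + 1)).1 = g * (GF g (LD k).1 ^ 2 + 2 * GF g (LD k).2) ∧
    GF g (LD (k + 1)).2 = 1 + 2 * g * GF g (LD k).1 * GF g (LD k).2 := by
  obtain ⟨h1, h2⟩ := LD_prop k
  have hprod : ∀ X Y : Finset Tr,
      ∑ τ ∈ (X ×ˢ Y).image (fun p => Tr.nd p.1 p.2), g ^ τ.sz = g * (GF g X * GF g Y) := by
    intro X Y
    rw [Finset.sum_image]
    · rw [Finset.sum_product]
      unfold GF
      rw [Finset.sum_mul_sum, Finset.mul_sum]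
      refine Finset.sum_congr rfl fun a _ => ?_
      rw [Finset.mul_sum]
      refine Finset.sum_congr rfl fun b _ => ?_
      simp only [Tr.sz]
      ring
    · intro p _ q _ h
      injection h with h3 h4
      exact Prod.ext h3 h4
  have hl : ∀ X : Finset Tr, ∑ τ ∈ X.image (fun b => Tr.nd .u b), g ^ τ.sz = g * GF g X := by
    intro X
    rw [Finset.sum_image]
    · unfold GF
      rw [Finset.mul_sum]
      refine Finset.sum_congr rfl fun a _ => ?_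
      simp only [Tr.sz]
      ring
    · intro p _ q _ h
      injection h
  have hr : ∀ X : Finset Tr, ∑ τ ∈ X.image (fun a => Tr.nd a .u), g ^ τ.sz = g * GF g X := by
    intro X
    rw [Finset.sum_image]
    · unfold GF
      rw [Finset.mul_sum]
      refine Finset.sum_congr rfl fun a _ => ?_
      simp only [Tr.sz]
      ring
    · intro p _ q _ h
      injection h
  constructor
  · rw [GF, LD, Finset.sum_union, Finset.sum_union, hprod, hl, hr]
    · ring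
    · rw [Finset.disjoint_left]
      intro τ hτ hτ'
      simp only [Finset.mem_image, Finset.mem_product, Prod.exists] at hτ hτ'
      obtain ⟨a, b, ⟨ha, hb⟩, rfl⟩ := hτ
      obtain ⟨b', hb', h⟩ := hτ'
      injection h with h3 h4
      have := (h1 a ha).2.1
      rw [← h3] at this
      simp [Tr.wt] at this
    · rw [Finset.disjoint_left]
      intro τ hτ hτ'
      simp only [Finset.mem_union, Finset.mem_image, Finset.mem_product, Prod.exists] at hτ hτ'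
      obtain ⟨a', ha', h⟩ := hτ'
      have h5 := (h2 a' ha').2.1
      rcases hτ with ⟨a, b, ⟨ha, hb⟩, rfl⟩ | ⟨b, hb, rfl⟩
      · injection h with h3 h4
        have := (h1 a ha).2.1
        rw [← h3] at this
        omega
      · injection h with h3 h4
        rw [h3] at h5
        simp [Tr.wt] at h5
  · rw [GF, LD, Finset.sum_union, Finset.sum_union, hprod, hprod, Finset.sum_singleton]
    · simp only [Tr.sz]
      ring
    · rw [Finset.disjoint_left]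
      intro τ hτ hτ'
      simp only [Finset.mem_image, Finset.mem_product, Prod.exists, Finset.mem_singleton] at hτ hτ'
      obtain ⟨a, b, ⟨ha, hb⟩, h⟩ := hτ'
      rw [hτ] at h
      cases h
    · rw [Finset.disjoint_left]
      intro τ hτ hτ'
      simp only [Finset.mem_union, Finset.mem_image, Finset.mem_product, Prod.exists,
        Finset.mem_singleton] at hτ hτ'
      obtain ⟨a', b', ⟨ha', hb'⟩, h⟩ := hτ'
      have h5 := (h2 a' ha').2.1
      rcases hτ with hτ | ⟨a, b, ⟨ha, hb⟩, rfl⟩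
      · rw [hτ] at h
        cases h
      · injection h with h3 h4
        have := (h1 a ha).2.1
        rw [← h3] at this
        omega

theorem tr_par (τ : Tr) (h : τ.ok) : (τ.wt = 0 → Odd τ.sz) ∧ (τ.wt ≠ 0 → Even τ.sz) := by
  have key : ∀ τ : Tr, τ.ok → (τ.wt = 0 ∧ Odd τ.sz) ∨ ((τ.wt = 1 ∨ τ.wt = -1) ∧ Even τ.sz) := by
    intro τ
    induction τ with
    | u => exact fun _ => Or.inr ⟨Or.inl rfl, ⟨0, rfl⟩⟩
    | d => exact fun _ => Or.inr ⟨Or.inr rfl, ⟨0, rfl⟩⟩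
    | nd a b iha ihb =>
      rintro ⟨h1, h2, h3⟩
      have ha := iha h1
      have hb := ihb h2
      simp only [Tr.wt, Tr.sz, Nat.odd_iff, Nat.even_iff] at *
      omega
  have h1 := key τ h
  constructor
  · intro h2
    rcases h1 with h1 | h1
    · exact h1.2
    · omega
  · intro h2
    rcases h1 with h1 | h1
    · omega
    · exact h1.2

/-- a tree of weight 0 and height `j` -/
def Ft : ℕ → Tr
  | 0 => .nd .u .d
  | j + 1 => .nd (.nd .d (Ft j)) .u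

theorem Ft_prop (j : ℕ) : (Ft j).ok ∧ (Ft j).wt = 0 ∧ (Ft j).ht = j ∧ (Ft j).sz = 2 * j + 1 := by
  induction j with
  | zero =>
    refine ⟨⟨trivial, trivial, Or.inl rfl⟩, rfl, ?_, rfl⟩
    simp [Ft, Tr.ht, Tr.wt]
  | succ j ih =>
    obtain ⟨i1, i2, i3, i4⟩ := ih
    refine ⟨⟨⟨trivial, i1, Or.inr ?_⟩, trivial, Or.inl ?_⟩, ?_, ?_, ?_⟩
    · simp only [Tr.wt]
      omega
    · simp only [Tr.wt]
      omega
    · simp only [Ft, Tr.wt]
      omega
    · simp only [Ft, Tr.ht, Tr.wt]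
      push_cast
      omega
    · simp only [Ft, Tr.sz]
      omega

end HG39
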