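import Pool.Agent.H39.HG.Defs
import Pool.Agent.H39.HG.TSets

/-!
[H39 HG TLIM]  (MP_bcc40c_pr)  Limits of the generating functions (only the recursion is used; pure
real analysis).

`lam h = h / (1 + 8h)^(3/2)`, `g = sqrt (lam h)`, `R = sqrt (1 + 8h) ∈ (1, sqrt 3)`,
`S = (1 - 1/R) / (2g)`.  Let `S_0 = R_0 = 0`, `S_{k+1} = g (S_k^2 + 2 R_k)`, `R_{k+1} = 1 + 2 g S_k R_k`.
PROOF.  `(S, R)` is a fixed point: `2gS = 1 - 1/R`, `R = 1 + 2gSR`; `4 g S = (2gS)^2 + 8 g^2 R` because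
`8 g^2 R = (1 - 1/R)(1 + 1/R)`, i.e. `8 g^2 R^3 = R^2 - 1 = 8h`, `g^2 = h / R^3`.  By induction
`0 ≤ S_k ≤ S_{k+1} ≤ S`, `0 ≤ R_k ≤ R_{k+1} ≤ R` (the map is monotone).  Monotone bounded sequences
converge to `(S', R')`, a fixed point with `0 ≤ S' ≤ S`, `1 ≤ R' ≤ R`.  Then `2 g S' = 1 - 1/R'` and
`8 g^2 = (R'^2 - 1)/R'^3`; the function `φ(x) = (x^2 - 1)/x^3` is strictly increasing on `[1, sqrt 3]`:
for `1 ≤ x < y ≤ sqrt 3`: `φ(x) < φ(y)` iff `(x^2-1) y^3 < (y^2-1) x^3` iff (dividing by `x^3 y^3`) with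
`s = 1/x > t = 1/y`: `s - s^3 < t - t^3` iff `(s-t)(1 - s^2 - st - t^2) < 0`, true since `s^2 + st + t^2 >
3 t^2 ≥ 1`.  Hence `R' = R`, `S' = S`.
`hk = g^2 R_k / (1 - 2 g S_k)^2` (well defined: `2 g S_k ≤ 2 g S < 1`) tends to `g^2 R / (1 - 2gS)^2 =
g^2 R^3 = h`; and `hk ≤ h`.
-/

set_option autoImplicit false

namespace HG39

open Equiv

variable {D : Type} [Fintype D] [DecidableEq D]

/-- `λ(h)` -/
noncomputable def lam (h : ℝ) : ℝ := h / (1 + 8 * h) ^ (3 / 2 : ℝ)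

/-- `m(h)` -/
noncomputable def mh (h : ℝ) : ℝ := (1 - 2 * h - Real.sqrt (1 - 4 * h)) / (2 * h)

private theorem tl_rpow {h : ℝ} (h0 : 0 < h) :
    (1 + 8 * h) ^ (3 / 2 : ℝ) = Real.sqrt (1 + 8 * h) ^ 3 := by
  rw [Real.sqrt_eq_rpow, ← Real.rpow_natCast, ← Real.rpow_mul (by positivity)]
  norm_num

private theorem tl_lam {h : ℝ} (h0 : 0 < h) : lam h = h / Real.sqrt (1 + 8 * h) ^ 3 := by
  unfold lam
  rw [tl_rpow h0]

private theorem tl_R {h : ℝ} (h0 : 0 < h) : 1 < Real.sqrt (1 + 8 * h) := by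
  rw [Real.lt_sqrt (by norm_num)]
  linarith

theorem lam_pos (h : ℝ) (h0 : 0 < h) : 0 < lam h := by
  unfold lam
  positivity

theorem lam_lt (h : ℝ) (h0 : 0 < h) (h1 : h < 1 / 4) : lam h < 1 := by
  rw [tl_lam h0]
  have hR := tl_R h0
  have hR3 : 1 ≤ Real.sqrt (1 + 8 * h) ^ 3 := one_le_pow₀ hR.le
  rw [div_lt_one (by linarith)]
  linarith

theorem mh_prop (h : ℝ) (h0 : 0 < h) (h1 : h < 1 / 4) :
    0 < mh h ∧ mh h < 1 ∧ mh h = h * (1 + mh h) ^ 2 := by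
  obtain ⟨s, hs⟩ : ∃ s, s = Real.sqrt (1 - 4 * h) := ⟨_, rfl⟩
  have hs2 : s ^ 2 = 1 - 4 * h := by
    rw [hs]
    exact Real.sq_sqrt (by linarith)
  have hs0 : 0 < s := by
    rw [hs]
    exact Real.sqrt_pos.mpr (by linarith)
  have hs1 : s < 1 := by nlinarith
  have hm : mh h = (1 - 2 * h - s) / (2 * h) := by
    unfold mh
    rw [← hs]
  refine ⟨?_, ?_, ?_⟩
  · rw [hm]
    apply div_pos _ (by linarith)
    nlinarith
  · rw [hm, div_lt_one (by linarith)]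
    nlinarith
  · rw [hm]
    have h2 : h ≠ 0 := h0.ne'
    field_simp
    nlinarith

private theorem tl_uniq {R x : ℝ} (hR : R ^ 2 < 3) (hx1 : 1 ≤ x) (hxR : x ≤ R)
    (h : (R ^ 2 - 1) * x ^ 3 = (x ^ 2 - 1) * R ^ 3) : x = R := by
  have h1 : (R - x) * (R ^ 2 + R * x + x ^ 2 - x ^ 2 * R ^ 2) = 0 := by linear_combination h
  have hx0 : 0 < x ^ 2 := by positivity
  have h2 : x ^ 2 ≤ R * x := by nlinarith
  have h3 : x ^ 2 ≤ R ^ 2 := by nlinarith
  have h4 : x ^ 2 * R ^ 2 < x ^ 2 * 3 := mul_lt_mul_of_pos_left hR hx0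
  have h5 : 0 < R ^ 2 + R * x + x ^ 2 - x ^ 2 * R ^ 2 := by linarith
  rcases mul_eq_zero.mp h1 with h6 | h6
  · linarith
  · linarith

private theorem tl_main {g R S h : ℝ} (hg : 0 < g) (hR1 : 1 < R) (hR3 : R ^ 2 < 3)
    (hgR : g ^ 2 * R ^ 3 = h) (hR2 : R ^ 2 = 1 + 8 * h) (hS : 2 * g * S = 1 - 1 / R)
    {s r : ℕ → ℝ} (s0 : s 0 = 0) (r0 : r 0 = 0)
    (hs : ∀ k, s (k + 1) = g * (s k ^ 2 + 2 * r k)) (hr : ∀ k, r (k + 1) = 1 + 2 * g * s k * r k) :
    (∀ k, 0 ≤ s k ∧ 0 ≤ r k ∧ 2 * g * s k < 1 ∧ g ^ 2 * r k ≤ h * (1 - 2 * g * s k) ^ 2) ∧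
    Filter.Tendsto (fun k => g ^ 2 * r k / (1 - 2 * g * s k) ^ 2) Filter.atTop (nhds h) := by
  have hR0 : 0 < R := by linarith
  have hiR : 0 < 1 / R := by positivity
  have hiR1 : 1 / R < 1 := by
    rw [div_lt_one hR0]
    exact hR1
  have hS0 : 0 < S := by
    by_contra hn
    have : g * S ≤ 0 := mul_nonpos_of_nonneg_of_nonpos hg.le (not_lt.mp hn)
    nlinarith
  have fixR : R = 1 + 2 * g * S * R := by
    rw [hS]
    field_simp
    ring
  have fixS : S = g * (S ^ 2 + 2 * R) := by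
    have h1 : 4 * g * S = (2 * g * S) ^ 2 + 8 * g ^ 2 * R := by
      have h2 : 8 * g ^ 2 * R = 1 - 1 / R ^ 2 := by
        have h3 : 8 * (g ^ 2 * R ^ 3) = R ^ 2 - 1 := by rw [hgR]; linarith
        field_simp
        linarith
      have h4 : 4 * g * S = 2 * (1 - 1 / R) := by linarith
      rw [h2, h4, hS]
      field_simp
      ring
    have h5 : 4 * g * S = 4 * g * (g * (S ^ 2 + 2 * R)) := by linarith
    exact mul_left_cancel₀ (by positivity) h5
  have hb : ∀ k, (0 ≤ s k ∧ s k ≤ S) ∧ 0 ≤ r k ∧ r k ≤ R := by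
    intro k
    induction k with
    | zero => rw [s0, r0]; exact ⟨⟨le_rfl, hS0.le⟩, le_rfl, hR0.le⟩
    | succ k ih =>
      obtain ⟨⟨h1, h2⟩, h3, h4⟩ := ih
      have h5 : s k ^ 2 ≤ S ^ 2 := pow_le_pow_left₀ h1 h2 2
      have h6 : s k * r k ≤ S * R := mul_le_mul h2 h4 h3 hS0.le
      rw [hs, hr]
      refine ⟨⟨by positivity, ?_⟩, by positivity, ?_⟩
      · rw [fixS]
        exact mul_le_mul_of_nonneg_left (by linarith) hg.le
      · have h7 : 2 * g * (s k * r k) ≤ 2 * g * (S * R) :=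
          mul_le_mul_of_nonneg_left h6 (by positivity)
        rw [fixR]
        linarith
  have hmono : ∀ k, s k ≤ s (k + 1) ∧ r k ≤ r (k + 1) := by
    intro k
    induction k with
    | zero =>
      rw [hs, hr, s0, r0]
      norm_num
    | succ k ih =>
      obtain ⟨h1, h2⟩ := ih
      obtain ⟨⟨h3, _⟩, h4, _⟩ := hb k
      have h5 : s k ^ 2 ≤ s (k + 1) ^ 2 := pow_le_pow_left₀ h3 h1 2
      have h6 : s k * r k ≤ s (k + 1) * r (k + 1) := mul_le_mul h1 h2 h4 (h3.trans h1)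
      rw [hs (k + 1), hr (k + 1)]
      constructor
      · conv_lhs => rw [hs k]
        exact mul_le_mul_of_nonneg_left (by linarith) hg.le
      · conv_lhs => rw [hr k]
        have h7 : 2 * g * (s k * r k) ≤ 2 * g * (s (k + 1) * r (k + 1)) :=
          mul_le_mul_of_nonneg_left h6 (by positivity)
        linarith
  have hms : Monotone s := monotone_nat_of_le_succ fun k => (hmono k).1
  have hmr : Monotone r := monotone_nat_of_le_succ fun k => (hmono k).2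
  have hls := tendsto_atTop_ciSup hms ⟨S, by rintro _ ⟨k, rfl⟩; exact (hb k).1.2⟩
  have hlr := tendsto_atTop_ciSup hmr ⟨R, by rintro _ ⟨k, rfl⟩; exact (hb k).2.2⟩
  obtain ⟨S', hS'⟩ : ∃ S', S' = ⨆ k, s k := ⟨_, rfl⟩
  obtain ⟨x, hx⟩ : ∃ x, x = ⨆ k, r k := ⟨_, rfl⟩
  rw [← hS'] at hls
  rw [← hx] at hlr
  have e1 : S' = g * (S' ^ 2 + 2 * x) := by
    have h1 := (Filter.tendsto_add_atTop_iff_nat 1).mpr hls
    have h2 : Filter.Tendsto (fun k => s (k + 1)) Filter.atTop (nhds (g * (S' ^ 2 + 2 * x))) := by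
      simp only [hs]
      exact ((hls.pow 2).add (hlr.const_mul 2)).const_mul g
    exact tendsto_nhds_unique h1 h2
  have e2 : x = 1 + 2 * g * S' * x := by
    have h1 := (Filter.tendsto_add_atTop_iff_nat 1).mpr hlr
    have h2 : Filter.Tendsto (fun k => r (k + 1)) Filter.atTop (nhds (1 + 2 * g * S' * x)) := by
      simp only [hr]
      exact ((hls.const_mul (2 * g)).mul hlr).const_add 1
    exact tendsto_nhds_unique h1 h2
  have hS'0 : 0 ≤ S' := ge_of_tendsto' hls fun k => (hb k).1.1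
  have hx0 : 0 ≤ x := ge_of_tendsto' hlr fun k => (hb k).2.1
  have hxR : x ≤ R := le_of_tendsto' hlr fun k => (hb k).2.2
  have hx1 : 1 ≤ x := by
    have : 0 ≤ 2 * g * S' * x := by positivity
    linarith
  have hxp : 0 < x := by linarith
  have e3 : 2 * g * S' = 1 - 1 / x := by
    have : 2 * g * S' * x = x - 1 := by linarith
    field_simp
    linarith
  have hxe : x = R := by
    refine tl_uniq hR3 hx1 hxR ?_
    have h1 : 4 * g * S' = (2 * g * S') ^ 2 + 8 * g ^ 2 * x := by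
      have : 4 * g * S' = 4 * g * (g * (S' ^ 2 + 2 * x)) := by rw [← e1]
      linarith
    have h2 : 4 * g * S' = 2 * (1 - 1 / x) := by linarith
    rw [h2, e3] at h1
    have h3 : 8 * g ^ 2 * x ^ 3 = x ^ 2 - 1 := by
      field_simp at h1
      linarith
    have h4 : 8 * (g ^ 2 * R ^ 3) = R ^ 2 - 1 := by rw [hgR]; linarith
    rw [← h4, ← h3]
    ring
  have hSe : 2 * g * S' = 1 - 1 / R := by rw [e3, hxe]
  refine ⟨fun k => ?_, ?_⟩
  · obtain ⟨⟨h1, h2⟩, h3, h4⟩ := hb k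
    have h5 : 2 * g * s k ≤ 2 * g * S := mul_le_mul_of_nonneg_left h2 (by positivity)
    refine ⟨h1, h3, by linarith, ?_⟩
    have h6 : 1 / R ≤ 1 - 2 * g * s k := by linarith
    have h7 : (1 / R) ^ 2 ≤ (1 - 2 * g * s k) ^ 2 := pow_le_pow_left₀ hiR.le h6 2
    have h8 : g ^ 2 * r k ≤ g ^ 2 * R := mul_le_mul_of_nonneg_left h4 (by positivity)
    have h9 : g ^ 2 * R = h * (1 / R) ^ 2 := by
      rw [← hgR]
      field_simp
    have h10 : 0 < h := by
      rw [← hgR]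
      positivity
    calc g ^ 2 * r k ≤ h * (1 / R) ^ 2 := by linarith
      _ ≤ _ := mul_le_mul_of_nonneg_left h7 h10.le
  · have h1 : (1 - 2 * g * S') ^ 2 ≠ 0 := by
      rw [hSe]
      have : 1 - (1 - 1 / R) = 1 / R := by ring
      rw [this]
      positivity
    have h2 : Filter.Tendsto (fun k => g ^ 2 * r k / (1 - 2 * g * s k) ^ 2) Filter.atTop
        (nhds (g ^ 2 * x / (1 - 2 * g * S') ^ 2)) :=
      (hlr.const_mul _).div (((hls.const_mul (2 * g)).const_sub 1).pow 2) h1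
    have h3 : g ^ 2 * x / (1 - 2 * g * S') ^ 2 = h := by
      rw [hSe, hxe]
      have : 1 - (1 - 1 / R) = 1 / R := by ring
      rw [this, ← hgR]
      field_simp
    rw [h3] at h2
    exact h2

theorem lim_SR (h : ℝ) (h0 : 0 < h) (h1 : h < 1 / 4) :
    let g := Real.sqrt (lam h)
    (∀ k, 0 ≤ GF g (LD k).1 ∧ 0 ≤ GF g (LD k).2 ∧ 2 * g * GF g (LD k).1 < 1 ∧
      g ^ 2 * GF g (LD k).2 ≤ h * (1 - 2 * g * GF g (LD k).1) ^ 2) ∧
    Filter.Tendsto (fun k => g ^ 2 * GF g (LD k).2 / (1 - 2 * g * GF g (LD k).1) ^ 2)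
      Filter.atTop (nhds h) := by
  intro g
  have hl := lam_pos h h0
  have hg : 0 < g := Real.sqrt_pos.mpr hl
  have hg2 : g ^ 2 = lam h := Real.sq_sqrt hl.le
  have hR1 := tl_R h0
  have hR2 : Real.sqrt (1 + 8 * h) ^ 2 = 1 + 8 * h := Real.sq_sqrt (by linarith)
  have hR0 : 0 < Real.sqrt (1 + 8 * h) := by linarith
  refine tl_main (g := g) (R := Real.sqrt (1 + 8 * h))
    (S := (1 - 1 / Real.sqrt (1 + 8 * h)) / (2 * g)) hg hR1 (by rw [hR2]; linarith) ?_ hR2 ?_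
    (s := fun k => GF g (LD k).1) (r := fun k => GF g (LD k).2) ?_ ?_
    (fun k => (LD_sum g k).1) (fun k => (LD_sum g k).2)
  · rw [hg2, tl_lam h0]
    field_simp
  · field_simp
  · simp [GF, LD]
  · simp [GF, LD]

/-- continuity of `mh` -/
theorem mh_tendsto (h : ℝ) (h0 : 0 < h) (h1 : h < 1 / 4) (x : ℕ → ℝ)
    (hx : Filter.Tendsto x Filter.atTop (nhds h)) :
    Filter.Tendsto (fun k => mh (x k)) Filter.atTop (nhds (mh h)) := by
  have hc : ContinuousAt mh h := by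
    unfold mh
    refine ContinuousAt.div ?_ ?_ (by positivity)
    · fun_prop
    · fun_prop
  exact hc.tendsto.comp hx

end HG39
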