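import Pool.Agent.H39.HG.Defs
import Pool.Agent.H39.HG.TSets
import Pool.Agent.H39.HG.TLim

/-!
[H39 HG DESCF]  (MP_bcc40c_pr)  Real analysis: the cost of `K = O(log n)` removals.

PROOF.  `K ≤ C log n + C`, `M ≥ 6 n lam`, `x = 6 n lam > 0`.  For `n` large `K + 2 ≤ M` and
`(M-2).descFactorial K = (M-2)(M-3)...(M-1-K) ≥ (M - 1 - K)^K ≥ (x - 1 - K)^K = x^K (1 - (K+1)/x)^K ≥
x^K (1 - K (K+1)/x) ≥ x^K / 2` (Bernoulli `one_add_mul_le_pow`), as soon as `2 K (K+1) ≤ x`, true for large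
`n` because `(C log n + C + 1)^2 = o(n)`.  (`Nat.pow_sub_le_descFactorial` or similar for the first
inequality.)
-/

set_option autoImplicit false

namespace HG39

open Equiv

variable {D : Type} [Fintype D] [DecidableEq D]

/-- polylogarithms against powers -/
theorem polylog_le (A : ℝ) (k : ℕ) (δ : ℝ) (hδ : 0 < δ) :
    ∃ n0 : ℕ, ∀ n ≥ n0, A * (Real.log n + 1) ^ k ≤ (n : ℝ) ^ δ := by
  have h1 := isLittleO_log_rpow_rpow_atTop (k : ℝ) hδ
  have h2 := h1.def (c := 1 / ((|A| + 1) * 2 ^ k)) (by positivity)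
  have h3 : ∀ᶠ x : ℝ in Filter.atTop, A * (Real.log x + 1) ^ k ≤ x ^ δ := by
    filter_upwards [h2, Filter.eventually_ge_atTop (Real.exp 1)] with x hx hx1
    have hx0 : 0 < x := (Real.exp_pos 1).trans_le hx1
    have hlog : 1 ≤ Real.log x := by
      rw [Real.le_log_iff_exp_le hx0]
      exact hx1
    have hl0 : 0 ≤ Real.log x := by linarith
    rw [Real.rpow_natCast, Real.norm_of_nonneg (by positivity),
      Real.norm_of_nonneg (by positivity)] at hx
    have h5 : (Real.log x + 1) ^ k ≤ (2 * Real.log x) ^ k :=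
      pow_le_pow_left₀ (by linarith) (by linarith) k
    have h6 : 0 ≤ (Real.log x + 1) ^ k := by positivity
    calc A * (Real.log x + 1) ^ k ≤ (|A| + 1) * (Real.log x + 1) ^ k := by
          apply mul_le_mul_of_nonneg_right _ h6
          linarith [le_abs_self A]
      _ ≤ (|A| + 1) * (2 * Real.log x) ^ k := by gcongr
      _ = ((|A| + 1) * 2 ^ k) * (Real.log x) ^ k := by rw [mul_pow]; ring
      _ ≤ ((|A| + 1) * 2 ^ k) * (1 / ((|A| + 1) * 2 ^ k) * x ^ δ) := by gcongr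
      _ = x ^ δ := by field_simp
  have h4 := (tendsto_natCast_atTop_atTop (R := ℝ)).eventually h3
  obtain ⟨n0, h⟩ := Filter.eventually_atTop.1 h4
  exact ⟨n0, h⟩

theorem descF_ge (h : ℝ) (h0 : 0 < h) (h1 : h < 1 / 4) (C : ℝ) :
    ∃ n0 : ℕ, ∀ n ≥ n0, ∀ K M : ℕ, (K : ℝ) ≤ C * Real.log n + C → 6 * n * lam h ≤ M →
      (6 * n * lam h) ^ K / 2 ≤ ((M - 2).descFactorial K : ℝ) := by
  have hl := lam_pos h h0
  obtain ⟨n1, hn1⟩ := polylog_le (2 * (|C| + 1) ^ 2 / (6 * lam h)) 2 1 one_pos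
  refine ⟨max n1 1, fun n hn K M hK hM => ?_⟩
  have hn1' := hn1 n ((le_max_left _ _).trans hn)
  have hn0 : 1 ≤ n := (le_max_right _ _).trans hn
  have hnr : (1 : ℝ) ≤ n := by exact_mod_cast hn0
  have hlog : 0 ≤ Real.log n := Real.log_nonneg hnr
  have hK' : (K : ℝ) ≤ |C| * (Real.log n + 1) := by
    have : C * Real.log n + C = C * (Real.log n + 1) := by ring
    rw [this] at hK
    refine hK.trans ?_
    apply mul_le_mul_of_nonneg_right (le_abs_self C)
    linarith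
  set x : ℝ := 6 * n * lam h with hx
  have hx0 : 0 < x := by positivity
  have hKx : 2 * (K : ℝ) * (K + 1) ≤ x := by
    rw [Real.rpow_one] at hn1'
    have h5 : 2 * (|C| + 1) ^ 2 / (6 * lam h) * (Real.log n + 1) ^ 2 =
        2 * ((|C| + 1) * (Real.log n + 1)) ^ 2 / (6 * lam h) := by ring
    rw [h5, div_le_iff₀ (by positivity)] at hn1'
    have h6 : (K : ℝ) + 1 ≤ (|C| + 1) * (Real.log n + 1) := by nlinarith
    have h7 : (0 : ℝ) ≤ K := Nat.cast_nonneg K
    have h8 : 2 * (K : ℝ) * (K + 1) ≤ 2 * ((|C| + 1) * (Real.log n + 1)) ^ 2 := by nlinarith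
    have h9 : (n : ℝ) * (6 * lam h) = x := by rw [hx]; ring
    linarith
  rcases Nat.eq_zero_or_pos K with hK0 | hK0
  · subst hK0
    simp
    norm_num
  have hK1 : (1 : ℝ) ≤ K := by exact_mod_cast hK0
  have hxK : (K : ℝ) + 1 ≤ x := by nlinarith
  have hMK : K + 1 ≤ M := by
    have : ((K + 1 : ℕ) : ℝ) ≤ M := by
      push_cast
      linarith
    exact_mod_cast this
  have hMK2 : 2 ≤ M := by omega
  have h10 := Nat.pow_sub_le_descFactorial (M - 2) K
  have h11 : ((M - 2 + 1 - K : ℕ) : ℝ) = (M : ℝ) - 1 - K := by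
    have e : M - 2 + 1 - K = M - (K + 1) := by omega
    rw [e, Nat.cast_sub hMK]
    push_cast
    ring
  have h12 : (((M - 2 + 1 - K) ^ K : ℕ) : ℝ) ≤ ((M - 2).descFactorial K : ℝ) := by
    exact_mod_cast h10
  rw [Nat.cast_pow, h11] at h12
  have h13 : (x - 1 - K) ^ K ≤ ((M : ℝ) - 1 - K) ^ K :=
    pow_le_pow_left₀ (by linarith) (by linarith) K
  have h14 : x ^ K / 2 ≤ (x - 1 - K) ^ K := by
    have h15 : x - 1 - K = x * (1 + -((K + 1) / x)) := by
      field_simp
      ring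
    have h16 : (K + 1) / x ≤ 1 := by
      rw [div_le_one hx0]
      exact hxK
    have h17 := one_add_mul_le_pow (a := -(((K : ℝ) + 1) / x)) (by linarith) K
    have h18 : 1 / 2 ≤ 1 + (K : ℝ) * -(((K : ℝ) + 1) / x) := by
      have h19 : (K : ℝ) * (((K : ℝ) + 1) / x) ≤ 1 / 2 := by
        rw [← mul_div_assoc, div_le_iff₀ hx0]
        linarith
      linarith
    rw [h15, mul_pow x]
    have h20 : 0 ≤ x ^ K := by positivity
    have h21 := mul_le_mul_of_nonneg_left (h18.trans h17) h20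
    linarith
  exact h14.trans (h13.trans h12)

end HG39
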