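import Pool.Agent.H39.HG.Defs
import Pool.Agent.H39.HG.ZSwap
import Pool.Agent.H39.HG.ZCL

/-!
[H39 HG ZBW]  (MP_bcc40c_pr)  Words on cycles: `Bw π l` says that `l` is a sublist of a cyclic list
of `π` (other entries may be in between).

PROOFS.  Bw_rot: let `l1 ++ l2` be a sublist of the cyclic list `c`; then `c = c1 ++ c2` with `l1`
sublist of `c1` and `l2` sublist of `c2` (`List.append_sublist_iff` or `List.sublist_append_iff`
type lemma), and `c2 ++ c1 = c.rotate c1.length` is cyclic (CL_rotate).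
Bw_zip: by Bw_rot the word `a :: b :: (l2 ++ l1)` is a word of `π`, i.e. a sublist of a cyclic list;
rotate that list so that it starts with `a`: `a :: c'` where `b :: (l2 ++ l1)` is a sublist of `c'`
(if `a :: w` is a sublist of `c` then `c = c1 ++ a :: c2` with `w` sublist of `c2`; rotate by
`c1.length`: `a :: (c2 ++ c1)`), and `c' = p ++ b :: q` with `l2 ++ l1` sublist of `q`.  CL_cut: `a :: q`
is cyclic for `π * swap a b`, it contains `l2 ++ l1`; rotate back (Bw_rot).  `a ≠ b` (no repetition)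
and `π.SameCycle a b` (CL_iff_same), so the number of cycles increases (cyc_swap_same).
Bw_attach: rotate to `y :: (l2 ++ l1)`, cyclic list `y :: p` with `l2 ++ l1` sublist of `p`; the list
`[b, b1, b2]` is cyclic (CL_three) and `y` is not in it, so `b ∉ y :: p` (if `b` were in the cyclic
list `y :: p` then `SameCycle y b`, so `y ∈ [b, b1, b2]` by CL_iff_same).  CL_join:
`y :: ([b1, b2] ++ b :: p)` is cyclic, it contains `b1 :: b2 :: (l2 ++ l1)`; rotate back.  The
cycle number: cyc_swap_diff.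
-/

set_option autoImplicit false

namespace HG39

open Equiv

variable {D : Type} [Fintype D] [DecidableEq D]

theorem Bw_rot {π : Perm D} {l1 l2 : List D} (h : Bw π (l1 ++ l2)) : Bw π (l2 ++ l1) := by
  obtain ⟨c, hc, hl⟩ := h
  obtain ⟨c1, c2, rfl, h1, h2⟩ := List.append_sublist_iff.1 hl
  refine ⟨c2 ++ c1, ?_, h2.append h1⟩
  rw [← List.rotate_append_length_eq]
  exact CL_rotate hc _

private theorem Bw_head {π : Perm D} {w : List D} {a : D} (h : Bw π (a :: w)) :
    ∃ c, CL π (a :: c) ∧ w.Sublist c := by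
  obtain ⟨c, hc, hl⟩ := h
  obtain ⟨r1, r2, rfl, h1, h2⟩ := List.cons_sublist_iff.1 hl
  obtain ⟨s, t, rfl⟩ := List.append_of_mem h1
  refine ⟨t ++ r2 ++ s, ?_, (h2.trans (List.sublist_append_right t r2)).trans
    (List.sublist_append_left _ _)⟩
  have h3 := CL_rotate hc s.length
  rw [List.append_assoc, List.rotate_append_length_eq] at h3
  simpa using h3

theorem Bw_zip {π : Perm D} {l1 l2 : List D} {a b : D} (h : Bw π (l1 ++ a :: b :: l2)) :
    Bw (π * swap a b) (l1 ++ l2) ∧ cyc (π * swap a b) = cyc π + 1 := by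
  have h0 : Bw π (a :: (b :: (l2 ++ l1))) := Bw_rot h
  obtain ⟨c, hc, hl⟩ := Bw_head h0
  obtain ⟨r1, r2, rfl, h1, h2⟩ := List.cons_sublist_iff.1 hl
  obtain ⟨p, q', rfl⟩ := List.append_of_mem h1
  have hc' : CL π (a :: (p ++ b :: (q' ++ r2))) := by simpa using hc
  have hne : a ≠ b := by
    intro hab
    have h4 := hc'.ndp
    rw [List.nodup_cons] at h4
    exact h4.1 (by simp [hab])
  have hsame : π.SameCycle a b :=
    (CL_iff_same hc' List.mem_cons_self b).1 (by simp)
  refine ⟨?_, cyc_swap_same π a b hne hsame⟩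
  apply Bw_rot
  exact ⟨a :: (q' ++ r2), (CL_cut hc').1,
    (h2.trans (List.sublist_append_right q' r2)).trans (List.sublist_cons_self _ _)⟩

theorem Bw_attach {π : Perm D} {l1 l2 : List D} {y b b1 b2 : D} (h : Bw π (l1 ++ y :: l2))
    (h1 : π b = b1) (h2 : π b1 = b2) (h3 : π b2 = b) (hn : [b, b1, b2].Nodup)
    (hy : y ∉ [b, b1, b2]) :
    Bw (π * swap y b) (l1 ++ b1 :: b2 :: l2) ∧ cyc (π * swap y b) + 1 = cyc π := by
  have h0 : Bw π (y :: (l2 ++ l1)) := Bw_rot h
  obtain ⟨p, hc, hl⟩ := Bw_head h0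
  have h3' := CL_three h1 h2 h3 hn
  have hns : ¬ π.SameCycle y b := fun hs =>
    hy ((CL_iff_same h3' List.mem_cons_self y).2 hs.symm)
  have hd : b ∉ y :: p := fun hb => hns ((CL_iff_same hc List.mem_cons_self b).1 hb)
  refine ⟨?_, cyc_swap_diff π y b hns⟩
  have h5 := CL_join hc h3' hd
  have h6 : Bw (π * swap y b) ((b1 :: b2 :: l2) ++ l1) := by
    refine ⟨_, h5, ?_⟩
    refine List.Sublist.cons _ ?_
    exact List.Sublist.cons_cons _ (List.Sublist.cons_cons _ (List.Sublist.cons _ hl))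
  exact Bw_rot h6

end HG39
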