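import Pool.Agent.H39.HG.Defs
import Pool.Agent.H39.HG.ZBw
import Pool.Agent.H39.HG.GlueVal
import Pool.Agent.H39.HG.GrPerm

/-!
[H39 HG GRWORD]  (MP_bcc40c_pr)  Growing a tree of triangles at the letter `y` of a word replaces
`y` by the leaves of the tree and merges `sz τ` cycles.

PROOF.  Induction on `τ` generalizing `y bs l1 l2 π`.  Leaves: `glue π [] = π`, the leaf list is `[y]`.
Node `nd a b`, `bs = b0 :: bs'` (`bs ≠ []` because `1 ≤ sz`): the first pair is `(y, b0)`.  The
triangle `b0, f b0, f (f b0)` is a cycle of `π` (hypothesis on `tri f bs`, TF.three), has no repetition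
(Nodup) and does not contain `y`.  Bw_attach: `π1 = π * swap y b0` has the word
`l1 ++ f b0 :: f (f b0) :: l2` and `cyc π1 + 1 = cyc π`.  On `tri f bs'` the permutation `π1` still agrees
with `f` (these darts are different from `y` and `b0`).  Induction for `a` at the letter `f b0`
(right context `f (f b0) :: l2`), the roots `bs'` (`f b0 ∉ tri f bs'`): the word becomes
`l1 ++ leaves a ++ (f (f b0) :: l2)`, the rest of the roots is `bs'.drop a.sz` (grow_rest) and the new
permutation agrees with `f` there.  Induction for `b` at the letter `f (f b0)` with left context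
`l1 ++ leaves a`.  Use glue_append for the list of pairs, `List.drop_drop` at the end.
-/

set_option autoImplicit false

namespace HG39

open Equiv

variable {D : Type} [Fintype D] [DecidableEq D]

theorem grow_word {f : Perm D} (hf : TF f) (τ : Tr) : ∀ (y : D) (bs l1 l2 : List D) (π : Perm D),
    τ.sz ≤ bs.length → (tri f bs).Nodup → y ∉ tri f bs → (∀ d ∈ tri f bs, π d = f d) →
    Bw π (l1 ++ y :: l2) →
    Bw (glue π (grow f τ y bs).1) (l1 ++ ((grow f τ y bs).2.1).map Prod.fst ++ l2) ∧
    cyc (glue π (grow f τ y bs).1) + τ.sz = cyc π ∧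
    ∀ d ∈ tri f (bs.drop τ.sz), glue π (grow f τ y bs).1 d = f d := by
  induction τ with
  | u =>
    intro y bs l1 l2 π _ _ _ h4 h5
    refine ⟨?_, rfl, ?_⟩
    · simpa [grow, glue] using h5
    · intro d hd
      exact h4 d hd
  | d =>
    intro y bs l1 l2 π _ _ _ h4 h5
    refine ⟨?_, rfl, ?_⟩
    · simpa [grow, glue] using h5
    · intro d hd
      exact h4 d hd
  | nd a b iha ihb =>
    intro y bs l1 l2 π h1 h2 h3 h4 h5
    cases bs with
    | nil => simp [Tr.sz] at h1
    | cons b0 bs' =>
      have hsz : a.sz + b.sz + 1 ≤ bs'.length + 1 := h1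
      have htri : tri f (b0 :: bs') = [b0, f b0, f (f b0)] ++ tri f bs' := rfl
      rw [htri] at h2 h3 h4
      have hnd := List.nodup_append.1 h2
      have hn1 : [b0, f b0, f (f b0)].Nodup := hnd.1
      have hn2 : (tri f bs').Nodup := hnd.2.1
      have hdis : ∀ z ∈ [b0, f b0, f (f b0)], z ∉ tri f bs' := fun z hz hz' =>
        hnd.2.2 z hz z hz' rfl
      have hy1 : y ∉ [b0, f b0, f (f b0)] := fun h => h3 (List.mem_append_left _ h)
      have hy2 : y ∉ tri f bs' := fun h => h3 (List.mem_append_right _ h)
      have e1 : π b0 = f b0 := h4 b0 (by simp)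
      have e2 : π (f b0) = f (f b0) := h4 (f b0) (by simp)
      have e3 : π (f (f b0)) = b0 := by
        rw [h4 (f (f b0)) (by simp), hf.three]
      obtain ⟨hB, hcyc⟩ := Bw_attach h5 e1 e2 e3 hn1 hy1
      have hagree : ∀ d ∈ tri f bs', (π * swap y b0) d = f d := by
        intro d hd
        rw [Perm.mul_apply, swap_apply_of_ne_of_ne]
        · exact h4 d (List.mem_append_right _ hd)
        · rintro rfl
          exact hy2 hd
        · rintro rfl
          exact hdis d (by simp) hd
      obtain ⟨ha1, ha2, ha3⟩ := iha (f b0) bs' l1 (f (f b0) :: l2) (π * swap y b0) (by omega) hn2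
        (hdis _ (by simp)) hagree hB
      have hrest : (grow f a (f b0) bs').2.2 = bs'.drop a.sz := grow_rest f a (f b0) bs' (by omega)
      have hsplit : tri f bs' = tri f (bs'.take a.sz) ++ tri f (bs'.drop a.sz) := by
        rw [← tri_append, List.take_append_drop]
      have hn3 : (tri f (bs'.drop a.sz)).Nodup := by
        rw [hsplit] at hn2
        exact (List.nodup_append.1 hn2).2.1
      have hmem : f (f b0) ∉ tri f (bs'.drop a.sz) := by
        intro h
        apply hdis (f (f b0)) (by simp)
        rw [hsplit]
        exact List.mem_append_right _ h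
      obtain ⟨hb1, hb2, hb3⟩ := ihb (f (f b0)) (bs'.drop a.sz)
        (l1 ++ ((grow f a (f b0) bs').2.1).map Prod.fst) l2
        (glue (π * swap y b0) (grow f a (f b0) bs').1)
        (by rw [List.length_drop]; omega) hn3 hmem ha3 ha1
      have hg1 : (grow f (.nd a b) y (b0 :: bs')).1 = (y, b0) :: ((grow f a (f b0) bs').1 ++
          (grow f b (f (f b0)) (bs'.drop a.sz)).1) := by
        rw [← hrest]
        rfl
      have hg2 : (grow f (.nd a b) y (b0 :: bs')).2.1 = (grow f a (f b0) bs').2.1 ++
          (grow f b (f (f b0)) (bs'.drop a.sz)).2.1 := by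
        rw [← hrest]
        rfl
      have hglue : glue π (grow f (.nd a b) y (b0 :: bs')).1 =
          glue (glue (π * swap y b0) (grow f a (f b0) bs').1)
            (grow f b (f (f b0)) (bs'.drop a.sz)).1 := by
        rw [hg1, glue_cons, glue_append]
      rw [hglue, hg2]
      refine ⟨?_, ?_, ?_⟩
      · rw [List.map_append]
        simpa [List.append_assoc] using hb1
      · show _ + (a.sz + b.sz + 1) = _
        omega
      · intro d hd
        apply hb3 d
        have e4 : (b0 :: bs').drop (Tr.nd a b).sz = (bs'.drop a.sz).drop b.sz := by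
          show (b0 :: bs').drop (a.sz + b.sz + 1) = _
          rw [List.drop_succ_cons, List.drop_drop]
        rwa [e4] at hd

end HG39
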