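import Pool.Agent.H39.HG.Defs
import Pool.Agent.H39.HG.GrPerm
import Pool.Agent.H39.HG.EmbBasic
import Pool.Agent.H39.HG.EmbConn

/-!
[H39 HG GROWEMB]  (MP_bcc40c_pr)  The grown tree is an embedded tree, labels exist.

PROOF.  Induction on `τ` generalizing `y bs ℓ`.  Leaf `u`: `wt = 1`, `ℓ' = ℓ`, constructor `Emb.u`
(`ℓ (f y) = ℓ y + 1`); leaf `d` similarly.  Node `nd a b`, `bs = b0 :: bs'`: put
`ℓ1 = ℓ` changed at the three darts `f b0 ↦ ℓ y`, `f (f b0) ↦ ℓ y + wt a`, `b0 ↦ ℓ y + wt a + wt b`
(`Function.update`, the three darts are distinct).  Induction for `a`, `y := f b0`, `bs'`, `ℓ1`: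
`ℓ1 (f (f b0)) = ℓ1 (f b0) + wt a`, `f b0 ∉ tri f bs'`; gives `ℓ2`, equal to `ℓ1` outside of
`tri f (bs'.take a.sz)`.  Induction for `b`, `y := f (f b0)`, `bs'.drop a.sz`, `ℓ2`:
`ℓ2 (f (f (f b0))) = ℓ2 b0 = ℓ1 b0 = ℓ1 (f (f b0)) + wt b`; gives `ℓ3`.  The embedding of `a` is still
one for `ℓ3` (emb_congr: `ℓ3 = ℓ2` on `f b0 :: tri f (bs'.take a.sz)` and at `f (f b0)`, these darts are
not in `tri f ((bs'.drop a.sz).take b.sz)`).  `grow` for the node: the pairs are `(y, b0)`, those of
`a`, those of `b` (with `(grow f a (f b0) bs').2.2 = bs'.drop a.sz`, grow_rest).  `Emb.nd` needs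
`α y = b0`, `α b0 = y`, `ℓ3 b0 = ℓ y + wt = ℓ3 (f y)`, `ℓ3 (f b0) = ℓ y = ℓ3 y` (`y, f y ∉ tri f bs` by
tri_closed), `wt a + wt b ∈ {0, -1}` (ok).  Take/drop: `(b0 :: bs').take (a.sz + b.sz + 1) = b0 ::
(bs'.take a.sz ++ (bs'.drop a.sz).take b.sz)`.
-/

set_option autoImplicit false

namespace HG39

open Equiv

variable {D : Type} [Fintype D] [DecidableEq D]

theorem grow_emb {f : Perm D} (hf : TF f) (τ : Tr) : ∀ (y : D) (bs : List D) (ℓ : D → ℤ),
    τ.ok → τ.sz ≤ bs.length → (tri f bs).Nodup → y ∉ tri f bs → ℓ (f y) = ℓ y + τ.wt →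
    ∃ ℓ' : D → ℤ, (∀ d, d ∉ tri f (bs.take τ.sz) → ℓ' d = ℓ d) ∧
      ∀ α : Perm D, (∀ p ∈ (grow f τ y bs).1, α p.1 = p.2 ∧ α p.2 = p.1) →
        Emb f α ℓ' τ y (bs.take τ.sz) (grow f τ y bs).2.1 := by
  induction τ with
  | u =>
    intro y bs ℓ _ _ _ _ hl
    refine ⟨ℓ, fun _ _ => rfl, fun α _ => ?_⟩
    simp only [Tr.sz, List.take_zero, grow]
    exact Emb.u y (by simpa [Tr.wt] using hl)
  | d =>
    intro y bs ℓ _ _ _ _ hl
    refine ⟨ℓ, fun _ _ => rfl, fun α _ => ?_⟩
    simp only [Tr.sz, List.take_zero, grow]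
    exact Emb.d y (by simp only [Tr.wt] at hl; omega)
  | nd a b iha ihb =>
    intro y bs ℓ hok hsz hnd hy hl
    cases bs with
    | nil => exact absurd hsz (by simp [Tr.sz])
    | cons b0 l =>
      obtain ⟨oka, okb, hw⟩ := hok
      simp only [Tr.sz, List.length_cons] at hsz
      simp only [Tr.wt] at hl
      have h3 := hf.three b0
      have hcons : tri f (b0 :: l) = b0 :: f b0 :: f (f b0) :: tri f l := rfl
      rw [hcons] at hnd hy
      simp only [List.nodup_cons, List.mem_cons, not_or] at hnd hy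
      obtain ⟨⟨n1, n2, n3⟩, ⟨n4, n5⟩, n6, n7⟩ := hnd
      obtain ⟨y1, y2, y3, y4⟩ := hy
      have fy1 : f y ≠ b0 := by
        intro h
        apply y3
        apply f.injective
        rw [h, h3]
      have fy2 : f y ≠ f b0 := fun h => y1 (f.injective h)
      have fy3 : f y ≠ f (f b0) := fun h => y2 (f.injective h)
      have fy4 : f y ∉ tri f l := fun h => y4 ((tri_closed hf l y).1 h)
      have htk : ∀ d, d ∉ tri f l → d ∉ tri f (l.take a.sz) := by
        intro d hd h
        apply hd
        rw [← List.take_append_drop a.sz l, tri_append]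
        exact List.mem_append_left _ h
      have hdr : ∀ d, d ∉ tri f l → d ∉ tri f (l.drop a.sz) := by
        intro d hd h
        apply hd
        rw [← List.take_append_drop a.sz l, tri_append]
        exact List.mem_append_right _ h
      have hdt : ∀ d, d ∉ tri f (l.drop a.sz) → d ∉ tri f ((l.drop a.sz).take b.sz) := by
        intro d hd h
        apply hd
        rw [← List.take_append_drop b.sz (l.drop a.sz), tri_append]
        exact List.mem_append_left _ h
      have hsplit : (tri f (l.take a.sz) ++ tri f (l.drop a.sz)).Nodup := by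
        rw [← tri_append, List.take_append_drop]
        exact n7
      have hdis : ∀ d, d ∈ tri f (l.take a.sz) → d ∉ tri f (l.drop a.sz) := by
        intro d h1 h2
        exact (List.nodup_append.1 hsplit).2.2 d h1 d h2 rfl
      obtain ⟨ℓ2, e2, m2⟩ := iha (f b0) l
        (Function.update (Function.update (Function.update ℓ (f b0) (ℓ y)) (f (f b0))
          (ℓ y + a.wt)) b0 (ℓ y + a.wt + b.wt)) oka (by omega) n7 n5 (by
          rw [Function.update_of_ne (Ne.symm n2), Function.update_self,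
            Function.update_of_ne (Ne.symm n1), Function.update_of_ne n4,
            Function.update_self])
      have v1 : ℓ2 b0 = ℓ y + a.wt + b.wt := by
        rw [e2 _ (htk _ n3), Function.update_self]
      have v2 : ℓ2 (f b0) = ℓ y := by
        rw [e2 _ (htk _ n5), Function.update_of_ne (Ne.symm n1), Function.update_of_ne n4,
          Function.update_self]
      have v3 : ℓ2 (f (f b0)) = ℓ y + a.wt := by
        rw [e2 _ (htk _ n6), Function.update_of_ne (Ne.symm n2), Function.update_self]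
      obtain ⟨ℓ3, e3, m3⟩ := ihb (f (f b0)) (l.drop a.sz) ℓ2 okb
        (by rw [List.length_drop]; omega) (List.nodup_append.1 hsplit).2.1 (hdr _ n6) (by
          rw [h3, v1, v3])
      have w1 : ℓ3 b0 = ℓ y + a.wt + b.wt := by rw [e3 _ (hdt _ (hdr _ n3)), v1]
      have w2 : ℓ3 (f b0) = ℓ y := by rw [e3 _ (hdt _ (hdr _ n5)), v2]
      have w3 : ℓ3 (f (f b0)) = ℓ y + a.wt := by rw [e3 _ (hdt _ (hdr _ n6)), v3]
      have htake : (b0 :: l).take (Tr.nd a b).sz =
          b0 :: (l.take a.sz ++ (l.drop a.sz).take b.sz) := by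
        show (b0 :: l).take (a.sz + b.sz + 1) = _
        rw [List.take_succ_cons, List.take_add]
      have hout : ∀ d, d ≠ b0 → d ≠ f b0 → d ≠ f (f b0) →
          d ∉ tri f (l.take a.sz) → d ∉ tri f ((l.drop a.sz).take b.sz) → ℓ3 d = ℓ d := by
        intro d d1 d2 d3 d4 d5
        rw [e3 _ d5, e2 _ d4, Function.update_of_ne d1, Function.update_of_ne d3,
          Function.update_of_ne d2]
      refine ⟨ℓ3, ?_, ?_⟩
      · intro d hd
        rw [htake] at hd
        have hc2 : tri f (b0 :: (l.take a.sz ++ (l.drop a.sz).take b.sz)) =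
          b0 :: f b0 :: f (f b0) :: tri f (l.take a.sz ++ (l.drop a.sz).take b.sz) := rfl
        rw [hc2, tri_append] at hd
        simp only [List.mem_cons, List.mem_append, not_or] at hd
        exact hout d hd.1 hd.2.1 hd.2.2.1 hd.2.2.2.1 hd.2.2.2.2
      · intro α hα
        have hrest := grow_rest f a (f b0) l (by omega)
        have hg : grow f (Tr.nd a b) y (b0 :: l) =
            ((y, b0) :: ((grow f a (f b0) l).1 ++ (grow f b (f (f b0)) (l.drop a.sz)).1),
              (grow f a (f b0) l).2.1 ++ (grow f b (f (f b0)) (l.drop a.sz)).2.1,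
              (grow f b (f (f b0)) (l.drop a.sz)).2.2) := by
          rw [← hrest]
          rfl
        rw [hg] at hα ⊢
        rw [htake]
        have hα0 := hα (y, b0) (List.mem_cons_self ..)
        have ea := m2 α (fun p hp => hα p (List.mem_cons_of_mem _ (List.mem_append_left _ hp)))
        have eb := m3 α (fun p hp => hα p (List.mem_cons_of_mem _ (List.mem_append_right _ hp)))
        have eay : ∀ d, d ∈ f b0 :: tri f (l.take a.sz) → ℓ3 d = ℓ2 d := by
          intro d hd
          apply e3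
          apply hdt
          rcases List.mem_cons.1 hd with h | h
          · rw [h]; exact hdr _ n5
          · exact hdis d h
        have ea' : Emb f α ℓ3 a (f b0) (l.take a.sz) (grow f a (f b0) l).2.1 := by
          refine emb_congr hf ea eay ?_ ?_
          · rw [w3, v3]
          · intro b hb
            exact ⟨rfl, (emb_ver ea b hb).1⟩
        refine Emb.nd a b y b0 _ _ _ _ hα0.1 hα0.2 ?_ ?_ hw ea' eb
        · rw [w1, hout (f y) fy1 fy2 fy3 (htk _ fy4) (hdt _ (hdr _ fy4)), hl]
          ring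
        · rw [w2, hout y y1 y2 y3 (htk _ y4) (hdt _ (hdr _ y4))]

end HG39
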