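import Pool.Agent.H39.HG.Defs
import Pool.Agent.H39.HG.GlueVal
import Pool.Agent.H39.HG.GrPerm
import Pool.Agent.H39.HG.EmbBasic
import Pool.Agent.H39.HG.GrowEmb
import Pool.Agent.H39.HG.ScanLev
import Pool.Agent.H39.HG.LabBasic
import Pool.Agent.H39.HG.SlcBasic

/-!
[H39 HG INSLEN]  (MP_bcc40c_pr)  Insertion of a slice: lengths, entries, no repetition.

Setting (structure `InsH`, InsLen.lean): `PT f α (e :: c :: bs)`, labels `Lab f α ℓ`, a leftmost
geodesic `δ1 :: δs` of non-legs of length `r` (`ℓ δ1 = r`), an admissible tree `T` with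
`bs.length = T.sz + 1`.  `insS f α e c bs T δ1 δs` (Defs.lean) is the involution `α'` in which
 * the edges `{δ, α δ}` (`δ ∈ δ1 :: δs`) are cut,
 * `e <-> c`, `f c <-> f (f c)` (cap), `f (f e) <-> δ1`,
 * the tree `nd d T` is grown at `f e` with the roots `bs` (pairs `g.1`, leaves `g.2.1`),
 * the parentheses of the leaves are matched (pairs `s.1`), unmatched down leaves `As = s.2.1` (length
   `r`), unmatched up leaves `Bs' = s.2.2` (length `r - 1`, last one first),
 * `Bs'[j] <-> δs[j]`, `As[j] <-> α (δ1 :: δs)[j]`.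

PROOFS.
ins_len: take labels `ℓ1` = `ℓ` changed at `e, f e, f (f e)` to `r, r, r - 1`, grow_emb for `nd d T` (ok,
weight `-1 + 0`, size `T.sz + 1`) gives `ℓ2` and an embedding for any involution `α0` containing the
pairs `g.1` (for instance `α0 = glue 1 g.1`); emb_lvs: the leaves are read from `r` to `r - 1`; emb_low:
`low r = r - ht (nd d T) = r - max 1 (T.ht + 1) = 0`; scan_lev with empty stack: `#As = r`,
`r - 1 = r - #As + #Bs'`, so `#Bs' = r - 1`.
ins_ent: grow_perm, scan_perm, and `ent (l.zip l') ~ l ++ l'` for lists of the same length.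
ins_nodup: the darts of `tri f (e :: c :: bs)` are the legs, no repetition (`ndp`), `δ`'s and `α δ`'s
are non-legs; levels along the geodesic (geo_lev): `δ_j` goes from level `r - j + 1` to `r - j`, so
`α δ_j` starts at level `r - j` and ends (`ℓ (f (α δ_j)) = ℓ δ_j`) at `r - j + 1`: the `δ_j` are distinct, the
`α δ_j` are distinct, and no `δ_i` is an `α δ_j` (one is descending, the other ascending).
-/

set_option autoImplicit false

namespace HG39

open Equiv

variable {D : Type} [Fintype D] [DecidableEq D]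

structure InsH (f α : Perm D) (ℓ : D → ℤ) (r : ℕ) (e c : D) (bs : List D) (T : Tr) (δ1 : D)
    (δs : List D) : Prop where
  tf : TF f
  pt : PT f α (e :: c :: bs)
  lab : Lab f α ℓ
  geo : Geo f α ℓ (δ1 :: δs)
  nl : ∀ d ∈ δ1 :: δs, α d ≠ d
  len : (δ1 :: δs).length = r
  lev : ℓ δ1 = r
  okT : T.ok
  wtT : T.wt = 0
  htT : T.ht = (r : ℤ) - 1
  szT : bs.length = T.sz + 1

/-- the leaves of the inserted tree -/
def insLv (f : Perm D) (e : D) (bs : List D) (T : Tr) : List (D × Bool) :=
  (grow f (.nd .d T) (f e) bs).2.1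

omit [Fintype D] [DecidableEq D] in
private theorem InsLen_ent_cons (p : D × D) (l : List (D × D)) :
    ent (p :: l) = p.1 :: p.2 :: ent l := by
  simp [ent]

omit [Fintype D] [DecidableEq D] in
private theorem InsLen_zip (l : List D) : ∀ l' : List D, l.length = l'.length →
    (ent (l.zip l')).Perm (l ++ l') := by
  induction l with
  | nil =>
    intro l' h
    have : l' = [] := List.length_eq_zero_iff.1 h.symm
    subst this
    simp [ent]
  | cons a l ih =>
    intro l' h
    cases l' with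
    | nil => simp at h
    | cons b l' =>
      rw [List.zip_cons_cons, InsLen_ent_cons]
      simp only [List.length_cons, Nat.add_right_cancel_iff] at h
      have h1 := ih l' h
      calc (a :: b :: ent (l.zip l')).Perm (a :: b :: (l ++ l')) := (h1.cons b).cons a
        _ |>.Perm (a :: (l ++ b :: l')) := (List.perm_middle.symm).cons a

omit [Fintype D] [DecidableEq D] in
private theorem InsLen_tri (f : Perm D) (e c : D) (bs : List D) : tri f (e :: c :: bs) =
    e :: f e :: f (f e) :: c :: f c :: f (f c) :: tri f bs := by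
  simp [tri]

omit [Fintype D] [DecidableEq D] in
private theorem InsLen_dn (f : Perm D) (ℓ : D → ℤ) (l : List D) : ∀ s : ℤ, DnOK f ℓ s l →
    (∀ a ∈ l, ℓ a ≤ s) ∧ l.Nodup := by
  induction l with
  | nil =>
    intro s _
    exact ⟨fun a ha => by simp at ha, List.nodup_nil⟩
  | cons b l ih =>
    rintro s ⟨h1, h2, h3⟩
    obtain ⟨h4, h5⟩ := ih (s - 1) h3
    refine ⟨?_, List.nodup_cons.2 ⟨?_, h5⟩⟩
    · intro a ha
      rcases List.mem_cons.1 ha with rfl | ha
      · exact h1.le
      · linarith [h4 a ha]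
    · intro hb
      linarith [h4 b hb]

private theorem InsLen_perm {f α : Perm D} {ℓ : D → ℤ} {r : ℕ} {e c : D} {bs : List D} {T : Tr}
    {δ1 : D} {δs : List D} (H : InsH f α ℓ r e c bs T δ1 δs) :
    (ent (grow f (.nd .d T) (f e) bs).1 ++ (insLv f e bs T).map Prod.fst).Perm
      (f e :: tri f bs) := by
  have hsz : (Tr.nd .d T).sz = bs.length := by
    show 0 + T.sz + 1 = bs.length
    rw [H.szT, zero_add]
  have h1 := grow_perm f (.nd .d T) (f e) bs hsz.le
  rw [hsz, List.take_length] at h1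
  exact h1

theorem ins_len {f α : Perm D} {ℓ : D → ℤ} {r : ℕ} {e c : D} {bs : List D} {T : Tr} {δ1 : D}
    {δs : List D} (H : InsH f α ℓ r e c bs T δ1 δs) :
    (scan (insLv f e bs T) []).2.1.length = r ∧ (scan (insLv f e bs T) []).2.2.length + 1 = r ∧
    δs.length + 1 = r := by
  have hr : 1 ≤ r := by
    rw [← H.len, List.length_cons]
    omega
  have hr' : (1 : ℤ) ≤ r := by exact_mod_cast hr
  have t1 : (Tr.nd .d T).ok := by
    refine ⟨trivial, H.okT, Or.inr ?_⟩
    show (-1 : ℤ) + T.wt = -1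
    rw [H.wtT]
    rfl
  have t2 : (Tr.nd .d T).wt = -1 := by
    show (-1 : ℤ) + T.wt = -1
    rw [H.wtT]
    rfl
  have t3 : (Tr.nd .d T).ht = r := by
    show max (1 : ℤ) (T.ht - (-1)) = r
    rw [H.htT, max_eq_right (by linarith)]
    ring
  have hsz : (Tr.nd .d T).sz = bs.length := by
    show 0 + T.sz + 1 = bs.length
    rw [H.szT, zero_add]
  have hn := H.pt.ndp
  rw [InsLen_tri] at hn
  have hn1 : (f e :: f (f e) :: c :: f c :: f (f c) :: tri f bs).Nodup := hn.of_cons
  have o2 : f e ∉ tri f bs := by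
    intro hc
    rw [List.nodup_cons] at hn1
    apply hn1.1
    simp only [List.mem_cons]
    tauto
  have o3 : f (f e) ∉ tri f bs := fun hc => o2 ((tri_closed H.tf bs (f e)).1 hc)
  have o1 : e ∉ tri f bs := fun hc => o2 ((tri_closed H.tf bs e).2 hc)
  have d2 : f (f e) ≠ f e := H.tf.nf (f e)
  have d3 : f (f e) ≠ e := by
    intro h
    have h1 := H.tf.three e
    rw [h] at h1
    exact H.tf.nf e h1
  have hnb : (tri f bs).Nodup := by
    have h1 := hn1.of_cons.of_cons.of_cons.of_cons.of_cons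
    exact h1
  obtain ⟨ℓ', g1, g2⟩ := grow_emb H.tf (.nd .d T) (f e) bs
    (fun d => if d = f (f e) then (r : ℤ) - 1 else r) t1 hsz.le hnb o2 (by
      rw [if_pos rfl, if_neg d2.symm, t2]
      rfl)
  rw [hsz, List.take_length] at g1 g2
  have l2 : ℓ' (f e) = r := by rw [g1 _ o2, if_neg d2.symm]
  have l3 : ℓ' (f (f e)) = r - 1 := by rw [g1 _ o3, if_pos rfl]
  have hnd : (ent (grow f (.nd .d T) (f e) bs).1).Nodup := by
    have h1 := (InsLen_perm H).nodup_iff.2 (List.nodup_cons.2 ⟨o2, hnb⟩)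
    exact (List.nodup_append.1 h1).1
  have hE := g2 (glue 1 (grow f (.nd .d T) (f e) bs).1) (fun p hp =>
    glue_pair 1 _ hnd (fun x _ => rfl) p hp)
  have hL1 := emb_lvs H.tf hE
  have hlow := emb_low H.tf hE
  rw [l2] at hL1 hlow
  rw [l3] at hL1
  rw [t3, sub_self] at hlow
  obtain ⟨_, _, _, s4, s5⟩ := scan_lev f ℓ' (insLv f e bs T) [] r (r - 1) hL1 trivial
  have hlow' : low (r : ℤ) (insLv f e bs T) = 0 := hlow
  rw [hlow'] at s5
  simp only [List.length_nil, Nat.cast_zero, sub_zero] at s4 s5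
  rw [max_eq_right (by linarith)] at s5
  refine ⟨by exact_mod_cast s5, ?_, ?_⟩
  · have h6 : ((scan (insLv f e bs T) []).2.2.length : ℤ) + 1 = r := by linarith
    exact_mod_cast h6
  · have h7 := H.len
    rwa [List.length_cons] at h7

theorem ins_ent {f α : Perm D} {ℓ : D → ℤ} {r : ℕ} {e c : D} {bs : List D} {T : Tr} {δ1 : D}
    {δs : List D} (H : InsH f α ℓ r e c bs T δ1 δs) :
    (ent (newPairs f α e c bs T δ1 δs)).Perm
      (tri f (e :: c :: bs) ++ (δ1 :: δs) ++ (δ1 :: δs).map α) := by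
  obtain ⟨e1, e2, e3⟩ := ins_len H
  have hg := InsLen_perm H
  have hs := scan_perm (insLv f e bs T) []
  have hz1 := InsLen_zip (scan (insLv f e bs T) []).2.2 δs (by omega)
  have hz2 := InsLen_zip (scan (insLv f e bs T) []).2.1.reverse ((δ1 :: δs).map α).reverse (by
    rw [List.length_reverse, List.length_reverse, List.length_map, List.length_cons]
    omega)
  have he : ent (newPairs f α e c bs T δ1 δs) = δ1 :: f (f e) :: e :: c :: f c :: f (f c) ::
      (ent (grow f (.nd .d T) (f e) bs).1 ++ ent (scan (insLv f e bs T) []).1 ++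
        ent ((scan (insLv f e bs T) []).2.2.zip δs) ++
        ent ((scan (insLv f e bs T) []).2.1.reverse.zip ((δ1 :: δs).map α).reverse)) := by
    rw [← ent_append, ← ent_append, ← ent_append, newPairs, InsLen_ent_cons, InsLen_ent_cons,
      InsLen_ent_cons]
    rfl
  rw [he, InsLen_tri]
  rw [List.nil_append] at hs
  rw [List.perm_iff_count] at hg hs hz1 hz2 ⊢
  intro a
  have hg' := hg a
  have hs' := hs a
  have hz1' := hz1 a
  have hz2' := hz2 a
  simp only [List.count_append, List.count_cons, List.count_reverse, List.map_cons] at hg' hs' hz1' hz2' ⊢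
  omega

theorem ins_nodup {f α : Perm D} {ℓ : D → ℤ} {r : ℕ} {e c : D} {bs : List D} {T : Tr} {δ1 : D}
    {δs : List D} (H : InsH f α ℓ r e c bs T δ1 δs) :
    (tri f (e :: c :: bs) ++ (δ1 :: δs) ++ (δ1 :: δs).map α).Nodup := by
  have hlev := (geo_lev H.tf H.pt H.lab δ1 δs H.geo H.nl).1
  obtain ⟨_, hnd⟩ := InsLen_dn f ℓ _ _ hlev
  have hα : ∀ d ∈ δ1 :: δs, ∀ d' ∈ δ1 :: δs, d ≠ α d' := by
    intro d hd d' hd' hdd
    have h1 : ℓ (f d) = ℓ d - 1 := H.geo.desc d hd
    have hn' : α (α d') ≠ α d' := by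
      rw [H.pt.inv]
      exact fun hc => H.nl d' hd' hc.symm
    have h2 := H.lab.ver (α d') hn'
    rw [H.pt.inv] at h2
    have h3 := H.lab.ver d' (H.nl d' hd')
    have h4 : ℓ (f d') = ℓ d' - 1 := H.geo.desc d' hd'
    rw [hdd] at h1
    linarith
  rw [List.nodup_append, List.nodup_append]
  refine ⟨⟨H.pt.ndp, hnd, ?_⟩, ?_, ?_⟩
  · intro a ha b hb hab
    rw [hab] at ha
    exact H.nl b hb ((H.pt.leg b).2 ha)
  · exact hnd.map α.injective
  · intro a ha b hb hab
    obtain ⟨d, hd, rfl⟩ := List.mem_map.1 hb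
    rcases List.mem_append.1 ha with ha | ha
    · rw [hab] at ha
      have h1 := (H.pt.leg _).2 ha
      rw [H.pt.inv] at h1
      exact H.nl d hd h1.symm
    · exact hα a ha d hd hab

end HG39
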