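import Pool.Agent.H39.HG.Defs
import Pool.Agent.H39.HG.ZBw
import Pool.Agent.H39.HG.GlueVal

/-!
[H39 HG SCWORD]  (MP_bcc40c_pr)  Zipping: reading the parentheses, and zipping two lists which face
each other.

PROOF of scan_word: induction on `lv` generalizing `st l1 π`.
`[]`: nothing to do.  `(y, true) :: lv`: the word is the same, `(y :: st).reverse = st.reverse ++ [y]`.
`(y, false) :: lv` with `st = x :: st'`: the word is `l1 ++ (st'.reverse ++ [x]) ++ (y :: lv..) ++ l2`,
`x` and `y` are neighbours: Bw_zip, one more cycle, the pair `(x, y)` comes first in the list of pairs.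
`(y, false) :: lv` with empty stack: `y` becomes the end of `l1` (use `l1 ++ [y]`), it is the head of
the second component.
PROOF of nest_word: induction on `l1` generalizing `l2 π`; `l1 = a :: l1'`, `l2 = b :: l2'`:
`l1.reverse ++ l2 = l1'.reverse ++ a :: b :: l2'`, Bw_zip, then induction.
-/

set_option autoImplicit false

namespace HG39

open Equiv

variable {D : Type} [Fintype D] [DecidableEq D]

theorem scan_word (lv : List (D × Bool)) : ∀ (st l1 l2 : List D) (π : Perm D),
    Bw π (l1 ++ st.reverse ++ lv.map Prod.fst ++ l2) →
    Bw (glue π (scan lv st).1) (l1 ++ (scan lv st).2.1 ++ (scan lv st).2.2.reverse ++ l2) ∧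
    cyc (glue π (scan lv st).1) = cyc π + (scan lv st).1.length := by
  induction lv with
  | nil =>
    intro st l1 l2 π h
    simp only [scan, List.map_nil, List.append_nil, List.length_nil, add_zero] at h ⊢
    exact ⟨h, rfl⟩
  | cons p lv ih =>
    obtain ⟨y, s⟩ := p
    intro st l1 l2 π h
    cases s with
    | true =>
      have e : scan ((y, true) :: lv) st = scan lv (y :: st) := by rw [scan]
      rw [e]
      apply ih (y :: st) l1 l2 π
      simpa using h
    | false =>
      cases st with
      | nil =>
        have e1 : scan ((y, false) :: lv) [] =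
            ((scan lv []).1, y :: (scan lv []).2.1, (scan lv []).2.2) := by rw [scan]
        rw [e1]
        have h1 := ih [] (l1 ++ [y]) l2 π (by simpa using h)
        simpa using h1
      | cons x st =>
        have e1 : scan ((y, false) :: lv) (x :: st) =
            ((x, y) :: (scan lv st).1, (scan lv st).2.1, (scan lv st).2.2) := by rw [scan]
        have h1 : Bw π ((l1 ++ st.reverse) ++ x :: y :: (lv.map Prod.fst ++ l2)) := by
          simpa using h
        obtain ⟨h2, h3⟩ := Bw_zip h1
        obtain ⟨h4, h5⟩ := ih st l1 l2 (π * swap x y) (by simpa using h2)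
        rw [e1]
        refine ⟨h4, ?_⟩
        show cyc (glue (π * swap x y) (scan lv st).1) = cyc π + ((scan lv st).1.length + 1)
        rw [h5, h3]
        ring

theorem nest_word (l1 : List D) : ∀ (l2 X Y : List D) (π : Perm D), l1.length = l2.length →
    Bw π (X ++ l1.reverse ++ l2 ++ Y) →
    Bw (glue π (l1.zip l2)) (X ++ Y) ∧
    cyc (glue π (l1.zip l2)) = cyc π + l1.length := by
  induction l1 with
  | nil =>
    intro l2 X Y π hl h
    have hl2 : l2 = [] := List.eq_nil_of_length_eq_zero hl.symm
    subst hl2
    simp only [List.reverse_nil, List.append_nil] at h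
    exact ⟨h, rfl⟩
  | cons a l1 ih =>
    intro l2 X Y π hl h
    cases l2 with
    | nil => exact absurd hl (by simp)
    | cons b l2 =>
      have h1 : Bw π ((X ++ l1.reverse) ++ a :: b :: (l2 ++ Y)) := by simpa using h
      obtain ⟨h2, h3⟩ := Bw_zip h1
      obtain ⟨h4, h5⟩ := ih l2 X Y (π * swap a b) (by simpa using hl) (by simpa using h2)
      refine ⟨h4, ?_⟩
      show cyc (glue (π * swap a b) (l1.zip l2)) = cyc π + (l1.length + 1)
      rw [h5, h3]
      ring

end HG39
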