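import Pool.Agent.H39.HG.Defs
import Pool.Agent.H39.HG.ZSwap
import Pool.Agent.H39.HG.ZCL
import Pool.Agent.H39.HG.ZBw
import Pool.Agent.H39.HG.GlueVal
import Pool.Agent.H39.HG.GrPerm
import Pool.Agent.H39.HG.LabBasic

/-!
[H39 HG SLITWORD]  (MP_bcc40c_pr)  Cutting a geodesic open: `r` cycles are lost, the boundary word is
`δ_1 ... δ_r, α δ_r ... α δ_1`.

PROOF.  Induction on `δs`; statement for the induction (π = f * α, π' = glue π (cuts α (δ :: δs))):
there are lists `X`, `s` with  CL π' (δ :: (X ++ s)),  CL π (δ :: s),  `(δs ++ ((δ :: δs).map α).reverse)`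
is a sublist of `X`, cyc π' + (number of cuts) = cyc π, and every dart `x` of `X ++ [δ]` which is not in
the `π`-cycle of `δ` has level `ℓ x < ℓ δ` (in particular `π'` and `π` agree on darts of level > `ℓ δ`:
all entries of the cuts have level `≤ ℓ δ`).
Base case `δs = []`: the cycles of `δ` (level `ℓ δ`) and of `α δ` (level `ℓ δ - 1`) are different.  CL π
(δ :: s) (CL_exists), CL π (α δ :: q); CL_join with `a = δ`, `b = α δ`:  `δ :: (q ++ α δ :: s)`; put `X = q ++ [α δ]`.
Step `δ :: δ' :: δs`: `cuts α (δ :: δ' :: δs) = cuts α (δ' :: δs) ++ [(δ, α δ)]` (reverse), so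
`π'' = π' * swap δ (α δ)` with `π'` for `δ' :: δs`: CL π' (δ' :: (X ++ s)), CL π (δ' :: s).  `α δ` is in the
`π`-cycle of `δ'` (Geo.next, Fst, pth_same) and `α δ ≠ δ'` (`δ'` is descending, `α δ` is ascending:
`ℓ (f (α δ)) = ℓ δ = ℓ (α δ) + 1`), so `s = s1 ++ α δ :: s2`.  The `π`-cycle of `δ`: CL π (δ :: t), all its
darts have level `ℓ δ` = `ℓ δ' + 1`, so it is also a cyclic list of `π'` (CL_frame, the entries of the
cuts of `δ' :: δs` have levels `≤ ℓ δ'`).  Rotate the big list: `α δ :: (s2 ++ δ' :: (X ++ s1))`; CL_join with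
`a = δ` (list `δ :: t`), `b = α δ`:  CL π'' (δ :: ((s2 ++ δ' :: (X ++ s1)) ++ α δ :: t)).  So the new `X` is
`s2 ++ δ' :: (X ++ s1) ++ [α δ]`, containing `δ' :: (δs ++ ... .reverse) ++ [α δ]`, the new `s` is `t`.
The cycles are different, cyc_swap_diff.
(The levels: `lab_same` for non-legs.)
-/

set_option autoImplicit false

namespace HG39

open Equiv

variable {D : Type} [Fintype D] [DecidableEq D]

omit [Fintype D] [DecidableEq D] in
theorem sw_cuts_cons (α : Perm D) (δ : D) (l : List D) :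
    cuts α (δ :: l) = cuts α l ++ [(δ, α δ)] := by
  unfold cuts
  rw [List.map_cons, List.reverse_cons]

theorem sw_glue_cons (π α : Perm D) (δ : D) (l : List D) :
    glue π (cuts α (δ :: l)) = glue π (cuts α l) * swap δ (α δ) := by
  rw [sw_cuts_cons, glue_append]
  rfl

theorem sw_mem (α : Perm D) (l : List D) (x : D) (hx : x ∈ ent (cuts α l)) :
    ∃ d ∈ l, x = d ∨ x = α d := by
  induction l with
  | nil => exact absurd hx (by simp [cuts, ent])
  | cons a l ih =>
    rw [sw_cuts_cons, ent_append, List.mem_append] at hx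
    rcases hx with hx | hx
    · obtain ⟨d, hd, h⟩ := ih hx
      exact ⟨d, List.mem_cons_of_mem _ hd, h⟩
    · refine ⟨a, List.mem_cons_self, ?_⟩
      simpa [ent] using hx

theorem sw_frame {π : Perm D} {c : List D} (l : List (D × D)) (h : CL π c)
    (hl : ∀ x ∈ ent l, x ∉ c) : CL (glue π l) c := by
  induction l generalizing π with
  | nil => exact h
  | cons p l ih =>
    have he : ent (p :: l) = p.1 :: p.2 :: ent l := rfl
    rw [he] at hl
    rw [glue_cons]
    refine ih (CL_frame h (hl _ List.mem_cons_self)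
      (hl _ (List.mem_cons_of_mem _ List.mem_cons_self))) fun x hx =>
      hl x (List.mem_cons_of_mem _ (List.mem_cons_of_mem _ hx))

theorem sw_ind {f α : Perm D} {bs : List D} {ℓ : D → ℤ} (hf : TF f) (h : PT f α bs)
    (hl : Lab f α ℓ) (δs : List D) : ∀ δ : D, Geo f α ℓ (δ :: δs) →
    (∀ d ∈ δ :: δs, α d ≠ d) →
    ∃ X s : List D, CL (glue (f * α) (cuts α (δ :: δs))) (δ :: (X ++ s)) ∧
      CL (f * α) (δ :: s) ∧ (δs ++ ((δ :: δs).map α).reverse).Sublist X ∧
      cyc (glue (f * α) (cuts α (δ :: δs))) + (δ :: δs).length = cyc (f * α) ∧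
      ∀ x ∈ ent (cuts α (δ :: δs)), ℓ x ≤ ℓ δ := by
  induction δs with
  | nil =>
    intro δ hg hn
    have hnl : α δ ≠ δ := hn δ List.mem_cons_self
    have hD : ℓ (f δ) = ℓ δ - 1 := hg.desc δ List.mem_cons_self
    have hv : ℓ (f δ) = ℓ (α δ) := hl.ver δ hnl
    obtain ⟨t, ht⟩ := CL_exists (f * α) δ
    obtain ⟨q, hq⟩ := CL_exists (f * α) (α δ)
    have hd : α δ ∉ δ :: t := by
      intro hm
      have h1 := (CL_iff_same ht List.mem_cons_self (α δ)).1 hm
      have h2 := (lab_same hf h hl δ (α δ) hnl h1).1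
      omega
    have hs : ¬ (f * α).SameCycle δ (α δ) := fun h1 =>
      hd ((CL_iff_same ht List.mem_cons_self (α δ)).2 h1)
    have hj := CL_join ht hq hd
    have hgl : glue (f * α) (cuts α [δ]) = f * α * swap δ (α δ) := rfl
    refine ⟨q ++ [α δ], t, ?_, ht, ?_, ?_, ?_⟩
    · rw [hgl]
      have he : δ :: ((q ++ [α δ]) ++ t) = δ :: (q ++ α δ :: t) := by simp
      rw [he]
      exact hj
    · simp
    · rw [hgl, List.length_singleton]
      exact cyc_swap_diff _ _ _ hs
    · intro x hx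
      obtain ⟨d, hd1, hx1⟩ := sw_mem α [δ] x hx
      rw [List.mem_singleton] at hd1
      subst hd1
      rcases hx1 with hx1 | hx1
      · rw [hx1]
      · rw [hx1]
        omega
  | cons δ' δs ih =>
    intro δ hg hn
    have hg' : Geo f α ℓ (δ' :: δs) := by
      refine ⟨fun d hd => hg.desc d (List.mem_cons_of_mem _ hd), ?_, ?_⟩
      · intro p q a b hpq
        exact hg.next (δ :: p) q a b (by rw [hpq]; rfl)
      · intro p a hpa
        exact hg.last (δ :: p) a (by rw [hpa]; rfl)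
    obtain ⟨X, s, h1, h2, h3, h4, h5⟩ := ih δ' hg' fun d hd => hn d (List.mem_cons_of_mem _ hd)
    have hnl : α δ ≠ δ := hn δ List.mem_cons_self
    have hnl2 : α (α δ) ≠ α δ := fun h0 => hnl ((nl_a h δ).1 h0)
    have hD : ℓ (f δ) = ℓ δ - 1 := hg.desc δ List.mem_cons_self
    have hD' : ℓ (f δ') = ℓ δ' - 1 := hg'.desc δ' List.mem_cons_self
    have hv : ℓ (f δ) = ℓ (α δ) := hl.ver δ hnl
    have hv2 : ℓ (f (α δ)) = ℓ (α (α δ)) := hl.ver (α δ) hnl2
    rw [h.inv] at hv2
    have hF : Fst f α ℓ (α δ) δ' := hg.next [] δs δ δ' rfl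
    have hS : (f * α).SameCycle (α δ) δ' := pth_same h.inv hF.2
    have hlev : ℓ (α δ) = ℓ δ' := (lab_same hf h hl _ _ hnl2 hS).1
    have hne : α δ ≠ δ' := by
      intro h0
      rw [h0] at hv2
      omega
    have hm : α δ ∈ δ' :: s := (CL_iff_same h2 List.mem_cons_self (α δ)).2 hS.symm
    rw [List.mem_cons] at hm
    have hm' : α δ ∈ s := hm.resolve_left hne
    obtain ⟨s1, s2, rfl⟩ := List.append_of_mem hm'
    obtain ⟨t, ht⟩ := CL_exists (f * α) δ
    have hlt : ∀ x ∈ δ :: t, ℓ x = ℓ δ := by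
      intro x hx
      exact (lab_same hf h hl δ x hnl ((CL_iff_same ht List.mem_cons_self x).1 hx)).1.symm
    have ht' : CL (glue (f * α) (cuts α (δ' :: δs))) (δ :: t) := by
      refine sw_frame _ ht fun x hx hx2 => ?_
      have h6 := h5 x hx
      have h7 := hlt x hx2
      omega
    have hd : α δ ∉ δ :: t := by
      intro h6
      have h7 := hlt _ h6
      omega
    have hs : ¬ (glue (f * α) (cuts α (δ' :: δs))).SameCycle δ (α δ) := fun h6 =>
      hd ((CL_iff_same ht' List.mem_cons_self (α δ)).2 h6)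
    have hrot : CL (glue (f * α) (cuts α (δ' :: δs))) (α δ :: (s2 ++ δ' :: (X ++ s1))) := by
      have h6 := CL_rotate h1 (δ' :: (X ++ s1)).length
      have he : δ' :: (X ++ (s1 ++ α δ :: s2)) = (δ' :: (X ++ s1)) ++ α δ :: s2 := by simp
      rw [he, List.rotate_append_length_eq] at h6
      exact h6
    have hj := CL_join ht' hrot hd
    refine ⟨(s2 ++ δ' :: (X ++ s1)) ++ [α δ], t, ?_, ht, ?_, ?_, ?_⟩
    · rw [sw_glue_cons]
      have he : δ :: (((s2 ++ δ' :: (X ++ s1)) ++ [α δ]) ++ t) =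
          δ :: ((s2 ++ δ' :: (X ++ s1)) ++ α δ :: t) := by simp
      rw [he]
      exact hj
    · have he : (δ' :: δs) ++ ((δ :: δ' :: δs).map α).reverse =
          ([] ++ δ' :: ((δs ++ ((δ' :: δs).map α).reverse) ++ [])) ++ [α δ] := by simp
      rw [he]
      refine List.Sublist.append (List.Sublist.append (List.nil_sublist _) ?_)
        (List.Sublist.refl _)
      exact List.Sublist.cons_cons _ (List.Sublist.append h3 (List.nil_sublist _))
    · rw [sw_glue_cons]
      have h6 := cyc_swap_diff _ _ _ hs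
      have h7 : (δ :: δ' :: δs).length = (δ' :: δs).length + 1 := rfl
      rw [h7, ← h4, ← h6]
      ring
    · intro x hx
      rw [sw_cuts_cons, ent_append, List.mem_append] at hx
      rcases hx with hx | hx
      · have h6 := h5 x hx
        omega
      · have hx' : x = δ ∨ x = α δ := by simpa [ent] using hx
        rcases hx' with hx' | hx'
        · rw [hx']
        · rw [hx']
          omega

theorem slit_word {f α : Perm D} {bs : List D} {ℓ : D → ℤ} (hf : TF f) (h : PT f α bs)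
    (hl : Lab f α ℓ) (δ : D) (δs : List D) (hg : Geo f α ℓ (δ :: δs))
    (hn : ∀ d ∈ δ :: δs, α d ≠ d) :
    Bw (glue (f * α) (cuts α (δ :: δs))) ((δ :: δs) ++ ((δ :: δs).map α).reverse) ∧
    cyc (glue (f * α) (cuts α (δ :: δs))) + (δ :: δs).length = cyc (f * α) ∧
    ∀ d ∈ tri f bs, glue (f * α) (cuts α (δ :: δs)) d = f d := by
  obtain ⟨X, s, h1, _, h3, h4, _⟩ := sw_ind hf h hl δs δ hg hn
  refine ⟨⟨_, h1, ?_⟩, h4, ?_⟩
  · rw [List.cons_append]
    exact List.Sublist.cons_cons _ (h3.trans (List.sublist_append_left _ _))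
  · intro d hd
    have h5 : α d = d := (h.leg d).2 hd
    rw [glue_notMem, Perm.mul_apply, h5]
    intro h6
    obtain ⟨e, he, h7⟩ := sw_mem α _ d h6
    rcases h7 with h7 | h7
    · rw [h7] at h5
      exact hn e he h5
    · rw [h7] at h5
      exact hn e he ((nl_a h e).1 h5)

end HG39
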