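import Pool.Agent.H39.HG.Defs
import Pool.Agent.H39.HG.ZSwap
import Pool.Agent.H39.HG.ZCL
import Pool.Agent.H39.HG.ZBw
import Pool.Agent.H39.HG.GlueVal
import Pool.Agent.H39.HG.GrPerm
import Pool.Agent.H39.HG.GrWord
import Pool.Agent.H39.HG.ScWord
import Pool.Agent.H39.HG.LabBasic
import Pool.Agent.H39.HG.SlitWord
import Pool.Agent.H39.HG.EmbBasic
import Pool.Agent.H39.HG.GrowEmb
import Pool.Agent.H39.HG.ScanLev
import Pool.Agent.H39.HG.SlcBasic
import Pool.Agent.H39.HG.InsLen
import Pool.Agent.H39.HG.InsVal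

/-!
[H39 HG INSCYC]  (MP_bcc40c_pr)  Insertion of a slice: the number of vertices.

Setting (structure `InsH`, InsLen.lean): `PT f α (e :: c :: bs)`, labels `Lab f α ℓ`, a leftmost
geodesic `δ1 :: δs` of non-legs of length `r` (`ℓ δ1 = r`), an admissible tree `T` with
`bs.length = T.sz + 1`.  `insS f α e c bs T δ1 δs` (Defs.lean) is the involution `α'` in which
 * the edges `{δ, α δ}` (`δ ∈ δ1 :: δs`) are cut,
 * `e <-> c`, `f c <-> f (f c)` (cap), `f (f e) <-> δ1`,
 * the tree `nd d T` is grown at `f e` with the roots `bs` (pairs `g.1`, leaves `g.2.1`),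
 * the parentheses of the leaves are matched (pairs `s.1`), unmatched down leaves `As = s.2.1` (length
   `r`), unmatched up leaves `Bs' = s.2.2` (length `r - 1`, last one first),
 * `Bs'[j] <-> δs[j]`, `As[j] <-> α (δ1 :: δs)[j]`.

PROOF.  `glue_mul`: `f * insS .. = glue (f * α) (cuts ++ newPairs)`; follow the word (`Bw`) and the
number of cycles:
 1. after the cuts (slit_word): word `δ1 :: (δs ++ (αδ).reverse)`, -r; `f`-triangles of `e, c, bs` intact.
 2. `(δ1, f (f e))`: Bw_attach with `y = δ1`, `b = f (f e)`, `b1 = e`, `b2 = f e` (`f (f (f e)) = e`):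
    word `e :: f e :: (δs ++ ..)`, -1.
 3. `(e, c)`: Bw_attach with `y = e`, triangle `c, f c, f (f c)`: word `f c :: f (f c) :: f e :: (δs ++ ..)`, -1.
 4. `(f c, f (f c))`: Bw_zip: word `f e :: (δs ++ ..)`, +1.
 5. grow_word at `f e` with the roots `bs` (intact triangles: the darts of `tri f bs` are different from
    the darts used so far): word `leaves ++ (δs ++ ..)`, `-(T.sz + 1)`.
 6. scan_word (empty stack, `l1 = []`, `l2 = δs ++ ..`): word `As ++ Bs'.reverse ++ δs ++ (αδ).reverse`,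
    `+ #pairs`.
 7. nest_word (`X = As`, `l1 = Bs'`, `l2 = δs`): `+ (r - 1)`, word `As ++ (αδ).reverse`.
 8. nest_word (`X = []`, `l1 = As.reverse`, `l2 = (αδ).reverse`): `+ r`.
Count of the leaves (grow_len, scan_perm): `T.sz + 2 = 2 #pairs + r + (r - 1)`.  Total: with
`T.sz + 3 = 2 K`: `#pairs = K - r`, change `-r -1 -1 +1 -(2K - 2) + (K - r) + (r - 1) + r = -K`.
-/

set_option autoImplicit false

namespace HG39

open Equiv

variable {D : Type} [Fintype D] [DecidableEq D]

theorem ins_cyc {f α : Perm D} {ℓ : D → ℤ} {r : ℕ} {e c : D} {bs : List D} {T : Tr} {δ1 : D}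
    {δs : List D} (H : InsH f α ℓ r e c bs T δ1 δs) (K : ℕ) (hK : T.sz + 3 = 2 * K) :
    cyc (f * insS f α e c bs T δ1 δs) + K = cyc (f * α) := by
  have hf := H.tf
  obtain ⟨w0, c0, t0⟩ := slit_word hf H.pt H.lab δ1 δs H.geo H.nl
  obtain ⟨len1, len2, len3⟩ := ins_len H
  have hn := ins_nodup H
  rw [List.nodup_append, List.nodup_append] at hn
  obtain ⟨⟨hn1, -, hn3⟩, -, -⟩ := hn
  have ht : tri f (e :: c :: bs) =
      e :: f e :: f (f e) :: c :: f c :: f (f c) :: tri f bs := rfl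
  have hm : ∀ d, d ∈ tri f (e :: c :: bs) ↔ d = e ∨ d = f e ∨ d = f (f e) ∨ d = c ∨ d = f c ∨
      d = f (f c) ∨ d ∈ tri f bs := by
    intro d
    rw [ht]
    simp only [List.mem_cons]
  rw [ht] at hn1
  simp only [List.nodup_cons, List.mem_cons, not_or] at hn1
  obtain ⟨⟨a1, a2, a3, a4, a5, a6⟩, ⟨b1, b2, b3, b4, b5⟩, ⟨d1, d2, d3, d4⟩, ⟨e1, e2, e3⟩,
    ⟨g1, g2⟩, g3, g4⟩ := hn1
  have hδ : ∀ d ∈ tri f (e :: c :: bs), d ≠ δ1 := fun d hd =>
    hn3 d hd δ1 List.mem_cons_self
  set R : List D := ((δ1 :: δs).map α).reverse with hR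
  set π0 : Perm D := glue (f * α) (cuts α (δ1 :: δs)) with hπ0
  -- step 2
  have k0 := t0 e ((hm e).2 (by tauto))
  have k1 := t0 (f e) ((hm _).2 (by tauto))
  have k2 := t0 (f (f e)) ((hm _).2 (by tauto))
  rw [hf.three] at k2
  have w0' : Bw π0 ([] ++ δ1 :: (δs ++ R)) := w0
  obtain ⟨w1, c1⟩ := Bw_attach w0' k2 k0 k1 (by
    simp only [List.nodup_cons, List.mem_cons, List.not_mem_nil, or_false, not_or,
      not_false_eq_true, List.nodup_nil, and_true]
    exact ⟨⟨Ne.symm a2, Ne.symm b1⟩, a1⟩) (by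
    simp only [List.mem_cons, List.not_mem_nil, or_false, not_or]
    exact ⟨(hδ _ ((hm _).2 (by tauto))).symm, (hδ _ ((hm _).2 (by tauto))).symm,
      (hδ _ ((hm _).2 (by tauto))).symm⟩)
  set π1 : Perm D := π0 * swap δ1 (f (f e)) with hπ1
  have v1 : ∀ d ∈ tri f (e :: c :: bs), d ≠ f (f e) → π1 d = f d := by
    intro d hd hd'
    rw [hπ1, Perm.mul_apply, swap_apply_of_ne_of_ne (hδ d hd) hd']
    exact t0 d hd
  -- step 3
  have m1 := v1 c ((hm _).2 (by tauto)) (Ne.symm d1)
  have m2 := v1 (f c) ((hm _).2 (by tauto)) (Ne.symm d2)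
  have m3 := v1 (f (f c)) ((hm _).2 (by tauto)) (Ne.symm d3)
  rw [hf.three] at m3
  obtain ⟨w2, c2⟩ := Bw_attach w1 m1 m2 m3 (by
    simp only [List.nodup_cons, List.mem_cons, List.not_mem_nil, or_false, not_or,
      not_false_eq_true, List.nodup_nil, and_true]
    exact ⟨⟨e1, e2⟩, g1⟩) (by
    simp only [List.mem_cons, List.not_mem_nil, or_false, not_or]
    exact ⟨a3, a4, a5⟩)
  set π2 : Perm D := π1 * swap e c with hπ2
  -- step 4
  obtain ⟨w3, c3⟩ := Bw_zip w2
  set π3 : Perm D := π2 * swap (f c) (f (f c)) with hπ3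
  have v3 : ∀ d ∈ tri f bs, π3 d = f d := by
    intro d hd
    have n1 : d ≠ f (f c) := fun h => g3 (by rw [← h]; exact hd)
    have n2 : d ≠ f c := fun h => g2 (by rw [← h]; exact hd)
    have n3 : d ≠ c := fun h => e3 (by rw [← h]; exact hd)
    have n4 : d ≠ e := fun h => a6 (by rw [← h]; exact hd)
    have n5 : d ≠ f (f e) := fun h => d4 (by rw [← h]; exact hd)
    rw [hπ3, Perm.mul_apply, swap_apply_of_ne_of_ne n2 n1, hπ2, Perm.mul_apply,
      swap_apply_of_ne_of_ne n4 n3]
    exact v1 d ((hm d).2 (by tauto)) n5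
  -- step 5
  have hsz : (Tr.nd .d T).sz = T.sz + 1 := by
    show 0 + T.sz + 1 = T.sz + 1
    rw [zero_add]
  have hszb : (Tr.nd .d T).sz ≤ bs.length := by rw [hsz, H.szT]
  obtain ⟨w4, c4, -⟩ := grow_word hf (.nd .d T) (f e) bs [] (δs ++ R) π3 hszb g4 b5 v3 w3
  have hgl := grow_len f (.nd .d T) (f e) bs hszb
  have hlv : (grow f (.nd .d T) (f e) bs).2.1 = insLv f e bs T := rfl
  rw [hlv] at w4 hgl
  set lv : List (D × Bool) := insLv f e bs T with hlvdef
  set π4 : Perm D := glue π3 (grow f (.nd .d T) (f e) bs).1 with hπ4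
  -- step 6
  obtain ⟨w5, c5⟩ := scan_word lv [] [] (δs ++ R) π4 w4
  have hsp := (scan_perm lv []).length_eq
  have hent : ∀ l : List (D × D), (ent l).length = 2 * l.length := by
    intro l
    induction l with
    | nil => rfl
    | cons p l ih =>
      show ((p.1 :: p.2 :: ent l) : List D).length = 2 * (l.length + 1)
      simp only [List.length_cons, ih]
      ring
  simp only [List.length_append, hent, List.length_nil, List.length_map, zero_add] at hsp
  set s := scan lv [] with hs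
  set π5 : Perm D := glue π4 s.1 with hπ5
  -- step 7
  have w5' : Bw π5 (s.2.1 ++ s.2.2.reverse ++ δs ++ R) := by
    rw [List.append_assoc (s.2.1 ++ s.2.2.reverse)]
    exact w5
  obtain ⟨w6, c6⟩ := nest_word s.2.2 δs s.2.1 R π5 (by omega) w5'
  set π6 : Perm D := glue π5 (s.2.2.zip δs) with hπ6
  -- step 8
  have hRl : R.length = δs.length + 1 := by
    rw [hR, List.length_reverse, List.length_map, List.length_cons]
  have w6' : Bw π6 ([] ++ s.2.1.reverse.reverse ++ R ++ []) := by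
    rw [List.reverse_reverse, List.nil_append, List.append_nil]
    exact w6
  obtain ⟨-, c7⟩ := nest_word s.2.1.reverse R [] [] π6 (by rw [List.length_reverse]; omega) w6'
  have hfin : f * insS f α e c bs T δ1 δs = glue π6 (s.2.1.reverse.zip R) := by
    show f * glue α (cuts α (δ1 :: δs) ++ newPairs f α e c bs T δ1 δs) = _
    rw [← glue_mul, glue_append]
    show glue π0 ((δ1, f (f e)) :: (e, c) :: (f c, f (f c)) ::
      ((grow f (.nd .d T) (f e) bs).1 ++ s.1 ++ s.2.2.zip δs ++ s.2.1.reverse.zip R)) = _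
    rw [glue_cons, glue_cons, glue_cons, glue_append, glue_append, glue_append]
  rw [hfin]
  rw [List.length_reverse] at c7
  have h9 := hgl.2
  rw [hsz] at c4 h9
  rw [List.length_cons] at c0
  omega

end HG39
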