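import Pool.Agent.H39.HG.Defs
import Pool.Agent.H39.HG.GlueVal
import Pool.Agent.H39.HG.GrPerm
import Pool.Agent.H39.HG.EmbBasic
import Pool.Agent.H39.HG.LabBasic
import Pool.Agent.H39.HG.SlcBasic
import Pool.Agent.H39.HG.InsLen

/-!
[H39 HG INSVAL]  (MP_bcc40c_pr)  Insertion of a slice: values of the new involution.

Setting (structure `InsH`, InsLen.lean): `PT f α (e :: c :: bs)`, labels `Lab f α ℓ`, a leftmost
geodesic `δ1 :: δs` of non-legs of length `r` (`ℓ δ1 = r`), an admissible tree `T` with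
`bs.length = T.sz + 1`.  `insS f α e c bs T δ1 δs` (Defs.lean) is the involution `α'` in which
 * the edges `{δ, α δ}` (`δ ∈ δ1 :: δs`) are cut,
 * `e <-> c`, `f c <-> f (f c)` (cap), `f (f e) <-> δ1`,
 * the tree `nd d T` is grown at `f e` with the roots `bs` (pairs `g.1`, leaves `g.2.1`),
 * the parentheses of the leaves are matched (pairs `s.1`), unmatched down leaves `As = s.2.1` (length
   `r`), unmatched up leaves `Bs' = s.2.2` (length `r - 1`, last one first),
 * `Bs'[j] <-> δs[j]`, `As[j] <-> α (δ1 :: δs)[j]`.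

PROOFS.
ins_val: `glue α (cuts ++ new) = glue (glue α cuts) new`; `α1 = glue α cuts` fixes the `δ`'s and `α δ`'s
(glue_cut) and is equal to `α` elsewhere; all entries of `new` are fixed points of `α1`; glue_pair,
glue_notMem, glue_inv.
ins_maps: `(f (f e) :: Bs').map α' = δ1 :: δs`, `As.map α' = (δ1 :: δs).map α` from the pairs of the two
zips (`As.reverse.zip (..).reverse` = reverse of the zip for lists of equal length).
-/

set_option autoImplicit false

namespace HG39

open Equiv

variable {D : Type} [Fintype D] [DecidableEq D]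

omit [Fintype D] [DecidableEq D] in
private theorem InsVal_mem_ent (l : List (D × D)) (d : D) :
    d ∈ ent l ↔ ∃ p ∈ l, d = p.1 ∨ d = p.2 := by
  simp [ent]

omit [Fintype D] [DecidableEq D] in
private theorem InsVal_ent_cons (p : D × D) (l : List (D × D)) :
    ent (p :: l) = p.1 :: p.2 :: ent l := by
  simp [ent]

omit [Fintype D] [DecidableEq D] in
private theorem InsVal_ne (l : List (D × D)) (hn : (ent l).Nodup) (p : D × D) (hp : p ∈ l) :
    p.1 ≠ p.2 := by
  induction l with
  | nil => simp at hp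
  | cons q l ih =>
    rw [InsVal_ent_cons] at hn
    rcases List.mem_cons.1 hp with rfl | hp
    · intro h
      rw [List.nodup_cons] at hn
      exact hn.1 (by rw [h]; exact List.mem_cons_self)
    · rw [List.nodup_cons, List.nodup_cons] at hn
      exact ih hn.2.2 hp

omit [Fintype D] [DecidableEq D] in
private theorem InsVal_zipmap (g : D → D) (l : List D) : ∀ l' : List D, l.length = l'.length →
    (∀ p ∈ l.zip l', g p.1 = p.2) → l.map g = l' := by
  induction l with
  | nil =>
    intro l' h _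
    exact (List.length_eq_zero_iff.1 h.symm).symm
  | cons a l ih =>
    intro l' h hp
    cases l' with
    | nil => simp at h
    | cons b l' =>
      rw [List.zip_cons_cons] at hp
      rw [List.map_cons, hp (a, b) List.mem_cons_self,
        ih l' (by simpa using h) (fun p hp' => hp p (List.mem_cons_of_mem _ hp'))]

omit [Fintype D] in
private theorem InsVal_cuts (α : Perm D) (L : List D) :
    (ent (cuts α L)).Perm (L ++ L.map α) := by
  have h1 : (ent (L.map fun δ => (δ, α δ))).Perm (L ++ L.map α) := by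
    induction L with
    | nil => simp [ent]
    | cons a L ih =>
      rw [List.map_cons, InsVal_ent_cons, List.map_cons]
      calc (a :: α a :: ent (L.map fun δ => (δ, α δ))).Perm (a :: α a :: (L ++ L.map α)) :=
            (ih.cons _).cons _
        _ |>.Perm (a :: (L ++ α a :: L.map α)) := (List.perm_middle.symm).cons a
  have h2 : (cuts α L).Perm (L.map fun δ => (δ, α δ)) := List.reverse_perm _
  exact (h2.flatMap_right _).trans h1

private theorem InsVal_a1 {f α : Perm D} {ℓ : D → ℤ} {r : ℕ} {e c : D} {bs : List D} {T : Tr}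
    {δ1 : D} {δs : List D} (H : InsH f α ℓ r e c bs T δ1 δs) :
    (∀ x ∈ tri f (e :: c :: bs) ++ (δ1 :: δs) ++ (δ1 :: δs).map α,
      glue α (cuts α (δ1 :: δs)) x = x) ∧
    (∀ x, x ∉ (δ1 :: δs) ++ (δ1 :: δs).map α → glue α (cuts α (δ1 :: δs)) x = α x) ∧
    (∀ d, glue α (cuts α (δ1 :: δs)) (glue α (cuts α (δ1 :: δs)) d) = d) := by
  have hnd := ins_nodup H
  have hperm := InsVal_cuts α (δ1 :: δs)
  have hnd1 : ((δ1 :: δs) ++ (δ1 :: δs).map α).Nodup := by
    rw [List.append_assoc] at hnd
    exact (List.nodup_append.1 hnd).2.1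
  have hndc : (ent (cuts α (δ1 :: δs))).Nodup := hperm.nodup_iff.2 hnd1
  have hpair : ∀ p ∈ cuts α (δ1 :: δs), α p.1 = p.2 := by
    intro p hp
    rw [cuts, List.mem_reverse, List.mem_map] at hp
    obtain ⟨δ, _, rfl⟩ := hp
    rfl
  have hfix : ∀ x ∈ (δ1 :: δs) ++ (δ1 :: δs).map α, glue α (cuts α (δ1 :: δs)) x = x :=
    fun x hx => glue_cut α H.pt.inv _ hndc hpair x (hperm.mem_iff.2 hx)
  have hnot : ∀ x, x ∉ (δ1 :: δs) ++ (δ1 :: δs).map α → glue α (cuts α (δ1 :: δs)) x = α x :=
    fun x hx => glue_notMem α _ x fun hc => hx (hperm.mem_iff.1 hc)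
  refine ⟨?_, hnot, ?_⟩
  · intro x hx
    rw [List.append_assoc] at hx hnd
    rcases List.mem_append.1 hx with hx | hx
    · have h1 : x ∉ (δ1 :: δs) ++ (δ1 :: δs).map α := fun hc =>
        (List.nodup_append.1 hnd).2.2 x hx x hc rfl
      rw [hnot x h1]
      exact (H.pt.leg x).2 hx
    · exact hfix x hx
  · intro d
    by_cases hd : d ∈ (δ1 :: δs) ++ (δ1 :: δs).map α
    · rw [hfix d hd, hfix d hd]
    · rw [hnot d hd]
      have h1 : α d ∉ (δ1 :: δs) ++ (δ1 :: δs).map α := by
        intro hc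
        apply hd
        rcases List.mem_append.1 hc with hc | hc
        · apply List.mem_append_right
          exact List.mem_map.2 ⟨α d, hc, H.pt.inv d⟩
        · obtain ⟨δ, hδ, h2⟩ := List.mem_map.1 hc
          rw [← α.injective h2]
          exact List.mem_append_left _ hδ
      rw [hnot _ h1, H.pt.inv]

theorem ins_val {f α : Perm D} {ℓ : D → ℤ} {r : ℕ} {e c : D} {bs : List D} {T : Tr} {δ1 : D}
    {δs : List D} (H : InsH f α ℓ r e c bs T δ1 δs) :
    (∀ p ∈ newPairs f α e c bs T δ1 δs, insS f α e c bs T δ1 δs p.1 = p.2 ∧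
      insS f α e c bs T δ1 δs p.2 = p.1) ∧
    (∀ d, d ∉ tri f (e :: c :: bs) ++ (δ1 :: δs) ++ (δ1 :: δs).map α →
      insS f α e c bs T δ1 δs d = α d) ∧
    (∀ d, insS f α e c bs T δ1 δs (insS f α e c bs T δ1 δs d) = d) ∧
    (∀ d, insS f α e c bs T δ1 δs d ≠ d) := by
  obtain ⟨a1, a2, a3⟩ := InsVal_a1 H
  have hperm := ins_ent H
  have hnd : (ent (newPairs f α e c bs T δ1 δs)).Nodup := hperm.nodup_iff.2 (ins_nodup H)
  have hins : insS f α e c bs T δ1 δs =
      glue (glue α (cuts α (δ1 :: δs))) (newPairs f α e c bs T δ1 δs) := by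
    rw [insS, glue_append]
  have hfix : ∀ x ∈ ent (newPairs f α e c bs T δ1 δs), glue α (cuts α (δ1 :: δs)) x = x :=
    fun x hx => a1 x (hperm.mem_iff.1 hx)
  have h1 : ∀ p ∈ newPairs f α e c bs T δ1 δs, insS f α e c bs T δ1 δs p.1 = p.2 ∧
      insS f α e c bs T δ1 δs p.2 = p.1 := by
    intro p hp
    rw [hins]
    exact glue_pair _ _ hnd hfix p hp
  have h2 : ∀ d, d ∉ tri f (e :: c :: bs) ++ (δ1 :: δs) ++ (δ1 :: δs).map α →
      insS f α e c bs T δ1 δs d = α d := by
    intro d hd
    rw [hins, glue_notMem _ _ _ fun hc => hd (hperm.mem_iff.1 hc)]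
    apply a2
    intro hc
    apply hd
    rw [List.append_assoc]
    exact List.mem_append_right _ hc
  refine ⟨h1, h2, ?_, ?_⟩
  · intro d
    rw [hins]
    exact glue_inv _ a3 _ hnd hfix d
  · intro d hd
    by_cases hmem : d ∈ ent (newPairs f α e c bs T δ1 δs)
    · obtain ⟨p, hp, hdp⟩ := (InsVal_mem_ent _ _).1 hmem
      have hne := InsVal_ne _ hnd p hp
      rcases hdp with rfl | rfl
      · rw [(h1 p hp).1] at hd
        exact hne hd.symm
      · rw [(h1 p hp).2] at hd
        exact hne hd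
    · have hmem' : d ∉ tri f (e :: c :: bs) ++ (δ1 :: δs) ++ (δ1 :: δs).map α :=
        fun hc => hmem (hperm.mem_iff.2 hc)
      rw [h2 d hmem'] at hd
      apply hmem'
      rw [List.append_assoc]
      exact List.mem_append_left _ ((H.pt.leg d).1 hd)

theorem ins_maps {f α : Perm D} {ℓ : D → ℤ} {r : ℕ} {e c : D} {bs : List D} {T : Tr} {δ1 : D}
    {δs : List D} (H : InsH f α ℓ r e c bs T δ1 δs) :
    (f (f e) :: (scan (insLv f e bs T) []).2.2).map (insS f α e c bs T δ1 δs) = δ1 :: δs ∧
    ((scan (insLv f e bs T) []).2.1).map (insS f α e c bs T δ1 δs) = (δ1 :: δs).map α ∧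
    insS f α e c bs T δ1 δs e = c ∧ insS f α e c bs T δ1 δs c = e ∧
    insS f α e c bs T δ1 δs (f c) = f (f c) ∧ insS f α e c bs T δ1 δs (f (f c)) = f c := by
  obtain ⟨v1, _, _, _⟩ := ins_val H
  obtain ⟨e1, e2, e3⟩ := ins_len H
  have hnew : newPairs f α e c bs T δ1 δs = (δ1, f (f e)) :: (e, c) :: (f c, f (f c)) ::
    ((grow f (.nd .d T) (f e) bs).1 ++ (scan (insLv f e bs T) []).1 ++
      (scan (insLv f e bs T) []).2.2.zip δs ++
      (scan (insLv f e bs T) []).2.1.reverse.zip ((δ1 :: δs).map α).reverse) := rfl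
  rw [hnew] at v1
  have m1 := v1 (δ1, f (f e)) List.mem_cons_self
  have m2 := v1 (e, c) (List.mem_cons_of_mem _ List.mem_cons_self)
  have m3 := v1 (f c, f (f c)) (List.mem_cons_of_mem _ (List.mem_cons_of_mem _ List.mem_cons_self))
  have m4 : ∀ p ∈ (scan (insLv f e bs T) []).2.2.zip δs,
      insS f α e c bs T δ1 δs p.1 = p.2 := fun p hp => (v1 p
    (List.mem_cons_of_mem _ (List.mem_cons_of_mem _ (List.mem_cons_of_mem _
      (List.mem_append_left _ (List.mem_append_right _ hp)))))).1
  have m5 : ∀ p ∈ (scan (insLv f e bs T) []).2.1.reverse.zip ((δ1 :: δs).map α).reverse,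
      insS f α e c bs T δ1 δs p.1 = p.2 := fun p hp => (v1 p
    (List.mem_cons_of_mem _ (List.mem_cons_of_mem _ (List.mem_cons_of_mem _
      (List.mem_append_right _ hp))))).1
  refine ⟨?_, ?_, m2.1, m2.2, m3.1, m3.2⟩
  · rw [List.map_cons, InsVal_zipmap _ _ δs (by omega) m4]
    have h1 : insS f α e c bs T δ1 δs (f (f e)) = δ1 := m1.2
    rw [h1]
  · have h1 := InsVal_zipmap _ _ ((δ1 :: δs).map α).reverse (by
      rw [List.length_reverse, List.length_reverse, List.length_map, List.length_cons]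
      omega) m5
    rw [List.map_reverse] at h1
    exact List.reverse_injective h1

end HG39
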