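import Pool.Agent.H39.HG.Defs
import Pool.Agent.H39.HG.GlueVal
import Pool.Agent.H39.HG.GrPerm
import Pool.Agent.H39.HG.EmbBasic
import Pool.Agent.H39.HG.GrowEmb
import Pool.Agent.H39.HG.ScanLev
import Pool.Agent.H39.HG.LabBasic
import Pool.Agent.H39.HG.SlcBasic
import Pool.Agent.H39.HG.InsLen
import Pool.Agent.H39.HG.InsVal

/-!
[H39 HG INSSLC]  (MP_bcc40c_pr)  Insertion of a slice: labels on the slice, it is a slice (`Slc`).

Setting (structure `InsH`, InsLen.lean): `PT f α (e :: c :: bs)`, labels `Lab f α ℓ`, a leftmost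
geodesic `δ1 :: δs` of non-legs of length `r` (`ℓ δ1 = r`), an admissible tree `T` with
`bs.length = T.sz + 1`.  `insS f α e c bs T δ1 δs` (Defs.lean) is the involution `α'` in which
 * the edges `{δ, α δ}` (`δ ∈ δ1 :: δs`) are cut,
 * `e <-> c`, `f c <-> f (f c)` (cap), `f (f e) <-> δ1`,
 * the tree `nd d T` is grown at `f e` with the roots `bs` (pairs `g.1`, leaves `g.2.1`),
 * the parentheses of the leaves are matched (pairs `s.1`), unmatched down leaves `As = s.2.1` (length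
   `r`), unmatched up leaves `Bs' = s.2.2` (length `r - 1`, last one first),
 * `Bs'[j] <-> δs[j]`, `As[j] <-> α (δ1 :: δs)[j]`.

PROOF.  `ℓ1` = `ℓ` changed at the six darts `e ↦ r, f e ↦ r, f (f e) ↦ r - 1, c ↦ r, f c ↦ r,
f (f c) ↦ r + 1`.  grow_emb for `nd d T`, `y = f e`, `bs`, `ℓ1` (`ℓ1 (f (f e)) = ℓ1 (f e) - 1`, weight -1;
`f e ∉ tri f bs` by `ndp`) gives `ℓ'`, equal to `ℓ1` outside of `tri f bs` (`bs.take (sz) = bs`), and the
embedding into `α' = insS ..` because `α'` contains the pairs `g.1` (ins_val).  All fields of `Slc` are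
clear: `sc` is scan_snoc, `mt` is ins_val.
-/

set_option autoImplicit false

namespace HG39

open Equiv

variable {D : Type} [Fintype D] [DecidableEq D]

theorem ins_slc {f α : Perm D} {ℓ : D → ℤ} {r : ℕ} {e c : D} {bs : List D} {T : Tr} {δ1 : D}
    {δs : List D} (H : InsH f α ℓ r e c bs T δ1 δs) :
    ∃ ℓ' : D → ℤ, (∀ d, α d ≠ d → ℓ' d = ℓ d) ∧ ℓ' c = r ∧ ℓ' (f c) = r ∧
      ℓ' (f (f c)) = r + 1 ∧
      Slc f (insS f α e c bs T δ1 δs) ℓ' r e T bs (insLv f e bs T)
        (scan (insLv f e bs T) []).1 (scan (insLv f e bs T) []).2.1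
        (f (f e) :: (scan (insLv f e bs T) []).2.2) := by
  have hr : 1 ≤ r := by
    rw [← H.len, List.length_cons]
    omega
  have t1 : (Tr.nd .d T).ok := by
    refine ⟨trivial, H.okT, Or.inr ?_⟩
    show (-1 : ℤ) + T.wt = -1
    rw [H.wtT]
    rfl
  have t2 : (Tr.nd .d T).wt = -1 := by
    show (-1 : ℤ) + T.wt = -1
    rw [H.wtT]
    rfl
  have hsz : (Tr.nd .d T).sz = bs.length := by
    show 0 + T.sz + 1 = bs.length
    rw [H.szT, zero_add]
  have htri : tri f (e :: c :: bs) =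
      e :: f e :: f (f e) :: c :: f c :: f (f c) :: tri f bs := by
    simp [tri]
  have hn := H.pt.ndp
  rw [htri] at hn
  have hn0 := hn
  simp only [List.nodup_cons, List.mem_cons, not_or] at hn0
  obtain ⟨⟨a1, a2, a3, a4, a5, a6⟩, ⟨b2, b3, b4, b5, b6⟩, ⟨c3, c4, c5, c6⟩, ⟨d4, d5, d6⟩,
    ⟨e5, e6⟩, e7, hnb⟩ := hn0
  obtain ⟨ℓ', g1, g2⟩ := grow_emb H.tf (.nd .d T) (f e) bs
    (fun d => if d = e then (r : ℤ) else if d = f e then (r : ℤ) else if d = f (f e) then
      (r : ℤ) - 1 else if d = c then (r : ℤ) else if d = f c then (r : ℤ) else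
      if d = f (f c) then (r : ℤ) + 1 else ℓ d) t1 hsz.le hnb b6 (by
      rw [if_neg (Ne.symm a2), if_neg (Ne.symm b2), if_pos rfl, if_neg (Ne.symm a1),
        if_pos rfl, t2]
      rfl)
  rw [hsz, List.take_length] at g1 g2
  obtain ⟨v1, _, _, _⟩ := ins_val H
  have hnew : newPairs f α e c bs T δ1 δs = (δ1, f (f e)) :: (e, c) :: (f c, f (f c)) ::
    ((grow f (.nd .d T) (f e) bs).1 ++ (scan (insLv f e bs T) []).1 ++
      (scan (insLv f e bs T) []).2.2.zip δs ++
      (scan (insLv f e bs T) []).2.1.reverse.zip ((δ1 :: δs).map α).reverse) := rfl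
  rw [hnew] at v1
  have hE : Emb f (insS f α e c bs T δ1 δs) ℓ' (.nd .d T) (f e) bs (insLv f e bs T) :=
    g2 _ fun p hp => v1 p (List.mem_cons_of_mem _ (List.mem_cons_of_mem _
      (List.mem_cons_of_mem _ (List.mem_append_left _ (List.mem_append_left _
        (List.mem_append_left _ hp))))))
  have le : ℓ' e = r := by
    rw [g1 e a6, if_pos rfl]
  have lfe : ℓ' (f e) = r := by
    rw [g1 _ b6, if_neg (Ne.symm a1), if_pos rfl]
  refine ⟨ℓ', ?_, ?_, ?_, ?_, ?_⟩
  · intro d hd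
    have hm : d ∉ tri f (e :: c :: bs) := fun hc => hd ((H.pt.leg d).2 hc)
    rw [htri] at hm
    simp only [List.mem_cons, not_or] at hm
    obtain ⟨m1, m2, m3, m4, m5, m6, m7⟩ := hm
    rw [g1 d m7, if_neg m1, if_neg m2, if_neg m3, if_neg m4, if_neg m5, if_neg m6]
  · rw [g1 c d6, if_neg (Ne.symm a3), if_neg (Ne.symm b3), if_neg (Ne.symm c3), if_pos rfl]
  · rw [g1 _ e6, if_neg (Ne.symm a4), if_neg (Ne.symm b4), if_neg (Ne.symm c4),
      if_neg (Ne.symm d4), if_pos rfl]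
  · rw [g1 _ e7, if_neg (Ne.symm a5), if_neg (Ne.symm b5), if_neg (Ne.symm c5),
      if_neg (Ne.symm d5), if_neg (Ne.symm e5), if_pos rfl]
  · refine ⟨hr, H.okT, H.wtT, H.htT, hE, ?_, ?_, ?_, le, lfe⟩
    · have h1 : tri f (e :: bs) = e :: f e :: f (f e) :: tri f bs := rfl
      rw [h1]
      simp only [List.nodup_cons, List.mem_cons, not_or]
      exact ⟨⟨a1, a2, a6⟩, ⟨b2, b6⟩, c6, hnb⟩
    · exact scan_snoc _ _ _
    · intro p hp
      exact v1 p (List.mem_cons_of_mem _ (List.mem_cons_of_mem _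
        (List.mem_cons_of_mem _ (List.mem_append_left _ (List.mem_append_left _
          (List.mem_append_right _ hp))))))

end HG39
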