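import Pool.Agent.H39.HG.Defs
import Pool.Agent.H39.HG.GlueVal
import Pool.Agent.H39.HG.GrPerm
import Pool.Agent.H39.HG.EmbBasic
import Pool.Agent.H39.HG.GrowEmb
import Pool.Agent.H39.HG.LabBasic
import Pool.Agent.H39.HG.SlcBasic
import Pool.Agent.H39.HG.InsLen
import Pool.Agent.H39.HG.InsVal
import Pool.Agent.H39.HG.InsSlc

/-!
[H39 HG INSINJ]  (MP_bcc40c_pr)  Insertion of a slice: decoding.

Setting (structure `InsH`, InsLen.lean): `PT f α (e :: c :: bs)`, labels `Lab f α ℓ`, a leftmost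
geodesic `δ1 :: δs` of non-legs of length `r` (`ℓ δ1 = r`), an admissible tree `T` with
`bs.length = T.sz + 1`.  `insS f α e c bs T δ1 δs` (Defs.lean) is the involution `α'` in which
 * the edges `{δ, α δ}` (`δ ∈ δ1 :: δs`) are cut,
 * `e <-> c`, `f c <-> f (f c)` (cap), `f (f e) <-> δ1`,
 * the tree `nd d T` is grown at `f e` with the roots `bs` (pairs `g.1`, leaves `g.2.1`),
 * the parentheses of the leaves are matched (pairs `s.1`), unmatched down leaves `As = s.2.1` (length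
   `r`), unmatched up leaves `Bs' = s.2.2` (length `r - 1`, last one first),
 * `Bs'[j] <-> δs[j]`, `As[j] <-> α (δ1 :: δs)[j]`.

PROOF.  emb_unique: induction on `τ`, the roots are read off from `α` (root of a node on `y` is `α y`).
ins_inj: let `α'` be the common value.  `c1 = α' e = c2` (ins_maps).  `bs1 = bs2`: emb_unique for the
embeddings of ins_slc (same `α'`, tree `nd d T`, dart `f e`).  So the lists of leaves and hence `As`, `Bs`
are the same; `δ1 :: δs = Bs.map α'` is the same; `(δ1 :: δs).map α1 = As.map α' = (δ1 :: δs).map α2`.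
`α1 = α2` pointwise: on `tri f (e :: c :: bs)` both are the identity (legs); on the `δ`'s and on the
`α1 δ`'s (= `α2 δ`'s) by the last remark (involutions); elsewhere both are equal to `α'` (ins_val).
-/

set_option autoImplicit false

namespace HG39

open Equiv

variable {D : Type} [Fintype D] [DecidableEq D]

theorem emb_unique {f α : Perm D} {ℓ ℓ2 : D → ℤ} (τ : Tr) : ∀ (y : D) (rs rs2 : List D)
    (lv lv2 : List (D × Bool)), Emb f α ℓ τ y rs lv → Emb f α ℓ2 τ y rs2 lv2 →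
    rs = rs2 ∧ lv = lv2 := by
  induction τ with
  | u =>
    intro y rs rs2 lv lv2 h1 h2
    cases h1
    cases h2
    exact ⟨rfl, rfl⟩
  | d =>
    intro y rs rs2 lv lv2 h1 h2
    cases h1
    cases h2
    exact ⟨rfl, rfl⟩
  | nd a b iha ihb =>
    intro y rs rs2 lv lv2 h1 h2
    cases h1 with
    | nd _ _ _ b0 ra rb la lb k1 k2 k3 k4 kw ka kb =>
      cases h2 with
      | nd _ _ _ b0' ra' rb' la' lb' m1 m2 m3 m4 mw ma mb =>
        have hb : b0 = b0' := k1.symm.trans m1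
        subst hb
        obtain ⟨e1, e2⟩ := iha _ _ _ _ _ ka ma
        obtain ⟨e3, e4⟩ := ihb _ _ _ _ _ kb mb
        subst e1 e2 e3 e4
        exact ⟨rfl, rfl⟩

theorem ins_inj {f α1 α2 : Perm D} {ℓ1 ℓ2 : D → ℤ} {r : ℕ} {e c1 c2 : D} {bs1 bs2 : List D}
    {T : Tr} {δ1 δ2 : D} {δs1 δs2 : List D} (H1 : InsH f α1 ℓ1 r e c1 bs1 T δ1 δs1)
    (H2 : InsH f α2 ℓ2 r e c2 bs2 T δ2 δs2)
    (h : insS f α1 e c1 bs1 T δ1 δs1 = insS f α2 e c2 bs2 T δ2 δs2) :
    c1 = c2 ∧ bs1 = bs2 ∧ δ1 = δ2 ∧ δs1 = δs2 ∧ α1 = α2 := by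
  obtain ⟨m1, m2, m3, -⟩ := ins_maps H1
  obtain ⟨n1, n2, n3, -⟩ := ins_maps H2
  obtain ⟨_, -, -, -, -, S1⟩ := ins_slc H1
  obtain ⟨_, -, -, -, -, S2⟩ := ins_slc H2
  obtain ⟨-, v1, -⟩ := ins_val H1
  obtain ⟨-, v2, -⟩ := ins_val H2
  rw [h] at m1 m2 m3 S1 v1
  have hc : c1 = c2 := m3.symm.trans n3
  obtain ⟨hb, -⟩ := emb_unique _ _ _ _ _ _ S1.emb S2.emb
  subst hc
  subst hb
  have hd : δ1 :: δs1 = δ2 :: δs2 := m1.symm.trans n1
  injection hd with hd1 hd2
  subst hd1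
  subst hd2
  have hmap : (δ1 :: δs1).map α1 = (δ1 :: δs1).map α2 := m2.symm.trans n2
  have heq : ∀ x ∈ δ1 :: δs1, α1 x = α2 x := List.map_inj_left.1 hmap
  refine ⟨rfl, rfl, rfl, rfl, Equiv.ext fun x => ?_⟩
  by_cases hx1 : x ∈ tri f (e :: c1 :: bs1)
  · rw [(H1.pt.leg x).2 hx1, (H2.pt.leg x).2 hx1]
  · by_cases hx2 : x ∈ δ1 :: δs1
    · exact heq x hx2
    · by_cases hx3 : x ∈ (δ1 :: δs1).map α1
      · obtain ⟨z, hz, rfl⟩ := List.mem_map.1 hx3
        rw [H1.pt.inv, heq z hz, H2.pt.inv]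
      · have k1 : x ∉ tri f (e :: c1 :: bs1) ++ (δ1 :: δs1) ++ (δ1 :: δs1).map α1 := by
          rw [List.mem_append, List.mem_append]
          rintro ((h1 | h1) | h1)
          · exact hx1 h1
          · exact hx2 h1
          · exact hx3 h1
        have k2 : x ∉ tri f (e :: c1 :: bs1) ++ (δ1 :: δs1) ++ (δ1 :: δs1).map α2 := by
          rw [← hmap]
          exact k1
        rw [← v1 x k1, ← v2 x k2]

end HG39
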