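import Pool.Agent.H39.HG.Defs
import Pool.Agent.H39.HG.GlueVal
import Pool.Agent.H39.HG.GrPerm
import Pool.Agent.H39.HG.EmbBasic
import Pool.Agent.H39.HG.LabBasic
import Pool.Agent.H39.HG.SlcBasic
import Pool.Agent.H39.HG.InsLen
import Pool.Agent.H39.HG.InsVal
import Pool.Agent.H39.HG.InsSlc

/-!
[H39 HG INSPT]  (MP_bcc40c_pr)  Insertion of a slice: the new map is a (full) triangulation.

Setting (structure `InsH`, InsLen.lean): `PT f α (e :: c :: bs)`, labels `Lab f α ℓ`, a leftmost
geodesic `δ1 :: δs` of non-legs of length `r` (`ℓ δ1 = r`), an admissible tree `T` with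
`bs.length = T.sz + 1`.  `insS f α e c bs T δ1 δs` (Defs.lean) is the involution `α'` in which
 * the edges `{δ, α δ}` (`δ ∈ δ1 :: δs`) are cut,
 * `e <-> c`, `f c <-> f (f c)` (cap), `f (f e) <-> δ1`,
 * the tree `nd d T` is grown at `f e` with the roots `bs` (pairs `g.1`, leaves `g.2.1`),
 * the parentheses of the leaves are matched (pairs `s.1`), unmatched down leaves `As = s.2.1` (length
   `r`), unmatched up leaves `Bs' = s.2.2` (length `r - 1`, last one first),
 * `Bs'[j] <-> δs[j]`, `As[j] <-> α (δ1 :: δs)[j]`.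

PROOF.  inv, leg (no fixed points), ndp: ins_val.  con: let `Q` be closed under `f` and `α'` with
`Q d0`.  Let `P = tri f (e :: bs)` (slice), `M` = non-legs of `α`.
(1) if `Q` contains one dart of `P` then it contains `P` (slc_conn for the slice of ins_slc) and the
triangle of `c` (`α' e = c`); if it contains a dart of the triangle of `c` it contains `c` (closed
under `f`) and `e = α' c`.
(2) if `Q ∩ M` is not empty then `M ⊆ Q`: apply `H.pt.con` to the predicate
`R d := (α d ≠ d → Q d)`: closed under `f` (nl_f).  Closed under `α`: let `d` be a non-leg with `Q d`.  If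
`d ∉ slit` then `α' d = α d`.  If `d = δ_j`: `α' δ_j = B_j ∈ P` (ins_maps), so by (1) `P ⊆ Q`, so `A_j ∈ Q`
and `α' A_j = α δ_j ∈ Q`.  If `d = α δ_j`: `α' d = A_j ∈ P`, so `B_j ∈ Q`, `α' B_j = δ_j = α d ∈ Q`.
(3) `Q` meets `M`: if `d0 ∈ P` or in the triangle of `c`, then `P ⊆ Q`, `δ1 = α' (f (f e)) ∈ Q`.  And if
`Q` meets `M`, then `δ1 ∈ Q`, `f (f e) = α' δ1 ∈ Q`, so `P ⊆ Q` and the triangle of `c` too.
-/

set_option autoImplicit false

namespace HG39

open Equiv

variable {D : Type} [Fintype D] [DecidableEq D]

theorem ins_PT {f α : Perm D} {ℓ : D → ℤ} {r : ℕ} {e c : D} {bs : List D} {T : Tr} {δ1 : D}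
    {δs : List D} (H : InsH f α ℓ r e c bs T δ1 δs) : PT f (insS f α e c bs T δ1 δs) [] := by
  obtain ⟨v1, v2, v3, v4⟩ := ins_val H
  obtain ⟨m1, m2, m3, m4, m5, m6⟩ := ins_maps H
  obtain ⟨ℓ', -, -, -, -, hs⟩ := ins_slc H
  have hf := H.tf
  have hp := slc_perm hf hs
  have hA : ∀ x ∈ (scan (insLv f e bs T) []).2.1, x ∈ tri f (e :: bs) := by
    intro x hx
    rw [← hp.mem_iff]
    simp only [List.mem_cons, List.mem_append]
    tauto
  have hB : ∀ x ∈ f (f e) :: (scan (insLv f e bs T) []).2.2, x ∈ tri f (e :: bs) := by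
    intro x hx
    rw [← hp.mem_iff]
    simp only [List.mem_cons, List.mem_append] at hx ⊢
    tauto
  have hm0 : e ∈ tri f (e :: bs) := by
    rw [slcb_tri]
    simp
  have hδ1 : insS f α e c bs T δ1 δs (f (f e)) = δ1 := by
    rw [List.map_cons] at m1
    exact (List.cons.inj m1).1
  refine ⟨v3, ?_, ?_, ?_⟩
  · intro d
    constructor
    · intro h
      exact absurd h (v4 d)
    · intro h
      exact absurd h (by simp [tri])
  · simp [tri]
  · intro Q h0 hQf hQa
    have hP : (∃ d ∈ tri f (e :: bs), Q d) → ∀ d ∈ tri f (e :: bs), Q d := fun h =>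
      slc_conn hf hs Q (fun d _ hd => hQf d hd) (fun d _ hd _ => hQa d hd) h
    have hM : (∃ d, α d ≠ d ∧ Q d) → ∀ d, α d ≠ d → Q d := by
      rintro ⟨d0, hd0, hQ0⟩ d hd
      refine H.pt.con (fun d => α d ≠ d → Q d) ⟨d0, hd0, fun _ => hQ0⟩ ?_ ?_ d hd hd
      · intro x hx hfx
        exact hQf x (hx (fun h => hfx ((nl_f hf H.pt x).2 h)))
      · intro x hx hax
        have hxn : α x ≠ x := fun h => hax ((nl_a H.pt x).2 h)
        have hQx := hx hxn
        by_cases c1 : x ∈ δ1 :: δs
        · have c1' := c1
          rw [← m1, List.mem_map] at c1'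
          obtain ⟨b, hb, hbx⟩ := c1'
          have hQb : Q b := by
            have := hQa x hQx
            rw [← hbx, v3] at this
            exact this
          have hall := hP ⟨b, hB b hb, hQb⟩
          have c2 : α x ∈ (δ1 :: δs).map α := List.mem_map_of_mem c1
          rw [← m2, List.mem_map] at c2
          obtain ⟨a, ha, hax⟩ := c2
          rw [← hax]
          exact hQa a (hall a (hA a ha))
        · by_cases c2 : x ∈ (δ1 :: δs).map α
          · have c2' := c2
            rw [← m2, List.mem_map] at c2'
            obtain ⟨a, ha, hax'⟩ := c2'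
            have hQa' : Q a := by
              have := hQa x hQx
              rw [← hax', v3] at this
              exact this
            have hall := hP ⟨a, hA a ha, hQa'⟩
            obtain ⟨y, hy, hyx⟩ := List.mem_map.1 c2
            have hy' := hy
            rw [← m1, List.mem_map] at hy'
            obtain ⟨b, hb, hby⟩ := hy'
            have h5 : α x = y := by rw [← hyx, H.pt.inv]
            rw [h5, ← hby]
            exact hQa b (hall b (hB b hb))
          · have h6 : insS f α e c bs T δ1 δs x = α x := by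
              apply v2
              rw [List.mem_append, List.mem_append]
              rintro ((h | h) | h)
              · exact hxn ((H.pt.leg x).2 h)
              · exact c1 h
              · exact c2 h
            rw [← h6]
            exact hQa x hQx
    have htri : ∀ d, d ∈ tri f (e :: c :: bs) ↔
        d ∈ tri f (e :: bs) ∨ d = c ∨ d = f c ∨ d = f (f c) := by
      intro d
      rw [mem_tri, mem_tri]
      simp only [List.mem_cons]
      constructor
      · rintro ⟨b, (rfl | rfl | hb), h⟩
        · exact Or.inl ⟨b, Or.inl rfl, h⟩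
        · exact Or.inr h
        · exact Or.inl ⟨b, Or.inr hb, h⟩
      · rintro (⟨b, (rfl | hb), h⟩ | h)
        · exact ⟨b, Or.inl rfl, h⟩
        · exact ⟨b, Or.inr (Or.inr hb), h⟩
        · exact ⟨c, Or.inr (Or.inl rfl), h⟩
    have hmeet : ∃ d ∈ tri f (e :: bs), Q d := by
      obtain ⟨d0, -, hQ0⟩ := h0
      by_cases hd0 : α d0 = d0
      · rcases (htri d0).1 ((H.pt.leg d0).1 hd0) with h | h
        · exact ⟨d0, h, hQ0⟩
        · have hQc : Q c := by
            rcases h with rfl | rfl | rfl
            · exact hQ0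
            · have := hQf _ (hQf _ hQ0)
              rwa [hf.three] at this
            · have := hQf _ hQ0
              rwa [hf.three] at this
          refine ⟨e, hm0, ?_⟩
          rw [← m4]
          exact hQa c hQc
      · have h7 := hM ⟨d0, hd0, hQ0⟩ δ1 (H.nl δ1 (List.mem_cons_self ..))
        refine ⟨f (f e), hB _ (List.mem_cons_self ..), ?_⟩
        have h8 := hQa _ h7
        have h9 := v3 (f (f e))
        rw [hδ1] at h9
        rwa [h9] at h8
    have hall := hP hmeet
    have hQc : Q c := by
      rw [← m3]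
      exact hQa e (hall e hm0)
    have hQδ : Q δ1 := by
      rw [← hδ1]
      exact hQa _ (hall _ (hB _ (List.mem_cons_self ..)))
    intro d _
    by_cases hd : α d = d
    · rcases (htri d).1 ((H.pt.leg d).1 hd) with h | h
      · exact hall d h
      · rcases h with rfl | rfl | rfl
        · exact hQc
        · exact hQf _ hQc
        · exact hQf _ (hQf _ hQc)
    · exact hM ⟨δ1, H.nl δ1 (List.mem_cons_self ..), hQδ⟩ d hd

end HG39
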