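import Pool.Agent.H39.HG.Defs
import Pool.Agent.H39.HG.GrPerm
import Pool.Agent.H39.HG.EmbBasic
import Pool.Agent.H39.HG.ScanLev
import Pool.Agent.H39.HG.LabBasic
import Pool.Agent.H39.HG.SlcBasic
import Pool.Agent.H39.HG.RotSlc

/-!
[H39 HG LAM]  (MP_bcc40c_pr)  Nesting of inserted slices with the same last right boundary dart.

Notation: `ρ = α * f⁻¹`; item 1: `e, P = tri f (e :: c :: bs), A_j, B_j`, `δ_j = α B_j`; item 2 with primes;
`j = 1..r`.  Facts (for both items):
 (p1) `P` is closed under `f`, `e ∈ P`; `y ∈ P`, `α y ∉ P` implies `y ∈ As` or `y ∈ Bs` (slc_closed, `cap`);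
 (p2) `A_j, B_j ∈ P`, `α A_j, α B_j ∉ P`;
 (p3) `A_j` is descending from level `r-j+1`, `B_j` ascending from level `r-j` (slc_lev), `δ_j` is
      descending from level `r-j+1` (dB; `ℓ δ_j = ℓ (f B_j)` by `ver`);
 (p4) `Fst (α A_j) A_{j+1}` (geoA);
 (p5) path `B_j → δ_{j+1}` through `P`, non-descending (slc_right, `tri f (e :: bs) ⊆ P`); so
      `Fst B_j δ_{j+1}`, i.e. `Fst (α δ_j) δ_{j+1}`;
 (p6) `f (f e) = B_1`, so `e = f B_1`;
 labels are constant along `ρ` (full map).
Let `j` be minimal with `B_i = B'_i` for all `i ≥ j` (exists: `B_r = B'_r`).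
`j = 1`: `e = f B_1 = f B'_1 = e'`, so `e ∈ P'`.
`j > 1`: `B_{j-1} ≠ B'_{j-1}`, and by (p5) `ρ^k B_{j-1} = δ_j = ρ^k' B'_{j-1}` with non-descending darts before.
`k ≠ k'` (injectivity); by symmetry (the statement is symmetric) let `k' < k`.  `k' ≥ 1` because `δ_j` is
descending and `B'_{j-1}` is not.  `B'_{j-1} = ρ^(k-k') B_{j-1} ∈ P` by (p5).
 (a) `δ'_{j-1} = α B'_{j-1} ∈ P`: otherwise `B'_{j-1} ∈ As ∪ Bs` (p1); it is not descending, so it is some `B_m`,
     by levels `m = j-1`, contradiction.
Downward induction: if `δ'_i ∈ P` (`i ≤ j-1`) then (i ≥ 2) `δ'_{i-1} ∈ P`: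
 (s1) `δ'_i ∉ As`: otherwise `δ'_i = A_i` (levels), and by uniqueness of `Fst` (p4, p5') `δ'_t = A_t` for all
      `t ≥ i`, so `δ'_r = A_r ∈ P`; but `δ'_r = α B'_r = α B_r ∉ P` (p2).
 (s2) `B'_i = α δ'_i ∈ P`: otherwise `δ'_i ∈ As ∪ Bs`, not in As by (s1), not in Bs because it is descending.
 (s3) walk back from `z_0 = δ'_i` to `z_k = B'_{i-1}` (`z_{t+1} = ρ⁻¹ z_t = f (α z_t)`, path of (p5')).  All
      `z_t ∈ P`: `z_1` by (s2).  For `1 ≤ t < k`: `z_t` is non-descending and its first descending dart is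
      `δ'_i ∈ P`; if `α z_t ∉ P` then `z_t = B_m` (not in As), its level is `ℓ δ'_i > 0`, so `m < r` and its
      first descending dart is `δ_{m+1} ∉ P`, contradiction.  So `α z_t ∈ P`, `z_{t+1} ∈ P`.
 (s4) the same argument for `z_k = B'_{i-1}`: `δ'_{i-1} = α B'_{i-1} ∈ P`.
At the end `δ'_1 ∈ P`, `B'_1 = α δ'_1 ∈ P` (s1, s2), `e' = f B'_1 ∈ P`.
-/

set_option autoImplicit false

namespace HG39

open Equiv

variable {D : Type} [Fintype D] [DecidableEq D]

structure IFc (f α : Perm D) (ℓ : D → ℤ) (r : ℕ) (e : D) (P : D → Prop) (A B : ℕ → D) : Prop where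
  cf : ∀ d, P d → P (f d)
  pe : P e
  bd : ∀ d, P d → ¬ P (α d) → (∃ i < r, d = A i) ∨ (∃ i < r, d = B i)
  pB : ∀ i < r, ¬ P (α (B i))
  lA : ∀ i < r, Desc f ℓ (A i)
  lB : ∀ i < r, ℓ (B i) = r - i - 1 ∧ ℓ (f (B i)) = r - i
  dB : ∀ i < r, Desc f ℓ (α (B i))
  fB : ∀ i, i + 1 < r → Pth (α * f⁻¹) (fun z => P z ∧ ¬ Desc f ℓ z) (B i) (α (B (i+1)))
  b0 : f (B 0) = e

theorem pth_first {f : Perm D} {ρ : Perm D} {ℓ : D → ℤ} {y a b : D} {k k' : ℕ}
    (ha : (ρ ^ k) y = a) (hb : (ρ ^ k') y = b) (hak : ∀ t < k, ¬ Desc f ℓ ((ρ ^ t) y))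
    (hbk : ∀ t < k', ¬ Desc f ℓ ((ρ ^ t) y)) (da : Desc f ℓ a) (db : Desc f ℓ b) : a = b := by
  rcases lt_trichotomy k k' with h | h | h
  · exact absurd (ha ▸ da) (hbk k h)
  · rw [← ha, ← hb, h]
  · exact absurd (hb ▸ db) (hak k' h)

theorem lam_core {f α : Perm D} {ℓ : D → ℤ} (hi : ∀ d, α (α d) = d)
    (hc : ∀ z, ℓ ((α * f⁻¹) z) = ℓ z) (hv : ∀ z, ℓ (f z) = ℓ (α z)) {r : ℕ} {e e' : D}
    {P P' : D → Prop} {A B A' B' : ℕ → D}
    (h : IFc f α ℓ r e P A B) (h' : IFc f α ℓ r e' P' A' B') (j : ℕ) (hj : j < r)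
    (hP : P (B' j)) (hne : B' j ≠ B j) : P e' := by
  have nd : ∀ i < r, ¬ Desc f ℓ (B i) := by
    intro i hi' hd
    have := h.lB i hi'
    unfold Desc at hd
    omega
  have nd' : ∀ i < r, ¬ Desc f ℓ (B' i) := by
    intro i hi' hd
    have := h'.lB i hi'
    unfold Desc at hd
    omega
  have hpw : ∀ (t : ℕ) (z : D), ℓ (((α * f⁻¹) ^ t) z) = ℓ z := by
    intro t
    induction t with
    | zero => intro z; simp
    | succ t ih =>
      intro z
      rw [pow_succ', Perm.mul_apply, hc, ih]
  have key : ∀ i, i ≤ j → P (B' (j - i)) ∧ P (α (B' (j - i))) := by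
    intro i
    induction i with
    | zero =>
      intro _
      refine ⟨hP, ?_⟩
      by_contra hn
      rcases h.bd _ hP hn with ⟨m, hm, hmm⟩ | ⟨m, hm, hmm⟩
      · have h1 := h.lA m hm
        rw [← hmm] at h1
        exact nd' j hj h1
      · have h1 := (h.lB m hm).1
        have h2 := (h'.lB j hj).1
        rw [← hmm] at h1
        simp only [Nat.sub_zero] at *
        have : m = j := by omega
        subst this
        exact hne hmm
    | succ i ih =>
      intro hij
      obtain ⟨ih1, ih2⟩ := ih (by omega)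
      have e1 : j - i = (j - (i+1)) + 1 := by omega
      rw [e1] at ih1 ih2
      generalize hq : j - (i + 1) = q at *
      have hqr : q + 1 < r := by omega
      obtain ⟨k, hk, hkt⟩ := h'.fB q hqr
      have claim : ∀ t, t ≤ k → P (((α * f⁻¹) ^ (k - t)) (B' q)) ∧
          P (α (((α * f⁻¹) ^ (k - t)) (B' q))) := by
        intro t
        induction t with
        | zero =>
          intro _
          rw [Nat.sub_zero, hk]
          refine ⟨ih2, ?_⟩
          rw [hi]
          exact ih1
        | succ t iht =>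
          intro htk
          obtain ⟨i1, i2⟩ := iht (by omega)
          have e2 : k - t = (k - (t+1)) + 1 := by omega
          rw [e2] at i1 i2
          generalize hu : k - (t + 1) = u at *
          have huk : u < k := by omega
          have e3 : (((α * f⁻¹) ^ u) (B' q)) = f (α (((α * f⁻¹) ^ (u + 1)) (B' q))) := by
            rw [pow_succ', Perm.mul_apply]
            generalize (((α * f⁻¹) ^ u) (B' q)) = z
            rw [Perm.mul_apply, hi]; simp
          have e4 : P (((α * f⁻¹) ^ u) (B' q)) := by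
            rw [e3]
            exact h.cf _ i2
          refine ⟨e4, ?_⟩
          by_contra hn
          have hnd := (hkt u huk).2
          rcases h.bd _ e4 hn with ⟨m, hm, hmm⟩ | ⟨m, hm, hmm⟩
          · have h1 := h.lA m hm
            rw [← hmm] at h1
            exact hnd h1
          · have h1 := (h.lB m hm).1
            rw [← hmm, hpw] at h1
            have h2 := (h'.lB q (by omega)).1
            have hmq : m = q := by omega
            subst hmq
            obtain ⟨k2, hk2, hkt2⟩ := h.fB m hqr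
            have e5 : α (B (m+1)) = α (B' (m+1)) := by
              apply pth_first (f := f) (ρ := α * f⁻¹) (ℓ := ℓ) (y := B m) (k := k2)
                (k' := k - u) hk2
              · rw [← hmm, ← Perm.mul_apply, ← pow_add, show k - u + u = k by omega, hk]
              · intro t' ht'
                exact (hkt2 t' ht').2
              · intro t' ht'
                rw [← hmm, ← Perm.mul_apply, ← pow_add]
                exact (hkt (t' + u) (by omega)).2
              · exact h.dB _ hqr
              · exact h'.dB _ hqr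
            exact h.pB (m+1) hqr (e5 ▸ ih2)
      have := claim k le_rfl
      simpa using this
  have h0 := (key j le_rfl).1
  rw [Nat.sub_self] at h0
  rw [← h'.b0]
  exact h.cf _ h0

theorem lam_abs {f α : Perm D} {ℓ : D → ℤ} (hi : ∀ d, α (α d) = d)
    (hc : ∀ z, ℓ ((α * f⁻¹) z) = ℓ z) (hv : ∀ z, ℓ (f z) = ℓ (α z)) {r : ℕ} {e e' : D}
    {P P' : D → Prop} {A B A' B' : ℕ → D} (hr : 1 ≤ r)
    (h : IFc f α ℓ r e P A B) (h' : IFc f α ℓ r e' P' A' B') (hl : B (r - 1) = B' (r - 1)) :
    P e' ∨ P' e := by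
  classical
  have nd : ∀ i < r, ¬ Desc f ℓ (B i) := by
    intro i hi' hd
    have := h.lB i hi'
    unfold Desc at hd
    omega
  have nd' : ∀ i < r, ¬ Desc f ℓ (B' i) := by
    intro i hi' hd
    have := h'.lB i hi'
    unfold Desc at hd
    omega
  have hex : ∃ j, ∀ i, j ≤ i → i < r → B i = B' i := by
    refine ⟨r - 1, fun i h1 h2 => ?_⟩
    have : i = r - 1 := by omega
    rw [this, hl]
  let j := Nat.find hex
  have hj : ∀ i, j ≤ i → i < r → B i = B' i := Nat.find_spec hex
  have hjr : j ≤ r - 1 := by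
    apply Nat.find_min'
    intro i h1 h2
    have : i = r - 1 := by omega
    rw [this, hl]
  by_cases hj0 : j = 0
  · left
    rw [← h'.b0, ← hj 0 (by omega) (by omega), h.b0]
    exact h.pe
  · have hm := Nat.find_min hex (m := j - 1) (by
      show j - 1 < j
      omega)
    have hne : B (j - 1) ≠ B' (j - 1) := by
      intro heq
      apply hm
      intro i h1 h2
      by_cases hij : i = j - 1
      · rw [hij, heq]
      · exact hj i (by omega) h2
    have e1 : j = (j - 1) + 1 := by omega
    generalize hq : j - 1 = q at *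
    have hqr : q + 1 < r := by omega
    obtain ⟨k, hk, hkt⟩ := h.fB q hqr
    obtain ⟨k', hk', hkt'⟩ := h'.fB q hqr
    have hBB : B (q+1) = B' (q+1) := hj (q+1) (by omega) hqr
    rcases lt_trichotomy k k' with hlt | heq | hlt
    · right
      apply lam_core hi hc hv h' h q (by omega) _ hne
      have e2 : ((α * f⁻¹) ^ (k' - k)) (B' q) = B q := by
        apply ((α * f⁻¹) ^ k).injective
        rw [← Perm.mul_apply, ← pow_add, show k + (k' - k) = k' by omega, hk, hk', hBB]
      rw [← e2]
      have hk0 : k ≠ 0 := by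
        intro h0
        rw [h0] at hk
        simp only [pow_zero, Perm.one_apply] at hk
        have := h.dB (q+1) hqr
        rw [← hk] at this
        exact nd q (by omega) this
      exact (hkt' (k' - k) (by omega)).1
    · exfalso
      apply hne
      apply ((α * f⁻¹) ^ k).injective
      rw [hk, heq, hk', hBB]
    · left
      apply lam_core hi hc hv h h' q (by omega) _ (Ne.symm hne)
      have e2 : ((α * f⁻¹) ^ (k - k')) (B q) = B' q := by
        apply ((α * f⁻¹) ^ k').injective
        rw [← Perm.mul_apply, ← pow_add, show k' + (k - k') = k by omega, hk, hk', hBB]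
      rw [← e2]
      have hk0 : k' ≠ 0 := by
        intro h0
        rw [h0] at hk'
        simp only [pow_zero, Perm.one_apply] at hk'
        have := h'.dB (q+1) hqr
        rw [← hk'] at this
        exact nd' q (by omega) this
      exact (hkt (k - k') (by omega)).1


theorem dn_get (f : Perm D) (ℓ : D → ℤ) (e : D) (As : List D) : ∀ (s : ℤ), DnOK f ℓ s As →
    ∀ i < As.length, ℓ (As.getD i e) = s - i ∧ ℓ (f (As.getD i e)) = s - i - 1 := by
  induction As with
  | nil => intro s _ i hi; simp at hi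
  | cons a As ih =>
    intro s h i hi
    obtain ⟨h1, h2, h3⟩ := h
    cases i with
    | zero =>
      simp only [List.getD_cons_zero, Nat.cast_zero, sub_zero]
      exact ⟨h1, h2⟩
    | succ i =>
      simp only [List.getD_cons_succ]
      have := ih (s - 1) h3 i (by simpa using hi)
      push_cast
      constructor
      · rw [this.1]; ring
      · rw [this.2]; ring

theorem st_get (f : Perm D) (ℓ : D → ℤ) (e : D) (Bs : List D) : ∀ (s : ℤ), StOK f ℓ s Bs →
    ∀ i < Bs.length, ℓ (Bs.getD i e) = s - i - 1 ∧ ℓ (f (Bs.getD i e)) = s - i := by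
  induction Bs with
  | nil => intro s _ i hi; simp at hi
  | cons a Bs ih =>
    intro s h i hi
    obtain ⟨h1, h2, h3⟩ := h
    cases i with
    | zero =>
      simp only [List.getD_cons_zero, Nat.cast_zero, sub_zero]
      exact ⟨h2, h1⟩
    | succ i =>
      simp only [List.getD_cons_succ]
      have := ih (s - 1) h3 i (by simpa using hi)
      push_cast
      constructor
      · rw [this.1]; ring
      · rw [this.2]; ring

theorem getD_split (l : List D) (e : D) (i : ℕ) (hi : i + 1 < l.length) :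
    ∃ p q, l = p ++ l.getD i e :: l.getD (i + 1) e :: q := by
  refine ⟨l.take i, l.drop (i + 2), ?_⟩
  have h1 : i < l.length := by omega
  rw [List.getD_eq_getElem _ _ h1, List.getD_eq_getElem _ _ hi]
  rw [← List.drop_eq_getElem_cons hi, ← List.drop_eq_getElem_cons h1, List.take_append_drop]

theorem mem_getD (l : List D) (e x : D) (hx : x ∈ l) : ∃ i < l.length, x = l.getD i e := by
  obtain ⟨i, hi, h⟩ := List.getElem_of_mem hx
  exact ⟨i, hi, by rw [List.getD_eq_getElem _ _ hi, h]⟩

theorem getD_mem (l : List D) (e : D) (i : ℕ) (hi : i < l.length) : l.getD i e ∈ l := by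
  rw [List.getD_eq_getElem _ _ hi]
  exact List.getElem_mem hi

theorem ifc_of_item {f α : Perm D} {ℓ : D → ℤ} (hf : TF f) (hα : PT f α [])
    (hv : ∀ z, ℓ (f z) = ℓ (α z)) {r : ℕ} {e c : D} {T : Tr}
    {bs : List D} {lv : List (D × Bool)} {pr : List (D × D)} {As Bs : List D}
    (h : Item f α ℓ r e c T bs lv pr As Bs) :
    IFc f α ℓ r e (fun d => d ∈ tri f (e :: c :: bs)) (fun i => As.getD i e)
      (fun i => Bs.getD i e) := by
  obtain ⟨_, hlA, hlB⟩ := slc_len hf h.slc
  obtain ⟨hdn, hst, _, _, _⟩ := slc_lev hf h.slc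
  have hmem : ∀ d, d ∈ tri f (e :: c :: bs) ↔
      (d = e ∨ d = f e ∨ d = f (f e)) ∨ (d = c ∨ d = f c ∨ d = f (f c)) ∨ d ∈ tri f bs := by
    intro d
    simp [tri, or_assoc]
  have hmem' : ∀ d, d ∈ tri f (e :: bs) ↔
      (d = e ∨ d = f e ∨ d = f (f e)) ∨ d ∈ tri f bs := by
    intro d
    simp [tri, or_assoc]
  have htri : ∀ (l : List D) (d : D), d ∈ tri f l → f d ∈ tri f l := by
    intro l d hd
    simp only [tri, List.mem_flatMap, List.mem_cons, List.not_mem_nil, or_false] at hd ⊢
    obtain ⟨b, hb, hd⟩ := hd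
    refine ⟨b, hb, ?_⟩
    rcases hd with rfl | rfl | rfl
    · right; left; rfl
    · right; right; rfl
    · left; exact hf.three _
  constructor
  · exact fun d hd => htri _ d hd
  · show e ∈ tri f (e :: c :: bs)
    rw [hmem]; left; left; rfl
  · intro d hd hn
    rw [hmem] at hd
    have key : d ∈ tri f (e :: bs) →
        (∃ i < r, d = As.getD i e) ∨ (∃ i < r, d = Bs.getD i e) := by
      intro hd'
      rcases slc_closed hf h.slc d hd' with h1 | h1 | h1 | h1
      · exfalso
        apply hn
        rw [h1, h.cap.1, hmem]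
        right; left; left; rfl
      · left
        obtain ⟨i, hi, hh⟩ := mem_getD As e d h1
        exact ⟨i, by omega, hh⟩
      · right
        obtain ⟨i, hi, hh⟩ := mem_getD Bs e d h1
        exact ⟨i, by omega, hh⟩
      · exfalso
        apply hn
        rw [hmem]
        have := (hmem' _).1 h1.1
        tauto
    rcases hd with hd | hd | hd
    · exact key ((hmem' d).2 (Or.inl hd))
    · exfalso
      apply hn
      rw [hmem]
      rcases hd with rfl | rfl | rfl
      · left; left; exact h.cap.2.1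
      · right; left; right; right; exact h.cap.2.2.1
      · right; left; right; left; exact h.cap.2.2.2
    · exact key ((hmem' d).2 (Or.inr hd))
  · intro i hi
    exact h.outB _ (getD_mem Bs e i (by omega))
  · intro i hi
    have := dn_get f ℓ e As r hdn i (by omega)
    unfold Desc
    omega
  · intro i hi
    have := st_get f ℓ e Bs r hst i (by omega)
    constructor
    · rw [this.1]
    · rw [this.2]
  · intro i hi
    exact h.dB _ (getD_mem Bs e i (by omega))
  · intro i hi
    obtain ⟨p, q, hpq⟩ := getD_split Bs e i (by omega)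
    have := slc_right hf h.slc p q _ _ hpq
    refine pth_mono this ?_
    intro z hz
    refine ⟨?_, hz.2⟩
    have := (hmem' _).1 hz.1
    rw [hmem]
    tauto
  · obtain ⟨_, Bs', hB⟩ := slc_heads hf h.slc
    simp only [hB, List.getD_cons_zero]
    exact hf.three e

theorem lam_nest {f α : Perm D} {ℓ : D → ℤ} (hf : TF f) (hα : PT f α []) {r : ℕ} {e c : D} {T : Tr}
    {bs : List D} {lv : List (D × Bool)} {pr : List (D × D)} {As Bs : List D} {e' c' : D}
    {T' : Tr} {bs' : List D} {lv' : List (D × Bool)} {pr' : List (D × D)} {As' Bs' : List D}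
    (h : Item f α ℓ r e c T bs lv pr As Bs) (h' : Item f α ℓ r e' c' T' bs' lv' pr' As' Bs')
    (hl : Bs.getLast? = Bs'.getLast?) :
    e' ∈ tri f (e :: c :: bs) ∨ e ∈ tri f (e' :: c' :: bs') := by
  have hnl : ∀ d, α d ≠ d := by
    intro d hd
    have := (hα.leg d).1 hd
    simp [tri] at this
  have hv : ∀ z, ℓ (f z) = ℓ (α z) := fun z => h.lab.ver z (hnl z)
  have hc : ∀ z, ℓ ((α * f⁻¹) z) = ℓ z := by
    intro z
    rw [Perm.mul_apply, ← hv]
    simp
  have hr := h.slc.rp
  obtain ⟨_, hlA, hlB⟩ := slc_len hf h.slc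
  obtain ⟨_, hlA', hlB'⟩ := slc_len hf h'.slc
  refine lam_abs hα.inv hc hv hr (ifc_of_item hf hα hv h) (ifc_of_item hf hα hv h') ?_
  rw [List.getLast?_eq_getElem?, List.getLast?_eq_getElem?, hlB, hlB'] at hl
  have h1 : r - 1 < Bs.length := by omega
  have h2 : r - 1 < Bs'.length := by omega
  rw [List.getElem?_eq_getElem h1, List.getElem?_eq_getElem h2] at hl
  show Bs.getD (r-1) e = Bs'.getD (r-1) e'
  rw [List.getD_eq_getElem _ _ h1, List.getD_eq_getElem _ _ h2]
  exact Option.some_injective _ hl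

end HG39
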