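import Pool.Agent.H39.HG.Defs
import Pool.Agent.H39.HG.GrPerm
import Pool.Agent.H39.HG.EmbBasic
import Pool.Agent.H39.HG.ScanLev
import Pool.Agent.H39.HG.LabBasic
import Pool.Agent.H39.HG.SlcBasic
import Pool.Agent.H39.HG.RotSlc
import Pool.Agent.H39.HG.Lam
import Pool.Agent.H39.HG.Uniq
import Pool.Agent.H39.HG.GraphA
import Pool.Agent.H39.HG.GraphLab

/-!
[H39 HG ITEMS]  (MP_bcc40c_pr)  A triangulation contains at most `|D| (12 K + 1)` inserted slices
(pairs base, tree).

PROOF.  tourn: let `E` be a finite set and `P : E → Finset` sets with at most `N` elements, such that for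
`e ≠ e'` in `E`: `e' ∈ P e` or `e ∈ P e'`.  Then `#E ≤ 2 N + 1`: the number of ordered pairs `(e, e')`, `e ≠ e'`,
`e' ∈ P e` is at most `N #E` and at least half of `#E (#E - 1)`.
items_count: to every item `(e, T)` choose data `ℓ, c, bs, ..`; `Bs` is not empty (length `r ≥ 1`), let `b` be
its last element; `ℓ b = 0` (StOK, slc_lev), so `ℓ d = dst b d` (lab_dst): the labels are determined by
`b`.  For fixed `b`: (1) `T` is determined by `e`: `As` is determined by `e` and the labels: its head is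
`f (α (f e))` (slc_heads), it is a leftmost geodesic (geoA) of length `r` (geo_unique), then slc_unique.
(2) the set `E_b` of the bases `e`: by lam any two of them satisfy `e' ∈ P_e` or `e ∈ P_e'`, with
`P_e = tri f (e :: c :: bs)`, a list of length `3 (2 + (T.sz + 1)) = 6 K`.  So `#E_b ≤ 12 K + 1`.
Sum over `b ∈ D`.
-/

set_option autoImplicit false

namespace HG39

open Equiv

variable {D : Type} [Fintype D] [DecidableEq D]

theorem tourn {E : Type} [DecidableEq E] (S : Finset E) (P : E → Finset E) (N : ℕ)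
    (hP : ∀ e ∈ S, (P e).card ≤ N)
    (h : ∀ e ∈ S, ∀ e' ∈ S, e ≠ e' → e' ∈ P e ∨ e ∈ P e') : S.card ≤ 2 * N + 1 := by
  classical
  have h1 : S.offDiag ⊆ S.biUnion (fun e => (P e).image fun e' => (e, e')) ∪
      S.biUnion (fun e => (P e).image fun e' => (e', e)) := by
    intro q hq
    rw [Finset.mem_offDiag] at hq
    rw [Finset.mem_union, Finset.mem_biUnion, Finset.mem_biUnion]
    rcases h q.1 hq.1 q.2 hq.2.1 hq.2.2 with h2 | h2
    · exact Or.inl ⟨q.1, hq.1, Finset.mem_image.2 ⟨q.2, h2, rfl⟩⟩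
    · exact Or.inr ⟨q.2, hq.2.1, Finset.mem_image.2 ⟨q.1, h2, rfl⟩⟩
  have h2 : ∀ g : E → E → E × E,
      (S.biUnion (fun e => (P e).image fun e' => g e e')).card ≤ S.card * N := by
    intro g
    refine Finset.card_biUnion_le.trans ?_
    refine (Finset.sum_le_card_nsmul S _ N fun e he => Finset.card_image_le.trans (hP e he)).trans ?_
    rw [smul_eq_mul]
  have h3 := Finset.card_le_card h1
  rw [Finset.offDiag_card] at h3
  have h4 := (h3.trans (Finset.card_union_le _ _)).trans
    (Nat.add_le_add (h2 fun e e' => (e, e')) (h2 fun e e' => (e', e)))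
  rcases Nat.eq_zero_or_pos S.card with h0 | h0
  · omega
  · have h5 : S.card * S.card ≤ S.card * (2 * N + 1) := by
      have : S.card * (2 * N + 1) = S.card * N + S.card * N + S.card := by ring
      omega
    exact Nat.le_of_mul_le_mul_left h5 h0

/-- items with the last right boundary dart `b`, labels from `b` -/
private def ItB (f α : Perm D) (r K : ℕ) (b : D) (q : D × Tr) : Prop :=
  Adm r K q.2 ∧ ∃ (c : D) (bs : List D) (lv : List (D × Bool))
      (pr : List (D × D)) (As Bs : List D),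
      Item f α (fun d => (dst f α b d : ℤ)) r q.1 c q.2 bs lv pr As Bs ∧ Bs.getLast? = some b

private theorem itB_of {f α : Perm D} (hf : TF f) (h : PT f α []) {r K : ℕ} {q : D × Tr}
    (hA : Adm r K q.2) {ℓ : D → ℤ} {c : D} {bs : List D} {lv : List (D × Bool)}
    {pr : List (D × D)} {As Bs : List D} (hi : Item f α ℓ r q.1 c q.2 bs lv pr As Bs) :
    ∃ b, ItB f α r K b q := by
  obtain ⟨_, _, hlB⟩ := slc_len hf hi.slc
  have hr := hi.slc.rp
  have h2 := st_get f ℓ q.1 Bs r (slc_lev hf hi.slc).2.1 (r - 1) (by omega)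
  have h3 : r - 1 < Bs.length := by omega
  have hb0 : ℓ (Bs.getD (r - 1) q.1) = 0 := by
    rw [h2.1]
    omega
  have hℓ : ℓ = fun d => (dst f α (Bs.getD (r - 1) q.1) d : ℤ) := by
    funext d
    exact lab_dst hf h hi.lab _ hb0 d
  refine ⟨Bs.getD (r - 1) q.1, hA, c, bs, lv, pr, As, Bs, ?_, ?_⟩
  · rw [← hℓ]
    exact hi
  · rw [List.getLast?_eq_getElem?, hlB, List.getElem?_eq_getElem h3,
      List.getD_eq_getElem _ _ h3]

private theorem itB_tree {f α : Perm D} (hf : TF f) {r K : ℕ} {b e : D} {T T' : Tr}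
    (h1 : ItB f α r K b (e, T)) (h2 : ItB f α r K b (e, T')) : T = T' := by
  obtain ⟨_, c, bs, lv, pr, As, Bs, hi, _⟩ := h1
  obtain ⟨_, c', bs', lv', pr', As', Bs', hi', _⟩ := h2
  obtain ⟨_, hlA, _⟩ := slc_len hf hi.slc
  obtain ⟨_, hlA', _⟩ := slc_len hf hi'.slc
  obtain ⟨⟨As1, hA1⟩, _⟩ := slc_heads hf hi.slc
  obtain ⟨⟨As2, hA2⟩, _⟩ := slc_heads hf hi'.slc
  subst hA1 hA2
  have h3 := geo_unique _ As1 As2 hi.geoA hi'.geoA (by rw [hlA, hlA'])
  subst h3
  exact (slc_unique hf hi.slc hi'.slc).1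

open Classical in
private theorem itB_card {f α : Perm D} (hf : TF f) (h : PT f α []) (r K : ℕ) (b : D) :
    ((Finset.univ : Finset D).filter fun e => ∃ T, ItB f α r K b (e, T)).card ≤
      12 * K + 1 := by
  have key : ∀ e : D, (∃ T, ItB f α r K b (e, T)) → ∃ (T : Tr) (c : D) (bs : List D)
      (lv : List (D × Bool)) (pr : List (D × D)) (As Bs : List D), Adm r K T ∧
      Item f α (fun d => (dst f α b d : ℤ)) r e c T bs lv pr As Bs ∧ Bs.getLast? = some b := by
    rintro e ⟨T, hA, c, bs, lv, pr, As, Bs, hi, hb⟩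
    exact ⟨T, c, bs, lv, pr, As, Bs, hA, hi, hb⟩
  choose! T c bs lv pr As Bs hk using key
  have h1 := tourn ((Finset.univ : Finset D).filter fun e => ∃ T, ItB f α r K b (e, T))
    (fun e => (tri f (e :: c e :: bs e)).toFinset) (6 * K) ?_ ?_
  · omega
  · intro e he
    obtain ⟨hA, hi, hb⟩ := hk e (Finset.mem_filter.1 he).2
    refine (List.toFinset_card_le _).trans ?_
    rw [tri_len]
    obtain ⟨hlb, _, _⟩ := slc_len hf hi.slc
    have h4 := hA.2.2.2
    simp only [List.length_cons]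
    omega
  · intro e he e' he' _
    obtain ⟨hA, hi, hb⟩ := hk e (Finset.mem_filter.1 he).2
    obtain ⟨hA', hi', hb'⟩ := hk e' (Finset.mem_filter.1 he').2
    rcases lam_nest hf h hi hi' (by rw [hb, hb']) with h5 | h5
    · exact Or.inl (List.mem_toFinset.2 h5)
    · exact Or.inr (List.mem_toFinset.2 h5)

theorem items_count {f α : Perm D} (hf : TF f) (h : PT f α []) (r K : ℕ) :
    {q : D × Tr | Adm r K q.2 ∧ ∃ (ℓ : D → ℤ) (c : D) (bs : List D) (lv : List (D × Bool))
      (pr : List (D × D)) (As Bs : List D), Item f α ℓ r q.1 c q.2 bs lv pr As Bs}.Finite ∧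
    {q : D × Tr | Adm r K q.2 ∧ ∃ (ℓ : D → ℤ) (c : D) (bs : List D) (lv : List (D × Bool))
      (pr : List (D × D)) (As Bs : List D), Item f α ℓ r q.1 c q.2 bs lv pr As Bs}.ncard ≤
    Fintype.card D * (12 * K + 1) := by
  classical
  have hT : ∀ b e : D, ∃ T : Tr, (∃ T', ItB f α r K b (e, T')) → ItB f α r K b (e, T) := by
    intro b e
    by_cases h1 : ∃ T', ItB f α r K b (e, T')
    · obtain ⟨T', h2⟩ := h1
      exact ⟨T', fun _ => h2⟩
    · exact ⟨.u, fun h2 => absurd h2 h1⟩
  choose T hT using hT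
  set F : Finset (D × Tr) := (Finset.univ : Finset D).biUnion fun b =>
    ((Finset.univ : Finset D).filter fun e => ∃ T, ItB f α r K b (e, T)).image
      fun e => (e, T b e) with hF
  have hsub : {q : D × Tr | Adm r K q.2 ∧ ∃ (ℓ : D → ℤ) (c : D) (bs : List D)
      (lv : List (D × Bool)) (pr : List (D × D)) (As Bs : List D),
      Item f α ℓ r q.1 c q.2 bs lv pr As Bs} ⊆ (F : Set (D × Tr)) := by
    rintro ⟨e, T1⟩ ⟨hA, ℓ, c, bs, lv, pr, As, Bs, hi⟩
    obtain ⟨b, hb⟩ := itB_of hf h hA hi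
    rw [Finset.mem_coe, hF, Finset.mem_biUnion]
    refine ⟨b, Finset.mem_univ _, Finset.mem_image.2 ⟨e, ?_, ?_⟩⟩
    · exact Finset.mem_filter.2 ⟨Finset.mem_univ _, T1, hb⟩
    · rw [itB_tree hf (hT b e ⟨T1, hb⟩) hb]
  have hcard : F.card ≤ Fintype.card D * (12 * K + 1) := by
    rw [hF]
    refine Finset.card_biUnion_le.trans ?_
    refine (Finset.sum_le_card_nsmul _ _ (12 * K + 1) fun b _ =>
      Finset.card_image_le.trans (itB_card hf h r K b)).trans ?_
    rw [smul_eq_mul, Finset.card_univ]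
  refine ⟨F.finite_toSet.subset hsub, ?_⟩
  refine (Set.ncard_le_ncard hsub F.finite_toSet).trans ?_
  rw [Set.ncard_coe_finset]
  exact hcard

end HG39
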