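import Pool.Agent.H39.HG.Defs
import Pool.Agent.H39.HG.GlueVal
import Pool.Agent.H39.HG.GrPerm
import Pool.Agent.H39.HG.UVal

/-!
[H39 HG UPT]  (MP_bcc40c_pr)  Removing a unit gives a partial triangulation with two more free
triangles, and the other leaf triangles survive.

Setting: `PT f α bs` (partial triangulation, the legs are the darts of the free triangles `bs`), `w` a
leaf triangle: `α (f w) = f (f w)`.  Put `z = α w`, `x = α (f z)`, `y = α (f (f z))` (so the collar is the
triangle `z, f z, f (f z)`).  The hypothesis `3 * bs.length + 6 < card D` says that there are more than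
six non-legs.

PROOF of unit_PT.  `inv`: from the values (rmv_six, rmv_xy, rmv_other; `α` maps the complement of the
eight darts to itself).  `leg`: the fixed points of `rmv` are the six darts and the old legs;
`tri f (w :: z :: bs) = six ++ tri f bs`; old legs are not among the eight darts (unit_nonleg).
`ndp`: unit_nodup, ndp and disjointness (unit_nonleg and leg).
`con`: let `P` be closed under `f` and `α' = rmv f α w`, and contain a non-leg `d0` of `α'` (so `d0` is a
non-leg of `α` and not one of the six).  Define `Q d := (d ∈ six → P x ∨ P y) ∧ (d ∉ six → P d)`, with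
`x = α (f z)`, `y = α (f (f z))`.  Note `P x ↔ P y` (closed under `α'`, `α' x = y`, `α' y = x`).  `Q` is closed
under `f` (six is closed under `f`, and so is its complement) and under `α`: `d ∉ six`, `α d ∉ six`: then
`d ≠ x, y` (because `α x = f z ∈ six`), `α' d = α d`; `d ∉ six`, `α d ∈ six`: then `α d` is `f z` or
`f (f z)`, i.e. `d` is `x` or `y`: `Q (α d)` holds since `P d`; `d ∈ six`, `α d ∉ six`: `d` is `f z` or
`f (f z)`, `α d` is `x` or `y`, fine; `d, α d ∈ six`: fine.  `Q d0` holds.  By `h.con` all non-legs satisfy
`Q`, so all non-legs of `α'` satisfy `P`.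
leaf_rmv: let `w' ≠ w` be another leaf of `α`.  The darts `f w'`, `f (f w')` are glued to each other.
Neither of them is in `six`: the pairs of `α` with both members in one triangle and both in `six` are
`{f w, f (f w)}` only (`f z, f (f z)` are glued to `x, y` outside), and `f w' = f w` gives `w' = w`;
`f w' ∈ six` and `α (f w') = f (f w')` in the same triangle, so `f (f w') ∈ six` too, hence
`{f w', f (f w')} = {f w, f (f w)}`; `f w' = f (f w)` would give `f (f w') = w`, but `α (f (f w)) = f w ≠ w`.
Also `f w' ≠ x` (`α x = f z ∈ six`, but `α (f w') = f (f w') ∉ six`), same for `y` and `f (f w')`.  So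
`rmv` agrees with `α` on `f w'`.
lfc_rmv: the leaves of `α` different from `w` inject into the leaves of `rmv f α w`.
-/

set_option autoImplicit false

namespace HG39

open Equiv

variable {D : Type} [Fintype D] [DecidableEq D]

private theorem up_mem (f α : Perm D) (w d : D) :
    d ∈ six f α w ++ [α (f (α w)), α (f (f (α w)))] ↔
      d ∈ six f α w ∨ d = α (f (α w)) ∨ d = α (f (f (α w))) := by
  rw [List.mem_append, List.mem_cons, List.mem_cons]
  simp only [List.not_mem_nil, or_false]

private theorem up_tri (f α : Perm D) (w : D) (bs : List D) :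
    tri f (w :: α w :: bs) = six f α w ++ tri f bs := rfl

private theorem up_six_tri (f α : Perm D) (w : D) : six f α w = tri f [w, α w] := rfl

private theorem up_six_f {f α : Perm D} (hf : TF f) (w d : D) :
    f d ∈ six f α w ↔ d ∈ six f α w := by
  rw [up_six_tri, tri_closed hf]

/-- values of `rmv` -/
private theorem up_nl {f α : Perm D} {bs : List D} (hf : TF f) (h : PT f α bs) {w : D}
    (hw : Leaf f α w) (hN : 3 * bs.length + 6 < Fintype.card D) (d : D)
    (hd : d ∉ six f α w ++ [α (f (α w)), α (f (f (α w)))]) :
    α d ∉ six f α w ++ [α (f (α w)), α (f (f (α w)))] := by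
  have hi := h.inv
  have hw1 : α (f w) = f (f w) := hw
  have hw2 : α (f (f w)) = f w := by rw [← hw1, hi]
  rw [up_mem] at hd ⊢
  intro h1
  apply hd
  have key : ∀ a, α d = a → d = α a := by
    intro a ha
    rw [← ha, hi]
  rcases h1 with h1 | h1 | h1
  · simp only [six, List.mem_cons, List.not_mem_nil, or_false] at h1 ⊢
    rcases h1 with h1 | h1 | h1 | h1 | h1 | h1
    · have h2 := key _ h1
      tauto
    · have h2 := key _ h1
      rw [hw1] at h2
      tauto
    · have h2 := key _ h1
      rw [hw2] at h2
      tauto
    · have h2 := key _ h1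
      rw [hi] at h2
      tauto
    · have h2 := key _ h1
      tauto
    · have h2 := key _ h1
      tauto
  · have h2 := key _ h1
    rw [hi] at h2
    left
    rw [h2]
    simp [six]
  · have h2 := key _ h1
    rw [hi] at h2
    left
    rw [h2]
    simp [six]

theorem unit_PT {f α : Perm D} {bs : List D} (hf : TF f) (h : PT f α bs) {w : D}
    (hw : Leaf f α w) (hN : 3 * bs.length + 6 < Fintype.card D) :
    PT f (rmv f α w) (w :: α w :: bs) := by
  have hi := h.inv
  have hw1 : α (f w) = f (f w) := hw
  have hw2 : α (f (f w)) = f w := by rw [← hw1, hi]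
  obtain ⟨rx, ry⟩ := rmv_xy hf h hw hN
  have hsix := rmv_six hf h hw hN
  have hoth := rmv_other hf h hw hN
  have hnl := unit_nonleg hf h hw hN
  have hxy : α (f (α w)) ≠ α (f (f (α w))) := by
    intro hc
    exact hf.nf _ (α.injective hc).symm
  have hcases : ∀ d : D, d ∈ six f α w ∨ d = α (f (α w)) ∨ d = α (f (f (α w))) ∨
      d ∉ six f α w ++ [α (f (α w)), α (f (f (α w)))] := by
    intro d
    by_cases hd : d ∈ six f α w ++ [α (f (α w)), α (f (f (α w)))]
    · rw [up_mem] at hd
      tauto
    · tauto
  refine ⟨?_, ?_, ?_, ?_⟩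
  · intro d
    rcases hcases d with hd | hd | hd | hd
    · rw [hsix d hd, hsix d hd]
    · rw [hd, rx, ry]
    · rw [hd, ry, rx]
    · rw [hoth d hd, hoth _ (up_nl hf h hw hN d hd), hi]
  · intro d
    rw [up_tri, List.mem_append]
    rcases hcases d with hd | hd | hd | hd
    · exact ⟨fun _ => Or.inl hd, fun _ => hsix d hd⟩
    · have h1 := hnl d ((up_mem f α w d).2 (Or.inr (Or.inl hd)))
      have h2 := (uv_six hf h hw hN)
      constructor
      · intro h3
        rw [hd, rx] at h3
        exact absurd h3.symm hxy
      · rintro (h3 | h3)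
        · exact absurd hd (h2 d h3).1
        · exact absurd ((h.leg d).2 h3) h1
    · have h1 := hnl d ((up_mem f α w d).2 (Or.inr (Or.inr hd)))
      have h2 := (uv_six hf h hw hN)
      constructor
      · intro h3
        rw [hd, ry] at h3
        exact absurd h3 hxy
      · rintro (h3 | h3)
        · exact absurd hd (h2 d h3).2
        · exact absurd ((h.leg d).2 h3) h1
    · rw [hoth d hd, h.leg]
      constructor
      · exact fun h3 => Or.inr h3
      · rintro (h3 | h3)
        · exact absurd (List.mem_append_left _ h3) hd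
        · exact h3
  · rw [up_tri]
    rw [List.nodup_append]
    refine ⟨(List.nodup_append.1 (unit_nodup hf h hw hN)).1, h.ndp, ?_⟩
    rintro a ha b hb rfl
    exact hnl a (List.mem_append_left _ ha) ((h.leg a).2 hb)
  · intro P hex hPf hPa
    have hPxy : P (α (f (α w))) ↔ P (α (f (f (α w)))) := by
      constructor
      · intro h1
        have h2 := hPa _ h1
        rwa [rx] at h2
      · intro h1
        have h2 := hPa _ h1
        rwa [ry] at h2
    set Q : D → Prop := fun d => (d ∈ six f α w → P (α (f (α w)))) ∧ (d ∉ six f α w → P d)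
      with hQ
    have hxs : α (f (α w)) ∉ six f α w := fun h1 => (uv_six hf h hw hN _ h1).1 rfl
    have hys : α (f (f (α w))) ∉ six f α w := fun h1 => (uv_six hf h hw hN _ h1).2 rfl
    have hQf : ∀ d, Q d → Q (f d) := by
      intro d hd
      refine ⟨fun h1 => hd.1 ((up_six_f hf w d).1 h1), fun h1 => hPf _ (hd.2 ?_)⟩
      exact fun h2 => h1 ((up_six_f hf w d).2 h2)
    have hQa : ∀ d, Q d → Q (α d) := by
      intro d hd
      rcases hcases d with h1 | h1 | h1 | h1
      · have hPx := hd.1 h1
        refine ⟨fun _ => hPx, fun h2 => ?_⟩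
        simp only [six, List.mem_cons, List.not_mem_nil, or_false] at h1 h2
        rcases h1 with h1 | h1 | h1 | h1 | h1 | h1
        · exact absurd (by rw [h1]; tauto) h2
        · exact absurd (by rw [h1, hw1]; tauto) h2
        · exact absurd (by rw [h1, hw2]; tauto) h2
        · exact absurd (by rw [h1, hi]; tauto) h2
        · rw [h1]
          exact hPx
        · rw [h1]
          exact hPxy.1 hPx
      · have h2 : α d ∈ six f α w := by
          rw [h1, hi]
          simp [six]
        refine ⟨fun _ => ?_, fun h3 => absurd h2 h3⟩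
        have h3 := hd.2 (by rw [h1]; exact hxs)
        rwa [h1] at h3
      · have h2 : α d ∈ six f α w := by
          rw [h1, hi]
          simp [six]
        refine ⟨fun _ => ?_, fun h3 => absurd h2 h3⟩
        have h3 := hd.2 (by rw [h1]; exact hys)
        rw [h1] at h3
        exact hPxy.2 h3
      · have h2 := up_nl hf h hw hN d h1
        have h3 : d ∉ six f α w := fun h4 => h1 (List.mem_append_left _ h4)
        have h4 : α d ∉ six f α w := fun h4 => h2 (List.mem_append_left _ h4)
        refine ⟨fun h5 => absurd h5 h4, fun _ => ?_⟩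
        have h5 := hPa d (hd.2 h3)
        rwa [hoth d h1] at h5
    have hrm : ∀ d, rmv f α w d ≠ d → d ∉ six f α w ∧ α d ≠ d := by
      intro d hd
      rcases hcases d with h1 | h1 | h1 | h1
      · exact absurd (hsix d h1) hd
      · exact ⟨by rw [h1]; exact hxs, hnl d ((up_mem f α w d).2 (Or.inr (Or.inl h1)))⟩
      · exact ⟨by rw [h1]; exact hys, hnl d ((up_mem f α w d).2 (Or.inr (Or.inr h1)))⟩
      · rw [hoth d h1] at hd
        exact ⟨fun h4 => h1 (List.mem_append_left _ h4), hd⟩
    obtain ⟨d0, h0, hP0⟩ := hex
    obtain ⟨h1, h2⟩ := hrm d0 h0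
    have hall := h.con Q ⟨d0, h2, fun h3 => absurd h3 h1, fun _ => hP0⟩ hQf hQa
    intro d hd
    obtain ⟨h3, h4⟩ := hrm d hd
    exact (hall d h4).2 h3

theorem leaf_rmv {f α : Perm D} {bs : List D} (hf : TF f) (h : PT f α bs) {w : D}
    (hw : Leaf f α w) (hN : 3 * bs.length + 6 < Fintype.card D) (w' : D) (hw' : Leaf f α w')
    (hne : w' ≠ w) : Leaf f (rmv f α w) w' := by
  have hi := h.inv
  have hw1 : α (f w) = f (f w) := hw
  have hw2 : α (f (f w)) = f w := by rw [← hw1, hi]
  have hl1 : α (f w') = f (f w') := hw'
  have f3 := hf.three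
  have f2 : ∀ d, f (f d) ≠ d := by
    intro d hd
    apply hf.nf d
    have h1 := congrArg f hd
    rw [f3] at h1
    exact h1.symm
  have hs : f w' ∉ six f α w := by
    intro hs
    have hs2 : f (f w') ∈ six f α w := (up_six_f hf w _).2 hs
    have hs3 := uv_six hf h hw hN _ hs2
    simp only [six, List.mem_cons, List.not_mem_nil, or_false] at hs
    rcases hs with h1 | h1 | h1 | h1 | h1 | h1
    · -- f w' = w
      rw [h1] at hl1
      have h2 := congrArg α hl1
      rw [hi, hw1] at h2
      exact f2 w h2.symm
    · exact hne (f.injective h1)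
    · rw [h1, f3, hw2] at hl1
      exact hf.nf w hl1
    · rw [h1, hi] at hl1
      have h2 := congrArg f (congrArg f hl1)
      rw [f3] at h2
      have h3 := congrArg α h2
      rw [hw2, hi] at h3
      exact hf.nf w h3
    · rw [h1] at hl1 hs3
      exact hs3.1 hl1.symm
    · have h2 : f w' = f (f (α w)) := h1
      have h3 : f (f w') = α w := by rw [h2, f3]
      rw [h3] at hl1
      have h4 := congrArg α hl1
      rw [hi, hi] at h4
      rw [h2] at h4
      have h5 := congrArg f h4
      rw [f3] at h5
      have h6 := congrArg α h5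
      rw [hi, hw1] at h6
      exact f2 w h6.symm
  have hx : f w' ≠ α (f (α w)) := by
    intro h1
    have h2 := congrArg α h1
    rw [hi, hl1] at h2
    apply hs
    rw [← up_six_f hf, h2]
    simp [six]
  have hy : f w' ≠ α (f (f (α w))) := by
    intro h1
    have h2 := congrArg α h1
    rw [hi, hl1] at h2
    apply hs
    rw [← up_six_f hf, h2]
    simp [six]
  show rmv f α w (f w') = f (f w')
  rw [rmv_other hf h hw hN, hl1]
  rw [up_mem]
  rintro (h1 | h1 | h1)
  · exact hs h1
  · exact hx h1
  · exact hy h1

theorem lfc_rmv {f α : Perm D} {bs : List D} (hf : TF f) (h : PT f α bs) {w : D}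
    (hw : Leaf f α w) (hN : 3 * bs.length + 6 < Fintype.card D) :
    lfc f α ≤ lfc f (rmv f α w) + 1 := by
  classical
  unfold lfc
  rw [Nat.card_eq_fintype_card, Nat.card_eq_fintype_card, Fintype.card_subtype,
    Fintype.card_subtype]
  have hsub : (Finset.univ.filter fun w' => Leaf f α w') ⊆
      insert w (Finset.univ.filter fun w' => Leaf f (rmv f α w) w') := by
    intro w' hw'
    rw [Finset.mem_insert]
    by_cases hne : w' = w
    · exact Or.inl hne
    · exact Or.inr (Finset.mem_filter.2 ⟨Finset.mem_univ _,
        leaf_rmv hf h hw hN w' (Finset.mem_filter.1 hw').2 hne⟩)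
  exact (Finset.card_le_card hsub).trans (Finset.card_insert_le _ _)

end HG39
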