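import Pool.Agent.H39.HG.Defs
import Pool.Agent.H39.HG.GrPerm
import Pool.Agent.H39.HG.UVal
import Pool.Agent.H39.HG.UPT
import Pool.Agent.H39.HG.UCyc
import Pool.Agent.H39.HG.LabBasic
import Pool.Agent.H39.HG.ULab

/-!
[H39 HG USTEP]  (MP_bcc40c_pr)  Counting: one removal, configurations with a pair of vertices.

`Xc f v r j M`: the quadruples `(α, bs, a, b)` with `PT f α bs`, `bs.length = 2 j`, `cyc (f * α) = v + j`,
at least `M` leaf triangles, `a` and `b` representatives (`rep f α a = a`) of two vertices, non-legs,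
and labels `ℓ` with `ℓ a = 0`, `ℓ b = r`.  (rep: `Quotient.out` of the class.)

PROOF of Xc_step.  Consider the set `E` of pairs `(c, w)`, `c = (α, bs, a, b) ∈ Xc f v r j (M+1)`, `w`
a leaf of `α` with `f (f w) ≠ a` and `f (f w) ≠ b`.  For each `c` there are at least `M + 1 - 2 = M - 1` such
`w` (`w ↦ f (f w)` is injective).  Map `(c, w)` to `((rmv f α w, w :: α w :: bs, a', b'), α (f (α w)))`
with `a' = rep f (rmv f α w) a1`, where `a1 ∉ six f α w` is some dart of the `f*α`-cycle of `a`
(unit_surv), same for `b'`.  The image is in `Xc f v r (j+1) M × D`: unit_PT, unit_cyc, lfc_rmv, unit_Lab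
with the same `ℓ` (`ℓ (f (f w)) ≠ 0`, because otherwise `zro` gives `SameCycle (f (f w)) a`, but `f (f w)` is
a fixed point of `f * α`, so `a = f (f w)`); the labels of `a'`, `b'` are those of `a1`, `b1`, i.e. of `a`,
`b` (lab_same for `rmv` and for `α`); `a'` is a non-leg (lab_same); `rep (rep a) = rep a`.
Injective: from the image one reads `w`, `z = α w`, `bs` (list), `x = α (f (α w))` and `α' = rmv f α w`,
hence `α = ins f α' w z x` (ins_rmv); finally `a' ` is in the `f*α`-cycle of `a`: `a'` is in the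
`f*α'`-cycle of `a1`, `a' ∉ six` (non-leg of `α'`), unit_same; so `a = rep f α a = rep f α a'`; the
same for `b`.  All sets are finite (`Set.ncard` of subsets of `Perm D × List D × D × D` with lists of
bounded length: `List.finite_length_eq`); use `Set.ncard_le_ncard_of_injOn` or Finset versions; the
number of pairs `(c, w)` is at least `ncard * (M - 1)` (sum over `c`, e.g. `Set.ncard` of a sigma
type or `Finset.card_sigma`).
Xc_iter: induction on `K` with Nat.descFactorial: `M.descFactorial`-type product: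
`(M - 2).descFactorial (K+1) = (M - 2 - K) * (M - 2).descFactorial K`.  If `M ≤ K + 2` the next factor
is zero.
-/

set_option autoImplicit false

namespace HG39

open Equiv

variable {D : Type} [Fintype D] [DecidableEq D]

theorem rep_same (f α : Perm D) (a : D) : (f * α).SameCycle (rep f α a) a :=
  Quotient.mk_out (s := Equiv.Perm.SameCycle.setoid (f * α)) a

theorem rep_eq {f α : Perm D} {a b : D} (h : (f * α).SameCycle a b) :
    rep f α a = rep f α b := by
  unfold rep
  exact congrArg Quotient.out (Quotient.sound h)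

theorem Xc_finite (f : Perm D) (v r j M : ℕ) : (Xc f v r j M).Finite := by
  have h1 : ((Set.univ : Set (Perm D)) ×ˢ ({bs : List D | bs.length = 2 * j} ×ˢ
      ((Set.univ : Set D) ×ˢ (Set.univ : Set D)))).Finite :=
    Set.finite_univ.prod ((List.finite_length_eq D (2 * j)).prod
      (Set.finite_univ.prod Set.finite_univ))
  refine h1.subset ?_
  rintro ⟨α, bs, a, b⟩ hc
  exact ⟨Set.mem_univ _, hc.2.1, Set.mem_univ _, Set.mem_univ _⟩

private theorem us_nl {f α : Perm D} {bs : List D} (hf : TF f) (h : PT f α bs) {w : D}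
    (hw : Leaf f α w) (hN : 3 * bs.length + 6 < Fintype.card D) (d : D)
    (hd : d ∉ six f α w) (hd' : α d ≠ d) : rmv f α w d ≠ d := by
  obtain ⟨rx, ry⟩ := rmv_xy hf h hw hN
  have hxy : α (f (α w)) ≠ α (f (f (α w))) := by
    intro hc
    exact hf.nf _ (α.injective hc).symm
  by_cases h1 : d = α (f (α w))
  · rw [h1, rx]
    exact hxy.symm
  · by_cases h2 : d = α (f (f (α w)))
    · rw [h2, ry]
      exact hxy
    · rw [rmv_other hf h hw hN d]
      · exact hd'
      · rw [List.mem_append]
        rintro (h3 | h3)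
        · exact hd h3
        · simp only [List.mem_cons, List.not_mem_nil, or_false] at h3
          exact h3.elim h1 h2

private theorem us_pt {f α : Perm D} {bs : List D} {ℓ : D → ℤ} (hf : TF f) (h : PT f α bs)
    {w : D} (hw : Leaf f α w) (hN : 3 * bs.length + 6 < Fintype.card D) (hl : Lab f α ℓ)
    (hl' : Lab f (rmv f α w) ℓ) (a : D) (ha : α a ≠ a) (hr : rep f α a = a)
    (hne : f (f w) ≠ a) : ∃ a', rep f (rmv f α w) a' = a' ∧ rmv f α w a' ≠ a' ∧ ℓ a' = ℓ a ∧
      rep f α a' = a := by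
  obtain ⟨a1, h1, h2⟩ := unit_surv hf h hw hN a hne.symm
  obtain ⟨h3, h4⟩ := lab_same hf h hl a a1 ha h2
  have h5 := us_nl hf h hw hN a1 h1 h4
  have h6 := rep_same f (rmv f α w) a1
  obtain ⟨h7, h8⟩ := lab_same hf (unit_PT hf h hw hN) hl' a1 _ h5 h6.symm
  have h9 : rep f (rmv f α w) a1 ∉ six f α w := fun h10 => h8 (rmv_six hf h hw hN _ h10)
  have h10 := (unit_same hf h hw hN _ _ h9 h1).1 h6
  refine ⟨rep f (rmv f α w) a1, rep_eq h6, h8, by rw [← h7, ← h3], ?_⟩
  rw [rep_eq (h10.trans h2.symm), hr]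

private theorem us_data {f : Perm D} (hf : TF f) (v r j M : ℕ)
    (hN : 6 * j + 6 < Fintype.card D) (α : Perm D) (bs : List D) (a b w : D)
    (hc : (α, bs, a, b) ∈ Xc f v r j (M + 1)) (hw : Leaf f α w) (ha : f (f w) ≠ a)
    (hb : f (f w) ≠ b) : ∃ a' b', (rmv f α w, w :: α w :: bs, a', b') ∈ Xc f v r (j + 1) M ∧
      rep f α a' = a ∧ rep f α b' = b := by
  obtain ⟨h1, h2, h3, h4, h5, h6, ℓ, h7, h8, h9, h10, h11⟩ := hc
  simp only at h1 h2 h3 h4 h5 h6 h7 h8 h9 h10 h11
  have hN' : 3 * bs.length + 6 < Fintype.card D := by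
    rw [h2]
    omega
  have hw1 : α (f w) = f (f w) := hw
  have hw2 : α (f (f w)) = f w := by rw [← hw1, h1.inv]
  have hnl : α (f (f w)) ≠ f (f w) := by
    rw [hw2]
    exact (hf.nf _).symm
  have h0 : ℓ (f (f w)) ≠ 0 := by
    intro h0
    have h12 := h7.zro _ _ hnl h8 h0 h9
    have fixw : Function.IsFixedPt (f * α) (f (f w)) := by
      show f (α (f (f w))) = f (f w)
      rw [hw2]
    exact ha (h12.eq_of_left fixw)
  have hl' := unit_Lab hf h1 hw hN' h7 h0
  obtain ⟨a', ha1, ha2, ha3, ha4⟩ := us_pt hf h1 hw hN' h7 hl' a h8 h5 ha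
  obtain ⟨b', hb1, hb2, hb3, hb4⟩ := us_pt hf h1 hw hN' h7 hl' b h10 h6 hb
  refine ⟨a', b', ⟨unit_PT hf h1 hw hN', ?_, ?_, ?_, ha1, hb1, ℓ, hl', ha2, ?_, hb2, ?_⟩,
    ha4, hb4⟩
  · simp only [List.length_cons]
    omega
  · simp only
    rw [unit_cyc hf h1 hw hN', h3, add_assoc]
  · have h13 := lfc_rmv hf h1 hw hN'
    simp only
    omega
  · simp only
    rw [ha3, h9]
  · simp only
    rw [hb3, h11]

/-- decoding of the data of one removal -/
private noncomputable def us_dec (f : Perm D) (t : (Perm D × List D × D × D) × D) :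
    (_ : Perm D × List D × D × D) × D :=
  match t.1.2.1 with
  | w :: z :: bs => ⟨(ins f t.1.1 w z t.2, bs, rep f (ins f t.1.1 w z t.2) t.1.2.2.1,
      rep f (ins f t.1.1 w z t.2) t.1.2.2.2), w⟩
  | l => ⟨(t.1.1, l, t.1.2.2.1, t.1.2.2.2), t.1.2.2.1⟩

theorem Xc_step {f : Perm D} (hf : TF f) (v r j M : ℕ) (hN : 6 * j + 6 < Fintype.card D) :
    (Xc f v r j (M + 1)).ncard * (M - 1) ≤ (Xc f v r (j + 1) M).ncard * Fintype.card D := by
  classical
  have hX := Xc_finite f v r j (M + 1)
  have hX' := Xc_finite f v r (j + 1) M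
  rw [Set.ncard_eq_toFinset_card _ hX, Set.ncard_eq_toFinset_card _ hX']
  set W : Perm D × List D × D × D → Finset D := fun c =>
    ((Finset.univ.filter fun w => Leaf f c.1 w).filter fun w => f (f w) ≠ c.2.2.1).filter
      fun w => f (f w) ≠ c.2.2.2 with hW
  have hcut : ∀ (S : Finset D) (a : D), S.card ≤ (S.filter fun w => f (f w) ≠ a).card + 1 := by
    intro S a
    have h1 : S ⊆ insert (f.symm (f.symm a)) (S.filter fun w => f (f w) ≠ a) := by
      intro w hw
      rw [Finset.mem_insert, Finset.mem_filter]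
      by_cases h2 : f (f w) = a
      · left
        rw [← h2, Equiv.symm_apply_apply, Equiv.symm_apply_apply]
      · exact Or.inr ⟨hw, h2⟩
    exact (Finset.card_le_card h1).trans (Finset.card_insert_le _ _)
  have hWc : ∀ c ∈ hX.toFinset, M - 1 ≤ (W c).card := by
    intro c hc
    rw [Set.Finite.mem_toFinset] at hc
    have h1 : M + 1 ≤ (Finset.univ.filter fun w => Leaf f c.1 w).card := by
      have h2 := hc.2.2.2.1
      unfold lfc at h2
      rwa [Nat.card_eq_fintype_card, Fintype.card_subtype] at h2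
    have h3 := hcut (Finset.univ.filter fun w => Leaf f c.1 w) c.2.2.1
    have h4 := hcut ((Finset.univ.filter fun w => Leaf f c.1 w).filter
      fun w => f (f w) ≠ c.2.2.1) c.2.2.2
    show M - 1 ≤ (((Finset.univ.filter fun w => Leaf f c.1 w).filter
      fun w => f (f w) ≠ c.2.2.1).filter fun w => f (f w) ≠ c.2.2.2).card
    omega
  have h1 : hX.toFinset.card * (M - 1) ≤ (hX.toFinset.sigma W).card := by
    rw [Finset.card_sigma, ← smul_eq_mul]
    exact Finset.card_nsmul_le_sum _ _ _ hWc
  refine h1.trans ?_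
  have h2 : Set.SurjOn (us_dec f) (↑(hX'.toFinset ×ˢ (Finset.univ : Finset D)))
      (↑(hX.toFinset.sigma W)) := by
    rintro ⟨⟨α, bs, a, b⟩, w⟩ hcw
    rw [Finset.mem_coe, Finset.mem_sigma] at hcw
    obtain ⟨hc, hw⟩ := hcw
    rw [Set.Finite.mem_toFinset] at hc
    simp only [hW, Finset.mem_filter, Finset.mem_univ, true_and] at hw
    obtain ⟨⟨hw1, hw2⟩, hw3⟩ := hw
    obtain ⟨a', b', h3, h4, h5⟩ := us_data hf v r j M hN α bs a b w hc hw1 hw2 hw3
    have hN' : 3 * bs.length + 6 < Fintype.card D := by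
      have h6 : bs.length = 2 * j := hc.2.1
      omega
    have h7 := ins_rmv hf hc.1 hw1 hN'
    refine ⟨((rmv f α w, w :: α w :: bs, a', b'), α (f (α w))), ?_, ?_⟩
    · rw [Finset.mem_coe, Finset.mem_product, Set.Finite.mem_toFinset]
      exact ⟨h3, Finset.mem_univ _⟩
    · simp only [us_dec]
      rw [h7, h4, h5]
  have h3 := Finset.card_le_card_of_surjOn _ h2
  rwa [Finset.card_product, Finset.card_univ] at h3

theorem Xc_iter {f : Perm D} (hf : TF f) (v r M K : ℕ) (hN : 6 * K < Fintype.card D) :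
    (Xc f v r 0 M).ncard * (M - 2).descFactorial K ≤
      (Xc f v r K (M - K)).ncard * (Fintype.card D) ^ K := by
  induction K with
  | zero => simp
  | succ K ih =>
    have h1 := ih (by omega)
    rw [Nat.descFactorial_succ]
    rcases Nat.eq_zero_or_pos (M - 2 - K) with h0 | h0
    · rw [h0, zero_mul, mul_zero]
      exact Nat.zero_le _
    · have h2 := Xc_step hf v r K (M - (K + 1)) (by omega)
      have e1 : M - (K + 1) + 1 = M - K := by omega
      have e2 : M - (K + 1) - 1 = M - 2 - K := by omega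
      rw [e1, e2] at h2
      calc (Xc f v r 0 M).ncard * ((M - 2 - K) * (M - 2).descFactorial K)
          = (M - 2 - K) * ((Xc f v r 0 M).ncard * (M - 2).descFactorial K) := by ring
        _ ≤ (M - 2 - K) * ((Xc f v r K (M - K)).ncard * (Fintype.card D) ^ K) :=
          Nat.mul_le_mul_left _ h1
        _ = ((Xc f v r K (M - K)).ncard * (M - 2 - K)) * (Fintype.card D) ^ K := by ring
        _ ≤ ((Xc f v r (K + 1) (M - (K + 1))).ncard * Fintype.card D) * (Fintype.card D) ^ K :=
          Nat.mul_le_mul_right _ h2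
        _ = (Xc f v r (K + 1) (M - (K + 1))).ncard * (Fintype.card D) ^ (K + 1) := by ring

end HG39
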