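import Pool.Agent.H39.HG.Defs
import Pool.Agent.H39.HG.GrPerm
import Pool.Agent.H39.HG.EmbBasic
import Pool.Agent.H39.HG.ScanLev
import Pool.Agent.H39.HG.LabBasic
import Pool.Agent.H39.HG.SlcBasic
import Pool.Agent.H39.HG.GraphA
import Pool.Agent.H39.HG.GraphLab
import Pool.Agent.H39.HG.UStep
import Pool.Agent.H39.HG.InsLen
import Pool.Agent.H39.HG.InsVal
import Pool.Agent.H39.HG.InsSlc
import Pool.Agent.H39.HG.InsPT
import Pool.Agent.H39.HG.InsCyc
import Pool.Agent.H39.HG.InsItem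
import Pool.Agent.H39.HG.InsInj
import Pool.Agent.H39.HG.Items

/-!
[H39 HG MAINP]  (MP_bcc40c_pr)  The main inequality (P1) for pairs of vertices at distance `r`.

PROOF.  (1) pr_xc: `(α, a, b) ↦ (α, [], a, b)` maps `Pr f v r M` injectively into `Xc f v r 0 M` (labels
`dst a ·`, dst_lab; full triangulation: no legs; `ℓ a = 0`).
(2) Xc_iter.
(3) xc_item: map `(c, T)` with `c = (α, bs, a, b) ∈ Xc f v r K m` and `T ∈ F`.  `bs` has length `2 K ≥ 2`,
`bs = e :: c0 :: bs'`, `bs'.length = 2 K - 2 = T.sz + 1`.  `ℓ b = r ≥ 1`: fst_exists from `b` gives a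
descending `δ1` in the cycle of `b` (level `r`), geo_exists gives `δ1 :: δs` (non-legs), length `r`
(geo_lev).  So InsH holds.  Image: `(α', (e, T))`, `α' = insS ..`; `α' ∈ TS f v` (ins_PT, ins_cyc:
`cyc (f * α') + K = v + K`), and `(e, T)` is an item of `α'` (ins_item).  Injective: ins_inj gives `c0, bs',
δ1, δs, α`; `b = rep f α b = rep f α δ1` (rep_eq), `a = rep f α (f δ_last)`: `f δ_r` has level 0, so by `zro`
it is in the cycle of `a`.
So `(Xc f v r K m).ncard * F.card ≤ ∑_{α' ∈ TS} #items(α') ≤ (TS f v).ncard * (card D * (12 K + 1))`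
(items_count).
(4) combine: `(Pr).ncard * (M-2).descFactorial K * F.card ≤ (Xc f v r K (M-K)).ncard * F.card * |D|^K`.
-/

set_option autoImplicit false

namespace HG39

open Equiv

variable {D : Type} [Fintype D] [DecidableEq D]

theorem mainP_pr_xc {f : Perm D} (hf : TF f) (v r M : ℕ) :
    (Pr f v r M).ncard ≤ (Xc f v r 0 M).ncard := by
  refine Set.ncard_le_ncard_of_injOn
    (fun c : Perm D × D × D => (c.1, ([] : List D), c.2.1, c.2.2)) ?_ ?_ (Xc_finite f v r 0 M)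
  · rintro ⟨α, a, b⟩ hc
    obtain ⟨⟨hpt, hcyc⟩, hM, hra, hrb, hd⟩ := hc
    have hnl : ∀ d, α d ≠ d := by
      intro d hd
      have := (hpt.leg d).1 hd
      simp [tri] at this
    refine ⟨hpt, by simp, by simpa using hcyc, hM, hra, hrb, _, dst_lab hf hpt a, hnl a, ?_,
      hnl b, ?_⟩
    · have : dst f α a a = 0 := dst_self f α a a (Equiv.Perm.SameCycle.refl _ _)
      exact_mod_cast this
    · exact_mod_cast hd
  · rintro ⟨α, a, b⟩ _ ⟨α', a', b'⟩ _ h
    simp only [Prod.mk.injEq, true_and] at h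
    simp only [Prod.mk.injEq]
    exact h

/-- data of an insertion -/
def mainP_R (f : Perm D) (r : ℕ) (x : (Perm D × List D × D × D) × Tr)
    (w : (_ : Perm D) × (D × Tr)) : Prop :=
  ∃ (ℓ : D → ℤ) (e c0 : D) (bs : List D) (δ1 : D) (δs : List D),
    x.1.2.1 = e :: c0 :: bs ∧ InsH f x.1.1 ℓ r e c0 bs x.2 δ1 δs ∧
    x.1.2.2.2 = rep f x.1.1 δ1 ∧
    x.1.2.2.1 = rep f x.1.1 (f ((δ1 :: δs).getLast (List.cons_ne_nil _ _))) ∧
    w = ⟨insS f x.1.1 e c0 bs x.2 δ1 δs, (e, x.2)⟩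

theorem mainP_data {f : Perm D} (hf : TF f) (v r m K : ℕ) (hr : 1 ≤ r)
    (c : Perm D × List D × D × D) (hc : c ∈ Xc f v r K m) (T : Tr) (hT : Adm r K T) :
    ∃ w : (_ : Perm D) × (D × Tr), mainP_R f r (c, T) w ∧ w.1 ∈ TS f v ∧
      (Adm r K w.2.2 ∧ ∃ (ℓ : D → ℤ) (c : D) (bs : List D) (lv : List (D × Bool))
      (pr : List (D × D)) (As Bs : List D), Item f w.1 ℓ r w.2.1 c w.2.2 bs lv pr As Bs) := by
  obtain ⟨α, bs0, a, b⟩ := c
  obtain ⟨hpt, hlen, hcyc, hM, hra, hrb, ℓ, hl, ha, ha0, hb, hbr⟩ := hc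
  simp only at hpt hlen hcyc hM hra hrb hl ha ha0 hb hbr
  obtain ⟨hok, hwt, hht, hsz⟩ := hT
  match bs0, hpt, hlen with
  | [], _, hlen => simp at hlen; omega
  | [_], _, hlen => simp at hlen; omega
  | e :: c0 :: bs, hpt, hlen =>
    obtain ⟨δ1, hδ⟩ := fst_exists hf hpt hl b hb (by rw [hbr]; exact_mod_cast hr)
    have hs : (f * α).SameCycle b δ1 := pth_same hpt.inv hδ.2
    obtain ⟨hlb, hnl1⟩ := lab_same hf hpt hl b δ1 hb hs
    obtain ⟨δs, hgeo, hnl⟩ := geo_exists hf hpt hl δ1 hnl1 hδ.1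
    obtain ⟨-, hlen2⟩ := geo_lev hf hpt hl δ1 δs hgeo hnl
    have H : InsH f α ℓ r e c0 bs T δ1 δs := by
      refine ⟨hf, hpt, hl, hgeo, hnl, ?_, ?_, hok, hwt, hht, ?_⟩
      · have : (((δ1 :: δs).length : ℕ) : ℤ) = (r : ℤ) := by rw [hlen2, ← hlb, hbr]
        exact_mod_cast this
      · rw [← hlb, hbr]
      · simp at hlen; omega
    refine ⟨⟨insS f α e c0 bs T δ1 δs, (e, T)⟩, ⟨ℓ, e, c0, bs, δ1, δs, rfl, H, ?_, ?_, rfl⟩,
      ⟨ins_PT H, ?_⟩, ⟨hok, hwt, hht, hsz⟩, ?_⟩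
    · show b = rep f α δ1
      rw [← rep_eq hs, hrb]
    · show a = rep f α (f ((δ1 :: δs).getLast (List.cons_ne_nil _ _)))
      have hmem := List.getLast_mem (List.cons_ne_nil δ1 δs)
      have h0 : ℓ (f ((δ1 :: δs).getLast (List.cons_ne_nil _ _))) = 0 :=
        hgeo.last (δ1 :: δs).dropLast _
          (List.dropLast_append_getLast (List.cons_ne_nil δ1 δs)).symm
      have hn : α (f ((δ1 :: δs).getLast (List.cons_ne_nil _ _))) ≠
          f ((δ1 :: δs).getLast (List.cons_ne_nil _ _)) := by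
        intro hh
        exact hnl _ hmem ((nl_f hf hpt _).1 hh)
      rw [← rep_eq (hl.zro _ _ ha hn ha0 h0), hra]
    · have := ins_cyc H K hsz
      simp only at this ⊢
      omega
    · obtain ⟨ℓ', hI⟩ := ins_item H
      exact ⟨ℓ', c0, bs, _, _, _, _, hI⟩

theorem mainP_inj {f : Perm D} (r : ℕ) (x y : (Perm D × List D × D × D) × Tr)
    (w : (_ : Perm D) × (D × Tr)) (hx : mainP_R f r x w) (hy : mainP_R f r y w) : x = y := by
  obtain ⟨⟨α1, bs1, a1, b1⟩, T1⟩ := x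
  obtain ⟨⟨α2, bs2, a2, b2⟩, T2⟩ := y
  obtain ⟨ℓ, e, c0, bs, δ1, δs, h1, H, h2, h3, h4⟩ := hx
  obtain ⟨ℓ', e', c0', bs', δ1', δs', h1', H', h2', h3', h4'⟩ := hy
  simp only at h1 H h2 h3 h4 h1' H' h2' h3' h4'
  rw [h4] at h4'
  injection h4' with h5 h6
  simp only [Prod.mk.injEq] at h6
  obtain ⟨h6, h7⟩ := h6
  subst h6 h7
  obtain ⟨g1, g2, g3, g4, g5⟩ := ins_inj H H' h5
  subst g1 g2 g3 g4 g5
  subst h1 h1' h2 h2' h3 h3'
  rfl

theorem mainP_item {f : Perm D} (hf : TF f) (v r m K : ℕ) (hr : 1 ≤ r)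
    (F : Finset Tr) (hF : ∀ T ∈ F, Adm r K T) :
    (Xc f v r K m).ncard * F.card ≤
      (TS f v).ncard * (Fintype.card D * (12 * K + 1)) := by
  classical
  have hXf := Xc_finite f v r K m
  have hTf : (TS f v).Finite := Set.toFinite _
  let IT : Perm D → Set (D × Tr) := fun α =>
    {q : D × Tr | Adm r K q.2 ∧ ∃ (ℓ : D → ℤ) (c : D) (bs : List D) (lv : List (D × Bool))
      (pr : List (D × D)) (As Bs : List D), Item f α ℓ r q.1 c q.2 bs lv pr As Bs}
  have hITf : ∀ α ∈ TS f v, (IT α).Finite ∧ (IT α).ncard ≤ Fintype.card D * (12 * K + 1) :=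
    fun α hα => items_count hf hα.1 r K
  let ITf : Perm D → Finset (D × Tr) := fun α => if h : (IT α).Finite then h.toFinset else ∅
  have hmem : ∀ α ∈ TS f v, ∀ q, q ∈ ITf α ↔ q ∈ IT α := by
    intro α hα q
    have h := (hITf α hα).1
    simp only [ITf, dif_pos h, Set.Finite.mem_toFinset]
  have hcard : ∀ α ∈ TS f v, (ITf α).card ≤ Fintype.card D * (12 * K + 1) := by
    intro α hα
    have h := (hITf α hα).1
    have h2 := (hITf α hα).2
    rw [Set.ncard_eq_toFinset_card _ h] at h2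
    simpa only [ITf, dif_pos h] using h2
  have key : (hXf.toFinset ×ˢ F).card ≤ (hTf.toFinset.sigma ITf).card := by
    apply Finset.card_le_card_of_forall_subsingleton (mainP_R f r)
    · rintro ⟨c, T⟩ hcT
      simp only [Finset.mem_product, Set.Finite.mem_toFinset] at hcT
      obtain ⟨w, h1, h2, h3⟩ := mainP_data hf v r m K hr c hcT.1 T (hF T hcT.2)
      refine ⟨w, ?_, h1⟩
      simp only [Finset.mem_sigma, Set.Finite.mem_toFinset]
      exact ⟨h2, (hmem w.1 h2 w.2).2 h3⟩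
    · intro w _ x hx y hy
      exact mainP_inj r x y w hx.2 hy.2
  rw [Finset.card_product, Finset.card_sigma] at key
  rw [Set.ncard_eq_toFinset_card _ hXf, Set.ncard_eq_toFinset_card _ hTf]
  refine key.trans ?_
  have := Finset.sum_le_card_nsmul hTf.toFinset (fun α => (ITf α).card)
    (Fintype.card D * (12 * K + 1)) (by
      intro α hα
      exact hcard α (by simpa using hα))
  simpa using this

theorem mainP {f : Perm D} (hf : TF f) (v r M K : ℕ) (hr : 1 ≤ r) (hN : 6 * K < Fintype.card D)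
    (F : Finset Tr) (hF : ∀ T ∈ F, Adm r K T) :
    (Pr f v r M).ncard * (M - 2).descFactorial K * F.card ≤
      (TS f v).ncard * Fintype.card D ^ (K + 1) * (12 * K + 1) := by
  have h1 := mainP_pr_xc hf v r M
  have h2 := Xc_iter hf v r M K hN
  have h3 := mainP_item hf v r (M - K) K hr F hF
  calc (Pr f v r M).ncard * (M - 2).descFactorial K * F.card
      ≤ (Xc f v r 0 M).ncard * (M - 2).descFactorial K * F.card := by gcongr
    _ ≤ (Xc f v r K (M - K)).ncard * (Fintype.card D) ^ K * F.card := by gcongr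
    _ = ((Xc f v r K (M - K)).ncard * F.card) * (Fintype.card D) ^ K := by ring
    _ ≤ ((TS f v).ncard * (Fintype.card D * (12 * K + 1))) * (Fintype.card D) ^ K := by gcongr
    _ = (TS f v).ncard * Fintype.card D ^ (K + 1) * (12 * K + 1) := by ring

end HG39
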