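import Pool.Agent.H39.HG.Defs
import Pool.Agent.H39.HG.TSets
import Pool.Agent.H39.HG.TLim

/-!
[H39 HG TRESP]  (MP_bcc40c_pr)  The linear recursion (response to a unit boundary value).  Pure real
analysis.  Parameters `g, S, R ≥ 0` with `2 g S < 1` and `hk = g^2 R / (1 - 2gS)^2 ≤ h < 1/4`, `hk > 0`.

 p_0(0) = 1, p_0(i) = 0 (i ≥ 1), q_0 = 0;  p_{N+1}(0) = 1,
 p_{N+1}(i) = 2gS p_N(i) + g (q_N(i) + q_N(i+1)),   q_{N+1}(i) = 2gS q_N(i) + gR (p_N(i) + p_N(i-1)), i ≥ 1
(`q_N(0) = 0` by convention).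
PROOFS.  Nonnegative and monotone in `N`: induction.
resp_super: `p_N(b) p_M(a) ≤ p_{N+M}(a+b)` and `q_N(b) p_M(a) ≤ q_{N+M}(a+b)`: induction on `N` for all `b`.
`N = 0`: `b = 0`: equality; `b > 0`: the left side is 0.  Step, `b = 0`: `p_M(a) ≤ p_{N+1+M}(a)`
(monotone), q: 0.  `b ≥ 1`: the recursion with all terms (for `q`, `b - 1 ≥ 0`, `a + b - 1 = a + (b - 1)`).
resp_lim: let `x = mh hk` (so `0 < x < 1`, `x = hk (1 + x)^2`, mh_prop for `hk`).
Upper bound: `p_N(i) ≤ x^i`, `q_N(i) ≤ c (x^i + x^(i-1))` for `i ≥ 1`, `c = gR/(1-2gS)`: induction: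
`2gS x^i + g c (x^i + x^(i-1) + x^(i+1) + x^i) = x^i (2gS + g c (1+x)^2/x) = x^i (2gS + (1-2gS) hk (1+x)^2/x) =
x^i`; and `2gS c (..) + gR (..) = (2gS c + gR)(..) = c (..)`.
Limits `P(i) = lim p_N(i)`, `Q(i)`: `(1-2gS) P(i) = g (Q(i) + Q(i+1))`, `(1-2gS) Q(i) = gR (P(i) + P(i-1))`,
so `P(i) = hk (P(i+1) + 2 P(i) + P(i-1))` for `i ≥ 1`, `P(0) = 1`, `0 ≤ P(i) ≤ x^i`.  Let `v(i) = x^i - P(i) ≥
0`: `v(0) = 0`, `v(i+1) + v(i-1) = (1/hk - 2) v(i) ≥ 2 v(i)`, so `v(i+1) - v(i) ≥ v(i) - v(i-1) ≥ .. ≥ v(1)`,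
`v(i) ≥ i v(1)`, but `v(i) ≤ 1`, so `v(1) = 0`: `P(1) = x`.  Hence `p_N(1) → mh hk`.
-/

set_option autoImplicit false

namespace HG39

open Equiv

variable {D : Type} [Fintype D] [DecidableEq D]

/-- the response `(p, q)` -/
noncomputable def resp (g S R : ℝ) : ℕ → (ℕ → ℝ) × (ℕ → ℝ)
  | 0 => (fun i => if i = 0 then 1 else 0, fun _ => 0)
  | N + 1 =>
    (fun i => if i = 0 then 1 else
        2 * g * S * (resp g S R N).1 i + g * ((resp g S R N).2 i + (resp g S R N).2 (i + 1)),
     fun i => if i = 0 then 0 else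
        2 * g * S * (resp g S R N).2 i + g * R * ((resp g S R N).1 i + (resp g S R N).1 (i - 1)))

private theorem resp_p0 (g S R : ℝ) (i : ℕ) : (resp g S R 0).1 i = if i = 0 then 1 else 0 := rfl

private theorem resp_q0 (g S R : ℝ) (i : ℕ) : (resp g S R 0).2 i = 0 := rfl

private theorem resp_pz (g S R : ℝ) (N : ℕ) : (resp g S R N).1 0 = 1 := by
  cases N <;> rfl

private theorem resp_qz (g S R : ℝ) (N : ℕ) : (resp g S R N).2 0 = 0 := by
  cases N <;> rfl

private theorem resp_ps (g S R : ℝ) (N i : ℕ) : (resp g S R (N + 1)).1 (i + 1) =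
    2 * g * S * (resp g S R N).1 (i + 1) +
      g * ((resp g S R N).2 (i + 1) + (resp g S R N).2 (i + 1 + 1)) := rfl

private theorem resp_qs (g S R : ℝ) (N i : ℕ) : (resp g S R (N + 1)).2 (i + 1) =
    2 * g * S * (resp g S R N).2 (i + 1) +
      g * R * ((resp g S R N).1 (i + 1) + (resp g S R N).1 i) := rfl

theorem resp_nonneg (g S R : ℝ) (hg : 0 ≤ g) (hS : 0 ≤ S) (hR : 0 ≤ R) (N i : ℕ) :
    0 ≤ (resp g S R N).1 i ∧ 0 ≤ (resp g S R N).2 i := by
  induction N generalizing i with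
  | zero =>
    rw [resp_p0, resp_q0]
    refine ⟨?_, le_rfl⟩
    split_ifs <;> norm_num
  | succ N ih =>
    cases i with
    | zero => rw [resp_pz, resp_qz]; norm_num
    | succ i =>
      rw [resp_ps, resp_qs]
      have h1 := (ih (i + 1)).1
      have h2 := (ih (i + 1)).2
      have h3 := (ih (i + 1 + 1)).2
      have h4 := (ih i).1
      constructor <;> positivity

theorem resp_mono (g S R : ℝ) (hg : 0 ≤ g) (hS : 0 ≤ S) (hR : 0 ≤ R) (N i : ℕ) :
    (resp g S R N).1 i ≤ (resp g S R (N + 1)).1 i ∧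
    (resp g S R N).2 i ≤ (resp g S R (N + 1)).2 i := by
  induction N generalizing i with
  | zero =>
    cases i with
    | zero => rw [resp_pz, resp_pz, resp_qz, resp_qz]; exact ⟨le_rfl, le_rfl⟩
    | succ i =>
      have h1 := resp_nonneg g S R hg hS hR (0 + 1) (i + 1)
      rw [resp_p0, resp_q0, if_neg (Nat.succ_ne_zero i)]
      exact h1
  | succ N ih =>
    cases i with
    | zero => rw [resp_pz, resp_pz, resp_qz, resp_qz]; exact ⟨le_rfl, le_rfl⟩
    | succ i =>
      have h1 := (ih (i + 1)).1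
      have h2 := (ih (i + 1)).2
      have h3 := (ih (i + 1 + 1)).2
      have h4 := (ih i).1
      constructor
      · rw [resp_ps g S R N i, resp_ps g S R (N + 1) i]
        gcongr
      · rw [resp_qs g S R N i, resp_qs g S R (N + 1) i]
        gcongr

theorem resp_super (g S R : ℝ) (hg : 0 ≤ g) (hS : 0 ≤ S) (hR : 0 ≤ R) (N M a b : ℕ) :
    (resp g S R N).1 b * (resp g S R M).1 a ≤ (resp g S R (N + M)).1 (a + b) ∧
    (resp g S R N).2 b * (resp g S R M).1 a ≤ (resp g S R (N + M)).2 (a + b) := by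
  induction N generalizing b with
  | zero =>
    rw [Nat.zero_add]
    cases b with
    | zero =>
      rw [resp_pz, resp_qz, one_mul, zero_mul, Nat.add_zero]
      exact ⟨le_rfl, (resp_nonneg g S R hg hS hR M a).2⟩
    | succ b =>
      rw [resp_p0, resp_q0, if_neg (Nat.succ_ne_zero b), zero_mul]
      exact resp_nonneg g S R hg hS hR M _
  | succ N ih =>
    cases b with
    | zero =>
      rw [resp_pz, resp_qz, one_mul, zero_mul, Nat.add_zero]
      refine ⟨?_, (resp_nonneg g S R hg hS hR _ a).2⟩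
      have h1 : Monotone fun N => (resp g S R N).1 a :=
        monotone_nat_of_le_succ fun N => (resp_mono g S R hg hS hR N a).1
      exact h1 (Nat.le_add_left M (N + 1))
    | succ b =>
      have e1 : N + 1 + M = N + M + 1 := by omega
      rw [e1, ← Nat.add_assoc, resp_ps, resp_ps, resp_qs, resp_qs]
      have h1 := (ih (b + 1)).1
      have h2 := (ih (b + 1)).2
      have h3 := (ih (b + 1 + 1)).2
      have h4 := (ih b).1
      rw [← Nat.add_assoc] at h1 h2 h3
      rw [← Nat.add_assoc] at h3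
      constructor
      · calc (2 * g * S * (resp g S R N).1 (b + 1) +
              g * ((resp g S R N).2 (b + 1) + (resp g S R N).2 (b + 1 + 1))) * (resp g S R M).1 a
            = 2 * g * S * ((resp g S R N).1 (b + 1) * (resp g S R M).1 a) +
              g * ((resp g S R N).2 (b + 1) * (resp g S R M).1 a +
                (resp g S R N).2 (b + 1 + 1) * (resp g S R M).1 a) := by ring
          _ ≤ _ := by gcongr
      · calc (2 * g * S * (resp g S R N).2 (b + 1) +
              g * R * ((resp g S R N).1 (b + 1) + (resp g S R N).1 b)) * (resp g S R M).1 a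
            = 2 * g * S * ((resp g S R N).2 (b + 1) * (resp g S R M).1 a) +
              g * R * ((resp g S R N).1 (b + 1) * (resp g S R M).1 a +
                (resp g S R N).1 b * (resp g S R M).1 a) := by ring
          _ ≤ _ := by gcongr

theorem resp_lim (g S R : ℝ) (hg : 0 < g) (hS : 0 ≤ S) (hR : 0 < R) (h2 : 2 * g * S < 1)
    (h4 : g ^ 2 * R / (1 - 2 * g * S) ^ 2 < 1 / 4) :
    Filter.Tendsto (fun N => (resp g S R N).1 1) Filter.atTop
      (nhds (mh (g ^ 2 * R / (1 - 2 * g * S) ^ 2))) := by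
  obtain ⟨E, hE⟩ : ∃ E, E = 1 - 2 * g * S := ⟨_, rfl⟩
  rw [← hE] at h4 ⊢
  have hE0 : 0 < E := by rw [hE]; linarith
  obtain ⟨k, hk⟩ : ∃ k, k = g ^ 2 * R / E ^ 2 := ⟨_, rfl⟩
  rw [← hk] at h4 ⊢
  have hk0 : 0 < k := by rw [hk]; positivity
  have hkE : k * E ^ 2 = g ^ 2 * R := by
    rw [hk]
    field_simp
  obtain ⟨hx0, hx1, hx⟩ := mh_prop k hk0 h4
  obtain ⟨x, hxd⟩ : ∃ x, x = mh k := ⟨_, rfl⟩
  rw [← hxd] at hx0 hx1 hx ⊢
  obtain ⟨c, hc⟩ : ∃ c, c = g * R / E := ⟨_, rfl⟩
  have hcE : c * E = g * R := by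
    rw [hc]
    field_simp
  have hc0 : 0 < c := by rw [hc]; positivity
  have hgS : 0 ≤ 2 * g * S := by positivity
  have hgc : g * c * (1 + x) ^ 2 = E * x := by
    have h5 : E * (g * c * (1 + x) ^ 2) = E * (E * x) := by
      calc E * (g * c * (1 + x) ^ 2) = g * (c * E) * (1 + x) ^ 2 := by ring
        _ = (k * E ^ 2) * (1 + x) ^ 2 := by rw [hcE, hkE]; ring
        _ = E ^ 2 * (k * (1 + x) ^ 2) := by ring
        _ = E * (E * x) := by rw [← hx]; ring
    exact mul_left_cancel₀ hE0.ne' h5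
  have hbd : ∀ N i, (resp g S R N).1 i ≤ x ^ i ∧
      (resp g S R N).2 (i + 1) ≤ c * (x ^ (i + 1) + x ^ i) := by
    intro N
    induction N with
    | zero =>
      intro i
      rw [resp_p0, resp_q0]
      refine ⟨?_, by positivity⟩
      split_ifs with h
      · rw [h, pow_zero]
      · positivity
    | succ N ih =>
      intro i
      have h5 := (ih i).2
      have h6 := (ih (i + 1)).1
      have h7 := (ih i).1
      constructor
      · cases i with
        | zero => rw [resp_pz, pow_zero]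
        | succ i =>
          rw [resp_ps]
          have h8 := (ih i).2
          calc 2 * g * S * (resp g S R N).1 (i + 1) +
                g * ((resp g S R N).2 (i + 1) + (resp g S R N).2 (i + 1 + 1))
              ≤ 2 * g * S * x ^ (i + 1) + g * (c * (x ^ (i + 1) + x ^ i) +
                  c * (x ^ (i + 1 + 1) + x ^ (i + 1))) := by gcongr
            _ = 2 * g * S * x ^ (i + 1) + (g * c * (1 + x) ^ 2) * x ^ i := by ring
            _ = x ^ (i + 1) := by
                rw [hgc, hE]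
                ring
      · rw [resp_qs]
        calc 2 * g * S * (resp g S R N).2 (i + 1) +
              g * R * ((resp g S R N).1 (i + 1) + (resp g S R N).1 i)
            ≤ 2 * g * S * (c * (x ^ (i + 1) + x ^ i)) + g * R * (x ^ (i + 1) + x ^ i) := by
              gcongr
          _ = (2 * g * S * c + c * E) * (x ^ (i + 1) + x ^ i) := by rw [hcE]; ring
          _ = c * (x ^ (i + 1) + x ^ i) := by
              rw [hE]
              ring
  have hpow : ∀ i, x ^ i ≤ 1 := fun i => pow_le_one₀ hx0.le hx1.le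
  -- the limits
  have hP : ∀ i, ∃ P, Filter.Tendsto (fun N => (resp g S R N).1 i) Filter.atTop (nhds P) := by
    intro i
    refine ⟨_, tendsto_atTop_ciSup (monotone_nat_of_le_succ fun N =>
      (resp_mono g S R hg.le hS hR.le N i).1) ⟨1, ?_⟩⟩
    rintro _ ⟨N, rfl⟩
    exact (hbd N i).1.trans (hpow i)
  have hQ : ∀ i, ∃ Q, Filter.Tendsto (fun N => (resp g S R N).2 (i + 1)) Filter.atTop
      (nhds Q) := by
    intro i
    refine ⟨_, tendsto_atTop_ciSup (monotone_nat_of_le_succ fun N =>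
      (resp_mono g S R hg.le hS hR.le N (i + 1)).2) ⟨c * (1 + 1), ?_⟩⟩
    rintro _ ⟨N, rfl⟩
    exact (hbd N i).2.trans (mul_le_mul_of_nonneg_left (add_le_add (hpow _) (hpow _)) hc0.le)
  choose P hP using hP
  choose Q hQ using hQ
  have hP0 : P 0 = 1 := by
    refine tendsto_nhds_unique (hP 0) ?_
    simp only [resp_pz]
    exact tendsto_const_nhds
  have hPle : ∀ i, P i ≤ x ^ i := fun i => le_of_tendsto' (hP i) fun N => (hbd N i).1
  have hPnn : ∀ i, 0 ≤ P i := fun i =>
    ge_of_tendsto' (hP i) fun N => (resp_nonneg g S R hg.le hS hR.le N i).1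
  have hPs : ∀ i, E * P (i + 1) = g * (Q i + Q (i + 1)) := by
    intro i
    have h5 : Filter.Tendsto (fun N => (resp g S R (N + 1)).1 (i + 1)) Filter.atTop
        (nhds (2 * g * S * P (i + 1) + g * (Q i + Q (i + 1)))) := by
      simp only [resp_ps]
      exact ((hP (i + 1)).const_mul _).add (((hQ i).add (hQ (i + 1))).const_mul _)
    have h6 := tendsto_nhds_unique h5 ((hP (i + 1)).comp (Filter.tendsto_add_atTop_nat 1))
    rw [hE]
    linarith
  have hQs : ∀ i, E * Q i = g * R * (P (i + 1) + P i) := by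
    intro i
    have h5 : Filter.Tendsto (fun N => (resp g S R (N + 1)).2 (i + 1)) Filter.atTop
        (nhds (2 * g * S * Q i + g * R * (P (i + 1) + P i))) := by
      simp only [resp_qs]
      exact ((hQ i).const_mul _).add (((hP (i + 1)).add (hP i)).const_mul _)
    have h6 := tendsto_nhds_unique h5 ((hQ i).comp (Filter.tendsto_add_atTop_nat 1))
    rw [hE]
    linarith
  have hrec : ∀ i, P (i + 1) = k * (P (i + 2) + 2 * P (i + 1) + P i) := by
    intro i
    have h5 : E ^ 2 * P (i + 1) = E ^ 2 * (k * (P (i + 2) + 2 * P (i + 1) + P i)) := by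
      calc E ^ 2 * P (i + 1) = E * (E * P (i + 1)) := by ring
        _ = g * (E * Q i + E * Q (i + 1)) := by rw [hPs]; ring
        _ = (g ^ 2 * R) * (P (i + 2) + 2 * P (i + 1) + P i) := by
            rw [hQs, hQs]
            ring
        _ = _ := by rw [← hkE]; ring
    exact mul_left_cancel₀ (by positivity) h5
  obtain ⟨v, hv⟩ : ∃ v : ℕ → ℝ, ∀ i, v i = x ^ i - P i := ⟨_, fun _ => rfl⟩
  have hv0 : ∀ i, 0 ≤ v i := fun i => by
    rw [hv]
    linarith [hPle i]
  have hv1 : ∀ i, v i ≤ 1 := fun i => by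
    rw [hv]
    linarith [hPnn i, hpow i]
  have hvr : ∀ i, v (i + 1) - v i ≤ v (i + 2) - v (i + 1) := by
    intro i
    have h5 : v (i + 1) = k * (v (i + 2) + 2 * v (i + 1) + v i) := by
      have h6 : x ^ (i + 1) = k * (x ^ (i + 2) + 2 * x ^ (i + 1) + x ^ i) := by
        calc x ^ (i + 1) = x ^ i * x := by ring
          _ = x ^ i * (k * (1 + x) ^ 2) := by rw [← hx]
          _ = _ := by ring
      rw [hv, hv, hv]
      linarith [hrec i]
    have h6 := hv0 (i + 1)
    have h7 : k * (2 * v (i + 1)) ≤ k * (v (i + 2) + v i) := by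
      nlinarith
    have h8 := le_of_mul_le_mul_left h7 hk0
    linarith
  have hvd : ∀ i, v 1 ≤ v (i + 1) - v i := by
    intro i
    induction i with
    | zero =>
      have h5 : v 0 = 0 := by rw [hv, hP0, pow_zero, sub_self]
      rw [h5, zero_add, sub_zero]
    | succ i ih => exact ih.trans (hvr i)
  have hvn : ∀ n : ℕ, (n : ℝ) * v 1 ≤ v n := by
    intro n
    induction n with
    | zero => rw [Nat.cast_zero, zero_mul]; exact hv0 0
    | succ n ih =>
      push_cast
      linarith [hvd n]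
  have hv10 : v 1 = 0 := by
    refine le_antisymm ?_ (hv0 1)
    by_contra hcon
    rw [not_le] at hcon
    obtain ⟨n, hn⟩ := exists_nat_gt (1 / v 1)
    rw [div_lt_iff₀ hcon] at hn
    linarith [hvn n, hv1 n]
  have h5 : P 1 = x := by
    rw [hv, pow_one] at hv10
    linarith
  rw [← h5]
  exact hP 1

theorem resp_pow (g S R : ℝ) (hg : 0 ≤ g) (hS : 0 ≤ S) (hR : 0 ≤ R) (N i : ℕ) :
    (resp g S R N).1 1 ^ i ≤ (resp g S R (N * i)).1 i := by
  induction i with
  | zero => rw [pow_zero, Nat.mul_zero, resp_pz]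
  | succ i ih =>
    have h1 := (resp_super g S R hg hS hR N (N * i) i 1).1
    have h2 := (resp_nonneg g S R hg hS hR N 1).1
    have e1 : N * (i + 1) = N + N * i := by ring
    rw [e1, pow_succ]
    calc (resp g S R N).1 1 ^ i * (resp g S R N).1 1
        ≤ (resp g S R (N * i)).1 i * (resp g S R N).1 1 := by gcongr
      _ = (resp g S R N).1 1 * (resp g S R (N * i)).1 i := mul_comm _ _
      _ ≤ _ := h1

end HG39
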