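import Pool.Agent.H39.HG.Defs
import Pool.Agent.H39.HG.TSets
import Pool.Agent.H39.HG.TResp

/-!
[H39 HG TDEEP]  (MP_bcc40c_pr)  Trees of large exact height with one deep branch.

For fixed `k`: `(deep k N i).1`: trees of weight 0 and height exactly `k + 1 + i`; `(deep k N i).2`: trees
of weight -1 and height exactly `k + 1 + i` (empty for `i = 0`):
 deep k 0 0 = ({Ft (k+1)}, ∅), deep k 0 i = (∅, ∅) for i ≥ 1; deep k (N+1) 0 = ({Ft (k+1)}, ∅);
 (deep k (N+1) i).1 = {nd a b | a ∈ E_i, b ∈ L} ∪ {nd b a | b ∈ L, a ∈ E_i} ∪ {nd a u | a ∈ D_i} ∪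
   {nd u a | a ∈ D_{i+1}},
 (deep k (N+1) i).2 = {nd t a | t ∈ L, a ∈ D_i} ∪ {nd a t | a ∈ D_i, t ∈ L} ∪ {nd a t | a ∈ E_i, t ∈ D} ∪
   {nd t a | t ∈ D, a ∈ E_{i-1}}          (i ≥ 1)
with `E_i = (deep k N i).1`, `D_i = (deep k N i).2`, `(L, D) = LD k`.
PROOFS.  deep_prop: induction on `N`; with `j = k + 1 + i`, all trees of `L`, `D` have height `≤ k < j`:
`nd a b`: `max j (ht b - 0) = j`; `nd b a`: `max (ht b) (j - 0) = j`; `nd a u`, `a ∈ D_i`:
`max j (0 + 1) = j`; `nd u a`, `a ∈ D_{i+1}`: `max 0 (j + 1 - 1) = j`; `nd t a` (`t ∈ L`): `max (ht t) j = j`;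
`nd a t` (`a ∈ D_i`, `t ∈ L`): `max j (ht t + 1) = j` (`ht t + 1 ≤ k + 1 ≤ j`); `nd a t` (`a ∈ E_i`, `t ∈ D`):
`max j (ht t) = j`; `nd t a` (`t ∈ D`, `a ∈ E_{i-1}`): `max (ht t) (j - 1 + 1) = j`.  Weights clear.
Size: `≤ N (B + 1) + 2 (k + 1) + 1` if all trees of `LD k` have size `≤ B`.
deep_sum: the unions are disjoint: weight of the left child (0: E or L; -1; 1) and its height (`> k` for the
deep branch, `≤ k` for `L`, `D`); `nd` injective; so GF satisfies the recursion of `resp` with `S = GF g L`,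
`R = GF g D`, multiplied by the constant `g^(2 (k+1) + 1)`.
-/

set_option autoImplicit false

namespace HG39

open Equiv

variable {D : Type} [Fintype D] [DecidableEq D]

/-- trees with a deep branch -/
noncomputable def deep (k : ℕ) : ℕ → ℕ → Finset Tr × Finset Tr
  | 0, i => (if i = 0 then {Ft (k + 1)} else ∅, ∅)
  | N + 1, i =>
    if i = 0 then ({Ft (k + 1)}, ∅) else
    (((deep k N i).1 ×ˢ (LD k).1).image (fun p => Tr.nd p.1 p.2) ∪
      ((LD k).1 ×ˢ (deep k N i).1).image (fun p => Tr.nd p.1 p.2) ∪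
      (deep k N i).2.image (fun a => Tr.nd a .u) ∪
      (deep k N (i + 1)).2.image (fun a => Tr.nd .u a),
     ((LD k).1 ×ˢ (deep k N i).2).image (fun p => Tr.nd p.1 p.2) ∪
      ((deep k N i).2 ×ˢ (LD k).1).image (fun p => Tr.nd p.1 p.2) ∪
      ((deep k N i).1 ×ˢ (LD k).2).image (fun p => Tr.nd p.1 p.2) ∪
      ((LD k).2 ×ˢ (deep k N (i - 1)).1).image (fun p => Tr.nd p.1 p.2))

theorem deep_prop (k N i : ℕ) :
    (∀ τ ∈ (deep k N i).1, τ.ok ∧ τ.wt = 0 ∧ τ.ht = (k : ℤ) + 1 + i) ∧
    (∀ τ ∈ (deep k N i).2, τ.ok ∧ τ.wt = -1 ∧ τ.ht = (k : ℤ) + 1 + i) := by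
  obtain ⟨hL, hD⟩ := LD_prop k
  have hF : ∀ τ ∈ ({Ft (k + 1)} : Finset Tr), τ.ok ∧ τ.wt = 0 ∧ τ.ht = (k : ℤ) + 1 + (0 : ℕ) := by
    intro τ hτ
    rw [Finset.mem_singleton] at hτ
    subst hτ
    obtain ⟨h1, h2, h3, -⟩ := Ft_prop (k + 1)
    refine ⟨h1, h2, ?_⟩
    rw [h3]
    push_cast
    ring
  induction N generalizing i with
  | zero =>
    simp only [deep]
    constructor
    · intro τ hτ
      by_cases hi : i = 0
      · subst hi
        rw [if_pos rfl] at hτ
        exact hF τ hτ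
      · rw [if_neg hi] at hτ
        exact absurd hτ (Finset.notMem_empty τ)
    · intro τ hτ
      exact absurd hτ (Finset.notMem_empty τ)
  | succ N ih =>
    by_cases hi : i = 0
    · subst hi
      simp only [deep, if_pos]
      constructor
      · exact hF
      · intro τ hτ
        exact absurd hτ (Finset.notMem_empty τ)
    · simp only [deep, if_neg hi]
      obtain ⟨hE, hDi⟩ := ih i
      obtain ⟨-, hD1⟩ := ih (i + 1)
      obtain ⟨hE1, -⟩ := ih (i - 1)
      constructor
      · intro τ hτ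
        simp only [Finset.mem_union, Finset.mem_image, Finset.mem_product, Prod.exists] at hτ
        rcases hτ with ((⟨a, b, ⟨ha, hb⟩, rfl⟩ | ⟨a, b, ⟨ha, hb⟩, rfl⟩) | ⟨a, ha, rfl⟩) |
          ⟨a, ha, rfl⟩
        · obtain ⟨a1, a2, a3⟩ := hE a ha
          obtain ⟨b1, b2, b3, b4⟩ := hL b hb
          refine ⟨⟨a1, b1, Or.inl (by omega)⟩, ?_, ?_⟩
          · simp only [Tr.wt]; omega
          · simp only [Tr.ht]; omega
        · obtain ⟨a1, a2, a3, a4⟩ := hL a ha
          obtain ⟨b1, b2, b3⟩ := hE b hb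
          refine ⟨⟨a1, b1, Or.inl (by omega)⟩, ?_, ?_⟩
          · simp only [Tr.wt]; omega
          · simp only [Tr.ht]; omega
        · obtain ⟨a1, a2, a3⟩ := hDi a ha
          refine ⟨⟨a1, trivial, Or.inl (by simp only [Tr.wt]; omega)⟩, ?_, ?_⟩
          · simp only [Tr.wt]; omega
          · simp only [Tr.ht]; omega
        · obtain ⟨a1, a2, a3⟩ := hD1 a ha
          refine ⟨⟨trivial, a1, Or.inl (by simp only [Tr.wt]; omega)⟩, ?_, ?_⟩
          · simp only [Tr.wt]; omega
          · simp only [Tr.ht, Tr.wt]; push_cast at a3; omega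
      · intro τ hτ
        simp only [Finset.mem_union, Finset.mem_image, Finset.mem_product, Prod.exists] at hτ
        rcases hτ with ((⟨a, b, ⟨ha, hb⟩, rfl⟩ | ⟨a, b, ⟨ha, hb⟩, rfl⟩) |
          ⟨a, b, ⟨ha, hb⟩, rfl⟩) | ⟨a, b, ⟨ha, hb⟩, rfl⟩
        · obtain ⟨a1, a2, a3, a4⟩ := hL a ha
          obtain ⟨b1, b2, b3⟩ := hDi b hb
          refine ⟨⟨a1, b1, Or.inr (by omega)⟩, ?_, ?_⟩
          · simp only [Tr.wt]; omega
          · simp only [Tr.ht]; omega
        · obtain ⟨a1, a2, a3⟩ := hDi a ha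
          obtain ⟨b1, b2, b3, b4⟩ := hL b hb
          refine ⟨⟨a1, b1, Or.inr (by omega)⟩, ?_, ?_⟩
          · simp only [Tr.wt]; omega
          · simp only [Tr.ht]; omega
        · obtain ⟨a1, a2, a3⟩ := hE a ha
          obtain ⟨b1, b2, b3, b4⟩ := hD b hb
          refine ⟨⟨a1, b1, Or.inr (by omega)⟩, ?_, ?_⟩
          · simp only [Tr.wt]; omega
          · simp only [Tr.ht]; omega
        · obtain ⟨a1, a2, a3, a4⟩ := hD a ha
          obtain ⟨b1, b2, b3⟩ := hE1 b hb
          refine ⟨⟨a1, b1, Or.inr (by omega)⟩, ?_, ?_⟩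
          · simp only [Tr.wt]; omega
          · simp only [Tr.ht]; omega

theorem deep_size (k B : ℕ) (hB : ∀ τ, τ ∈ (LD k).1 ∨ τ ∈ (LD k).2 → τ.sz ≤ B) (N i : ℕ) :
    ∀ τ, τ ∈ (deep k N i).1 ∨ τ ∈ (deep k N i).2 → τ.sz ≤ N * (B + 1) + (2 * k + 3) := by
  have hF : (Ft (k + 1)).sz = 2 * k + 3 := by
    rw [(Ft_prop (k + 1)).2.2.2]
    ring
  induction N generalizing i with
  | zero =>
    intro τ hτ
    simp only [deep] at hτ
    by_cases hi : i = 0
    · subst hi
      simp only [if_pos, Finset.mem_singleton, Finset.notMem_empty, or_false] at hτ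
      rw [hτ, hF]
      omega
    · simp only [if_neg hi, Finset.notMem_empty, or_false] at hτ
  | succ N ih =>
    intro τ hτ
    have hN : (N + 1) * (B + 1) = N * (B + 1) + (B + 1) := by ring
    rw [hN]
    by_cases hi : i = 0
    · subst hi
      simp only [deep, if_pos, Finset.mem_singleton, Finset.notMem_empty, or_false] at hτ
      rw [hτ, hF]
      omega
    · simp only [deep, if_neg hi, Finset.mem_union, Finset.mem_image, Finset.mem_product,
        Prod.exists] at hτ
      have h1 := ih i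
      have h2 := ih (i + 1)
      have h3 := ih (i - 1)
      rcases hτ with (((⟨a, b, ⟨ha, hb⟩, rfl⟩ | ⟨a, b, ⟨ha, hb⟩, rfl⟩) | ⟨a, ha, rfl⟩) |
          ⟨a, ha, rfl⟩) | (((⟨a, b, ⟨ha, hb⟩, rfl⟩ | ⟨a, b, ⟨ha, hb⟩, rfl⟩) |
          ⟨a, b, ⟨ha, hb⟩, rfl⟩) | ⟨a, b, ⟨ha, hb⟩, rfl⟩)
      · have e1 := h1 a (Or.inl ha)
        have e2 := hB b (Or.inl hb)
        simp only [Tr.sz]
        omega
      · have e1 := h1 b (Or.inl hb)
        have e2 := hB a (Or.inl ha)
        simp only [Tr.sz]
        omega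
      · have e1 := h1 a (Or.inr ha)
        simp only [Tr.sz]
        omega
      · have e1 := h2 a (Or.inr ha)
        simp only [Tr.sz]
        omega
      · have e1 := h1 b (Or.inr hb)
        have e2 := hB a (Or.inl ha)
        simp only [Tr.sz]
        omega
      · have e1 := h1 a (Or.inr ha)
        have e2 := hB b (Or.inl hb)
        simp only [Tr.sz]
        omega
      · have e1 := h1 a (Or.inl ha)
        have e2 := hB b (Or.inr hb)
        simp only [Tr.sz]
        omega
      · have e1 := h3 b (Or.inl hb)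
        have e2 := hB a (Or.inr ha)
        simp only [Tr.sz]
        omega

private theorem tdeep_prod (g : ℝ) (X Y : Finset Tr) :
    GF g ((X ×ˢ Y).image (fun p => Tr.nd p.1 p.2)) = g * GF g X * GF g Y := by
  unfold GF
  rw [Finset.sum_image]
  · rw [Finset.sum_product, mul_assoc, Finset.sum_mul_sum, Finset.mul_sum]
    refine Finset.sum_congr rfl (fun a _ => ?_)
    rw [Finset.mul_sum]
    refine Finset.sum_congr rfl (fun b _ => ?_)
    simp only [Tr.sz, pow_add, pow_one]
    ring
  · rintro ⟨a, b⟩ _ ⟨a', b'⟩ _ h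
    simp only [Tr.nd.injEq] at h
    rw [h.1, h.2]

private theorem tdeep_r (g : ℝ) (X : Finset Tr) :
    GF g (X.image (fun a => Tr.nd a .u)) = g * GF g X := by
  unfold GF
  rw [Finset.sum_image]
  · rw [Finset.mul_sum]
    refine Finset.sum_congr rfl (fun a _ => ?_)
    simp only [Tr.sz, pow_add, pow_one]
    ring
  · intro a _ b _ h
    simp only [Tr.nd.injEq] at h
    exact h.1

private theorem tdeep_l (g : ℝ) (X : Finset Tr) :
    GF g (X.image (fun a => Tr.nd .u a)) = g * GF g X := by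
  unfold GF
  rw [Finset.sum_image]
  · rw [Finset.mul_sum]
    refine Finset.sum_congr rfl (fun a _ => ?_)
    simp only [Tr.sz, pow_add, pow_one]
    ring
  · intro a _ b _ h
    simp only [Tr.nd.injEq] at h
    exact h.2

private theorem tdeep_union (g : ℝ) {X Y : Finset Tr} (h : ∀ τ ∈ X, τ ∉ Y) :
    GF g (X ∪ Y) = GF g X + GF g Y :=
  Finset.sum_union (Finset.disjoint_left.2 h)

theorem deep_sum (g : ℝ) (k N i : ℕ) :
    GF g (deep k N i).1 =
      g ^ (2 * k + 3) * (resp g (GF g (LD k).1) (GF g (LD k).2) N).1 i ∧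
    GF g (deep k N i).2 =
      g ^ (2 * k + 3) * (resp g (GF g (LD k).1) (GF g (LD k).2) N).2 i := by
  have hF : GF g {Ft (k + 1)} = g ^ (2 * k + 3) := by
    unfold GF
    rw [Finset.sum_singleton, (Ft_prop (k + 1)).2.2.2]
    congr 1
  have hE : GF g ∅ = 0 := by
    unfold GF
    rw [Finset.sum_empty]
  obtain ⟨hL, hD⟩ := LD_prop k
  induction N generalizing i with
  | zero =>
    simp only [deep, resp]
    by_cases hi : i = 0
    · subst hi
      simp [hF, hE]
    · simp [hi, hE]
  | succ N ih =>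
    by_cases hi : i = 0
    · subst hi
      simp [deep, resp, hF, hE]
    · simp only [deep, resp, if_neg hi]
      obtain ⟨hEi, hDi⟩ := deep_prop k N i
      obtain ⟨-, hD1⟩ := deep_prop k N (i + 1)
      obtain ⟨hE1, -⟩ := deep_prop k N (i - 1)
      constructor
      · rw [tdeep_union, tdeep_union, tdeep_union, tdeep_prod, tdeep_prod, tdeep_r, tdeep_l,
          (ih i).1, (ih i).2, (ih (i + 1)).2]
        · ring
        · intro τ hτ hτ'
          simp only [Finset.mem_image, Finset.mem_product, Prod.exists] at hτ hτ'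
          obtain ⟨a, b, ⟨ha, hb⟩, rfl⟩ := hτ
          obtain ⟨a', b', ⟨ha', hb'⟩, h⟩ := hτ'
          simp only [Tr.nd.injEq] at h
          obtain ⟨rfl, rfl⟩ := h
          have e1 := (hEi _ ha).2.2
          have e2 := (hL _ ha').2.2.1
          omega
        · intro τ hτ hτ'
          simp only [Finset.mem_union, Finset.mem_image, Finset.mem_product, Prod.exists] at hτ hτ'
          obtain ⟨a', ha', rfl⟩ := hτ'
          rcases hτ with ⟨a, b, ⟨ha, hb⟩, h⟩ | ⟨a, b, ⟨ha, hb⟩, h⟩
          · simp only [Tr.nd.injEq] at h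
            obtain ⟨rfl, rfl⟩ := h
            have e1 := (hL _ hb).2.1
            simp only [Tr.wt] at e1
            omega
          · simp only [Tr.nd.injEq] at h
            obtain ⟨rfl, rfl⟩ := h
            have e1 := (hEi _ hb).2.1
            simp only [Tr.wt] at e1
            omega
        · intro τ hτ hτ'
          simp only [Finset.mem_union, Finset.mem_image, Finset.mem_product, Prod.exists] at hτ hτ'
          obtain ⟨a', ha', rfl⟩ := hτ'
          rcases hτ with (⟨a, b, ⟨ha, hb⟩, h⟩ | ⟨a, b, ⟨ha, hb⟩, h⟩) | ⟨a, ha, h⟩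
          · simp only [Tr.nd.injEq] at h
            obtain ⟨rfl, rfl⟩ := h
            have e1 := (hEi _ ha).2.1
            simp only [Tr.wt] at e1
            omega
          · simp only [Tr.nd.injEq] at h
            obtain ⟨rfl, rfl⟩ := h
            have e1 := (hL _ ha).2.1
            simp only [Tr.wt] at e1
            omega
          · simp only [Tr.nd.injEq] at h
            obtain ⟨rfl, rfl⟩ := h
            have e1 := (hDi _ ha).2.1
            simp only [Tr.wt] at e1
            omega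
      · rw [tdeep_union, tdeep_union, tdeep_union, tdeep_prod, tdeep_prod, tdeep_prod, tdeep_prod,
          (ih i).1, (ih i).2, (ih (i - 1)).1]
        · ring
        · intro τ hτ hτ'
          simp only [Finset.mem_image, Finset.mem_product, Prod.exists] at hτ hτ'
          obtain ⟨a, b, ⟨ha, hb⟩, rfl⟩ := hτ
          obtain ⟨a', b', ⟨ha', hb'⟩, h⟩ := hτ'
          simp only [Tr.nd.injEq] at h
          obtain ⟨rfl, rfl⟩ := h
          have e1 := (hL _ ha).2.1
          have e2 := (hDi _ ha').2.1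
          omega
        · intro τ hτ hτ'
          simp only [Finset.mem_union, Finset.mem_image, Finset.mem_product, Prod.exists] at hτ hτ'
          obtain ⟨a', b', ⟨ha', hb'⟩, rfl⟩ := hτ'
          have e3 := hEi _ ha'
          rcases hτ with ⟨a, b, ⟨ha, hb⟩, h⟩ | ⟨a, b, ⟨ha, hb⟩, h⟩
          · simp only [Tr.nd.injEq] at h
            obtain ⟨rfl, rfl⟩ := h
            have e1 := (hL _ ha).2.2.1
            omega
          · simp only [Tr.nd.injEq] at h
            obtain ⟨rfl, rfl⟩ := h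
            have e1 := (hDi _ ha).2.1
            omega
        · intro τ hτ hτ'
          simp only [Finset.mem_union, Finset.mem_image, Finset.mem_product, Prod.exists] at hτ hτ'
          obtain ⟨a', b', ⟨ha', hb'⟩, rfl⟩ := hτ'
          have e3 := hD _ ha'
          rcases hτ with (⟨a, b, ⟨ha, hb⟩, h⟩ | ⟨a, b, ⟨ha, hb⟩, h⟩) | ⟨a, b, ⟨ha, hb⟩, h⟩
          · simp only [Tr.nd.injEq] at h
            obtain ⟨rfl, rfl⟩ := h
            have e1 := (hL _ ha).2.1
            omega
          · simp only [Tr.nd.injEq] at h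
            obtain ⟨rfl, rfl⟩ := h
            have e1 := (hDi _ ha).2.2
            omega
          · simp only [Tr.nd.injEq] at h
            obtain ⟨rfl, rfl⟩ := h
            have e1 := (hEi _ ha).2.1
            omega

end HG39
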