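import Pool.Agent.H39.HG.Defs
import Pool.Agent.H39.HG.TSets
import Pool.Agent.H39.HG.TLim
import Pool.Agent.H39.HG.TResp
import Pool.Agent.H39.HG.TDeep

/-!
[H39 HG TENUM]  (MP_bcc40c_pr)  Enumeration: many admissible trees of height `r - 1`.

PROOF.  Let `g = sqrt (lam h)`, `0 < g < 1`.  By lim_SR, mh_tendsto: `mh hk → mh h > μ`, choose `k ≥ 2` with
`mh hk > μ` (`hk > 0`: `GF g (LD k).2 ≥ 1` for `k ≥ 1` from LD_sum; `hk ≤ h < 1/4`).  resp_lim: choose `N ≥ 1`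
with `(resp .. N).1 1 ≥ μ`.  Let `B` bound the sizes of `LD k` (finite).  For `r ≥ k + 2` put `i = r - 1 - (k+1)`,
`X = (deep k (N i) i).1`: trees of weight 0, height `k + 1 + i = r - 1`, size `≤ N i (B+1) + 2k + 3`, and
`GF g X = g^(2k+3) (resp .. (N i)).1 i ≥ g^(2k+3) μ^i` (deep_sum, resp_pow) `≥ g^(2k+3) μ^r` (`μ < mh h < 1`).
For `1 ≤ r < k + 2` take `X = {Ft (r - 1)}`: size `2 (r-1) + 1 ≤ 2k+3`, `GF g X = g^(2r-1) ≥ g^(2k+3) ≥
g^(2k+3) μ^r`.  So in all cases sizes `≤ C' r` with `C' = N (B+1) + 2k + 3`.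
Split `X` by size: sizes are odd (tr_par), `sz T + 3 = 2K`, `2 ≤ K ≤ (C' r + 3)/2 ≤ C r` with `C = C' + 3`.
`GF g X = ∑_K #X_K g^(2K-3)`; some `K` has `#X_K g^(2K-3) ≥ GF g X / (C r)`; `g^(2K-3) = lam^K / g^3 ≤ ..`:
`lam^K #X_K = g^3 g^(2K-3) #X_K ≥ g^3 GF g X / (C r) ≥ g^(2k+6) μ^r / (C r)`.  `c = g^(2k+6)`.
-/

set_option autoImplicit false

namespace HG39

open Equiv

variable {D : Type} [Fintype D] [DecidableEq D]

private theorem tenum_main (h : ℝ) (h0 : 0 < h) (h1 : h < 1 / 4) (μ : ℝ) (hμ : 0 < μ)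
    (hm : μ < mh h) (g : ℝ) (hg : g = Real.sqrt (lam h)) :
    ∃ k C' : ℕ, ∀ r : ℕ, 1 ≤ r → ∃ X : Finset Tr,
      (∀ T ∈ X, T.ok ∧ T.wt = 0 ∧ T.ht = (r : ℤ) - 1 ∧ T.sz ≤ C' * r) ∧
      g ^ (2 * k + 3) * μ ^ r ≤ GF g X := by
  have hlam := lam_pos h h0
  have hlam1 := lam_lt h h0 h1
  have hg0 : 0 < g := by
    rw [hg]
    exact Real.sqrt_pos.2 hlam
  have hg1 : g ≤ 1 := by
    rw [hg, Real.sqrt_le_one]
    exact hlam1.le
  obtain ⟨hmp, hm1, -⟩ := mh_prop h h0 h1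
  have hμ1 : μ ≤ 1 := (hm.trans hm1).le
  have hSR := lim_SR h h0 h1
  simp only [← hg] at hSR
  obtain ⟨hk, hlim⟩ := hSR
  have hmt := mh_tendsto h h0 h1 _ hlim
  have hev := (hmt.eventually (lt_mem_nhds hm)).and (Filter.eventually_ge_atTop 1)
  obtain ⟨k, hkμ, hk1⟩ := hev.exists
  obtain ⟨hS0, hR0, hgS, hgR⟩ := hk k
  have hR1 : 0 < GF g (LD k).2 := by
    obtain ⟨k', rfl⟩ : ∃ k', k = k' + 1 := ⟨k - 1, by omega⟩
    rw [(LD_sum g k').2]
    have e1 := (hk k').1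
    have e2 := (hk k').2.1
    have : 0 ≤ 2 * g * GF g (LD k').1 * GF g (LD k').2 := by positivity
    linarith
  have hpos : 0 < (1 - 2 * g * GF g (LD k).1) ^ 2 := by
    have : 0 < 1 - 2 * g * GF g (LD k).1 := by linarith
    positivity
  have hk4 : g ^ 2 * GF g (LD k).2 / (1 - 2 * g * GF g (LD k).1) ^ 2 < 1 / 4 := by
    refine lt_of_le_of_lt ?_ h1
    rw [div_le_iff₀ hpos]
    exact hgR
  have hrl := resp_lim g (GF g (LD k).1) (GF g (LD k).2) hg0 hS0 hR1 hgS hk4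
  obtain ⟨N, hN⟩ := (hrl.eventually (lt_mem_nhds hkμ)).exists
  obtain ⟨B, hB⟩ : ∃ B : ℕ, ∀ τ, τ ∈ (LD k).1 ∨ τ ∈ (LD k).2 → τ.sz ≤ B := by
    refine ⟨((LD k).1 ∪ (LD k).2).sup Tr.sz, fun τ hτ => ?_⟩
    exact Finset.le_sup (f := Tr.sz) (Finset.mem_union.2 hτ)
  refine ⟨k, N * (B + 1) + (2 * k + 3), fun r hr => ?_⟩
  by_cases hrk : r ≤ k + 1
  · obtain ⟨f1, f2, f3, f4⟩ := Ft_prop (r - 1)
    refine ⟨{Ft (r - 1)}, ?_, ?_⟩
    · intro T hT
      rw [Finset.mem_singleton] at hT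
      subst hT
      refine ⟨f1, f2, ?_, ?_⟩
      · rw [f3]
        omega
      · rw [f4]
        have e1 : 2 * (r - 1) + 1 ≤ 2 * k + 3 := by omega
        have e2 : 2 * k + 3 ≤ (N * (B + 1) + (2 * k + 3)) * r := by
          calc 2 * k + 3 ≤ N * (B + 1) + (2 * k + 3) := Nat.le_add_left _ _
            _ = (N * (B + 1) + (2 * k + 3)) * 1 := (mul_one _).symm
            _ ≤ _ := Nat.mul_le_mul_left _ hr
        omega
    · unfold GF
      rw [Finset.sum_singleton, f4]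
      have e1 : g ^ (2 * k + 3) ≤ g ^ (2 * (r - 1) + 1) :=
        pow_le_pow_of_le_one hg0.le hg1 (by omega)
      have e2 : μ ^ r ≤ 1 := pow_le_one₀ hμ.le hμ1
      have e3 : 0 ≤ g ^ (2 * k + 3) := by positivity
      calc g ^ (2 * k + 3) * μ ^ r ≤ g ^ (2 * k + 3) * 1 := by gcongr
        _ ≤ g ^ (2 * (r - 1) + 1) := by rw [mul_one]; exact e1
  · obtain ⟨i, hi⟩ : ∃ i, r = k + 2 + i := ⟨r - (k + 2), by omega⟩
    have hdp := (deep_prop k (N * i) i).1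
    have hds := deep_size k B hB (N * i) i
    have hsum := (deep_sum g k (N * i) i).1
    refine ⟨(deep k (N * i) i).1, ?_, ?_⟩
    · intro T hT
      obtain ⟨d1, d2, d3⟩ := hdp T hT
      refine ⟨d1, d2, ?_, ?_⟩
      · rw [d3, hi]
        push_cast
        ring
      · have e1 := hds T (Or.inl hT)
        have e2 : N * i * (B + 1) + (2 * k + 3) ≤ (N * (B + 1) + (2 * k + 3)) * r := by
          rw [hi]
          nlinarith [Nat.zero_le (N * (B + 1) * (k + 2)), Nat.zero_le ((2 * k + 3) * i),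
            Nat.zero_le ((2 * k + 3) * (k + 1))]
        omega
    · rw [hsum]
      have e1 := resp_pow g (GF g (LD k).1) (GF g (LD k).2) hg0.le hS0 hR0 N i
      have e2 : μ ^ i ≤ (resp g (GF g (LD k).1) (GF g (LD k).2) N).1 1 ^ i :=
        pow_le_pow_left₀ hμ.le hN.le i
      have e3 : μ ^ r ≤ μ ^ i := pow_le_pow_of_le_one hμ.le hμ1 (by omega)
      have e4 : 0 ≤ g ^ (2 * k + 3) := by positivity
      exact mul_le_mul_of_nonneg_left (e3.trans (e2.trans e1)) e4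

theorem enum (h : ℝ) (h0 : 0 < h) (h1 : h < 1 / 4) (μ : ℝ) (hμ : 0 < μ) (hm : μ < mh h) :
    ∃ c : ℝ, 0 < c ∧ ∃ C : ℕ, 1 ≤ C ∧ ∀ r : ℕ, 1 ≤ r → ∃ K : ℕ, 2 ≤ K ∧ K ≤ C * r ∧
      ∃ F : Finset Tr, (∀ T ∈ F, Adm r K T) ∧
        c * μ ^ r ≤ (C * r : ℝ) * F.card * lam h ^ K := by
  classical
  have hlam := lam_pos h h0
  obtain ⟨k, C', hmain⟩ := tenum_main h h0 h1 μ hμ hm (Real.sqrt (lam h)) rfl
  set g := Real.sqrt (lam h) with hg
  have hg0 : 0 < g := Real.sqrt_pos.2 hlam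
  have hg2 : g ^ 2 = lam h := Real.sq_sqrt hlam.le
  refine ⟨g ^ (2 * k + 6), by positivity, C' + 3, by omega, fun r hr => ?_⟩
  obtain ⟨X, hX, hGF⟩ := hmain r hr
  set J : Finset ℕ := Finset.Icc 2 ((C' + 3) * r) with hJ
  have hodd : ∀ T ∈ X, T.sz + 3 = 2 * ((T.sz + 3) / 2) := by
    intro T hT
    obtain ⟨m, hm⟩ := (tr_par T (hX T hT).1).1 (hX T hT).2.1
    omega
  have hmaps : ∀ T ∈ X, (T.sz + 3) / 2 ∈ J := by
    intro T hT
    obtain ⟨m, hm⟩ := (tr_par T (hX T hT).1).1 (hX T hT).2.1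
    have e1 := (hX T hT).2.2.2
    rw [hJ, Finset.mem_Icc]
    have e2 : (C' + 3) * r = C' * r + 3 * r := by ring
    rw [e2]
    omega
  set fK : ℕ → ℝ := fun K => ∑ T ∈ X.filter (fun T => (T.sz + 3) / 2 = K), g ^ T.sz with hfK
  have hsum : ∑ K ∈ J, fK K = GF g X := Finset.sum_fiberwise_of_maps_to hmaps _
  have hG0 : 0 < GF g X := lt_of_lt_of_le (by positivity) hGF
  have hrr : (1 : ℝ) ≤ r := by exact_mod_cast hr
  have hCr : (0 : ℝ) < ((C' + 3 : ℕ) : ℝ) * r := by positivity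
  obtain ⟨K, hKJ, hK⟩ : ∃ K ∈ J, GF g X ≤ ((C' + 3 : ℕ) : ℝ) * r * fK K := by
    by_contra hcon
    push Not at hcon
    have hJne : J.Nonempty := by
      refine ⟨2, ?_⟩
      rw [hJ, Finset.mem_Icc]
      refine ⟨le_rfl, ?_⟩
      calc 2 ≤ 3 * 1 := by norm_num
        _ ≤ (C' + 3) * r := Nat.mul_le_mul (by omega) hr
    have e1 : ∑ K ∈ J, ((C' + 3 : ℕ) : ℝ) * r * fK K < ∑ K ∈ J, GF g X :=
      Finset.sum_lt_sum_of_nonempty hJne hcon
    rw [← Finset.mul_sum, hsum, Finset.sum_const, nsmul_eq_mul] at e1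
    have e2 : (J.card : ℝ) ≤ ((C' + 3 : ℕ) : ℝ) * r := by
      have : J.card ≤ (C' + 3) * r := by
        rw [hJ, Nat.card_Icc]
        omega
      exact_mod_cast this
    have e3 := mul_le_mul_of_nonneg_right e2 hG0.le
    linarith
  rw [hJ, Finset.mem_Icc] at hKJ
  refine ⟨K, hKJ.1, hKJ.2, X.filter (fun T => (T.sz + 3) / 2 = K), ?_, ?_⟩
  · intro T hT
    rw [Finset.mem_filter] at hT
    obtain ⟨x1, x2, x3, -⟩ := hX T hT.1
    refine ⟨x1, x2, x3, ?_⟩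
    have := hodd T hT.1
    rw [hT.2] at this
    exact this
  · have e1 : ∀ T ∈ X.filter (fun T => (T.sz + 3) / 2 = K), g ^ 3 * g ^ T.sz = lam h ^ K := by
      intro T hT
      rw [Finset.mem_filter] at hT
      have e2 := hodd T hT.1
      rw [hT.2] at e2
      rw [← pow_add, ← hg2, ← pow_mul]
      congr 1
      omega
    have e3 : g ^ 3 * fK K = (X.filter (fun T => (T.sz + 3) / 2 = K)).card * lam h ^ K := by
      rw [hfK]
      simp only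
      rw [Finset.mul_sum, Finset.sum_congr rfl e1, Finset.sum_const, nsmul_eq_mul]
    rw [mul_assoc _ ((X.filter (fun T => (T.sz + 3) / 2 = K)).card : ℝ), ← e3]
    have e4 : g ^ 3 * (g ^ (2 * k + 3) * μ ^ r) ≤ g ^ 3 * (((C' + 3 : ℕ) : ℝ) * r * fK K) :=
      mul_le_mul_of_nonneg_left (hGF.trans hK) (by positivity)
    calc g ^ (2 * k + 6) * μ ^ r = g ^ 3 * (g ^ (2 * k + 3) * μ ^ r) := by
          rw [← mul_assoc, ← pow_add]
          congr 2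
          ring
      _ ≤ g ^ 3 * (((C' + 3 : ℕ) : ℝ) * r * fK K) := e4
      _ = ((C' + 3 : ℕ) : ℝ) * r * (g ^ 3 * fK K) := by ring

end HG39
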