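import Pool.Agent.H39.HG.Defs

/-!
Configurations with a marked leaf triangle, and the growth of a tentacle (MP_bcc40c_pr; definitions
only).
-/

set_option autoImplicit false

namespace HG39

open Equiv

variable {D : Type} [Fintype D] [DecidableEq D]

/-- configurations: a partial triangulation with `2 j` free triangles and a marked leaf triangle -/
def Yc (f : Perm D) (v j M : ℕ) (B : Set (Perm D)) : Set (Perm D × List D × D) :=
  {c | PT f c.1 c.2.1 ∧ c.2.1.length = 2 * j ∧ cyc (f * c.1) = v + j ∧ M ≤ lfc f c.1 ∧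
    Leaf f c.1 c.2.2 ∧ ∃ α0 ∈ B, {d | c.1 d ≠ α0 d}.ncard ≤ 8 * j}

/-- the pairs glued when a tentacle is grown at the leaf triangle `w` -/
def tenPairs (f : Perm D) (w : D) (bs : List D) (T : Tr) : List (D × D) :=
  let g := grow f (.nd .d T) (f w) bs
  let s := scan (g.2.1 ++ [(f (f w), true)]) []
  g.1 ++ s.1 ++ s.2.1.reverse.zip s.2.2.reverse

/-- growth of a tentacle at the leaf triangle `w` -/
def tenS (f α : Perm D) (w : D) (bs : List D) (T : Tr) : Perm D :=
  glue α ((f w, f (f w)) :: tenPairs f w bs T)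

/-- number of ordered pairs of leaf triangles whose bases are at distance at most `q` -/
noncomputable def Cq (f α : Perm D) (q : ℕ) : ℕ :=
  Nat.card {p : D × D // Leaf f α p.1 ∧ Leaf f α p.2 ∧ dst f α p.1 p.2 ≤ q}

end HG39
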