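import Pool.Agent.H39.HG.Defs
import Pool.Agent.H39.HG.YDef

/-!
Admissible quadruples for the double exchange (MP_bcc40c_pr; definitions only).
-/

set_option autoImplicit false

namespace HG39

open Equiv

variable {D : Type} [Fintype D] [DecidableEq D]

/-- `P` is the set of darts of a tentacle (with type in `F`) at the base `w` -/
def TenP (f α : Perm D) (r : ℕ) (F : Finset Tr) (w : D) (P : Set D) : Prop :=
  ∃ T ∈ F, ∃ (ℓ : D → ℤ) (bs : List D) (lv : List (D × Bool)) (pr : List (D × D))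
    (As Bs : List D), Ten f α ℓ r w T bs lv pr As Bs ∧ P = {d | d ∈ tri f (w :: bs)}

/-- `w1, w2`: bases of tentacles, `u1, u2`: leaf triangles outside of these tentacles -/
def Ad (f α : Perm D) (r : ℕ) (F : Finset Tr) (w1 w2 u1 u2 : D) : Prop :=
  Leaf f α u1 ∧ Leaf f α u2 ∧ w1 ≠ w2 ∧ u1 ≠ u2 ∧
  (∃ P1 P2 : Set D, TenP f α r F w1 P1 ∧ TenP f α r F w2 P2 ∧ u1 ∉ P1 ∧ u1 ∉ P2 ∧ u2 ∉ P1 ∧
    u2 ∉ P2) ∧
  α u1 ≠ w1 ∧ α u1 ≠ w2 ∧ α u2 ≠ w1 ∧ α u2 ≠ w2 ∧ α u1 ≠ u2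

/-- triangulations with at least two tentacles, all of them close together -/
def Bad (f : Perm D) (v r M q : ℕ) (F : Finset Tr) : Set (Perm D) :=
  {α | α ∈ TS f v ∧ M ≤ lfc f α ∧ 2 ≤ (TB f α r F).ncard ∧
    ∀ w ∈ TB f α r F, ∀ w' ∈ TB f α r F, w ≠ w' → dst f α w w' ≤ q}

/-- triangulations with at least `M` leaf triangles -/
def TM (f : Perm D) (v M : ℕ) : Set (Perm D) := {α | α ∈ TS f v ∧ M ≤ lfc f α}

/-- double exchange -/
def xch2 (α : Perm D) (w1 w2 u1 u2 : D) : Perm D := xch (xch α w1 u1) w2 u2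

end HG39
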