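import Pool.Agent.H39.HG.Defs
import Pool.Agent.H39.HG.GrPerm
import Pool.Agent.H39.HG.LabBasic
import Pool.Agent.H39.HG.SlcBasic
import Pool.Agent.H39.HG.TenLoop
import Pool.Agent.H39.HG.TenMult

/-!
[H39 HG TENDISJ]  (MP_bcc40c_pr)  Tentacles with different bases are disjoint; local changes of `α` change the
number of tentacle bases by at most the number of changed darts.

ten_disj: `P = tri f (w :: bs)`, `P' = tri f (w' :: bs')`, both with `6 K - 3` darts (ten_size).  Suppose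
`P ∩ P' ≠ ∅`, `w ≠ w'`.  If `P ⊆ P'` then `P = P'` (same size), and `w' ∈ P`, `w' ≠ w`, so `α w' ∈ P = P'`
(ten_closed), contradicting `out`.  So `P ⊄ P'` and `P' ⊄ P`.  Apply slc_conn for the first slice to
`Q d := d ∈ P'`: it holds somewhere on `P` but not everywhere, and is closed under `f`, so there is
`d ∈ P ∩ P'` with `α d ∈ P`, `α d ∉ P'`; by ten_closed (second tentacle) `d = w'`.  So `w' ∈ P`, `α w' ∈ P`.
Symmetric: `w ∈ P'`, `α w ∈ P'`.  Then `P ∪ P'` is closed under `f` and `α` (`α d` for `d ∈ P`, `d ≠ w` is in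
`P`; `α w ∈ P'`; etc.), so it is everything (`PT.con`; there are no legs), `card D ≤ 12 K - 6`, contradiction.
ten_local: let `w ∈ TB f α' r F` but `w ∉ TB f α r F`, with dart set `P` (for `α'`).  Then `α' d ≠ α d` for some
`d ∈ P` (otherwise ten_alpha: `α w = α' w ∉ P`).  Choose such a `d`; the map `w ↦ d` is injective by ten_disj
(for `α'`).  So `#(TB α' \ TB α) ≤ #{d | α' d ≠ α d}`.
-/

set_option autoImplicit false

namespace HG39

open Equiv

variable {D : Type} [Fintype D] [DecidableEq D]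

private theorem td_half {f α : Perm D} {ℓ ℓ' : D → ℤ} (hf : TF f) (hα : PT f α []) {r K : ℕ}
    {w w' : D} {T T' : Tr} {bs bs' : List D} {lv lv' : List (D × Bool)}
    {pr pr' : List (D × D)} {As Bs As' Bs' : List D} (hT : Adm r K T) (hT' : Adm r K T')
    (h : Ten f α ℓ r w T bs lv pr As Bs)
    (h' : Ten f α ℓ' r w' T' bs' lv' pr' As' Bs') (hw : w ≠ w') (d0 : D)
    (hd : d0 ∈ tri f (w :: bs)) (hd' : d0 ∈ tri f (w' :: bs')) :
    w' ∈ tri f (w :: bs) ∧ α w' ∈ tri f (w :: bs) := by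
  obtain ⟨s1, s2, s3⟩ := ten_size hf hT h
  obtain ⟨s1', s2', s3'⟩ := ten_size hf hT' h'
  have hw' : w' ∈ tri f (w' :: bs') := by
    rw [slcb_tri]
    simp
  have hnot : ¬ ∀ d ∈ tri f (w :: bs), d ∈ tri f (w' :: bs') := by
    intro hsub
    have hp : (tri f (w :: bs)).Perm (tri f (w' :: bs')) :=
      (List.Nodup.subperm s2 hsub).perm_of_length_le (by omega)
    have h1 : w' ∈ tri f (w :: bs) := hp.mem_iff.2 hw'
    have h2 := (ten_closed hf hα h w' h1 hw.symm).1
    exact h'.out (hp.mem_iff.1 h2)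
  by_contra hc
  apply hnot
  refine slc_conn hf h.slc (fun d => d ∈ tri f (w' :: bs')) (fun d _ hq => ?_)
    (fun d hdP hq ha => ?_) ⟨d0, hd, hd'⟩
  · exact (tri_closed hf _ d).2 hq
  · by_cases h1 : d = w'
    · exact absurd ⟨h1 ▸ hdP, h1 ▸ ha⟩ hc
    · exact (ten_closed hf hα h' d hq h1).1

theorem ten_disj {f α : Perm D} {ℓ ℓ' : D → ℤ} (hf : TF f) (hα : PT f α []) {r K : ℕ}
    {w w' : D} {T T' : Tr} {bs bs' : List D} {lv lv' : List (D × Bool)}
    {pr pr' : List (D × D)} {As Bs As' Bs' : List D} (hT : Adm r K T) (hT' : Adm r K T')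
    (hN : 12 * K < Fintype.card D) (h : Ten f α ℓ r w T bs lv pr As Bs)
    (h' : Ten f α ℓ' r w' T' bs' lv' pr' As' Bs') (hw : w ≠ w') :
    ∀ d ∈ tri f (w :: bs), d ∉ tri f (w' :: bs') := by
  intro d0 hd hd'
  obtain ⟨s1, s2, s3⟩ := ten_size hf hT h
  obtain ⟨s1', s2', s3'⟩ := ten_size hf hT' h'
  obtain ⟨a1, a2⟩ := td_half hf hα hT hT' h h' hw d0 hd hd'
  obtain ⟨b1, b2⟩ := td_half hf hα hT' hT h' h hw.symm d0 hd' hd
  have hleg : ∀ d, α d ≠ d := fun d hd1 => by
    have := (hα.leg d).1 hd1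
    simp [tri] at this
  have hall : ∀ d, d ∈ tri f (w :: bs) ∨ d ∈ tri f (w' :: bs') := by
    intro d
    refine hα.con (fun d => d ∈ tri f (w :: bs) ∨ d ∈ tri f (w' :: bs'))
      ⟨d0, hleg d0, Or.inl hd⟩ (fun d hq => ?_) (fun d hq => ?_) d (hleg d)
    · rcases hq with hq | hq
      · exact Or.inl ((tri_closed hf _ d).2 hq)
      · exact Or.inr ((tri_closed hf _ d).2 hq)
    · rcases hq with hq | hq
      · by_cases h1 : d = w
        · rw [h1]
          exact Or.inr b2
        · exact Or.inl (ten_closed hf hα h d hq h1).1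
      · by_cases h1 : d = w'
        · rw [h1]
          exact Or.inl a2
        · exact Or.inr (ten_closed hf hα h' d hq h1).1
  have hcard : Fintype.card D ≤ (tri f (w :: bs) ++ tri f (w' :: bs')).length := by
    refine le_trans ?_ (List.toFinset_card_le _)
    rw [← Finset.card_univ]
    refine Finset.card_le_card fun d _ => ?_
    rw [List.mem_toFinset, List.mem_append]
    exact hall d
  rw [List.length_append] at hcard
  omega

theorem ten_local {f α α' : Perm D} (hf : TF f) (hα : PT f α []) (hα' : PT f α' []) {r K : ℕ}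
    (hN : 12 * K < Fintype.card D) (F : Finset Tr) (hF : ∀ T ∈ F, Adm r K T) :
    (TB f α' r F).ncard ≤ (TB f α r F).ncard + {d | α' d ≠ α d}.ncard := by
  have h1 : (TB f α' r F \ TB f α r F).ncard ≤ {d | α' d ≠ α d}.ncard := by
    have key : ∀ w ∈ TB f α' r F \ TB f α r F, ∃ d, α' d ≠ α d ∧ ∃ T ∈ F, ∃ (ℓ : D → ℤ)
        (bs : List D) (lv : List (D × Bool)) (pr : List (D × D)) (As Bs : List D),
        Ten f α' ℓ r w T bs lv pr As Bs ∧ d ∈ tri f (w :: bs) := by
      rintro w ⟨⟨T, hT, ℓ, bs, lv, pr, As, Bs, h⟩, hn⟩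
      by_contra hc
      have hsame : ∀ d ∈ tri f (w :: bs), α' d = α d := by
        intro d hd
        by_contra h2
        exact hc ⟨d, h2, T, hT, ℓ, bs, lv, pr, As, Bs, h, hd⟩
      have hw : w ∈ tri f (w :: bs) := by
        rw [slcb_tri]
        simp
      refine hn ⟨T, hT, ℓ, bs, lv, pr, As, Bs,
        ten_alpha hf h (fun d hd _ => (hsame d hd).symm) ?_⟩
      rw [← hsame w hw]
      exact h.out
    choose! g hg using key
    refine Set.ncard_le_ncard_of_injOn g (fun w hw => (hg w hw).1) ?_ (Set.toFinite _)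
    intro w1 hw1 w2 hw2 heq
    by_contra hne
    obtain ⟨_, T1, hT1, ℓ1, bs1, lv1, pr1, As1, Bs1, t1, m1⟩ := hg w1 hw1
    obtain ⟨_, T2, hT2, ℓ2, bs2, lv2, pr2, As2, Bs2, t2, m2⟩ := hg w2 hw2
    rw [heq] at m1
    exact ten_disj hf hα' (hF T1 hT1) (hF T2 hT2) hN t1 t2 hne _ m1 m2
  have h2 : TB f α' r F ⊆ TB f α r F ∪ (TB f α' r F \ TB f α r F) := fun w hw => by
    by_cases h3 : w ∈ TB f α r F
    · exact Or.inl h3
    · exact Or.inr ⟨hw, h3⟩
  refine (Set.ncard_le_ncard h2 (Set.toFinite _)).trans ((Set.ncard_union_le _ _).trans ?_)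
  omega

end HG39
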