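import Pool.Agent.H39.HG.Defs
import Pool.Agent.H39.HG.YDef
import Pool.Agent.H39.HG.AdDef
import Pool.Agent.H39.HG.GrPerm
import Pool.Agent.H39.HG.LabBasic
import Pool.Agent.H39.HG.SlcBasic
import Pool.Agent.H39.HG.GraphA
import Pool.Agent.H39.HG.TenLoop
import Pool.Agent.H39.HG.TenMult
import Pool.Agent.H39.HG.TenDisj

/-!
[H39 HG ADCOUNT]  (MP_bcc40c_pr)  Number of admissible far pairs of leaf triangles.

PROOF.  Fix tentacles (with darts `P1`, `P2`) at `w1`, `w2`.  All ordered pairs `(u1, u2)` of leaf triangles: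
`L^2`, `L = lfc f α`.  Excluded are: pairs at distance `≤ q`: `Cq f α q` of them (this includes `u1 = u2`,
distance 0); pairs with `u1 ∈ P1 ∪ P2` or `u2 ∈ P1 ∪ P2`: at most `2 * (12 K - 6) * L` (ten_size); pairs with
`α u_i ∈ {w1, w2}`: at most `2 * 2 * L`; pairs with `α u1 = u2`: at most `L`.  Sum of the last three:
`(24 K - 12 + 4 + 1) L ≤ 24 K L`.  The others are admissible and far.
cq_le: the pair `(u, u')` of leaf triangles is mapped to the pair `(f (f u), f (f u'))` of vertices of degree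
one: `f (f u)` is a fixed point of `f * α`, so it is its own representative (`rep`), `dst (f (f u)) u ≤ 1`
(dst_f, `f (f (f u)) = u`), so the distance is at most `q + 2`; injective.  Sum over `α ∈ TM`: the triples
`(α, u, u')` inject into the union of the `Pr f v r M`, `r ≤ q + 2`.
-/

set_option autoImplicit false

namespace HG39

open Equiv

variable {D : Type} [Fintype D] [DecidableEq D]

private theorem adc_rep {f α : Perm D} (hα : ∀ d, α (α d) = d) {u : D} (hu : Leaf f α u) :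
    rep f α (f (f u)) = f (f u) := by
  have hfix : (f * α) (f (f u)) = f (f u) := by
    have h1 : α (f (f u)) = f u := by
      have h2 : α (f u) = f (f u) := hu
      rw [← h2, hα]
    rw [Equiv.Perm.mul_apply, h1]
  have h3 : (f * α).SameCycle (rep f α (f (f u))) (f (f u)) := by
    unfold rep
    exact Quotient.exact
      (Quotient.out_eq (Quotient.mk (Equiv.Perm.SameCycle.setoid (f * α)) (f (f u))))
  obtain ⟨i, hi⟩ := h3.symm
  have h4 : ((f * α) ^ i) (f (f u)) = f (f u) :=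
    Function.IsFixedPt.perm_zpow (e := f * α) hfix i
  exact hi.symm.trans h4

private theorem adc_dst {f α : Perm D} (hf : TF f) (hα : PT f α []) (u u' : D) :
    dst f α (f (f u)) (f (f u')) ≤ dst f α u u' + 2 := by
  have h1 : ∀ x, dst f α (f (f x)) x ≤ 1 := by
    intro x
    have h2 := dst_f hf hα (f (f x)) (f (f x))
    rw [hf.three, dst_self f α _ _ (Equiv.Perm.SameCycle.refl _ _)] at h2
    exact h2
  have h3 := dst_tri hf hα (f (f u)) u (f (f u'))
  have h4 := dst_tri hf hα u u' (f (f u'))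
  have h5 := h1 u
  have h6 := h1 u'
  rw [dst_comm] at h6
  omega

theorem ad_count {f α : Perm D} (hf : TF f) (hα : PT f α []) {r K q : ℕ}
    (hN : 12 * K < Fintype.card D) (F : Finset Tr) (hF : ∀ T ∈ F, Adm r K T)
    {w1 w2 : D} (h1 : w1 ∈ TB f α r F) (h2 : w2 ∈ TB f α r F) (hw : w1 ≠ w2) :
    (lfc f α : ℝ) ^ 2 - 24 * K * (lfc f α : ℝ) - Cq f α q ≤
      (Nat.card {p : D × D // Ad f α r F w1 w2 p.1 p.2 ∧ q < dst f α p.1 p.2} : ℝ) := by
  classical
  obtain ⟨T1, hT1, ℓ1, bs1, lv1, pr1, As1, Bs1, t1⟩ := h1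
  obtain ⟨T2, hT2, ℓ2, bs2, lv2, pr2, As2, Bs2, t2⟩ := h2
  obtain ⟨hs1, -, hK⟩ := ten_size hf (hF T1 hT1) t1
  obtain ⟨hs2, -, -⟩ := ten_size hf (hF T2 hT2) t2
  obtain ⟨LF, hLF⟩ : ∃ LF : Finset D, ∀ u, u ∈ LF ↔ Leaf f α u :=
    ⟨Finset.univ.filter (fun u => Leaf f α u), by simp⟩
  have hL : lfc f α = LF.card := by
    unfold lfc
    rw [Nat.card_eq_fintype_card, Fintype.card_subtype]
    congr 1
    ext u
    simp [hLF]
  obtain ⟨G, hG⟩ : ∃ G : Finset (D × D), ∀ p, p ∈ G ↔
      Ad f α r F w1 w2 p.1 p.2 ∧ q < dst f α p.1 p.2 :=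
    ⟨Finset.univ.filter (fun p => Ad f α r F w1 w2 p.1 p.2 ∧ q < dst f α p.1 p.2), by simp⟩
  have hGc : Nat.card {p : D × D // Ad f α r F w1 w2 p.1 p.2 ∧ q < dst f α p.1 p.2} =
      G.card := by
    rw [Nat.card_eq_fintype_card, Fintype.card_subtype]
    congr 1
    ext p
    simp [hG]
  obtain ⟨Q, hQ⟩ : ∃ Q : Finset (D × D), ∀ p, p ∈ Q ↔
      Leaf f α p.1 ∧ Leaf f α p.2 ∧ dst f α p.1 p.2 ≤ q :=
    ⟨Finset.univ.filter (fun p => Leaf f α p.1 ∧ Leaf f α p.2 ∧ dst f α p.1 p.2 ≤ q), by simp⟩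
  have hQc : Cq f α q = Q.card := by
    unfold Cq
    rw [Nat.card_eq_fintype_card, Fintype.card_subtype]
    congr 1
    ext p
    simp [hQ]
  obtain ⟨P, hP⟩ : ∃ P : Finset D, P = (tri f (w1 :: bs1)).toFinset ∪
      (tri f (w2 :: bs2)).toFinset := ⟨_, rfl⟩
  have hPc : P.card + 6 ≤ 12 * K := by
    have e1 := Finset.card_union_le (tri f (w1 :: bs1)).toFinset (tri f (w2 :: bs2)).toFinset
    have e2 := List.toFinset_card_le (tri f (w1 :: bs1))
    have e3 := List.toFinset_card_le (tri f (w2 :: bs2))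
    rw [← hP] at e1
    omega
  obtain ⟨W, hW⟩ : ∃ W : Finset D, W = {α w1, α w2} := ⟨_, rfl⟩
  have hWc : W.card ≤ 2 := by
    rw [hW]
    exact Finset.card_le_two
  have hmemW : ∀ x, α x = w1 ∨ α x = w2 → x ∈ W := by
    intro x hx
    rw [hW, Finset.mem_insert, Finset.mem_singleton]
    rcases hx with hx | hx
    · left
      rw [← hx, hα.inv]
    · right
      rw [← hx, hα.inv]
  have hsub : LF ×ˢ LF ⊆ G ∪ (Q ∪ ((P ×ˢ LF) ∪ ((LF ×ˢ P) ∪ ((W ×ˢ LF) ∪ ((LF ×ˢ W) ∪
      LF.image (fun u => (u, α u))))))) := by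
    rintro ⟨u1, u2⟩ hp
    rw [Finset.mem_product] at hp
    obtain ⟨hu1, hu2⟩ := hp
    dsimp only at hu1 hu2
    by_cases c1 : dst f α u1 u2 ≤ q
    · rw [Finset.mem_union, Finset.mem_union]
      exact Or.inr (Or.inl ((hQ _).2 ⟨(hLF _).1 hu1, (hLF _).1 hu2, c1⟩))
    by_cases c2 : u1 ∈ P
    · simp only [Finset.mem_union, Finset.mem_product]
      exact Or.inr (Or.inr (Or.inl ⟨c2, hu2⟩))
    by_cases c3 : u2 ∈ P
    · simp only [Finset.mem_union, Finset.mem_product]
      exact Or.inr (Or.inr (Or.inr (Or.inl ⟨hu1, c3⟩)))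
    by_cases c4 : u1 ∈ W
    · simp only [Finset.mem_union, Finset.mem_product]
      exact Or.inr (Or.inr (Or.inr (Or.inr (Or.inl ⟨c4, hu2⟩))))
    by_cases c5 : u2 ∈ W
    · simp only [Finset.mem_union, Finset.mem_product]
      exact Or.inr (Or.inr (Or.inr (Or.inr (Or.inr (Or.inl ⟨hu1, c5⟩)))))
    by_cases c6 : α u1 = u2
    · simp only [Finset.mem_union, Finset.mem_product, Finset.mem_image]
      exact Or.inr (Or.inr (Or.inr (Or.inr (Or.inr (Or.inr ⟨u1, hu1, by rw [c6]⟩)))))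
    · rw [Finset.mem_union]
      left
      rw [hG]
      have hP1 : ∀ x, x ∉ P → x ∉ tri f (w1 :: bs1) ∧ x ∉ tri f (w2 :: bs2) := by
        intro x hx
        rw [hP, Finset.mem_union, List.mem_toFinset, List.mem_toFinset, not_or] at hx
        exact hx
      refine ⟨⟨(hLF _).1 hu1, (hLF _).1 hu2, hw, ?_, ⟨{d | d ∈ tri f (w1 :: bs1)},
        {d | d ∈ tri f (w2 :: bs2)},
        ⟨T1, hT1, ℓ1, bs1, lv1, pr1, As1, Bs1, t1, rfl⟩,
        ⟨T2, hT2, ℓ2, bs2, lv2, pr2, As2, Bs2, t2, rfl⟩,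
        (hP1 _ c2).1, (hP1 _ c2).2, (hP1 _ c3).1, (hP1 _ c3).2⟩,
        fun hc => c4 (hmemW _ (Or.inl hc)), fun hc => c4 (hmemW _ (Or.inr hc)),
        fun hc => c5 (hmemW _ (Or.inl hc)), fun hc => c5 (hmemW _ (Or.inr hc)), c6⟩,
        not_le.1 c1⟩
      intro hc
      apply c1
      dsimp only at hc
      rw [hc, dst_self f α _ _ (Equiv.Perm.SameCycle.refl _ _)]
      exact Nat.zero_le _
  have hcard := Finset.card_le_card hsub
  rw [Finset.card_product] at hcard
  have hbound : LF.card * LF.card ≤ G.card + (Q.card + (P.card * LF.card + (LF.card * P.card +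
      (W.card * LF.card + (LF.card * W.card + LF.card))))) := by
    refine hcard.trans ?_
    refine (Finset.card_union_le _ _).trans (Nat.add_le_add_left ?_ _)
    refine (Finset.card_union_le _ _).trans (Nat.add_le_add_left ?_ _)
    refine (Finset.card_union_le _ _).trans (Nat.add_le_add (Finset.card_product _ _).le ?_)
    refine (Finset.card_union_le _ _).trans (Nat.add_le_add (Finset.card_product _ _).le ?_)
    refine (Finset.card_union_le _ _).trans (Nat.add_le_add (Finset.card_product _ _).le ?_)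
    refine (Finset.card_union_le _ _).trans (Nat.add_le_add (Finset.card_product _ _).le ?_)
    exact Finset.card_image_le
  rw [hGc, hQc, hL]
  have b1 : (LF.card : ℝ) * LF.card ≤ G.card + (Q.card + (P.card * LF.card +
      (LF.card * P.card + (W.card * LF.card + (LF.card * W.card + LF.card))))) := by
    exact_mod_cast hbound
  have b2 : (P.card : ℝ) + 6 ≤ 12 * K := by exact_mod_cast hPc
  have b3 : (W.card : ℝ) ≤ 2 := by exact_mod_cast hWc
  have b4 : (0 : ℝ) ≤ LF.card := Nat.cast_nonneg _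
  have b5 := mul_le_mul_of_nonneg_right b2 b4
  have b6 := mul_le_mul_of_nonneg_right b3 b4
  nlinarith [b1, b5, b6, b4]

theorem cq_le {f : Perm D} (hf : TF f) (v M q : ℕ) :
    ∑ α ∈ (Set.toFinite (TM f v M)).toFinset, Cq f α q ≤
      ∑ r ∈ Finset.range (q + 3), (Pr f v r M).ncard := by
  classical
  have hfib : ∀ α ∈ (Set.toFinite (TM f v M)).toFinset, Cq f α q ≤
      ∑ r ∈ Finset.range (q + 3),
        ((Finset.univ : Finset (D × D)).filter (fun p => (α, p.1, p.2) ∈ Pr f v r M)).card := by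
    intro α hα
    rw [Set.Finite.mem_toFinset] at hα
    obtain ⟨hTS, hM⟩ := hα
    have hPT : PT f α [] := hTS.1
    refine le_trans ?_ (Finset.card_biUnion_le (s := Finset.range (q + 3))
      (t := fun r => (Finset.univ : Finset (D × D)).filter (fun p => (α, p.1, p.2) ∈ Pr f v r M)))
    have hc : Cq f α q = ((Finset.univ : Finset (D × D)).filter (fun p =>
        Leaf f α p.1 ∧ Leaf f α p.2 ∧ dst f α p.1 p.2 ≤ q)).card := by
      unfold Cq
      rw [Nat.card_eq_fintype_card, Fintype.card_subtype]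
    rw [hc]
    refine Finset.card_le_card_of_injOn (fun p => (f (f p.1), f (f p.2))) ?_ ?_
    · intro p hp
      have hp' : Leaf f α p.1 ∧ Leaf f α p.2 ∧ dst f α p.1 p.2 ≤ q := by
        simpa using hp
      obtain ⟨hp1, hp2, hp3⟩ := hp'
      have h4 := adc_dst hf hPT p.1 p.2
      have h5 : (f (f p.1), f (f p.2)) ∈ (Finset.range (q + 3)).biUnion (fun r =>
          (Finset.univ : Finset (D × D)).filter (fun p => (α, p.1, p.2) ∈ Pr f v r M)) := by
        rw [Finset.mem_biUnion]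
        refine ⟨dst f α (f (f p.1)) (f (f p.2)), Finset.mem_range.2 (by omega), ?_⟩
        rw [Finset.mem_filter]
        exact ⟨Finset.mem_univ _, hTS, hM, adc_rep hPT.inv hp1, adc_rep hPT.inv hp2, rfl⟩
      exact h5
    · intro p _ p' _ hpp
      have h6 := congrArg Prod.fst hpp
      have h7 := congrArg Prod.snd hpp
      exact Prod.ext (f.injective (f.injective h6)) (f.injective (f.injective h7))
  refine (Finset.sum_le_sum hfib).trans ?_
  rw [Finset.sum_comm]
  refine Finset.sum_le_sum fun r _ => ?_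
  rw [← Finset.card_sigma, Set.ncard_eq_toFinset_card']
  refine Finset.card_le_card_of_injOn (fun x => (x.1, x.2.1, x.2.2)) ?_ ?_
  · intro x hx
    have hx' := (Finset.mem_sigma.1 (Finset.mem_coe.1 hx)).2
    rw [Finset.mem_filter] at hx'
    rw [Finset.mem_coe, Set.mem_toFinset]
    exact hx'.2
  · rintro ⟨a, b, c⟩ _ ⟨a', b', c'⟩ _ hxx
    have h6 := congrArg Prod.fst hxx
    have h7 := congrArg Prod.snd hxx
    dsimp only at h6 h7
    have h8 := congrArg Prod.fst h7
    have h9 := congrArg Prod.snd h7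
    dsimp only at h8 h9
    subst h6 h8 h9
    rfl

end HG39
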