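import Pool.Agent.H39.HG.Defs
import Pool.Agent.H39.HG.YDef
import Pool.Agent.H39.HG.GlueVal
import Pool.Agent.H39.HG.GrPerm
import Pool.Agent.H39.HG.LabBasic
import Pool.Agent.H39.HG.EmbBasic
import Pool.Agent.H39.HG.GrowEmb
import Pool.Agent.H39.HG.ScanLev
import Pool.Agent.H39.HG.SlcBasic
import Pool.Agent.H39.HG.InsInj

/-!
[H39 HG TENVAL]  (MP_bcc40c_pr)  Growing a tentacle: values, it is a tentacle, decoding.

Setting: `PT f α bs`, `w` a leaf triangle (`α (f w) = f (f w)`), `T` admissible (`Adm r K T`, `1 ≤ r`),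
`bs.length = T.sz + 1`.  `α' = tenS f α w bs T` (YDef.lean): the pair `{f w, f (f w)}` is cut, `nd d T` is
grown at `f w` with the roots `bs` (pairs `g.1`, leaves `g.2.1`), the parentheses of
`g.2.1 ++ [(f (f w), true)]` are matched (`s.1`), `As[j] <-> Bs[j]` (`As = s.2.1`, `Bs = s.2.2`, both of
length `r`).

PROOFS.  ten_len: as ins_len in InsLen.lean: labels `w ↦ r, f w ↦ r, f (f w) ↦ r - 1`, grow_emb for `nd d T`
(weight -1, height `max 1 (T.ht + 1) = r`), the leaves are read from `r` to `r - 1`, lowest level 0; with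
the additional up step from `r - 1` to `r`: scan_lev with empty stack: `#As = r`, `#Bs = r`.
Entries: `ent (tenPairs) ~ f w :: f (f w) :: tri f bs` (grow_perm, scan_perm, `ent (zip) ~ l ++ l'` for two
lists of the same length).  After the cut all of them are fixed points of
`α1 = α * swap (f w) (f (f w))` (legs; `α (f w) = f (f w)`); glue_pair, glue_notMem, glue_inv.
`f w, f (f w) ∉ tri f bs`: they are non-legs.
ten_ten: labels `ℓ` and embedding of `nd d T` on `f w` from grow_emb; `Slc` as in InsSlc; `cl`: the zip of the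
reversed lists is the reversed zip (same length); `out`: `α' w = α w` is not in `tri f (w :: bs)`: `α w` is a
non-leg, so not in `tri f bs`, and not in the triangle of `w` (`α w ≠ w`; `α w = f w` would give
`w = α (f w) = f (f w)`; `α w = f (f w) = α (f w)` would give `w = f w`).
ten_inj: `bs1 = bs2` by emb_unique (InsInj.lean; same `α'`, `T`, `f w`); `α1 = α2` pointwise: on `tri f bs`
both are the identity, both exchange `f w, f (f w)`, elsewhere both are equal to `α'`.
-/

set_option autoImplicit false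

namespace HG39

open Equiv

variable {D : Type} [Fintype D] [DecidableEq D]

omit [Fintype D] [DecidableEq D] in
private theorem TenVal_mem_ent (l : List (D × D)) (d : D) :
    d ∈ ent l ↔ ∃ p ∈ l, d = p.1 ∨ d = p.2 := by
  simp [ent]

omit [Fintype D] [DecidableEq D] in
private theorem TenVal_ent_cons (p : D × D) (l : List (D × D)) :
    ent (p :: l) = p.1 :: p.2 :: ent l := by
  simp [ent]

omit [Fintype D] [DecidableEq D] in
private theorem TenVal_ne (l : List (D × D)) (hn : (ent l).Nodup) (p : D × D) (hp : p ∈ l) :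
    p.1 ≠ p.2 := by
  induction l with
  | nil => simp at hp
  | cons q l ih =>
    rw [TenVal_ent_cons] at hn
    rcases List.mem_cons.1 hp with rfl | hp
    · intro h
      rw [List.nodup_cons] at hn
      exact hn.1 (by rw [h]; exact List.mem_cons_self)
    · rw [List.nodup_cons, List.nodup_cons] at hn
      exact ih hn.2.2 hp

omit [Fintype D] [DecidableEq D] in
private theorem TenVal_zip (l : List D) : ∀ l' : List D, l.length = l'.length →
    (ent (l.zip l')).Perm (l ++ l') := by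
  induction l with
  | nil =>
    intro l' h
    have : l' = [] := List.length_eq_zero_iff.1 h.symm
    subst this
    simp [ent]
  | cons a l ih =>
    intro l' h
    cases l' with
    | nil => simp at h
    | cons b l' =>
      rw [List.zip_cons_cons, TenVal_ent_cons]
      simp only [List.length_cons, Nat.add_right_cancel_iff] at h
      have h1 := ih l' h
      calc (a :: b :: ent (l.zip l')).Perm (a :: b :: (l ++ l')) := (h1.cons b).cons a
        _ |>.Perm (a :: (l ++ b :: l')) := (List.perm_middle.symm).cons a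

/-- the facts on the tree `nd d T` -/
private theorem TenVal_tree {r K : ℕ} (hr : 1 ≤ r) {T : Tr} (hT : Adm r K T) :
    (Tr.nd .d T).ok ∧ (Tr.nd .d T).wt = -1 ∧ (Tr.nd .d T).ht = r ∧
      (Tr.nd .d T).sz = T.sz + 1 := by
  obtain ⟨h1, h2, h3, _⟩ := hT
  refine ⟨⟨trivial, h1, Or.inr ?_⟩, ?_, ?_, ?_⟩
  · show (-1 : ℤ) + T.wt = -1
    rw [h2]
    rfl
  · show (-1 : ℤ) + T.wt = -1
    rw [h2]
    rfl
  · show max (1 : ℤ) (T.ht - (-1)) = r
    rw [h3, max_eq_right]
    · ring
    · have : (1 : ℤ) ≤ r := by exact_mod_cast hr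
      linarith
  · show 0 + T.sz + 1 = T.sz + 1
    rw [zero_add]

omit [Fintype D] in
private theorem TenVal_dist {f : Perm D} (hf : TF f) (w : D) :
    f w ≠ w ∧ f (f w) ≠ f w ∧ f (f w) ≠ w := by
  refine ⟨hf.nf w, hf.nf (f w), fun h => hf.nf w ?_⟩
  have := hf.three w
  rw [h] at this
  exact this

private theorem TenVal_out {f α : Perm D} (hf : TF f) {bs : List D} (h : PT f α bs) {w : D}
    (hw : Leaf f α w) : w ∉ tri f bs ∧ f w ∉ tri f bs ∧ f (f w) ∉ tri f bs ∧
      α (f (f w)) = f w := by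
  have h0 : α (f w) = f (f w) := hw
  have h1 : f w ∉ tri f bs := by
    intro hc
    have := (h.leg (f w)).2 hc
    rw [h0] at this
    exact (TenVal_dist hf w).2.1 this
  have h2 : f (f w) ∉ tri f bs := fun hc => h1 ((tri_closed hf bs (f w)).1 hc)
  have h3 : w ∉ tri f bs := fun hc => h1 ((tri_closed hf bs w).2 hc)
  exact ⟨h3, h1, h2, by rw [← h0, h.inv]⟩

/-- labels on the grown tree -/
private theorem TenVal_lab {f α : Perm D} (hf : TF f) {bs : List D} (h : PT f α bs) {w : D}
    (hw : Leaf f α w) {r K : ℕ} (hr : 1 ≤ r) {T : Tr} (hT : Adm r K T)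
    (hb : bs.length = T.sz + 1) :
    ∃ ℓ : D → ℤ, ℓ w = r ∧ ℓ (f w) = r ∧ ℓ (f (f w)) = r - 1 ∧
      ∀ α' : Perm D, (∀ p ∈ (grow f (.nd .d T) (f w) bs).1, α' p.1 = p.2 ∧ α' p.2 = p.1) →
        Emb f α' ℓ (.nd .d T) (f w) bs (grow f (.nd .d T) (f w) bs).2.1 := by
  obtain ⟨t1, t2, t3, t4⟩ := TenVal_tree hr hT
  obtain ⟨o1, o2, o3, o4⟩ := TenVal_out hf h hw
  obtain ⟨d1, d2, d3⟩ := TenVal_dist hf w
  have hsz : (Tr.nd .d T).sz = bs.length := by rw [t4, hb]
  obtain ⟨ℓ, h1, h2⟩ := grow_emb hf (.nd .d T) (f w) bs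
    (fun d => if d = f (f w) then (r : ℤ) - 1 else r) t1 hsz.le h.ndp o2 (by
      rw [if_pos rfl, if_neg d2.symm, t2]
      rfl)
  rw [hsz, List.take_length] at h1 h2
  refine ⟨ℓ, ?_, ?_, ?_, h2⟩
  · rw [h1 w o1, if_neg d3.symm]
  · rw [h1 _ o2, if_neg d2.symm]
  · rw [h1 _ o3, if_pos rfl]

private theorem TenVal_growperm {f α : Perm D} (hf : TF f) {bs : List D} (h : PT f α bs) {w : D}
    (hw : Leaf f α w) {T : Tr} (hb : bs.length = T.sz + 1) :
    (ent (grow f (.nd .d T) (f w) bs).1 ++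
      ((grow f (.nd .d T) (f w) bs).2.1).map Prod.fst).Perm (f w :: tri f bs) := by
  have hsz : (Tr.nd .d T).sz = bs.length := by
    show 0 + T.sz + 1 = bs.length
    rw [hb, zero_add]
  have h1 := grow_perm f (.nd .d T) (f w) bs hsz.le
  rw [hsz, List.take_length] at h1
  exact h1

private theorem TenVal_nodup {f α : Perm D} (hf : TF f) {bs : List D} (h : PT f α bs) {w : D}
    (hw : Leaf f α w) : (f w :: f (f w) :: tri f bs).Nodup := by
  obtain ⟨o1, o2, o3, o4⟩ := TenVal_out hf h hw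
  obtain ⟨d1, d2, d3⟩ := TenVal_dist hf w
  rw [List.nodup_cons, List.nodup_cons]
  refine ⟨?_, o3, h.ndp⟩
  rw [List.mem_cons, not_or]
  exact ⟨d2.symm, o2⟩

theorem ten_len {f α : Perm D} (hf : TF f) {bs : List D} (h : PT f α bs) {w : D}
    (hw : Leaf f α w) {r K : ℕ} (hr : 1 ≤ r) {T : Tr} (hT : Adm r K T)
    (hb : bs.length = T.sz + 1) :
    (scan ((grow f (.nd .d T) (f w) bs).2.1 ++ [(f (f w), true)]) []).2.1.length = r ∧
    (scan ((grow f (.nd .d T) (f w) bs).2.1 ++ [(f (f w), true)]) []).2.2.length = r := by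
  obtain ⟨t1, t2, t3, t4⟩ := TenVal_tree hr hT
  obtain ⟨ℓ, l1, l2, l3, hemb⟩ := TenVal_lab hf h hw hr hT hb
  have hr' : (1 : ℤ) ≤ r := by exact_mod_cast hr
  have hnd : (ent (grow f (.nd .d T) (f w) bs).1).Nodup := by
    have h1 := (TenVal_growperm hf h hw hb).nodup_iff.2
      (((List.Perm.swap _ _ _).nodup_iff.1 (TenVal_nodup hf h hw)).of_cons)
    exact (List.nodup_append.1 h1).1
  have hE := hemb (glue 1 (grow f (.nd .d T) (f w) bs).1) (fun p hp =>
    glue_pair 1 _ hnd (fun x _ => rfl) p hp)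
  set lv := (grow f (.nd .d T) (f w) bs).2.1 with hlv
  have hL1 := emb_lvs hf hE
  have hlow := emb_low hf hE
  rw [l2] at hL1 hlow
  rw [l3] at hL1
  rw [t3, sub_self] at hlow
  have hL2 : Lvs f ℓ ((r : ℤ) - 1) [(f (f w), true)] r := by
    refine ⟨l3, ?_, ?_⟩
    · rw [hf.three, l1]
      simp
    · show (r : ℤ) - 1 + (if true = true then 1 else -1) = r
      simp
  have hL := lvs_append f ℓ _ _ _ _ _ hL1 hL2
  have hlow2 : low (r : ℤ) (lv ++ [(f (f w), true)]) = 0 := by
    rw [low_append f ℓ _ _ _ _ hL1, hlow]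
    have h5 : low ((r : ℤ) - 1) [(f (f w), true)] = r - 1 := by
      show min ((r : ℤ) - 1) ((r : ℤ) - 1 + (if true = true then 1 else -1)) = r - 1
      simp
    rw [h5]
    apply min_eq_left
    linarith
  obtain ⟨_, _, _, s4, s5⟩ := scan_lev f ℓ (lv ++ [(f (f w), true)]) [] r r hL trivial
  rw [hlow2] at s5
  simp only [List.length_nil, Nat.cast_zero, sub_zero] at s4 s5
  rw [max_eq_right (by linarith)] at s5
  constructor
  · exact_mod_cast s5
  · have h6 : ((scan (lv ++ [(f (f w), true)]) []).2.2.length : ℤ) = r := by linarith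
    exact_mod_cast h6

/-- the entries of the new pairs -/
private theorem TenVal_ent {f α : Perm D} (hf : TF f) {bs : List D} (h : PT f α bs) {w : D}
    (hw : Leaf f α w) {r K : ℕ} (hr : 1 ≤ r) {T : Tr} (hT : Adm r K T)
    (hb : bs.length = T.sz + 1) :
    (ent (tenPairs f w bs T)).Perm (f w :: f (f w) :: tri f bs) := by
  obtain ⟨e1, e2⟩ := ten_len hf h hw hr hT hb
  have hg := TenVal_growperm hf h hw hb
  have hs := scan_perm ((grow f (.nd .d T) (f w) bs).2.1 ++ [(f (f w), true)]) []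
  have hz := TenVal_zip
    (scan ((grow f (.nd .d T) (f w) bs).2.1 ++ [(f (f w), true)]) []).2.1.reverse
    (scan ((grow f (.nd .d T) (f w) bs).2.1 ++ [(f (f w), true)]) []).2.2.reverse (by
      rw [List.length_reverse, List.length_reverse, e1, e2])
  have he : ent (tenPairs f w bs T) = ent (grow f (.nd .d T) (f w) bs).1 ++
      ent (scan ((grow f (.nd .d T) (f w) bs).2.1 ++ [(f (f w), true)]) []).1 ++
      ent ((scan ((grow f (.nd .d T) (f w) bs).2.1 ++ [(f (f w), true)]) []).2.1.reverse.zip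
        (scan ((grow f (.nd .d T) (f w) bs).2.1 ++ [(f (f w), true)]) []).2.2.reverse) := by
    rw [← ent_append, ← ent_append]
    rfl
  rw [he]
  rw [List.map_append, List.nil_append] at hs
  rw [List.perm_iff_count] at hg hs hz ⊢
  intro a
  have hg' := hg a
  have hs' := hs a
  have hz' := hz a
  simp only [List.count_append, List.count_cons, List.count_reverse, List.map_cons, List.map_nil,
    List.count_nil] at hg' hs' hz' ⊢
  omega

omit [Fintype D] in
private theorem TenVal_swap {f α : Perm D} (hf : TF f) {bs : List D} (h : PT f α bs) {w : D}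
    (d : D) (h1 : d ≠ f w) (h2 : d ≠ f (f w)) :
    (α * swap (f w) (f (f w))) d = α d := by
  rw [Perm.mul_apply, swap_apply_of_ne_of_ne h1 h2]

private theorem TenVal_fix {f α : Perm D} (hf : TF f) {bs : List D} (h : PT f α bs) {w : D}
    (hw : Leaf f α w) : ∀ x ∈ f w :: f (f w) :: tri f bs,
      (α * swap (f w) (f (f w))) x = x := by
  obtain ⟨o1, o2, o3, o4⟩ := TenVal_out hf h hw
  intro x hx
  rcases List.mem_cons.1 hx with rfl | hx
  · rw [Perm.mul_apply, swap_apply_left, o4]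
  · rcases List.mem_cons.1 hx with rfl | hx
    · rw [Perm.mul_apply, swap_apply_right]
      exact hw
    · have h1 : x ≠ f w := fun hc => o2 (hc ▸ hx)
      have h2 : x ≠ f (f w) := fun hc => o3 (hc ▸ hx)
      rw [TenVal_swap hf h x h1 h2]
      exact (h.leg x).2 hx

private theorem TenVal_inv {f α : Perm D} (hf : TF f) {bs : List D} (h : PT f α bs) {w : D}
    (hw : Leaf f α w) (d : D) :
    (α * swap (f w) (f (f w))) ((α * swap (f w) (f (f w))) d) = d := by
  obtain ⟨o1, o2, o3, o4⟩ := TenVal_out hf h hw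
  by_cases h1 : d = f w
  · have := TenVal_fix hf h hw d (by rw [h1]; exact List.mem_cons_self)
    rw [this, this]
  · by_cases h2 : d = f (f w)
    · have := TenVal_fix hf h hw d (by rw [h2]; exact List.mem_cons_of_mem _ List.mem_cons_self)
      rw [this, this]
    · rw [TenVal_swap hf h d h1 h2]
      have h3 : α d ≠ f w := by
        intro hc
        apply h2
        have h4 : α (f w) = f (f w) := hw
        rw [← h4, ← hc, h.inv]
      have h4 : α d ≠ f (f w) := by
        intro hc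
        apply h1
        rw [← o4, ← hc, h.inv]
      rw [TenVal_swap hf h (α d) h3 h4, h.inv]

theorem ten_val {f α : Perm D} (hf : TF f) {bs : List D} (h : PT f α bs) {w : D}
    (hw : Leaf f α w) {r K : ℕ} (hr : 1 ≤ r) {T : Tr} (hT : Adm r K T)
    (hb : bs.length = T.sz + 1) :
    (∀ p ∈ tenPairs f w bs T, tenS f α w bs T p.1 = p.2 ∧ tenS f α w bs T p.2 = p.1) ∧
    (∀ d, d ∉ f w :: f (f w) :: tri f bs → tenS f α w bs T d = α d) ∧
    (∀ d, tenS f α w bs T (tenS f α w bs T d) = d) ∧ (∀ d, tenS f α w bs T d ≠ d) := by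
  have hperm := TenVal_ent hf h hw hr hT hb
  have hnd : (ent (tenPairs f w bs T)).Nodup := hperm.nodup_iff.2 (TenVal_nodup hf h hw)
  have hfix : ∀ x ∈ ent (tenPairs f w bs T), (α * swap (f w) (f (f w))) x = x :=
    fun x hx => TenVal_fix hf h hw x (hperm.mem_iff.1 hx)
  have hten : tenS f α w bs T = glue (α * swap (f w) (f (f w))) (tenPairs f w bs T) := rfl
  have h1 : ∀ p ∈ tenPairs f w bs T, tenS f α w bs T p.1 = p.2 ∧ tenS f α w bs T p.2 = p.1 := by
    intro p hp
    rw [hten]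
    exact glue_pair _ _ hnd hfix p hp
  have h2 : ∀ d, d ∉ f w :: f (f w) :: tri f bs → tenS f α w bs T d = α d := by
    intro d hd
    rw [hten, glue_notMem _ _ _ (fun hc => hd (hperm.mem_iff.1 hc))]
    rw [List.mem_cons, List.mem_cons, not_or, not_or] at hd
    exact TenVal_swap hf h d hd.1 hd.2.1
  refine ⟨h1, h2, ?_, ?_⟩
  · intro d
    rw [hten]
    exact glue_inv _ (TenVal_inv hf h hw) _ hnd hfix d
  · intro d hd
    by_cases hmem : d ∈ ent (tenPairs f w bs T)
    · obtain ⟨p, hp, hdp⟩ := (TenVal_mem_ent _ _).1 hmem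
      have hne := TenVal_ne _ hnd p hp
      rcases hdp with rfl | rfl
      · rw [(h1 p hp).1] at hd
        exact hne hd.symm
      · rw [(h1 p hp).2] at hd
        exact hne hd
    · have hmem' : d ∉ f w :: f (f w) :: tri f bs := fun hc => hmem (hperm.mem_iff.2 hc)
      rw [h2 d hmem'] at hd
      exact hmem' (List.mem_cons_of_mem _ (List.mem_cons_of_mem _ ((h.leg d).1 hd)))

private theorem TenVal_ten {f α : Perm D} (hf : TF f) {bs : List D} (h : PT f α bs) {w : D}
    (hw : Leaf f α w) {r K : ℕ} (hr : 1 ≤ r) {T : Tr} (hT : Adm r K T)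
    (hb : bs.length = T.sz + 1) : ∃ (ℓ : D → ℤ), Ten f (tenS f α w bs T) ℓ r w T bs
      (grow f (.nd .d T) (f w) bs).2.1
      (scan ((grow f (.nd .d T) (f w) bs).2.1 ++ [(f (f w), true)]) []).1
      (scan ((grow f (.nd .d T) (f w) bs).2.1 ++ [(f (f w), true)]) []).2.1
      (scan ((grow f (.nd .d T) (f w) bs).2.1 ++ [(f (f w), true)]) []).2.2 := by
  obtain ⟨o1, o2, o3, o4⟩ := TenVal_out hf h hw
  obtain ⟨d1, d2, d3⟩ := TenVal_dist hf w
  obtain ⟨ℓ, l1, l2, l3, hemb⟩ := TenVal_lab hf h hw hr hT hb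
  obtain ⟨v1, v2, v3, v4⟩ := ten_val hf h hw hr hT hb
  obtain ⟨e1, e2⟩ := ten_len hf h hw hr hT hb
  have htri : tri f (w :: bs) = w :: f w :: f (f w) :: tri f bs := by
    simp [tri]
  have hten : tenPairs f w bs T = (grow f (.nd .d T) (f w) bs).1 ++
      (scan ((grow f (.nd .d T) (f w) bs).2.1 ++ [(f (f w), true)]) []).1 ++
      (scan ((grow f (.nd .d T) (f w) bs).2.1 ++ [(f (f w), true)]) []).2.1.reverse.zip
        (scan ((grow f (.nd .d T) (f w) bs).2.1 ++ [(f (f w), true)]) []).2.2.reverse := rfl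
  refine ⟨ℓ, ⟨⟨hr, hT.1, hT.2.1, hT.2.2.1, ?_, ?_, rfl, ?_, l1, l2⟩, ?_, ?_⟩⟩
  · exact hemb _ fun p hp => v1 p (by
      rw [hten]
      exact List.mem_append_left _ (List.mem_append_left _ hp))
  · rw [htri, List.nodup_cons]
    refine ⟨?_, TenVal_nodup hf h hw⟩
    rw [List.mem_cons, List.mem_cons, not_or, not_or]
    exact ⟨d1.symm, d3.symm, o1⟩
  · exact fun p hp => v1 p (by
      rw [hten]
      exact List.mem_append_left _ (List.mem_append_right _ hp))
  · intro p hp
    apply v1 p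
    rw [hten]
    apply List.mem_append_right
    have hz := List.reverse_zipWith (f := Prod.mk)
      (l := (scan ((grow f (.nd .d T) (f w) bs).2.1 ++ [(f (f w), true)]) []).2.1)
      (l' := (scan ((grow f (.nd .d T) (f w) bs).2.1 ++ [(f (f w), true)]) []).2.2)
      (by rw [e1, e2])
    rw [List.zip, ← hz, List.mem_reverse]
    exact hp
  · have hw' : w ∉ f w :: f (f w) :: tri f bs := by
      rw [List.mem_cons, List.mem_cons, not_or, not_or]
      exact ⟨d1.symm, d3.symm, o1⟩
    rw [v2 w hw', htri]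
    have hαw : α w ≠ w := fun hc => o1 ((h.leg w).1 hc)
    rw [List.mem_cons, List.mem_cons, List.mem_cons, not_or, not_or, not_or]
    refine ⟨hαw, ?_, ?_, ?_⟩
    · intro hc
      apply d3
      have h4 : α (f w) = f (f w) := hw
      rw [← h4, ← hc, h.inv]
    · intro hc
      apply d1
      rw [← o4, ← hc, h.inv]
    · intro hc
      have h5 := (h.leg _).2 hc
      rw [h.inv] at h5
      exact hαw h5.symm

theorem ten_ten {f α : Perm D} (hf : TF f) {bs : List D} (h : PT f α bs) {w : D}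
    (hw : Leaf f α w) {r K : ℕ} (hr : 1 ≤ r) {T : Tr} (hT : Adm r K T)
    (hb : bs.length = T.sz + 1) : ∃ (ℓ : D → ℤ) (lv : List (D × Bool)) (pr : List (D × D))
      (As Bs : List D), Ten f (tenS f α w bs T) ℓ r w T bs lv pr As Bs := by
  obtain ⟨ℓ, h1⟩ := TenVal_ten hf h hw hr hT hb
  exact ⟨ℓ, _, _, _, _, h1⟩

theorem ten_inj {f α1 α2 : Perm D} (hf : TF f) {bs1 bs2 : List D} (h1 : PT f α1 bs1)
    (h2 : PT f α2 bs2) {w : D} (hw1 : Leaf f α1 w) (hw2 : Leaf f α2 w) {r K : ℕ} (hr : 1 ≤ r)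
    {T : Tr} (hT : Adm r K T) (hb1 : bs1.length = T.sz + 1) (hb2 : bs2.length = T.sz + 1)
    (h : tenS f α1 w bs1 T = tenS f α2 w bs2 T) : bs1 = bs2 ∧ α1 = α2 := by
  obtain ⟨ℓ1, g1⟩ := TenVal_ten hf h1 hw1 hr hT hb1
  obtain ⟨ℓ2, g2⟩ := TenVal_ten hf h2 hw2 hr hT hb2
  have e1 := g1.slc.emb
  have e2 := g2.slc.emb
  rw [← h] at e2
  have hbs := (emb_unique _ _ _ _ _ _ e1 e2).1
  refine ⟨hbs, ?_⟩
  subst hbs
  ext d
  by_cases hd1 : d = f w
  · rw [hd1, (hw1 : α1 (f w) = f (f w)), (hw2 : α2 (f w) = f (f w))]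
  · by_cases hd2 : d = f (f w)
    · rw [hd2, (TenVal_out hf h1 hw1).2.2.2, (TenVal_out hf h2 hw2).2.2.2]
    · by_cases hd3 : d ∈ tri f bs1
      · rw [(h1.leg d).2 hd3, (h2.leg d).2 hd3]
      · have hd : d ∉ f w :: f (f w) :: tri f bs1 := by
          rw [List.mem_cons, List.mem_cons, not_or, not_or]
          exact ⟨hd1, hd2, hd3⟩
        rw [← (ten_val hf h1 hw1 hr hT hb1).2.1 d hd, ← (ten_val hf h2 hw2 hr hT hb2).2.1 d hd, h]

end HG39
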