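import Pool.Agent.H39.HG.Defs
import Pool.Agent.H39.HG.YDef
import Pool.Agent.H39.HG.ZSwap
import Pool.Agent.H39.HG.ZCL
import Pool.Agent.H39.HG.ZBw
import Pool.Agent.H39.HG.GlueVal
import Pool.Agent.H39.HG.GrPerm
import Pool.Agent.H39.HG.GrWord
import Pool.Agent.H39.HG.ScWord
import Pool.Agent.H39.HG.LabBasic
import Pool.Agent.H39.HG.TenVal

/-!
[H39 HG TENCYC]  (MP_bcc40c_pr)  Growing a tentacle: the number of vertices.

Setting: `PT f α bs`, `w` a leaf triangle (`α (f w) = f (f w)`), `T` admissible (`Adm r K T`, `1 ≤ r`),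
`bs.length = T.sz + 1`.  `α' = tenS f α w bs T` (YDef.lean): the pair `{f w, f (f w)}` is cut, `nd d T` is
grown at `f w` with the roots `bs` (pairs `g.1`, leaves `g.2.1`), the parentheses of
`g.2.1 ++ [(f (f w), true)]` are matched (`s.1`), `As[j] <-> Bs[j]` (`As = s.2.1`, `Bs = s.2.2`, both of
length `r`).

PROOF.  `f * tenS .. = glue (f * α) (..)` (glue_mul).  Cutting `{f w, f (f w)}`: `f (f w)` is a fixed point of
`π = f * α` (a vertex of degree one: `f (α (f (f w))) = f (f w)`), `[f (f w)]` is a cyclic list; CL_join with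
the cyclic list `f w :: p` of `f w` (`f (f w)` is not in it): word `f w :: f (f w) :: []` for
`π * swap (f w) (f (f w))`, `-1` (cyc_swap_diff).  The triangles of `bs` are intact (legs).  grow_word at the
letter `f w` (right context `[f (f w)]`): word `leaves ++ [f (f w)]`, `-(T.sz + 1)`.  scan_word (empty stack)
for `leaves ++ [(f (f w), true)]`: word `As ++ Bs.reverse`, `+ #pairs`.  nest_word with `l1 = As.reverse`,
`l2 = Bs.reverse`: `+ r`.  Number of leaves (grow_len, scan_perm): `T.sz + 3 = 2 #pairs + 2 r`, and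
`T.sz + 3 = 2K`, so `#pairs = K - r`; total `-1 - (2K - 2) + (K - r) + r = 1 - K`.
-/

set_option autoImplicit false

namespace HG39

open Equiv

variable {D : Type} [Fintype D] [DecidableEq D]

omit [Fintype D] [DecidableEq D] in
private theorem TenCyc_entlen (l : List (D × D)) : (ent l).length = 2 * l.length := by
  induction l with
  | nil => rfl
  | cons p l ih =>
    have h : ent (p :: l) = p.1 :: p.2 :: ent l := by simp [ent]
    rw [h, List.length_cons, List.length_cons, List.length_cons, ih]
    ring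

theorem ten_cyc {f α : Perm D} (hf : TF f) {bs : List D} (h : PT f α bs) {w : D}
    (hw : Leaf f α w) {r K : ℕ} (hr : 1 ≤ r) {T : Tr} (hT : Adm r K T)
    (hb : bs.length = T.sz + 1) :
    cyc (f * tenS f α w bs T) + (K - 1) = cyc (f * α) := by
  obtain ⟨e1, e2⟩ := ten_len hf h hw hr hT hb
  have h0 : α (f w) = f (f w) := hw
  have h0' : α (f (f w)) = f w := by rw [← h0, h.inv]
  have d1 : f (f w) ≠ f w := hf.nf (f w)
  have o2 : f w ∉ tri f bs := by
    intro hc
    have := (h.leg (f w)).2 hc
    rw [h0] at this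
    exact d1 this
  have o3 : f (f w) ∉ tri f bs := fun hc => o2 ((tri_closed hf bs (f w)).1 hc)
  have hfix : (f * α) (f (f w)) = f (f w) := by
    rw [Perm.mul_apply, h0']
  have hns : ¬ (f * α).SameCycle (f w) (f (f w)) := by
    rintro ⟨i, hi⟩
    have h1 : ((f * α) ^ (-i)) (f (f w)) = f w := by
      rw [← hi, ← Perm.mul_apply, ← zpow_add]
      simp
    rw [Equiv.Perm.zpow_apply_eq_self_of_apply_eq_self hfix] at h1
    exact d1 h1
  have c1 := cyc_swap_diff (f * α) (f w) (f (f w)) hns
  obtain ⟨p, hp⟩ := CL_exists (f * α) (f w)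
  have hp2 : CL (f * α) [f (f w)] := by
    rw [CL_cons_iff]
    refine ⟨List.nodup_singleton _, ?_⟩
    rw [hfix]
    rfl
  have hnm : f (f w) ∉ f w :: p := fun hc =>
    hns ((CL_iff_same hp List.mem_cons_self _).1 hc)
  have hj := CL_join hp hp2 hnm
  have hB1 : Bw (f * α * swap (f w) (f (f w))) ([] ++ f w :: [f (f w)]) := by
    refine ⟨_, hj, ?_⟩
    rw [List.nil_append, List.nil_append]
    exact ((List.nil_sublist p).cons_cons _).cons_cons _
  have hsz : (Tr.nd .d T).sz = bs.length := by
    show 0 + T.sz + 1 = bs.length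
    rw [hb, zero_add]
  have hπ : ∀ d ∈ tri f bs, (f * α * swap (f w) (f (f w))) d = f d := by
    intro d hd
    have k1 : d ≠ f w := fun hc => o2 (hc ▸ hd)
    have k2 : d ≠ f (f w) := fun hc => o3 (hc ▸ hd)
    rw [Perm.mul_apply, swap_apply_of_ne_of_ne k1 k2, Perm.mul_apply, (h.leg d).2 hd]
  obtain ⟨g1, g2, _⟩ := grow_word hf (.nd .d T) (f w) bs [] [f (f w)]
    (f * α * swap (f w) (f (f w))) hsz.le h.ndp o2 hπ hB1
  set g := grow f (.nd .d T) (f w) bs with hg
  obtain ⟨s1, s2⟩ := scan_word (g.2.1 ++ [(f (f w), true)]) [] [] []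
    (glue (f * α * swap (f w) (f (f w))) g.1) (by
      rw [List.reverse_nil, List.append_nil, List.append_nil, List.nil_append, List.map_append]
      rw [List.nil_append] at g1
      exact g1)
  set s := scan (g.2.1 ++ [(f (f w), true)]) [] with hs
  obtain ⟨n1, n2⟩ := nest_word s.2.1.reverse s.2.2.reverse [] []
    (glue (glue (f * α * swap (f w) (f (f w))) g.1) s.1) (by
      rw [List.length_reverse, List.length_reverse, e1, e2]) (by
      rw [List.reverse_reverse]
      exact s1)
  have htot : f * tenS f α w bs T = glue (glue (glue (f * α * swap (f w) (f (f w))) g.1) s.1)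
      (s.2.1.reverse.zip s.2.2.reverse) := by
    rw [← glue_append, ← glue_append]
    have h1 : tenS f α w bs T = glue α ((f w, f (f w)) :: tenPairs f w bs T) := rfl
    have h2 : tenPairs f w bs T = g.1 ++ s.1 ++ s.2.1.reverse.zip s.2.2.reverse := rfl
    rw [h1, ← glue_mul, glue_cons, h2, List.append_assoc]
  have hl1 := (grow_len f (.nd .d T) (f w) bs hsz.le).2
  rw [← hg] at hl1
  have hl2 := (scan_perm (g.2.1 ++ [(f (f w), true)]) []).length_eq
  rw [← hs] at hl2
  simp only [List.length_append, List.length_map, List.length_cons, List.length_nil,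
    TenCyc_entlen] at hl2
  rw [htot, n2, s2, List.length_reverse]
  have hK := hT.2.2.2
  rw [hsz] at g2 hl1
  omega

end HG39
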