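import Pool.Agent.H39.HG.Defs
import Pool.Agent.H39.HG.YDef
import Pool.Agent.H39.HG.GlueVal
import Pool.Agent.H39.HG.GrPerm
import Pool.Agent.H39.HG.LabBasic
import Pool.Agent.H39.HG.EmbBasic
import Pool.Agent.H39.HG.SlcBasic
import Pool.Agent.H39.HG.TenVal

/-!
[H39 HG TENPT]  (MP_bcc40c_pr)  Growing a tentacle: the result is a full triangulation.

Setting: `PT f α bs`, `w` a leaf triangle (`α (f w) = f (f w)`), `T` admissible (`Adm r K T`, `1 ≤ r`),
`bs.length = T.sz + 1`.  `α' = tenS f α w bs T` (YDef.lean): the pair `{f w, f (f w)}` is cut, `nd d T` is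
grown at `f w` with the roots `bs` (pairs `g.1`, leaves `g.2.1`), the parentheses of
`g.2.1 ++ [(f (f w), true)]` are matched (`s.1`), `As[j] <-> Bs[j]` (`As = s.2.1`, `Bs = s.2.2`, both of
length `r`).

PROOF.  inv, no fixed points: ten_val.  con: let `Q` be closed under `f`, `α'`, `Q d0`.  `P = tri f (w :: bs)`
is connected (slc_conn for the slice of ten_ten); so if `Q` meets `P` then `P ⊆ Q`, in particular `w ∈ Q`.
If `Q` contains a non-leg of `α`: the predicate `R d := (α d ≠ d → Q d)` is closed under `f` (nl_f), and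
under `α`: `α' d = α d` except for `d = f w, f (f w)` and the legs, and `Q (f w) ↔ Q (f (f w))` since `Q` is
closed under `f` (`f (f (f d)) = d`).  So by `h.con` all non-legs are in `Q`, in particular `w`, so `P ⊆ Q`.
`d0` is in `P` (a leg) or a non-leg; in the first case `w ∈ Q` is a non-leg.
-/

set_option autoImplicit false

namespace HG39

open Equiv

variable {D : Type} [Fintype D] [DecidableEq D]

theorem ten_PT {f α : Perm D} (hf : TF f) {bs : List D} (h : PT f α bs) {w : D}
    (hw : Leaf f α w) {r K : ℕ} (hr : 1 ≤ r) {T : Tr} (hT : Adm r K T)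
    (hb : bs.length = T.sz + 1) : PT f (tenS f α w bs T) [] := by
  obtain ⟨v1, v2, v3, v4⟩ := ten_val hf h hw hr hT hb
  obtain ⟨ℓ, lv, pr, As, Bs, ht⟩ := ten_ten hf h hw hr hT hb
  have hw1 : α (f w) = f (f w) := hw
  have hw2 : α (f (f w)) = f w := by rw [← hw1, h.inv]
  have hnfw : α (f w) ≠ f w := by
    rw [hw1]
    exact hf.nf _
  have hnw : α w ≠ w := fun h1 => hnfw ((nl_f hf h w).2 h1)
  refine ⟨v3, ?_, List.nodup_nil, ?_⟩
  · intro d
    exact ⟨fun h1 => absurd h1 (v4 d), fun h1 => absurd h1 List.not_mem_nil⟩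
  · intro P hex hPf hPa
    have hA : (∃ d ∈ tri f (w :: bs), P d) → ∀ d ∈ tri f (w :: bs), P d := fun h3 =>
      slc_conn hf ht.slc P (fun d _ hd => hPf d hd) (fun d _ hd _ => hPa d hd) h3
    have hB : (∃ d, α d ≠ d ∧ P d) → ∀ d, α d ≠ d → P d := by
      rintro ⟨d0, h0, hP0⟩
      have h1 := h.con (fun d => α d ≠ d → P d) ⟨d0, h0, fun _ => hP0⟩ ?_ ?_
      · exact fun d hd => h1 d hd hd
      · intro d hd hfd
        exact hPf d (hd fun h2 => hfd ((nl_f hf h d).2 h2))
      · intro d hd hαd
        have hd' : α d ≠ d := fun h2 => hαd ((nl_a h d).2 h2)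
        have hPd := hd hd'
        by_cases e1 : d = f w
        · rw [e1, hw1]
          rw [e1] at hPd
          exact hPf _ hPd
        · by_cases e2 : d = f (f w)
          · rw [e2, hw2]
            rw [e2] at hPd
            have h3 := hPf _ hPd
            rw [hf.three] at h3
            exact hPf _ h3
          · have h3 : d ∉ f w :: f (f w) :: tri f bs := by
              rw [List.mem_cons, List.mem_cons, not_or, not_or]
              exact ⟨e1, e2, fun h4 => hd' ((h.leg d).2 h4)⟩
            have h4 := hPa d hPd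
            rwa [v2 d h3] at h4
    have hsub : ∀ d ∈ tri f bs, d ∈ tri f (w :: bs) := by
      intro d hd
      rw [slcb_tri]
      exact List.mem_cons_of_mem _ (List.mem_cons_of_mem _ (List.mem_cons_of_mem _ hd))
    have hwm : w ∈ tri f (w :: bs) := by
      rw [slcb_tri]
      exact List.mem_cons_self
    have hPw : P w → ∀ d, P d := by
      intro hw3 d
      by_cases hd : α d = d
      · exact hA ⟨w, hwm, hw3⟩ d (hsub d ((h.leg d).1 hd))
      · exact hB ⟨w, hnw, hw3⟩ d hd
    obtain ⟨d0, -, hP0⟩ := hex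
    intro d _
    refine hPw ?_ d
    by_cases hd0 : α d0 = d0
    · exact hA ⟨d0, hsub d0 ((h.leg d0).1 hd0), hP0⟩ w hwm
    · exact hB ⟨d0, hd0, hP0⟩ w hnw

end HG39
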