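import Pool.Agent.H39.HG.Defs
import Pool.Agent.H39.HG.GrPerm
import Pool.Agent.H39.HG.UVal
import Pool.Agent.H39.HG.UPT
import Pool.Agent.H39.HG.UCyc
import Pool.Agent.H39.HG.LabBasic
import Pool.Agent.H39.HG.YDef

/-!
[H39 HG YSTEP]  (MP_bcc40c_pr)  Counting: one removal, configurations with a marked leaf triangle.

`Yc f v j M B` (YDef.lean): triples `(α, bs, w0)`: `PT f α bs`, `bs.length = 2 j`, `cyc (f * α) = v + j`, at
least `M` leaf triangles, `w0` a leaf triangle, and `α` differs from some `α0 ∈ B` on at most `8 j` darts.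
PROOF of Yc_step.  Pairs `(c, w)`, `c = (α, bs, w0) ∈ Yc f v j (M+1) B`, `w ≠ w0` a leaf of `α` (at least `M`
choices), mapped to `((rmv f α w, w :: α w :: bs, w0), α (f (α w)))`.  In `Yc f v (j+1) M B`: unit_PT,
unit_cyc, lfc_rmv, leaf_rmv for `w0`; `rmv f α w` differs from `α` on at most 8 darts (rmv_other).
Injective: `w`, `α w`, `bs` are read off, `α = ins f (rmv f α w) w (α w) (α (f (α w)))` (ins_rmv).
Yc_iter: induction; `(M - 1).descFactorial (K + 1) = (M - 1 - K) (M - 1).descFactorial K`.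
Yc_zero: `(α, w0) ↦ (α, [], w0)`; for every `α ∈ B` there are `lfc f α ≥ M` leaves.
(Same technique as in UStep.lean.)
-/

set_option autoImplicit false

namespace HG39

open Equiv

variable {D : Type} [Fintype D] [DecidableEq D]

theorem Yc_finite (f : Perm D) (v j M : ℕ) (B : Set (Perm D)) : (Yc f v j M B).Finite := by
  refine (Set.finite_univ.prod ((List.finite_length_eq D (2 * j)).prod
    (Set.finite_univ (α := D)))).subset fun c hc => ⟨trivial, hc.2.1, trivial⟩

open Classical in
theorem ys_lfc (f α : Perm D) : lfc f α = (Finset.univ.filter fun w => Leaf f α w).card := by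
  unfold lfc
  rw [Nat.card_eq_fintype_card, Fintype.card_subtype]

theorem Yc_mem {f : Perm D} (hf : TF f) {v j M : ℕ} {B : Set (Perm D)}
    (hN : 6 * j + 6 < Fintype.card D) {c : Perm D × List D × D} (hc : c ∈ Yc f v j (M + 1) B)
    {w : D} (hw : Leaf f c.1 w) (hne : w ≠ c.2.2) :
    (rmv f c.1 w, w :: c.1 w :: c.2.1, c.2.2) ∈ Yc f v (j + 1) M B := by
  obtain ⟨α, bs, w0⟩ := c
  obtain ⟨h1, h2, h3, h4, h5, α0, hα0, h6⟩ := hc
  simp only at h1 h2 h3 h4 h5 h6 hw hne
  have hN' : 3 * bs.length + 6 < Fintype.card D := by omega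
  refine ⟨unit_PT hf h1 hw hN', ?_, ?_, ?_, leaf_rmv hf h1 hw hN' w0 h5 hne.symm, α0, hα0, ?_⟩
  · simp only [List.length_cons]
    omega
  · change cyc (f * rmv f α w) = v + (j + 1)
    rw [unit_cyc hf h1 hw hN', h3]
    omega
  · have h7 := lfc_rmv hf h1 hw hN'
    change M ≤ lfc f (rmv f α w)
    omega
  · have h7 : {d | rmv f α w d ≠ α0 d} ⊆
        {d | α d ≠ α0 d} ∪ ((six f α w ++ [α (f (α w)), α (f (f (α w)))]).toFinset : Set D) := by
      intro d hd
      by_cases h8 : d ∈ six f α w ++ [α (f (α w)), α (f (f (α w)))]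
      · right
        rw [Finset.mem_coe, List.mem_toFinset]
        exact h8
      · left
        have h9 := rmv_other hf h1 hw hN' d h8
        change α d ≠ α0 d
        rw [← h9]
        exact hd
    change {d | rmv f α w d ≠ α0 d}.ncard ≤ 8 * (j + 1)
    have h8 := Set.ncard_le_ncard h7 (Set.toFinite _)
    have h9 := Set.ncard_union_le {d | α d ≠ α0 d}
      ((six f α w ++ [α (f (α w)), α (f (f (α w)))]).toFinset : Set D)
    rw [Set.ncard_coe_finset] at h9
    have h10 := List.toFinset_card_le (six f α w ++ [α (f (α w)), α (f (f (α w)))])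
    have h11 : (six f α w ++ [α (f (α w)), α (f (f (α w)))]).length = 8 := rfl
    omega

theorem Yc_step {f : Perm D} (hf : TF f) (v j M : ℕ) (B : Set (Perm D))
    (hN : 6 * j + 6 < Fintype.card D) :
    (Yc f v j (M + 1) B).ncard * M ≤ (Yc f v (j + 1) M B).ncard * Fintype.card D := by
  classical
  have f1 := Yc_finite f v j (M + 1) B
  have f2 := Yc_finite f v (j + 1) M B
  rw [Set.ncard_eq_toFinset_card _ f1, Set.ncard_eq_toFinset_card _ f2]
  let P : Finset (Σ _ : Perm D × List D × D, D) := f1.toFinset.sigma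
    fun c => Finset.univ.filter fun w => Leaf f c.1 w ∧ w ≠ c.2.2
  have hP : f1.toFinset.card * M ≤ P.card := by
    rw [Finset.card_sigma, ← smul_eq_mul, ← Finset.sum_const]
    refine Finset.sum_le_sum fun c hc => ?_
    have hc' := (Set.Finite.mem_toFinset f1).1 hc
    have h1 : M + 1 ≤ (Finset.univ.filter fun w => Leaf f c.1 w).card := by
      rw [← ys_lfc]
      exact hc'.2.2.2.1
    have h2 : (Finset.univ.filter fun w => Leaf f c.1 w ∧ w ≠ c.2.2) =
        (Finset.univ.filter fun w => Leaf f c.1 w).erase c.2.2 := by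
      ext w
      simp only [Finset.mem_filter, Finset.mem_univ, true_and, Finset.mem_erase]
      exact and_comm
    have h3 : c.2.2 ∈ Finset.univ.filter fun w => Leaf f c.1 w := by
      rw [Finset.mem_filter]
      exact ⟨Finset.mem_univ _, hc'.2.2.2.2.1⟩
    rw [h2, Finset.card_erase_of_mem h3]
    omega
  refine hP.trans ?_
  have hQ : P.card ≤ (f2.toFinset ×ˢ (Finset.univ : Finset D)).card := by
    refine Finset.card_le_card_of_injOn
      (fun p => ((rmv f p.1.1 p.2, p.2 :: p.1.1 p.2 :: p.1.2.1, p.1.2.2),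
        p.1.1 (f (p.1.1 p.2)))) ?_ ?_
    · intro p hp
      have hp' := Finset.mem_sigma.1 hp
      have hc := (Set.Finite.mem_toFinset f1).1 hp'.1
      obtain ⟨_, hw, hne⟩ := Finset.mem_filter.1 hp'.2
      rw [Finset.mem_coe, Finset.mem_product]
      refine ⟨?_, Finset.mem_univ _⟩
      rw [Set.Finite.mem_toFinset]
      exact Yc_mem hf hN hc hw hne
    · intro p hp p' hp' he
      obtain ⟨⟨α, bs, w0⟩, w⟩ := p
      obtain ⟨⟨α', bs', w0'⟩, w'⟩ := p'
      have hp1 := Finset.mem_sigma.1 hp
      have hp1' := Finset.mem_sigma.1 hp'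
      have hc := (Set.Finite.mem_toFinset f1).1 hp1.1
      have hc' := (Set.Finite.mem_toFinset f1).1 hp1'.1
      obtain ⟨_, hw, _⟩ := Finset.mem_filter.1 hp1.2
      obtain ⟨_, hw', _⟩ := Finset.mem_filter.1 hp1'.2
      simp only [Prod.mk.injEq, List.cons.injEq] at he hw hw' hc hc'
      obtain ⟨⟨e1, ⟨e2, e3, e4⟩, e5⟩, e6⟩ := he
      have l1 : bs.length = 2 * j := hc.2.1
      have l2 : bs'.length = 2 * j := hc'.2.1
      have i1 := ins_rmv hf hc.1 hw (by simp only; omega)
      have i2 := ins_rmv hf hc'.1 hw' (by simp only; omega)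
      simp only at i1 i2
      have e7 : α = α' := by
        rw [← i1, ← i2, e1, e6, e3, e2]
      subst e2 e4 e5 e7
      rfl
  rw [Finset.card_product, Finset.card_univ] at hQ
  exact hQ

theorem Yc_iter {f : Perm D} (hf : TF f) (v M K : ℕ) (B : Set (Perm D))
    (hN : 6 * K < Fintype.card D) :
    (Yc f v 0 M B).ncard * (M - 1).descFactorial K ≤
      (Yc f v K (M - K) B).ncard * (Fintype.card D) ^ K := by
  induction K with
  | zero => simp
  | succ K ih =>
    have ih' := ih (by omega)
    rw [Nat.descFactorial_succ]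
    rcases Nat.lt_or_ge K M with h | h
    · obtain ⟨m, hm⟩ : ∃ m, M = m + 1 + K := ⟨M - 1 - K, by omega⟩
      have h1 : M - K = m + 1 := by omega
      have h2 : M - (K + 1) = m := by omega
      have h3 : M - 1 - K = m := by omega
      rw [h1] at ih'
      rw [h2, h3]
      have h4 := Yc_step hf v K m B (by omega)
      calc (Yc f v 0 M B).ncard * (m * (M - 1).descFactorial K)
          = ((Yc f v 0 M B).ncard * (M - 1).descFactorial K) * m := by ring
        _ ≤ ((Yc f v K (m + 1) B).ncard * Fintype.card D ^ K) * m :=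
            Nat.mul_le_mul_right _ ih'
        _ = ((Yc f v K (m + 1) B).ncard * m) * Fintype.card D ^ K := by ring
        _ ≤ ((Yc f v (K + 1) m B).ncard * Fintype.card D) * Fintype.card D ^ K :=
            Nat.mul_le_mul_right _ h4
        _ = (Yc f v (K + 1) m B).ncard * Fintype.card D ^ (K + 1) := by ring
    · have h3 : M - 1 - K = 0 := by omega
      rw [h3, zero_mul, mul_zero]
      exact Nat.zero_le _

theorem Yc_zero {f : Perm D} (v M : ℕ) (B : Set (Perm D)) (hB : B ⊆ TS f v)
    (hM : ∀ α ∈ B, M ≤ lfc f α) : B.ncard * M ≤ (Yc f v 0 M B).ncard := by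
  classical
  have f1 : B.Finite := Set.toFinite B
  have f2 := Yc_finite f v 0 M B
  rw [Set.ncard_eq_toFinset_card _ f1, Set.ncard_eq_toFinset_card _ f2]
  let P : Finset (Σ _ : Perm D, D) := f1.toFinset.sigma
    fun α => Finset.univ.filter fun w => Leaf f α w
  have hP : f1.toFinset.card * M ≤ P.card := by
    rw [Finset.card_sigma, ← smul_eq_mul, ← Finset.sum_const]
    refine Finset.sum_le_sum fun α hα => ?_
    rw [← ys_lfc]
    exact hM α ((Set.Finite.mem_toFinset f1).1 hα)
  refine hP.trans ?_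
  refine Finset.card_le_card_of_injOn (fun p => (p.1, [], p.2)) ?_ ?_
  · intro p hp
    have hp' := Finset.mem_sigma.1 hp
    have hα := (Set.Finite.mem_toFinset f1).1 hp'.1
    have hw := (Finset.mem_filter.1 hp'.2).2
    rw [Finset.mem_coe, Set.Finite.mem_toFinset]
    refine ⟨(hB hα).1, rfl, (hB hα).2, hM _ hα, hw, p.1, hα, ?_⟩
    simp
  · intro p hp p' hp' he
    obtain ⟨α, w⟩ := p
    obtain ⟨α', w'⟩ := p'
    simp only [Prod.mk.injEq, true_and] at he
    obtain ⟨e1, e2⟩ := he
    subst e1 e2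
    rfl

end HG39
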