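import Pool.Agent.H39.HG.Defs
import Pool.Agent.H39.HG.YDef
import Pool.Agent.H39.HG.GrPerm
import Pool.Agent.H39.HG.UVal
import Pool.Agent.H39.HG.YStep
import Pool.Agent.H39.HG.TenVal
import Pool.Agent.H39.HG.TenPT
import Pool.Agent.H39.HG.TenCyc
import Pool.Agent.H39.HG.TenMult
import Pool.Agent.H39.HG.TenDisj
import Pool.Agent.H39.HG.LabBasic

/-!
[H39 HG MAIND1]  (MP_bcc40c_pr)  Few triangulations have at most one tentacle.

PROOF.  `B = {α ∈ TS f v | M ≤ lfc f α ∧ (TB f α r F).ncard ≤ 1}`.  Yc_zero, Yc_iter with `K - 1` removals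
(`K ≥ 2` if `F` is not empty, because `T.sz ≥ 1`: `T.sz + 3 = 2K`; if `F` is empty nothing to prove):
 B.ncard * M * (M-1).descFactorial (K-1) ≤ (Yc f v (K-1) (M-(K-1)) B).ncard * card D ^ (K-1).
Then map `((α, bs, w0), T) ↦ (α', w0, T)`, `α' = tenS f α w0 bs T` for `T ∈ F` (`bs.length = 2 (K-1) = T.sz + 1`).
Injective (ten_inj).  `α' ∈ TS f v` (ten_PT, ten_cyc: `cyc (f * α') + (K-1) = v + (K-1)`).  `w0 ∈ TB f α' r F`
with type `T` (ten_ten).  `α'` differs from `α0 ∈ B` on at most `8 (K-1) + 2 ≤ 8 K` darts: where `α ≠ α0`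
(at most `8 (K-1)` darts; it contains the legs `tri f bs` because `α0` has no fixed points), and
`f w0, f (f w0)`.  So `(TB f α' r F).ncard ≤ 1 + 8 K` (ten_local).  The number of triples `(α', w0, T)` is at
most `(TS f v).ncard * (8 K + 1) * (6 K)` (ten_mult).
-/

set_option autoImplicit false

namespace HG39

open Equiv

variable {D : Type} [Fintype D] [DecidableEq D]

theorem mainD1 {f : Perm D} (hf : TF f) (v r M K : ℕ) (hr : 1 ≤ r)
    (hN : 12 * K < Fintype.card D) (F : Finset Tr) (hF : ∀ T ∈ F, Adm r K T) :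
    {α | α ∈ TS f v ∧ M ≤ lfc f α ∧ (TB f α r F).ncard ≤ 1}.ncard * M *
      (M - 1).descFactorial (K - 1) * F.card ≤
    (TS f v).ncard * Fintype.card D ^ (K - 1) * ((8 * K + 1) * (6 * K)) := by
  classical
  rcases F.eq_empty_or_nonempty with rfl | ⟨T0, hT0⟩
  · rw [Finset.card_empty, Nat.mul_zero]
    exact Nat.zero_le _
  have hK2 : 2 ≤ K := by
    have h0 := hF T0 hT0
    have h1 : T0.sz + 3 = 2 * K := h0.2.2.2
    have h2 : 1 ≤ T0.sz := by
      have h3 : T0.wt = 0 := h0.2.1
      cases T0 with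
      | u => exact absurd h3 (by simp [Tr.wt])
      | d => exact absurd h3 (by simp [Tr.wt])
      | nd a b =>
        unfold Tr.sz
        omega
    omega
  obtain ⟨B, hB⟩ : ∃ B : Set (Perm D), B =
      {α | α ∈ TS f v ∧ M ≤ lfc f α ∧ (TB f α r F).ncard ≤ 1} := ⟨_, rfl⟩
  rw [← hB]
  have h1 : B.ncard * M ≤ (Yc f v 0 M B).ncard := by
    refine Yc_zero v M B (fun α hα => ?_) fun α hα => ?_
    · rw [hB] at hα
      exact hα.1
    · rw [hB] at hα
      exact hα.2.1
  have h2 := Yc_iter hf v M (K - 1) B (by omega)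
  have h3 : (Yc f v (K - 1) (M - (K - 1)) B).ncard * F.card ≤
      (TS f v).ncard * ((8 * K + 1) * (6 * K)) := by
    have hfin := Yc_finite f v (K - 1) (M - (K - 1)) B
    have hTB : ∀ α : Perm D, (TB f α r F).Finite := fun α => Set.toFinite _
    have hTS : (TS f v).Finite := Set.toFinite _
    obtain ⟨Z, hZ⟩ : ∃ Z : Finset (Perm D × D × Tr), Z =
        (hTS.toFinset.filter fun α => (TB f α r F).ncard ≤ 8 * K + 1).biUnion fun α =>
          (hTB α).toFinset.biUnion fun w => (F.filter fun T => TenW f α r w T).image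
            fun T => (α, w, T) := ⟨_, rfl⟩
    have hZc : Z.card ≤ (TS f v).ncard * ((8 * K + 1) * (6 * K)) := by
      rw [hZ]
      refine Finset.card_biUnion_le.trans ?_
      have h4 : ∀ α ∈ hTS.toFinset.filter fun α => (TB f α r F).ncard ≤ 8 * K + 1,
          ((hTB α).toFinset.biUnion fun w => (F.filter fun T => TenW f α r w T).image
            fun T => (α, w, T)).card ≤ (8 * K + 1) * (6 * K) := by
        intro α hα
        rw [Finset.mem_filter, Set.Finite.mem_toFinset] at hα
        refine Finset.card_biUnion_le.trans ?_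
        have h5 : ∀ w ∈ (hTB α).toFinset, ((F.filter fun T => TenW f α r w T).image
            fun T => (α, w, T)).card ≤ 6 * K := by
          intro w _
          refine Finset.card_image_le.trans ?_
          obtain ⟨g1, g2⟩ := ten_mult hf hα.1.1 r K w
          rw [← Set.ncard_coe_finset]
          refine (Set.ncard_le_ncard (fun T hT => ?_) g1).trans g2
          have hT' := Finset.mem_filter.1 (Finset.mem_coe.1 hT)
          exact ⟨hF T hT'.1, hT'.2⟩
        refine (Finset.sum_le_card_nsmul _ _ _ h5).trans ?_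
        rw [smul_eq_mul, ← Set.ncard_eq_toFinset_card _ (hTB α)]
        exact Nat.mul_le_mul_right _ hα.2
      refine (Finset.sum_le_card_nsmul _ _ _ h4).trans ?_
      rw [smul_eq_mul]
      refine Nat.mul_le_mul_right _ ((Finset.card_filter_le _ _).trans ?_)
      rw [← Set.ncard_eq_toFinset_card _ hTS]
    refine le_trans ?_ hZc
    rw [Set.ncard_eq_toFinset_card _ hfin, ← Finset.card_product]
    refine Finset.card_le_card_of_injOn
      (fun c => (tenS f c.1.1 c.1.2.2 c.1.2.1 c.2, c.1.2.2, c.2)) ?_ ?_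
    · rintro ⟨⟨α, bs, w⟩, T⟩ hc
      rw [Finset.mem_coe, Finset.mem_product, Set.Finite.mem_toFinset] at hc
      obtain ⟨⟨hPT, hlen, hcyc, _, hleaf, α0, hα0, hdiff⟩, hT⟩ := hc
      dsimp only at hPT hlen hcyc hleaf hdiff hT
      have hA := hF T hT
      have hsz : T.sz + 3 = 2 * K := hA.2.2.2
      have hb : bs.length = T.sz + 1 := by omega
      have hPT' := ten_PT hf hPT hleaf hr hA hb
      have hcyc' := ten_cyc hf hPT hleaf hr hA hb
      obtain ⟨ℓ, lv, pr, As, Bs, hten⟩ := ten_ten hf hPT hleaf hr hA hb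
      obtain ⟨_, hv2, _, _⟩ := ten_val hf hPT hleaf hr hA hb
      have hTenW : TenW f (tenS f α w bs T) r w T := ⟨ℓ, bs, lv, pr, As, Bs, hten⟩
      rw [hB] at hα0
      have hloc := ten_local hf hα0.1.1 hPT' hN F hF
      have hsub : {d | tenS f α w bs T d ≠ α0 d} ⊆
          {d | α d ≠ α0 d} ∪ {f w, f (f w)} := by
        intro d hd
        by_cases hd1 : d = f w ∨ d = f (f w)
        · right
          exact hd1
        · left
          by_cases hd2 : d ∈ tri f bs
          · have e1 : α d = d := (hPT.leg d).2 hd2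
            have e2 : α0 d ≠ d := fun h => by
              have := (hα0.1.1.leg d).1 h
              simp [tri] at this
            show α d ≠ α0 d
            rw [e1]
            exact fun h => e2 h.symm
          · have e3 : tenS f α w bs T d = α d := by
              refine hv2 d fun hm => ?_
              rw [List.mem_cons, List.mem_cons] at hm
              rcases hm with hm | hm | hm
              · exact hd1 (Or.inl hm)
              · exact hd1 (Or.inr hm)
              · exact hd2 hm
            show α d ≠ α0 d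
            rw [← e3]
            exact hd
      have hcard : {d | tenS f α w bs T d ≠ α0 d}.ncard ≤ 8 * (K - 1) + 2 := by
        refine (Set.ncard_le_ncard hsub (Set.toFinite _)).trans
          ((Set.ncard_union_le _ _).trans ?_)
        have := Set.ncard_insert_le (f w) {f (f w)}
        rw [Set.ncard_singleton] at this
        omega
      rw [Finset.mem_coe, hZ, Finset.mem_biUnion]
      refine ⟨tenS f α w bs T, ?_, ?_⟩
      · rw [Finset.mem_filter, Set.Finite.mem_toFinset]
        refine ⟨⟨hPT', by omega⟩, ?_⟩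
        have := hα0.2.2
        omega
      · rw [Finset.mem_biUnion]
        refine ⟨w, ?_, ?_⟩
        · rw [Set.Finite.mem_toFinset]
          exact ⟨T, hT, hTenW⟩
        · exact Finset.mem_image.2 ⟨T, Finset.mem_filter.2 ⟨hT, hTenW⟩, rfl⟩
    · rintro ⟨⟨α1, bs1, w1⟩, T1⟩ hc1 ⟨⟨α2, bs2, w2⟩, T2⟩ hc2 heq
      rw [Finset.mem_coe, Finset.mem_product, Set.Finite.mem_toFinset] at hc1 hc2
      simp only [Prod.mk.injEq] at heq
      obtain ⟨he, rfl, rfl⟩ := heq
      obtain ⟨⟨hP1, hl1, _, _, hL1, _⟩, hT1⟩ := hc1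
      obtain ⟨⟨hP2, hl2, _, _, hL2, _⟩, _⟩ := hc2
      dsimp only at hP1 hl1 hL1 hT1 hP2 hl2 hL2
      have hA := hF T1 hT1
      have hsz : T1.sz + 3 = 2 * K := hA.2.2.2
      obtain ⟨rfl, rfl⟩ := ten_inj hf hP1 hP2 hL1 hL2 hr hA (by omega) (by omega) he
      rfl
  calc B.ncard * M * (M - 1).descFactorial (K - 1) * F.card
      ≤ (Yc f v 0 M B).ncard * (M - 1).descFactorial (K - 1) * F.card :=
        Nat.mul_le_mul_right _ (Nat.mul_le_mul_right _ h1)
    _ ≤ (Yc f v (K - 1) (M - (K - 1)) B).ncard * Fintype.card D ^ (K - 1) * F.card :=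
        Nat.mul_le_mul_right _ h2
    _ = (Yc f v (K - 1) (M - (K - 1)) B).ncard * F.card * Fintype.card D ^ (K - 1) := by ring
    _ ≤ (TS f v).ncard * ((8 * K + 1) * (6 * K)) * Fintype.card D ^ (K - 1) :=
        Nat.mul_le_mul_right _ h3
    _ = _ := by ring

end HG39
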