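import Pool.Agent.H39.HG.Defs
import Pool.Agent.H39.HG.GrPerm
import Pool.Agent.H39.HG.LabA

/-!
[H39 HG XCH]  (MP_bcc40c_pr)  Exchange of two pieces (`Pc`: closed under `f`, closed under `α` except
for the base).  `α' = xch α a b = swap a b * α * swap a b`; `P`, `Q` disjoint pieces with bases `a`, `b`,
`α a ≠ b`, `α` a full triangulation.

Values: the four darts `a, b, α a, α b` are distinct (`α a ∉ P`, `α a ≠ b`; `α b ∉ Q`, `α b ≠ a`);
`α' a = α b`, `α' (α b) = a`, `α' b = α a`, `α' (α a) = b`, `α' d = α d` for the other `d`.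
`α a ∉ P ∪ Q`: if `α a ∈ Q`, `α a ≠ b`, then `a = α (α a) ∈ Q` (ca), contradiction.  Same for `α b`.
xch_PT: inv, no fixed points clear.  con: let `U` be closed under `f`, `α'`, nonempty, `N` its complement
(also closed under `f` and `α'`).  (1) `P ⊆ U` or `P ⊆ N`: one of `U ∩ P`, `N ∩ P` does not contain `a`; it
is closed under `f` and `α` (for `d ∈ P`, `d ≠ a`: `α d ∈ P` by ca and `α' d = α d`, because `d` is none of
the four darts: `b ∈ Q`, `α a, α b ∉ P`), so if it were nonempty it would be everything by `con`, but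
`b ∉ P`.  The same for `Q`.  (2) `U' = {d | (d ∉ P ∪ Q ∧ d ∈ U) ∨ (d ∈ P ∧ α a ∈ U) ∨ (d ∈ Q ∧ α b ∈ U)}` is
closed under `f` and `α`: `d` in the core and in `U`: if `d = α a` then `α d = a ∈ P` and `α a ∈ U`; `d = α b`
similarly; otherwise `α d = α' d ∈ U` is in the core; `d ∈ P`, `d ≠ a`: `α d ∈ P`; `d = a`: `α a` is in the core
and in `U`; the same for `Q`.  The complement of `U'` is described in the same way by `N`, it is also
closed.  By `con` one of the two is everything.  If `U'` is everything, then the core is in `U`, so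
`b = α' (α a) ∈ U`, `a = α' (α b) ∈ U`, and `P, Q ⊆ U` by (1): `U` is everything.  If the complement of `U'` is
everything, then in the same way `N` is everything, contradiction.
xch_leaf: `Leaf f α' w ↔ Leaf f α w`: `f w` and `f (f w)` are none of the four darts, if `w` is a leaf for
`α` or for `α'`: e.g. `f w = a`: `α a = f a ∈ P`, contradiction; `f (f w) = a`: `α a = f w = f (f a) ∈ P`;
`f w = α a`: `f (f w) = a`, `f w = f (f a) ∈ P`; etc.
xch_xch: `xch (xch α a b) a b = α`.
-/

set_option autoImplicit false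

namespace HG39

open Equiv

variable {D : Type} [Fintype D] [DecidableEq D]

omit [Fintype D] [DecidableEq D] in
private theorem xc_nl {f α : Perm D} (hα : PT f α []) (d : D) : α d ≠ d := by
  intro h
  have h1 := (hα.leg d).1 h
  simp [tri] at h1

theorem xch_val {f α : Perm D} (hα : PT f α []) {P Q : Set D} {a b : D} (hP : Pc f α P a)
    (hQ : Pc f α Q b) (hd : Disjoint P Q) (hab : α a ≠ b) :
    xch α a b a = α b ∧ xch α a b (α b) = a ∧ xch α a b b = α a ∧ xch α a b (α a) = b ∧
    (∀ d, d ≠ a → d ≠ b → d ≠ α a → d ≠ α b → xch α a b d = α d) ∧ α a ∉ P ∪ Q ∧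
    α b ∉ P ∪ Q := by
  have hinv := hα.inv
  have haa : α a ≠ a := fun h => hP.out (by rw [h]; exact hP.base)
  have hbb : α b ≠ b := fun h => hQ.out (by rw [h]; exact hQ.base)
  have hba : α b ≠ a := fun h => hab (by rw [← h, hinv])
  have e : ∀ d, xch α a b d = swap a b (α (swap a b d)) := fun d => rfl
  refine ⟨?_, ?_, ?_, ?_, ?_, ?_, ?_⟩
  · rw [e, swap_apply_left, swap_apply_of_ne_of_ne hba hbb]
  · rw [e, swap_apply_of_ne_of_ne hba hbb, hinv, swap_apply_right]
  · rw [e, swap_apply_right, swap_apply_of_ne_of_ne haa hab]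
  · rw [e, swap_apply_of_ne_of_ne haa hab, hinv, swap_apply_left]
  · intro d h1 h2 h3 h4
    rw [e, swap_apply_of_ne_of_ne h1 h2, swap_apply_of_ne_of_ne]
    · intro h
      exact h3 (by rw [← h, hinv])
    · intro h
      exact h4 (by rw [← h, hinv])
  · rintro (h | h)
    · exact hP.out h
    · have h2 := hQ.ca _ h hab
      rw [hinv] at h2
      exact Set.disjoint_left.1 hd hP.base h2
  · rintro (h | h)
    · have h2 := hP.ca _ h hba
      rw [hinv] at h2
      exact Set.disjoint_left.1 hd h2 hQ.base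
    · exact hQ.out h

theorem xch_PT {f α : Perm D} (hf : TF f) (hα : PT f α []) {P Q : Set D} {a b : D}
    (hP : Pc f α P a) (hQ : Pc f α Q b) (hd : Disjoint P Q) (hab : α a ≠ b) :
    PT f (xch α a b) [] := by
  obtain ⟨v1, v2, v3, v4, v5, v6, v7⟩ := xch_val hα hP hQ hd hab
  have hinv := hα.inv
  have nfx : ∀ d, α d ≠ d := xc_nl hα
  have e : ∀ d, xch α a b d = swap a b (α (swap a b d)) := fun d => rfl
  have hPQ : ∀ x, x ∈ P → x ∉ Q := fun x h1 h2 => Set.disjoint_left.1 hd h1 h2
  have inv' : ∀ d, xch α a b (xch α a b d) = d := by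
    intro d
    rw [e, e, swap_apply_self, hinv, swap_apply_self]
  refine ⟨inv', ?_, ?_, ?_⟩
  · intro d
    constructor
    · intro h
      exfalso
      rw [e] at h
      have h2 := congrArg (swap a b) h
      rw [swap_apply_self] at h2
      exact nfx _ h2
    · intro h
      simp [tri] at h
  · simp [tri]
  · intro U0 hne hUf hUa d0 _
    obtain ⟨d1, _, hd1⟩ := hne
    -- iff forms
    have Uf : ∀ d, U0 (f d) ↔ U0 d := fun d => ⟨fun h => by
      have := hUf _ (hUf _ h)
      rwa [hf.three] at this, hUf d⟩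
    have Ua : ∀ d, U0 (xch α a b d) ↔ U0 d := fun d => ⟨fun h => by
      have := hUa _ h
      rwa [inv'] at this, hUa d⟩
    have con0 : ∀ R : D → Prop, (∃ d, R d) → (∀ d, R d → R (f d)) → (∀ d, R d → R (α d)) →
        ∀ d, R d := by
      rintro R ⟨d, hRd⟩ h1 h2 d'
      exact hα.con R ⟨d, nfx d, hRd⟩ h1 h2 d' (nfx d')
    have hP4 : ∀ d, d ∈ P → d ≠ a → xch α a b d = α d := fun d h1 h2 =>
      v5 d h2 (fun h => hPQ d h1 (h ▸ hQ.base)) (fun h => v6 (Or.inl (h ▸ h1)))
        (fun h => v7 (Or.inl (h ▸ h1)))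
    have hQ4 : ∀ d, d ∈ Q → d ≠ b → xch α a b d = α d := fun d h1 h2 =>
      v5 d (fun h => hPQ d (h ▸ hP.base) h1) h2 (fun h => v6 (Or.inr (h ▸ h1)))
        (fun h => v7 (Or.inr (h ▸ h1)))
    have UP : ∀ d, d ∈ P → (U0 d ↔ U0 a) := by
      intro d hdP
      by_contra hcon
      have := con0 (fun d => d ∈ P ∧ ¬ (U0 d ↔ U0 a)) ⟨d, hdP, hcon⟩
        (fun d h => ⟨hP.cf d h.1, by rw [Uf]; exact h.2⟩)
        (fun d h => by
          have hda : d ≠ a := fun h' => h.2 (by rw [h'])
          refine ⟨hP.ca d h.1 hda, ?_⟩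
          rw [← hP4 d h.1 hda, Ua]
          exact h.2) b
      exact hPQ b this.1 hQ.base
    have UQ : ∀ d, d ∈ Q → (U0 d ↔ U0 b) := by
      intro d hdP
      by_contra hcon
      have := con0 (fun d => d ∈ Q ∧ ¬ (U0 d ↔ U0 b)) ⟨d, hdP, hcon⟩
        (fun d h => ⟨hQ.cf d h.1, by rw [Uf]; exact h.2⟩)
        (fun d h => by
          have hda : d ≠ b := fun h' => h.2 (by rw [h'])
          refine ⟨hQ.ca d h.1 hda, ?_⟩
          rw [← hQ4 d h.1 hda, Ua]
          exact h.2) a
      exact hPQ a hP.base this.1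
    obtain ⟨V, hV⟩ : ∃ V : D → Prop, ∀ d, V d ↔
        ((d ∉ P ∧ d ∉ Q ∧ U0 d) ∨ (d ∈ P ∧ U0 (α a)) ∨ (d ∈ Q ∧ U0 (α b))) :=
      ⟨_, fun _ => Iff.rfl⟩
    have VP : ∀ d, d ∈ P → (V d ↔ U0 (α a)) := by
      intro d h
      rw [hV]
      have h2 := hPQ d h
      tauto
    have VQ : ∀ d, d ∈ Q → (V d ↔ U0 (α b)) := by
      intro d h
      rw [hV]
      have h2 : d ∉ P := fun h' => hPQ d h' h
      tauto
    have VC : ∀ d, d ∉ P → d ∉ Q → (V d ↔ U0 d) := by
      intro d h h2
      rw [hV]
      tauto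
    have fP : ∀ d, f d ∈ P ↔ d ∈ P := fun d => ⟨fun h => by
      have := hP.cf _ (hP.cf _ h)
      rwa [hf.three] at this, hP.cf d⟩
    have fQ : ∀ d, f d ∈ Q ↔ d ∈ Q := fun d => ⟨fun h => by
      have := hQ.cf _ (hQ.cf _ h)
      rwa [hf.three] at this, hQ.cf d⟩
    have Vf : ∀ d, V (f d) ↔ V d := by
      intro d
      rw [hV, hV, fP, fQ, Uf]
    have Va : ∀ d, V (α d) ↔ V d := by
      intro d
      by_cases hdP : d ∈ P
      · by_cases hda : d = a
        · rw [hda, VP a hP.base, VC _ (fun h => v6 (Or.inl h)) (fun h => v6 (Or.inr h))]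
        · rw [VP d hdP, VP _ (hP.ca d hdP hda)]
      · by_cases hdQ : d ∈ Q
        · by_cases hdb : d = b
          · rw [hdb, VQ b hQ.base, VC _ (fun h => v7 (Or.inl h)) (fun h => v7 (Or.inr h))]
          · rw [VQ d hdQ, VQ _ (hQ.ca d hdQ hdb)]
        · by_cases h1 : α d ∈ P
          · have h2 : α d = a := by
              by_contra h3
              have h4 := hP.ca _ h1 h3
              rw [hinv] at h4
              exact hdP h4
            have h5 : d = α a := by rw [← h2, hinv]
            rw [h2, VP a hP.base, VC d hdP hdQ, h5]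
          · by_cases h1' : α d ∈ Q
            · have h2 : α d = b := by
                by_contra h3
                have h4 := hQ.ca _ h1' h3
                rw [hinv] at h4
                exact hdQ h4
              have h5 : d = α b := by rw [← h2, hinv]
              rw [h2, VQ b hQ.base, VC d hdP hdQ, h5]
            · have h6 : xch α a b d = α d := v5 d (fun h => hdP (h ▸ hP.base))
                (fun h => hdQ (h ▸ hQ.base))
                (fun h => h1 (by rw [h, hinv]; exact hP.base))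
                (fun h => h1' (by rw [h, hinv]; exact hQ.base))
              rw [VC _ h1 h1', VC d hdP hdQ, ← h6, Ua]
    have VV : ∀ d d', V d → V d' := fun d d' h =>
      con0 V ⟨d, h⟩ (fun x hx => (Vf x).2 hx) (fun x hx => (Va x).2 hx) d'
    have VV' : ∀ d d', V d ↔ V d' := fun d d' => ⟨VV d d', VV d' d⟩
    have ca : U0 b ↔ U0 (α a) := by
      have := Ua (α a)
      rwa [v4] at this
    have cb : U0 a ↔ U0 (α b) := by
      have := Ua (α b)
      rwa [v2] at this
    have cab : U0 (α a) ↔ U0 (α b) := by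
      rw [← VP a hP.base, ← VQ b hQ.base]
      exact VV' a b
    have key : ∀ d, U0 d ↔ U0 a := by
      intro d
      by_cases hdP : d ∈ P
      · exact UP d hdP
      · by_cases hdQ : d ∈ Q
        · rw [UQ d hdQ, ca, cab, cb]
        · rw [← VC d hdP hdQ, VV' d b, VQ b hQ.base, cb]
    exact (key d0).2 ((key d1).1 hd1)

theorem xch_leaf {f α : Perm D} (hf : TF f) (hα : PT f α []) {P Q : Set D} {a b : D}
    (hP : Pc f α P a) (hQ : Pc f α Q b) (hd : Disjoint P Q) (hab : α a ≠ b) (w : D) :
    Leaf f (xch α a b) w ↔ Leaf f α w := by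
  obtain ⟨v1, v2, v3, v4, v5, v6, v7⟩ := xch_val hα hP hQ hd hab
  have hinv := hα.inv
  have key : ∀ x, xch α a b x = f x ↔ α x = f x := by
    intro x
    by_cases h1 : x = a
    · rw [h1, v1]
      constructor
      · intro h
        exact absurd (Or.inl (h ▸ hP.cf _ hP.base)) v7
      · intro h
        exact absurd (Or.inl (h ▸ hP.cf _ hP.base)) v6
    · by_cases h2 : x = b
      · rw [h2, v3]
        constructor
        · intro h
          exact absurd (Or.inr (h ▸ hQ.cf _ hQ.base)) v6
        · intro h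
          exact absurd (Or.inr (h ▸ hQ.cf _ hQ.base)) v7
      · by_cases h3 : x = α a
        · rw [h3, v4]
          constructor
          · intro h
            have h4 := hQ.cf _ (hQ.cf _ hQ.base)
            rw [h, hf.three] at h4
            exact absurd (Or.inr h4) v6
          · intro h
            rw [hinv] at h
            have h4 := hP.cf _ (hP.cf _ hP.base)
            rw [h, hf.three] at h4
            exact absurd (Or.inl h4) v6
        · by_cases h4 : x = α b
          · rw [h4, v2]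
            constructor
            · intro h
              have h4 := hP.cf _ (hP.cf _ hP.base)
              rw [h, hf.three] at h4
              exact absurd (Or.inl h4) v7
            · intro h
              rw [hinv] at h
              have h4 := hQ.cf _ (hQ.cf _ hQ.base)
              rw [h, hf.three] at h4
              exact absurd (Or.inr h4) v7
          · rw [v5 x h1 h2 h3 h4]
  exact key (f w)

theorem xch_xch (α : Perm D) (a b : D) : xch (xch α a b) a b = α := by
  ext d
  have e : ∀ (β : Perm D) (x : D), xch β a b x = swap a b (β (swap a b x)) := fun _ _ => rfl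
  rw [e, e, swap_apply_self, swap_apply_self]

/-- a third piece stays a piece -/
theorem xch_pc {f α : Perm D} (hα : PT f α []) {P Q R : Set D} {a b c : D}
    (hP : Pc f α P a) (hQ : Pc f α Q b) (hR : Pc f α R c) (hd : Disjoint P Q)
    (hPR : Disjoint P R) (hQR : Disjoint Q R) (hab : α a ≠ b) (hac : α a ≠ c) (hbc : α b ≠ c) :
    Pc f (xch α a b) R c ∧ Pc f (xch α a b) P a ∧ Pc f (xch α a b) Q b ∧
    xch α a b c = α c := by
  obtain ⟨v1, v2, v3, v4, v5, v6, v7⟩ := xch_val hα hP hQ hd hab
  have hinv := hα.inv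
  have hPQ : ∀ x, x ∈ P → x ∉ Q := fun x h1 h2 => Set.disjoint_left.1 hd h1 h2
  have hPR' : ∀ x, x ∈ R → x ∉ P := fun x h1 h2 => Set.disjoint_left.1 hPR h2 h1
  have hQR' : ∀ x, x ∈ R → x ∉ Q := fun x h1 h2 => Set.disjoint_left.1 hQR h2 h1
  have ra : α a ∉ R := fun h => by
    have h2 := hR.ca _ h hac
    rw [hinv] at h2
    exact hPR' _ h2 hP.base
  have rb : α b ∉ R := fun h => by
    have h2 := hR.ca _ h hbc
    rw [hinv] at h2
    exact hQR' _ h2 hQ.base
  have vR : ∀ d, d ∈ R → xch α a b d = α d := fun d h =>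
    v5 d (fun h' => hPR' d h (h' ▸ hP.base)) (fun h' => hQR' d h (h' ▸ hQ.base))
      (fun h' => ra (h' ▸ h)) (fun h' => rb (h' ▸ h))
  refine ⟨⟨hR.base, hR.cf, ?_, ?_⟩, ⟨hP.base, hP.cf, ?_, ?_⟩, ⟨hQ.base, hQ.cf, ?_, ?_⟩, ?_⟩
  · intro d h1 h2
    rw [vR d h1]
    exact hR.ca d h1 h2
  · rw [vR c hR.base]
    exact hR.out
  · intro d h1 h2
    rw [v5 d h2 (fun h => hPQ d h1 (h ▸ hQ.base)) (fun h => v6 (Or.inl (h ▸ h1)))
      (fun h => v7 (Or.inl (h ▸ h1)))]
    exact hP.ca d h1 h2
  · rw [v1]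
    exact fun h => v7 (Or.inl h)
  · intro d h1 h2
    rw [v5 d (fun h => hPQ d (h ▸ hP.base) h1) h2 (fun h => v6 (Or.inr (h ▸ h1)))
      (fun h => v7 (Or.inr (h ▸ h1)))]
    exact hQ.ca d h1 h2
  · rw [v3]
    exact fun h => v6 (Or.inr h)
  · exact vR c hR.base

end HG39
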