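import Pool.Agent.H39.HG.Defs
import Pool.Agent.H39.HG.ZSwap
import Pool.Agent.H39.HG.ZCL
import Pool.Agent.H39.HG.GrPerm
import Pool.Agent.H39.HG.LabA
import Pool.Agent.H39.HG.Xch

/-!
[H39 HG XCHCYC]  (MP_bcc40c_pr)  Exchange of two pieces: the number of vertices does not change.
Setting and values: Xch.lean.
xch_cyc: (`σ = f * α`).  For a piece: `σ (α a) = f a ∈ P` and `σ` maps `P \ {a}` into `P`; so the `σ`-orbit
of `α a` stays in `P` until it reaches `a`: `SameCycle (α a) a` (if it never reached `a` it would be a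
cycle inside of `P`, but it contains `α a ∉ P`).  Cut `{a, α a}`: `+1`; afterwards `a` is in a cycle
contained in `P`.  Cut `{b, α b}`: `+1`, the cycle of `b` is contained in `Q`.  Glue `α a, b`: the cycle of `b`
is contained in `Q`, `α a ∉ Q`: `-1`; glue `α b, a`: the cycle of `a` is contained in `P`, `α b ∉ P`: `-1`.
(`f * α' = f * α * swap a (α a) * swap b (α b) * swap (α a) b * swap (α b) a`.)
pc_loop is the first statement of this argument.
-/

set_option autoImplicit false

namespace HG39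

open Equiv

variable {D : Type} [Fintype D] [DecidableEq D]

private theorem loop_gen {π : Perm D} {S : Set D} {b c : D} (hc : c ∉ S) (h1 : π c ∈ S)
    (h2 : ∀ d ∈ S, d ≠ b → π d ∈ S) : π.SameCycle b c := by
  by_contra hs
  have key : ∀ n : ℕ, (π ^ (n + 1)) c ∈ S := by
    intro n
    induction n with
    | zero =>
      rw [zero_add, pow_one]
      exact h1
    | succ n ih =>
      rw [pow_succ', Perm.mul_apply]
      refine h2 _ ih fun h => hs ?_
      rw [← h]
      exact (Perm.SameCycle.symm ⟨((n + 1 : ℕ) : ℤ), by rw [zpow_natCast]⟩)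
  have h3 : 0 < orderOf π := orderOf_pos π
  obtain ⟨m, hm⟩ : ∃ m, orderOf π = m + 1 := ⟨orderOf π - 1, by omega⟩
  have h4 := key m
  rw [← hm, pow_orderOf_eq_one, Perm.one_apply] at h4
  exact hc h4

private theorem stay {π : Perm D} {S : Set D} (h : ∀ d ∈ S, π d ∈ S) {a c : D} (ha : a ∈ S)
    (hc : c ∉ S) : ¬ π.SameCycle c a := by
  intro hs
  obtain ⟨n, hn⟩ := hs.symm.exists_nat_pow_eq
  have key : ∀ n : ℕ, (π ^ n) a ∈ S := by
    intro n
    induction n with
    | zero => exact ha
    | succ n ih =>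
      rw [pow_succ', Perm.mul_apply]
      exact h _ ih
  rw [← hn] at hc
  exact hc (key n)

private theorem nmem {S : Set D} {d c : D} (hd : d ∈ S) (hc : c ∉ S) : d ≠ c :=
  fun h => hc (h ▸ hd)

theorem pc_loop {f α : Perm D} (hf : TF f) (hα : PT f α []) {P : Set D} {a : D}
    (hP : Pc f α P a) : (f * α).SameCycle a (α a) := by
  refine loop_gen (S := P) hP.out ?_ fun d hd hda => ?_
  · rw [Perm.mul_apply, hα.inv]
    exact hP.cf a hP.base
  · rw [Perm.mul_apply]
    exact hP.cf _ (hP.ca d hd hda)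

theorem xch_cyc {f α : Perm D} (hf : TF f) (hα : PT f α []) {P Q : Set D} {a b : D}
    (hP : Pc f α P a) (hQ : Pc f α Q b) (hd : Disjoint P Q) (hab : α a ≠ b) :
    cyc (f * xch α a b) = cyc (f * α) := by
  obtain ⟨v1, v2, v3, v4, v5, v6, v7⟩ := xch_val hα hP hQ hd hab
  have haQ : a ∉ Q := fun h => Set.disjoint_left.1 hd hP.base h
  have hbP : b ∉ P := fun h => Set.disjoint_left.1 hd h hQ.base
  have haP' : α a ∉ P := fun h => v6 (Or.inl h)
  have haQ' : α a ∉ Q := fun h => v6 (Or.inr h)
  have hbP' : α b ∉ P := fun h => v7 (Or.inl h)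
  have hbQ' : α b ∉ Q := fun h => v7 (Or.inr h)
  have n1 : a ≠ b := fun h => hbP (h ▸ hP.base)
  have n2 : a ≠ α a := fun h => haP' (h ▸ hP.base)
  have n3 : a ≠ α b := fun h => hbP' (h ▸ hP.base)
  have n4 : b ≠ α b := fun h => hbQ' (h ▸ hQ.base)
  have n5 : α a ≠ α b := fun h => n1 (α.injective h)
  have key : f * xch α a b = f * α * swap a (α a) * swap b (α b) * swap (α a) b *
      swap (α b) a := by
    refine Equiv.ext fun d => ?_
    by_cases h1 : d = a
    · subst h1
      rw [Perm.mul_apply, v1]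
      simp only [Perm.mul_apply]
      rw [swap_apply_right, swap_apply_of_ne_of_ne n5.symm n4.symm, swap_apply_right,
        swap_apply_of_ne_of_ne n1.symm hab.symm]
    · by_cases h2 : d = b
      · subst h2
        rw [Perm.mul_apply, v3]
        simp only [Perm.mul_apply]
        rw [swap_apply_of_ne_of_ne n4 n1.symm, swap_apply_right,
          swap_apply_of_ne_of_ne hab n5, swap_apply_right]
      · by_cases h3 : d = α a
        · subst h3
          rw [Perm.mul_apply, v4]
          simp only [Perm.mul_apply]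
          rw [swap_apply_of_ne_of_ne n5 n2.symm, swap_apply_left, swap_apply_left,
            swap_apply_of_ne_of_ne n3.symm n5.symm, hα.inv]
        · by_cases h4 : d = α b
          · subst h4
            rw [Perm.mul_apply, v2]
            simp only [Perm.mul_apply]
            rw [swap_apply_left, swap_apply_of_ne_of_ne n2 n1, swap_apply_of_ne_of_ne n1 n3,
              swap_apply_left, hα.inv]
          · rw [Perm.mul_apply, v5 d h1 h2 h3 h4]
            simp only [Perm.mul_apply]
            rw [swap_apply_of_ne_of_ne h4 h1, swap_apply_of_ne_of_ne h3 h2,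
              swap_apply_of_ne_of_ne h2 h4, swap_apply_of_ne_of_ne h1 h3]
  rw [key]
  have sP : ∀ d ∈ P, d ≠ a → (f * α) d ∈ P := fun d hdP hda => hP.cf _ (hP.ca d hdP hda)
  have sQ : ∀ d ∈ Q, d ≠ b → (f * α) d ∈ Q := fun d hdQ hdb => hQ.cf _ (hQ.ca d hdQ hdb)
  have c1 := cyc_swap_same (f * α) a (α a) n2 (pc_loop hf hα hP)
  have p1 : ∀ d ∈ P, (f * α * swap a (α a)) d ∈ P := by
    intro d hdP
    rw [Perm.mul_apply]
    by_cases h1 : d = a
    · rw [h1, swap_apply_left, Perm.mul_apply, hα.inv]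
      exact hP.cf a hP.base
    · rw [swap_apply_of_ne_of_ne h1 (nmem hdP haP')]
      exact sP d hdP h1
  have q1 : ∀ d ∈ Q, d ≠ b → (f * α * swap a (α a)) d ∈ Q := by
    intro d hdQ hdb
    rw [Perm.mul_apply, swap_apply_of_ne_of_ne (nmem hdQ haQ) (nmem hdQ haQ')]
    exact sQ d hdQ hdb
  have q1' : (f * α * swap a (α a)) (α b) ∈ Q := by
    rw [Perm.mul_apply, swap_apply_of_ne_of_ne n3.symm n5.symm, Perm.mul_apply, hα.inv]
    exact hQ.cf b hQ.base
  generalize f * α * swap a (α a) = π1 at *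
  have c2 := cyc_swap_same π1 b (α b) n4 (loop_gen hbQ' q1' q1)
  have p2 : ∀ d ∈ P, (π1 * swap b (α b)) d ∈ P := by
    intro d hdP
    rw [Perm.mul_apply, swap_apply_of_ne_of_ne (nmem hdP hbP) (nmem hdP hbP')]
    exact p1 d hdP
  have q2 : ∀ d ∈ Q, (π1 * swap b (α b)) d ∈ Q := by
    intro d hdQ
    rw [Perm.mul_apply]
    by_cases h1 : d = b
    · rw [h1, swap_apply_left]
      exact q1'
    · rw [swap_apply_of_ne_of_ne h1 (nmem hdQ hbQ')]
      exact q1 d hdQ h1
  generalize π1 * swap b (α b) = π2 at *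
  have c3 := cyc_swap_diff π2 (α a) b (stay q2 hQ.base haQ')
  have p3 : ∀ d ∈ P, (π2 * swap (α a) b) d ∈ P := by
    intro d hdP
    rw [Perm.mul_apply, swap_apply_of_ne_of_ne (nmem hdP haP') (nmem hdP hbP)]
    exact p2 d hdP
  generalize π2 * swap (α a) b = π3 at *
  have c4 := cyc_swap_diff π3 (α b) a (stay p3 hP.base hbP')
  omega

end HG39
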