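import Pool.Agent.H39.HG.Defs
import Pool.Agent.H39.HG.GrPerm
import Pool.Agent.H39.HG.LabBasic
import Pool.Agent.H39.HG.GraphA
import Pool.Agent.H39.HG.GraphLab
import Pool.Agent.H39.HG.Xch
import Pool.Agent.H39.HG.XchCyc

/-!
[H39 HG XCHDST]  (MP_bcc40c_pr)  Exchange of two pieces: distances in the core do not change.

Notation as in Xch.lean; core `C = (P ∪ Q)ᶜ`.
xch_le: for `d0 ∈ C` and `d ∈ C`: `dst f α d0 d ≤ dst f α' d0 d`.  Let `φ x = dst f α d0 x` for `x ∈ C`,
`φ x = dst f α d0 b` for `x ∈ P` (the piece `P` sits now at the place of `b`) and `φ x = dst f α d0 a` for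
`x ∈ Q`.  Apply dst_lip for `α'`: `φ (f (α' x)) = φ x`: note first that `a` and `α a` start at the same
vertex of `α` (pc_loop, XchCyc.lean), same for `b`.  `x ∈ C`, `x ≠ α a, α b`: `α' x = α x ∈ C`, `f
(α x) = (f * α) x ∈ C`, same vertex.  `x = α b`: `α' x = a`, `f a ∈ P`: `φ = dst d0 b = dst d0 (α b)`.
`x = a`: `α' a = α b`, `f (α b) ∈ C`, `φ (f (α b)) = dst d0 (f (α b))`, and `f (α b) = (f * α) b` is the vertex
of `b`: equal to `φ a = dst d0 b`.  Similarly for `α a`, `b`.  `x ∈ P`, `x ≠ a`: `α' x = α x ∈ P`: constant.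
Lipschitz: `x ∈ C`: `f x ∈ C`, dst_f; constant on `P`, `Q`.
The opposite inequality: apply xch_le to `α'` and the pieces `P` (base `a`), `Q` (base `b`), with `xch_xch`.
xch_dst_base: `dst f α' a b = dst f α a b`: vertex of `a` in `α'` is the vertex of `α' a = α b ∈ C` (pc_loop
for `α'`), of `b` is that of `α a`; `dst f α' (α b) (α a) = dst f α (α b) (α a) = dst f α b a`.
xch_dst_ext: for `d ∈ C`: `dst f α' a d = dst f α b d`.
-/

set_option autoImplicit false

namespace HG39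

open Equiv

variable {D : Type} [Fintype D] [DecidableEq D]

omit [Fintype D] [DecidableEq D] in
private theorem xd_nl {f α : Perm D} (hα : PT f α []) (d : D) : α d ≠ d := by
  intro h
  have h1 := (hα.leg d).1 h
  simp [tri] at h1

omit [Fintype D] [DecidableEq D] in
private theorem xd_fc {f α : Perm D} (hf : TF f) {P : Set D} {a : D} (hP : Pc f α P a) {x : D}
    (hx : x ∉ P) : f x ∉ P := by
  intro h
  apply hx
  have h1 := hP.cf _ (hP.cf _ h)
  rwa [hf.three] at h1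

private theorem xd_pc {f α : Perm D} (hα : PT f α []) {P Q : Set D} {a b : D}
    (hP : Pc f α P a) (hQ : Pc f α Q b) (hd : Disjoint P Q) (hab : α a ≠ b) :
    Pc f (xch α a b) P a ∧ Pc f (xch α a b) Q b ∧ xch α a b a ≠ b := by
  obtain ⟨v1, v2, v3, v4, v5, v6, v7⟩ := xch_val hα hP hQ hd hab
  have hPQ : ∀ x, x ∈ P → x ∉ Q := fun x h1 h2 => Set.disjoint_left.1 hd h1 h2
  refine ⟨⟨hP.base, hP.cf, ?_, ?_⟩, ⟨hQ.base, hQ.cf, ?_, ?_⟩, ?_⟩
  · intro d h1 h2
    rw [v5 d h2 (fun h => hPQ d h1 (h ▸ hQ.base)) (fun h => v6 (Or.inl (h ▸ h1)))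
      (fun h => v7 (Or.inl (h ▸ h1)))]
    exact hP.ca d h1 h2
  · rw [v1]
    exact fun h => v7 (Or.inl h)
  · intro d h1 h2
    rw [v5 d (fun h => hPQ d (h ▸ hP.base) h1) h2 (fun h => v6 (Or.inr (h ▸ h1)))
      (fun h => v7 (Or.inr (h ▸ h1)))]
    exact hQ.ca d h1 h2
  · rw [v3]
    exact fun h => v6 (Or.inr h)
  · rw [v1]
    exact xd_nl hα b

private theorem xd_le {f α : Perm D} (hf : TF f) (hα : PT f α []) {P Q : Set D} {a b : D}
    (hP : Pc f α P a) (hQ : Pc f α Q b) (hd : Disjoint P Q) (hab : α a ≠ b) (d0 d : D)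
    (h1 : d0 ∉ P ∪ Q) (h2 : d ∉ P ∪ Q) : dst f α d0 d ≤ dst f (xch α a b) d0 d := by
  classical
  obtain ⟨v1, v2, v3, v4, v5, v6, v7⟩ := xch_val hα hP hQ hd hab
  have hQP : ∀ x, x ∈ Q → x ∉ P := fun x h1 h2 => Set.disjoint_left.1 hd h2 h1
  obtain ⟨φ, hφ⟩ : ∃ φ : D → ℤ, ∀ x, φ x = if x ∈ P then (dst f α d0 b : ℤ) else
      if x ∈ Q then (dst f α d0 a : ℤ) else dst f α d0 x := ⟨_, fun _ => rfl⟩
  have φP : ∀ x, x ∈ P → φ x = dst f α d0 b := by
    intro x hx
    rw [hφ, if_pos hx]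
  have φQ : ∀ x, x ∈ Q → φ x = dst f α d0 a := by
    intro x hx
    rw [hφ, if_neg (hQP x hx), if_pos hx]
  have φC : ∀ x, x ∉ P → x ∉ Q → φ x = dst f α d0 x := by
    intro x hx hx'
    rw [hφ, if_neg hx, if_neg hx']
  have hinv := hα.inv
  have F1 : ∀ x, dst f α d0 (f (α x)) = dst f α d0 x := by
    intro x
    refine dst_congr f α d0 _ _ ?_
    have h : (f * α).SameCycle x ((f * α) x) := ⟨1, by simp⟩
    exact h.symm
  have F3a : dst f α d0 (α a) = dst f α d0 a := dst_congr f α d0 _ _ (pc_loop hf hα hP).symm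
  have F3b : dst f α d0 (α b) = dst f α d0 b := dst_congr f α d0 _ _ (pc_loop hf hα hQ).symm
  have H1 : ∀ x, φ (f (xch α a b x)) = φ x := by
    intro x
    by_cases hxP : x ∈ P
    · by_cases hxa : x = a
      · rw [hxa, v1, φP a hP.base, φC _ (xd_fc hf hP fun h => v7 (Or.inl h))
          (xd_fc hf hQ fun h => v7 (Or.inr h)), F1]
      · rw [v5 x hxa (fun h => hQP x (h ▸ hQ.base) hxP) (fun h => v6 (Or.inl (h ▸ hxP)))
          (fun h => v7 (Or.inl (h ▸ hxP))), φP _ (hP.cf _ (hP.ca x hxP hxa)), φP x hxP]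
    · by_cases hxQ : x ∈ Q
      · by_cases hxb : x = b
        · rw [hxb, v3, φQ b hQ.base, φC _ (xd_fc hf hP fun h => v6 (Or.inl h))
            (xd_fc hf hQ fun h => v6 (Or.inr h)), F1]
        · rw [v5 x (fun h => hxP (h ▸ hP.base)) hxb (fun h => v6 (Or.inr (h ▸ hxQ)))
            (fun h => v7 (Or.inr (h ▸ hxQ))), φQ _ (hQ.cf _ (hQ.ca x hxQ hxb)), φQ x hxQ]
      · rw [φC x hxP hxQ]
        by_cases hxa : x = α a
        · rw [hxa, v4, φQ _ (hQ.cf _ hQ.base), F3a]
        · by_cases hxb : x = α b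
          · rw [hxb, v2, φP _ (hP.cf _ hP.base), F3b]
          · rw [v5 x (fun h => hxP (h ▸ hP.base)) (fun h => hxQ (h ▸ hQ.base)) hxa hxb]
            have c1 : α x ∉ P := by
              intro h
              by_cases h3 : α x = a
              · exact hxa (by rw [← h3, hinv])
              · have h4 := hP.ca _ h h3
                rw [hinv] at h4
                exact hxP h4
            have c2 : α x ∉ Q := by
              intro h
              by_cases h3 : α x = b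
              · exact hxb (by rw [← h3, hinv])
              · have h4 := hQ.ca _ h h3
                rw [hinv] at h4
                exact hxQ h4
            rw [φC _ (xd_fc hf hP c1) (xd_fc hf hQ c2), F1]
  have H2 : ∀ x, φ (f x) ≤ φ x + 1 := by
    intro x
    by_cases hxP : x ∈ P
    · rw [φP _ (hP.cf _ hxP), φP x hxP]
      omega
    · by_cases hxQ : x ∈ Q
      · rw [φQ _ (hQ.cf _ hxQ), φQ x hxQ]
        omega
      · rw [φC x hxP hxQ, φC _ (xd_fc hf hP hxP) (xd_fc hf hQ hxQ)]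
        have := dst_f hf hα d0 x
        omega
  have h3 := dst_lip hf (xch_PT hf hα hP hQ hd hab) φ H1 H2 d0 d
  rw [φC d (fun h => h2 (Or.inl h)) (fun h => h2 (Or.inr h)),
    φC d0 (fun h => h1 (Or.inl h)) (fun h => h1 (Or.inr h)),
    dst_self f α d0 d0 (Equiv.Perm.SameCycle.refl _ _)] at h3
  omega

theorem xch_dst {f α : Perm D} (hf : TF f) (hα : PT f α []) {P Q : Set D} {a b : D}
    (hP : Pc f α P a) (hQ : Pc f α Q b) (hd : Disjoint P Q) (hab : α a ≠ b) (d d' : D)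
    (h1 : d ∉ P ∪ Q) (h2 : d' ∉ P ∪ Q) : dst f (xch α a b) d d' = dst f α d d' := by
  apply le_antisymm
  · obtain ⟨hP', hQ', hab'⟩ := xd_pc hα hP hQ hd hab
    have h3 := xd_le hf (xch_PT hf hα hP hQ hd hab) hP' hQ' hd hab' d d' h1 h2
    rwa [xch_xch] at h3
  · exact xd_le hf hα hP hQ hd hab d d' h1 h2

theorem xch_dst_base {f α : Perm D} (hf : TF f) (hα : PT f α []) {P Q : Set D} {a b : D}
    (hP : Pc f α P a) (hQ : Pc f α Q b) (hd : Disjoint P Q) (hab : α a ≠ b) (d : D)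
    (h1 : d ∉ P ∪ Q) : dst f (xch α a b) a d = dst f α b d ∧
    dst f (xch α a b) b d = dst f α a d := by
  obtain ⟨v1, v2, v3, v4, v5, v6, v7⟩ := xch_val hα hP hQ hd hab
  obtain ⟨hP', hQ', hab'⟩ := xd_pc hα hP hQ hd hab
  have hα' := xch_PT hf hα hP hQ hd hab
  have la := pc_loop hf hα' hP'
  have lb := pc_loop hf hα' hQ'
  rw [v1] at la
  rw [v3] at lb
  constructor
  · rw [dst_comm, dst_congr f (xch α a b) d _ _ la, xch_dst hf hα hP hQ hd hab d (α b) h1 v7,
      dst_congr f α d _ _ (pc_loop hf hα hQ).symm, dst_comm]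
  · rw [dst_comm, dst_congr f (xch α a b) d _ _ lb, xch_dst hf hα hP hQ hd hab d (α a) h1 v6,
      dst_congr f α d _ _ (pc_loop hf hα hP).symm, dst_comm]

end HG39
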