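import Pool.Agent.H39.HG.Defs
import Pool.Agent.H39.HG.YDef
import Pool.Agent.H39.HG.AdDef
import Pool.Agent.H39.HG.GrPerm
import Pool.Agent.H39.HG.LabBasic
import Pool.Agent.H39.HG.GraphA
import Pool.Agent.H39.HG.GraphLab
import Pool.Agent.H39.HG.Xch
import Pool.Agent.H39.HG.XchCyc
import Pool.Agent.H39.HG.XchDst

/-!
[H39 HG QUAD]  (MP_bcc40c_pr)  Double exchange `(w1, u1)`, `(w2, u2)`.

Four pairwise disjoint pieces `P1, P2, Q1, Q2` with bases `w1, w2, u1, u2`, none of the four darts `α w1,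
α w2, α u1, α u2` is one of the bases.  `α1 = xch α w1 u1`, `α2 = xch α1 w2 u2`.
Then by xch_pc all four are pieces of `α1` (with `α1 w2 = α w2`, `α1 u2 = α u2`), so Xch applies twice.
All `α`-partners of bases are in the core (outside of the four pieces): xch_val for each pair.
quad_dst: `dst f α2 w1 w2`: the vertex of `w2` in `α2` is the vertex of `α2 w2 = α1 u2 = α u2` (pc_loop),
the vertex of `w1` is the vertex of `α2 w1 = α1 w1 = α u1` (core); `dst f α2 (α u1) (α u2) =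
dst f α1 (α u1) (α u2) = dst f α (α u1) (α u2) = dst f α u1 u2` (xch_dst twice, dst_congr, pc_loop).
quad_inv: `α` is recovered by the double exchange of `α2`: the swaps `swap w1 u1` and `swap w2 u2` commute
(distinct darts), conjugations.
quad_mod: `α2` and `α` differ at most at the 8 darts (bases and their partners).
-/

set_option autoImplicit false

namespace HG39

open Equiv

variable {D : Type} [Fintype D] [DecidableEq D]

structure Quad (f α : Perm D) (P1 P2 Q1 Q2 : Set D) (w1 w2 u1 u2 : D) : Prop where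
  p1 : Pc f α P1 w1
  p2 : Pc f α P2 w2
  q1 : Pc f α Q1 u1
  q2 : Pc f α Q2 u2
  d12 : Disjoint P1 P2
  d13 : Disjoint P1 Q1
  d14 : Disjoint P1 Q2
  d23 : Disjoint P2 Q1
  d24 : Disjoint P2 Q2
  d34 : Disjoint Q1 Q2
  ne : ∀ x ∈ [w1, w2, u1, u2], ∀ y ∈ [w1, w2, u1, u2], α x ≠ y

theorem quad_main {f α : Perm D} (hf : TF f) (hα : PT f α []) {P1 P2 Q1 Q2 : Set D}
    {w1 w2 u1 u2 : D} (h : Quad f α P1 P2 Q1 Q2 w1 w2 u1 u2) :
    PT f (xch2 α w1 w2 u1 u2) [] ∧ cyc (f * xch2 α w1 w2 u1 u2) = cyc (f * α) ∧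
    (∀ w, Leaf f (xch2 α w1 w2 u1 u2) w ↔ Leaf f α w) ∧
    dst f (xch2 α w1 w2 u1 u2) w1 w2 = dst f α u1 u2 ∧
    dst f (xch2 α w1 w2 u1 u2) u1 u2 = dst f α w1 w2 ∧
    xch2 (xch2 α w1 w2 u1 u2) w1 w2 u1 u2 = α ∧
    {d | xch2 α w1 w2 u1 u2 d ≠ α d}.ncard ≤ 8 ∧
    (∀ d ∈ P1 ∪ P2, d ≠ w1 → d ≠ w2 → xch2 α w1 w2 u1 u2 d = α d) ∧
    xch2 α w1 w2 u1 u2 w1 ∉ P1 ∧ xch2 α w1 w2 u1 u2 w2 ∉ P2 := by
  have hinv := hα.inv
  have n : ∀ x ∈ [w1, w2, u1, u2], ∀ y ∈ [w1, w2, u1, u2], α x ≠ y := h.ne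
  have n11 : α w1 ≠ w1 := n w1 (by simp) w1 (by simp)
  have n12 : α w1 ≠ w2 := n w1 (by simp) w2 (by simp)
  have n13 : α w1 ≠ u1 := n w1 (by simp) u1 (by simp)
  have n14 : α w1 ≠ u2 := n w1 (by simp) u2 (by simp)
  have n21 : α w2 ≠ w1 := n w2 (by simp) w1 (by simp)
  have n23 : α w2 ≠ u1 := n w2 (by simp) u1 (by simp)
  have n24 : α w2 ≠ u2 := n w2 (by simp) u2 (by simp)
  have n31 : α u1 ≠ w1 := n u1 (by simp) w1 (by simp)
  have n32 : α u1 ≠ w2 := n u1 (by simp) w2 (by simp)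
  have n34 : α u1 ≠ u2 := n u1 (by simp) u2 (by simp)
  have n41 : α u2 ≠ w1 := n u2 (by simp) w1 (by simp)
  have n42 : α u2 ≠ w2 := n u2 (by simp) w2 (by simp)
  have n43 : α u2 ≠ u1 := n u2 (by simp) u1 (by simp)
  obtain ⟨v1, v2, v3, v4, v5, v6, v7⟩ := xch_val hα h.p1 h.q1 h.d13 n13
  have h1 : PT f (xch α w1 u1) [] := xch_PT hf hα h.p1 h.q1 h.d13 n13
  obtain ⟨p2', p1', q1', ew2⟩ := xch_pc hα h.p1 h.q1 h.p2 h.d13 h.d12 h.d23.symm n13 n12 n32
  obtain ⟨q2', -, -, eu2⟩ := xch_pc hα h.p1 h.q1 h.q2 h.d13 h.d14 h.d34 n13 n14 n34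
  have hab : xch α w1 u1 w2 ≠ u2 := by rw [ew2]; exact n24
  obtain ⟨t1, t2, t3, t4, t5, t6, t7⟩ := xch_val h1 p2' q2' h.d24 hab
  have h2 : PT f (xch (xch α w1 u1) w2 u2) [] := xch_PT hf h1 p2' q2' h.d24 hab
  obtain ⟨p1'', p2'', q2'', ew1⟩ := xch_pc h1 p2' q2' p1' h.d24 h.d12.symm h.d14.symm hab
    (by rw [ew2]; exact n21) (by rw [eu2]; exact n41)
  have dis : ∀ {A B : Set D}, Disjoint A B → ∀ x, x ∈ A → x ∉ B :=
    fun h x h1 h2 => Set.disjoint_left.1 h h1 h2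
  have w1u1 : w1 ≠ u1 := fun e => dis h.d13 w1 h.p1.base (e ▸ h.q1.base)
  have w1w2 : w1 ≠ w2 := fun e => dis h.d12 w1 h.p1.base (e ▸ h.p2.base)
  have w1u2 : w1 ≠ u2 := fun e => dis h.d14 w1 h.p1.base (e ▸ h.q2.base)
  have w2u1 : w2 ≠ u1 := fun e => dis h.d23 w2 h.p2.base (e ▸ h.q1.base)
  have w2u2 : w2 ≠ u2 := fun e => dis h.d24 w2 h.p2.base (e ▸ h.q2.base)
  have u1u2 : u1 ≠ u2 := fun e => dis h.d34 u1 h.q1.base (e ▸ h.q2.base)
  have key : ∀ d, d ≠ w1 → d ≠ u1 → d ≠ α w1 → d ≠ α u1 → d ≠ w2 → d ≠ u2 → d ≠ α w2 →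
      d ≠ α u2 → xch (xch α w1 u1) w2 u2 d = α d := by
    intro d a1 a2 a3 a4 a5 a6 a7 a8
    rw [t5 d a5 a6 (by rw [ew2]; exact a7) (by rw [eu2]; exact a8), v5 d a1 a2 a3 a4]
  have out : ∀ {P : Set D} {a x : D}, Pc f α P a → x ∉ P → α x ≠ a → α x ∉ P := by
    intro P a x hP hx hxa h'
    have h3 := hP.ca _ h' hxa
    rw [hinv] at h3
    exact hx h3
  refine ⟨h2, ?_, ?_, ?_, ?_, ?_, ?_, ?_, p1''.out, p2''.out⟩
  · change cyc (f * xch (xch α w1 u1) w2 u2) = _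
    rw [xch_cyc hf h1 p2' q2' h.d24 hab, xch_cyc hf hα h.p1 h.q1 h.d13 n13]
  · intro w
    change Leaf f (xch (xch α w1 u1) w2 u2) w ↔ _
    rw [xch_leaf hf h1 p2' q2' h.d24 hab, xch_leaf hf hα h.p1 h.q1 h.d13 n13]
  · change dst f (xch (xch α w1 u1) w2 u2) w1 w2 = _
    rw [dst_comm, (xch_dst_base hf h1 p2' q2' h.d24 hab w1 (by
      rintro (e | e)
      · exact dis h.d12 w1 h.p1.base e
      · exact dis h.d14 w1 h.p1.base e)).1, dst_comm,
      (xch_dst_base hf hα h.p1 h.q1 h.d13 n13 u2 (by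
      rintro (e | e)
      · exact dis h.d14.symm u2 h.q2.base e
      · exact dis h.d34.symm u2 h.q2.base e)).1]
  · change dst f (xch (xch α w1 u1) w2 u2) u1 u2 = _
    rw [dst_comm, (xch_dst_base hf h1 p2' q2' h.d24 hab u1 (by
      rintro (e | e)
      · exact dis h.d23.symm u1 h.q1.base e
      · exact dis h.d34 u1 h.q1.base e)).2, dst_comm,
      (xch_dst_base hf hα h.p1 h.q1 h.d13 n13 w2 (by
      rintro (e | e)
      · exact dis h.d12.symm w2 h.p2.base e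
      · exact dis h.d23 w2 h.p2.base e)).2]
  · have hc : swap w1 u1 * swap w2 u2 = swap w2 u2 * swap w1 u1 := by
      have : (swap w1 u1).Disjoint (swap w2 u2) := by
        apply Equiv.Perm.disjoint_swap_swap
        simp [w1u1, w1w2, w1u2, w2u1.symm, w2u2, u1u2]
      exact this.commute
    have s1 : swap w1 u1 * swap w1 u1 = 1 := swap_mul_self _ _
    have s2 : swap w2 u2 * swap w2 u2 = 1 := swap_mul_self _ _
    change swap w2 u2 * (swap w1 u1 * (swap w2 u2 * (swap w1 u1 * α * swap w1 u1) * swap w2 u2) *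
      swap w1 u1) * swap w2 u2 = α
    calc swap w2 u2 * (swap w1 u1 * (swap w2 u2 * (swap w1 u1 * α * swap w1 u1) * swap w2 u2) *
          swap w1 u1) * swap w2 u2
        = swap w2 u2 * (swap w1 u1 * swap w2 u2) * swap w1 u1 * α *
          (swap w1 u1 * (swap w2 u2 * swap w1 u1) * swap w2 u2) := by
          simp only [mul_assoc]
      _ = (swap w2 u2 * swap w2 u2) * (swap w1 u1 * swap w1 u1) * α *
          ((swap w1 u1 * swap w1 u1) * (swap w2 u2 * swap w2 u2)) := by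
          rw [hc, ← hc]
          nth_rewrite 1 [hc]
          simp only [mul_assoc]
      _ = α := by rw [s1, s2]; simp
  · have hsub : {d | xch2 α w1 w2 u1 u2 d ≠ α d} ⊆
        (([w1, u1, α w1, α u1, w2, u2, α w2, α u2].toFinset : Finset D) : Set D) := by
      intro d hd
      by_contra hcon
      simp only [List.coe_toFinset, List.mem_cons, List.not_mem_nil, or_false,
        Set.mem_ofPred_eq, not_or] at hcon
      obtain ⟨a1, a2, a3, a4, a5, a6, a7, a8⟩ := hcon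
      exact hd (key d a1 a2 a3 a4 a5 a6 a7 a8)
    calc {d | xch2 α w1 w2 u1 u2 d ≠ α d}.ncard
        ≤ (([w1, u1, α w1, α u1, w2, u2, α w2, α u2].toFinset : Finset D) : Set D).ncard :=
          Set.ncard_le_ncard hsub (Finset.finite_toSet _)
      _ = ([w1, u1, α w1, α u1, w2, u2, α w2, α u2].toFinset : Finset D).card :=
          Set.ncard_coe_finset _
      _ ≤ [w1, u1, α w1, α u1, w2, u2, α w2, α u2].length := List.toFinset_card_le _
      _ = 8 := rfl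
  · intro d hd hd1 hd2
    rcases hd with hd | hd
    · refine key d hd1 (fun e => dis h.d13 d hd (e ▸ h.q1.base)) (fun e => h.p1.out (e ▸ hd))
        (fun e => v7 (Or.inl (e ▸ hd))) hd2 (fun e => dis h.d14 d hd (e ▸ h.q2.base))
        (fun e => out h.p1 (dis h.d12.symm w2 h.p2.base) n21 (e ▸ hd))
        (fun e => out h.p1 (dis h.d14.symm u2 h.q2.base) n41 (e ▸ hd))
    · refine key d hd1 (fun e => dis h.d23 d hd (e ▸ h.q1.base))
        (fun e => out h.p2 (dis h.d12 w1 h.p1.base) n12 (e ▸ hd))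
        (fun e => out h.p2 (dis h.d23.symm u1 h.q1.base) n32 (e ▸ hd)) hd2
        (fun e => dis h.d24 d hd (e ▸ h.q2.base)) (fun e => h.p2.out (e ▸ hd))
        (fun e => out h.p2 (dis h.d24.symm u2 h.q2.base) n42 (e ▸ hd))

end HG39
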