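import Pool.Agent.H39.HG.Defs
import Pool.Agent.H39.HG.YDef
import Pool.Agent.H39.HG.AdDef
import Pool.Agent.H39.HG.GrPerm
import Pool.Agent.H39.HG.LabBasic
import Pool.Agent.H39.HG.SlcBasic
import Pool.Agent.H39.HG.GraphA
import Pool.Agent.H39.HG.TenLoop
import Pool.Agent.H39.HG.TenMult
import Pool.Agent.H39.HG.TenDisj
import Pool.Agent.H39.HG.Xch
import Pool.Agent.H39.HG.XchCyc
import Pool.Agent.H39.HG.XchDst
import Pool.Agent.H39.HG.Quad

/-!
[H39 HG QUADTEN]  (MP_bcc40c_pr)  Double exchange of two tentacles and two leaf triangles.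

PROOF.  `P_i` (darts of the tentacle at `w_i`) are pieces (ten_closed, `out`, tri_closed); `Q_i = {u_i, f u_i,
f (f u_i)}` are pieces: `α (f u) = f (f u)`; `α u ∉ Q`: `α u ≠ u`; `α u = f u` would give `u = α (f u) =
f (f u)`; `α u = f (f u) = α (f u)` would give `u = f u`.  Disjoint: `P1, P2`: ten_disj; `Q_i ∩ P_j = ∅` (both
closed under `f`, `u_i ∉ P_j`); `Q1 ∩ Q2 = ∅`: otherwise `u2 ∈ Q1`, `u2 ≠ u1`; `u2 = f u1`: `α (f u2) = f (f u2)`
says `α (f (f u1)) = u1`, but it is `f u1`; `u2 = f (f u1)`: `α (f u2) = α u1` and `f (f u2) = f u1`, so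
`α u1 = f u1`, excluded above.  `ne`: `α w1 ≠ w2`: otherwise `P1 ∪ P2` would be closed under `f, α`, hence
everything: `card D ≤ 12 K - 6` (ten_size); `α w_i ≠ u_j` and `α u_i ≠ w_j`, `α u1 ≠ u2`, `α u2 ≠ u1`: from
`Ad`; `α x ≠ x`.  So Quad holds (Quad.lean) and quad_main applies.  lfc: quad_main.  `w1, w2 ∈ TB` of the new
map: ten_alpha (the new map agrees with `α` on `P_i` except at `w_i`, `P1`, `P2` disjoint).  The numbers of
tentacles: ten_local and the 8 changed darts, in both directions.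
-/

set_option autoImplicit false

namespace HG39

open Equiv

variable {D : Type} [Fintype D] [DecidableEq D]

omit [Fintype D] [DecidableEq D] in
private theorem qt_nl {f α : Perm D} (hα : PT f α []) (d : D) : α d ≠ d := by
  intro h
  have h1 := (hα.leg d).1 h
  simp [tri] at h1

private theorem qt_pc {f α : Perm D} {ℓ : D → ℤ} (hf : TF f) (hα : PT f α []) {r : ℕ} {w : D}
    {T : Tr} {bs : List D} {lv : List (D × Bool)} {pr : List (D × D)} {As Bs : List D}
    (h : Ten f α ℓ r w T bs lv pr As Bs) : Pc f α {d | d ∈ tri f (w :: bs)} w := by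
  refine ⟨?_, ?_, ?_, h.out⟩
  · exact (mem_tri f _ _).2 ⟨w, by simp, Or.inl rfl⟩
  · intro d hd
    exact (tri_closed hf _ d).2 hd
  · intro d hd hdw
    exact (ten_closed hf hα h d hd hdw).1

omit [Fintype D] [DecidableEq D] in
private theorem qt_leaf {f α : Perm D} (hf : TF f) (hα : PT f α []) {u : D}
    (hu : Leaf f α u) : Pc f α {u, f u, f (f u)} u := by
  have hinv := hα.inv
  have hu' : α (f u) = f (f u) := hu
  have hu'' : α (f (f u)) = f u := by rw [← hu', hinv]
  refine ⟨Or.inl rfl, ?_, ?_, ?_⟩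
  · rintro d (rfl | rfl | rfl)
    · exact Or.inr (Or.inl rfl)
    · exact Or.inr (Or.inr rfl)
    · rw [hf.three]
      exact Or.inl rfl
  · rintro d (rfl | rfl | rfl) hd
    · exact absurd rfl hd
    · rw [hu']
      exact Or.inr (Or.inr rfl)
    · rw [hu'']
      exact Or.inr (Or.inl rfl)
  · rintro (e | e | e)
    · exact qt_nl hα u e
    · have h1 : u = f (f u) := by
        have := congrArg α e
        rwa [hinv, hu'] at this
      have h2 := congrArg f h1
      rw [hf.three] at h2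
      exact hf.nf u h2
    · have h1 : α u = α (f u) := by rw [hu']; exact e
      exact hf.nf u (α.injective h1).symm

theorem quad_ten {f α : Perm D} (hf : TF f) (hα : PT f α []) {r K : ℕ}
    (hN : 12 * K < Fintype.card D) (F : Finset Tr) (hF : ∀ T ∈ F, Adm r K T)
    {w1 w2 u1 u2 : D} (h : Ad f α r F w1 w2 u1 u2) :
    PT f (xch2 α w1 w2 u1 u2) [] ∧ cyc (f * xch2 α w1 w2 u1 u2) = cyc (f * α) ∧
    lfc f (xch2 α w1 w2 u1 u2) = lfc f α ∧
    Leaf f (xch2 α w1 w2 u1 u2) u1 ∧ Leaf f (xch2 α w1 w2 u1 u2) u2 ∧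
    dst f (xch2 α w1 w2 u1 u2) w1 w2 = dst f α u1 u2 ∧
    dst f (xch2 α w1 w2 u1 u2) u1 u2 = dst f α w1 w2 ∧
    xch2 (xch2 α w1 w2 u1 u2) w1 w2 u1 u2 = α ∧
    w1 ∈ TB f (xch2 α w1 w2 u1 u2) r F ∧ w2 ∈ TB f (xch2 α w1 w2 u1 u2) r F ∧
    (TB f (xch2 α w1 w2 u1 u2) r F).ncard ≤ (TB f α r F).ncard + 8 ∧
    (TB f α r F).ncard ≤ (TB f (xch2 α w1 w2 u1 u2) r F).ncard + 8 := by
  obtain ⟨hu1, hu2, hw, hu, ⟨P1, P2, hP1, hP2, k11, k12, k21, k22⟩, a11, a12, a21, a22, a⟩ := h
  obtain ⟨T1, hT1, ℓ1, bs1, lv1, pr1, As1, Bs1, t1, rfl⟩ := hP1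
  obtain ⟨T2, hT2, ℓ2, bs2, lv2, pr2, As2, Bs2, t2, rfl⟩ := hP2
  have hinv := hα.inv
  have nfx : ∀ d, α d ≠ d := qt_nl hα
  have p1 := qt_pc hf hα t1
  have p2 := qt_pc hf hα t2
  have q1 := qt_leaf hf hα hu1
  have q2 := qt_leaf hf hα hu2
  have dis : ∀ {A B : Set D}, Disjoint A B → ∀ x, x ∈ A → x ∉ B :=
    fun h x h1 h2 => Set.disjoint_left.1 h h1 h2
  have d12 : Disjoint {d | d ∈ tri f (w1 :: bs1)} {d | d ∈ tri f (w2 :: bs2)} :=
    Set.disjoint_left.2 (ten_disj hf hα (hF T1 hT1) (hF T2 hT2) hN t1 t2 hw)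
  have dPQ : ∀ {P : Set D} {w u : D}, Pc f α P w → u ∉ P → Disjoint P {u, f u, f (f u)} := by
    intro P w u hP hu'
    rw [Set.disjoint_left]
    rintro d hd (rfl | rfl | rfl)
    · exact hu' hd
    · have := hP.cf _ (hP.cf _ hd)
      rw [hf.three] at this
      exact hu' this
    · have := hP.cf _ hd
      rw [hf.three] at this
      exact hu' this
  have u2Q : u2 ∉ ({u1, f u1, f (f u1)} : Set D) := by
    rintro (e | e | e)
    · exact hu e.symm
    · have h3 : α (f u2) = f (f u2) := hu2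
      rw [e, hf.three] at h3
      have h4 : α (f (f u1)) = f u1 := by
        rw [← (show α (f u1) = f (f u1) from hu1), hinv]
      rw [h4] at h3
      exact hf.nf u1 h3
    · have h3 : α (f u2) = f (f u2) := hu2
      rw [e, hf.three] at h3
      exact q1.out (Or.inr (Or.inl h3))
  have d34 : Disjoint ({u1, f u1, f (f u1)} : Set D) {u2, f u2, f (f u2)} := dPQ q1 u2Q
  have hww : α w1 ≠ w2 := by
    intro e
    have hall := hα.con (fun d => d ∈ tri f (w1 :: bs1) ∨ d ∈ tri f (w2 :: bs2))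
      ⟨w1, nfx w1, Or.inl p1.base⟩
      (fun d hd => hd.imp (p1.cf d) (p2.cf d))
      (fun d hd => by
        rcases hd with hd | hd
        · by_cases hdw : d = w1
          · right
            rw [hdw, e]
            exact p2.base
          · left
            exact p1.ca d hd hdw
        · by_cases hdw : d = w2
          · left
            rw [hdw, ← e, hinv]
            exact p1.base
          · right
            exact p2.ca d hd hdw)
    have hcard : Fintype.card D ≤ (tri f (w1 :: bs1)).length + (tri f (w2 :: bs2)).length := by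
      have hsub : (Finset.univ : Finset D) ⊆
          (tri f (w1 :: bs1)).toFinset ∪ (tri f (w2 :: bs2)).toFinset := by
        intro d _
        rcases hall d (nfx d) with h | h
        · exact Finset.mem_union_left _ (List.mem_toFinset.2 h)
        · exact Finset.mem_union_right _ (List.mem_toFinset.2 h)
      calc Fintype.card D = (Finset.univ : Finset D).card := rfl
        _ ≤ _ := Finset.card_le_card hsub
        _ ≤ _ := Finset.card_union_le _ _
        _ ≤ _ := Nat.add_le_add (List.toFinset_card_le _) (List.toFinset_card_le _)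
    have s1 := (ten_size hf (hF T1 hT1) t1).1
    have s2 := (ten_size hf (hF T2 hT2) t2).1
    omega
  have sw : ∀ {x y : D}, α x ≠ y → α y ≠ x := fun h h' => h (by rw [← h', hinv])
  have hQ : Quad f α {d | d ∈ tri f (w1 :: bs1)} {d | d ∈ tri f (w2 :: bs2)}
      {u1, f u1, f (f u1)} {u2, f u2, f (f u2)} w1 w2 u1 u2 := by
    refine ⟨p1, p2, q1, q2, d12, dPQ p1 k11, dPQ p1 k21, dPQ p2 k12, dPQ p2 k22, d34, ?_⟩
    intro x hx y hy
    simp only [List.mem_cons, List.not_mem_nil, or_false] at hx hy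
    rcases hx with rfl | rfl | rfl | rfl <;> rcases hy with rfl | rfl | rfl | rfl
    · exact nfx _
    · exact hww
    · exact sw a11
    · exact sw a21
    · exact sw hww
    · exact nfx _
    · exact sw a12
    · exact sw a22
    · exact a11
    · exact a12
    · exact nfx _
    · exact a
    · exact a21
    · exact a22
    · exact sw a
    · exact nfx _
  obtain ⟨r1, r2, r3, r4, r5, r6, r7, r8, r9, r10⟩ := quad_main hf hα hQ
  refine ⟨r1, r2, ?_, (r3 u1).2 hu1, (r3 u2).2 hu2, r4, r5, r6, ?_, ?_, ?_, ?_⟩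
  · unfold lfc
    exact Nat.card_congr (Equiv.subtypeEquivRight r3)
  · exact ⟨T1, hT1, ℓ1, bs1, lv1, pr1, As1, Bs1, ten_alpha hf t1 (fun d hd hdw =>
      r8 d (Or.inl hd) hdw (fun e => dis d12 d hd (e ▸ p2.base))) r9⟩
  · exact ⟨T2, hT2, ℓ2, bs2, lv2, pr2, As2, Bs2, ten_alpha hf t2 (fun d hd hdw =>
      r8 d (Or.inr hd) (fun e => dis d12.symm d hd (e ▸ p1.base)) hdw) r10⟩
  · exact (ten_local hf hα r1 hN F hF).trans (Nat.add_le_add_left r7 _)
  · refine (ten_local hf r1 hα hN F hF).trans (Nat.add_le_add_left ?_ _)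
    have : {d | α d ≠ xch2 α w1 w2 u1 u2 d} = {d | xch2 α w1 w2 u1 u2 d ≠ α d} := by
      ext d
      exact ne_comm
    rw [this]
    exact r7

end HG39
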