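import Pool.Agent.H39.HG.Defs
import Pool.Agent.H39.HG.YDef
import Pool.Agent.H39.HG.AdDef
import Pool.Agent.H39.HG.GrPerm
import Pool.Agent.H39.HG.LabBasic
import Pool.Agent.H39.HG.GraphA
import Pool.Agent.H39.HG.QuadTen
import Pool.Agent.H39.HG.AdCount

/-!
[H39 HG MAIND2]  (MP_bcc40c_pr)  Few triangulations with at least two tentacles have all their
tentacles close together.

PROOF.  Write `L = lfc f α`, `N = N(α) = (TB f α r F).ncard`.  Consider the finite set `E` of quintuples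
`(α, w1, w2, u1, u2)`, `α ∈ Bad`, `w1, w2 ∈ TB f α r F`, `w1 ≠ w2`, `Ad f α r F w1 w2 u1 u2`,
`q < dst f α u1 u2`.  For fixed `α, w1, w2` there are at least `L^2 - 24 K L - Cq` pairs `(u1, u2)` (ad_count),
and for fixed `α` there are `N (N - 1) ≥ 2` pairs `(w1, w2)`.  So
 ∑_{α ∈ Bad} (L^2 - 24 K L - Cq) ≤ ∑_{E} 1/(N (N-1)).
The map `(α, w1, w2, u1, u2) ↦ (α2, w1, w2, u1, u2)`, `α2 = xch2 α w1 w2 u1 u2`, is injective on `E`
(quad_ten: xch2 of α2 gives α), `α2 ∈ TM f v M`, `w1 ≠ w2 ∈ TB f α2 r F`, `u1, u2` leaves of `α2` with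
`dst f α2 u1 u2 = dst f α w1 w2 ≤ q` (α ∈ Bad), so `(u1,u2)` is one of the `Cq f α2 q` pairs; with
`N2 = N(α2)`: `N ≥ 2`, `N2 ≤ N + 8`, so `N2 (N2 - 1) / (N (N-1)) ≤ 50`, i.e. `1/(N (N-1)) ≤ 50/(N2 (N2-1))`:
`(N+8)(N+7) ≤ 50 N (N-1)` for `N ≥ 2` (`90 ≤ 100` for `N = 2`), and `N2 (N2 - 1) ≤ (N+8)(N+7)`.
Hence ∑_E 1/(N(N-1)) ≤ ∑_{α2 ∈ TM} ∑_{w1 ≠ w2 ∈ TB α2} Cq(α2) * 50/(N2 (N2 - 1)) ≤ 50 ∑_{α2 ∈ TM} Cq(α2).
So ∑_Bad (L^2 - 24 K L) ≤ 50 ∑_TM Cq + ∑_Bad Cq ≤ 51 ∑_TM Cq (Bad ⊆ TM).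
-/

set_option autoImplicit false

namespace HG39

open Equiv

variable {D : Type} [Fintype D] [DecidableEq D]

theorem mainD2_card (s : Finset D) (N : ℕ) (hN : s.card = N) :
    ((s.offDiag.card : ℕ) : ℝ) = (N : ℝ) * ((N : ℝ) - 1) := by
  rw [Finset.offDiag_card, hN, Nat.cast_sub (Nat.le_mul_self N)]
  push_cast
  ring

theorem mainD2_wt (N N2 : ℕ) (h1 : 2 ≤ N) (h2 : 2 ≤ N2) (h3 : N2 ≤ N + 8) :
    1 / ((N : ℝ) * ((N : ℝ) - 1)) ≤ 50 / ((N2 : ℝ) * ((N2 : ℝ) - 1)) := by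
  have a1 : (2 : ℝ) ≤ N := by exact_mod_cast h1
  have a2 : (2 : ℝ) ≤ N2 := by exact_mod_cast h2
  have a3 : (N2 : ℝ) ≤ N + 8 := by exact_mod_cast h3
  rw [div_le_div_iff₀ (by nlinarith) (by nlinarith)]
  have h4 : (N2 : ℝ) * (N2 - 1) ≤ (N + 8) * (N + 7) := by nlinarith
  nlinarith

theorem mainD2_prod {X : Type} [Fintype X] (p : D × D → Prop) (s : Finset X)
    (Q : X × (D × D) → Prop) [DecidablePred Q] (hQ : ∀ y, Q y ↔ y.1 ∈ s ∧ p y.2) :
    ((Finset.univ : Finset (X × (D × D))).filter Q).card =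
      s.card * Nat.card {u : D × D // p u} := by
  classical
  have h : (Finset.univ : Finset (X × (D × D))).filter Q =
      s ×ˢ ((Finset.univ : Finset (D × D)).filter p) := by
    ext y
    simp [hQ]
  rw [h, Finset.card_product, Nat.card_eq_fintype_card, Fintype.card_subtype]

theorem mainD2_dep {X : Type} [Fintype X] (s : Finset X)
    (p : X → D × D → Prop) (c : ℝ)
    (Q : X × (D × D) → Prop) [DecidablePred Q] (hQ : ∀ y, Q y ↔ y.1 ∈ s ∧ p y.1 y.2)
    (h : ∀ x ∈ s, c ≤ (Nat.card {u : D × D // p x u} : ℝ)) :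
    (s.card : ℝ) * c ≤
      (((Finset.univ : Finset (X × (D × D))).filter Q).card : ℝ) := by
  classical
  have e : (((Finset.univ : Finset (X × (D × D))).filter Q).card : ℝ) =
      ∑ x ∈ s, (Nat.card {u : D × D // p x u} : ℝ) := by
    have h1 : (Finset.univ : Finset (X × (D × D))).filter Q =
        (s.sigma (fun x => (Finset.univ : Finset (D × D)).filter (p x))).map
          ⟨fun z => (z.1, z.2), by
            rintro ⟨a, b⟩ ⟨c, d⟩ hh
            simp only [Prod.mk.injEq] at hh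
            obtain ⟨rfl, rfl⟩ := hh
            rfl⟩ := by
      ext ⟨y1, y2⟩
      simp only [Finset.mem_filter, Finset.mem_univ, true_and, Finset.mem_map, Finset.mem_sigma]
      rw [hQ]
      constructor
      · rintro ⟨h1, h2⟩
        exact ⟨⟨y1, y2⟩, ⟨h1, h2⟩, rfl⟩
      · rintro ⟨⟨a, b⟩, ⟨h1, h2⟩, h3⟩
        have h4 : (a, b) = (y1, y2) := h3
        simp only [Prod.mk.injEq] at h4
        obtain ⟨rfl, rfl⟩ := h4
        exact ⟨h1, h2⟩
    rw [h1, Finset.card_map, Finset.card_sigma]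
    push_cast
    apply Finset.sum_congr rfl
    intro x _
    rw [Nat.card_eq_fintype_card, Fintype.card_subtype]
  rw [e]
  have := Finset.card_nsmul_le_sum s (fun x => (Nat.card {u : D × D // p x u} : ℝ)) c h
  simpa [nsmul_eq_mul] using this

theorem mainD2_sum {X : Type} [Fintype X] (B : Finset (Perm D))
    (PE : Perm D × X → Prop) [DecidablePred PE] (hB : ∀ x, PE x → x.1 ∈ B)
    (g : Perm D → ℝ) :
    ∑ x ∈ (Finset.univ : Finset (Perm D × X)).filter PE, g x.1 =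
      ∑ α ∈ B, g α * (((Finset.univ : Finset X).filter (fun y => PE (α, y))).card : ℝ) := by
  rw [Finset.sum_filter, Fintype.sum_prod_type]
  rw [← Finset.sum_subset (Finset.subset_univ B)]
  · apply Finset.sum_congr rfl
    intro α _
    rw [← Finset.sum_filter]
    show ∑ _y ∈ (Finset.univ : Finset X).filter (fun y => PE (α, y)), g α = _
    rw [Finset.sum_const, nsmul_eq_mul, mul_comm]
  · intro α _ hα
    apply Finset.sum_eq_zero
    intro y _
    rw [if_neg]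
    intro hh
    exact hα (hB _ hh)

theorem mainD2 {f : Perm D} (hf : TF f) (v r M K q : ℕ) (hr : 1 ≤ r)
    (hN : 12 * K < Fintype.card D) (F : Finset Tr) (hF : ∀ T ∈ F, Adm r K T) :
    ∑ α ∈ (Set.toFinite (Bad f v r M q F)).toFinset,
        ((lfc f α : ℝ) ^ 2 - 24 * K * (lfc f α : ℝ)) ≤
      51 * ∑ α ∈ (Set.toFinite (TM f v M)).toFinset, (Cq f α q : ℝ) := by
  classical
  set B := (Set.toFinite (Bad f v r M q F)).toFinset with hBdef
  set T := (Set.toFinite (TM f v M)).toFinset with hTdef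
  have hmB : ∀ α, α ∈ B ↔ α ∈ Bad f v r M q F := fun α => by simp [hBdef]
  have hmT : ∀ α, α ∈ T ↔ α ∈ TM f v M := fun α => by simp [hTdef]
  let tb : Perm D → Finset D := fun α => (Set.toFinite (TB f α r F)).toFinset
  have htb : ∀ α w, w ∈ tb α ↔ w ∈ TB f α r F := fun α w => by simp [tb]
  have htc : ∀ α, (tb α).card = (TB f α r F).ncard := fun α =>
    (Set.ncard_eq_toFinset_card _ _).symm
  let g : Perm D → ℝ := fun α =>
    1 / (((TB f α r F).ncard : ℝ) * (((TB f α r F).ncard : ℝ) - 1))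
  let g2 : Perm D → ℝ := fun α =>
    50 / (((TB f α r F).ncard : ℝ) * (((TB f α r F).ncard : ℝ) - 1))
  let PE : Perm D × ((D × D) × (D × D)) → Prop := fun x => x.1 ∈ B ∧
    (x.2.1 ∈ (tb x.1).offDiag ∧ (Ad f x.1 r F x.2.1.1 x.2.1.2 x.2.2.1 x.2.2.2 ∧
      q < dst f x.1 x.2.2.1 x.2.2.2))
  let PE2 : Perm D × ((D × D) × (D × D)) → Prop := fun x => x.1 ∈ T ∧
    (x.2.1 ∈ (tb x.1).offDiag ∧ (Leaf f x.1 x.2.2.1 ∧ Leaf f x.1 x.2.2.2 ∧
      dst f x.1 x.2.2.1 x.2.2.2 ≤ q))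
  let φ : Perm D × ((D × D) × (D × D)) → Perm D × ((D × D) × (D × D)) := fun x =>
    (xch2 x.1 x.2.1.1 x.2.1.2 x.2.2.1 x.2.2.2, x.2)
  have hquad : ∀ x, PE x → PE2 (φ x) ∧ g x.1 ≤ g2 (φ x).1 ∧
      xch2 (φ x).1 x.2.1.1 x.2.1.2 x.2.2.1 x.2.2.2 = x.1 := by
    rintro ⟨α, ⟨w1, w2⟩, u1, u2⟩ ⟨h1, h2, h3, h4⟩
    rw [hmB] at h1
    obtain ⟨⟨hpt, hcyc⟩, hM, h2N, hq⟩ := h1
    simp only [Finset.mem_offDiag, htb] at h2 h3 h4
    obtain ⟨hw1, hw2, hww⟩ := h2
    obtain ⟨q1, q2, q3, q4, q5, q6, q7, q8, q9, q10, q11, q12⟩ := quad_ten hf hpt hN F hF h3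
    refine ⟨⟨?_, ?_, q4, q5, ?_⟩, ?_, q8⟩
    · rw [hmT]
      exact ⟨⟨q1, by rw [q2]; exact hcyc⟩, by rw [q3]; exact hM⟩
    · simp only [φ, Finset.mem_offDiag, htb]
      exact ⟨q9, q10, hww⟩
    · show dst f (xch2 α w1 w2 u1 u2) u1 u2 ≤ q
      rw [q7]
      exact hq w1 hw1 w2 hw2 hww
    · apply mainD2_wt _ _ h2N _ q11
      have hc : 1 < (TB f (xch2 α w1 w2 u1 u2) r F).ncard := by
        rw [Set.one_lt_ncard_iff (Set.toFinite _)]
        exact ⟨w1, w2, q9, q10, hww⟩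
      exact hc
  -- step 1
  have s1 : ∀ α ∈ B, (lfc f α : ℝ) ^ 2 - 24 * K * (lfc f α : ℝ) - Cq f α q ≤
      g α * (((Finset.univ : Finset ((D × D) × (D × D))).filter
        (fun y => PE (α, y))).card : ℝ) := by
    intro α hα
    have hα' := hα
    rw [hmB] at hα'
    obtain ⟨⟨hpt, hcyc⟩, hM, h2N, hq⟩ := hα'
    have h5 := mainD2_dep (tb α).offDiag (fun (w u : D × D) =>
      Ad f α r F w.1 w.2 u.1 u.2 ∧ q < dst f α u.1 u.2)
      ((lfc f α : ℝ) ^ 2 - 24 * K * (lfc f α : ℝ) - Cq f α q) (fun y => PE (α, y))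
      (by
        intro y
        simp only [PE, hα, true_and]) (by
        rintro ⟨w1, w2⟩ hw
        simp only [Finset.mem_offDiag, htb] at hw
        exact ad_count hf hpt hN F hF hw.1 hw.2.1 hw.2.2)
    rw [mainD2_card _ _ (htc α)] at h5
    have a1 : (2 : ℝ) ≤ ((TB f α r F).ncard : ℝ) := by exact_mod_cast h2N
    have a2 : 0 < ((TB f α r F).ncard : ℝ) * (((TB f α r F).ncard : ℝ) - 1) := by nlinarith
    simp only [g]
    rw [one_div, ← div_eq_inv_mul, le_div_iff₀ a2, mul_comm]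
    exact h5
  have s2 : ∑ α ∈ B, ((lfc f α : ℝ) ^ 2 - 24 * K * (lfc f α : ℝ) - Cq f α q) ≤
      ∑ x ∈ (Finset.univ : Finset (Perm D × ((D × D) × (D × D)))).filter PE, g x.1 := by
    rw [mainD2_sum B PE (fun x hx => hx.1) g]
    exact Finset.sum_le_sum s1
  -- step 2
  have s3 : ∑ x ∈ (Finset.univ : Finset (Perm D × ((D × D) × (D × D)))).filter PE, g x.1 ≤
      ∑ x ∈ (Finset.univ : Finset (Perm D × ((D × D) × (D × D)))).filter PE2, g2 x.1 := by
    have hinj : Set.InjOn φ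
        (((Finset.univ : Finset (Perm D × ((D × D) × (D × D)))).filter PE : Finset _) :
          Set (Perm D × ((D × D) × (D × D)))) := by
      intro x hx y hy hxy
      simp only [Finset.coe_filter, Finset.mem_univ, true_and, Set.mem_ofPred_eq] at hx hy
      have e1 := (hquad x hx).2.2
      have e2 := (hquad y hy).2.2
      have e3 : x.2 = y.2 := (congrArg Prod.snd hxy : (φ x).2 = (φ y).2)
      rw [hxy, e3] at e1
      exact Prod.ext (e1.symm.trans e2) e3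
    calc ∑ x ∈ (Finset.univ : Finset (Perm D × ((D × D) × (D × D)))).filter PE, g x.1
        ≤ ∑ x ∈ (Finset.univ : Finset (Perm D × ((D × D) × (D × D)))).filter PE,
            g2 (φ x).1 := by
          apply Finset.sum_le_sum
          intro x hx
          exact (hquad x (Finset.mem_filter.1 hx).2).2.1
      _ = ∑ y ∈ ((Finset.univ : Finset (Perm D × ((D × D) × (D × D)))).filter PE).image φ,
            g2 y.1 := by
          rw [Finset.sum_image hinj]
      _ ≤ _ := by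
          apply Finset.sum_le_sum_of_subset_of_nonneg
          · intro y hy
            rw [Finset.mem_image] at hy
            obtain ⟨x, hx, rfl⟩ := hy
            rw [Finset.mem_filter]
            exact ⟨Finset.mem_univ _, (hquad x (Finset.mem_filter.1 hx).2).1⟩
          · intro y _ _
            simp only [g2]
            rcases Nat.eq_zero_or_pos (TB f y.1 r F).ncard with h0 | h0
            · rw [h0]; simp
            · have : (1 : ℝ) ≤ ((TB f y.1 r F).ncard : ℝ) := by exact_mod_cast h0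
              apply div_nonneg (by norm_num)
              exact mul_nonneg (by linarith) (by linarith)
  -- step 3
  have s4 : ∑ x ∈ (Finset.univ : Finset (Perm D × ((D × D) × (D × D)))).filter PE2, g2 x.1 ≤
      50 * ∑ α ∈ T, (Cq f α q : ℝ) := by
    rw [mainD2_sum T PE2 (fun x hx => hx.1) g2, Finset.mul_sum]
    apply Finset.sum_le_sum
    intro α hα
    rw [mainD2_prod (fun (u : D × D) => Leaf f α u.1 ∧ Leaf f α u.2 ∧ dst f α u.1 u.2 ≤ q)
      (tb α).offDiag (fun y => PE2 (α, y)) (by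
        intro y
        simp only [PE2, hα, true_and])]
    push_cast
    rw [mainD2_card _ _ (htc α)]
    show g2 α * ((((TB f α r F).ncard : ℝ) * (((TB f α r F).ncard : ℝ) - 1)) *
      (Cq f α q : ℝ)) ≤ 50 * (Cq f α q : ℝ)
    simp only [g2]
    have hC : (0 : ℝ) ≤ (Cq f α q : ℝ) := Nat.cast_nonneg _
    by_cases h0 : (((TB f α r F).ncard : ℝ) * (((TB f α r F).ncard : ℝ) - 1)) = 0
    · rw [h0]
      simp only [div_zero, zero_mul]
      positivity
    · rw [← mul_assoc, div_mul_cancel₀ _ h0]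
  have s5 : ∑ α ∈ B, (Cq f α q : ℝ) ≤ ∑ α ∈ T, (Cq f α q : ℝ) := by
    apply Finset.sum_le_sum_of_subset_of_nonneg
    · intro α hα
      rw [hmB] at hα
      rw [hmT]
      exact ⟨hα.1, hα.2.1⟩
    · intro _ _ _
      exact Nat.cast_nonneg _
  have s6 : ∑ α ∈ B, ((lfc f α : ℝ) ^ 2 - 24 * K * (lfc f α : ℝ) - Cq f α q) =
      ∑ α ∈ B, ((lfc f α : ℝ) ^ 2 - 24 * K * (lfc f α : ℝ)) - ∑ α ∈ B, (Cq f α q : ℝ) := by
    rw [← Finset.sum_sub_distrib]
  linarith

end HG39
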