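import Pool.Agent.H39.HG.Defs
import Pool.Agent.H39.HG.GrPerm
import Pool.Agent.H39.HG.LabBasic
import Pool.Agent.H39.HG.SlcBasic
import Pool.Agent.H39.HG.GraphA
import Pool.Agent.H39.HG.GraphLab
import Pool.Agent.H39.HG.TenLoop
import Pool.Agent.H39.HG.TenLab
import Pool.Agent.H39.HG.TenMult
import Pool.Agent.H39.HG.TenDisj

/-!
[H39 HG TWOFAR]  (MP_bcc40c_pr)  Two tentacles with bases far apart give two vertices far apart.

PROOF.  ten_dst: let `Ten .. w .. As ..` with darts `P`, apex `a`, and `d ∉ P`.  Then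
`r + dst w d ≤ dst a d`.  Apply dst_lip to `φ x = dst w x` for `x ∉ P`, `φ x = ℓ x - r` for `x ∈ P`:
constant on vertices: `x, α x ∉ P`: clear (`f (α x) ∉ P`, same vertex); `x ∈ P`, `x ≠ w`: `α x ∈ P`, and
`φ (f (α x)) = φ x` by ten_closed for the dart `α x` if `α x ≠ w` (`α x = w` would mean `x = α w ∉ P`);
`x = w`: `φ w = 0`, `f (α w) ∉ P`, `dst w (f (α w)) = 0` (`f (α w) = (f * α) w`); `x = α w`: `α x = w`,
`φ (f w) = ℓ (f w) - r = 0`, `dst w (α w) = 0` (ten_loop).  Lipschitz: `P` and its complement are closed under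
`f`; slc_lip, dst_f.  So `dst w d = φ d ≤ φ a + dst a d = -r + dst a d` (`ℓ a = 0`).
two_far: `w ≠ w'` bases of tentacles, apexes `a`, `a'`.  `a' ∈ P'`, so `a' ∉ P` (ten_disj), `w ∉ P'`:
`dst a a' ≥ r + dst w a'`, and `dst a' w ≥ r + dst w' w`.
-/

set_option autoImplicit false

namespace HG39

open Equiv

variable {D : Type} [Fintype D] [DecidableEq D]

private theorem ten_dst {f α : Perm D} {ℓ : D → ℤ} (hf : TF f) (hα : PT f α []) {r : ℕ}
    {w : D} {T : Tr} {bs : List D} {lv : List (D × Bool)} {pr : List (D × D)} {As Bs As' : List D}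
    {A : D} (h : Ten f α ℓ r w T bs lv pr As Bs) (hA : As = As' ++ [A]) (d : D)
    (hd : d ∉ tri f (w :: bs)) : r + dst f α w d ≤ dst f α (f A) d := by
  classical
  obtain ⟨haP, hlab, -, -⟩ := ten_lab hf hα h hA
  have hwP : w ∈ tri f (w :: bs) := by
    rw [mem_tri]
    exact ⟨w, List.mem_cons_self, Or.inl rfl⟩
  have ha0 : ℓ (f A) = 0 := by
    rw [← hlab _ haP, dst_self f α _ _ (Equiv.Perm.SameCycle.refl _ _)]
    rfl
  have hout := h.out
  have hlw := h.slc.le
  have hlfw := h.slc.lfe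
  obtain ⟨φ, hφ⟩ : ∃ φ : D → ℤ, ∀ x, φ x =
      if x ∈ tri f (w :: bs) then ℓ x - r else (dst f α w x : ℤ) := ⟨_, fun _ => rfl⟩
  have hφ1 : ∀ x, x ∈ tri f (w :: bs) → φ x = ℓ x - r := fun x hx => by rw [hφ, if_pos hx]
  have hφ2 : ∀ x, x ∉ tri f (w :: bs) → φ x = dst f α w x := fun x hx => by rw [hφ, if_neg hx]
  have hcl : ∀ x, f x ∈ tri f (w :: bs) ↔ x ∈ tri f (w :: bs) := fun x => tri_closed hf _ x
  have hsc : ∀ x, (f * α).SameCycle x (f (α x)) := fun x => by
    have h1 : f (α x) = (f * α) x := rfl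
    rw [h1]
    exact (Equiv.Perm.sameCycle_apply_right).2 (Equiv.Perm.SameCycle.refl _ _)
  have h1 : ∀ x, φ (f (α x)) = φ x := by
    intro x
    by_cases hx : x ∈ tri f (w :: bs)
    · by_cases hxw : x = w
      · subst hxw
        have h2 : f (α x) ∉ tri f (x :: bs) := by
          rw [hcl]
          exact hout
        rw [hφ2 _ h2, hφ1 _ hx, hlw, sub_self, dst_self f α _ _ (hsc x)]
        rfl
      · obtain ⟨h2, -⟩ := ten_closed hf hα h x hx hxw
        have h3 : α x ≠ w := by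
          intro h4
          apply hout
          have h40 : α w = x := by rw [← h4, hα.inv]
          rw [h40]
          exact hx
        obtain ⟨-, h5⟩ := ten_closed hf hα h (α x) h2 h3
        rw [hφ1 _ ((hcl _).2 h2), hφ1 _ hx, h5, hα.inv]
    · by_cases hax : α x ∈ tri f (w :: bs)
      · have h3 : α x = w := by
          by_contra h4
          obtain ⟨h5, -⟩ := ten_closed hf hα h (α x) hax h4
          rw [hα.inv] at h5
          exact hx h5
        have h6 : x = α w := by rw [← h3, hα.inv]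
        have h7 : dst f α w x = 0 := by
          rw [h6]
          exact dst_self f α _ _ (ten_loop hf hα h)
        rw [hφ1 _ ((hcl _).2 hax), hφ2 _ hx, h3, hlfw, sub_self, h7]
        rfl
      · rw [hφ2 _ (fun h7 => hax ((hcl _).1 h7)), hφ2 _ hx,
          dst_congr f α w x (f (α x)) (hsc x)]
  have h2 : ∀ x, φ (f x) ≤ φ x + 1 := by
    intro x
    by_cases hx : x ∈ tri f (w :: bs)
    · rw [hφ1 _ ((hcl x).2 hx), hφ1 _ hx]
      have := (slc_lip hf h.slc x hx).1
      linarith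
    · rw [hφ2 _ (fun h7 => hx ((hcl _).1 h7)), hφ2 _ hx]
      exact_mod_cast dst_f hf hα w x
  have h3 := dst_lip hf hα φ h1 h2 (f A) d
  rw [hφ2 _ hd, hφ1 _ haP, ha0] at h3
  have h4 : ((r + dst f α w d : ℕ) : ℤ) ≤ (dst f α (f A) d : ℤ) := by
    push_cast
    linarith
  exact_mod_cast h4

theorem two_far {f α : Perm D} (hf : TF f) (hα : PT f α []) {r K : ℕ} (hr : 1 ≤ r)
    (hN : 12 * K < Fintype.card D) (F : Finset Tr) (hF : ∀ T ∈ F, Adm r K T) (w w' : D)
    (hw : w ∈ TB f α r F) (hw' : w' ∈ TB f α r F) (hne : w ≠ w') :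
    ∃ a a', 2 * r + dst f α w w' ≤ dst f α a a' := by
  obtain ⟨T, hT, ℓ, bs, lv, pr, As, Bs, h⟩ := hw
  obtain ⟨T', hT', ℓ', bs', lv', pr', As', Bs', h'⟩ := hw'
  have hlA := (slc_len hf h.slc).2.1
  have hlA' := (slc_len hf h'.slc).2.1
  have hne1 : As ≠ [] := by
    intro h0
    rw [h0] at hlA
    simp at hlA
    omega
  have hne2 : As' ≠ [] := by
    intro h0
    rw [h0] at hlA'
    simp at hlA'
    omega
  obtain ⟨As0, A, hA⟩ : ∃ As0 A, As = As0 ++ [A] :=
    ⟨As.dropLast, As.getLast hne1, (List.dropLast_append_getLast hne1).symm⟩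
  obtain ⟨As0', A', hA'⟩ : ∃ As0 A, As' = As0 ++ [A] :=
    ⟨As'.dropLast, As'.getLast hne2, (List.dropLast_append_getLast hne2).symm⟩
  have hdj := ten_disj hf hα (hF T hT) (hF T' hT') hN h h' hne
  have haP' := (ten_lab hf hα h' hA').1
  have hwP : w ∈ tri f (w :: bs) := by
    rw [mem_tri]
    exact ⟨w, List.mem_cons_self, Or.inl rfl⟩
  have h1 := ten_dst hf hα h hA (f A') (fun hc => hdj _ hc haP')
  have h2 := ten_dst hf hα h' hA' w (hdj w hwP)
  refine ⟨f A, f A', ?_⟩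
  rw [dst_comm f α w (f A')] at h1
  rw [dst_comm f α w' w] at h2
  omega

end HG39
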