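import Pool.Agent.H39.HG.Defs
import Pool.Agent.H39.HG.YDef
import Pool.Agent.H39.HG.AdDef
import Pool.Agent.H39.HG.GrPerm
import Pool.Agent.H39.HG.GraphA
import Pool.Agent.H39.HG.GraphLab
import Pool.Agent.H39.HG.TLim
import Pool.Agent.H39.HG.TEnum
import Pool.Agent.H39.HG.MainP
import Pool.Agent.H39.HG.MainD1
import Pool.Agent.H39.HG.AdCount
import Pool.Agent.H39.HG.MainD2
import Pool.Agent.H39.HG.TwoFar
import Pool.Agent.H39.HG.DescF
import Pool.Agent.H39.HG.AsyP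

/-!
[H39 HG ASYD]  (MP_bcc40c_pr)  Asymptotics of the diameter bound.

Statement: for `0 < h < 1/4`, `0 < ε < 1` there are `δ > 0`, `n0` such that for `n ≥ n0`, all `f, v`, `M ≥ 6 n
lam h`:  #{α ∈ TS f v, M ≤ lfc, all distances ≤ 3 (1-ε) DD h log n} ≤ #TS * n^(-δ).
PROOF.  Let `x = (1 - ε/2) DD h log n`, `r = ⌈(1 - ε/2) x'⌉`.. precisely put `r = ⌊(1 - ε/2) DD h log n⌋`,
`q = ⌊(1 - ε/2) DD h log n⌋` (both ≥ 1 for `n` large); `2 r + q ≥ 3 (1 - ε/2) DD h log n - 3 > 3 (1-ε) DD h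
log n` for `n` large.  As in AsyP choose `μ < mh h` with `(1 - ε/2)(- log μ) DD h ≤ 1 - ε/4`; `enum` gives `K ≤
C r`, `F` for this `r`; `12 K < 6 n`.
(1) B1 = {α ∈ TM, #TB ≤ 1}: mainD1: `B1.ncard * M * (M-1).descFactorial (K-1) * #F ≤ #TS (6n)^(K-1) (8K+1) 6K`,
`M * (M-1).descFactorial (K-1) ≥ (M - K)^K ≥ (6 n lam)^K / 2` (as descF_ge; e.g. `M (M-1)..(M-K+1) ≥
(M-2).descFactorial K`), so `B1.ncard ≤ #TS * 2 (8K+1) 6K / (6 n lam^K #F) ≤ #TS * polylog / (n μ^r) ≤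
#TS * n^(-ε/8)`.
(2) B2 = Bad f v r M q F: for `α ∈ B2`: `L = lfc α ≥ M ≥ 6 n lam`, `L^2 - 24 K L ≥ (6 n lam)^2 / 2` for `n` large
(`24 K ≤ 3 n lam`).  mainD2, cq_le and asyP (with `ε/2`, `R = q + 2`):  `B2.ncard * (6 n lam)^2 / 2 ≤
51 * #TS * n^(2-δ')`, so `B2.ncard ≤ #TS * C n^(-δ')`.
(3) Let `α ∈ TM`, not in B1, B2.  Then `#TB ≥ 2` and there are `w ≠ w'` in TB with `dst w w' > q`; two_far:
`dst a a' ≥ 2 r + q + 1 > 3 (1-ε) DD h log n`.  So the set in question is contained in B1 ∪ B2.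
-/

set_option autoImplicit false

namespace HG39

open Equiv

variable {D : Type} [Fintype D] [DecidableEq D]

private theorem asyD_mu (h ε : ℝ) (h0 : 0 < h) (h1 : h < 1 / 4) (e0 : 0 < ε) (e1 : ε < 1) :
    0 < DD h ∧ ∃ μ : ℝ, 0 < μ ∧ μ < mh h ∧
      (1 - ε / 2) * DD h * Real.log μ = -(1 - ε / 4) := by
  obtain ⟨hm0, hm1, -⟩ := mh_prop h h0 h1
  have hL : 0 < -Real.log (mh h) := by
    have := Real.log_neg hm0 hm1
    linarith
  refine ⟨by unfold DD; positivity,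
    Real.exp (Real.log (mh h) * ((1 - ε / 4) / (1 - ε / 2))), Real.exp_pos _, ?_, ?_⟩
  · conv_rhs => rw [← Real.exp_log hm0]
    rw [Real.exp_lt_exp]
    have h2 : 1 < (1 - ε / 4) / (1 - ε / 2) := by
      rw [lt_div_iff₀ (by linarith)]
      linarith
    nlinarith
  · rw [Real.log_exp]
    unfold DD
    have h3 : (1 - ε / 2) ≠ 0 := by
      have : 0 < 1 - ε / 2 := by linarith
      exact this.ne'
    have h4 : Real.log (mh h) ≠ 0 := by
      have : Real.log (mh h) < 0 := by linarith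
      exact this.ne
    have h5 : (1 - ε / 2) * (1 / -Real.log (mh h)) *
        (Real.log (mh h) * ((1 - ε / 4) / (1 - ε / 2))) =
        -(((1 - ε / 2) / (1 - ε / 2)) * (Real.log (mh h) / Real.log (mh h)) * (1 - ε / 4)) := by
      rw [one_div, inv_neg]
      ring
    rw [h5, div_self h3, div_self h4]
    ring

private theorem asyD_pow (a μ Y : ℝ) (r n : ℕ) (hn : 1 ≤ n) (hμ : 0 < μ) (hμ1 : μ < 1)
    (hr : (r : ℝ) ≤ Y) (hY : Y * Real.log μ = -(1 - a) * Real.log n) :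
    (n : ℝ) ^ a ≤ n * μ ^ r := by
  have hn0 : (0 : ℝ) < n := by exact_mod_cast hn
  have hl : Real.log μ < 0 := Real.log_neg hμ hμ1
  have h1 : μ ^ r = Real.exp (r * Real.log μ) := by
    rw [mul_comm, Real.exp_mul, Real.exp_log hμ, Real.rpow_natCast]
  have h2 : Y * Real.log μ ≤ r * Real.log μ := by nlinarith
  have h3 : (n : ℝ) ^ a = Real.exp (Real.log n + Y * Real.log μ) := by
    rw [Real.rpow_def_of_pos hn0, hY]
    congr 1
    ring
  rw [h1, h3, Real.exp_add, Real.exp_log hn0]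
  exact mul_le_mul_of_nonneg_left (Real.exp_le_exp.2 h2) hn0.le

/-- few triangulations with at most one tentacle -/
private theorem asyD_one (h : ℝ) (h0 : 0 < h) (c : ℝ)
    (n r K M v : ℕ) (C : ℕ) (hn : 1 ≤ n) (hr : 1 ≤ r) (hK2 : 2 ≤ K) (hK12 : 12 * K < 6 * n)
    (F : Finset Tr) (hF : ∀ T ∈ F, Adm r K T) (μ : ℝ)
    (hcF : c * μ ^ r ≤ (C * r : ℝ) * F.card * lam h ^ K)
    (hM : 1 ≤ M)
    (hdf : (6 * n * lam h) ^ K / 2 ≤ ((M - 2).descFactorial K : ℝ))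
    (f : Perm (Fin (6 * n))) (hf : TF f) :
    ({α | α ∈ TS f v ∧ M ≤ lfc f α ∧ (TB f α r F).ncard ≤ 1}.ncard : ℝ) *
      (6 * c * (n * μ ^ r)) ≤
      (TS f v).ncard * (2 * (C * r) * ((8 * K + 1) * (6 * K))) := by
  have hlam := lam_pos h h0
  have h2 := mainD1 hf v r M K hr (by rw [Fintype.card_fin]; exact hK12) F hF
  rw [Fintype.card_fin] at h2
  obtain ⟨B, hB⟩ : ∃ B : Set (Perm (Fin (6 * n))), B =
      {α | α ∈ TS f v ∧ M ≤ lfc f α ∧ (TB f α r F).ncard ≤ 1} := ⟨_, rfl⟩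
  rw [← hB] at h2 ⊢
  have h3 : M * (M - 1).descFactorial (K - 1) = M.descFactorial K := by
    obtain ⟨M', rfl⟩ : ∃ M', M = M' + 1 := ⟨M - 1, by omega⟩
    obtain ⟨K', rfl⟩ : ∃ K', K = K' + 1 := ⟨K - 1, by omega⟩
    rw [Nat.succ_descFactorial_succ]
    rfl
  have h4 : (M - 2).descFactorial K ≤ M.descFactorial K :=
    Nat.descFactorial_le K (Nat.sub_le M 2)
  have h5 : ((B.ncard * M * (M - 1).descFactorial (K - 1) * F.card : ℕ) : ℝ) =
      (B.ncard : ℝ) * (M.descFactorial K : ℝ) * F.card := by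
    rw [mul_assoc B.ncard, h3]
    push_cast
    ring
  have h6 : (B.ncard : ℝ) * (M.descFactorial K : ℝ) * F.card ≤
      (TS f v).ncard * (6 * n : ℝ) ^ (K - 1) * ((8 * K + 1) * (6 * K)) := by
    rw [← h5]
    have h7 : ((B.ncard * M * (M - 1).descFactorial (K - 1) * F.card : ℕ) : ℝ) ≤
      (((TS f v).ncard * (6 * n) ^ (K - 1) * ((8 * K + 1) * (6 * K)) : ℕ) : ℝ) := by
      exact_mod_cast h2
    refine h7.trans (le_of_eq ?_)
    push_cast
    ring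
  have h8 : (6 * n * lam h) ^ K / 2 ≤ (M.descFactorial K : ℝ) := by
    refine hdf.trans ?_
    exact_mod_cast h4
  have hn0 : (0 : ℝ) < n := by exact_mod_cast hn
  have h9 : (B.ncard : ℝ) * ((6 * n * lam h) ^ K / 2) * F.card ≤
      (TS f v).ncard * (6 * n : ℝ) ^ (K - 1) * ((8 * K + 1) * (6 * K)) := by
    refine le_trans ?_ h6
    gcongr
  have h10 : (6 * n * lam h) ^ K = (6 * n : ℝ) ^ (K - 1) * ((6 * n) * lam h ^ K) := by
    obtain ⟨K', rfl⟩ : ∃ K', K = K' + 1 := ⟨K - 1, by omega⟩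
    rw [mul_pow, Nat.add_sub_cancel, pow_succ (6 * (n : ℝ))]
    ring
  rw [h10] at h9
  have h11 : (0 : ℝ) < (6 * n : ℝ) ^ (K - 1) := by positivity
  have h12 : (B.ncard : ℝ) * (6 * n * lam h ^ K) * F.card ≤
      (TS f v).ncard * (2 * ((8 * K + 1) * (6 * K))) := by
    have h13 : (6 * n : ℝ) ^ (K - 1) * ((B.ncard : ℝ) * (6 * n * lam h ^ K) * F.card) ≤
        (6 * n : ℝ) ^ (K - 1) * ((TS f v).ncard * (2 * ((8 * K + 1) * (6 * K)))) := by
      nlinarith [h9]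
    exact le_of_mul_le_mul_left h13 h11
  have h14 : (B.ncard : ℝ) * (6 * n) * (c * μ ^ r) ≤
      (B.ncard : ℝ) * (6 * n) * ((C * r : ℝ) * F.card * lam h ^ K) := by
    gcongr
  have h15 : (C * r : ℝ) * ((B.ncard : ℝ) * (6 * n * lam h ^ K) * F.card) ≤
      (C * r : ℝ) * ((TS f v).ncard * (2 * ((8 * K + 1) * (6 * K)))) := by
    gcongr
  calc (B.ncard : ℝ) * (6 * c * (n * μ ^ r)) = (B.ncard : ℝ) * (6 * n) * (c * μ ^ r) := by ring
    _ ≤ (B.ncard : ℝ) * (6 * n) * ((C * r : ℝ) * F.card * lam h ^ K) := h14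
    _ = (C * r : ℝ) * ((B.ncard : ℝ) * (6 * n * lam h ^ K) * F.card) := by ring
    _ ≤ (C * r : ℝ) * ((TS f v).ncard * (2 * ((8 * K + 1) * (6 * K)))) := h15
    _ = _ := by ring

/-- few triangulations with two tentacles, all close together -/
private theorem asyD_two (h : ℝ) (h0 : 0 < h) (δ : ℝ)
    (n r K M v q : ℕ) (hn : 1 ≤ n) (hr : 1 ≤ r) (hK12 : 12 * K < 6 * n)
    (F : Finset Tr) (hF : ∀ T ∈ F, Adm r K T)
    (hM : 6 * n * lam h ≤ M) (hKx : 48 * (K : ℝ) ≤ 6 * n * lam h)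
    (f : Perm (Fin (6 * n))) (hf : TF f)
    (hP : (∑ r ∈ Finset.range (q + 2 + 1), ((Pr f v r M).ncard : ℝ)) ≤
        (TS f v).ncard * (n : ℝ) ^ (2 - δ)) :
    ((Bad f v r M q F).ncard : ℝ) ≤
      (TS f v).ncard * (51 / (18 * lam h ^ 2) * (n : ℝ) ^ (-δ)) := by
  have hlam := lam_pos h h0
  have hn0 : (0 : ℝ) < n := by exact_mod_cast hn
  have h2 := mainD2 hf v r M K q hr (by rw [Fintype.card_fin]; exact hK12) F hF
  have h3 := cq_le hf v M q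
  have h4 : (∑ α ∈ (Set.toFinite (TM f v M)).toFinset, (Cq f α q : ℝ)) ≤
      (TS f v).ncard * (n : ℝ) ^ (2 - δ) := by
    refine le_trans ?_ hP
    exact_mod_cast h3
  have h5 : ((Bad f v r M q F).ncard : ℝ) * ((6 * n * lam h) ^ 2 / 2) ≤
      ∑ α ∈ (Set.toFinite (Bad f v r M q F)).toFinset,
        ((lfc f α : ℝ) ^ 2 - 24 * K * (lfc f α : ℝ)) := by
    rw [Set.ncard_eq_toFinset_card _ (Set.toFinite (Bad f v r M q F)), ← nsmul_eq_mul]
    refine Finset.card_nsmul_le_sum _ _ _ fun α hα => ?_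
    rw [Set.Finite.mem_toFinset] at hα
    have h6 : (M : ℝ) ≤ lfc f α := by exact_mod_cast hα.2.1
    have h7 : 6 * n * lam h ≤ lfc f α := hM.trans h6
    obtain ⟨x, hx⟩ : ∃ x : ℝ, x = 6 * n * lam h := ⟨_, rfl⟩
    obtain ⟨y, hy⟩ : ∃ y : ℝ, y = lfc f α := ⟨_, rfl⟩
    rw [← hx] at h7 hKx ⊢
    rw [← hy] at h7 ⊢
    have hx0 : 0 < x := by
      rw [hx]
      positivity
    have hK0 : (0 : ℝ) ≤ K := Nat.cast_nonneg K
    have h8 : x / 2 ≤ y - 24 * K := by linarith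
    have h9 : x * (x / 2) ≤ y * (y - 24 * K) := by
      apply mul_le_mul h7 h8 (by positivity) (by linarith)
    nlinarith [h9]
  have h10 : ((Bad f v r M q F).ncard : ℝ) * ((6 * n * lam h) ^ 2 / 2) ≤
      51 * ((TS f v).ncard * (n : ℝ) ^ (2 - δ)) :=
    h5.trans (h2.trans (by linarith))
  have h11 : (n : ℝ) ^ (2 - δ) = (n : ℝ) ^ 2 * (n : ℝ) ^ (-δ) := by
    rw [sub_eq_add_neg, Real.rpow_add hn0, Real.rpow_two]
  rw [h11] at h10
  have h12 : (0 : ℝ) < (6 * n * lam h) ^ 2 / 2 := by positivity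
  refine le_of_mul_le_mul_right (h10.trans (le_of_eq ?_)) h12
  field_simp
  ring

theorem asyD (h ε : ℝ) (h0 : 0 < h) (h1 : h < 1 / 4) (e0 : 0 < ε) (e1 : ε < 1) :
    ∃ δ : ℝ, 0 < δ ∧ ∃ n0 : ℕ, ∀ n ≥ n0, ∀ f : Perm (Fin (6 * n)), TF f → ∀ v M : ℕ,
      6 * n * lam h ≤ M →
      ({α | α ∈ TS f v ∧ M ≤ lfc f α ∧
        ∀ a b, (dst f α a b : ℝ) ≤ 3 * (1 - ε) * DD h * Real.log n}.ncard : ℝ) ≤
        (TS f v).ncard * (n : ℝ) ^ (-δ) := by
  obtain ⟨hD, μ, hμ, hμh, hμe⟩ := asyD_mu h ε h0 h1 e0 e1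
  obtain ⟨hm0, hm1, -⟩ := mh_prop h h0 h1
  have hlam := lam_pos h h0
  obtain ⟨c, hc, C, hC, henum⟩ := enum h h0 h1 μ hμ hμh
  obtain ⟨δ', hδ', n1, hasyP⟩ := asyP h (ε / 2) h0 h1 (by linarith) (by linarith)
  obtain ⟨n2, hdesc⟩ := descF_ge h h0 h1 (C * DD h)
  obtain ⟨n3, hpl⟩ := polylog_le (2 * ((2 * (C * DD h) *
    ((8 * (C * DD h) + 1) * (6 * (C * DD h)))) / (6 * c))) 3 (ε / 8) (by linarith)
  obtain ⟨n4, hpl2⟩ := polylog_le (2 * (51 / (18 * lam h ^ 2))) 0 (δ' / 2) (by linarith)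
  obtain ⟨n5, hpl3⟩ := polylog_le ((48 * (C * DD h)) / (6 * lam h) + 2 * (C * DD h) + 1) 1 1
    one_pos
  have hlogt : Filter.Tendsto (fun n : ℕ => Real.log n) Filter.atTop Filter.atTop :=
    Real.tendsto_log_atTop.comp tendsto_natCast_atTop_atTop
  obtain ⟨n6, hlog6⟩ := Filter.eventually_atTop.1
    (hlogt.eventually (Filter.eventually_gt_atTop (max (2 / (ε * DD h)) (2 / DD h))))
  refine ⟨min (ε / 8) (δ' / 2), by positivity,
    max (max (max n1 n2) (max n3 n4)) (max (max n5 n6) 1), fun n hn f hf v M hM => ?_⟩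
  have hn1 : n1 ≤ n := by omega
  have hn2 : n2 ≤ n := by omega
  have hn3 : n3 ≤ n := by omega
  have hn4 : n4 ≤ n := by omega
  have hn5 : n5 ≤ n := by omega
  have hn6 : n6 ≤ n := by omega
  have hn7 : 1 ≤ n := by omega
  have hn0 : (0 : ℝ) < n := by exact_mod_cast hn7
  have hnr : (1 : ℝ) ≤ n := by exact_mod_cast hn7
  have hl0 : 0 ≤ Real.log n := Real.log_nonneg hnr
  have hl6 := hlog6 n hn6
  have hl6a : 2 / (ε * DD h) < Real.log n := (le_max_left _ _).trans_lt hl6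
  have hl6b : 2 / DD h < Real.log n := (le_max_right _ _).trans_lt hl6
  rw [div_lt_iff₀ (by positivity)] at hl6a hl6b
  obtain ⟨Y, hY⟩ : ∃ Y : ℝ, Y = (1 - ε / 2) * DD h * Real.log n := ⟨_, rfl⟩
  have hY0 : 0 ≤ Y := by
    rw [hY]
    have : 0 ≤ 1 - ε / 2 := by linarith
    positivity
  have hY1 : 1 ≤ Y := by
    rw [hY]
    have h2 : (1 : ℝ) / 2 ≤ 1 - ε / 2 := by linarith
    have h3 : 0 ≤ DD h * Real.log n := by positivity
    nlinarith
  have hYl : Y ≤ DD h * (Real.log n + 1) := by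
    rw [hY]
    have h3 : 0 ≤ DD h * Real.log n := by positivity
    nlinarith
  obtain ⟨r, hr⟩ : ∃ r : ℕ, r = ⌊Y⌋₊ := ⟨_, rfl⟩
  have hrY : (r : ℝ) ≤ Y := by
    rw [hr]
    exact Nat.floor_le hY0
  have hrY2 : Y < r + 1 := by
    rw [hr]
    exact Nat.lt_floor_add_one Y
  have hr1 : 1 ≤ r := by
    rw [hr]
    exact Nat.le_floor (by exact_mod_cast hY1)
  obtain ⟨K, hK2, hKr, F, hF, hcF⟩ := henum r hr1
  have hKr' : (K : ℝ) ≤ C * r := by exact_mod_cast hKr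
  have hCr : (C * r : ℝ) ≤ (C * DD h) * (Real.log n + 1) := by
    have h2 : (0 : ℝ) ≤ C := Nat.cast_nonneg C
    have h3 := mul_le_mul_of_nonneg_left (hrY.trans hYl) h2
    linarith
  have hKl : (K : ℝ) ≤ (C * DD h) * (Real.log n + 1) := hKr'.trans hCr
  have hCD : 0 < (C * DD h : ℝ) := by
    have : (0 : ℝ) < C := by exact_mod_cast hC
    positivity
  have hp5 := hpl3 n hn5
  rw [pow_one, Real.rpow_one] at hp5
  have hKx : 48 * (K : ℝ) ≤ 6 * n * lam h := by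
    have h2 : (48 * (C * DD h)) / (6 * lam h) * (Real.log n + 1) ≤ n := by
      refine le_trans ?_ hp5
      have h3 : 0 ≤ (2 * (C * DD h) + 1) * (Real.log n + 1) := by positivity
      nlinarith
    rw [div_mul_eq_mul_div, div_le_iff₀ (by positivity)] at h2
    nlinarith
  have hK12 : 12 * K < 6 * n := by
    have h2 : 2 * (C * DD h) * (Real.log n + 1) + (Real.log n + 1) ≤ n := by
      refine le_trans ?_ hp5
      have h3 : 0 ≤ (48 * (C * DD h)) / (6 * lam h) * (Real.log n + 1) := by positivity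
      nlinarith
    have h4 : 12 * (K : ℝ) < 6 * n := by nlinarith
    exact_mod_cast h4
  have hM1 : 1 ≤ M := by
    have h2 : (0 : ℝ) < M := lt_of_lt_of_le (by positivity) hM
    exact_mod_cast h2
  have hK' : (K : ℝ) ≤ C * DD h * Real.log n + C * DD h := by linarith
  have hb1 := asyD_one h h0 c n r K M v C hn7 hr1 hK2 hK12 F hF μ hcF hM1
    (hdesc n hn2 K M hK' hM) f hf
  have hP := hasyP n hn1 f hf v (r + 2) M (by
    push_cast
    linarith) hM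
  have hb2 := asyD_two h h0 δ' n r K M v r hn7 hr1 hK12 F hF hM hKx f hf hP
  have hpw := asyD_pow (ε / 4) μ Y r n hn7 hμ (hμh.trans hm1) hrY (by
    rw [hY]
    linear_combination Real.log n * hμe)
  obtain ⟨t, ht⟩ : ∃ t : ℝ, t = (TS f v).ncard := ⟨_, rfl⟩
  obtain ⟨b1, hb1'⟩ : ∃ b : ℝ, b =
    ({α | α ∈ TS f v ∧ M ≤ lfc f α ∧ (TB f α r F).ncard ≤ 1}.ncard : ℝ) := ⟨_, rfl⟩
  obtain ⟨b2, hb2'⟩ : ∃ b : ℝ, b = ((Bad f v r M r F).ncard : ℝ) := ⟨_, rfl⟩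
  have ht0 : 0 ≤ t := by
    rw [ht]
    positivity
  have hb10 : 0 ≤ b1 := by
    rw [hb1']
    positivity
  have hsub : ({α | α ∈ TS f v ∧ M ≤ lfc f α ∧
        ∀ a b, (dst f α a b : ℝ) ≤ 3 * (1 - ε) * DD h * Real.log n}.ncard : ℝ) ≤ b1 + b2 := by
    have h2 : {α | α ∈ TS f v ∧ M ≤ lfc f α ∧
        ∀ a b, (dst f α a b : ℝ) ≤ 3 * (1 - ε) * DD h * Real.log n} ⊆
        {α | α ∈ TS f v ∧ M ≤ lfc f α ∧ (TB f α r F).ncard ≤ 1} ∪ Bad f v r M r F := by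
      rintro α ⟨ha1, ha2, ha3⟩
      rcases Nat.lt_or_ge (TB f α r F).ncard 2 with h3 | h3
      · left
        exact ⟨ha1, ha2, by omega⟩
      · right
        refine ⟨ha1, ha2, h3, fun w hw w' hw' hne => ?_⟩
        by_contra hcon
        push Not at hcon
        obtain ⟨a, a', haa⟩ := two_far hf ha1.1 hr1
          (by rw [Fintype.card_fin]; exact hK12) F hF w w' hw hw' hne
        have h4 : 2 * r + (r + 1) ≤ dst f α a a' := by omega
        have h5 : (2 * (r : ℝ) + (r + 1)) ≤ dst f α a a' := by exact_mod_cast h4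
        have h6 := ha3 a a'
        have h7 : Y * 3 = 3 * (1 - ε) * DD h * Real.log n + 3 / 2 * (ε * DD h * Real.log n) := by
          rw [hY]
          ring
        nlinarith
    have h3 := Set.ncard_le_ncard h2 (Set.toFinite _)
    have h4 := h3.trans (Set.ncard_union_le _ _)
    rw [hb1', hb2']
    exact_mod_cast h4
  refine hsub.trans ?_
  rw [← ht] at hb1 hb2 ⊢
  rw [← hb1'] at hb1
  rw [← hb2'] at hb2
  have hmin1 : (n : ℝ) ^ (-(ε / 8)) ≤ (n : ℝ) ^ (-min (ε / 8) (δ' / 2)) :=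
    Real.rpow_le_rpow_of_exponent_le hnr (neg_le_neg (min_le_left _ _))
  have hmin2 : (n : ℝ) ^ (-(δ' / 2)) ≤ (n : ℝ) ^ (-min (ε / 8) (δ' / 2)) :=
    Real.rpow_le_rpow_of_exponent_le hnr (neg_le_neg (min_le_right _ _))
  have hf1 : b1 ≤ t * ((n : ℝ) ^ (-(ε / 8)) / 2) := by
    obtain ⟨l, hl⟩ : ∃ l : ℝ, l = Real.log n + 1 := ⟨_, rfl⟩
    have hl1 : 1 ≤ l := by linarith
    rw [← hl] at hCr hKl
    obtain ⟨A, hA⟩ : ∃ A : ℝ, A = C * DD h := ⟨_, rfl⟩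
    have hp3 := hpl n hn3
    rw [← hl, ← hA] at hp3
    rw [← hA] at hCr hKl hCD
    have h2 : (2 * (C * r) * ((8 * K + 1) * (6 * K)) : ℝ) ≤
        2 * (A * l) * ((8 * (A * l) + l) * (6 * (A * l))) := by
      gcongr
    have h3 : 2 * (A * l) * ((8 * (A * l) + l) * (6 * (A * l))) =
        (2 * A * ((8 * A + 1) * (6 * A))) * l ^ 3 := by ring
    have h4 : b1 * (6 * c * (n : ℝ) ^ (ε / 4)) ≤ t * ((2 * A * ((8 * A + 1) * (6 * A))) * l ^ 3) := by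
      refine le_trans ?_ (hb1.trans ?_)
      · gcongr
      · rw [← h3]
        exact mul_le_mul_of_nonneg_left h2 ht0
    have h5 : (2 * A * ((8 * A + 1) * (6 * A))) * l ^ 3 ≤ (6 * c) * ((n : ℝ) ^ (ε / 8) / 2) := by
      have h6 : 2 * ((2 * A * ((8 * A + 1) * (6 * A))) / (6 * c)) * l ^ 3 =
        2 * ((2 * A * ((8 * A + 1) * (6 * A))) * l ^ 3) / (6 * c) := by ring
      rw [h6, div_le_iff₀ (by positivity)] at hp3
      linarith
    have h7 : b1 * (6 * c * (n : ℝ) ^ (ε / 4)) ≤ t * ((6 * c) * ((n : ℝ) ^ (ε / 8) / 2)) :=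
      h4.trans (mul_le_mul_of_nonneg_left h5 ht0)
    have h8 : (0 : ℝ) < 6 * c * (n : ℝ) ^ (ε / 4) := by positivity
    refine le_of_mul_le_mul_right (h7.trans (le_of_eq ?_)) h8
    have h9 : (n : ℝ) ^ (ε / 8) = (n : ℝ) ^ (-(ε / 8)) * (n : ℝ) ^ (ε / 4) := by
      rw [← Real.rpow_add hn0]
      congr 1
      ring
    rw [h9]
    ring
  have hf2 : b2 ≤ t * ((n : ℝ) ^ (-(δ' / 2)) / 2) := by
    have hp4 := hpl2 n hn4
    rw [pow_zero, mul_one] at hp4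
    refine hb2.trans (mul_le_mul_of_nonneg_left ?_ ht0)
    have h9 : (n : ℝ) ^ (-(δ' / 2)) = (n : ℝ) ^ (δ' / 2) * (n : ℝ) ^ (-δ') := by
      rw [← Real.rpow_add hn0]
      congr 1
      ring
    rw [h9]
    have h10 : (0 : ℝ) < (n : ℝ) ^ (-δ') := by positivity
    nlinarith
  have hg1 := mul_le_mul_of_nonneg_left hmin1 ht0
  have hg2 := mul_le_mul_of_nonneg_left hmin2 ht0
  linarith

end HG39
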