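import Pool.Agent.H39.HG.Defs
import Pool.Agent.H39.HG.GrPerm
import Pool.Agent.H39.HG.LabBasic
import Pool.Agent.H39.HG.GraphA
import Pool.Agent.H39.HG.GraphLab

/-!
[H39 HG MODEL]  (MP_bcc40c_pr)  The model of the frozen statement: pairs `p = (σ, α)` of permutations of
`Fin (6n)`; `f = σ * α`.

PROOFS.  model_iff: `→`: `TF (p.1 * p.2)`: `((p.1 * p.2)^3) x = x` is `f (f (f x)) = x`.  `PT f p.2 []`: inv, no
fixed points (`tri f [] = []`), con: a set closed under `f` and `α` is closed under `σ = f * α` (as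
`α * α = 1`), and under inverses (finite), so under the group generated; transitivity.  `cyc (f * p.2) =
cyc p.1` because `f * p.2 = p.1 * p.2 * p.2 = p.1`.  `←`: the orbit of `x` under the group generated by
`p.1, p.2` is closed under `f` and `α`.
leaf_fix: `Leaf f α w ↔ f (f w)` is a fixed point of `f * α`; the map `w ↦ f (f w)` is a bijection.
pairs_card: ordered pairs of vertices at distance at most `x` in terms of representatives: the map
`(a, b) ↦ ([a], [b])` is a bijection from pairs of darts with `rep a = a`, `rep b = b` to pairs of vertices.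
-/

set_option autoImplicit false

namespace HG39

open Equiv

variable {D : Type} [Fintype D] [DecidableEq D]

/-- the set `S n` of the frozen statement with `v` vertices -/
def Mod (n v : ℕ) (p : Perm (Fin (6 * n)) × Perm (Fin (6 * n))) : Prop :=
  (∀ x : Fin (6*n), p.2 x ≠ x ∧ p.2 (p.2 x) = x) ∧
  (∀ x : Fin (6*n), (p.1 * p.2) x ≠ x ∧ ((p.1 * p.2)^3) x = x) ∧
  (∀ x y : Fin (6*n), ∃ w ∈ Subgroup.closure ({p.1, p.2} : Set (Perm (Fin (6*n)))), w x = y) ∧
  Nat.card (Quotient (Equiv.Perm.SameCycle.setoid p.1)) = v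

theorem model_iff (n v : ℕ) (p : Perm (Fin (6 * n)) × Perm (Fin (6 * n))) :
    Mod n v p ↔ TF (p.1 * p.2) ∧ p.2 ∈ TS (p.1 * p.2) v ∧ p.2 * p.2 = 1 := by
  have hfin : ∀ (w : Perm (Fin (6 * n))) (P : Fin (6 * n) → Prop), (∀ d, P d → P (w d)) →
      ∀ d, P d → P (w⁻¹ d) := by
    intro w P hP d hd
    have h1 : ∀ k : ℕ, P ((w ^ k) d) := by
      intro k
      induction k with
      | zero => simpa using hd
      | succ k ih =>
        rw [pow_succ', Perm.mul_apply]
        exact hP _ ih
    have hk : w ^ (orderOf w - 1) = w⁻¹ := by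
      have hpos := orderOf_pos w
      have : w ^ (orderOf w - 1) * w = 1 := by
        rw [← pow_succ, Nat.sub_add_cancel hpos, pow_orderOf_eq_one]
      exact eq_inv_of_mul_eq_one_left this
    rw [← hk]
    exact h1 _
  constructor
  · rintro ⟨h1, h2, h3, h4⟩
    have hinv : p.2 * p.2 = 1 := by
      ext x
      rw [Perm.mul_apply, (h1 x).2]
      rfl
    have hσ : p.1 * p.2 * p.2 = p.1 := by rw [mul_assoc, hinv, mul_one]
    refine ⟨⟨?_, fun d => (h2 d).1⟩, ⟨⟨fun d => (h1 d).2, ?_, ?_, ?_⟩, ?_⟩, hinv⟩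
    · intro d
      have := (h2 d).2
      rw [pow_succ, pow_succ, pow_one, Perm.mul_apply, Perm.mul_apply] at this
      exact this
    · intro d
      simp only [tri, List.flatMap_nil, List.not_mem_nil, iff_false]
      exact (h1 d).1
    · simp [tri]
    · rintro P ⟨d0, -, hd0⟩ hPf hPα d -
      obtain ⟨w, hw, hwd⟩ := h3 d0 d
      have key : ∀ w ∈ Subgroup.closure ({p.1, p.2} : Set (Perm (Fin (6*n)))),
          ∀ x, P x → P (w x) := by
        intro w hw
        induction hw using Subgroup.closure_induction with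
        | mem x hx =>
          intro y hy
          rcases hx with rfl | hx
          · have := hPf _ (hPα _ hy)
            rw [← Perm.mul_apply, hσ] at this
            exact this
          · rw [Set.mem_singleton_iff] at hx
            rw [hx]
            exact hPα _ hy
        | one => intro y hy; simpa using hy
        | mul x y _ _ hx hy =>
          intro z hz
          rw [Perm.mul_apply]
          exact hx _ (hy _ hz)
        | inv x _ hx => exact hfin x P hx
      rw [← hwd]
      exact key w hw d0 hd0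
    · rw [hσ]
      exact h4
  · rintro ⟨htf, ⟨hpt, hcyc⟩, hinv⟩
    have hσ : p.1 * p.2 * p.2 = p.1 := by rw [mul_assoc, hinv, mul_one]
    have hnl : ∀ x, p.2 x ≠ x := by
      intro x hx
      have := (hpt.leg x).1 hx
      simp [tri] at this
    refine ⟨fun x => ⟨hnl x, hpt.inv x⟩, fun x => ⟨htf.nf x, ?_⟩, ?_, ?_⟩
    · rw [pow_succ, pow_succ, pow_one, Perm.mul_apply, Perm.mul_apply]
      exact htf.three x
    · intro x y
      have m1 : p.1 ∈ Subgroup.closure ({p.1, p.2} : Set (Perm (Fin (6*n)))) :=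
        Subgroup.subset_closure (by simp)
      have m2 : p.2 ∈ Subgroup.closure ({p.1, p.2} : Set (Perm (Fin (6*n)))) :=
        Subgroup.subset_closure (by simp)
      refine hpt.con (fun y => ∃ w ∈ Subgroup.closure ({p.1, p.2} : Set (Perm (Fin (6*n)))),
        w x = y) ⟨x, hnl x, 1, Subgroup.one_mem _, rfl⟩ ?_ ?_ y (hnl y)
      · rintro d ⟨w, hw, rfl⟩
        exact ⟨p.1 * p.2 * w, Subgroup.mul_mem _ (Subgroup.mul_mem _ m1 m2) hw, rfl⟩
      · rintro d ⟨w, hw, rfl⟩
        exact ⟨p.2 * w, Subgroup.mul_mem _ m2 hw, rfl⟩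
    · rw [hσ] at hcyc
      exact hcyc

theorem leaf_fix {f α : Perm D} (hf : TF f) (hα : ∀ d, α (α d) = d) :
    Nat.card {x // (f * α) x = x} = lfc f α := by
  refine Nat.card_congr (Equiv.subtypeEquiv f ?_)
  intro x
  show (f * α) x = x ↔ α (f (f x)) = f (f (f x))
  rw [hf.three, Perm.mul_apply]
  constructor
  · intro h
    have h2 : f (f x) = α x := by
      conv_lhs => rw [← h]
      exact hf.three _
    rw [h2, hα]
  · intro h
    have h2 : f (f x) = α x := by
      rw [← hα (f (f x)), h]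
    rw [← h2, hf.three]

theorem pairs_card {f α : Perm D} (hf : TF f) (hα : PT f α []) (x : ℝ) (R : ℕ)
    (hR : ∀ k : ℕ, (k : ℝ) ≤ x → k ≤ R) :
    (Nat.card {q : Quotient (Equiv.Perm.SameCycle.setoid (f * α)) ×
        Quotient (Equiv.Perm.SameCycle.setoid (f * α)) //
        ((gr (f * α) α).dist q.1 q.2 : ℝ) ≤ x}) ≤
      ∑ r ∈ Finset.range (R + 1),
        Nat.card {p : D × D // rep f α p.1 = p.1 ∧ rep f α p.2 = p.2 ∧ dst f α p.1 p.2 = r} := by
  classical
  have h1 : ∀ r : ℕ, Nat.card {p : D × D // rep f α p.1 = p.1 ∧ rep f α p.2 = p.2 ∧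
      dst f α p.1 p.2 = r} = ({p : D × D | rep f α p.1 = p.1 ∧ rep f α p.2 = p.2 ∧
      dst f α p.1 p.2 = r} : Set (D × D)).ncard := fun r => rfl
  have h2 : Nat.card {q : Quotient (Equiv.Perm.SameCycle.setoid (f * α)) ×
        Quotient (Equiv.Perm.SameCycle.setoid (f * α)) //
        ((gr (f * α) α).dist q.1 q.2 : ℝ) ≤ x} =
      ({q : Quotient (Equiv.Perm.SameCycle.setoid (f * α)) ×
        Quotient (Equiv.Perm.SameCycle.setoid (f * α)) |
        ((gr (f * α) α).dist q.1 q.2 : ℝ) ≤ x} : Set _).ncard := rfl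
  rw [h2]
  simp only [h1]
  refine le_trans ?_ (Finset.set_ncard_biUnion_le (Finset.range (R + 1)) _)
  apply Set.ncard_le_ncard_of_injOn (fun q => (Quotient.out q.1, Quotient.out q.2))
  · intro q hq
    simp only [Set.mem_ofPred_eq] at hq
    simp only [Set.mem_iUnion, Set.mem_ofPred_eq, exists_prop]
    refine ⟨(gr (f * α) α).dist q.1 q.2, ?_, ?_, ?_, ?_⟩
    · rw [Finset.mem_range]
      exact Nat.lt_succ_of_le (hR _ hq)
    · show Quotient.out (Quotient.mk _ (Quotient.out q.1)) = Quotient.out q.1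
      rw [Quotient.out_eq]
    · show Quotient.out (Quotient.mk _ (Quotient.out q.2)) = Quotient.out q.2
      rw [Quotient.out_eq]
    · show (gr (f * α) α).dist (Quotient.mk _ (Quotient.out q.1))
        (Quotient.mk _ (Quotient.out q.2)) = _
      rw [Quotient.out_eq, Quotient.out_eq]
  · intro q _ q' _ h
    simp only [Prod.mk.injEq] at h
    have g1 := congrArg (Quotient.mk (Equiv.Perm.SameCycle.setoid (f * α))) h.1
    have g2 := congrArg (Quotient.mk (Equiv.Perm.SameCycle.setoid (f * α))) h.2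
    rw [Quotient.out_eq, Quotient.out_eq] at g1 g2
    exact Prod.ext g1 g2

/-- number of vertices -/
theorem card_ge_leaf {f α : Perm D} (hf : TF f) (hα : PT f α []) : lfc f α ≤ cyc (f * α) := by
  rw [← leaf_fix hf hα.inv]
  apply Nat.card_le_card_of_injective
    (fun x : {x // (f * α) x = x} =>
      (Quotient.mk (Equiv.Perm.SameCycle.setoid (f * α)) x.1 :
        Quotient (Equiv.Perm.SameCycle.setoid (f * α))))
  intro x y h
  have h2 : (f * α).SameCycle x.1 y.1 := Quotient.exact h
  obtain ⟨k, hk⟩ := h2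
  apply Subtype.ext
  rw [← hk]
  exact (Equiv.Perm.zpow_apply_eq_self_of_apply_eq_self x.2 k).symm

theorem dst_le_diam {f α : Perm D} (hf : TF f) (hα : PT f α []) (a b : D) :
    dst f α a b ≤ (gr (f * α) α).diam := by
  have : Nonempty D := ⟨a⟩
  have hq : Nonempty (Quotient (Equiv.Perm.SameCycle.setoid (f * α))) := ⟨Quotient.mk _ a⟩
  have hc := gr_conn hf hα
  exact SimpleGraph.dist_le_diam (SimpleGraph.connected_iff_ediam_ne_top.1 hc)

end HG39
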