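import Pool.Agent.H39.HG.Defs
import Pool.Agent.H39.HG.YDef
import Pool.Agent.H39.HG.GrPerm
import Pool.Agent.H39.HG.GraphLab
import Pool.Agent.H39.HG.TLim
import Pool.Agent.H39.HG.AsyP
import Pool.Agent.H39.HG.AsyD
import Pool.Agent.H39.HG.Model

/-!
[H39 HG FINAL]  (MP_bcc40c_pr)  The final theorem (notation of the frozen statement).

PROOF.  Fix `h, g, S, G` and `ε`; we may assume `ε < 1` for the estimates: for `ε ≥ 1` the bound
`(1 - ε) D log n ≤ 0` (n ≥ 1) allows only distance 0, which is contained in the case `ε = 1/2` (monotone: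
the quantities are decreasing in `ε`).  `G n p = gr p.1 p.2` (extensionality from the hypothesis).
For `n ≥ 1` put `v = n + 2 - 2 g n`, or: if `S n` is nonempty let `v` be the number of vertices of its
elements (`v + 2 g n = n + 2`), then `p ∈ S n ↔ Mod n v p`; if `S n` is empty the sums are 0.
By model_iff, `S n` is in bijection with the pairs `(f, α)`, `TF f`, `α ∈ TS f v` (`p ↦ (p.1 * p.2, p.2)`,
inverse `(f * α, α)`), so `(S n).card = ∑_{f, TF f} (TS f v).ncard`.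
M = ⌈6 n lam h⌉.  The condition `6 n lam h ≤ Nat.card {x // p.1 x = x}` is `M ≤ lfc f α` (leaf_fix).
(1) The sum over the pairs is at most `∑_f ∑_{r ≤ R} (Pr f v r M).ncard / v^2` with `R = ⌊(1-ε) DD h log n⌋`
(pairs_card), `v ≥ lfc ≥ 6 n lam h` if the set is nonempty (card_ge_leaf), asyP:
`≤ ∑_f (TS f v).ncard n^(2-δ) / (6 n lam)^2 = (S n).card * C n^(-δ)`; divide by `(S n).card`.
(2) `diam ≤ x` implies `dst a b ≤ x` for all `a, b` (dst_le_diam), asyD.
squeeze with `n^(-δ) → 0`.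
-/

set_option autoImplicit false

namespace HG39

open Equiv

variable {D : Type} [Fintype D] [DecidableEq D]

open Finset in
theorem ncard_fib {A B : Type} [Fintype A] [Fintype B] [DecidableEq A] [DecidableEq B]
    (P : A → Prop) (Q : A → B → Prop) [DecidablePred P] :
    {c : A × B | P c.1 ∧ Q c.1 c.2}.ncard = ∑ a ∈ univ.filter P, Nat.card {b // Q a b} := by
  classical
  rw [Set.ncard_eq_toFinset_card', Set.toFinset_ofPred, Finset.card_filter, Fintype.sum_prod_type,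
    Finset.sum_filter]
  apply Finset.sum_congr rfl
  intro a _
  by_cases h : P a
  · simp only [h, true_and, if_true]
    rw [Nat.card_eq_fintype_card, Fintype.card_subtype, Finset.card_filter]
  · simp [h]

open Finset in
open Classical in
theorem pr_card (f : Perm D) (v r M : ℕ) :
    (Pr f v r M).ncard = ∑ α ∈ univ.filter (fun α => α ∈ TS f v ∧ M ≤ lfc f α),
      Nat.card {p : D × D // rep f α p.1 = p.1 ∧ rep f α p.2 = p.2 ∧ dst f α p.1 p.2 = r} := by
  rw [← ncard_fib (fun α => α ∈ TS f v ∧ M ≤ lfc f α)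
    (fun α (p : D × D) => rep f α p.1 = p.1 ∧ rep f α p.2 = p.2 ∧ dst f α p.1 p.2 = r)]
  congr 1
  ext c
  simp only [Pr, Set.mem_ofPred_eq]
  tauto

open Finset in
open Classical in
theorem sum_model {v : ℕ} (Sn : Finset (Perm D × Perm D))
    (hS : ∀ p, p ∈ Sn ↔ TF (p.1 * p.2) ∧ p.2 ∈ TS (p.1 * p.2) v ∧ p.2 * p.2 = 1)
    (W : Perm D → Perm D → ℝ) :
    ∑ p ∈ Sn, W (p.1 * p.2) p.2 =
      ∑ f ∈ univ.filter (fun f : Perm D => TF f), ∑ α ∈ univ.filter (fun α => α ∈ TS f v),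
        W f α := by
  have h1 : ∑ p ∈ Sn, W (p.1 * p.2) p.2 = ∑ p : Perm D × Perm D,
      if TF (p.1 * p.2) ∧ p.2 ∈ TS (p.1 * p.2) v then W (p.1 * p.2) p.2 else 0 := by
    rw [← Finset.sum_filter]
    apply Finset.sum_congr
    · ext p
      rw [hS, Finset.mem_filter]
      constructor
      · rintro ⟨a, b, _⟩
        exact ⟨Finset.mem_univ _, a, b⟩
      · rintro ⟨_, a, b⟩
        refine ⟨a, b, ?_⟩
        ext x
        simp only [Perm.mul_apply, Perm.one_apply]
        rw [b.1.inv]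
    · intro _ _
      rfl
  let Φ : Perm D × Perm D ≃ Perm D × Perm D :=
    { toFun := fun p => (p.1 * p.2, p.2)
      invFun := fun p => (p.1 * p.2⁻¹, p.2)
      left_inv := fun p => by simp
      right_inv := fun p => by simp }
  rw [h1]
  refine (Fintype.sum_equiv Φ (fun p : Perm D × Perm D =>
    if TF (p.1 * p.2) ∧ p.2 ∈ TS (p.1 * p.2) v then W (p.1 * p.2) p.2 else 0)
    (fun q : Perm D × Perm D =>
    if TF q.1 ∧ q.2 ∈ TS q.1 v then W q.1 q.2 else 0) (fun p => rfl)).trans ?_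
  rw [Fintype.sum_prod_type, Finset.sum_filter]
  apply Finset.sum_congr rfl
  intro f _
  by_cases h : TF f
  · simp only [h, true_and, if_true]
    rw [Finset.sum_filter]
  · simp [h]

open Finset in
open Classical in
theorem card_model {v : ℕ} (Sn : Finset (Perm D × Perm D))
    (hS : ∀ p, p ∈ Sn ↔ TF (p.1 * p.2) ∧ p.2 ∈ TS (p.1 * p.2) v ∧ p.2 * p.2 = 1) :
    (Sn.card : ℝ) = ∑ f ∈ univ.filter (fun f : Perm D => TF f), ((TS f v).ncard : ℝ) := by
  have := sum_model Sn hS (fun _ _ => 1)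
  simp only [Finset.sum_const, nsmul_eq_mul, mul_one] at this
  rw [this]
  apply Finset.sum_congr rfl
  intro f _
  rw [Set.ncard_eq_toFinset_card']
  congr 2
  ext α
  simp

open Finset in
open Classical in
/-- estimate of the sum over the pairs, for fixed `n` -/
theorem final_pairs {v M R : ℕ} (Sn : Finset (Perm D × Perm D))
    (hS : ∀ p, p ∈ Sn ↔ TF (p.1 * p.2) ∧ p.2 ∈ TS (p.1 * p.2) v ∧ p.2 * p.2 = 1)
    (L X : ℝ) (hL : 0 < L) (hM : ∀ k : ℕ, L ≤ k ↔ M ≤ k) (hR : ∀ k : ℕ, (k : ℝ) ≤ X → k ≤ R)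
    (B : ℝ) (hB : ∀ f : Perm D, TF f →
      (∑ r ∈ Finset.range (R + 1), ((Pr f v r M).ncard : ℝ)) ≤ (TS f v).ncard * B) :
    (∑ p ∈ Sn.filter (fun p => L ≤ (Nat.card {x // p.1 x = x} : ℝ)),
      (Nat.card {q : Quotient (Equiv.Perm.SameCycle.setoid p.1) ×
          Quotient (Equiv.Perm.SameCycle.setoid p.1) //
          ((gr p.1 p.2).dist q.1 q.2 : ℝ) ≤ X} : ℝ)
        / ((Nat.card (Quotient (Equiv.Perm.SameCycle.setoid p.1)) : ℝ) ^ 2)) ≤
      (Sn.card : ℝ) * (B / L ^ 2) := by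
  let F : Perm D → Perm D → ℝ := fun σ α =>
    (Nat.card {q : Quotient (Equiv.Perm.SameCycle.setoid σ) ×
          Quotient (Equiv.Perm.SameCycle.setoid σ) // ((gr σ α).dist q.1 q.2 : ℝ) ≤ X} : ℝ)
  have hF0 : ∀ σ α, 0 ≤ F σ α := fun σ α => Nat.cast_nonneg _
  let W : Perm D → Perm D → ℝ := fun f α =>
    if M ≤ lfc f α then F (f * α) α / L ^ 2 else 0
  have hmul : ∀ p ∈ Sn, p.1 * p.2 * p.2 = p.1 := by
    intro p hp
    rw [mul_assoc, ((hS p).1 hp).2.2, mul_one]
  have hlf : ∀ p ∈ Sn, Nat.card {x // p.1 x = x} = lfc (p.1 * p.2) p.2 := by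
    intro p hp
    obtain ⟨h1, h2, h3⟩ := (hS p).1 hp
    rw [← leaf_fix h1 h2.1.inv, hmul p hp]
  have h1 : (∑ p ∈ Sn.filter (fun p => L ≤ (Nat.card {x // p.1 x = x} : ℝ)),
      (Nat.card {q : Quotient (Equiv.Perm.SameCycle.setoid p.1) ×
          Quotient (Equiv.Perm.SameCycle.setoid p.1) //
          ((gr p.1 p.2).dist q.1 q.2 : ℝ) ≤ X} : ℝ)
        / ((Nat.card (Quotient (Equiv.Perm.SameCycle.setoid p.1)) : ℝ) ^ 2)) ≤
      ∑ p ∈ Sn, W (p.1 * p.2) p.2 := by
    rw [Finset.sum_filter]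
    apply Finset.sum_le_sum
    intro p hp
    by_cases hc : L ≤ (Nat.card {x // p.1 x = x} : ℝ)
    · rw [if_pos hc]
      have hc' := (hM _).1 hc
      rw [hlf p hp] at hc'
      show _ ≤ (if M ≤ lfc (p.1 * p.2) p.2 then F (p.1 * p.2 * p.2) p.2 / L ^ 2 else 0)
      rw [if_pos hc', hmul p hp]
      show F p.1 p.2 / _ ≤ F p.1 p.2 / _
      apply div_le_div_of_nonneg_left (hF0 _ _) (by positivity)
      apply pow_le_pow_left₀ hL.le
      obtain ⟨h1, h2, h3⟩ := (hS p).1 hp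
      have h4 := card_ge_leaf h1 h2.1
      rw [← hlf p hp, hmul p hp] at h4
      refine hc.trans ?_
      exact_mod_cast h4
    · rw [if_neg hc]
      show _ ≤ (if M ≤ lfc (p.1 * p.2) p.2 then F (p.1 * p.2 * p.2) p.2 / L ^ 2 else 0)
      split_ifs
      · exact div_nonneg (hF0 _ _) (by positivity)
      · exact le_rfl
  refine h1.trans ?_
  rw [sum_model Sn hS W, card_model Sn hS, Finset.sum_mul]
  apply Finset.sum_le_sum
  intro f hf
  have htf : TF f := (Finset.mem_filter.1 hf).2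
  have h2 := hB f htf
  have h3 : ∑ α ∈ univ.filter (fun α => α ∈ TS f v), W f α ≤
      (∑ r ∈ Finset.range (R + 1), ((Pr f v r M).ncard : ℝ)) / L ^ 2 := by
    have h4 : (∑ r ∈ Finset.range (R + 1), ((Pr f v r M).ncard : ℝ)) =
        ∑ α ∈ univ.filter (fun α => α ∈ TS f v ∧ M ≤ lfc f α), ∑ r ∈ Finset.range (R + 1),
          (Nat.card {p : D × D // rep f α p.1 = p.1 ∧ rep f α p.2 = p.2 ∧
            dst f α p.1 p.2 = r} : ℝ) := by
      rw [Finset.sum_comm]
      apply Finset.sum_congr rfl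
      intro r _
      rw [pr_card]
      push_cast
      rfl
    rw [h4, Finset.sum_div, Finset.sum_filter, Finset.sum_filter]
    apply Finset.sum_le_sum
    intro α _
    show (if α ∈ TS f v then (if M ≤ lfc f α then F (f * α) α / L ^ 2 else 0) else 0) ≤ _
    by_cases hα' : α ∈ TS f v
    · by_cases hc : M ≤ lfc f α
      · rw [if_pos hα', if_pos hc, if_pos ⟨hα', hc⟩]
        apply div_le_div_of_nonneg_right _ (by positivity)
        have := pairs_card htf hα'.1 X R hR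
        have h5 : F (f * α) α ≤ ((∑ r ∈ Finset.range (R + 1), Nat.card {p : D × D //
            rep f α p.1 = p.1 ∧ rep f α p.2 = p.2 ∧ dst f α p.1 p.2 = r} : ℕ) : ℝ) :=
          Nat.cast_le.2 this
        rw [Nat.cast_sum] at h5
        exact h5
      · rw [if_pos hα', if_neg hc, if_neg (fun h => hc h.2)]
    · rw [if_neg hα', if_neg (fun h => hα' h.1)]
  refine h3.trans ?_
  rw [mul_div_assoc'] 
  exact div_le_div_of_nonneg_right h2 (by positivity)

open Finset in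
open Classical in
/-- estimate of the number of triangulations of small diameter, for fixed `n` -/
theorem final_diam {v M : ℕ} (Sn : Finset (Perm D × Perm D))
    (hS : ∀ p, p ∈ Sn ↔ TF (p.1 * p.2) ∧ p.2 ∈ TS (p.1 * p.2) v ∧ p.2 * p.2 = 1)
    (L Y Y' : ℝ) (hM : ∀ k : ℕ, L ≤ k ↔ M ≤ k) (hY : Y ≤ Y')
    (B : ℝ) (hB : ∀ f : Perm D, TF f →
      ({α | α ∈ TS f v ∧ M ≤ lfc f α ∧ ∀ a b, (dst f α a b : ℝ) ≤ Y'}.ncard : ℝ) ≤
        (TS f v).ncard * B) :
    (Nat.card {p : Perm D × Perm D // p ∈ Sn ∧ L ≤ (Nat.card {x // p.1 x = x} : ℝ) ∧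
      ((gr p.1 p.2).diam : ℝ) ≤ Y} : ℝ) ≤ (Sn.card : ℝ) * B := by
  let W : Perm D → Perm D → ℝ := fun f α =>
    if M ≤ lfc f α ∧ ∀ a b, (dst f α a b : ℝ) ≤ Y' then 1 else 0
  have hmul : ∀ p ∈ Sn, p.1 * p.2 * p.2 = p.1 := by
    intro p hp
    rw [mul_assoc, ((hS p).1 hp).2.2, mul_one]
  have h1 : (Nat.card {p : Perm D × Perm D // p ∈ Sn ∧ L ≤ (Nat.card {x // p.1 x = x} : ℝ) ∧
      ((gr p.1 p.2).diam : ℝ) ≤ Y} : ℝ) ≤ ∑ p ∈ Sn, W (p.1 * p.2) p.2 := by
    have e1 : Nat.card {p : Perm D × Perm D // p ∈ Sn ∧ L ≤ (Nat.card {x // p.1 x = x} : ℝ) ∧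
        ((gr p.1 p.2).diam : ℝ) ≤ Y} = (Sn.filter (fun p => L ≤ (Nat.card {x // p.1 x = x} : ℝ) ∧
        ((gr p.1 p.2).diam : ℝ) ≤ Y)).card := by
      rw [Nat.card_eq_fintype_card, Fintype.card_subtype]
      congr 1
      ext p
      simp only [Finset.mem_filter, Finset.mem_univ, true_and]
    rw [e1, Finset.card_filter, Nat.cast_sum]
    apply Finset.sum_le_sum
    intro p hp
    obtain ⟨h1, h2, h3⟩ := (hS p).1 hp
    by_cases hc : L ≤ (Nat.card {x // p.1 x = x} : ℝ) ∧ ((gr p.1 p.2).diam : ℝ) ≤ Y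
    · have g1 : M ≤ lfc (p.1 * p.2) p.2 := by
        rw [← leaf_fix h1 h2.1.inv, hmul p hp]
        exact (hM _).1 hc.1
      have g2 : ∀ a b, (dst (p.1 * p.2) p.2 a b : ℝ) ≤ Y' := by
        intro a b
        have g3 := dst_le_diam h1 h2.1 a b
        rw [hmul p hp] at g3
        have g4 : (dst (p.1 * p.2) p.2 a b : ℝ) ≤ ((gr p.1 p.2).diam : ℝ) := by exact_mod_cast g3
        linarith [hc.2]
      show _ ≤ (if M ≤ lfc (p.1 * p.2) p.2 ∧ ∀ a b, (dst (p.1 * p.2) p.2 a b : ℝ) ≤ Y' then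
        (1 : ℝ) else 0)
      rw [if_pos hc, if_pos ⟨g1, g2⟩]
      simp
    · rw [if_neg hc]
      show _ ≤ (if M ≤ lfc (p.1 * p.2) p.2 ∧ ∀ a b, (dst (p.1 * p.2) p.2 a b : ℝ) ≤ Y' then
        (1 : ℝ) else 0)
      split_ifs <;> simp
  refine h1.trans ?_
  rw [sum_model Sn hS W, card_model Sn hS, Finset.sum_mul]
  apply Finset.sum_le_sum
  intro f hf
  have htf : TF f := (Finset.mem_filter.1 hf).2
  refine le_trans (le_of_eq ?_) (hB f htf)
  rw [← Finset.sum_filter, Finset.sum_const, nsmul_eq_mul, mul_one, Finset.filter_filter,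
    Set.ncard_eq_toFinset_card', Set.toFinset_ofPred]

theorem final (h : ℝ) (h0 : 0 < h) (h1 : h < 1 / 4) (g : ℕ → ℕ)
    (S : (n : ℕ) → Finset (Equiv.Perm (Fin (6*n)) × Equiv.Perm (Fin (6*n))))
    (hS : ∀ (n : ℕ) (p : Equiv.Perm (Fin (6*n)) × Equiv.Perm (Fin (6*n))),
      p ∈ S n ↔
        ((∀ x : Fin (6*n), p.2 x ≠ x ∧ p.2 (p.2 x) = x) ∧
         (∀ x : Fin (6*n), (p.1 * p.2) x ≠ x ∧ ((p.1 * p.2)^3) x = x) ∧
         (∀ x y : Fin (6*n), ∃ w ∈ Subgroup.closure ({p.1, p.2} : Set (Equiv.Perm (Fin (6*n)))),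
            w x = y) ∧
         Nat.card (Quotient (Equiv.Perm.SameCycle.setoid p.1)) + 2 * g n = n + 2))
    (G : (n : ℕ) → (p : Equiv.Perm (Fin (6*n)) × Equiv.Perm (Fin (6*n))) →
      SimpleGraph (Quotient (Equiv.Perm.SameCycle.setoid p.1)))
    (hG : ∀ (n : ℕ) (p : Equiv.Perm (Fin (6*n)) × Equiv.Perm (Fin (6*n)))
       (a b : Quotient (Equiv.Perm.SameCycle.setoid p.1)),
      (G n p).Adj a b ↔
        (a ≠ b ∧ ∃ x : Fin (6*n),
          ((Quotient.mk (Equiv.Perm.SameCycle.setoid p.1) x = a ∧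
            Quotient.mk (Equiv.Perm.SameCycle.setoid p.1) (p.2 x) = b) ∨
           (Quotient.mk (Equiv.Perm.SameCycle.setoid p.1) x = b ∧
            Quotient.mk (Equiv.Perm.SameCycle.setoid p.1) (p.2 x) = a))))
    (ε : ℝ) (hε : 0 < ε) :
    Filter.Tendsto
      (fun n : ℕ =>
        (∑ p ∈ (S n).filter (fun p => 6 * (n : ℝ) * lam h ≤ (Nat.card {x // p.1 x = x} : ℝ)),
          (Nat.card {q : Quotient (Equiv.Perm.SameCycle.setoid p.1) ×
              Quotient (Equiv.Perm.SameCycle.setoid p.1) //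
              ((G n p).dist q.1 q.2 : ℝ) ≤ (1 - ε) * DD h * Real.log (n : ℝ)} : ℝ)
            / ((Nat.card (Quotient (Equiv.Perm.SameCycle.setoid p.1)) : ℝ) ^ 2))
          / ((S n).card : ℝ))
      Filter.atTop (nhds 0)
    ∧
    Filter.Tendsto
      (fun n : ℕ =>
        (Nat.card {p : Equiv.Perm (Fin (6*n)) × Equiv.Perm (Fin (6*n)) //
            p ∈ S n ∧ 6 * (n : ℝ) * lam h ≤ (Nat.card {x // p.1 x = x} : ℝ) ∧
            ((G n p).diam : ℝ) ≤ 3 * (1 - ε) * DD h * Real.log (n : ℝ)} : ℝ)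
          / ((S n).card : ℝ))
      Filter.atTop (nhds 0) := by
  classical
  -- reduction to pairs (f, α)
  have hS' : ∀ n : ℕ, 1 ≤ n → ∀ p, p ∈ S n ↔ TF (p.1 * p.2) ∧
      p.2 ∈ TS (p.1 * p.2) (n + 2 - 2 * g n) ∧ p.2 * p.2 = 1 := by
    intro n hn p
    rw [← model_iff, hS, Mod]
    have hne : Nonempty (Fin (6 * n)) := ⟨⟨0, by omega⟩⟩
    have hq : Nonempty (Quotient (Equiv.Perm.SameCycle.setoid p.1)) :=
      ⟨Quotient.mk _ hne.some⟩
    have hc : 0 < Nat.card (Quotient (Equiv.Perm.SameCycle.setoid p.1)) := Nat.card_pos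
    constructor
    · rintro ⟨a1, a2, a3, a4⟩
      exact ⟨a1, a2, a3, by omega⟩
    · rintro ⟨a1, a2, a3, a4⟩
      exact ⟨a1, a2, a3, by omega⟩
  have hG' : ∀ n p, G n p = gr p.1 p.2 := by
    intro n p
    ext a b
    rw [hG]
    rfl
  obtain ⟨mh0, mh1, _⟩ := mh_prop h h0 h1
  have hD : 0 < DD h := by
    unfold DD
    apply one_div_pos.2
    have := Real.log_neg mh0 mh1
    linarith
  have hlam := lam_pos h h0
  obtain ⟨ε', he0, he1, heε⟩ : ∃ ε' : ℝ, 0 < ε' ∧ ε' < 1 ∧ ε' ≤ ε :=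
    ⟨min ε (1 / 2), by positivity, by
      have := min_le_right ε (1 / 2)
      linarith, min_le_left _ _⟩
  have hM : ∀ (n : ℕ) (k : ℕ), 6 * (n : ℝ) * lam h ≤ k ↔ ⌈6 * (n : ℝ) * lam h⌉₊ ≤ k := by
    intro n k
    rw [Nat.ceil_le]
  have hlim : ∀ δ : ℝ, 0 < δ → Filter.Tendsto (fun n : ℕ => (n : ℝ) ^ (-δ)) Filter.atTop
      (nhds 0) := by
    intro δ hδ
    exact (tendsto_rpow_neg_atTop hδ).comp tendsto_natCast_atTop_atTop
  have hlog : ∀ n : ℕ, 1 ≤ n → 0 ≤ Real.log n := by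
    intro n hn
    apply Real.log_nonneg
    exact_mod_cast hn
  constructor
  · obtain ⟨δ, hδ, n0, hP⟩ := asyP h ε' h0 h1 he0 he1
    have hup : Filter.Tendsto (fun n : ℕ => (n : ℝ) ^ (-δ) * (1 / (6 * lam h) ^ 2)) Filter.atTop
        (nhds 0) := by
      have := (hlim δ hδ).mul_const (1 / (6 * lam h) ^ 2)
      rwa [zero_mul] at this
    refine squeeze_zero' (Filter.Eventually.of_forall fun n => ?_)
      (Filter.eventually_atTop.2 ⟨max n0 1, fun n hn => ?_⟩) hup
    · apply div_nonneg _ (Nat.cast_nonneg _)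
      apply Finset.sum_nonneg
      intro p _
      positivity
    · have hn0 : n0 ≤ n := le_trans (le_max_left _ _) hn
      have hn1 : 1 ≤ n := le_trans (le_max_right _ _) hn
      have hnp : (0 : ℝ) < n := by exact_mod_cast hn1
      have hXX : (1 - ε) * DD h * Real.log n ≤ (1 - ε') * DD h * Real.log n := by
        apply mul_le_mul_of_nonneg_right _ (hlog n hn1)
        apply mul_le_mul_of_nonneg_right _ hD.le
        linarith
      have hX0 : 0 ≤ (1 - ε') * DD h * Real.log n :=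
        mul_nonneg (mul_nonneg (by linarith) hD.le) (hlog n hn1)
      have hR2 : ((⌊(1 - ε) * DD h * Real.log n⌋₊ : ℕ) : ℝ) ≤
          (1 - ε') * DD h * Real.log n + 2 := by
        rcases le_or_gt 0 ((1 - ε) * DD h * Real.log n) with h2 | h2
        · have := Nat.floor_le h2
          linarith
        · rw [Nat.floor_of_nonpos h2.le]
          push_cast
          linarith
      have hL : 0 < 6 * (n : ℝ) * lam h := by positivity
      have key := final_pairs (M := ⌈6 * (n : ℝ) * lam h⌉₊)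
        (R := ⌊(1 - ε) * DD h * Real.log n⌋₊) (S n) (hS' n hn1) (6 * (n : ℝ) * lam h)
        ((1 - ε) * DD h * Real.log n) hL (hM n) (fun k hk => Nat.le_floor hk)
        ((n : ℝ) ^ (2 - δ)) (fun f hf => hP n hn0 f hf _ _ _ hR2 (Nat.le_ceil _))
      have hsum : (∑ p ∈ (S n).filter (fun p => 6 * (n : ℝ) * lam h ≤
          (Nat.card {x // p.1 x = x} : ℝ)),
          (Nat.card {q : Quotient (Equiv.Perm.SameCycle.setoid p.1) ×
              Quotient (Equiv.Perm.SameCycle.setoid p.1) //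
              ((G n p).dist q.1 q.2 : ℝ) ≤ (1 - ε) * DD h * Real.log (n : ℝ)} : ℝ)
            / ((Nat.card (Quotient (Equiv.Perm.SameCycle.setoid p.1)) : ℝ) ^ 2)) ≤
          ((S n).card : ℝ) * ((n : ℝ) ^ (2 - δ) / (6 * (n : ℝ) * lam h) ^ 2) := by
        refine le_trans (le_of_eq ?_) key
        apply Finset.sum_congr
        · congr
        · intro p _
          rw [hG' n p]
      have hval : (n : ℝ) ^ (2 - δ) / (6 * (n : ℝ) * lam h) ^ 2 =
          (n : ℝ) ^ (-δ) * (1 / (6 * lam h) ^ 2) := by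
        rw [show (2 : ℝ) - δ = -δ + 2 by ring, Real.rpow_add hnp]
        have h3 : (n : ℝ) ^ (2 : ℝ) = (n : ℝ) ^ 2 := by norm_cast
        rw [h3]
        field_simp
      rw [hval] at hsum
      rcases Nat.eq_zero_or_pos (S n).card with hc | hc
      · rw [hc, Nat.cast_zero, div_zero]
        positivity
      · have hc' : (0 : ℝ) < (S n).card := by exact_mod_cast hc
        rw [div_le_iff₀ hc']
        exact hsum.trans (le_of_eq (mul_comm _ _))
  · obtain ⟨δ, hδ, n0, hP⟩ := asyD h ε' h0 h1 he0 he1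
    refine squeeze_zero' (Filter.Eventually.of_forall fun n => ?_)
      (Filter.eventually_atTop.2 ⟨max n0 1, fun n hn => ?_⟩) (hlim δ hδ)
    · exact div_nonneg (Nat.cast_nonneg _) (Nat.cast_nonneg _)
    · have hn0 : n0 ≤ n := le_trans (le_max_left _ _) hn
      have hn1 : 1 ≤ n := le_trans (le_max_right _ _) hn
      have hnp : (0 : ℝ) < n := by exact_mod_cast hn1
      have hXX : 3 * (1 - ε) * DD h * Real.log n ≤ 3 * (1 - ε') * DD h * Real.log n := by
        apply mul_le_mul_of_nonneg_right _ (hlog n hn1)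
        apply mul_le_mul_of_nonneg_right _ hD.le
        linarith
      have key := final_diam (M := ⌈6 * (n : ℝ) * lam h⌉₊) (S n) (hS' n hn1)
        (6 * (n : ℝ) * lam h) (3 * (1 - ε) * DD h * Real.log n)
        (3 * (1 - ε') * DD h * Real.log n) (hM n) hXX ((n : ℝ) ^ (-δ))
        (fun f hf => hP n hn0 f hf _ _ (Nat.le_ceil _))
      have hsum : (Nat.card {p : Equiv.Perm (Fin (6*n)) × Equiv.Perm (Fin (6*n)) //
            p ∈ S n ∧ 6 * (n : ℝ) * lam h ≤ (Nat.card {x // p.1 x = x} : ℝ) ∧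
            ((G n p).diam : ℝ) ≤ 3 * (1 - ε) * DD h * Real.log (n : ℝ)} : ℝ) ≤
          ((S n).card : ℝ) * (n : ℝ) ^ (-δ) := by
        refine le_trans (le_of_eq ?_) key
        have hGf : G n = (fun p : Perm (Fin (6 * n)) × Perm (Fin (6 * n)) => gr p.1 p.2) :=
          funext (fun p => hG' n p)
        rw [hGf]
      rcases Nat.eq_zero_or_pos (S n).card with hc | hc
      · rw [hc, Nat.cast_zero, div_zero]
        positivity
      · have hc' : (0 : ℝ) < (S n).card := by exact_mod_cast hc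
        rw [div_le_iff₀ hc']
        exact hsum.trans (le_of_eq (mul_comm _ _))

end HG39
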