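import Pool.Agent.H39.HG.Defs
import Pool.Agent.H39.HG.GlueVal
import Pool.Agent.H39.HG.GrPerm
import Pool.Agent.H39.HG.EmbBasic
import Pool.Agent.H39.HG.ScanLev
import Pool.Agent.H39.HG.LabA
import Pool.Agent.H39.HG.LabBasic
import Pool.Agent.H39.HG.SlcBasic
import Pool.Agent.H39.HG.InsLen
import Pool.Agent.H39.HG.InsVal
import Pool.Agent.H39.HG.Lam

/-!
[H39 HG INSGEO]  (MP_bcc40c_pr)  Insertion of a slice: the left boundary is a leftmost geodesic.

Setting (structure `InsH`, InsLen.lean): `PT f α (e :: c :: bs)`, labels `Lab f α ℓ`, a leftmost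
geodesic `δ1 :: δs` of non-legs of length `r` (`ℓ δ1 = r`), an admissible tree `T` with
`bs.length = T.sz + 1`.  `insS f α e c bs T δ1 δs` (Defs.lean) is the involution `α'` in which
 * the edges `{δ, α δ}` (`δ ∈ δ1 :: δs`) are cut,
 * `e <-> c`, `f c <-> f (f c)` (cap), `f (f e) <-> δ1`,
 * the tree `nd d T` is grown at `f e` with the roots `bs` (pairs `g.1`, leaves `g.2.1`),
 * the parentheses of the leaves are matched (pairs `s.1`), unmatched down leaves `As = s.2.1` (length
   `r`), unmatched up leaves `Bs' = s.2.2` (length `r - 1`, last one first),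
 * `Bs'[j] <-> δs[j]`, `As[j] <-> α (δ1 :: δs)[j]`.

Here `ℓ'` are labels as in ins_slc (InsSlc.lean): equal to `ℓ` on the non-legs `M` of `α`, and the new slice is
a slice for `ℓ'`.  `As`: levels `A_j`: `r-j+1 → r-j` (slc_lev), so all are descending and the last one ends
at level 0.  Notation: `ρ = α * f⁻¹`, `ρ' = α' * f⁻¹`.
Crossing rule: for `z ∈ M`: `f⁻¹ z ∈ M`, `ρ' z = α' (f⁻¹ z)`, which is `ρ z` unless `f⁻¹ z` is on the slit;
`f⁻¹ z = α δ_i`: `ρ z = δ_i`, `ρ' z = A_i`;  `f⁻¹ z = δ_i`: `ρ z = α δ_i`, `ρ' z = B_i` (ins_maps).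
`α' A_j = α δ_j`, and `Fst f α ℓ (α δ_j) δ_{j+1}` (H.geo).  Let `k` be the number of steps of that path,
`z_i = ρ^i (α δ_j)`, non-descending for `i < k`, all in `M`, of level `r - j` (lab_same).  Claim
`ρ'^i (α δ_j) = z_i` for `i < k`, and `ρ'^k (α δ_j) = A_{j+1}`.  For the step from `z_i` to `z_{i+1}`:
if `f⁻¹ z_i = α δ_m` then `z_{i+1} = δ_m` is descending, so `i + 1 = k` and `δ_m = δ_{j+1}`: `ρ' z_i = A_{j+1}`;
if `f⁻¹ z_i = δ_m` then `z_{i+1} = α δ_m`, of level `r - m`, so `m = j`: the path returns to its starting point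
`z_0 = α δ_j` after `i + 1 ≤ k` steps; then `z_k = z_(k-i-1)` is non-descending, contradiction.
At `i = k - 1` the step must be a crossing of the first kind, because `z_k = δ_{j+1} = α (f⁻¹ z_{k-1})` means
`f⁻¹ z_{k-1} = α δ_{j+1}`.  (`k ≥ 1` because `α δ_j` is not descending.)  Descending for `ℓ` and for `ℓ'` is
the same on `M` (`f z ∈ M`).
-/

set_option autoImplicit false

namespace HG39

open Equiv

variable {D : Type} [Fintype D] [DecidableEq D]

theorem map_getD2 (g : D → D) (e : D) (l l' : List D) (h : l.map g = l') (i : ℕ)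
    (hi : i < l.length) : g (l.getD i e) = l'.getD i e := by
  subst h
  rw [List.getD_eq_getElem _ _ hi, List.getD_eq_getElem _ _ (by simpa using hi)]
  simp

/-- the path of the first descending dart in the new map -/
theorem geo_cross {f α α' : Perm D} {ℓ : D → ℤ} {r j : ℕ} {M : D → Prop} {A δ : ℕ → D}
    (iv : ∀ d, α (α d) = d) (f3 : ∀ d, f (f (f d)) = d) (mf : ∀ d, M d → M (f d))
    (ma : ∀ d, M d → M (α d))
    (mv : ∀ d, M d → α' d = α d ∨ (∃ i < r, d = δ i) ∨ (∃ i < r, d = α (δ i)))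
    (md : ∀ i < r, M (δ i)) (vA : ∀ i < r, α' (α (δ i)) = A i)
    (lδ : ∀ i < r, ℓ (δ i) = r - i ∧ ℓ (f (δ i)) = r - i - 1)
    (verM : ∀ d, M d → ℓ (f d) = ℓ (α d)) (hj : j + 1 < r)
    (h : Fst f α ℓ (α (δ j)) (δ (j + 1))) :
    ∃ k : ℕ, ((α' * f⁻¹) ^ k) (α (δ j)) = A (j + 1) ∧
      ∀ t < k, M (((α' * f⁻¹) ^ t) (α (δ j))) ∧ ¬ Desc f ℓ (((α' * f⁻¹) ^ t) (α (δ j))) := by
  obtain ⟨hd, k, hk, hkt⟩ := h
  have hinv : ∀ d, f⁻¹ d = f (f d) := by
    intro d
    rw [Perm.inv_eq_iff_eq, f3]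
  have hMρ : ∀ (t : ℕ), M (((α * f⁻¹) ^ t) (α (δ j))) ∧
      ℓ (((α * f⁻¹) ^ t) (α (δ j))) = r - j - 1 := by
    intro t
    induction t with
    | zero =>
      simp only [pow_zero, Perm.one_apply]
      refine ⟨ma _ (md j (by omega)), ?_⟩
      rw [← verM _ (md j (by omega)), (lδ j (by omega)).2]
    | succ t ih =>
      rw [pow_succ', Perm.mul_apply, Perm.mul_apply, hinv]
      refine ⟨ma _ (mf _ (mf _ ih.1)), ?_⟩
      rw [← verM _ (mf _ (mf _ ih.1)), f3, ih.2]
  have hα : ∀ i < r, α (α (δ i)) = δ i := fun i _ => iv _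
  have claim : ∀ t, t < k → ((α' * f⁻¹) ^ t) (α (δ j)) = ((α * f⁻¹) ^ t) (α (δ j)) := by
    intro t
    induction t with
    | zero => intro _; simp
    | succ t ih =>
      intro ht
      rw [pow_succ', Perm.mul_apply, ih (by omega), Perm.mul_apply, pow_succ', Perm.mul_apply,
        Perm.mul_apply]
      have hM := (hMρ t).1
      have hy : M (f⁻¹ (((α * f⁻¹) ^ t) (α (δ j)))) := by
        rw [hinv]
        exact mf _ (mf _ hM)
      have hstep : ((α * f⁻¹) ^ (t+1)) (α (δ j)) = α (f⁻¹ (((α * f⁻¹) ^ t) (α (δ j)))) := by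
        rw [pow_succ', Perm.mul_apply, Perm.mul_apply]
      rcases mv _ hy with h1 | ⟨i, hi, h1⟩ | ⟨i, hi, h1⟩
      · exact h1
      · exfalso
        rw [h1] at hstep
        have h2 := (hMρ (t+1)).2
        rw [hstep, ← verM _ (md i hi), (lδ i hi).2] at h2
        have hij : i = j := by omega
        subst hij
        have h3 : ((α * f⁻¹) ^ k) (α (δ i)) = ((α * f⁻¹) ^ (k - (t+1))) (α (δ i)) := by
          conv_lhs => rw [show k = (k - (t+1)) + (t+1) by omega, pow_add, Perm.mul_apply, hstep]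
        have h4 := hkt (k - (t+1)) (by omega)
        rw [← h3, hk] at h4
        exact h4 hd
      · exfalso
        rw [h1, iv] at hstep
        have h4 := hkt (t+1) ht
        rw [hstep] at h4
        apply h4
        unfold Desc
        rw [(lδ i hi).1, (lδ i hi).2]
  have hk0 : k ≠ 0 := by
    intro h0
    rw [h0] at hk
    simp only [pow_zero, Perm.one_apply] at hk
    have h2 := (hMρ 0).2
    simp only [pow_zero, Perm.one_apply] at h2
    rw [← hk] at hd
    unfold Desc at hd
    have h3 := verM _ (ma _ (md j (by omega)))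
    rw [iv, (lδ j (by omega)).1] at h3
    omega
  refine ⟨k, ?_, ?_⟩
  · have h1 : k = (k - 1) + 1 := by omega
    rw [h1, pow_succ', Perm.mul_apply, claim (k-1) (by omega), Perm.mul_apply]
    rw [h1, pow_succ', Perm.mul_apply, Perm.mul_apply] at hk
    have h2 : f⁻¹ (((α * f⁻¹) ^ (k - 1)) (α (δ j))) = α (δ (j+1)) := by
      rw [← hk, iv]
    rw [h2, vA _ hj]
  · intro t ht
    rw [claim t ht]
    exact ⟨(hMρ t).1, hkt t ht⟩

theorem ins_geo {f α : Perm D} {ℓ : D → ℤ} {r : ℕ} {e c : D} {bs : List D} {T : Tr} {δ1 : D}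
    {δs : List D} (H : InsH f α ℓ r e c bs T δ1 δs) (ℓ' : D → ℤ)
    (h1 : ∀ d, α d ≠ d → ℓ' d = ℓ d)
    (hS : Slc f (insS f α e c bs T δ1 δs) ℓ' r e T bs (insLv f e bs T)
        (scan (insLv f e bs T) []).1 (scan (insLv f e bs T) []).2.1
        (f (f e) :: (scan (insLv f e bs T) []).2.2)) :
    Geo f (insS f α e c bs T δ1 δs) ℓ' (scan (insLv f e bs T) []).2.1 := by
  obtain ⟨_, hv2, hv3, hv4⟩ := ins_val H
  obtain ⟨m1, m2, m3, m4, m5, m6⟩ := ins_maps H
  obtain ⟨_, hlA, hlB⟩ := slc_len H.tf hS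
  obtain ⟨hdn, hst, hlvs, hpr, _⟩ := slc_lev H.tf hS
  obtain ⟨hgd, _⟩ := geo_lev H.tf H.pt H.lab δ1 δs H.geo H.nl
  rw [H.lev] at hgd
  have hr := hS.rp
  have hf := H.tf
  have hlen : (δ1 :: δs).length = r := H.len
  have hvA : ∀ i < r, insS f α e c bs T δ1 δs
      ((scan (insLv f e bs T) []).2.1.getD i e) = α ((δ1 :: δs).getD i e) := by
    intro i hi
    rw [map_getD2 _ e _ _ m2 i (by omega)]
    exact (map_getD2 α e _ _ rfl i (by omega)).symm
  constructor
  · intro d hd
    obtain ⟨i, hi, hh⟩ := mem_getD _ e d hd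
    have := dn_get f ℓ' e _ r hdn i (by omega)
    rw [hh]
    unfold Desc
    omega
  · intro p q a b hpq
    have hpl : p.length + 1 < r := by
      rw [← hlA, hpq]
      simp
    have ha : a = (scan (insLv f e bs T) []).2.1.getD p.length e := by
      rw [hpq]; simp [List.getD]
    have hb : b = (scan (insLv f e bs T) []).2.1.getD (p.length + 1) e := by
      rw [hpq]; simp [List.getD]
    obtain ⟨p', q', hpq'⟩ := getD_split (δ1 :: δs) e p.length (by omega)
    have hfst := H.geo.next _ _ _ _ hpq'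
    obtain ⟨k, hk, hkt⟩ := geo_cross (α' := insS f α e c bs T δ1 δs) (r := r) (j := p.length)
      (M := fun d => α d ≠ d)
      (A := fun i => (scan (insLv f e bs T) []).2.1.getD i e)
      (δ := fun i => (δ1 :: δs).getD i e) H.pt.inv hf.three
      (fun d hd => by rw [Ne, nl_f hf H.pt]; exact hd)
      (fun d hd => by rw [Ne, nl_a H.pt]; exact hd)
      (by
        intro d hd
        by_cases h2 : d ∈ δ1 :: δs
        · right; left
          obtain ⟨i, hi, hh⟩ := mem_getD _ e d h2
          exact ⟨i, by omega, hh⟩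
        · by_cases h3 : d ∈ (δ1 :: δs).map α
          · right; right
            obtain ⟨d0, hd0, rfl⟩ := List.mem_map.1 h3
            obtain ⟨i, hi, hh⟩ := mem_getD _ e d0 hd0
            exact ⟨i, by omega, by rw [hh]⟩
          · left
            apply hv2
            simp only [List.mem_append, not_or]
            exact ⟨⟨by rwa [← H.pt.leg d], h2⟩, h3⟩)
      (fun i hi => H.nl _ (getD_mem _ e i (by omega)))
      (fun i hi => by
        have := hvA i hi
        show insS f α e c bs T δ1 δs (α ((δ1 :: δs).getD i e)) = _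
        rw [← this, hv3])
      (fun i hi => dn_get f ℓ e _ r hgd i (by omega))
      H.lab.ver hpl hfst
    refine ⟨?_, ?_⟩
    · have := dn_get f ℓ' e _ r hdn (p.length + 1) (by omega)
      rw [hb]
      unfold Desc
      omega
    · refine ⟨k, ?_, ?_⟩
      · rw [ha, hb, hvA _ (by omega)]
        exact hk
      · intro t ht
        rw [ha, hvA _ (by omega)]
        obtain ⟨g1, g2⟩ := hkt t ht
        intro g3
        apply g2
        unfold Desc at g3 ⊢
        rw [h1 _ g1, h1 _ (by rw [Ne, nl_f hf H.pt]; exact g1)] at g3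
        exact g3
  · intro p a hpq
    have hpl : p.length + 1 = r := by
      rw [← hlA, hpq]
      simp
    have ha : a = (scan (insLv f e bs T) []).2.1.getD p.length e := by
      rw [hpq]; simp [List.getD]
    have := dn_get f ℓ' e _ r hdn p.length (by omega)
    rw [ha, this.2, ← hpl]
    push_cast
    ring

end HG39
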