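import Pool.Agent.H39.HG.Defs
import Pool.Agent.H39.HG.GlueVal
import Pool.Agent.H39.HG.GrPerm
import Pool.Agent.H39.HG.EmbBasic
import Pool.Agent.H39.HG.ScanLev
import Pool.Agent.H39.HG.ScanBal
import Pool.Agent.H39.HG.LabA
import Pool.Agent.H39.HG.LabBasic
import Pool.Agent.H39.HG.SlcBasic
import Pool.Agent.H39.HG.RotSlc
import Pool.Agent.H39.HG.RotAll
import Pool.Agent.H39.HG.InsLen
import Pool.Agent.H39.HG.InsVal
import Pool.Agent.H39.HG.InsSlc
import Pool.Agent.H39.HG.InsPT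
import Pool.Agent.H39.HG.InsGeo
import Pool.Agent.H39.HG.Lam

/-!
[H39 HG INSLAB]  (MP_bcc40c_pr)  Insertion of a slice: the labels `ℓ'` of ins_slc are distance labels.

Setting (structure `InsH`, InsLen.lean): `PT f α (e :: c :: bs)`, labels `Lab f α ℓ`, a leftmost
geodesic `δ1 :: δs` of non-legs of length `r` (`ℓ δ1 = r`), an admissible tree `T` with
`bs.length = T.sz + 1`.  `insS f α e c bs T δ1 δs` (Defs.lean) is the involution `α'` in which
 * the edges `{δ, α δ}` (`δ ∈ δ1 :: δs`) are cut,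
 * `e <-> c`, `f c <-> f (f c)` (cap), `f (f e) <-> δ1`,
 * the tree `nd d T` is grown at `f e` with the roots `bs` (pairs `g.1`, leaves `g.2.1`),
 * the parentheses of the leaves are matched (pairs `s.1`), unmatched down leaves `As = s.2.1` (length
   `r`), unmatched up leaves `Bs' = s.2.2` (length `r - 1`, last one first),
 * `Bs'[j] <-> δs[j]`, `As[j] <-> α (δ1 :: δs)[j]`.

Notation: `M` = non-legs of `α`; `ρ = α * f⁻¹`, `ρ' = α' * f⁻¹` (same cycles as `f * α`, `f * α'`,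
rho_same); `As`, `Bs = f (f e) :: Bs'`; levels: `A_j`: `r-j+1 → r-j`, `B_j`: `r-j → r-j+1` (slc_lev).
Crossing rule: for `z ∈ M`: `f⁻¹ z ∈ M`, `ρ' z = α' (f⁻¹ z)`, which is `ρ z` unless `f⁻¹ z` is on the slit;
`f⁻¹ z = α δ_i`: `ρ z = δ_i`, `ρ' z = A_i`;  `f⁻¹ z = δ_i`: `ρ z = α δ_i`, `ρ' z = B_i`.
nn: slc_lip, `H.lab.nn`, cap.  lip: same.  ver (`ℓ' (f d) = ℓ' (α' d)`): `d ∈ M` not on the slit: from
`H.lab.ver`; `d = δ_j`: `ℓ (f δ_j) = r - j = ℓ' B_j`; `d = α δ_j`: `ℓ (f (α δ_j)) = ℓ δ_j = r - j + 1 = ℓ' A_j`;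
`d` in the slice: slc_closed (inner darts); `d = A_j`: `ℓ' (f A_j) = r - j = ℓ (α δ_j)`; `d = B_j`: `ℓ' (f B_j) =
r - j + 1 = ℓ δ_j`; `d = e`: `ℓ' (f e) = r = ℓ' c`; `d = c`: `ℓ' (f c) = r = ℓ' e`; `f c`: `ℓ' (f (f c)) = r + 1 =
ℓ' (α' (f c))`; `f (f c)`: `ℓ' c = r = ℓ' (f c)`.
dsc: (a) `z ∈ M`, `0 < ℓ z`: let `k` be minimal with `ρ^k z` descending (fst_exists).  Follow: as long as
there is no crossing, the `ρ'`-path is the same.  If a crossing occurs at a step `i < k`: first kind: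
`ρ' z_i = A_m`, descending, done.  Second kind: `ρ' z_i = B_m`, level `r - m = ℓ z > 0`, so `m < r` and
slc_right leads from `B_m` to `α' B_{m+1} = δ_{m+1}`, descending.  (b) `α' A_j = α δ_j ∈ M`: (a), or level 0.
(c) `z` in the slice: slc_all: equivalent to `α' p` for an up leaf `p` (slc_up: if `p ∈ Bs` then `α' p = δ_j`
descending; if `(p,y) ∈ pr`: `α' p = y`, descending: `ℓ' y = ℓ' (f p) = ℓ' p + 1`, `ℓ' (f y) = ℓ' p`), or to
`α' A` (then (b)), or to `α' e = c` or `e`: `ρ' c = α' (f (f c)) = f c`, `ρ' (f c) = α' c = e`,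
`ρ' e = α' (f (f e)) = δ1` descending.  (d) the triangle of `c`: `c, f c` as before; `f (f c)` is itself
descending (`ℓ' c = r = ℓ' (f (f c)) - 1`).
zro: every dart of level 0 is equivalent to `α' A_r = α δ_r`.  `z ∈ M`, `ℓ z = 0`: it is in the `ρ`-cycle of
`α δ_r` (`H.lab.zro`; level of `α δ_r` is 0); follow `ρ` from `z` to the first visit of `α δ_r`; crossings of the
first kind do not occur (they lead to `δ_m`, positive level), a crossing of the second kind leads to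
`α δ_m`, level `r - m = 0`, `m = r`: this is the last step; instead `ρ'` leads to `B_r`, and slc_apex leads
from `B_r` to `α' A_r`.  (If `z = α δ_r` nothing to do.)  `z` in the slice with `ℓ' z = 0`: slc_all: the
alternatives with a descending dart, `c`, `e` are impossible (labels are constant on cycles, from ver; a
descending dart has positive level by nn; `c, e` have level `r ≥ 1`), so `z` is equivalent to some
`α' A_j`, of level `r - j`, so `j = r`.  ex0: `α δ_r`.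
-/

set_option autoImplicit false

namespace HG39

open Equiv

variable {D : Type} [Fintype D] [DecidableEq D]

theorem map_getD' (g : D → D) (e : D) (l l' : List D) (h : l.map g = l') (i : ℕ)
    (hi : i < l.length) : g (l.getD i e) = l'.getD i e := by
  subst h
  rw [List.getD_eq_getElem _ _ hi, List.getD_eq_getElem _ _ (by simpa using hi)]
  simp

theorem lvs_mem (f : Perm D) (ℓ : D → ℤ) (l : List (D × Bool)) : ∀ (s s' : ℤ),
    Lvs f ℓ s l s' → ∀ p ∈ l, ℓ (f p.1) = ℓ p.1 + (if p.2 then 1 else -1) := by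
  induction l with
  | nil => intro s s' _ p hp; simp at hp
  | cons q l ih =>
    intro s s' h p hp
    obtain ⟨h1, h2, h3⟩ := h
    rcases List.mem_cons.1 hp with rfl | hp
    · rw [h1, h2]
    · exact ih _ _ h3 p hp

/-- abstract form of the crossing structure -/
structure XS (f α α' : Perm D) (ℓ ℓ' : D → ℤ) (r : ℕ) (e c : D) (M S : D → Prop)
    (A B δ : ℕ → D) : Prop where
  rp : 1 ≤ r
  iv' : ∀ d, α' (α' d) = d
  iv : ∀ d, α (α d) = d
  nf' : ∀ d, α' d ≠ d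
  f3 : ∀ d, f (f (f d)) = d
  all : ∀ d, M d ∨ S d ∨ d = c ∨ d = f c ∨ d = f (f c)
  mf : ∀ d, M d → M (f d)
  ma : ∀ d, M d → M (α d)
  mv : ∀ d, M d → α' d = α d ∨ (∃ i < r, d = δ i) ∨ (∃ i < r, d = α (δ i))
  md : ∀ i < r, M (δ i)
  vB : ∀ i < r, α' (B i) = δ i
  vA : ∀ i < r, α' (A i) = α (δ i)
  ve : α' e = c
  vc : α' c = e
  vc1 : α' (f c) = f (f c)
  vc2 : α' (f (f c)) = f c
  lm : ∀ d, M d → ℓ' d = ℓ d
  lA : ∀ i < r, ℓ' (A i) = r - i ∧ ℓ' (f (A i)) = r - i - 1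
  lB : ∀ i < r, ℓ' (B i) = r - i - 1 ∧ ℓ' (f (B i)) = r - i
  lδ : ∀ i < r, ℓ (δ i) = r - i ∧ ℓ (f (δ i)) = r - i - 1
  nnM : ∀ d, M d → 0 ≤ ℓ d
  verM : ∀ d, M d → ℓ (f d) = ℓ (α d)
  lipM : ∀ d, M d → ℓ (f d) ≤ ℓ d + 1
  dscM : ∀ d, M d → 0 < ℓ d → ∃ k : ℕ, M (((α * f⁻¹) ^ k) d) ∧ Desc f ℓ (((α * f⁻¹) ^ k) d)
  zroM : ∀ d, M d → ℓ d = 0 → ∃ k : ℕ, ((α * f⁻¹) ^ k) d = α (δ (r - 1))
  le : ℓ' e = r
  le1 : ℓ' (f e) = r
  lc : ℓ' c = r
  lc1 : ℓ' (f c) = r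
  lc2 : ℓ' (f (f c)) = r + 1
  b0 : B 0 = f (f e)
  cl : ∀ d, S d → d = e ∨ (∃ i < r, d = A i) ∨ (∃ i < r, d = B i) ∨ ℓ' (f d) = ℓ' (α' d)
  lipS : ∀ d, S d → ℓ' (f d) ≤ ℓ' d + 1 ∧ 0 ≤ ℓ' d
  rgt : ∀ i, i + 1 < r → (α' * f⁻¹).SameCycle (B i) (α' (B (i + 1)))
  apx : (α' * f⁻¹).SameCycle (B (r - 1)) (α' (A (r - 1)))
  allS : ∀ z, S z → (∃ p, Desc f ℓ' p ∧ (α' * f⁻¹).SameCycle z p) ∨
    (∃ i < r, (α' * f⁻¹).SameCycle z (α' (A i))) ∨ (α' * f⁻¹).SameCycle z (α' e) ∨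
    (α' * f⁻¹).SameCycle z e

theorem xs_ver {f α α' : Perm D} {ℓ ℓ' : D → ℤ} {r : ℕ} {e c : D} {M S : D → Prop}
    {A B δ : ℕ → D} (H : XS f α α' ℓ ℓ' r e c M S A B δ) (d : D) : ℓ' (f d) = ℓ' (α' d) := by
  rcases H.all d with h | h | rfl | rfl | rfl
  · rcases H.mv d h with h1 | ⟨i, hi, rfl⟩ | ⟨i, hi, rfl⟩
    · rw [h1, H.lm _ (H.mf _ h), H.lm _ (H.ma _ h), H.verM _ h]
    · have h2 : α' (δ i) = B i := by rw [← H.vB i hi, H.iv']
      rw [h2, (H.lB i hi).1, H.lm _ (H.mf _ h), (H.lδ i hi).2]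
    · have h2 : α' (α (δ i)) = A i := by rw [← H.vA i hi, H.iv']
      rw [h2, (H.lA i hi).1, H.lm _ (H.mf _ h), H.verM _ h, H.iv, (H.lδ i hi).1]
  · rcases H.cl d h with rfl | ⟨i, hi, rfl⟩ | ⟨i, hi, rfl⟩ | h1
    · rw [H.le1, H.ve, H.lc]
    · rw [(H.lA i hi).2, H.vA i hi, H.lm _ (H.ma _ (H.md i hi)), ← H.verM _ (H.md i hi),
        (H.lδ i hi).2]
    · rw [(H.lB i hi).2, H.vB i hi, H.lm _ (H.md i hi), (H.lδ i hi).1]
    · exact h1
  · rw [H.lc1, H.vc, H.le]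
  · rw [H.vc1]
  · rw [H.f3, H.vc2, H.lc, H.lc1]

theorem xs_rho {f α α' : Perm D} {ℓ ℓ' : D → ℤ} {r : ℕ} {e c : D} {M S : D → Prop}
    {A B δ : ℕ → D} (H : XS f α α' ℓ ℓ' r e c M S A B δ) {a b : D}
    (h : (α' * f⁻¹).SameCycle a b) : ℓ' a = ℓ' b := by
  have h1 : ∀ z, ℓ' ((α' * f⁻¹) z) = ℓ' z := by
    intro z
    rw [Perm.mul_apply, ← xs_ver H]
    simp
  obtain ⟨k, -, rfl⟩ := h.exists_pow_eq'
  clear h
  induction k with
  | zero => simp
  | succ k ih => rw [pow_succ', Perm.mul_apply, h1, ih]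

theorem xs_step {f α' : Perm D} (z : D) : (α' * f⁻¹).SameCycle z (α' (f⁻¹ z)) :=
  ⟨1, by simp⟩

theorem xs_desc {f α α' : Perm D} {ℓ ℓ' : D → ℤ} {r : ℕ} {e c : D} {M S : D → Prop}
    {A B δ : ℕ → D} (H : XS f α α' ℓ ℓ' r e c M S A B δ) (i : ℕ) (hi : i < r) :
    Desc f ℓ' (δ i) := by
  unfold Desc
  rw [H.lm _ (H.md i hi), H.lm _ (H.mf _ (H.md i hi)), (H.lδ i hi).1, (H.lδ i hi).2]

theorem xs_minv {f α α' : Perm D} {ℓ ℓ' : D → ℤ} {r : ℕ} {e c : D} {M S : D → Prop}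
    {A B δ : ℕ → D} (H : XS f α α' ℓ ℓ' r e c M S A B δ) (z : D) (h : M z) : M (f⁻¹ z) := by
  have : f⁻¹ z = f (f z) := by
    rw [Perm.inv_eq_iff_eq, H.f3]
  rw [this]
  exact H.mf _ (H.mf _ h)

theorem xs_a {f α α' : Perm D} {ℓ ℓ' : D → ℤ} {r : ℕ} {e c : D} {M S : D → Prop}
    {A B δ : ℕ → D} (H : XS f α α' ℓ ℓ' r e c M S A B δ) : ∀ (k : ℕ) (z : D), M z → 0 < ℓ z →
    Desc f ℓ (((α * f⁻¹) ^ k) z) → ∃ d', (α' * f⁻¹).SameCycle z d' ∧ Desc f ℓ' d' := by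
  intro k
  induction k with
  | zero =>
    intro z hz _ hd
    refine ⟨z, Perm.SameCycle.refl _ _, ?_⟩
    simp only [pow_zero, Perm.one_apply] at hd
    unfold Desc at hd ⊢
    rw [H.lm _ hz, H.lm _ (H.mf _ hz), hd]
  | succ k ih =>
    intro z hz hp hd
    rw [pow_succ, Perm.mul_apply, Perm.mul_apply] at hd
    have hy := xs_minv H z hz
    have hs := xs_step (f := f) (α' := α') z
    rcases H.mv _ hy with h1 | ⟨i, hi, h1⟩ | ⟨i, hi, h1⟩
    · rw [h1] at hs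
      have hl : ℓ (α (f⁻¹ z)) = ℓ z := by
        rw [← H.verM _ hy]; simp
      obtain ⟨d', h2, h3⟩ := ih _ (H.ma _ hy) (by rw [hl]; exact hp) hd
      exact ⟨d', hs.trans h2, h3⟩
    · have h2 : α' (δ i) = B i := by rw [← H.vB i hi, H.iv']
      rw [h1, h2] at hs
      have h3 := xs_rho H hs
      rw [H.lm _ hz, (H.lB i hi).1] at h3
      have h4 : i + 1 < r := by omega
      have h5 := H.rgt i h4
      rw [H.vB _ h4] at h5
      exact ⟨δ (i+1), hs.trans h5, xs_desc H _ h4⟩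
    · have h2 : α' (α (δ i)) = A i := by rw [← H.vA i hi, H.iv']
      rw [h1, h2] at hs
      refine ⟨A i, hs, ?_⟩
      unfold Desc
      rw [(H.lA i hi).1, (H.lA i hi).2]

theorem xs_z {f α α' : Perm D} {ℓ ℓ' : D → ℤ} {r : ℕ} {e c : D} {M S : D → Prop}
    {A B δ : ℕ → D} (H : XS f α α' ℓ ℓ' r e c M S A B δ) : ∀ (k : ℕ) (z : D), M z → ℓ z = 0 →
    ((α * f⁻¹) ^ k) z = α (δ (r - 1)) → (α' * f⁻¹).SameCycle z (α (δ (r - 1))) := by
  intro k
  have hr := H.rp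
  induction k with
  | zero =>
    intro z hz _ hd
    simp only [pow_zero, Perm.one_apply] at hd
    rw [hd]
  | succ k ih =>
    intro z hz hp hd
    rw [pow_succ, Perm.mul_apply, Perm.mul_apply] at hd
    have hy := xs_minv H z hz
    have hs := xs_step (f := f) (α' := α') z
    rcases H.mv _ hy with h1 | ⟨i, hi, h1⟩ | ⟨i, hi, h1⟩
    · rw [h1] at hs
      have hl : ℓ (α (f⁻¹ z)) = ℓ z := by
        rw [← H.verM _ hy]; simp
      exact hs.trans (ih _ (H.ma _ hy) (by rw [hl]; exact hp) hd)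
    · have h2 : α' (δ i) = B i := by rw [← H.vB i hi, H.iv']
      rw [h1, h2] at hs
      have h3 := xs_rho H hs
      rw [H.lm _ hz, (H.lB i hi).1] at h3
      have h4 : i = r - 1 := by omega
      subst h4
      have h5 := H.apx
      rw [H.vA _ hi] at h5
      exact hs.trans h5
    · exfalso
      have hl : ℓ (α (f⁻¹ z)) = ℓ z := by
        rw [← H.verM _ hy]; simp
      rw [h1, H.iv, (H.lδ i hi).1, hp] at hl
      omega

theorem xs_e {f α α' : Perm D} {ℓ ℓ' : D → ℤ} {r : ℕ} {e c : D} {M S : D → Prop}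
    {A B δ : ℕ → D} (H : XS f α α' ℓ ℓ' r e c M S A B δ) :
    (α' * f⁻¹).SameCycle c (f c) ∧ (α' * f⁻¹).SameCycle (f c) e ∧
      (α' * f⁻¹).SameCycle e (δ 0) := by
  have hr := H.rp
  have hi : ∀ d, f⁻¹ d = f (f d) := by
    intro d
    rw [Perm.inv_eq_iff_eq, H.f3]
  refine ⟨?_, ?_, ?_⟩
  · have := xs_step (f := f) (α' := α') c
    rwa [hi, H.vc2] at this
  · have := xs_step (f := f) (α' := α') (f c)
    rwa [hi, H.f3, H.vc] at this
  · have := xs_step (f := f) (α' := α') e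
    rwa [hi, ← H.b0, H.vB 0 (by omega)] at this

theorem xs_dsc {f α α' : Perm D} {ℓ ℓ' : D → ℤ} {r : ℕ} {e c : D} {M S : D → Prop}
    {A B δ : ℕ → D} (H : XS f α α' ℓ ℓ' r e c M S A B δ) (z : D) (hp : 0 < ℓ' z) :
    ∃ d', (α' * f⁻¹).SameCycle z d' ∧ Desc f ℓ' d' := by
  have hr := H.rp
  obtain ⟨e1, e2, e3⟩ := xs_e H
  have hM : ∀ z, M z → 0 < ℓ' z → ∃ d', (α' * f⁻¹).SameCycle z d' ∧ Desc f ℓ' d' := by
    intro z h hp
    rw [H.lm _ h] at hp
    obtain ⟨k, _, hk⟩ := H.dscM z h hp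
    exact xs_a H k z h hp hk
  rcases H.all z with h | h | rfl | rfl | rfl
  · exact hM z h hp
  · rcases H.allS z h with ⟨p, h1, h2⟩ | ⟨i, hi, h1⟩ | h1 | h1
    · exact ⟨p, h2, h1⟩
    · have h2 := xs_rho H h1
      rw [H.vA i hi] at h1 h2
      obtain ⟨d', h3, h4⟩ := hM _ (H.ma _ (H.md i hi)) (by rw [← h2]; exact hp)
      exact ⟨d', h1.trans h3, h4⟩
    · rw [H.ve] at h1
      exact ⟨δ 0, h1.trans (e1.trans (e2.trans e3)), xs_desc H 0 (by omega)⟩
    · exact ⟨δ 0, h1.trans e3, xs_desc H 0 (by omega)⟩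
  · exact ⟨δ 0, e1.trans (e2.trans e3), xs_desc H 0 (by omega)⟩
  · exact ⟨δ 0, e2.trans e3, xs_desc H 0 (by omega)⟩
  · refine ⟨_, Perm.SameCycle.refl _ _, ?_⟩
    unfold Desc
    rw [H.f3, H.lc, H.lc2]
    ring

theorem xs_zro {f α α' : Perm D} {ℓ ℓ' : D → ℤ} {r : ℕ} {e c : D} {M S : D → Prop}
    {A B δ : ℕ → D} (H : XS f α α' ℓ ℓ' r e c M S A B δ) (hnn : ∀ d, 0 ≤ ℓ' d) (z : D)
    (hp : ℓ' z = 0) : (α' * f⁻¹).SameCycle z (α (δ (r - 1))) := by
  have hr := H.rp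
  rcases H.all z with h | h | rfl | rfl | rfl
  · rw [H.lm _ h] at hp
    obtain ⟨k, hk⟩ := H.zroM z h hp
    exact xs_z H k z h hp hk
  · rcases H.allS z h with ⟨p, h1, h2⟩ | ⟨i, hi, h1⟩ | h1 | h1
    · exfalso
      have h3 := xs_rho H h2
      have h4 := hnn (f p)
      unfold Desc at h1
      omega
    · have h2 := xs_rho H h1
      rw [H.vA i hi] at h1 h2
      rw [H.lm _ (H.ma _ (H.md i hi)), ← H.verM _ (H.md i hi), (H.lδ i hi).2] at h2
      have h3 : i = r - 1 := by omega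
      subst h3
      exact h1
    · exfalso
      have h2 := xs_rho H h1
      rw [H.ve, H.lc] at h2
      omega
    · exfalso
      have h2 := xs_rho H h1
      rw [H.le] at h2
      omega
  · have := H.lc
    omega
  · have := H.lc1
    omega
  · have := H.lc2
    omega

theorem xs_nn {f α α' : Perm D} {ℓ ℓ' : D → ℤ} {r : ℕ} {e c : D} {M S : D → Prop}
    {A B δ : ℕ → D} (H : XS f α α' ℓ ℓ' r e c M S A B δ) (z : D) :
    0 ≤ ℓ' z ∧ ℓ' (f z) ≤ ℓ' z + 1 := by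
  have hr := H.rp
  rcases H.all z with h | h | rfl | rfl | rfl
  · rw [H.lm _ h, H.lm _ (H.mf _ h)]
    exact ⟨H.nnM z h, H.lipM z h⟩
  · exact ⟨(H.lipS z h).2, (H.lipS z h).1⟩
  · rw [H.lc1, H.lc]; omega
  · rw [H.lc1, H.lc2]; omega
  · rw [H.f3, H.lc2, H.lc]; omega

theorem xs_lab {f α α' : Perm D} {ℓ ℓ' : D → ℤ} {r : ℕ} {e c : D} {M S : D → Prop}
    {A B δ : ℕ → D} (H : XS f α α' ℓ ℓ' r e c M S A B δ) : Lab f α' ℓ' := by
  have hr := H.rp
  constructor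
  · exact fun d _ => (xs_nn H d).1
  · exact fun d _ => xs_ver H d
  · exact fun d _ => (xs_nn H d).2
  · intro d _ hp
    obtain ⟨d', h1, h2⟩ := xs_dsc H d hp
    exact ⟨d', (rho_same H.iv' _ _).1 h1, H.nf' _, h2⟩
  · intro d d' _ _ h1 h2
    have hnn := fun d => (xs_nn H d).1
    exact (rho_same H.iv' _ _).1 ((xs_zro H hnn d h1).trans (xs_zro H hnn d' h2).symm)
  · refine ⟨α (δ (r - 1)), H.nf' _, ?_⟩
    have h1 := H.md (r - 1) (by omega)
    rw [H.lm _ (H.ma _ h1), ← H.verM _ h1, (H.lδ _ (by omega)).2]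
    push_cast [Nat.cast_sub hr]
    ring

theorem ins_lab {f α : Perm D} {ℓ : D → ℤ} {r : ℕ} {e c : D} {bs : List D} {T : Tr} {δ1 : D}
    {δs : List D} (H : InsH f α ℓ r e c bs T δ1 δs) (ℓ' : D → ℤ)
    (h1 : ∀ d, α d ≠ d → ℓ' d = ℓ d) (hc : ℓ' c = r) (hc1 : ℓ' (f c) = r)
    (hc2 : ℓ' (f (f c)) = r + 1)
    (hS : Slc f (insS f α e c bs T δ1 δs) ℓ' r e T bs (insLv f e bs T)
        (scan (insLv f e bs T) []).1 (scan (insLv f e bs T) []).2.1
        (f (f e) :: (scan (insLv f e bs T) []).2.2)) :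
    Lab f (insS f α e c bs T δ1 δs) ℓ' := by
  obtain ⟨_, hv2, hv3, hv4⟩ := ins_val H
  obtain ⟨m1, m2, m3, m4, m5, m6⟩ := ins_maps H
  obtain ⟨_, hlA, hlB⟩ := slc_len H.tf hS
  obtain ⟨hdn, hst, hlvs, hpr, _⟩ := slc_lev H.tf hS
  obtain ⟨hgd, _⟩ := geo_lev H.tf H.pt H.lab δ1 δs H.geo H.nl
  rw [H.lev] at hgd
  have hr := hS.rp
  have hf := H.tf
  have hM : ∀ d, α d ≠ d ↔ d ∉ tri f (e :: c :: bs) := by
    intro d
    rw [Ne, H.pt.leg d]
  have hmem : ∀ d, d ∈ tri f (e :: c :: bs) ↔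
      d ∈ tri f (e :: bs) ∨ d = c ∨ d = f c ∨ d = f (f c) := by
    intro d
    simp only [tri, List.flatMap_cons, List.mem_append, List.mem_cons, List.not_mem_nil, or_false]
    tauto
  have hlen : (δ1 :: δs).length = r := H.len
  apply xs_lab (α := α) (ℓ := ℓ) (r := r) (e := e) (c := c) (M := fun d => α d ≠ d)
    (S := fun d => d ∈ tri f (e :: bs))
    (A := fun i => (scan (insLv f e bs T) []).2.1.getD i e)
    (B := fun i => (f (f e) :: (scan (insLv f e bs T) []).2.2).getD i e)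
    (δ := fun i => (δ1 :: δs).getD i e)
  have hvB : ∀ i < r, insS f α e c bs T δ1 δs
      ((f (f e) :: (scan (insLv f e bs T) []).2.2).getD i e) = (δ1 :: δs).getD i e := by
    intro i hi
    exact map_getD' _ e _ _ m1 i (by omega)
  have hvA : ∀ i < r, insS f α e c bs T δ1 δs
      ((scan (insLv f e bs T) []).2.1.getD i e) = α ((δ1 :: δs).getD i e) := by
    intro i hi
    rw [map_getD' _ e _ _ m2 i (by omega)]
    exact (map_getD' α e _ _ rfl i (by omega)).symm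
  constructor
  · exact hr
  · exact hv3
  · exact H.pt.inv
  · exact hv4
  · exact hf.three
  · intro d
    by_cases h : α d = d
    · right
      have := (H.pt.leg d).1 h
      rw [hmem] at this
      exact this
    · left
      exact h
  · intro d hd
    rw [Ne, nl_f hf H.pt]
    exact hd
  · intro d hd
    rw [Ne, nl_a H.pt]
    exact hd
  · intro d hd
    by_cases h2 : d ∈ δ1 :: δs
    · right; left
      obtain ⟨i, hi, hh⟩ := mem_getD _ e d h2
      exact ⟨i, by omega, hh⟩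
    · by_cases h3 : d ∈ (δ1 :: δs).map α
      · right; right
        obtain ⟨d0, hd0, rfl⟩ := List.mem_map.1 h3
        obtain ⟨i, hi, hh⟩ := mem_getD _ e d0 hd0
        exact ⟨i, by omega, by rw [hh]⟩
      · left
        apply hv2
        simp only [List.mem_append, not_or]
        exact ⟨⟨(hM d).1 hd, h2⟩, h3⟩
  · intro i hi
    exact H.nl _ (getD_mem _ e i (by omega))
  · exact hvB
  · exact hvA
  · exact m3
  · exact m4
  · exact m5
  · exact m6
  · exact h1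
  · intro i hi
    exact dn_get f ℓ' e _ r hdn i (by omega)
  · intro i hi
    exact st_get f ℓ' e _ r hst i (by omega)
  · intro i hi
    exact dn_get f ℓ e _ r hgd i (by omega)
  · exact H.lab.nn
  · exact H.lab.ver
  · exact H.lab.lip
  · intro d hd hp
    obtain ⟨d', h2, h3, h4⟩ := H.lab.dsc d hd hp
    rw [← rho_same H.pt.inv] at h2
    obtain ⟨k, _, hk⟩ := h2.exists_pow_eq'
    exact ⟨k, by rw [hk]; exact h3, by rw [hk]; exact h4⟩
  · intro d hd hp
    have h2 : α ((δ1 :: δs).getD (r - 1) e) ≠ (δ1 :: δs).getD (r - 1) e :=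
      H.nl _ (getD_mem _ e _ (by omega))
    have h3 : α (α ((δ1 :: δs).getD (r - 1) e)) ≠ α ((δ1 :: δs).getD (r - 1) e) := by
      rw [Ne, nl_a H.pt]
      exact h2
    have h4 : ℓ (α ((δ1 :: δs).getD (r - 1) e)) = 0 := by
      rw [← H.lab.ver _ h2, (dn_get f ℓ e _ r hgd (r - 1) (by omega)).2]
      push_cast [Nat.cast_sub hr]
      ring
    have h5 := H.lab.zro d _ hd h3 hp h4
    rw [← rho_same H.pt.inv] at h5
    obtain ⟨k, _, hk⟩ := h5.exists_pow_eq'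
    exact ⟨k, hk⟩
  · exact hS.le
  · exact hS.lfe
  · exact hc
  · exact hc1
  · exact hc2
  · rfl
  · intro d hd
    rcases slc_closed hf hS d hd with h2 | h2 | h2 | h2
    · exact Or.inl h2
    · right; left
      obtain ⟨i, hi, hh⟩ := mem_getD _ e d h2
      exact ⟨i, by omega, hh⟩
    · right; right; left
      obtain ⟨i, hi, hh⟩ := mem_getD _ e d h2
      exact ⟨i, by omega, hh⟩
    · right; right; right
      exact h2.2.2
  · intro d hd
    have := slc_lip hf hS d hd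
    exact ⟨this.1, this.2.2⟩
  · intro i hi
    obtain ⟨p, q, hpq⟩ := getD_split _ e i (by omega : i + 1 <
      (f (f e) :: (scan (insLv f e bs T) []).2.2).length)
    obtain ⟨k, hk, _⟩ := slc_right hf hS p q _ _ hpq
    exact ⟨k, by rw [zpow_natCast]; exact hk⟩
  · have hlast : ∀ (l : List D), l.length = r → ∃ p, l = p ++ [l.getD (r - 1) e] := by
      intro l hl
      refine ⟨l.take (r - 1), ?_⟩
      rw [List.getD_eq_getElem _ _ (by omega)]
      conv_lhs => rw [← List.take_append_drop (r - 1) l]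
      rw [List.drop_eq_getElem_cons (by omega)]
      congr 2
      rw [List.drop_eq_nil_iff]
      omega
    obtain ⟨p, hp⟩ := hlast _ hlA
    obtain ⟨q, hq⟩ := hlast _ hlB
    obtain ⟨k, hk, _⟩ := slc_apex hf hS p q _ _ hp hq
    exact ⟨k, by rw [zpow_natCast]; exact hk⟩
  · intro z hz
    rcases slc_all hf hS z hz with ⟨p, hp, h2⟩ | ⟨A, hA, h2⟩ | h2 | h2
    · left
      refine ⟨_, ?_, h2⟩
      rcases slc_up hf hS p hp with h3 | ⟨y, h3⟩
      · obtain ⟨i, hi, hh⟩ := mem_getD _ e p h3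
        rw [hh, hvB i (by omega)]
        have h4 := H.nl _ (getD_mem (δ1 :: δs) e i (by omega))
        unfold Desc
        rw [h1 _ h4, h1 _ (by rw [Ne, nl_f hf H.pt]; exact h4)]
        have h5 := dn_get f ℓ e _ r hgd i (by omega)
        omega
      · have h4 := (hS.mt _ h3).1
        simp only at h4
        rw [h4]
        have h5 := hpr _ h3
        simp only at h5
        have h6 := lvs_mem f ℓ' _ _ _ hlvs _ hp
        simp only [if_true] at h6
        unfold Desc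
        omega
    · right; left
      obtain ⟨i, hi, hh⟩ := mem_getD _ e A hA
      exact ⟨i, by omega, by rw [← hh]; exact h2⟩
    · right; right; left
      exact h2
    · right; right; right
      exact h2

end HG39
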