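import Pool.Agent.H39.HG.Defs
import Pool.Agent.H39.HG.GlueVal
import Pool.Agent.H39.HG.GrPerm
import Pool.Agent.H39.HG.LabA
import Pool.Agent.H39.HG.LabBasic
import Pool.Agent.H39.HG.SlcBasic
import Pool.Agent.H39.HG.InsLen
import Pool.Agent.H39.HG.InsVal
import Pool.Agent.H39.HG.InsSlc
import Pool.Agent.H39.HG.InsPT
import Pool.Agent.H39.HG.InsGeo
import Pool.Agent.H39.HG.InsLab

/-!
[H39 HG INSITEM]  (MP_bcc40c_pr)  Insertion of a slice: the inserted slice is an `Item`.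

Setting (structure `InsH`, InsLen.lean): `PT f α (e :: c :: bs)`, labels `Lab f α ℓ`, a leftmost
geodesic `δ1 :: δs` of non-legs of length `r` (`ℓ δ1 = r`), an admissible tree `T` with
`bs.length = T.sz + 1`.  `insS f α e c bs T δ1 δs` (Defs.lean) is the involution `α'` in which
 * the edges `{δ, α δ}` (`δ ∈ δ1 :: δs`) are cut,
 * `e <-> c`, `f c <-> f (f c)` (cap), `f (f e) <-> δ1`,
 * the tree `nd d T` is grown at `f e` with the roots `bs` (pairs `g.1`, leaves `g.2.1`),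
 * the parentheses of the leaves are matched (pairs `s.1`), unmatched down leaves `As = s.2.1` (length
   `r`), unmatched up leaves `Bs' = s.2.2` (length `r - 1`, last one first),
 * `Bs'[j] <-> δs[j]`, `As[j] <-> α (δ1 :: δs)[j]`.

PROOF.  `ℓ'` from ins_slc, ins_lab, ins_geo.  cap: ins_maps.  ndc: `H.pt.ndp`.  outA, outB: `α' A_j = α δ_j`,
`α' B_j = δ_j` (ins_maps) are non-legs of `α`, and `tri f (e :: c :: bs)` are the legs.  dB: `δ_j` is
descending for `ℓ` (H.geo.desc), and `ℓ' = ℓ` on `δ_j` and `f δ_j`.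
-/

set_option autoImplicit false

namespace HG39

open Equiv

variable {D : Type} [Fintype D] [DecidableEq D]

theorem ins_item {f α : Perm D} {ℓ : D → ℤ} {r : ℕ} {e c : D} {bs : List D} {T : Tr} {δ1 : D}
    {δs : List D} (H : InsH f α ℓ r e c bs T δ1 δs) :
    ∃ ℓ' : D → ℤ, Item f (insS f α e c bs T δ1 δs) ℓ' r e c T bs (insLv f e bs T)
        (scan (insLv f e bs T) []).1 (scan (insLv f e bs T) []).2.1
        (f (f e) :: (scan (insLv f e bs T) []).2.2) := by
  obtain ⟨ℓ', h1, hc, hc1, hc2, hS⟩ := ins_slc H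
  obtain ⟨m1, m2, m3, m4, m5, m6⟩ := ins_maps H
  have hB : ∀ B ∈ f (f e) :: (scan (insLv f e bs T) []).2.2,
      insS f α e c bs T δ1 δs B ∈ δ1 :: δs := by
    intro B hB
    rw [← m1]
    exact List.mem_map_of_mem hB
  have hA : ∀ A ∈ (scan (insLv f e bs T) []).2.1,
      insS f α e c bs T δ1 δs A ∈ (δ1 :: δs).map α := by
    intro B hB
    rw [← m2]
    exact List.mem_map_of_mem hB
  refine ⟨ℓ', ins_lab H ℓ' h1 hc hc1 hc2 hS, hS, ⟨m3, m4, m5, m6⟩, H.pt.ndp, ?_, ?_, ?_,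
    ins_geo H ℓ' h1 hS⟩
  · intro A hAm
    obtain ⟨d, hd, hh⟩ := List.mem_map.1 (hA A hAm)
    rw [← hh, ← H.pt.leg, nl_a H.pt]
    exact H.nl d hd
  · intro B hBm
    rw [← H.pt.leg]
    exact H.nl _ (hB B hBm)
  · intro B hBm
    have h2 := hB B hBm
    have h3 := H.geo.desc _ h2
    unfold Desc at h3 ⊢
    rw [h1 _ (H.nl _ h2), h1 _ (by rw [Ne, nl_f H.tf H.pt]; exact H.nl _ h2), h3]

end HG39
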